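import Mathlib

section

/-!
# MP_fa364e_pr, abstract core: definitions

A *local random metric* on `ℤ^d`: a stationary random pseudometric `t` together with local events
`LE K u v s` (which imply `t u v ≤ s` and only depend on the randomness inside `K`).
Both lattice first-passage percolation and Euclidean first-passage percolation are instances.
-/

namespace FPPX

open MeasureTheory ProbabilityTheory Filter Set
open scoped Topology

/-- lattice points -/
abbrev V (d : ℕ) := Fin d → ℤ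
/-- real points (with the sup norm) -/
abbrev E (d : ℕ) := Fin d → ℝ

/-- the real vector of a lattice point -/
def tr {d : ℕ} (v : V d) : E d := fun i => (v i : ℝ)
/-- sup norm of a lattice point -/
noncomputable def nm {d : ℕ} (v : V d) : ℝ := ‖tr v‖
/-- coordinatewise rounding -/
noncomputable def rd {d : ℕ} (x : E d) : V d := fun i => round (x i)
/-- lattice balls -/
def bl {d : ℕ} (u : V d) (r : ℝ) : Set (V d) := {z | nm (z - u) ≤ r}
/-- translated set -/
def sh {d : ℕ} (x : V d) (K : Set (V d)) : Set (V d) := {z | z - x ∈ K}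

/-- negligible families of events: probabilities smaller than every power -/
def Negl {Ω : Type} [MeasurableSpace Ω] (P : Measure Ω) (B : ℝ → Set Ω) : Prop :=
  ∀ K : ℕ, ∀ᶠ r : ℝ in atTop, P.real (B r) ≤ r ^ (-(K : ℝ))

/-- stationary local random metric, without the linear lower bound -/
structure PreLRM (d : ℕ) {Ω : Type} [mΩ : MeasurableSpace Ω] (P : Measure Ω) where
  t : Ω → V d → V d → ℝ
  LE : Set (V d) → V d → V d → ℝ → Set Ω
  F : Set (V d) → MeasurableSpace Ω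
  θ : V d → Ω → Ω
  μ : E d → ℝ
  t_nonneg : ∀ ω u v, 0 ≤ t ω u v
  t_self : ∀ ω u, t ω u u = 0
  t_symm : ∀ ω u v, t ω u v = t ω v u
  t_tri : ∀ ω u v w, t ω u w ≤ t ω u v + t ω v w
  t_meas : ∀ u v, Measurable (fun ω => t ω u v)
  t_shift : ∀ x ω u v, t (θ x ω) u v = t ω (u + x) (v + x)
  θ_mp : ∀ x, MeasurePreserving (θ x) P P
  F_le : ∀ K, F K ≤ mΩ
  F_mono : ∀ K K', K ⊆ K' → F K ≤ F K'
  F_shift : ∀ x K A, MeasurableSet[F K] A → MeasurableSet[F (sh x K)] (θ x ⁻¹' A)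
  F_indep : ∀ (n : ℕ) (K : Fin n → Set (V d)), (∀ i j, i ≠ j → Disjoint (K i) (K j)) →
    iIndep (fun i => F (K i)) P
  LE_meas : ∀ K u v s, MeasurableSet[F K] (LE K u v s)
  LE_t : ∀ K u v s ω, ω ∈ LE K u v s → t ω u v ≤ s
  LE_mono : ∀ K K' u v s s', K ⊆ K' → s ≤ s' → LE K u v s ⊆ LE K' u v s'
  LE_shift : ∀ x K u v s, θ x ⁻¹' (LE K u v s) = LE (sh x K) (u + x) (v + x) s
  C1 : ℝ
  one_le_C1 : 1 ≤ C1
  hs_up : ∀ K : ℕ, ∀ᶠ r : ℝ in atTop, ∀ (ν : E d →ₗ[ℝ] ℝ) (a : ℝ) (u v : V d),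
    a ≤ ν (tr u) → a ≤ ν (tr v) → nm (v - u) ≤ r →
    P.real (LE {z | a ≤ ν (tr z)} u v (C1 * r))ᶜ ≤ r ^ (-(K : ℝ))
  lim : ∀ x : E d, ∀ ε : ℝ, 0 < ε →
    Tendsto (fun n : ℕ => P.real {ω | ε * n ≤ |t ω 0 (rd ((n : ℝ) • x)) - n * μ x|}) atTop (𝓝 0)
  μ_pos : ∀ x, x ≠ 0 → 0 < μ x

/-- the event that all pairs in the ball of radius `r` are joined by near geodesic chains with
jumps at most `r ^ ε`, which localise the metric up to `r ^ ε` -/
def PreLRM.ChainGood {d : ℕ} {Ω : Type} [MeasurableSpace Ω] {P : Measure Ω} (M : PreLRM d P)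
    (r ε : ℝ) : Set Ω :=
  {ω | ∀ u v, nm u ≤ r → nm v ≤ r → ∃ (l : ℕ) (x : ℕ → V d) (s : ℕ → ℝ),
    x 0 = u ∧ x l = v ∧ (∀ i, i < l → nm (x (i + 1) - x i) ≤ r ^ ε) ∧
    0 ≤ s 0 ∧ s l ≤ M.t ω u v + r ^ ε ∧
    (∀ i j, i ≤ j → j ≤ l → M.t ω (x i) (x j) ≤ s j - s i + r ^ ε) ∧
    (∀ K : Set (V d), (∀ i ≤ l, ∀ z, nm (z - x i) ≤ r ^ ε → z ∈ K) →
      ω ∈ M.LE K u v (M.t ω u v + r ^ ε))}

/-- stationary local random metric -/
structure LRM (d : ℕ) {Ω : Type} [mΩ : MeasurableSpace Ω] (P : Measure Ω) extends PreLRM d P where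
  chain : ∀ ε : ℝ, 0 < ε → Negl P (fun r => (toPreLRM.ChainGood r ε)ᶜ)
  c0 : ℝ
  c0_pos : 0 < c0
  linlow : Negl P (fun r => {ω | ∃ v, r ≤ nm v ∧ t ω 0 v < c0 * nm v})

/-- `μ` is a norm with explicit constants -/
structure IsNm {d : ℕ} (μ : E d → ℝ) (c C : ℝ) : Prop where
  cpos : 0 < c
  add : ∀ x y, μ (x + y) ≤ μ x + μ y
  smul : ∀ (s : ℝ) x, μ (s • x) = |s| * μ x
  lb : ∀ x, c * ‖x‖ ≤ μ x
  ub : ∀ x, μ x ≤ C * ‖x‖

/-- `ν` is a norm one functional of `μ`, norming at `p` -/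
def Supp {d : ℕ} (μ : E d → ℝ) (ν : E d →ₗ[ℝ] ℝ) (p : E d) : Prop :=
  (∀ x, ν x ≤ μ x) ∧ ν p = 1 ∧ μ p = 1

section preds

variable {d : ℕ} {Ω : Type} [MeasurableSpace Ω] {P : Measure Ω}

/-- first moment bound for the upper deviations -/
def PreLRM.U (M : PreLRM d P) (γ : ℝ) : Prop :=
  ∃ C : ℝ, ∀ x : V d, ∫ ω, max (M.t ω 0 x - M.μ (tr x)) 0 ∂P ≤ C * (1 + nm x) ^ γ

/-- pointwise upper bound with super-polynomially small error probability -/
def PreLRM.Up (M : PreLRM d P) (β : ℝ) : Prop :=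
  ∀ K : ℕ, ∀ᶠ r : ℝ in atTop, ∀ x : V d, nm x ≤ r →
    P.real {ω | M.μ (tr x) + r ^ β < M.t ω 0 x} ≤ r ^ (-(K : ℝ))

/-- uniform upper bound for all pairs in a polynomially large ball -/
def PreLRM.UpAll (M : PreLRM d P) (β : ℝ) : Prop :=
  ∀ D : ℝ, Negl P (fun r => {ω | ∃ u v : V d, nm u ≤ r ^ D ∧ nm (v - u) ≤ r ∧
    M.μ (tr (v - u)) + r ^ β < M.t ω u v})

/-- uniform lower bound for all pairs in a polynomially large ball -/
def PreLRM.Low (M : PreLRM d P) (β : ℝ) : Prop :=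
  ∀ D : ℝ, Negl P (fun r => {ω | ∃ u v : V d, nm u ≤ r ^ D ∧ nm (v - u) ≤ r ∧
    M.t ω u v < M.μ (tr (v - u)) - r ^ β})

/-- conclusion of the selection lemma -/
def PreLRM.T1 (M : PreLRM d P) (β : ℝ) : Prop :=
  ∀ D : ℝ, ∃ C : ℝ, ∀ᶠ r : ℝ in atTop, ∀ (ν : E d →ₗ[ℝ] ℝ) (p : E d), Supp M.μ ν p →
    ∀ s : ℝ, r ^ β ≤ s →
      P.real {ω | ∃ b : V d, nm b ≤ D * r ∧ M.t ω 0 b ≤ ν (tr b) - s} ≤ C * r ^ β / s

/-- there is a lattice vector at scale `m` which is reached with small excess over `ν` -/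
def PreLRM.XN (M : PreLRM d P) (ν : E d →ₗ[ℝ] ℝ) (c C m g : ℝ) : Prop :=
  ∃ X : V d, c * m ≤ ν (tr X) ∧ nm X ≤ C * m ∧
    ∫ ω, max (M.t ω 0 X - ν (tr X)) 0 ∂P ≤ g

/-- `XN` at all large scales, uniformly in the functional -/
def PreLRM.XNall (M : PreLRM d P) (β : ℝ) : Prop :=
  ∃ c C : ℝ, 0 < c ∧ 0 < C ∧ ∀ᶠ m : ℝ in atTop, ∀ (ν : E d →ₗ[ℝ] ℝ) (p : E d),
    Supp M.μ ν p → M.XN ν c C m (m ^ β)

/-- hypothesis A: two-sided control in probability -/
def PreLRM.HypA (M : PreLRM d P) (κ : ℝ) : Prop :=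
  Tendsto (fun r : ℝ => P.real {ω | ∃ v : V d, nm v ≤ r ∧ r ^ κ < |M.t ω 0 v - M.μ (tr v)|})
    atTop (𝓝 0)

/-- hypothesis B: variance bound -/
def PreLRM.HypB (M : PreLRM d P) (κ : ℝ) : Prop :=
  ∃ C : ℝ, ∀ x : V d, ∫ ω, (M.t ω 0 x - ∫ ω', M.t ω' 0 x ∂P) ^ 2 ∂P ≤ C * (1 + nm x) ^ (2 * κ)

/-- strong two-sided control -/
def PreLRM.SC (M : PreLRM d P) (κ : ℝ) : Prop :=
  Negl P (fun r => {ω | ∃ v : V d, nm v ≤ r ∧ r ^ κ < |M.t ω 0 v - M.μ (tr v)|})

end preds

end FPPX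
end

section

/-! Supporting functionals of a norm. -/

namespace FPPX

open MeasureTheory ProbabilityTheory Filter Set
open scoped Topology

variable {d : ℕ} {Ω : Type} [MeasurableSpace Ω] {P : Measure Ω} [IsProbabilityMeasure P]

theorem IsNm.normD_pos {μ : E d → ℝ} {c C : ℝ} (h : IsNm μ c C) {x : E d} (hx : x ≠ 0) :
    0 < μ x :=
  (mul_pos h.cpos (norm_pos_iff.2 hx)).trans_le (h.lb x)

theorem IsNm.normD_neg {μ : E d → ℝ} {c C : ℝ} (h : IsNm μ c C) (x : E d) :
    μ (-x) = μ x := by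
  have h1 := h.smul (-1) x
  rw [neg_one_smul, abs_neg, abs_one, one_mul] at h1
  exact h1

theorem IsNm.normD_zero {μ : E d → ℝ} {c C : ℝ} (h : IsNm μ c C) : μ 0 = 0 := by
  have h1 := h.smul 0 0
  rw [zero_smul, abs_zero, zero_mul] at h1
  exact h1

/-- Hahn-Banach: every non-zero vector is normed -/
theorem IsNm.exists_supp {μ : E d → ℝ} {c C : ℝ} (h : IsNm μ c C) {x : E d} (hx : x ≠ 0) :
    ∃ ν : E d →ₗ[ℝ] ℝ, Supp μ ν ((1 / μ x) • x) ∧ ν x = μ x := by
  have hpos := h.normD_pos hx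
  have hH : ∀ c : ℝ, c • x = 0 → RingHom.id ℝ c • μ x = 0 := by
    intro c hc
    rw [(smul_eq_zero.1 hc).resolve_right hx, map_zero, zero_smul]
  set f : E d →ₗ.[ℝ] ℝ := LinearPMap.mkSpanSingleton' (σ := RingHom.id ℝ) x (μ x) hH with hf
  have hf1 : ∀ (s : ℝ) (hs : s • x ∈ f.domain), f ⟨s • x, hs⟩ = s * μ x := fun s hs =>
    LinearPMap.mkSpanSingleton'_apply x (μ x) hH s hs
  obtain ⟨ν, hν1, hν2⟩ := exists_extension_of_le_sublinear f μ
    (fun s hs y => by rw [h.smul, abs_of_pos hs]) h.add (by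
      rintro ⟨y, hy⟩
      obtain ⟨s, rfl⟩ := Submodule.mem_span_singleton.1 hy
      rw [hf1 s hy]
      change s * μ x ≤ μ (s • x)
      rw [h.smul]
      exact mul_le_mul_of_nonneg_right (le_abs_self s) hpos.le)
  have hνx : ν x = μ x := by
    have hxm : (1 : ℝ) • x ∈ f.domain := by
      rw [one_smul]
      exact Submodule.mem_span_singleton_self (R := ℝ) x
    have h1 := hν1 ⟨(1 : ℝ) • x, hxm⟩
    rw [hf1 1 hxm, one_mul] at h1
    have h2 : ν ((1 : ℝ) • x) = μ x := h1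
    rwa [one_smul] at h2
  refine ⟨ν, ⟨hν2, ?_, ?_⟩, hνx⟩
  · rw [map_smul, hνx, smul_eq_mul]
    field_simp
  · rw [h.smul, abs_of_pos (by positivity)]
    field_simp

/-- functionals are bounded -/
theorem IsNm.abs_le {μ : E d → ℝ} {c C : ℝ} (h : IsNm μ c C) {ν : E d →ₗ[ℝ] ℝ} {p : E d}
    (hν : Supp μ ν p) (x : E d) : |ν x| ≤ C * ‖x‖ := by
  rw [abs_le']
  refine ⟨(hν.1 x).trans (h.ub x), ?_⟩
  have h1 := hν.1 (-x)
  rw [map_neg, h.normD_neg] at h1
  exact h1.trans (h.ub x)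

theorem IsNm.norm_p {μ : E d → ℝ} {c C : ℝ} (h : IsNm μ c C) {ν : E d →ₗ[ℝ] ℝ} {p : E d}
    (hν : Supp μ ν p) : 0 < C ∧ ‖p‖ ≤ 1 / c ∧ 1 / C ≤ ‖p‖ := by
  have h1 := h.lb p
  have h2 := h.ub p
  rw [hν.2.2] at h1 h2
  have hp := norm_nonneg p
  have hC : 0 < C := by
    by_contra hC
    push Not at hC
    nlinarith
  refine ⟨hC, ?_, ?_⟩
  · rw [le_div_iff₀ h.cpos]
    linarith
  · rw [div_le_iff₀ hC]
    linarith

theorem IsNm.sub_le {μ : E d → ℝ} {c C : ℝ} (h : IsNm μ c C) (x y : E d) :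
    |μ x - μ y| ≤ C * ‖x - y‖ := by
  have h1 := h.add y (x - y)
  have h2 := h.add x (y - x)
  have h3 : μ (y - x) = μ (x - y) := by
    rw [← h.normD_neg, neg_sub]
  rw [add_sub_cancel] at h1 h2
  have h4 := h.ub (x - y)
  rw [_root_.abs_le]
  constructor <;> linarith

/-- the excess `μ - ν` is non-negative and bounded by `2 C ‖x‖` -/
theorem IsNm.excess_le {μ : E d → ℝ} {c C : ℝ} (h : IsNm μ c C) {ν : E d →ₗ[ℝ] ℝ} {p : E d}
    (hν : Supp μ ν p) (x : E d) : 0 ≤ μ x - ν x ∧ μ x - ν x ≤ 2 * C * ‖x‖ := by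
  have h1 := hν.1 x
  have h2 := h.ub x
  have h3 := (_root_.abs_le.1 (h.abs_le hν x)).1
  constructor <;> linarith

end FPPX
end

section

/-! Comparison of powers at infinity. -/

namespace FPPX

open Filter Set
open scoped Topology

lemma ev_rpow_le (A : ℝ) {B : ℝ} (hB : 0 < B) {a b : ℝ} (hab : a < b) :
    ∀ᶠ r : ℝ in atTop, A * r ^ a ≤ B * r ^ b := by
  have h1 : Tendsto (fun r : ℝ => r ^ (b - a)) atTop atTop := tendsto_rpow_atTop (by linarith)
  filter_upwards [h1.eventually_ge_atTop (A / B), eventually_gt_atTop 0] with r hr h0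
  have h2 : r ^ b = r ^ (b - a) * r ^ a := by
    rw [← Real.rpow_add h0]; congr 1; ring
  rw [h2, ← mul_assoc]
  apply mul_le_mul_of_nonneg_right _ (Real.rpow_nonneg h0.le a)
  rw [div_le_iff₀ hB] at hr
  linarith

lemma ev_const_le (A : ℝ) {B : ℝ} (hB : 0 < B) {b : ℝ} (hb : 0 < b) :
    ∀ᶠ r : ℝ in atTop, A ≤ B * r ^ b := by
  filter_upwards [ev_rpow_le A hB hb] with r hr
  simpa using hr

lemma ev_rpow_sub {a : ℝ} (ha : 0 < a) : Tendsto (fun r : ℝ => r ^ a) atTop atTop :=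
  tendsto_rpow_atTop ha

/-- exponentials of powers beat powers -/
lemma ev_geom {q : ℝ} (hq : q < 1) {a B : ℝ} (ha : 0 < a) (hB : 0 < B) (K : ℕ) :
    ∀ᶠ r : ℝ in atTop, ∀ J : ℕ, B * r ^ a ≤ J → 0 ≤ q → q ^ J ≤ r ^ (-(K : ℝ)) := by
  -- choose q' in (0,1) above q
  set q' := max q (1/2) with hq'
  have hq'1 : q' < 1 := max_lt hq (by norm_num)
  have hq'0 : 0 < q' := lt_max_of_lt_right (by norm_num)
  have hlog : Real.log q' < 0 := Real.log_neg hq'0 hq'1
  -- exp (log q' * B * r^a) ≤ r^(-K)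
  have h1 : Tendsto (fun s : ℝ => Real.exp (-(-Real.log q' * B) * s) * s ^ (K / a)) atTop (𝓝 0) := by
    have := tendsto_rpow_mul_exp_neg_mul_atTop_nhds_zero (K / a) (-Real.log q' * B)
      (mul_pos (by linarith) hB)
    simpa [mul_comm] using this
  have h2 : Tendsto (fun r : ℝ => r ^ a) atTop atTop := tendsto_rpow_atTop ha
  have h3 := (h1.comp h2).eventually (Iio_mem_nhds (zero_lt_one))
  filter_upwards [h3, eventually_gt_atTop 0] with r hr hr0 J hJ hq0
  have e0 : (r ^ a) ^ (K / a) = r ^ (K : ℝ) := by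
    rw [← Real.rpow_mul hr0.le]; congr 1; field_simp
  have e1 : Real.exp (-(-Real.log q' * B) * r ^ a) * r ^ (K : ℝ) < 1 := by
    have := hr
    simp only [Function.comp] at this
    rwa [e0] at this
  have e2 : q ^ J ≤ q' ^ J := pow_le_pow_left₀ hq0 (le_max_left _ _) J
  have e3 : q' ^ J ≤ Real.exp (-(-Real.log q' * B) * r ^ a) := by
    rw [← Real.rpow_natCast, Real.rpow_def_of_pos hq'0]
    apply Real.exp_le_exp.mpr
    have : Real.log q' * J ≤ Real.log q' * (B * r ^ a) := mul_le_mul_of_nonpos_left hJ hlog.le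
    linarith
  rw [Real.rpow_neg hr0.le]
  have e4 : 0 < r ^ (K : ℝ) := Real.rpow_pos_of_pos hr0 _
  rw [← one_div, le_div_iff₀ e4]
  calc q ^ J * r ^ (K : ℝ) ≤ Real.exp (-(-Real.log q' * B) * r ^ a) * r ^ (K : ℝ) :=
        mul_le_mul_of_nonneg_right (e2.trans e3) e4.le
    _ ≤ 1 := e1.le

end FPPX
end

section

/-! Maximal volume simplices. -/

namespace FPPX

open MeasureTheory ProbabilityTheory Filter Set
open scoped Topology

/-- a compact set with interior contains a basis -/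
private lemma coverA_basis (d : ℕ) (K : Set (Fin d → ℝ)) (q : Fin d → ℝ) (η : ℝ)
    (hη : 0 < η) (hball : ∀ x, ‖x - q‖ ≤ η → x ∈ K) :
    ∃ y : Fin d → (Fin d → ℝ), (∀ i, y i ∈ K) ∧ (Matrix.of y).det ≠ 0 := by
  have hint : (interior K).Nonempty := by
    refine ⟨q, ?_⟩
    rw [mem_interior_iff_mem_nhds, Metric.mem_nhds_iff]
    refine ⟨η, hη, fun x hx => hball x ?_⟩
    rw [Metric.mem_ball, dist_eq_norm] at hx
    exact hx.le
  have hspan : Submodule.span ℝ K = ⊤ := by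
    apply Submodule.eq_top_of_nonempty_interior'
    exact hint.mono (interior_mono Submodule.subset_span)
  obtain ⟨b, hbK, hbs, hbl⟩ := exists_linearIndependent ℝ K
  have hb : ⊤ ≤ Submodule.span ℝ (Set.range ((↑) : b → (Fin d → ℝ))) := by
    rw [Subtype.range_coe, hbs, hspan]
  let B := Module.Basis.mk hbl hb
  have : Fintype b := FiniteDimensional.fintypeBasisIndex B
  have hcard : Fintype.card b = Fintype.card (Fin d) := by
    rw [← Module.finrank_eq_card_basis B, Module.finrank_fintype_fun_eq_card]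
  let e : Fin d ≃ b := (Fintype.equivOfCardEq hcard).symm
  refine ⟨fun i => (e i : Fin d → ℝ), fun i => hbK (e i).2, ?_⟩
  have hli : LinearIndependent ℝ (fun i : Fin d => ((e i : b) : Fin d → ℝ)) :=
    hbl.comp e e.injective
  have := (Matrix.linearIndependent_rows_iff_isUnit
    (A := Matrix.of (fun i : Fin d => ((e i : b) : Fin d → ℝ)))).mp hli
  rw [Matrix.isUnit_iff_isUnit_det] at this
  exact this.ne_zero

/-- a compact set with interior is spanned with coefficients at most one -/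
theorem exists_coeffs (d : ℕ) (K : Set (Fin d → ℝ)) (hK : IsCompact K) (q : Fin d → ℝ) (η : ℝ)
    (hη : 0 < η) (hball : ∀ x, ‖x - q‖ ≤ η → x ∈ K) :
    ∃ y : Fin d → (Fin d → ℝ), (∀ i, y i ∈ K) ∧
      ∀ x ∈ K, ∃ c : Fin d → ℝ, x = ∑ i, c i • y i ∧ ∀ i, |c i| ≤ 1 := by
  obtain ⟨y0, hy0, hdet0⟩ := coverA_basis d K q η hη hball
  have hcomp : IsCompact (Set.pi univ (fun _ : Fin d => K)) := isCompact_univ_pi (fun _ => hK)
  have hcont : Continuous (fun y : Fin d → (Fin d → ℝ) => |(Matrix.of y).det|) := by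
    apply Continuous.abs
    exact Continuous.matrix_det continuous_id
  obtain ⟨y, hyK, hmax⟩ := hcomp.exists_isMaxOn ⟨y0, fun i _ => hy0 i⟩ hcont.continuousOn
  have hyK' : ∀ i, y i ∈ K := fun i => hyK i (mem_univ i)
  have hpos : 0 < |(Matrix.of y).det| :=
    (abs_pos.mpr hdet0).trans_le (hmax (fun i _ => hy0 i : y0 ∈ Set.pi univ (fun _ => K)))
  have hne : (Matrix.of y).det ≠ 0 := abs_pos.mp hpos
  refine ⟨y, hyK', fun x hx => ?_⟩
  set A : Matrix (Fin d) (Fin d) ℝ := (Matrix.of y).transpose with hA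
  have hAdet : A.det = (Matrix.of y).det := Matrix.det_transpose _
  refine ⟨fun i => (A.det)⁻¹ * A.cramer x i, ?_, ?_⟩
  · have h1 : A.mulVec (A.cramer x) = A.det • x := Matrix.mulVec_cramer A x
    have h2 : x = (A.det)⁻¹ • A.mulVec (A.cramer x) := by
      rw [h1, smul_smul, inv_mul_cancel₀ (by rw [hAdet]; exact hne), one_smul]
    conv_lhs => rw [h2]
    funext j
    simp only [Pi.smul_apply, Matrix.mulVec, dotProduct, smul_eq_mul, Finset.sum_apply,
      Finset.mul_sum, hA, Matrix.transpose_apply, Matrix.of_apply]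
    apply Finset.sum_congr rfl
    intro i _
    ring
  · intro i
    rw [abs_mul, abs_inv, hAdet, inv_mul_le_iff₀ hpos, mul_one]
    have h3 : A.cramer x i = (Matrix.of (Function.update y i x)).det := by
      rw [Matrix.cramer_apply, ← Matrix.det_transpose, hA]
      congr 1
      rw [← Matrix.updateRow_transpose, Matrix.transpose_transpose]
      rfl
    rw [h3]
    apply hmax
    intro k _
    by_cases hk : k = i
    · subst hk; simpa using hx
    · simpa [Function.update_of_ne hk] using hyK' k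

end FPPX
end

section

/-! Approximate duality, without a bound on the number of terms. -/

namespace FPPX

open MeasureTheory ProbabilityTheory Filter Set
open scoped Topology

private theorem dualA_zero {d : ℕ} {μ : E d → ℝ} {c C : ℝ} (hμ : IsNm μ c C) : μ 0 = 0 := by
  have := hμ.smul 0 0
  simpa using this

private theorem dualA_nonneg {d : ℕ} {μ : E d → ℝ} {c C : ℝ} (hμ : IsNm μ c C) (y : E d) :
    0 ≤ μ y :=
  le_trans (mul_nonneg hμ.cpos.le (norm_nonneg _)) (hμ.lb y)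

private theorem dualA_pos {d : ℕ} {μ : E d → ℝ} {c C : ℝ} (hμ : IsNm μ c C) {y : E d}
    (hy : y ≠ 0) : 0 < μ y :=
  lt_of_lt_of_le (mul_pos hμ.cpos (norm_pos_iff.2 hy)) (hμ.lb y)

private theorem dualA_cont {d : ℕ} {μ : E d → ℝ} {c C : ℝ} (hμ : IsNm μ c C) :
    Continuous μ := by
  have : LipschitzWith (Real.toNNReal C) μ := by
    apply LipschitzWith.of_dist_le'
    intro x y
    rw [Real.dist_eq, dist_eq_norm]
    exact hμ.sub_le x y
  exact this.continuous

/-- a linear functional that is positive somewhere is a multiple of a supporting functional -/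
private theorem dualA_supp {d : ℕ} {μ : E d → ℝ} {c C : ℝ} (hμ : IsNm μ c C)
    (φ : E d →ₗ[ℝ] ℝ) (x : E d) (hx : 0 < φ x) :
    ∃ (M : ℝ) (p : E d), 0 < M ∧ φ x ≤ M * μ x ∧ Supp μ (M⁻¹ • φ) p := by
  have hφc : Continuous φ := φ.continuous_of_finiteDimensional
  have hx0 : x ≠ 0 := by
    rintro rfl
    simp at hx
  have hμx : 0 < μ x := dualA_pos hμ hx0
  have hK : IsCompact {y : E d | μ y ≤ 1} := by
    have hcl : IsClosed {y : E d | μ y ≤ 1} := isClosed_le (dualA_cont hμ) continuous_const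
    refine (ProperSpace.isCompact_closedBall (0 : E d) (1 / c)).of_isClosed_subset hcl ?_
    intro y hy
    rw [mem_closedBall_zero_iff, le_div_iff₀ hμ.cpos, mul_comm]
    exact (hμ.lb y).trans hy
  obtain ⟨p, hp, hmax⟩ := hK.exists_isMaxOn ⟨0, by simp [dualA_zero hμ]⟩ hφc.continuousOn
  have hbound : ∀ y, φ y ≤ φ p * μ y := by
    intro y
    by_cases hy : y = 0
    · subst hy
      simp [dualA_zero hμ]
    · have hy' := dualA_pos hμ hy
      have h1 : μ ((μ y)⁻¹ • y) ≤ 1 := by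
        rw [hμ.smul, abs_of_pos (inv_pos.2 hy'), inv_mul_cancel₀ hy'.ne']
      have h2 : φ ((μ y)⁻¹ • y) ≤ φ p := hmax h1
      rw [map_smul, smul_eq_mul, inv_mul_le_iff₀ hy'] at h2
      linarith
  have hM : 0 < φ p := by
    by_contra hcon
    have := hbound x
    have h3 : φ p * μ x ≤ 0 := mul_nonpos_of_nonpos_of_nonneg (not_lt.1 hcon) hμx.le
    linarith
  refine ⟨φ p, p, hM, hbound x, ?_, ?_, ?_⟩
  · intro y
    simp only [LinearMap.smul_apply, smul_eq_mul]
    rw [inv_mul_le_iff₀ hM]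
    exact hbound y
  · simp only [LinearMap.smul_apply, smul_eq_mul]
    exact inv_mul_cancel₀ hM.ne'
  · refine le_antisymm hp ?_
    have := hbound p
    nlinarith

theorem dual_approx {d : ℕ} {μ : E d → ℝ} {c C : ℝ} (hμ : IsNm μ c C) (Z : Set (E d × ℝ))
    (hZ : ∀ (ν : E d →ₗ[ℝ] ℝ) (p : E d), Supp μ ν p →
      ∃ z ∈ Z, z.2 ≤ ν z.1 ∧ 0 < z.2) (x : E d) (η : ℝ) (hη : 0 < η) :
    ∃ (N : ℕ) (z : Fin N → E d × ℝ) (a : Fin N → ℝ), (∀ i, z i ∈ Z) ∧
      (∀ i, 0 ≤ a i) ∧ ‖∑ i, a i • (z i).1 - x‖ ≤ η ∧ ∑ i, a i * (z i).2 ≤ μ x + η := by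
  classical
  set K : Set (E d × ℝ) := {w | ∃ (N : ℕ) (z : Fin N → E d × ℝ) (a : Fin N → ℝ), (∀ i, z i ∈ Z) ∧
      (∀ i, 0 ≤ a i) ∧ ∑ i, a i • (z i).1 = w.1 ∧ ∑ i, a i * (z i).2 ≤ w.2} with hKdef
  have hadd : ∀ w ∈ K, ∀ w' ∈ K, w + w' ∈ K := by
    rintro w ⟨N, z, a, hz, ha, h1, h2⟩ w' ⟨N', z', a', hz', ha', h1', h2'⟩
    refine ⟨N + N', Fin.append z z', Fin.append a a', ?_, ?_, ?_, ?_⟩
    · intro i
      refine Fin.addCases (fun i => ?_) (fun i => ?_) i
      · simpa using hz i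
      · simpa using hz' i
    · intro i
      refine Fin.addCases (fun i => ?_) (fun i => ?_) i
      · simpa using ha i
      · simpa using ha' i
    · rw [Fin.sum_univ_add]
      simp [h1, h1']
    · rw [Fin.sum_univ_add]
      simp only [Fin.append_left, Fin.append_right, Prod.snd_add]
      linarith
  have hsmul : ∀ s : ℝ, 0 ≤ s → ∀ w ∈ K, s • w ∈ K := by
    rintro s hs w ⟨N, z, a, hz, ha, h1, h2⟩
    refine ⟨N, z, fun i => s * a i, hz, fun i => mul_nonneg hs (ha i), ?_, ?_⟩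
    · rw [Prod.smul_fst, ← h1, Finset.smul_sum]
      exact Finset.sum_congr rfl (fun i _ => by rw [smul_smul])
    · rw [Prod.smul_snd, smul_eq_mul]
      calc ∑ i, s * a i * (z i).2 = s * ∑ i, a i * (z i).2 := by
            rw [Finset.mul_sum]
            exact Finset.sum_congr rfl (fun i _ => by ring)
        _ ≤ s * w.2 := mul_le_mul_of_nonneg_left h2 hs
  have hzero : ∀ h : ℝ, 0 ≤ h → ((0 : E d), h) ∈ K := by
    intro h hh
    exact ⟨0, Fin.elim0, Fin.elim0, fun i => i.elim0, fun i => i.elim0, by simp, by simpa using hh⟩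
  have hconv : Convex ℝ K := by
    intro w hw w' hw' s t hs ht _
    exact hadd _ (hsmul s hs w hw) _ (hsmul t ht w' hw')
  have hZK : ∀ z ∈ Z, z ∈ K := by
    intro z hz
    exact ⟨1, fun _ => z, fun _ => 1, fun _ => hz, fun _ => zero_le_one, by simp, by simp⟩
  by_cases hmem : (x, μ x) ∈ closure K
  · obtain ⟨w, hw, hd⟩ := Metric.mem_closure_iff.1 hmem η hη
    obtain ⟨N, z, a, hz, ha, h1, h2⟩ := hw
    refine ⟨N, z, a, hz, ha, ?_, ?_⟩
    · rw [h1, ← dist_eq_norm, dist_comm]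
      have := (le_max_left (dist x w.1) (dist (μ x) w.2))
      rw [Prod.dist_eq] at hd
      exact (this.trans_lt hd).le
    · have := (le_max_right (dist x w.1) (dist (μ x) w.2))
      rw [Prod.dist_eq] at hd
      have h3 := this.trans_lt hd
      rw [Real.dist_eq, abs_lt] at h3
      linarith [h3.1]
  · exfalso
    obtain ⟨f, u, hf, hu⟩ := geometric_hahn_banach_closed_point hconv.closure isClosed_closure hmem
    have hu0 : 0 < u := by
      have := hf _ (subset_closure (hzero 0 le_rfl))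
      have h0 : ((0 : E d), (0 : ℝ)) = 0 := rfl
      rw [h0, map_zero] at this
      exact this
    have hneg : ∀ w ∈ K, f w ≤ 0 := by
      intro w hw
      by_contra hcon
      push Not at hcon
      have h1 := hf _ (subset_closure (hsmul (u / f w) (div_nonneg hu0.le hcon.le) w hw))
      rw [map_smul, smul_eq_mul, div_mul_cancel₀ _ hcon.ne'] at h1
      exact lt_irrefl _ h1
    set φ : E d →ₗ[ℝ] ℝ := (f : E d × ℝ →ₗ[ℝ] ℝ).comp (LinearMap.inl ℝ (E d) ℝ) with hφ
    set s : ℝ := f ((0 : E d), (1 : ℝ)) with hs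
    have hfdec : ∀ w : E d × ℝ, f w = φ w.1 + w.2 * s := by
      intro w
      have h1 : w = (w.1, (0 : ℝ)) + w.2 • ((0 : E d), (1 : ℝ)) := by
        ext <;> simp
      have h2 : f w = f (w.1, (0 : ℝ)) + w.2 * f ((0 : E d), (1 : ℝ)) := by
        conv_lhs => rw [h1]
        rw [map_add, map_smul, smul_eq_mul]
      rw [h2]
      rfl
    have hs0 : s ≤ 0 := hneg _ (hzero 1 zero_le_one)
    have hx : 0 < φ x + μ x * s := by
      have := hfdec (x, μ x)
      simp only at this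
      rw [← this]
      exact hu0.trans hu
    have hμx := dualA_nonneg hμ x
    have hφx : 0 < φ x := by nlinarith
    obtain ⟨M, p, hM, hxM, hsupp⟩ := dualA_supp hμ φ x hφx
    obtain ⟨z, hz, hz1, hz2⟩ := hZ _ p hsupp
    have h1 := hneg z (hZK z hz)
    rw [hfdec] at h1
    simp only [LinearMap.smul_apply, smul_eq_mul] at hz1
    have h2 : M * z.2 ≤ φ z.1 := by
      have := mul_le_mul_of_nonneg_left hz1 hM.le
      rwa [← mul_assoc, mul_inv_cancel₀ hM.ne', one_mul] at this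
    have h3 : 0 < M + s := by
      by_contra hcon
      push Not at hcon
      have : (M + s) * μ x ≤ 0 := mul_nonpos_of_nonpos_of_nonneg hcon hμx
      nlinarith
    nlinarith [mul_pos h3 hz2]

end FPPX
end

section

/-! Caratheodory for cones. -/

namespace FPPX

open MeasureTheory ProbabilityTheory Filter Set
open scoped Topology

/-- Caratheodory for cones -/
theorem cone_caratheodory {d : ℕ} (Z : Set (E d × ℝ)) (N : ℕ) (z : Fin N → E d × ℝ) (a : Fin N → ℝ)
    (hz : ∀ i, z i ∈ Z) (ha : ∀ i, 0 ≤ a i) :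
    ∃ (N' : ℕ) (z' : Fin N' → E d × ℝ) (a' : Fin N' → ℝ), N' ≤ d + 2 ∧ (∀ i, z' i ∈ Z) ∧
      (∀ i, 0 ≤ a' i) ∧ ∑ i, a' i • z' i = ∑ i, a i • z i := by
  by_cases hS : ∑ i, a i = 0
  · have h0 : ∀ i, a i = 0 := by
      intro i
      exact (Finset.sum_eq_zero_iff_of_nonneg (fun i _ => ha i)).1 hS i (Finset.mem_univ i)
    refine ⟨0, Fin.elim0, Fin.elim0, by omega, fun i => i.elim0, fun i => i.elim0, ?_⟩
    simp [h0]
  · have hSpos : 0 < ∑ i, a i :=
      lt_of_le_of_ne (Finset.sum_nonneg (fun i _ => ha i)) (Ne.symm hS)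
    set S := ∑ i, a i with hSdef
    have hmem : ∑ i, (a i / S) • z i ∈ convexHull ℝ Z := by
      refine (convex_convexHull ℝ Z).sum_mem (fun i _ => div_nonneg (ha i) hSpos.le) ?_
        (fun i _ => subset_convexHull ℝ Z (hz i))
      rw [← Finset.sum_div, ← hSdef, div_self hS]
    obtain ⟨ι, hι, z', w, hz', hind, hw, hw1, hsum⟩ := eq_pos_convex_span_of_mem_convexHull hmem
    have hcard : Fintype.card ι ≤ d + 2 := by
      have h := hind.card_le_finrank_succ
      have h2 : Module.finrank ℝ (vectorSpan ℝ (Set.range z')) ≤ Module.finrank ℝ (E d × ℝ) :=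
        Submodule.finrank_le _
      have h3 : Module.finrank ℝ (E d × ℝ) = d + 1 := by
        simp [Module.finrank_prod]
      exact h.trans (Nat.add_le_add_right (h2.trans h3.le) 1)
    let e := Fintype.equivFin ι
    refine ⟨Fintype.card ι, fun i => z' (e.symm i), fun i => S * w (e.symm i), hcard,
      fun i => hz' (Set.mem_range_self _), fun i => mul_nonneg hSpos.le (hw _).le, ?_⟩
    have h1 : ∑ i : Fin (Fintype.card ι), (S * w (e.symm i)) • z' (e.symm i)
        = ∑ j : ι, (S * w j) • z' j :=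
      Equiv.sum_comp e.symm (fun j => (S * w j) • z' j)
    rw [h1]
    have h2 : ∑ j : ι, (S * w j) • z' j = S • ∑ j : ι, w j • z' j := by
      rw [Finset.smul_sum]
      exact Finset.sum_congr rfl (fun j _ => by rw [smul_smul])
    rw [h2, hsum, Finset.smul_sum]
    refine Finset.sum_congr rfl (fun i _ => ?_)
    rw [smul_smul, mul_div_cancel₀ _ hS]

end FPPX
end

section

/-! Linear programming duality (Hahn-Banach plus Caratheodory). -/

namespace FPPX

open MeasureTheory ProbabilityTheory Filter Set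
open scoped Topology

theorem dual {d : ℕ} {μ : E d → ℝ} {c C : ℝ} (hμ : IsNm μ c C) (Z : Set (E d × ℝ))
    (hZ : ∀ (ν : E d →ₗ[ℝ] ℝ) (p : E d), Supp μ ν p →
      ∃ z ∈ Z, z.2 ≤ ν z.1 ∧ 0 < z.2) (x : E d) (η : ℝ) (hη : 0 < η) :
    ∃ (N : ℕ) (z : Fin N → E d × ℝ) (a : Fin N → ℝ), N ≤ d + 2 ∧ (∀ i, z i ∈ Z) ∧
      (∀ i, 0 ≤ a i) ∧ ‖∑ i, a i • (z i).1 - x‖ ≤ η ∧ ∑ i, a i * (z i).2 ≤ μ x + η := by
  obtain ⟨N, z, a, hz, ha, h1, h2⟩ := dual_approx hμ Z hZ x η hη
  obtain ⟨N', z', a', hN, hz', ha', hs⟩ := cone_caratheodory Z N z a hz ha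
  refine ⟨N', z', a', hN, hz', ha', ?_, ?_⟩
  · have := congrArg Prod.fst hs
    simp only [Prod.fst_sum, Prod.smul_fst] at this
    rw [this]; exact h1
  · have := congrArg Prod.snd hs
    simp only [Prod.snd_sum, Prod.smul_snd, smul_eq_mul] at this
    rw [this]; exact h2

end FPPX
end

section

/-! Two counting lemmas. -/

namespace FPPX

open MeasureTheory ProbabilityTheory Filter Set
open scoped Topology

/-- a large set of indices contains many separated ones -/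
theorem sep_indices (I : Finset ℕ) (b L : ℕ) (hL : 1 ≤ L) (h : b * L ≤ I.card) :
    ∃ f : Fin b → ℕ, (∀ i, f i ∈ I) ∧ ∀ i j, i < j → f i + L ≤ f j := by
  have key : ∀ (k a : ℕ) (ha : a + k < I.card),
      I.orderEmbOfFin rfl ⟨a, by omega⟩ + k ≤ I.orderEmbOfFin rfl ⟨a + k, ha⟩ := by
    intro k
    induction k with
    | zero => intro a ha; simp
    | succ k ih =>
      intro a ha
      have h1 := ih a (by omega)
      have h2 : I.orderEmbOfFin rfl ⟨a + k, by omega⟩ < I.orderEmbOfFin rfl ⟨a + (k + 1), ha⟩ := by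
        apply (I.orderEmbOfFin rfl).strictMono
        show a + k < a + (k + 1)
        omega
      omega
  have hidx : ∀ i : Fin b, (i : ℕ) * L < I.card := by
    intro i
    have h1 : (i : ℕ) * L < b * L := Nat.mul_lt_mul_of_pos_right i.2 hL
    omega
  refine ⟨fun i => I.orderEmbOfFin rfl ⟨(i : ℕ) * L, hidx i⟩, fun i => I.orderEmbOfFin_mem rfl _,
    fun i j hij => ?_⟩
  have hij' : (i : ℕ) + 1 ≤ j := hij
  obtain ⟨m, hm⟩ := Nat.exists_eq_add_of_le hij'
  have h2 : (j : ℕ) * L = (i : ℕ) * L + (1 + m) * L := by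
    rw [hm]
    ring
  have h3 : (i : ℕ) * L + (1 + m) * L < I.card := h2 ▸ hidx j
  have h4 := key ((1 + m) * L) ((i : ℕ) * L) h3
  have h5 : L ≤ (1 + m) * L := Nat.le_mul_of_pos_left L (by omega)
  have h6 : I.orderEmbOfFin rfl ⟨(j : ℕ) * L, hidx j⟩ =
      I.orderEmbOfFin rfl ⟨(i : ℕ) * L + (1 + m) * L, h3⟩ := by
    congr 1
    exact Fin.ext h2
  show I.orderEmbOfFin rfl ⟨(i : ℕ) * L, hidx i⟩ + L ≤ I.orderEmbOfFin rfl ⟨(j : ℕ) * L, hidx j⟩
  rw [h6]
  omega

/-- counting very negative terms -/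
theorem count_neg (k : ℕ) (D : ℕ → ℝ) (Q τ S : ℝ) (hQ : 0 ≤ Q) (hτ : 0 ≤ τ)
    (hD : ∀ l, l < k → -Q ≤ D l) (hS : ∑ l ∈ Finset.range k, D l ≤ -S) :
    S ≤ ((Finset.range k).filter (fun l => D l < -τ)).card * Q + k * τ := by
  classical
  have h1 : ∑ l ∈ Finset.range k, D l ≥
      ∑ l ∈ Finset.range k, ((if D l < -τ then -Q else 0) - τ) := by
    refine Finset.sum_le_sum fun l hl => ?_
    have hl' := hD l (Finset.mem_range.mp hl)
    split_ifs with h
    · linarith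
    · linarith
  rw [Finset.sum_sub_distrib, ← Finset.sum_filter, Finset.sum_const, Finset.sum_const,
    Finset.card_range, nsmul_eq_mul, nsmul_eq_mul] at h1
  linarith

end FPPX
end

section

/-! Forward starting points. -/

namespace FPPX

open MeasureTheory ProbabilityTheory Filter Set
open scoped Topology

/-- the starting points -/
def fwd {d : ℕ} (ν : E d →ₗ[ℝ] ℝ) (D D' r : ℝ) : Set (V d) := {b | nm b ≤ D * r ∧ -(D' * r) ≤ ν (tr b)}

end FPPX
end

section

/-! A measurable majorant. -/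

namespace FPPX

open MeasureTheory ProbabilityTheory Filter Set
open scoped Topology

/-- the sum of the failures -/
private noncomputable def majH {Ω : Type} (G : ℕ → Set Ω) (v : ℕ → ℝ) (ω : Ω) : ENNReal :=
  ∑' n, ((G n)ᶜ).indicator (fun _ => ENNReal.ofReal (v (n + 1))) ω

private theorem majH_meas {Ω : Type} [MeasurableSpace Ω] {G : ℕ → Set Ω}
    (hG : ∀ n, MeasurableSet (G n)) (v : ℕ → ℝ) : Measurable (majH G v) := by
  unfold majH
  exact Measurable.tsum fun n => measurable_const.indicator (hG n).compl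

private theorem majF_meas {Ω : Type} [MeasurableSpace Ω] {G : ℕ → Set Ω}
    (hG : ∀ n, MeasurableSet (G n)) (v : ℕ → ℝ) :
    Measurable (fun ω => v 0 + (majH G v ω).toReal) :=
  (majH_meas hG v).ennreal_toReal.const_add (v 0)

private theorem maj_aux {Ω : Type} [MeasurableSpace Ω] (P : Measure Ω)
    [IsProbabilityMeasure P] (G : ℕ → Set Ω) (hG : ∀ n, MeasurableSet (G n)) (v : ℕ → ℝ)
    (hv : ∀ n, 0 ≤ v n) (S : ℝ)
    (hsum : Summable fun n => v (n + 1) * P.real (G n)ᶜ)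
    (hS : v 0 + ∑' n, v (n + 1) * P.real (G n)ᶜ ≤ S)
    (h0 : Tendsto (fun n => P.real (G n)ᶜ) atTop (𝓝 0)) :
    Integrable (fun ω => v 0 + (majH G v ω).toReal) P ∧
      ∫ ω, (v 0 + (majH G v ω).toReal) ∂P ≤ S ∧
      ∀ᵐ ω ∂P, ∃ n, ω ∈ G n ∧ v n ≤ v 0 + (majH G v ω).toReal := by
  classical
  have hm : Measurable (majH G v) := majH_meas hG v
  have hint : ∫⁻ ω, majH G v ω ∂P = ENNReal.ofReal (∑' n, v (n + 1) * P.real (G n)ᶜ) := by
    have h1 : ∫⁻ ω, majH G v ω ∂P = ∑' n, ∫⁻ ω, ((G n)ᶜ).indicator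
        (fun _ => ENNReal.ofReal (v (n + 1))) ω ∂P := by
      unfold majH
      exact lintegral_tsum fun n => (measurable_const.indicator (hG n).compl).aemeasurable
    rw [h1, ENNReal.ofReal_tsum_of_nonneg (fun n => mul_nonneg (hv _) measureReal_nonneg) hsum]
    refine tsum_congr fun n => ?_
    rw [lintegral_indicator_const (hG n).compl, ENNReal.ofReal_mul (hv _), ofReal_measureReal]
  have hfin : ∫⁻ ω, majH G v ω ∂P ≠ ⊤ := by rw [hint]; exact ENNReal.ofReal_ne_top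
  have hae : ∀ᵐ ω ∂P, majH G v ω < ⊤ := ae_lt_top hm hfin
  have hti : Integrable (fun ω => (majH G v ω).toReal) P :=
    integrable_toReal_of_lintegral_ne_top hm.aemeasurable hfin
  refine ⟨(integrable_const _).add hti, ?_, ?_⟩
  · rw [integral_add (integrable_const _) hti, integral_const, integral_toReal hm.aemeasurable hae,
      hint, ENNReal.toReal_ofReal (tsum_nonneg fun n => mul_nonneg (hv _) measureReal_nonneg)]
    simpa using hS
  · have hex : ∀ᵐ ω ∂P, ∃ n, ω ∈ G n := by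
      rw [ae_iff]
      have hset : {ω | ¬ ∃ n, ω ∈ G n} = ⋂ n, (G n)ᶜ := by
        ext ω; simp
      rw [hset]
      have h1 : P.real (⋂ n, (G n)ᶜ) ≤ 0 :=
        ge_of_tendsto' h0 fun n => measureReal_mono (iInter_subset _ n)
      have h2 : P.real (⋂ n, (G n)ᶜ) = 0 := le_antisymm h1 measureReal_nonneg
      rwa [measureReal_eq_zero_iff] at h2
    filter_upwards [hae, hex] with ω h1 h2
    refine ⟨Nat.find h2, Nat.find_spec h2, ?_⟩
    have h3 : ∀ m < Nat.find h2, ω ∉ G m := fun m hm' => Nat.find_min h2 hm'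
    generalize Nat.find h2 = n at h3
    cases n with
    | zero =>
      have := @ENNReal.toReal_nonneg (majH G v ω)
      linarith
    | succ n =>
      have h4 : ω ∈ (G n)ᶜ := h3 n (Nat.lt_succ_self n)
      have h5 : ENNReal.ofReal (v (n + 1)) ≤ majH G v ω := by
        have := ENNReal.le_tsum (f := fun n => ((G n)ᶜ).indicator
          (fun _ => ENNReal.ofReal (v (n + 1))) ω) n
        simp only [indicator_of_mem h4] at this
        exact this
      have h6 : v (n + 1) ≤ (majH G v ω).toReal := (ENNReal.ofReal_le_iff_le_toReal h1.ne).mp h5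
      have := hv 0
      linarith

/-- a measurable majorant built from events that fail with small probability -/
theorem exists_majorant {Ω : Type} [mΩ : MeasurableSpace Ω] (P : Measure Ω)
    [IsProbabilityMeasure P] (𝓕 : MeasurableSpace Ω) (h𝓕 : 𝓕 ≤ mΩ)
    (G : ℕ → Set Ω) (hG : ∀ n, MeasurableSet[𝓕] (G n)) (v : ℕ → ℝ) (hv : ∀ n, 0 ≤ v n) (S : ℝ)
    (hsum : Summable fun n => v (n + 1) * P.real (G n)ᶜ)
    (hS : v 0 + ∑' n, v (n + 1) * P.real (G n)ᶜ ≤ S)
    (h0 : Tendsto (fun n => P.real (G n)ᶜ) atTop (𝓝 0)) :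
    ∃ f : Ω → ℝ, Measurable[𝓕] f ∧ (∀ ω, 0 ≤ f ω) ∧ Integrable f P ∧ ∫ ω, f ω ∂P ≤ S ∧
      ∀ᵐ ω ∂P, ∃ n, ω ∈ G n ∧ v n ≤ f ω := by
  obtain ⟨h1, h2, h3⟩ := @maj_aux Ω mΩ P _ G (fun n => h𝓕 _ (hG n)) v hv S hsum hS h0
  exact ⟨fun ω => v 0 + (majH G v ω).toReal, @majF_meas Ω 𝓕 G hG v,
    fun ω => add_nonneg (hv 0) ENNReal.toReal_nonneg, h1, h2, h3⟩

end FPPX
end

section

/-! A measurable selector. -/

namespace FPPX

open MeasureTheory ProbabilityTheory Filter Set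
open scoped Topology

/-- a measurable selection from finitely many events -/
theorem exists_selector {d : ℕ} {Ω : Type} (𝓕 : MeasurableSpace Ω) (S0 : Finset (V d))
    (Ev : V d → Set Ω) (hEv : ∀ b ∈ S0, MeasurableSet[𝓕] (Ev b)) :
    ∃ ξ : Ω → V d, (∀ ω, ξ ω ∈ insert 0 S0) ∧ (∀ b, MeasurableSet[𝓕] (ξ ⁻¹' {b})) ∧
      (∀ ω, (∃ b ∈ S0, ω ∈ Ev b) → ξ ω ∈ S0 ∧ ω ∈ Ev (ξ ω)) ∧
      (∀ ω, (¬ ∃ b ∈ S0, ω ∈ Ev b) → ξ ω = 0) := by
  classical
  induction S0 using Finset.induction_on with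
  | empty =>
    refine ⟨fun _ => 0, fun ω => by simp, fun b => ?_, fun ω h => ?_, fun ω _ => rfl⟩
    · by_cases hb : (0 : V d) = b
      · have : (fun _ : Ω => (0 : V d)) ⁻¹' {b} = univ := by
          ext ω; simp [hb]
        rw [this]
        exact @MeasurableSet.univ _ 𝓕
      · have : (fun _ : Ω => (0 : V d)) ⁻¹' {b} = ∅ := by
          ext ω; simp [hb]
        rw [this]
        exact @MeasurableSet.empty _ 𝓕
    · obtain ⟨b, hb, -⟩ := h
      simp at hb
  | insert b S hbS ih =>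
    obtain ⟨ξ, h1, h2, h3, h4⟩ := ih fun c hc => hEv c (Finset.mem_insert_of_mem hc)
    have hb : MeasurableSet[𝓕] (Ev b) := hEv b (Finset.mem_insert_self b S)
    refine ⟨fun ω => if ω ∈ Ev b then b else ξ ω, fun ω => ?_, fun c => ?_, fun ω h => ?_,
      fun ω h => ?_⟩
    · by_cases h : ω ∈ Ev b
      · simp only [h, if_true]
        exact Finset.mem_insert_of_mem (Finset.mem_insert_self b S)
      · simp only [h, if_false]
        rcases Finset.mem_insert.mp (h1 ω) with h5 | h5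
        · rw [h5]; exact Finset.mem_insert_self _ _
        · exact Finset.mem_insert_of_mem (Finset.mem_insert_of_mem h5)
    · have hset : (fun ω => if ω ∈ Ev b then b else ξ ω) ⁻¹' {c} =
          (Ev b ∩ (if b = c then univ else ∅)) ∪ ((Ev b)ᶜ ∩ ξ ⁻¹' {c}) := by
        ext ω
        by_cases h : ω ∈ Ev b
        · by_cases hbc : b = c
          · subst hbc
            simp [h]
          · simp [h, hbc]
        · simp [h]
      rw [hset]
      refine @MeasurableSet.union _ 𝓕 _ _ ?_ (@MeasurableSet.inter _ 𝓕 _ _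
        (@MeasurableSet.compl _ _ 𝓕 hb) (h2 c))
      refine @MeasurableSet.inter _ 𝓕 _ _ hb ?_
      split_ifs
      · exact @MeasurableSet.univ _ 𝓕
      · exact @MeasurableSet.empty _ 𝓕
    · by_cases hω : ω ∈ Ev b
      · simp only [hω, if_true]
        exact ⟨Finset.mem_insert_self b S, trivial⟩
      · simp only [hω, if_false]
        obtain ⟨c, hc, hωc⟩ := h
        rcases Finset.mem_insert.mp hc with h5 | h5
        · rw [h5] at hωc
          exact absurd hωc hω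
        · obtain ⟨h6, h7⟩ := h3 ω ⟨c, h5, hωc⟩
          exact ⟨Finset.mem_insert_of_mem h6, h7⟩
    · have hω : ω ∉ Ev b := fun h' => h ⟨b, Finset.mem_insert_self b S, h'⟩
      simp only [hω, if_false]
      exact h4 ω fun ⟨c, hc, hωc⟩ => h ⟨c, Finset.mem_insert_of_mem hc, hωc⟩

end FPPX
end
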