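import Pool.Agent.Lib.MP_fa364e_pr.Mg.G002
import Pool.Agent.Lib.MP_fa364e_pr.Mg.G001

section

/-! The time constant is a norm. -/

namespace FPPX

open MeasureTheory ProbabilityTheory Filter Set
open scoped Topology

variable {d : ℕ} {Ω : Type} [MeasurableSpace Ω] {P : Measure Ω} [IsProbabilityMeasure P]

theorem PreLRM.normB_sub (M : PreLRM d P) (x y : E d) : |M.μ x - M.μ y| ≤ M.C1 * ‖x - y‖ := by
  have h1 := M.mu_add y (x - y)
  have h2 := M.mu_add x (y - x)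
  have h3 : M.μ (y - x) = M.μ (x - y) := by
    rw [← M.mu_neg, neg_sub]
  rw [add_sub_cancel] at h1 h2
  have h4 := M.mu_ub (x - y)
  rw [_root_.abs_le]
  constructor <;> linarith

theorem PreLRM.normB_rat (M : PreLRM d P) (p q : ℕ) (hq : 0 < q) (x : E d) :
    M.μ (((p : ℝ) / q) • x) = ((p : ℝ) / q) * M.μ x := by
  have hq' : (q : ℝ) ≠ 0 := by exact_mod_cast hq.ne'
  have h1 := M.mu_nat q (((p : ℝ) / q) • x)
  rw [smul_smul, mul_div_cancel₀ _ hq', M.mu_nat p x] at h1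
  rw [div_mul_eq_mul_div, eq_div_iff hq', mul_comm]
  exact h1.symm

theorem PreLRM.normB_nonneg_smul (M : PreLRM d P) (s : ℝ) (hs : 0 ≤ s) (x : E d) :
    M.μ (s • x) = s * M.μ x := by
  have h1 : Tendsto (fun n : ℕ => ((⌊s * (n : ℝ)⌋₊ : ℝ) / (n : ℝ))) atTop (𝓝 s) :=
    (tendsto_nat_floor_mul_div_atTop hs).comp tendsto_natCast_atTop_atTop
  have h2 : Tendsto (fun n : ℕ => ((⌊s * (n : ℝ)⌋₊ : ℝ) / (n : ℝ)) * M.μ x) atTop
      (𝓝 (s * M.μ x)) := h1.mul_const _
  have h3 : Tendsto (fun n : ℕ => M.μ (((⌊s * (n : ℝ)⌋₊ : ℝ) / (n : ℝ)) • x)) atTop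
      (𝓝 (M.μ (s • x))) := by
    rw [tendsto_iff_norm_sub_tendsto_zero]
    have h4 : Tendsto (fun n : ℕ => M.C1 *
        ‖((⌊s * (n : ℝ)⌋₊ : ℝ) / (n : ℝ)) • x - s • x‖) atTop (𝓝 (M.C1 * 0)) :=
      (tendsto_iff_norm_sub_tendsto_zero.1 (h1.smul_const x)).const_mul _
    rw [mul_zero] at h4
    exact squeeze_zero (fun n => norm_nonneg _) (fun n => M.normB_sub _ _) h4
  have h5 : (fun n : ℕ => M.μ (((⌊s * (n : ℝ)⌋₊ : ℝ) / (n : ℝ)) • x)) =ᶠ[atTop]
      fun n : ℕ => ((⌊s * (n : ℝ)⌋₊ : ℝ) / (n : ℝ)) * M.μ x := by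
    filter_upwards [eventually_gt_atTop 0] with n hn
    exact M.normB_rat _ _ hn x
  exact tendsto_nhds_unique (h3.congr' h5) h2

theorem PreLRM.normB_smul (M : PreLRM d P) (s : ℝ) (x : E d) : M.μ (s • x) = |s| * M.μ x := by
  rcases le_total 0 s with hs | hs
  · rw [abs_of_nonneg hs]
    exact M.normB_nonneg_smul s hs x
  · rw [abs_of_nonpos hs, ← M.normB_nonneg_smul (-s) (by linarith) x, neg_smul, M.mu_neg]

theorem PreLRM.exists_isNm (M : PreLRM d P) : ∃ c C : ℝ, IsNm M.μ c C := by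
  have hcont : Continuous M.μ := by
    rw [continuous_iff_continuousAt]
    intro x
    rw [ContinuousAt, tendsto_iff_norm_sub_tendsto_zero]
    have h4 : Tendsto (fun y : E d => M.C1 * ‖y - x‖) (𝓝 x) (𝓝 (M.C1 * 0)) :=
      (tendsto_iff_norm_sub_tendsto_zero.1 tendsto_id).const_mul _
    rw [mul_zero] at h4
    exact squeeze_zero (fun n => norm_nonneg _) (fun n => M.normB_sub _ _) h4
  have hlow : ∃ c : ℝ, 0 < c ∧ ∀ x, ‖x‖ = 1 → c ≤ M.μ x := by
    by_cases hne : (Metric.sphere (0 : E d) 1).Nonempty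
    · obtain ⟨x, hx, hmin⟩ := (isCompact_sphere (0 : E d) 1).exists_isMinOn hne
        hcont.continuousOn
      have hx1 : ‖x‖ = 1 := by simpa using hx
      refine ⟨M.μ x, M.μ_pos x ?_, fun y hy => hmin (by simpa using hy)⟩
      intro h0
      rw [h0, norm_zero] at hx1
      exact zero_ne_one hx1
    · refine ⟨1, one_pos, fun x hx => ?_⟩
      exact absurd ⟨x, by simpa using hx⟩ hne
  obtain ⟨c, hc, hlow⟩ := hlow
  refine ⟨c, M.C1, hc, M.mu_add, M.normB_smul, ?_, M.mu_ub⟩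
  intro x
  by_cases hx : x = 0
  · subst hx
    have h1 := M.normB_smul 0 0
    rw [zero_smul, abs_zero, zero_mul] at h1
    rw [h1, norm_zero, mul_zero]
  · have hn : 0 < ‖x‖ := norm_pos_iff.2 hx
    have h1 : ‖(‖x‖⁻¹) • x‖ = 1 := by
      rw [norm_smul, norm_inv, norm_norm, inv_mul_cancel₀ hn.ne']
    have h2 := hlow _ h1
    rw [M.normB_smul, abs_of_pos (inv_pos.2 hn)] at h2
    rw [mul_comm]
    calc ‖x‖ * c ≤ ‖x‖ * (‖x‖⁻¹ * M.μ x) := mul_le_mul_of_nonneg_left h2 hn.le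
      _ = M.μ x := by field_simp

end FPPX
end

section

/-! The mean and the time constant. -/

namespace FPPX

open MeasureTheory ProbabilityTheory Filter Set
open scoped Topology

variable {d : ℕ} {Ω : Type} [MeasurableSpace Ω] {P : Measure Ω} [IsProbabilityMeasure P]

theorem PreLRM.normC_int (M : PreLRM d P) (u v : V d) : Integrable (fun ω => M.t ω u v) P := by
  simpa using M.integrable_pow 1 u v

/-- `|y| ≤ ε + L 1{|y| ≥ ε} + y² / L` -/
theorem normC_trunc (y ε L : ℝ) (hL : 0 < L) (s : Set ℝ) [Decidable (y ∈ s)]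
    (hs : ε ≤ |y| → y ∈ s) (hε : 0 ≤ ε) :
    |y| ≤ ε + L * (if y ∈ s then 1 else 0) + y ^ 2 / L := by
  have h0 : 0 ≤ y ^ 2 / L := by positivity
  by_cases h1 : ε ≤ |y|
  · rw [if_pos (hs h1), mul_one]
    rcases le_total |y| L with h2 | h2
    · linarith
    · have h3 : |y| ≤ y ^ 2 / L := by
        rw [le_div_iff₀ hL, ← sq_abs, sq]
        exact mul_le_mul_of_nonneg_left h2 (abs_nonneg y)
      linarith
  · push Not at h1
    have h2 : 0 ≤ L * (if y ∈ s then (1 : ℝ) else 0) := by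
      split_ifs <;> simp [hL.le]
    linarith

/-- convergence of the mean along integers -/
theorem PreLRM.normC_nat (M : PreLRM d P) (x : E d) :
    Tendsto (fun n : ℕ => (∫ ω, M.t ω 0 (rd ((n : ℝ) • x)) ∂P) / n) atTop (𝓝 (M.μ x)) := by
  obtain ⟨C, hC⟩ := M.moment 2
  have hC0 : 0 ≤ C := by
    have h1 := hC 0
    rw [nm_zero, add_zero, one_pow, mul_one] at h1
    exact (integral_nonneg fun ω => sq_nonneg _).trans h1
  set a := M.μ x with ha
  -- a uniform bound for the second moment of `t / n - a`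
  set K : ℝ := 2 * (C * (2 + ‖x‖) ^ 2) + 2 * a ^ 2 with hK
  have hK0 : 0 ≤ K := by positivity
  rw [Metric.tendsto_atTop']
  intro δ hδ
  set ε := δ / 4 with hε
  have hε0 : 0 < ε := by rw [hε]; linarith
  set L := 4 * K / δ + 1 with hL
  have hL0 : 0 < L := by positivity
  have hKL : K / L ≤ δ / 4 := by
    rw [div_le_iff₀ hL0, hL]
    have : δ / 4 * (4 * K / δ + 1) = K + δ / 4 := by field_simp
    rw [this]
    linarith
  have hlim := M.lim x ε hε0
  have h1 : ∀ᶠ n : ℕ in atTop, P.real {ω | ε * n ≤ |M.t ω 0 (rd ((n : ℝ) • x)) - n * M.μ x|} <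
      δ / (4 * L) := hlim.eventually_lt_const (by positivity)
  have h2 := h1.and (eventually_gt_atTop 0)
  rw [eventually_atTop] at h2
  obtain ⟨N, hN⟩ := h2
  refine ⟨N, fun n hn => ?_⟩
  obtain ⟨hn1, hn2⟩ := hN n hn.le
  have hn0 : (0 : ℝ) < n := by exact_mod_cast hn2
  have hn1' : (1 : ℝ) ≤ n := by exact_mod_cast hn2
  set Y : Ω → ℝ := fun ω => M.t ω 0 (rd ((n : ℝ) • x)) / n - a with hY
  have hYm : Measurable Y := ((M.t_meas _ _).div_const _).sub_const _
  have hYi : Integrable Y P := ((M.normC_int _ _).div_const _).sub (integrable_const _)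
  have hY2i : Integrable (fun ω => Y ω ^ 2) P := by
    have h3 : (fun ω => Y ω ^ 2) = fun ω => M.t ω 0 (rd ((n : ℝ) • x)) ^ 2 / n ^ 2 -
        2 * a / n * M.t ω 0 (rd ((n : ℝ) • x)) + a ^ 2 := by
      funext ω
      simp only [hY]
      field_simp
      ring
    rw [h3]
    exact (((M.integrable_pow 2 _ _).div_const _).sub ((M.normC_int _ _).const_mul _)).add
      (integrable_const _)
  have hY2 : ∫ ω, Y ω ^ 2 ∂P ≤ K := by
    have h3 : ∀ ω, Y ω ^ 2 ≤ 2 * (M.t ω 0 (rd ((n : ℝ) • x)) ^ 2 / n ^ 2) + 2 * a ^ 2 := by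
      intro ω
      have h4 : M.t ω 0 (rd ((n : ℝ) • x)) ^ 2 / (n : ℝ) ^ 2 =
          (M.t ω 0 (rd ((n : ℝ) • x)) / n) ^ 2 := by rw [div_pow]
      rw [h4]
      simp only [hY]
      nlinarith [sq_nonneg (M.t ω 0 (rd ((n : ℝ) • x)) / n + a)]
    have h5 : Integrable (fun ω => 2 * (M.t ω 0 (rd ((n : ℝ) • x)) ^ 2 / (n : ℝ) ^ 2) + 2 * a ^ 2)
        P := (((M.integrable_pow 2 _ _).div_const _).const_mul 2).add (integrable_const _)
    refine (integral_mono hY2i h5 h3).trans ?_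
    rw [integral_add (((M.integrable_pow 2 _ _).div_const _).const_mul 2) (integrable_const _),
      integral_const_mul, integral_div, integral_const, probReal_univ, one_smul]
    have h6 := hC (rd ((n : ℝ) • x))
    have h7 : 1 + nm (rd ((n : ℝ) • x)) ≤ n * (2 + ‖x‖) := by
      have h8 := nm_rd_le ((n : ℝ) • x)
      rw [norm_smul, Real.norm_eq_abs, Nat.abs_cast] at h8
      nlinarith [norm_nonneg x]
    have h9 : (1 + nm (rd ((n : ℝ) • x))) ^ 2 ≤ (n * (2 + ‖x‖)) ^ 2 :=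
      pow_le_pow_left₀ (by have := nm_nonneg (rd ((n : ℝ) • x)); linarith) h7 2
    have h10 : (∫ ω, M.t ω 0 (rd ((n : ℝ) • x)) ^ 2 ∂P) / (n : ℝ) ^ 2 ≤ C * (2 + ‖x‖) ^ 2 := by
      rw [div_le_iff₀ (by positivity)]
      refine h6.trans ?_
      have := mul_le_mul_of_nonneg_left h9 hC0
      refine this.trans_eq ?_
      ring
    rw [hK]
    linarith
  have hA : MeasurableSet {ω | ε ≤ |Y ω|} := measurableSet_le measurable_const hYm.abs
  have hPA : P.real {ω | ε ≤ |Y ω|} < δ / (4 * L) := by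
    refine lt_of_eq_of_lt ?_ hn1
    congr 1
    ext ω
    simp only [mem_ofPred_eq, hY]
    have h3 : M.t ω 0 (rd ((n : ℝ) • x)) - n * M.μ x =
        n * (M.t ω 0 (rd ((n : ℝ) • x)) / n - a) := by
      rw [ha]
      field_simp
    rw [h3, abs_mul, Nat.abs_cast, mul_comm ε]
    exact (mul_le_mul_iff_right₀ hn0).symm
  have hint : ∫ ω, |Y ω| ∂P ≤ ε + L * P.real {ω | ε ≤ |Y ω|} + K / L := by
    have h3 : ∀ ω, |Y ω| ≤ ε + L * ({ω | ε ≤ |Y ω|}.indicator (fun _ => (1 : ℝ)) ω) +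
        Y ω ^ 2 / L := by
      intro ω
      classical
      have h4 := normC_trunc (Y ω) ε L hL0 {y | ε ≤ |y|} (fun h => h) hε0.le
      refine h4.trans_eq ?_
      congr 3
    have i1 : Integrable (fun ω => {ω | ε ≤ |Y ω|}.indicator (fun _ => (1 : ℝ)) ω) P :=
      (integrable_const (1 : ℝ)).indicator hA
    have i2 : Integrable (fun ω => ε + L * ({ω | ε ≤ |Y ω|}.indicator (fun _ => (1 : ℝ)) ω)) P :=
      (integrable_const _).add (i1.const_mul L)
    refine (integral_mono hYi.abs (i2.add (hY2i.div_const L)) h3).trans ?_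
    refine (integral_add i2 (hY2i.div_const L)).le.trans ?_
    rw [integral_add (integrable_const _) (i1.const_mul L),
      integral_const, probReal_univ, one_smul, integral_const_mul, integral_indicator_const _ hA,
      smul_eq_mul, mul_one, integral_div]
    have := div_le_div_of_nonneg_right hY2 hL0.le
    linarith
  have hmean : (∫ ω, M.t ω 0 (rd ((n : ℝ) • x)) ∂P) / n - a = ∫ ω, Y ω ∂P := by
    simp only [hY]
    rw [integral_sub ((M.normC_int _ _).div_const _) (integrable_const _), integral_div,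
      integral_const, probReal_univ, one_smul]
  rw [Real.dist_eq, hmean]
  refine (abs_integral_le_integral_abs).trans_lt ?_
  have h11 : L * P.real {ω | ε ≤ |Y ω|} < δ / 4 := by
    have := mul_lt_mul_of_pos_left hPA hL0
    refine this.trans_eq ?_
    field_simp
  rw [hε] at hint
  rw [hε] at h11
  linarith

/-- convergence of the mean along real multiples -/
theorem PreLRM.mean_lim (M : PreLRM d P) (x : E d) :
    Tendsto (fun s : ℝ => (∫ ω, M.t ω 0 (rd (s • x)) ∂P) / s) atTop (𝓝 (M.μ x)) := by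
  obtain ⟨C, hC⟩ := M.moment 1
  simp only [pow_one] at hC
  have hC0 : 0 ≤ C := by
    have h1 := hC 0
    rw [nm_zero, add_zero, mul_one] at h1
    exact (integral_nonneg fun ω => M.t_nonneg _ _ _).trans h1
  set B : ℝ := C * (2 + ‖x‖) with hB
  -- the means at `s` and at `⌊s⌋`
  have h1 : ∀ s : ℝ, 0 ≤ s → |(∫ ω, M.t ω 0 (rd (s • x)) ∂P) -
      ∫ ω, M.t ω 0 (rd ((⌊s⌋₊ : ℝ) • x)) ∂P| ≤ B := by
    intro s hs
    rw [← integral_sub (M.normC_int _ _) (M.normC_int _ _)]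
    refine (abs_integral_le_integral_abs).trans ?_
    have h2 : ∫ ω, |M.t ω 0 (rd (s • x)) - M.t ω 0 (rd ((⌊s⌋₊ : ℝ) • x))| ∂P ≤
        ∫ ω, M.t ω (rd ((⌊s⌋₊ : ℝ) • x)) (rd (s • x)) ∂P :=
      integral_mono ((M.normC_int _ _).sub (M.normC_int _ _)).abs (M.normC_int _ _)
        (fun ω => M.normA_abs ω _ _)
    refine h2.trans ?_
    have h3 := M.integral_shift (rd ((⌊s⌋₊ : ℝ) • x)) (rd (s • x)) id measurable_id
    simp only [id] at h3
    rw [h3]
    refine (hC _).trans ?_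
    apply mul_le_mul_of_nonneg_left _ hC0
    have h4 := norm_rd_sub (s • x)
    have h5 := norm_rd_sub ((⌊s⌋₊ : ℝ) • x)
    have h6 : nm (rd (s • x) - rd ((⌊s⌋₊ : ℝ) • x)) ≤ 1 + ‖x‖ := by
      unfold nm
      rw [tr_sub]
      have h7 : tr (rd (s • x)) - tr (rd ((⌊s⌋₊ : ℝ) • x)) = (tr (rd (s • x)) - s • x) -
          (tr (rd ((⌊s⌋₊ : ℝ) • x)) - (⌊s⌋₊ : ℝ) • x) + (s - (⌊s⌋₊ : ℝ)) • x := by
        rw [sub_smul]
        abel
      rw [h7]
      refine (norm_add_le _ _).trans ?_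
      have h8 := norm_sub_le (tr (rd (s • x)) - s • x)
        (tr (rd ((⌊s⌋₊ : ℝ) • x)) - (⌊s⌋₊ : ℝ) • x)
      have h9 : ‖(s - (⌊s⌋₊ : ℝ)) • x‖ ≤ ‖x‖ := by
        rw [norm_smul, Real.norm_eq_abs]
        have h10 := Nat.floor_le hs
        have h11 := Nat.lt_floor_add_one s
        have h12 : |s - (⌊s⌋₊ : ℝ)| ≤ 1 := by
          rw [abs_le]
          constructor <;> linarith
        calc |s - (⌊s⌋₊ : ℝ)| * ‖x‖ ≤ 1 * ‖x‖ :=
              mul_le_mul_of_nonneg_right h12 (norm_nonneg x)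
          _ = ‖x‖ := one_mul _
      linarith
    linarith
  have h2 : Tendsto (fun s : ℝ => ((∫ ω, M.t ω 0 (rd ((⌊s⌋₊ : ℝ) • x)) ∂P) / (⌊s⌋₊ : ℝ)) *
      ((⌊s⌋₊ : ℝ) / s)) atTop (𝓝 (M.μ x * 1)) :=
    ((M.normC_nat x).comp tendsto_nat_floor_atTop).mul tendsto_nat_floor_div_atTop
  rw [mul_one] at h2
  have h3 : Tendsto (fun s : ℝ => B / s) atTop (𝓝 0) := tendsto_const_nhds.div_atTop tendsto_id
  have h4 : Tendsto (fun s : ℝ => (∫ ω, M.t ω 0 (rd (s • x)) ∂P) / s -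
      ((∫ ω, M.t ω 0 (rd ((⌊s⌋₊ : ℝ) • x)) ∂P) / (⌊s⌋₊ : ℝ)) * ((⌊s⌋₊ : ℝ) / s))
      atTop (𝓝 0) := by
    rw [tendsto_zero_iff_norm_tendsto_zero]
    refine squeeze_zero' (Eventually.of_forall fun s => norm_nonneg _) ?_ h3
    filter_upwards [eventually_ge_atTop 1] with s hs
    have hs0 : 0 < s := by linarith
    have hf : (⌊s⌋₊ : ℝ) ≠ 0 := by
      have : 1 ≤ ⌊s⌋₊ := Nat.le_floor (by simpa using hs)
      exact_mod_cast (by omega : ⌊s⌋₊ ≠ 0)
    have h5 : (∫ ω, M.t ω 0 (rd (s • x)) ∂P) / s -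
      ((∫ ω, M.t ω 0 (rd ((⌊s⌋₊ : ℝ) • x)) ∂P) / (⌊s⌋₊ : ℝ)) * ((⌊s⌋₊ : ℝ) / s) =
      ((∫ ω, M.t ω 0 (rd (s • x)) ∂P) - ∫ ω, M.t ω 0 (rd ((⌊s⌋₊ : ℝ) • x)) ∂P) / s := by
      field_simp
    rw [h5, norm_div, Real.norm_eq_abs, Real.norm_eq_abs, abs_of_pos hs0]
    exact div_le_div_of_nonneg_right (h1 s hs0.le) hs0.le
  have h5 := h4.add h2
  rw [zero_add] at h5
  refine h5.congr fun s => ?_
  ring

theorem PreLRM.mu_le_mean (M : PreLRM d P) (x : V d) :
    M.μ (tr x) ≤ ∫ ω, M.t ω 0 x ∂P := by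
  have h1 : ∀ n : ℕ, ∫ ω, M.t ω 0 (n • x) ∂P ≤ n * ∫ ω, M.t ω 0 x ∂P := by
    intro n
    induction n with
    | zero =>
      simp only [zero_smul, M.t_self, integral_zero, Nat.cast_zero, zero_mul]
      exact le_rfl
    | succ n ih =>
      have h2 : ∫ ω, M.t ω 0 ((n + 1) • x) ∂P ≤
          ∫ ω, (M.t ω 0 (n • x) + M.t ω (n • x) ((n + 1) • x)) ∂P :=
        integral_mono (M.normC_int _ _) ((M.normC_int _ _).add (M.normC_int _ _))
          (fun ω => M.t_tri ω _ _ _)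
      rw [integral_add (M.normC_int _ _) (M.normC_int _ _)] at h2
      have h3 := M.integral_shift (n • x) ((n + 1) • x) id measurable_id
      simp only [id] at h3
      have h4 : (n + 1) • x - n • x = x := by
        rw [succ_nsmul]
        abel
      rw [h3, h4] at h2
      push_cast
      linarith
  refine le_of_tendsto (M.normC_nat (tr x)) ?_
  filter_upwards [eventually_gt_atTop 0] with n hn
  have hn' : (0 : ℝ) < n := by exact_mod_cast hn
  rw [div_le_iff₀ hn', ← tr_nsmul, rd_tr, mul_comm]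
  exact h1 n

end FPPX
end

section

/-! The time constant is a norm: constants. -/

namespace FPPX

open MeasureTheory ProbabilityTheory Filter Set
open scoped Topology

variable {d : ℕ} {Ω : Type} [MeasurableSpace Ω] {P : Measure Ω} [IsProbabilityMeasure P]

/-- lower norm constant -/
noncomputable def PreLRM.cm (M : PreLRM d P) : ℝ := Classical.choose M.exists_isNm

/-- upper norm constant -/
noncomputable def PreLRM.CM (M : PreLRM d P) : ℝ :=
  Classical.choose (Classical.choose_spec M.exists_isNm)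

theorem PreLRM.isNm (M : PreLRM d P) : IsNm M.μ M.cm M.CM :=
  Classical.choose_spec (Classical.choose_spec M.exists_isNm)

end FPPX
end

section

/-! Good vectors at scale `m`. -/

namespace FPPX

open MeasureTheory ProbabilityTheory Filter Set
open scoped Topology

variable {d : ℕ} {Ω : Type} [MeasurableSpace Ω] {P : Measure Ω} [IsProbabilityMeasure P]

/-- a good vector at scale `m`, with relative excess `A` of the mean -/
def PreLRM.GP (M : PreLRM d P) (ν : E d →ₗ[ℝ] ℝ) (m A : ℝ) : Prop :=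
  ∃ X : V d, m ≤ nm X ∧ nm X ≤ 2 * m ∧ ∫ ω, M.t ω 0 X ∂P ≤ (1 + A) * ν (tr X)

end FPPX
end

section

/-! Good vectors at very large scales. -/

namespace FPPX

open MeasureTheory ProbabilityTheory Filter Set
open scoped Topology

variable {d : ℕ} {Ω : Type} [MeasurableSpace Ω] {P : Measure Ω} [IsProbabilityMeasure P]

theorem PreLRM.GP_start (M : PreLRM d P) (ν : E d →ₗ[ℝ] ℝ) (p : E d) (hν : Supp M.μ ν p)
    (A : ℝ) (hA : 0 < A) : ∀ᶠ m : ℝ in atTop, M.GP ν m A := by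
  obtain ⟨hC, -, hpl⟩ := M.isNm.norm_p hν
  have hp0 : 0 < ‖p‖ := lt_of_lt_of_le (by positivity) hpl
  have hs : Tendsto (fun m : ℝ => 3 / (2 * ‖p‖) * m) atTop atTop :=
    tendsto_id.const_mul_atTop (by positivity)
  have hlim := M.mean_lim p
  rw [hν.2.2] at hlim
  have h1 : ∀ᶠ s : ℝ in atTop, (∫ ω, M.t ω 0 (rd (s • p)) ∂P) / s < 1 + A / 2 :=
    hlim.eventually (gt_mem_nhds (by linarith))
  filter_upwards [hs.eventually h1, hs.eventually (eventually_ge_atTop ((1 + A) * M.CM / A)),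
    hs.eventually (eventually_gt_atTop 0), eventually_ge_atTop 1] with m hm1 hm2 hm3 hm4
  set s : ℝ := 3 / (2 * ‖p‖) * m with hsd
  have hsp : s * ‖p‖ = 3 / 2 * m := by
    rw [hsd]
    field_simp
  refine ⟨rd (s • p), ?_, ?_, ?_⟩
  · have h2 := norm_rd_sub (s • p)
    have h3 : ‖s • p‖ = 3 / 2 * m := by
      rw [norm_smul, Real.norm_eq_abs, abs_of_pos hm3, hsp]
    have h4 : ‖s • p‖ ≤ ‖tr (rd (s • p))‖ + ‖tr (rd (s • p)) - s • p‖ := by
      have := norm_sub_le (tr (rd (s • p))) (tr (rd (s • p)) - s • p)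
      rwa [sub_sub_cancel] at this
    show m ≤ ‖tr (rd (s • p))‖
    linarith
  · have h2 := nm_rd_le (s • p)
    have h3 : ‖s • p‖ = 3 / 2 * m := by
      rw [norm_smul, Real.norm_eq_abs, abs_of_pos hm3, hsp]
    linarith
  · have h2 : (∫ ω, M.t ω 0 (rd (s • p)) ∂P) < (1 + A / 2) * s := by
      rwa [div_lt_iff₀ hm3] at hm1
    have h3 : s - M.CM / 2 ≤ ν (tr (rd (s • p))) := by
      have e1 : ν (tr (rd (s • p))) = s + ν (tr (rd (s • p)) - s • p) := by
        rw [map_sub, map_smul, hν.2.1, smul_eq_mul]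
        ring
      have e2 := M.isNm.abs_le hν (tr (rd (s • p)) - s • p)
      have e3 := norm_rd_sub (s • p)
      have e4 : M.CM * ‖tr (rd (s • p)) - s • p‖ ≤ M.CM * (1 / 2) :=
        mul_le_mul_of_nonneg_left e3 hC.le
      have e5 := (abs_le.1 e2).1
      rw [e1]
      linarith
    have h4 : (1 + A) * M.CM ≤ s * A := by
      rwa [div_le_iff₀ hA] at hm2
    have h5 : (1 + A) * (s - M.CM / 2) ≤ (1 + A) * ν (tr (rd (s • p))) :=
      mul_le_mul_of_nonneg_left h3 (by linarith)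
    nlinarith

end FPPX
end

section

/-! Cutting near geodesics: the full list of properties. -/

namespace FPPX

open MeasureTheory ProbabilityTheory Filter Set
open scoped Topology

variable {d : ℕ} {Ω : Type} [MeasurableSpace Ω] {P : Measure Ω} [IsProbabilityMeasure P]

/-- near geodesics from the origin to points at distance at most `A * r` can be cut at scale
`r ^ σ`, with all the properties we need -/
def PreLRM.CutProp (M : PreLRM d P) (ω : Ω) (σ ε A C2 r : ℝ) : Prop :=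
  ∀ z : V d, nm z ≤ A * r → ∃ (k : ℕ) (a : ℕ → V d), a 0 = 0 ∧
    (k : ℝ) ≤ C2 * r ^ (1 - σ) ∧
    (∀ j, j < k → r ^ σ ≤ nm (a (j + 1) - a j) ∧ nm (a (j + 1) - a j) ≤ 2 * r ^ σ) ∧
    nm (z - a k) ≤ r ^ σ ∧
    (∀ j, j ≤ k → nm (a j) ≤ C2 * r) ∧
    (∀ i j, i < j → j ≤ k → ((j : ℝ) - i) * r ^ σ ≤ C2 * nm (a j - a i)) ∧
    ∑ l ∈ Finset.range k, M.t ω (a l) (a (l + 1)) + M.t ω (a k) z ≤
      M.t ω 0 z + r ^ (1 - σ + 2 * ε) ∧
    (∀ j, j ≤ k → M.t ω 0 (a j) + M.t ω (a j) z ≤ M.t ω 0 z + r ^ (2 * ε)) ∧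
    (∀ i j, i ≤ j → j ≤ k → ∑ l ∈ Finset.Ico i j, M.t ω (a l) (a (l + 1)) ≤
      M.t ω (a i) (a j) + r ^ (1 - σ + 2 * ε))

/-- the deterministic part -/
lemma Cut2_det (M : LRM d P) {σ ε A C2 r : ℝ} {ω : Ω} (hA : 1 ≤ A)
    (hC2 : C2 = 4 * M.C1 * A / M.c0 + 1)
    (hr0 : 0 < r)
    (f1 : A * r ≤ r ^ (2 : ℝ)) (f2 : 3 * r ^ ε ≤ r) (f3 : C2 * r ≤ r ^ (2 : ℝ))
    (f4 : r ^ ε ≤ r ^ σ) (f5 : r ^ ε ≤ M.c0 / 2 * r ^ σ)
    (f6 : C2 * r ^ (1 - σ + ε) ≤ M.c0 / 4 * r ^ σ) (f7 : 3 * r ^ ε ≤ M.c0 / 4 * r ^ σ)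
    (f8 : C2 * r ^ (1 - σ + ε) ≤ 1 / 2 * r ^ (1 - σ + 2 * ε))
    (f9 : 3 * r ^ ε ≤ 1 / 2 * r ^ (1 - σ + 2 * ε)) (f10 : 3 * r ^ ε ≤ 1 * r ^ (2 * ε))
    (f11 : (M.C1 + 1) * r ^ ε ≤ M.c0 / 2 * r ^ σ)
    (g1 : ω ∈ M.ChainGood (r ^ (2 : ℝ)) (ε / 2))
    (g2 : ∀ u v : V d, nm u ≤ r ^ (2 : ℝ) → r ^ ε ≤ nm (v - u) → M.c0 * nm (v - u) ≤ M.t ω u v)
    (g3 : ∀ u v : V d, nm u ≤ r ^ (2 : ℝ) → nm v ≤ r ^ (2 : ℝ) →
      M.t ω u v ≤ M.C1 * max (nm (v - u)) (r ^ ε)) :
    M.CutProp ω σ ε A C2 r := by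
  intro z hz
  have hc0 := M.c0_pos
  have hC1 := M.one_le_C1
  have hRpos : 0 < r ^ (2 : ℝ) := Real.rpow_pos_of_pos hr0 _
  have hσpos : 0 < r ^ σ := Real.rpow_pos_of_pos hr0 _
  have hepos : 0 < r ^ ε := Real.rpow_pos_of_pos hr0 _
  have hRe : (r ^ (2 : ℝ)) ^ (ε / 2) = r ^ ε := by
    rw [← Real.rpow_mul hr0.le]
    congr 1
    ring
  have hCA : 1 ≤ M.C1 * A := by nlinarith
  have hq : 4 * M.C1 * A / M.c0 * M.c0 = 4 * M.C1 * A := div_mul_cancel₀ _ hc0.ne'
  have hC2c : C2 * M.c0 = 4 * M.C1 * A + M.c0 := by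
    rw [hC2, add_mul, hq, one_mul]
  have hC2pos : 1 ≤ C2 := by
    rw [hC2]
    have : 0 ≤ 4 * M.C1 * A / M.c0 := by positivity
    linarith
  obtain ⟨k, a, ha0, hstep, hend, hsum, htot, hbet⟩ := M.cut g1 hRpos hσpos (u := 0) (v := z)
    (by rw [nm_zero]; exact hRpos.le) (hz.trans f1)
  rw [hRe] at hstep hsum htot hbet
  have hCAr : r ≤ M.C1 * A * r := by
    have := mul_le_mul_of_nonneg_right hCA hr0.le
    linarith
  have hC2r : M.c0 * (C2 * r) = 4 * (M.C1 * A * r) + M.c0 * r := by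
    have : M.c0 * (C2 * r) = C2 * M.c0 * r := by ring
    rw [this, hC2c]
    ring
  have hc0r : 0 < M.c0 * r := mul_pos hc0 hr0
  have hrC2 : r ≤ C2 * r := by
    have := mul_le_mul_of_nonneg_right hC2pos hr0.le
    linarith
  -- upper bound for `t 0 z`
  have hT : M.t ω 0 z ≤ M.C1 * A * r := by
    refine (g3 0 z (by rw [nm_zero]; exact hRpos.le) (hz.trans f1)).trans ?_
    rw [mul_assoc]
    apply mul_le_mul_of_nonneg_left _ (by linarith)
    rw [sub_zero]
    apply max_le hz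
    have := mul_le_mul_of_nonneg_right hA hr0.le
    linarith
  -- the points stay in a ball of radius `C2 r`
  have hball : ∀ j, j ≤ k → nm (a j) ≤ C2 * r := by
    intro j hj
    have h1 := hbet j hj
    have h2 := M.t_nonneg ω (a j) z
    have h3 : M.t ω 0 (a j) ≤ 2 * (M.C1 * A * r) := by linarith
    rcases lt_or_ge (nm (a j)) (r ^ ε) with h4 | h4
    · linarith
    · have h5 := g2 0 (a j) (by rw [nm_zero]; exact hRpos.le) (by rwa [sub_zero])
      rw [sub_zero] at h5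
      have h6 : M.c0 * nm (a j) ≤ 2 * (M.C1 * A * r) := h5.trans h3
      have h7 : M.c0 * nm (a j) ≤ M.c0 * (C2 * r) := by linarith
      exact le_of_mul_le_mul_left h7 hc0
  have hball2 : ∀ j, j ≤ k → nm (a j) ≤ r ^ (2 : ℝ) := fun j hj => (hball j hj).trans f3
  -- lower bound of each term
  have hterm : ∀ j, j < k → M.c0 * r ^ σ ≤ M.t ω (a j) (a (j + 1)) := by
    intro j hj
    have h1 := (hstep j hj).1
    refine le_trans ?_ (g2 (a j) (a (j + 1)) (hball2 j hj.le) (f4.trans h1))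
    exact mul_le_mul_of_nonneg_left h1 hc0.le
  have hsumlow : ∀ i j, i ≤ j → j ≤ k →
      ((j : ℝ) - i) * (M.c0 * r ^ σ) ≤ ∑ l ∈ Finset.Ico i j, M.t ω (a l) (a (l + 1)) := by
    intro i j hij hj
    have h1 : ∑ _l ∈ Finset.Ico i j, M.c0 * r ^ σ ≤
        ∑ l ∈ Finset.Ico i j, M.t ω (a l) (a (l + 1)) := by
      apply Finset.sum_le_sum
      intro l hl
      exact hterm l (lt_of_lt_of_le (Finset.mem_Ico.1 hl).2 hj)
    rw [Finset.sum_const, Nat.card_Ico, nsmul_eq_mul, Nat.cast_sub hij] at h1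
    exact h1
  -- number of points
  have hk : (k : ℝ) ≤ C2 * r ^ (1 - σ) := by
    have h1 := hsumlow 0 k (Nat.zero_le _) le_rfl
    rw [Nat.Ico_zero_eq_range] at h1
    have h2 := M.t_nonneg ω (a k) z
    have h3 : (k : ℝ) * (M.c0 * r ^ σ) ≤ M.C1 * A * r + (k + 3) * r ^ ε := by
      have : ((k : ℝ) - (0 : ℕ)) * (M.c0 * r ^ σ) = k * (M.c0 * r ^ σ) := by
        push_cast
        ring
      linarith
    have hk0 : (0 : ℝ) ≤ k := Nat.cast_nonneg k
    have h4 : (k : ℝ) * r ^ ε ≤ k * (M.c0 / 2 * r ^ σ) := mul_le_mul_of_nonneg_left f5 hk0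
    have h5 : (k : ℝ) * (M.c0 / 2 * r ^ σ) ≤ 2 * (M.C1 * A * r) := by
      have e1 : (k : ℝ) * (M.c0 * r ^ σ) = 2 * (k * (M.c0 / 2 * r ^ σ)) := by ring
      have e2 : ((k : ℝ) + 3) * r ^ ε = k * r ^ ε + 3 * r ^ ε := by ring
      linarith
    have h6 : r = r ^ (1 - σ) * r ^ σ := by
      rw [← Real.rpow_add hr0]
      simp
    have h7 : (k : ℝ) * (M.c0 * r ^ σ) ≤ C2 * r ^ (1 - σ) * (M.c0 * r ^ σ) := by
      have h8 : C2 * r ^ (1 - σ) * (M.c0 * r ^ σ) = C2 * M.c0 * (r ^ (1 - σ) * r ^ σ) := by ring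
      have e1 : (k : ℝ) * (M.c0 * r ^ σ) = 2 * (k * (M.c0 / 2 * r ^ σ)) := by ring
      have e2 : (4 * M.C1 * A + M.c0) * r = 4 * (M.C1 * A * r) + M.c0 * r := by ring
      rw [h8, ← h6, hC2c, e2]
      linarith
    exact le_of_mul_le_mul_right h7 (by positivity)
  have hk0 : (0 : ℝ) ≤ k := Nat.cast_nonneg k
  have hke : (k : ℝ) * r ^ ε ≤ C2 * r ^ (1 - σ + ε) := by
    rw [Real.rpow_add hr0, ← mul_assoc]
    exact mul_le_mul_of_nonneg_right hk hepos.le
  have herr1 : ((k : ℝ) + 3) * r ^ ε ≤ r ^ (1 - σ + 2 * ε) := by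
    have : ((k : ℝ) + 3) * r ^ ε = k * r ^ ε + 3 * r ^ ε := by ring
    linarith
  have herr2 : ((k : ℝ) + 3) * r ^ ε ≤ M.c0 / 2 * r ^ σ := by
    have : ((k : ℝ) + 3) * r ^ ε = k * r ^ ε + 3 * r ^ ε := by ring
    linarith
  refine ⟨k, a, ha0, hk, ?_, hend.le, hball, ?_, ?_, ?_, ?_⟩
  · intro j hj
    have h1 := hstep j hj
    exact ⟨h1.1, by linarith⟩
  · intro i j hij hj
    have h1 := hsumlow i j hij.le hj
    have h2 := hsum i j hij.le hj
    have h3 : (1 : ℝ) ≤ (j : ℝ) - i := by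
      have : (i : ℝ) + 1 ≤ j := by exact_mod_cast hij
      linarith
    have hcs : 0 < M.c0 / 2 * r ^ σ := by positivity
    have h6 : M.c0 / 2 * r ^ σ ≤ ((j : ℝ) - i) * (M.c0 / 2 * r ^ σ) := by
      have := mul_le_mul_of_nonneg_right h3 hcs.le
      linarith
    have h4 : ((j : ℝ) - i) * (M.c0 / 2 * r ^ σ) ≤ M.t ω (a i) (a j) := by
      have e1 : ((j : ℝ) - i) * (M.c0 * r ^ σ) = 2 * (((j : ℝ) - i) * (M.c0 / 2 * r ^ σ)) := by
        ring
      linarith
    have h5 := g3 (a i) (a j) (hball2 i (hij.le.trans hj)) (hball2 j hj)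
    rcases le_total (nm (a j - a i)) (r ^ ε) with h7 | h7
    · rw [max_eq_right h7] at h5
      exfalso
      have e1 : (M.C1 + 1) * r ^ ε = M.C1 * r ^ ε + r ^ ε := by ring
      linarith
    · rw [max_eq_left h7] at h5
      have h8 : ((j : ℝ) - i) * (M.c0 / 2 * r ^ σ) ≤ M.C1 * nm (a j - a i) := h4.trans h5
      have h9 := nm_nonneg (a j - a i)
      have h10 : M.c0 * (((j : ℝ) - i) * r ^ σ) ≤ M.c0 * (C2 * nm (a j - a i)) := by
        have e1 : M.c0 * (C2 * nm (a j - a i)) = (4 * M.C1 * A + M.c0) * nm (a j - a i) := by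
          rw [← hC2c]
          ring
        have e2 : 2 * (M.C1 * nm (a j - a i)) ≤ 4 * M.C1 * A * nm (a j - a i) := by
          have h11 : 2 * M.C1 ≤ 4 * M.C1 * A := by nlinarith
          have h12 := mul_le_mul_of_nonneg_right h11 h9
          linarith
        have e3 : 0 ≤ M.c0 * nm (a j - a i) := by positivity
        have e4 : M.c0 * (((j : ℝ) - i) * r ^ σ) = 2 * (((j : ℝ) - i) * (M.c0 / 2 * r ^ σ)) := by
          ring
        rw [e1, add_mul]
        linarith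
      exact le_of_mul_le_mul_left h10 hc0
  · linarith
  · intro j hj
    have h1 := hbet j hj
    linarith
  · intro i j hij hj
    have h1 := hsum i j hij hj
    linarith

theorem LRM.cut2 (M : LRM d P) (σ ε A : ℝ) (hε : 0 < ε) (hσ : 1 + ε < 2 * σ) (hσ1 : σ < 1)
    (hA : 1 ≤ A) : ∃ C2 : ℝ, 1 ≤ C2 ∧ Negl P (fun r => {ω | ¬ M.CutProp ω σ ε A C2 r}) := by
  have hc0 := M.c0_pos
  have hC1 := M.one_le_C1
  have hεσ : ε < σ := by linarith
  have hε1 : ε < 1 := by linarith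
  set C2 : ℝ := 4 * M.C1 * A / M.c0 + 1 with hC2
  have hC2pos : 1 ≤ C2 := by
    rw [hC2]
    have : 0 ≤ 4 * M.C1 * A / M.c0 := by positivity
    linarith
  refine ⟨C2, hC2pos, ?_⟩
  have N1 : Negl P (fun r => (M.ChainGood (1 * r ^ (2 : ℝ)) (ε / 2))ᶜ) :=
    (M.chain (ε / 2) (by linarith)).comp_rpow (by norm_num) (by norm_num)
  have N2 := M.LL 2 ε hε
  have N3 := M.UL 2 ε hε
  refine Negl.mono ?_ ((N1.union N2).union N3)
  have f1 : ∀ᶠ r : ℝ in atTop, A * r ^ (1 : ℝ) ≤ 1 * r ^ (2 : ℝ) :=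
    ev_rpow_le _ (by norm_num) (by norm_num)
  have f2 : ∀ᶠ r : ℝ in atTop, 3 * r ^ ε ≤ 1 * r ^ (1 : ℝ) := ev_rpow_le _ (by norm_num) hε1
  have f3 : ∀ᶠ r : ℝ in atTop, C2 * r ^ (1 : ℝ) ≤ 1 * r ^ (2 : ℝ) :=
    ev_rpow_le _ (by norm_num) (by norm_num)
  have f4 : ∀ᶠ r : ℝ in atTop, 1 * r ^ ε ≤ 1 * r ^ σ := ev_rpow_le _ (by norm_num) hεσ
  have f5 : ∀ᶠ r : ℝ in atTop, 1 * r ^ ε ≤ M.c0 / 2 * r ^ σ := ev_rpow_le _ (by positivity) hεσ
  have f6 : ∀ᶠ r : ℝ in atTop, C2 * r ^ (1 - σ + ε) ≤ M.c0 / 4 * r ^ σ :=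
    ev_rpow_le _ (by positivity) (by linarith)
  have f7 : ∀ᶠ r : ℝ in atTop, 3 * r ^ ε ≤ M.c0 / 4 * r ^ σ := ev_rpow_le _ (by positivity) hεσ
  have f8 : ∀ᶠ r : ℝ in atTop, C2 * r ^ (1 - σ + ε) ≤ 1 / 2 * r ^ (1 - σ + 2 * ε) :=
    ev_rpow_le _ (by norm_num) (by linarith)
  have f9 : ∀ᶠ r : ℝ in atTop, 3 * r ^ ε ≤ 1 / 2 * r ^ (1 - σ + 2 * ε) :=
    ev_rpow_le _ (by norm_num) (by linarith)
  have f10 : ∀ᶠ r : ℝ in atTop, 3 * r ^ ε ≤ 1 * r ^ (2 * ε) :=
    ev_rpow_le _ (by norm_num) (by linarith)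
  have f11 : ∀ᶠ r : ℝ in atTop, (M.C1 + 1) * r ^ ε ≤ M.c0 / 2 * r ^ σ :=
    ev_rpow_le _ (by positivity) hεσ
  filter_upwards [f1, f2, f3, f4, f5, f6, f7, f8, f9, f10, f11, eventually_ge_atTop 1] with r
    f1 f2 f3 f4 f5 f6 f7 f8 f9 f10 f11 hr1 ω hω
  by_contra hnot
  apply hω
  rw [Set.mem_union, Set.mem_union, not_or, not_or] at hnot
  obtain ⟨⟨n1, n2⟩, n3⟩ := hnot
  rw [Real.rpow_one] at f1 f3
  rw [Real.rpow_one, one_mul] at f2
  rw [one_mul] at f1 f3
  rw [one_mul] at f4 f5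
  rw [one_mul] at f4
  rw [one_mul, Set.notMem_compl_iff] at n1
  refine Cut2_det M hA hC2 (by linarith) f1 f2 f3 f4 f5 f6 f7 f8 f9 f10 f11 n1 ?_ ?_
  · intro u v hu huv
    by_contra h
    exact n2 ⟨u, v, hu, huv, not_le.1 h⟩
  · intro u v hu hv
    by_contra h
    exact n3 ⟨u, v, hu, hv, not_le.1 h⟩

end FPPX
end

section

/-! Means and variances. -/

namespace FPPX

open MeasureTheory ProbabilityTheory Filter Set
open scoped Topology

variable {d : ℕ} {Ω : Type} [MeasurableSpace Ω] {P : Measure Ω} [IsProbabilityMeasure P]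

lemma Var_int (M : PreLRM d P) (u v : V d) : Integrable (fun ω => M.t ω u v) P := by
  simpa using M.integrable_pow 1 u v

lemma Var_int_sq (M : PreLRM d P) (u v : V d) (c : ℝ) :
    Integrable (fun ω => (M.t ω u v - c) ^ 2) P := by
  have h1 := M.integrable_pow 2 u v
  have h2 := Var_int M u v
  have h3 : (fun ω => (M.t ω u v - c) ^ 2) =
      fun ω => M.t ω u v ^ 2 - (2 * c) * M.t ω u v + c ^ 2 := by
    funext ω
    ring
  rw [h3]
  exact (h1.sub (h2.const_mul _)).add (integrable_const _)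

/-- the mean passage time is Lipschitz -/
theorem PreLRM.mean_lip (M : PreLRM d P) : ∃ C : ℝ, 0 < C ∧ ∀ x y : V d,
    |∫ ω, M.t ω 0 x ∂P - ∫ ω, M.t ω 0 y ∂P| ≤ C * (1 + nm (x - y)) := by
  obtain ⟨C, hC⟩ := M.moment 1
  refine ⟨max C 1, by positivity, fun x y => ?_⟩
  rw [← integral_sub (Var_int M 0 x) (Var_int M 0 y)]
  have h1 : |∫ ω, (M.t ω 0 x - M.t ω 0 y) ∂P| ≤ ∫ ω, M.t ω x y ∂P := by
    refine (abs_integral_le_integral_abs).trans ?_
    refine integral_mono ((Var_int M 0 x).sub (Var_int M 0 y)).abs (Var_int M x y) fun ω => ?_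
    simp only
    rw [abs_le]
    have e1 := M.t_tri ω 0 y x
    have e2 := M.t_tri ω 0 x y
    have e3 := M.t_symm ω x y
    constructor <;> linarith
  have h2 : ∫ ω, M.t ω x y ∂P = ∫ ω, M.t ω 0 (y - x) ∂P :=
    M.integral_shift x y id measurable_id
  have h3 := hC (y - x)
  simp only [pow_one] at h3
  rw [h2] at h1
  rw [nm_sub_comm]
  refine h1.trans (h3.trans ?_)
  have := nm_nonneg (y - x)
  exact mul_le_mul_of_nonneg_right (le_max_left _ _) (by linarith)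

/-- Chebyshev for finitely many pairs -/
theorem PreLRM.pairs_conc (M : PreLRM d P) {κ : ℝ} (hB : M.HypB κ) (hκ : 0 ≤ κ) :
    ∃ C : ℝ, 0 < C ∧ ∀ (S : Finset (V d × V d)) (m g : ℝ), 1 ≤ m → 0 < g →
      (∀ q ∈ S, nm (q.2 - q.1) ≤ m) →
      P.real {ω | ∃ q ∈ S, g < |M.t ω q.1 q.2 - ∫ ω', M.t ω' 0 (q.2 - q.1) ∂P|} ≤
        S.card * (C * m ^ (2 * κ) / g ^ 2) := by
  obtain ⟨C, hC⟩ := hB
  have h2k : (0 : ℝ) < 2 ^ (2 * κ) := Real.rpow_pos_of_pos (by norm_num) _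
  refine ⟨max C 1 * 2 ^ (2 * κ), by positivity, fun S m g hm hg hS => ?_⟩
  have hset : {ω | ∃ q ∈ S, g < |M.t ω q.1 q.2 - ∫ ω', M.t ω' 0 (q.2 - q.1) ∂P|} =
      ⋃ q ∈ S, {ω | g < |M.t ω q.1 q.2 - ∫ ω', M.t ω' 0 (q.2 - q.1) ∂P|} := by
    ext ω
    simp
  rw [hset]
  refine (measureReal_biUnion_finset_le _ _).trans ?_
  have hone : ∀ q ∈ S, P.real {ω | g < |M.t ω q.1 q.2 - ∫ ω', M.t ω' 0 (q.2 - q.1) ∂P|} ≤
      max C 1 * 2 ^ (2 * κ) * m ^ (2 * κ) / g ^ 2 := by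
    intro q hq
    set x := q.2 - q.1 with hx
    set h := ∫ ω', M.t ω' 0 x ∂P with hh
    have e1 : P.real {ω | g < |M.t ω q.1 q.2 - h|} = P.real {ω | g < |M.t ω 0 x - h|} := by
      have hA : MeasurableSet {s : ℝ | g < |s - h|} :=
        measurableSet_lt measurable_const (by fun_prop)
      exact M.real_shift q.1 q.2 {s : ℝ | g < |s - h|} hA
    rw [e1]
    have e2 := mul_meas_ge_le_integral_of_nonneg (μ := P) (f := fun ω => (M.t ω 0 x - h) ^ 2)
      (Filter.Eventually.of_forall fun ω => sq_nonneg _) (Var_int_sq M 0 x h) (g ^ 2)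
    have e3 : P.real {ω | g < |M.t ω 0 x - h|} ≤ P.real {ω | g ^ 2 ≤ (M.t ω 0 x - h) ^ 2} := by
      refine measureReal_mono ?_ (measure_ne_top _ _)
      intro ω hω
      have hω' : g < |M.t ω 0 x - h| := hω
      show g ^ 2 ≤ (M.t ω 0 x - h) ^ 2
      rw [← sq_abs (M.t ω 0 x - h)]
      exact pow_le_pow_left₀ hg.le hω'.le 2
    have e4 := hC x
    have hnm : nm x ≤ m := hS q hq
    have hnm0 := nm_nonneg x
    have e5 : (1 + nm x) ^ (2 * κ) ≤ 2 ^ (2 * κ) * m ^ (2 * κ) := by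
      rw [← Real.mul_rpow (by norm_num) (by linarith)]
      exact Real.rpow_le_rpow (by linarith) (by linarith) (by linarith)
    have e6 : (0 : ℝ) ≤ (1 + nm x) ^ (2 * κ) := Real.rpow_nonneg (by linarith) _
    rw [le_div_iff₀ (by positivity)]
    calc P.real {ω | g < |M.t ω 0 x - h|} * g ^ 2
        ≤ P.real {ω | g ^ 2 ≤ (M.t ω 0 x - h) ^ 2} * g ^ 2 :=
          mul_le_mul_of_nonneg_right e3 (by positivity)
      _ ≤ ∫ ω, (M.t ω 0 x - h) ^ 2 ∂P := by
          rw [mul_comm]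
          exact e2
      _ ≤ C * (1 + nm x) ^ (2 * κ) := e4
      _ ≤ max C 1 * (1 + nm x) ^ (2 * κ) := mul_le_mul_of_nonneg_right (le_max_left _ _) e6
      _ ≤ max C 1 * (2 ^ (2 * κ) * m ^ (2 * κ)) :=
          mul_le_mul_of_nonneg_left e5 (by positivity)
      _ = max C 1 * 2 ^ (2 * κ) * m ^ (2 * κ) := by ring
  refine (Finset.sum_le_sum hone).trans ?_
  rw [Finset.sum_const, nsmul_eq_mul]

/-- the positive part of `t - s` in terms of the mean and the variance -/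
theorem PreLRM.pos_part_le (M : PreLRM d P) {κ : ℝ} (hB : M.HypB κ) (hκ : 0 ≤ κ) :
    ∃ C : ℝ, 0 < C ∧ ∀ (x : V d) (s : ℝ), ∫ ω, max (M.t ω 0 x - s) 0 ∂P ≤
      max (∫ ω, M.t ω 0 x ∂P - s) 0 + C * (1 + nm x) ^ κ := by
  obtain ⟨C, hC⟩ := hB
  refine ⟨Real.sqrt (max C 1), by positivity, fun x s => ?_⟩
  set h := ∫ ω', M.t ω' 0 x ∂P with hh
  have hnm0 := nm_nonneg x
  have hp : 0 < (1 + nm x) ^ κ := Real.rpow_pos_of_pos (by linarith) _
  have hp2 : (1 + nm x) ^ (2 * κ) = ((1 + nm x) ^ κ) ^ 2 := by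
    rw [← Real.rpow_natCast, ← Real.rpow_mul (by linarith)]
    congr 1
    push_cast
    ring
  set c := Real.sqrt (max C 1) * (1 + nm x) ^ κ with hc
  have hcpos : 0 < c := by positivity
  have hc2 : c ^ 2 = max C 1 * (1 + nm x) ^ (2 * κ) := by
    rw [hc, mul_pow, Real.sq_sqrt (by positivity), hp2]
  have hI := Var_int M 0 x
  have hI2 := Var_int_sq M 0 x h
  have hIabs : Integrable (fun ω => |M.t ω 0 x - h|) P := (hI.sub (integrable_const _)).abs
  have h1 : ∫ ω, |M.t ω 0 x - h| ∂P ≤ c := by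
    have e1 : ∀ ω, |M.t ω 0 x - h| ≤ (M.t ω 0 x - h) ^ 2 / (2 * c) + c / 2 := by
      intro ω
      have e2 := sq_nonneg (|M.t ω 0 x - h| - c)
      have e3 : |M.t ω 0 x - h| ^ 2 = (M.t ω 0 x - h) ^ 2 := sq_abs _
      rw [div_add_div _ _ (by positivity) (by norm_num), le_div_iff₀ (by positivity)]
      nlinarith
    calc ∫ ω, |M.t ω 0 x - h| ∂P ≤ ∫ ω, ((M.t ω 0 x - h) ^ 2 / (2 * c) + c / 2) ∂P :=
          integral_mono (hI.sub (integrable_const _)).abs
            ((hI2.div_const _).add (integrable_const _)) e1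
      _ = (∫ ω, (M.t ω 0 x - h) ^ 2 ∂P) / (2 * c) + c / 2 := by
          rw [integral_add (hI2.div_const _) (integrable_const _), integral_div]
          simp
      _ ≤ c ^ 2 / (2 * c) + c / 2 := by
          have e4 : ∫ ω, (M.t ω 0 x - h) ^ 2 ∂P ≤ c ^ 2 := by
            rw [hc2]
            refine (hC x).trans ?_
            exact mul_le_mul_of_nonneg_right (le_max_left _ _)
              (Real.rpow_nonneg (by linarith) _)
          have e5 : (∫ ω, (M.t ω 0 x - h) ^ 2 ∂P) / (2 * c) ≤ c ^ 2 / (2 * c) :=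
            div_le_div_of_nonneg_right e4 (by positivity)
          linarith
      _ = c := by
          field_simp
          ring
  calc ∫ ω, max (M.t ω 0 x - s) 0 ∂P
      ≤ ∫ ω, (max (h - s) 0 + |M.t ω 0 x - h|) ∂P := by
        refine integral_mono ((hI.sub (integrable_const _)).pos_part)
          ((integrable_const _).add (hI.sub (integrable_const _)).abs) fun ω => ?_
        simp only
        apply max_le
        · have e1 := le_max_left (h - s) 0
          have e2 := le_abs_self (M.t ω 0 x - h)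
          linarith
        · have e1 := le_max_right (h - s) 0
          have e2 := abs_nonneg (M.t ω 0 x - h)
          linarith
    _ = max (h - s) 0 + ∫ ω, |M.t ω 0 x - h| ∂P := by
        rw [integral_add (integrable_const _) hIabs]
        simp
    _ ≤ max (h - s) 0 + c := by linarith

end FPPX
end

section

/-! Covering a cheap region by few translates of a smaller cheap region (Cramer's rule). -/

namespace FPPX

open MeasureTheory ProbabilityTheory Filter Set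
open scoped Topology

/-- the excess is subadditive along finite non-negative combinations -/
private lemma cover_sum {d : ℕ} {μ : E d → ℝ} {c C : ℝ} (h : IsNm μ c C) (ν : E d →ₗ[ℝ] ℝ)
    (s : Finset (Fin d)) (a : Fin d → ℝ) (ha : ∀ i, 0 ≤ a i) (y : Fin d → E d) :
    μ (∑ i ∈ s, a i • y i) - ν (∑ i ∈ s, a i • y i) ≤
      ∑ i ∈ s, a i * (μ (y i) - ν (y i)) := by
  induction s using Finset.induction_on with
  | empty =>
    have : μ (0 : E d) = 0 := by simpa using h.smul 0 (0 : E d)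
    simp [this]
  | insert i s his ih =>
    rw [Finset.sum_insert his, Finset.sum_insert his, map_add, map_smul, smul_eq_mul]
    have h1 := h.add (a i • y i) (∑ i ∈ s, a i • y i)
    have h2 := h.smul (a i) (y i)
    rw [abs_of_nonneg (ha i)] at h2
    rw [h2] at h1
    linarith

/-- a point `Σ ρ_i y_i + q + e` with small coefficients is in the cheap region -/
private lemma cover_pt {d : ℕ} {μ : E d → ℝ} {c C : ℝ} (h : IsNm μ c C) {ν : E d →ₗ[ℝ] ℝ}
    {p : E d} (hν : Supp μ ν p) {r g : ℝ} (hC : 0 < C) (hr : 4 * C ≤ r) (hg : 4 * C ≤ g)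
    (y : Fin d → E d) (hy1 : ∀ i, 5 / 4 * r ≤ ν (y i)) (hy2 : ∀ i, ν (y i) ≤ 3 / 2 * r)
    (hy3 : ∀ i, μ (y i) - ν (y i) ≤ g / 2) (ρ : Fin d → ℝ) (hρ0 : ∀ i, 0 ≤ ρ i)
    (hρ1 : ∀ i, ρ i ≤ 1 / (4 * d)) (hd : 0 < (d : ℝ)) (e : E d) (he : ‖e‖ ≤ 1 / 2)
    (w : E d) (hw : w = (∑ i, ρ i • y i) + (11 / 8 * r) • p + e) :
    r ≤ ν w ∧ ν w ≤ 2 * r ∧ μ w - ν w ≤ g := by
  have hr0 : 0 < r := by linarith
  have hg0 : 0 < g := by linarith
  have hsum : ∑ i, ρ i ≤ 1 / 4 := by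
    calc ∑ i, ρ i ≤ ∑ _i : Fin d, 1 / (4 * (d : ℝ)) := Finset.sum_le_sum (fun i _ => hρ1 i)
      _ = 1 / 4 := by
        rw [Finset.sum_const, Finset.card_univ, Fintype.card_fin, nsmul_eq_mul]
        field_simp
  have hsum0 : 0 ≤ ∑ i, ρ i := Finset.sum_nonneg (fun i _ => hρ0 i)
  have hνe : |ν e| ≤ C * (1 / 2) :=
    (h.abs_le hν e).trans (mul_le_mul_of_nonneg_left he hC.le)
  have hνe' := abs_le.mp hνe
  have hνs : ν (∑ i, ρ i • y i) = ∑ i, ρ i * ν (y i) := by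
    rw [map_sum]; simp
  have hνs0 : 0 ≤ ν (∑ i, ρ i • y i) := by
    rw [hνs]
    exact Finset.sum_nonneg (fun i _ => mul_nonneg (hρ0 i) (by linarith [hy1 i]))
  have hνs1 : ν (∑ i, ρ i • y i) ≤ 3 / 8 * r := by
    rw [hνs]
    calc ∑ i, ρ i * ν (y i) ≤ ∑ i, ρ i * (3 / 2 * r) :=
          Finset.sum_le_sum (fun i _ => mul_le_mul_of_nonneg_left (hy2 i) (hρ0 i))
      _ = (∑ i, ρ i) * (3 / 2 * r) := by rw [Finset.sum_mul]
      _ ≤ 1 / 4 * (3 / 2 * r) := mul_le_mul_of_nonneg_right hsum (by linarith)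
      _ = 3 / 8 * r := by ring
  have hνp : ν ((11 / 8 * r) • p) = 11 / 8 * r := by
    rw [map_smul, hν.2.1, smul_eq_mul, mul_one]
  have hνw : ν w = ν (∑ i, ρ i • y i) + 11 / 8 * r + ν e := by
    rw [hw, map_add, map_add, hνp]
  refine ⟨?_, ?_, ?_⟩
  · rw [hνw]; linarith [hνe'.1]
  · rw [hνw]; linarith [hνe'.2]
  · have h1 : μ (∑ i, ρ i • y i) - ν (∑ i, ρ i • y i) ≤ g / 8 := by
      calc μ (∑ i, ρ i • y i) - ν (∑ i, ρ i • y i)
          ≤ ∑ i, ρ i * (μ (y i) - ν (y i)) := cover_sum h ν _ ρ hρ0 y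
        _ ≤ ∑ i, ρ i * (g / 2) :=
            Finset.sum_le_sum (fun i _ => mul_le_mul_of_nonneg_left (hy3 i) (hρ0 i))
        _ = (∑ i, ρ i) * (g / 2) := by rw [Finset.sum_mul]
        _ ≤ 1 / 4 * (g / 2) := mul_le_mul_of_nonneg_right hsum (by linarith)
        _ = g / 8 := by ring
    have h2 : μ ((11 / 8 * r) • p) = 11 / 8 * r := by
      rw [h.smul, hν.2.2, mul_one, abs_of_pos (by linarith)]
    have h3 := (h.excess_le hν e).2
    have h4 : 2 * C * ‖e‖ ≤ C := by nlinarith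
    have h5 := h.add (∑ i, ρ i • y i + (11 / 8 * r) • p) e
    have h6 := h.add (∑ i, ρ i • y i) ((11 / 8 * r) • p)
    rw [hνw]
    rw [← hw] at h5
    linarith

theorem cover (d : ℕ) (c C : ℝ) : ∃ B0 K0 : ℝ, 0 < B0 ∧ 0 < K0 ∧
    ∀ (μ : E d → ℝ), IsNm μ c C → ∀ (ν : E d →ₗ[ℝ] ℝ) (p : E d), Supp μ ν p →
    ∀ r g Λ : ℝ, B0 ≤ r → B0 ≤ g → 1 ≤ Λ →
    ∃ G : Finset (V d), (G.card : ℝ) ≤ (K0 * Λ) ^ d ∧
      ∀ a : V d, |ν (tr a)| ≤ Λ * r → μ (tr a) - ν (tr a) ≤ Λ * g →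
        (∃ A ∈ G, r ≤ ν (tr (a - A)) ∧ ν (tr (a - A)) ≤ 2 * r ∧
          μ (tr (a - A)) - ν (tr (a - A)) ≤ g) ∧
        (∃ B ∈ G, r ≤ ν (tr (B - a)) ∧ ν (tr (B - a)) ≤ 2 * r ∧
          μ (tr (B - a)) - ν (tr (B - a)) ≤ g) := by
  refine ⟨max 1 (4 * C), 256 * d + 14, lt_of_lt_of_le one_pos (le_max_left _ _), by positivity,
    ?_⟩
  intro μ hμ ν p hν r g Λ hr' hg' hΛ
  obtain ⟨hC, hpn, hpn'⟩ := hμ.norm_p hν
  have hr : 4 * C ≤ r := (le_max_right _ _).trans hr'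
  have hg : 4 * C ≤ g := (le_max_right _ _).trans hg'
  have hr0 : 0 < r := by linarith
  have hg0 : 0 < g := by linarith
  have hd : 0 < d := by
    rcases Nat.eq_zero_or_pos d with h0 | h0
    · subst h0
      have : p = 0 := Subsingleton.elim _ _
      have h1 := hν.2.1
      rw [this, map_zero] at h1
      norm_num at h1
    · exact h0
  have hdR : (0 : ℝ) < d := by exact_mod_cast hd
  -- the cheap region
  set K : Set (E d) := {x | 5 / 4 * r ≤ ν x ∧ ν x ≤ 3 / 2 * r ∧ μ x - ν x ≤ g / 2} with hK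
  have hνc : Continuous (fun x : E d => ν x) := LinearMap.continuous_of_finiteDimensional ν
  have hμc : Continuous μ := by
    rw [Metric.continuous_iff]
    intro x ε hε
    refine ⟨ε / C, div_pos hε hC, fun y hy => ?_⟩
    rw [dist_eq_norm] at hy
    rw [Real.dist_eq]
    calc |μ y - μ x| ≤ C * ‖y - x‖ := hμ.sub_le y x
      _ < C * (ε / C) := mul_lt_mul_of_pos_left hy hC
      _ = ε := by field_simp
  have hKcl : IsClosed K := by
    rw [hK]
    have e1 : IsClosed {x : E d | 5 / 4 * r ≤ ν x} := isClosed_le continuous_const hνc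
    have e2 : IsClosed {x : E d | ν x ≤ 3 / 2 * r} := isClosed_le hνc continuous_const
    have e3 : IsClosed {x : E d | μ x - ν x ≤ g / 2} :=
      isClosed_le (hμc.sub hνc) continuous_const
    exact e1.inter (e2.inter e3)
  have hKbd : Bornology.IsBounded K := by
    rw [isBounded_iff_forall_norm_le]
    refine ⟨(3 / 2 * r + g / 2) / c, fun x hx => ?_⟩
    rw [le_div_iff₀ hμ.cpos, mul_comm]
    have := hμ.lb x
    linarith [hx.2.1, hx.2.2]
  have hKc : IsCompact K := Metric.isCompact_of_isClosed_isBounded hKcl hKbd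
  set q : E d := (11 / 8 * r) • p with hq
  have hνq : ν q = 11 / 8 * r := by
    rw [hq, map_smul, hν.2.1, smul_eq_mul, mul_one]
  have hμq : μ q = 11 / 8 * r := by
    rw [hq, hμ.smul, hν.2.2, mul_one, abs_of_pos (by linarith)]
  have hqK : ∀ x, |ν x| ≤ r / 8 → μ x - ν x ≤ g / 2 → x + q ∈ K := by
    intro x h1 h2
    have h1' := abs_le.mp h1
    refine ⟨?_, ?_, ?_⟩
    · rw [map_add, hνq]; linarith [h1'.1]
    · rw [map_add, hνq]; linarith [h1'.2]
    · have := hμ.add x q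
      rw [map_add]; linarith
  obtain ⟨y, hyK, hyc⟩ := exists_coeffs d K hKc q (1 / 4) (by norm_num) (by
    intro x hx
    have h1 := hμ.abs_le hν (x - q)
    have h2 := (hμ.excess_le hν (x - q)).2
    have h3 : C * ‖x - q‖ ≤ C * (1 / 4) := mul_le_mul_of_nonneg_left hx hC.le
    have := hqK (x - q) (by linarith) (by linarith)
    rwa [sub_add_cancel] at this)
  obtain ⟨cq, hcq, hcq1⟩ := hyc q (by
    have := hqK 0 (by rw [map_zero, abs_zero]; linarith)
      (by have h0 : μ (0 : E d) = 0 := by simpa using hμ.smul 0 (0 : E d)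
          rw [map_zero, h0]; linarith)
    rwa [zero_add] at this)
  -- the grid
  set N : ℤ := ⌈64 * (d : ℝ) * Λ⌉ + 2 with hN
  have hNΛ : (N : ℝ) ≤ 64 * d * Λ + 3 := by
    rw [hN]; push_cast
    have := Int.ceil_lt_add_one (64 * (d : ℝ) * Λ)
    linarith
  have hNΛ' : 64 * d * Λ + 2 ≤ (N : ℝ) := by
    rw [hN]; push_cast
    have := Int.le_ceil (64 * (d : ℝ) * Λ)
    linarith
  let f1 : V d → V d := fun k => rd (∑ i, ((k i : ℝ) / (4 * d)) • y i - q)
  let f2 : V d → V d := fun k => rd (∑ i, ((k i : ℝ) / (4 * d)) • y i + q)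
  let Bx : Finset (V d) := Finset.Icc (fun _ => -N) (fun _ => N)
  have hBx : (Bx.card : ℝ) ≤ (2 * N + 1) ^ d := by
    simp only [Bx]
    rw [Pi.card_Icc]
    push_cast
    rw [Finset.prod_const, Finset.card_univ, Fintype.card_fin]
    apply pow_le_pow_left₀ (by positivity)
    rw [Int.card_Icc]
    have h1 : 0 ≤ N := by
      have : (0 : ℝ) ≤ N := by
        have : 0 ≤ 64 * (d : ℝ) * Λ := by positivity
        linarith
      exact_mod_cast this
    have h2 : ((N + 1 - -N).toNat : ℝ) = ((N + 1 - -N : ℤ) : ℝ) := by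
      exact_mod_cast Int.toNat_of_nonneg (by linarith)
    rw [h2]
    push_cast
    linarith
  refine ⟨Bx.image f1 ∪ Bx.image f2, ?_, ?_⟩
  · have h1 : ((Bx.image f1 ∪ Bx.image f2).card : ℝ) ≤ 2 * Bx.card := by
      have e1 := Finset.card_union_le (Bx.image f1) (Bx.image f2)
      have e2 := Finset.card_image_le (s := Bx) (f := f1)
      have e3 := Finset.card_image_le (s := Bx) (f := f2)
      have : (Bx.image f1 ∪ Bx.image f2).card ≤ 2 * Bx.card := by omega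
      exact_mod_cast this
    have hb : (0 : ℝ) ≤ 2 * N + 1 := by
      have : 0 ≤ 64 * (d : ℝ) * Λ := by positivity
      linarith
    calc ((Bx.image f1 ∪ Bx.image f2).card : ℝ) ≤ 2 * (2 * N + 1) ^ d := by linarith
      _ ≤ 2 ^ d * (2 * N + 1) ^ d := by
          apply mul_le_mul_of_nonneg_right _ (by positivity)
          exact le_self_pow₀ (by norm_num) hd.ne'
      _ = (2 * (2 * N + 1)) ^ d := by rw [mul_pow]
      _ ≤ ((256 * d + 14) * Λ) ^ d := by
          apply pow_le_pow_left₀ (by positivity)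
          nlinarith

  · intro a ha1 ha2
    have hΛ0 : 0 < Λ := by linarith
    -- write `a` in the basis `y`
    have hx'K : (1 / (8 * Λ)) • tr a + q ∈ K := by
      apply hqK
      · rw [map_smul, smul_eq_mul, abs_mul, abs_of_pos (by positivity)]
        rw [one_div, inv_mul_le_iff₀ (by positivity)]
        linarith
      · rw [map_smul, smul_eq_mul, hμ.smul, abs_of_pos (by positivity), ← mul_sub, one_div,
          inv_mul_le_iff₀ (by positivity)]
        nlinarith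
    obtain ⟨cx, hcx, hcx1⟩ := hyc _ hx'K
    set α : Fin d → ℝ := fun i => 8 * Λ * (cx i - cq i) with hα
    have haα : tr a = ∑ i, α i • y i := by
      have e1 : tr a = (8 * Λ) • (((1 / (8 * Λ)) • tr a + q) - q) := by
        rw [add_sub_cancel_right, smul_smul]
        have : 8 * Λ * (1 / (8 * Λ)) = 1 := by field_simp
        rw [this, one_smul]
      rw [e1, hcx]
      conv_lhs => rw [hcq]
      rw [← Finset.sum_sub_distrib, Finset.smul_sum]
      apply Finset.sum_congr rfl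
      intro i _
      rw [← sub_smul, smul_smul]
    have hα1 : ∀ i, |α i| ≤ 16 * Λ := by
      intro i
      have h1 := abs_le.mp (hcx1 i)
      have h2 := abs_le.mp (hcq1 i)
      rw [hα, abs_le]
      constructor <;> simp only <;> nlinarith
    set k : V d := fun i => ⌊4 * d * α i⌋ with hk
    have hk1 : ∀ i, (k i : ℝ) ≤ 4 * d * α i := fun i => Int.floor_le _
    have hk2 : ∀ i, 4 * d * α i < k i + 1 := fun i => Int.lt_floor_add_one _
    have hkb : ∀ i, |4 * d * α i| ≤ 64 * d * Λ := by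
      intro i
      rw [abs_mul, abs_of_pos (by positivity)]
      nlinarith [hα1 i]
    have hkm : k ∈ Bx := by
      simp only [Bx, Finset.mem_Icc, Pi.le_def]
      constructor
      · intro i
        have h1 := (abs_le.mp (hkb i)).1
        have : ((-N : ℤ) : ℝ) ≤ k i := by push_cast; linarith [hk2 i]
        exact_mod_cast this
      · intro i
        have h1 := (abs_le.mp (hkb i)).2
        have : (k i : ℝ) ≤ N := by linarith [hk1 i]
        exact_mod_cast this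
    have hkm' : (fun i => k i + 1 : V d) ∈ Bx := by
      simp only [Bx, Finset.mem_Icc, Pi.le_def]
      constructor
      · intro i
        have h1 := (abs_le.mp (hkb i)).1
        have : ((-N : ℤ) : ℝ) ≤ (k i + 1 : ℤ) := by push_cast; linarith [hk2 i]
        exact_mod_cast this
      · intro i
        have h1 := (abs_le.mp (hkb i)).2
        have : ((k i + 1 : ℤ) : ℝ) ≤ N := by push_cast; linarith [hk1 i]
        exact_mod_cast this
    constructor
    · refine ⟨f1 k, Finset.mem_union_left _ (Finset.mem_image_of_mem _ hkm), ?_⟩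
      set z : E d := ∑ i, ((k i : ℝ) / (4 * d)) • y i - q with hz
      refine cover_pt hμ hν hC hr hg y (fun i => (hyK i).1) (fun i => (hyK i).2.1)
        (fun i => (hyK i).2.2) (fun i => α i - (k i : ℝ) / (4 * d)) ?_ ?_ hdR
        (-(tr (rd z) - z)) (by rw [norm_neg]; exact norm_rd_sub z) _ ?_
      · intro i
        rw [sub_nonneg, div_le_iff₀ (by positivity)]
        linarith [hk1 i]
      · intro i
        rw [sub_le_iff_le_add, ← add_div, le_div_iff₀ (by positivity)]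
        linarith [hk2 i]
      · simp only [sub_smul, Finset.sum_sub_distrib, tr_sub, ← haα, f1]
        rw [← hz, ← hq]
        have : ∑ i, ((k i : ℝ) / (4 * d)) • y i = z + q := by rw [hz]; abel
        rw [this]
        abel
    · refine ⟨f2 (fun i => k i + 1), Finset.mem_union_right _ (Finset.mem_image_of_mem _ hkm'), ?_⟩
      set z : E d := ∑ i, (((k i + 1 : ℤ) : ℝ) / (4 * d)) • y i + q with hz
      refine cover_pt hμ hν hC hr hg y (fun i => (hyK i).1) (fun i => (hyK i).2.1)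
        (fun i => (hyK i).2.2) (fun i => ((k i + 1 : ℤ) : ℝ) / (4 * d) - α i) ?_ ?_ hdR
        ((tr (rd z) - z)) (norm_rd_sub z) _ ?_
      · intro i
        rw [sub_nonneg, le_div_iff₀ (by positivity)]
        push_cast
        linarith [hk2 i]
      · intro i
        rw [sub_le_iff_le_add, div_le_iff₀ (by positivity), add_mul, one_div_mul_cancel (by positivity)]
        push_cast
        linarith [hk1 i]
      · simp only [sub_smul, Finset.sum_sub_distrib, tr_sub, ← haα, f2]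
        rw [← hz, ← hq]
        have : ∑ i, (((k i + 1 : ℤ) : ℝ) / (4 * d)) • y i = z - q := by rw [hz]; abel
        rw [this]
        abel

end FPPX
end
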