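import Pool.Agent.Lib.MP_fa364e_pr.Core.Lat
import Pool.Agent.Lib.MP_fa364e_pr.Mg.G001

section

/-! Closure properties of negligible families. -/

namespace FPPX

open MeasureTheory ProbabilityTheory Filter Set
open scoped Topology

variable {d : ℕ} {Ω : Type} [MeasurableSpace Ω] {P : Measure Ω} [IsProbabilityMeasure P]

private lemma Neg_aux (A : ℝ) {a b : ℝ} (h : a < b) :
    ∀ᶠ r : ℝ in atTop, A * r ^ a ≤ r ^ b := by
  have h1 : Tendsto (fun r : ℝ => r ^ (b - a)) atTop atTop := tendsto_rpow_atTop (by linarith)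
  filter_upwards [h1.eventually_ge_atTop A, eventually_gt_atTop 0] with r hr hr0
  have h2 : r ^ b = r ^ (b - a) * r ^ a := by
    rw [← Real.rpow_add hr0]; congr 1; ring
  rw [h2]
  exact mul_le_mul_of_nonneg_right hr (by positivity)

lemma Negl.mono {B B' : ℝ → Set Ω} (h : ∀ᶠ r in atTop, B r ⊆ B' r) (hB : Negl P B') :
    Negl P B := by
  intro K
  filter_upwards [h, hB K] with r h1 h2
  exact (measureReal_mono h1).trans h2

lemma Negl.union {B B' : ℝ → Set Ω} (hB : Negl P B) (hB' : Negl P B') :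
    Negl P (fun r => B r ∪ B' r) := by
  intro K
  have hK : (-((K + 1 : ℕ) : ℝ)) < -(K : ℝ) := by push_cast; linarith
  filter_upwards [hB (K + 1), hB' (K + 1), Neg_aux 2 hK] with r h1 h2 h3
  have h4 : P.real (B r ∪ B' r) ≤ P.real (B r) + P.real (B' r) := measureReal_union_le _ _
  linarith

lemma Negl.comp_rpow {B : ℝ → Set Ω} (hB : Negl P B) {a c : ℝ} (ha : 0 < a) (hc : 0 < c) :
    Negl P (fun r => B (c * r ^ a)) := by
  intro K
  obtain ⟨K', hK'⟩ := exists_nat_gt ((K : ℝ) / a)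
  have hK1 : (K : ℝ) < a * K' := by
    rw [div_lt_iff₀ ha] at hK'
    linarith
  have ht : Tendsto (fun r : ℝ => c * r ^ a) atTop atTop :=
    (tendsto_rpow_atTop ha).const_mul_atTop hc
  have hlt : a * (-(K' : ℝ)) < -(K : ℝ) := by linarith
  filter_upwards [ht.eventually (hB K'), Neg_aux (c ^ (-(K' : ℝ))) hlt,
    eventually_gt_atTop 0] with r h1 h2 h3
  refine h1.trans ?_
  rw [Real.mul_rpow hc.le (by positivity), ← Real.rpow_mul h3.le]
  exact h2

/-- the probabilities tend to zero -/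
lemma Negl.lt {B : ℝ → Set Ω} (hB : Negl P B) {δ : ℝ} (hδ : 0 < δ) :
    ∀ᶠ r in atTop, P.real (B r) < δ := by
  filter_upwards [hB 1, eventually_gt_atTop (1 / δ), eventually_gt_atTop 0] with r h1 h2 h3
  refine lt_of_le_of_lt h1 ?_
  have h4 : r ^ (-((1 : ℕ) : ℝ)) = r⁻¹ := by
    push_cast
    rw [Real.rpow_neg h3.le, Real.rpow_one]
  rw [h4, inv_lt_comm₀ h3 hδ, ← one_div]
  exact h2

/-- a polynomial factor does not matter -/
lemma Negl.of_poly {B : ℝ → Set Ω} (D : ℝ)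
    (h : ∀ K : ℕ, ∀ᶠ r : ℝ in atTop, P.real (B r) ≤ r ^ D * r ^ (-(K : ℝ))) : Negl P B := by
  intro K
  obtain ⟨K', hK'⟩ := exists_nat_gt ((K : ℝ) + D)
  filter_upwards [h K', eventually_ge_atTop 1] with r h1 h2
  have h0 : 0 < r := by linarith
  refine h1.trans ?_
  rw [← Real.rpow_add h0]
  exact Real.rpow_le_rpow_of_exponent_le h2 (by linarith)

/-- outer measures do not increase under measure preserving preimages -/
lemma real_preimage_le (M : PreLRM d P) (x : V d) (A : Set Ω) :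
    P.real (M.θ x ⁻¹' A) ≤ P.real A := by
  have h1 : M.θ x ⁻¹' A ⊆ M.θ x ⁻¹' (toMeasurable P A) :=
    preimage_mono (subset_toMeasurable P A)
  have h2 : P (M.θ x ⁻¹' A) ≤ P A := by
    calc P (M.θ x ⁻¹' A) ≤ P (M.θ x ⁻¹' (toMeasurable P A)) := measure_mono h1
      _ = P (toMeasurable P A) :=
          (M.θ_mp x).measure_preimage (measurableSet_toMeasurable P A).nullMeasurableSet
      _ = P A := measure_toMeasurable A
  exact ENNReal.toReal_mono (measure_ne_top P A) h2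

/-- union over polynomially many starting points -/
lemma Negl.starts (M : PreLRM d P) {B : ℝ → Set Ω} (hB : Negl P B) (D : ℝ) :
    Negl P (fun r => {ω | ∃ x : V d, nm x ≤ r ^ D ∧ M.θ x ω ∈ B r}) := by
  set D' : ℝ := max D 0 with hD'
  have hD0 : 0 ≤ D' := le_max_right _ _
  apply Negl.of_poly (D' * d + 1)
  intro K
  filter_upwards [hB K, eventually_ge_atTop 1, Neg_aux ((3 : ℝ) ^ d)
    (show D' * d < D' * d + 1 by linarith)] with r h1 h2 h3
  have h0 : 0 < r := by linarith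
  have hfin : {x : V d | nm x ≤ r ^ D}.Finite := finite_bl _
  have hset : {ω | ∃ x : V d, nm x ≤ r ^ D ∧ M.θ x ω ∈ B r} =
      ⋃ x ∈ hfin.toFinset, M.θ x ⁻¹' (B r) := by
    ext ω
    simp only [mem_iUnion, mem_preimage, Finite.mem_toFinset, exists_prop]
    rfl
  rw [hset]
  have hcard : (hfin.toFinset.card : ℝ) ≤ (3 : ℝ) ^ d * r ^ (D' * d) := by
    have h4 : (hfin.toFinset.card : ℝ) = ({x : V d | nm x ≤ r ^ D}.ncard : ℝ) := by
      rw [ncard_eq_toFinset_card _ hfin]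
    rw [h4]
    refine (card_bl (r ^ D) (by positivity)).trans ?_
    have h5 : 2 * r ^ D + 1 ≤ 3 * r ^ D' := by
      have h6 : r ^ D ≤ r ^ D' := Real.rpow_le_rpow_of_exponent_le h2 (le_max_left _ _)
      have h7 : 1 ≤ r ^ D' := Real.one_le_rpow h2 hD0
      linarith
    calc (2 * r ^ D + 1) ^ d ≤ (3 * r ^ D') ^ d := pow_le_pow_left₀ (by positivity) h5 d
      _ = (3 : ℝ) ^ d * r ^ (D' * d) := by
          rw [mul_pow, ← Real.rpow_natCast (r ^ D') d, ← Real.rpow_mul h0.le]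
  calc P.real (⋃ x ∈ hfin.toFinset, M.θ x ⁻¹' (B r))
      ≤ ∑ x ∈ hfin.toFinset, P.real (M.θ x ⁻¹' (B r)) := measureReal_biUnion_finset_le _ _
    _ ≤ ∑ _x ∈ hfin.toFinset, P.real (B r) := Finset.sum_le_sum fun x _ => real_preimage_le M x _
    _ = hfin.toFinset.card * P.real (B r) := by rw [Finset.sum_const, nsmul_eq_mul]
    _ ≤ ((3 : ℝ) ^ d * r ^ (D' * d)) * r ^ (-(K : ℝ)) :=
        mul_le_mul hcard h1 measureReal_nonneg (by positivity)
    _ ≤ r ^ (D' * d + 1) * r ^ (-(K : ℝ)) :=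
        mul_le_mul_of_nonneg_right h3 (by positivity)

end FPPX
end

section

/-! Translation invariance and the linear upper bound for one pair. -/

namespace FPPX

open MeasureTheory ProbabilityTheory Filter Set
open scoped Topology

variable {d : ℕ} {Ω : Type} [MeasurableSpace Ω] {P : Measure Ω} [IsProbabilityMeasure P]

/-- linear upper bound, single pair -/
lemma PreLRM.up_lin (M : PreLRM d P) (K : ℕ) : ∀ᶠ r : ℝ in atTop, ∀ x : V d, nm x ≤ r →
    P.real {ω | M.C1 * r < M.t ω 0 x} ≤ r ^ (-(K : ℝ)) := by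
  filter_upwards [M.hs_up K] with r hr x hx
  have h := hr 0 0 0 x (by simp) (by simp) (by rwa [sub_zero])
  have hsub : {ω | M.C1 * r < M.t ω 0 x} ⊆
      (M.LE {z | (0 : ℝ) ≤ (0 : E d →ₗ[ℝ] ℝ) (tr z)} 0 x (M.C1 * r))ᶜ := by
    intro ω hω hmem
    exact absurd (M.LE_t _ _ _ _ _ hmem) (not_le.mpr hω)
  exact le_trans (measureReal_mono hsub) h

omit [IsProbabilityMeasure P] in
private lemma MomA_shift (M : PreLRM d P) (u v : V d) (ω : Ω) :
    M.t ω u v = M.t (M.θ u ω) 0 (v - u) := by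
  rw [M.t_shift u ω 0 (v - u), zero_add, sub_add_cancel]

/-- expectations are translation invariant -/
lemma PreLRM.integral_shift (M : PreLRM d P) (u v : V d) (f : ℝ → ℝ) (hf : Measurable f) :
    ∫ ω, f (M.t ω u v) ∂P = ∫ ω, f (M.t ω 0 (v - u)) ∂P := by
  have h1 : ∫ ω, f (M.t ω u v) ∂P = ∫ ω, f (M.t (M.θ u ω) 0 (v - u)) ∂P := by
    refine integral_congr_ae (Eventually.of_forall fun ω => ?_)
    show f (M.t ω u v) = f (M.t (M.θ u ω) 0 (v - u))
    rw [MomA_shift M u v ω]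
  have hg : Measurable (fun ω => f (M.t ω 0 (v - u))) := hf.comp (M.t_meas 0 (v - u))
  rw [h1, ← integral_map (f := fun ω => f (M.t ω 0 (v - u))) (M.θ_mp u).measurable.aemeasurable
    hg.aestronglyMeasurable, (M.θ_mp u).map_eq]

/-- probabilities are translation invariant -/
lemma PreLRM.real_shift (M : PreLRM d P) (u v : V d) (A : Set ℝ) (hA : MeasurableSet A) :
    P.real {ω | M.t ω u v ∈ A} = P.real {ω | M.t ω 0 (v - u) ∈ A} := by
  have h1 : {ω | M.t ω u v ∈ A} = M.θ u ⁻¹' {ω | M.t ω 0 (v - u) ∈ A} := by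
    ext ω
    show M.t ω u v ∈ A ↔ M.t (M.θ u ω) 0 (v - u) ∈ A
    rw [MomA_shift M u v ω]
  have hm : MeasurableSet {ω | M.t ω 0 (v - u) ∈ A} := M.t_meas 0 (v - u) hA
  rw [h1, (M.θ_mp u).measureReal_preimage hm.nullMeasurableSet]

end FPPX
end

section

/-! Moments. -/

namespace FPPX

open MeasureTheory ProbabilityTheory Filter Set
open scoped Topology

variable {d : ℕ} {Ω : Type} [MeasurableSpace Ω] {P : Measure Ω} [IsProbabilityMeasure P]

omit [IsProbabilityMeasure P] in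
lemma mom_point {T C n : ℝ} (hT0 : 0 ≤ T) (hC : 1 ≤ C) (hn : 1 ≤ n) (q : ℕ) :
    ENNReal.ofReal (T ^ q) ≤ ENNReal.ofReal ((C * n) ^ q) +
      ∑' j : ℕ, if C * (n * 2 ^ j) < T then ENNReal.ofReal ((C * (n * 2 ^ (j + 1))) ^ q) else 0 := by
  by_cases h : T ≤ C * n
  · refine le_trans ?_ le_self_add
    exact ENNReal.ofReal_le_ofReal (pow_le_pow_left₀ hT0 h q)
  · push_neg at h
    have hCn : 1 ≤ C * n := by nlinarith
    have hex : ∃ j : ℕ, T ≤ C * (n * 2 ^ (j + 1)) := by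
      obtain ⟨j, hj⟩ := pow_unbounded_of_one_lt T (one_lt_two (α := ℝ))
      refine ⟨j, ?_⟩
      have h2 : (2 : ℝ) ^ j ≤ 2 ^ (j + 1) := pow_le_pow_right₀ one_le_two (Nat.le_succ j)
      have h3 : (0 : ℝ) < 2 ^ (j + 1) := by positivity
      calc T ≤ 1 * 2 ^ (j + 1) := by linarith
        _ ≤ (C * n) * 2 ^ (j + 1) := by gcongr
        _ = C * (n * 2 ^ (j + 1)) := by ring
    classical
    set j := Nat.find hex with hj
    have h1 : T ≤ C * (n * 2 ^ (j + 1)) := Nat.find_spec hex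
    have h2 : C * (n * 2 ^ j) < T := by
      rcases Nat.eq_zero_or_pos j with h0 | h0
      · rw [h0, pow_zero, mul_one]
        exact h
      · have h3 := Nat.find_min hex (m := j - 1) (by omega)
        rw [not_le, Nat.sub_add_cancel h0] at h3
        exact h3
    refine le_trans ?_ le_add_self
    refine le_trans ?_ (ENNReal.le_tsum j)
    rw [if_pos h2]
    exact ENNReal.ofReal_le_ofReal (pow_le_pow_left₀ hT0 h1 q)

lemma mom_key {T : Ω → ℝ} (hT : Measurable T) (hT0 : ∀ ω, 0 ≤ T ω) {C n : ℝ} (hC : 1 ≤ C)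
    (hn : 1 ≤ n) (q : ℕ)
    (h : ∀ s : ℝ, n ≤ s → P.real {ω | C * s < T ω} ≤ s ^ (-((q + 1 : ℕ) : ℝ))) :
    ∫⁻ ω, ENNReal.ofReal (T ω ^ q) ∂P ≤ ENNReal.ofReal ((C * n) ^ q + (2 * C) ^ q * 2) := by
  have hC0 : 0 < C := by linarith
  have hn0 : 0 < n := by linarith
  have hms : ∀ j : ℕ, MeasurableSet {ω | C * (n * 2 ^ j) < T ω} := fun j =>
    measurableSet_lt measurable_const hT
  have h1 : ∫⁻ ω, ENNReal.ofReal (T ω ^ q) ∂P ≤ ∫⁻ ω, (ENNReal.ofReal ((C * n) ^ q) +
      ∑' j : ℕ, {ω | C * (n * 2 ^ j) < T ω}.indicator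
        (fun _ => ENNReal.ofReal ((C * (n * 2 ^ (j + 1))) ^ q)) ω) ∂P := by
    refine lintegral_mono (fun ω => ?_)
    exact mom_point (hT0 ω) hC hn q
  refine h1.trans ?_
  rw [lintegral_add_left measurable_const, lintegral_const, measure_univ, mul_one,
    lintegral_tsum (fun j => (measurable_const.indicator (hms j)).aemeasurable),
    ENNReal.ofReal_add (by positivity) (by positivity)]
  gcongr
  have h2 : ∀ j : ℕ, ∫⁻ ω, {ω | C * (n * 2 ^ j) < T ω}.indicator
        (fun _ => ENNReal.ofReal ((C * (n * 2 ^ (j + 1))) ^ q)) ω ∂P ≤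
        ENNReal.ofReal ((2 * C) ^ q * (1 / 2) ^ j) := by
    intro j
    rw [lintegral_indicator_const (hms j)]
    have hs0 : 0 < n * 2 ^ j := by positivity
    have hs : n ≤ n * 2 ^ j := le_mul_of_one_le_right hn0.le (one_le_pow₀ one_le_two)
    have h3 := h (n * 2 ^ j) hs
    have h4 : P {ω | C * (n * 2 ^ j) < T ω} ≤ ENNReal.ofReal ((n * 2 ^ j) ^ (-((q + 1 : ℕ) : ℝ))) := by
      rw [← ENNReal.ofReal_toReal (measure_ne_top P _)]
      exact ENNReal.ofReal_le_ofReal h3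
    calc ENNReal.ofReal ((C * (n * 2 ^ (j + 1))) ^ q) * P {ω | C * (n * 2 ^ j) < T ω}
        ≤ ENNReal.ofReal ((C * (n * 2 ^ (j + 1))) ^ q) *
          ENNReal.ofReal ((n * 2 ^ j) ^ (-((q + 1 : ℕ) : ℝ))) := by gcongr
      _ = ENNReal.ofReal ((C * (n * 2 ^ (j + 1))) ^ q * (n * 2 ^ j) ^ (-((q + 1 : ℕ) : ℝ))) := by
        rw [ENNReal.ofReal_mul (by positivity)]
      _ ≤ ENNReal.ofReal ((2 * C) ^ q * (1 / 2) ^ j) := by
        apply ENNReal.ofReal_le_ofReal
        rw [Real.rpow_neg hs0.le, Real.rpow_natCast]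
        have h5 : (C * (n * 2 ^ (j + 1))) ^ q = (2 * C) ^ q * (n * 2 ^ j) ^ q := by
          rw [← mul_pow]
          congr 1
          ring
        rw [h5, pow_succ (n * 2 ^ j) q, mul_inv, mul_assoc]
        have h6 : (n * 2 ^ j) ^ q * (((n * 2 ^ j) ^ q)⁻¹ * (n * 2 ^ j)⁻¹) = (n * 2 ^ j)⁻¹ := by
          rw [← mul_assoc, mul_inv_cancel₀ (by positivity), one_mul]
        rw [h6]
        have h7 : (n * 2 ^ j)⁻¹ ≤ (1 / 2 : ℝ) ^ j := by
          rw [one_div, inv_pow]
          apply inv_anti₀ (by positivity)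
          exact le_mul_of_one_le_left (by positivity) hn
        gcongr
  have h8 : Summable fun j : ℕ => (2 * C) ^ q * (1 / 2 : ℝ) ^ j :=
    summable_geometric_two.mul_left _
  calc ∑' j : ℕ, ∫⁻ ω, {ω | C * (n * 2 ^ j) < T ω}.indicator
        (fun _ => ENNReal.ofReal ((C * (n * 2 ^ (j + 1))) ^ q)) ω ∂P
      ≤ ∑' j : ℕ, ENNReal.ofReal ((2 * C) ^ q * (1 / 2) ^ j) := ENNReal.tsum_le_tsum h2
    _ = ENNReal.ofReal (∑' j : ℕ, (2 * C) ^ q * (1 / 2) ^ j) :=
        (ENNReal.ofReal_tsum_of_nonneg (fun j => by positivity) h8).symm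
    _ = ENNReal.ofReal ((2 * C) ^ q * 2) := by
        rw [tsum_mul_left, tsum_geometric_two]

lemma PreLRM.mom_lint (M : PreLRM d P) (q : ℕ) : ∃ C : ℝ, 0 ≤ C ∧ ∀ x : V d,
    ∫⁻ ω, ENNReal.ofReal (M.t ω 0 x ^ q) ∂P ≤ ENNReal.ofReal (C * (1 + nm x) ^ q) := by
  obtain ⟨R0, hR0⟩ := eventually_atTop.1 (M.up_lin (q + 1))
  set R := max R0 1 with hR
  have hC1 := M.one_le_C1
  have hR1 : 1 ≤ R := le_max_right _ _
  have hR2 : R0 ≤ R := le_max_left _ _
  have hC0 : 0 < M.C1 := by linarith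
  have hR3 : 0 < R := by linarith
  refine ⟨(M.C1 * R) ^ q + (2 * M.C1) ^ q * 2, by positivity, fun x => ?_⟩
  have hx : 0 ≤ nm x := norm_nonneg _
  set n := max (nm x) R with hn
  have hnR : R ≤ n := le_max_right _ _
  have h1 := mom_key (P := P) (M.t_meas 0 x) (fun ω => M.t_nonneg ω 0 x) hC1 (hR1.trans hnR) q
    (fun s hs => hR0 s (hR2.trans (hnR.trans hs)) x ((le_max_left _ _).trans hs))
  refine h1.trans (ENNReal.ofReal_le_ofReal ?_)
  have h2 : n ≤ R * (1 + nm x) := by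
    apply max_le
    · nlinarith
    · nlinarith
  have h3 : (M.C1 * n) ^ q ≤ (M.C1 * R) ^ q * (1 + nm x) ^ q := by
    rw [← mul_pow]
    apply pow_le_pow_left₀ (by positivity)
    calc M.C1 * n ≤ M.C1 * (R * (1 + nm x)) := by gcongr
      _ = M.C1 * R * (1 + nm x) := by ring
  have h4 : (1 : ℝ) ≤ (1 + nm x) ^ q := one_le_pow₀ (by linarith)
  have h5 : 0 ≤ (2 * M.C1) ^ q * 2 := by positivity
  nlinarith

lemma PreLRM.integrable_pow (M : PreLRM d P) (q : ℕ) (u v : V d) :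
    Integrable (fun ω => M.t ω u v ^ q) P := by
  have h0 : ∀ x : V d, Integrable (fun ω => M.t ω 0 x ^ q) P := by
    intro x
    obtain ⟨C, -, hC⟩ := M.mom_lint q
    refine ⟨((M.t_meas 0 x).pow_const q).aestronglyMeasurable, ?_⟩
    rw [hasFiniteIntegral_iff_ofReal (Eventually.of_forall fun ω => pow_nonneg (M.t_nonneg ω 0 x) q)]
    exact (hC x).trans_lt ENNReal.ofReal_lt_top
  have h1 := ((M.θ_mp u).integrable_comp (h0 (v - u)).aestronglyMeasurable).2 (h0 (v - u))
  refine h1.congr (Eventually.of_forall fun ω => ?_)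
  simp only [Function.comp, M.t_shift, zero_add, sub_add_cancel]

/-- all moments grow linearly -/
lemma PreLRM.moment (M : PreLRM d P) (q : ℕ) :
    ∃ C : ℝ, ∀ x : V d, ∫ ω, M.t ω 0 x ^ q ∂P ≤ C * (1 + nm x) ^ q := by
  obtain ⟨C, hC0, hC⟩ := M.mom_lint q
  refine ⟨C, fun x => ?_⟩
  rw [integral_eq_lintegral_of_nonneg_ae
    (Eventually.of_forall fun ω => pow_nonneg (M.t_nonneg ω 0 x) q)
    (M.integrable_pow q 0 x).aestronglyMeasurable]
  have hx : 0 ≤ nm x := norm_nonneg _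
  exact ENNReal.toReal_le_of_le_ofReal (by positivity) (hC x)

omit [IsProbabilityMeasure P] in
lemma mom_cs [IsFiniteMeasure P] {T : Ω → ℝ} (h1 : Integrable T P)
    (h2 : Integrable (fun ω => T ω ^ 2) P) :
    (∫ ω, T ω ∂P) ^ 2 ≤ P.real univ * ∫ ω, T ω ^ 2 ∂P := by
  set p := P.real univ with hp
  set m := ∫ ω, T ω ∂P with hm
  have hp0 : 0 ≤ p := measureReal_nonneg
  have h3 : 0 ≤ ∫ ω, (p * T ω - m) ^ 2 ∂P := integral_nonneg fun ω => sq_nonneg _
  have h4 : ∫ ω, (p * T ω - m) ^ 2 ∂P = p ^ 2 * (∫ ω, T ω ^ 2 ∂P) - 2 * p * m * m + p * m ^ 2 := by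
    have h5 : ∀ ω, (p * T ω - m) ^ 2 = p ^ 2 * T ω ^ 2 - 2 * p * m * T ω + m ^ 2 := by
      intro ω; ring
    simp only [h5]
    have h51 : Integrable (fun ω => p ^ 2 * T ω ^ 2) P := h2.const_mul _
    have h52 : Integrable (fun ω => 2 * p * m * T ω) P := h1.const_mul _
    have h53 : Integrable (fun ω => p ^ 2 * T ω ^ 2 - 2 * p * m * T ω) P := h51.sub h52
    rw [integral_add h53 (integrable_const _), integral_sub h51 h52, integral_const_mul,
      integral_const_mul, integral_const, smul_eq_mul]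
  rw [h4] at h3
  rcases hp0.eq_or_lt with h0 | h0
  · have h6 : P = 0 := by
      rw [← Measure.measure_univ_eq_zero]
      have := h0.symm
      rw [hp, measureReal_def, ENNReal.toReal_eq_zero_iff] at this
      rcases this with h | h
      · exact h
      · exact absurd h (measure_ne_top P _)
    have h7 : m = 0 := by rw [hm, h6]; simp
    rw [h7, ← h0]
    simp
  · have h8 : 0 ≤ p * (p * (∫ ω, T ω ^ 2 ∂P) - m ^ 2) := by nlinarith
    have h9 := nonneg_of_mul_nonneg_right h8 h0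
    linarith

/-- a crude bound for expectations on small events -/
lemma PreLRM.integral_on_small (M : PreLRM d P) : ∃ C : ℝ, ∀ (x : V d) (A : Set Ω),
    MeasurableSet A → ∫ ω in A, M.t ω 0 x ∂P ≤ C * (1 + nm x) * Real.sqrt (P.real A) := by
  obtain ⟨C, hC⟩ := M.moment 2
  refine ⟨Real.sqrt (max C 0), fun x A _ => ?_⟩
  have hx : 0 ≤ nm x := norm_nonneg _
  have hi1 : Integrable (fun ω => M.t ω 0 x) P := by simpa using M.integrable_pow 1 0 x
  have hi2 := M.integrable_pow 2 0 x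
  have h1 := mom_cs (P := P.restrict A) hi1.restrict hi2.restrict
  have h2 : ∫ ω in A, M.t ω 0 x ^ 2 ∂P ≤ ∫ ω, M.t ω 0 x ^ 2 ∂P :=
    setIntegral_le_integral hi2 (Eventually.of_forall fun ω => sq_nonneg _)
  have h3 : (P.restrict A).real univ = P.real A := by
    rw [measureReal_def, Measure.restrict_apply_univ, measureReal_def]
  rw [h3] at h1
  have hA : 0 ≤ P.real A := measureReal_nonneg
  have h4 : (∫ ω in A, M.t ω 0 x ∂P) ^ 2 ≤
      (Real.sqrt (max C 0) * (1 + nm x) * Real.sqrt (P.real A)) ^ 2 := by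
    rw [mul_pow, mul_pow, Real.sq_sqrt (le_max_right _ _), Real.sq_sqrt hA]
    calc (∫ ω in A, M.t ω 0 x ∂P) ^ 2 ≤ P.real A * ∫ ω in A, M.t ω 0 x ^ 2 ∂P := h1
      _ ≤ P.real A * (max C 0 * (1 + nm x) ^ 2) := by
        refine mul_le_mul_of_nonneg_left ?_ hA
        refine (h2.trans (hC x)).trans ?_
        exact mul_le_mul_of_nonneg_right (le_max_left _ _) (by positivity)
      _ = max C 0 * (1 + nm x) ^ 2 * P.real A := by ring
  exact abs_le_of_sq_le_sq' h4 (by positivity) |>.2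

end FPPX
end

section

/-! Linear upper bound for all pairs. -/

namespace FPPX

open MeasureTheory ProbabilityTheory Filter Set
open scoped Topology

variable {d : ℕ} {Ω : Type} [MeasurableSpace Ω] {P : Measure Ω} [IsProbabilityMeasure P]

/-- linear upper bound for all pairs in a polynomially large ball -/
lemma PreLRM.UL (M : PreLRM d P) (D ε : ℝ) (hε : 0 < ε) :
    Negl P (fun r => {ω | ∃ u v : V d, nm u ≤ r ^ D ∧ nm v ≤ r ^ D ∧
      M.C1 * max (nm (v - u)) (r ^ ε) < M.t ω u v}) := by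
  intro K
  obtain ⟨K', hK'⟩ := exists_nat_gt (((K : ℝ) + 2 * d * (|D| + 1)) / ε)
  have hK'' : (K : ℝ) + 2 * d * (|D| + 1) ≤ ε * K' := by
    rw [div_lt_iff₀ hε] at hK'
    linarith
  obtain ⟨ρ0, hρ0⟩ := eventually_atTop.1 (M.up_lin K')
  have h1 : ∀ᶠ r : ℝ in atTop, ρ0 ≤ r ^ ε := (tendsto_rpow_atTop hε).eventually_ge_atTop ρ0
  filter_upwards [h1, eventually_ge_atTop (3 : ℝ)] with r hr hr3
  have hr0 : (0 : ℝ) < r := by linarith
  have hr1 : (1 : ℝ) ≤ r := by linarith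
  set S : Finset (V d) := (finite_bl (d := d) (r ^ D)).toFinset with hS
  have hcard : (S.card : ℝ) ≤ (r ^ (|D| + 1)) ^ d := by
    have h2 := card_bl (d := d) (r ^ D) (Real.rpow_nonneg hr0.le _)
    rw [Set.ncard_eq_toFinset_card _ (finite_bl (d := d) (r ^ D))] at h2
    refine h2.trans (pow_le_pow_left₀ (by positivity) ?_ d)
    have h3 : r ^ D ≤ r ^ |D| := Real.rpow_le_rpow_of_exponent_le hr1 (le_abs_self D)
    have h4 : (1 : ℝ) ≤ r ^ |D| := Real.one_le_rpow hr1 (abs_nonneg D)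
    rw [Real.rpow_add hr0, Real.rpow_one]
    nlinarith
  have hsub : {ω | ∃ u v : V d, nm u ≤ r ^ D ∧ nm v ≤ r ^ D ∧
      M.C1 * max (nm (v - u)) (r ^ ε) < M.t ω u v} ⊆
      ⋃ p ∈ S ×ˢ S, {ω | M.C1 * max (nm (p.2 - p.1)) (r ^ ε) < M.t ω p.1 p.2} := by
    rintro ω ⟨u, v, hu, hv, huv⟩
    simp only [Set.mem_iUnion]
    refine ⟨(u, v), ?_, huv⟩
    rw [Finset.mem_product]
    exact ⟨by rw [hS, Set.Finite.mem_toFinset]; exact hu,
      by rw [hS, Set.Finite.mem_toFinset]; exact hv⟩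
  have hp : ∀ p : V d × V d, P.real {ω | M.C1 * max (nm (p.2 - p.1)) (r ^ ε) < M.t ω p.1 p.2} ≤
      r ^ (-(ε * K')) := by
    intro p
    set ρ := max (nm (p.2 - p.1)) (r ^ ε) with hρ
    have hρε : r ^ ε ≤ ρ := le_max_right _ _
    have h2 := M.real_shift p.1 p.2 (Set.Ioi (M.C1 * ρ)) measurableSet_Ioi
    have h3 := hρ0 ρ (hr.trans hρε) (p.2 - p.1) (le_max_left _ _)
    have h4 : ρ ^ (-(K' : ℝ)) ≤ r ^ (-(ε * K')) := by
      have h5 : (r ^ ε) ^ (-(K' : ℝ)) = r ^ (-(ε * K')) := by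
        rw [← Real.rpow_mul hr0.le]
        congr 1
        ring
      rw [← h5]
      exact Real.rpow_le_rpow_of_nonpos (Real.rpow_pos_of_pos hr0 _) hρε
        (by have : (0 : ℝ) ≤ K' := Nat.cast_nonneg _
            linarith)
    calc P.real {ω | M.C1 * ρ < M.t ω p.1 p.2}
        = P.real {ω | M.t ω p.1 p.2 ∈ Set.Ioi (M.C1 * ρ)} := rfl
      _ = P.real {ω | M.t ω 0 (p.2 - p.1) ∈ Set.Ioi (M.C1 * ρ)} := h2
      _ ≤ ρ ^ (-(K' : ℝ)) := h3
      _ ≤ r ^ (-(ε * K')) := h4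
  have hnn : (0 : ℝ) ≤ r ^ (-(ε * K')) := Real.rpow_nonneg hr0.le _
  calc P.real {ω | ∃ u v : V d, nm u ≤ r ^ D ∧ nm v ≤ r ^ D ∧
        M.C1 * max (nm (v - u)) (r ^ ε) < M.t ω u v}
      ≤ P.real (⋃ p ∈ S ×ˢ S, {ω | M.C1 * max (nm (p.2 - p.1)) (r ^ ε) < M.t ω p.1 p.2}) :=
        measureReal_mono hsub (measure_ne_top P _)
    _ ≤ ∑ p ∈ S ×ˢ S, P.real {ω | M.C1 * max (nm (p.2 - p.1)) (r ^ ε) < M.t ω p.1 p.2} :=
        measureReal_biUnion_finset_le _ _
    _ ≤ ∑ _p ∈ S ×ˢ S, r ^ (-(ε * K')) := Finset.sum_le_sum (fun p _ => hp p)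
    _ = ((S.card : ℝ) * S.card) * r ^ (-(ε * K')) := by
        rw [Finset.sum_const, Finset.card_product, nsmul_eq_mul]
        push_cast
        ring
    _ ≤ ((r ^ (|D| + 1)) ^ d * (r ^ (|D| + 1)) ^ d) * r ^ (-(ε * K')) := by
        gcongr
    _ = r ^ (2 * d * (|D| + 1) - ε * K') := by
        rw [← Real.rpow_natCast, ← Real.rpow_mul hr0.le, ← Real.rpow_add hr0, ← Real.rpow_add hr0]
        congr 1
        ring
    _ ≤ r ^ (-(K : ℝ)) := Real.rpow_le_rpow_of_exponent_le hr1 (by linarith)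

end FPPX
end

section

/-! First properties of the time constant. -/

namespace FPPX

open MeasureTheory ProbabilityTheory Filter Set
open scoped Topology

variable {d : ℕ} {Ω : Type} [MeasurableSpace Ω] {P : Measure Ω} [IsProbabilityMeasure P]

/-- distances between points at bounded distance are tight -/
theorem PreLRM.normA_tight (M : PreLRM d P) (B δ : ℝ) (hδ : 0 < δ) :
    ∃ S : ℝ, ∀ x : V d, nm x ≤ B → P.real {ω | S < M.t ω 0 x} ≤ δ := by
  have h1 := M.up_lin 1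
  have h2 : ∀ᶠ r : ℝ in atTop, r ^ (-((1 : ℕ) : ℝ)) ≤ δ := by
    have h3 : Tendsto (fun r : ℝ => r ^ (-((1 : ℕ) : ℝ))) atTop (𝓝 0) :=
      tendsto_rpow_neg_atTop (by norm_num)
    exact (h3.eventually_lt_const hδ).mono fun r hr => hr.le
  obtain ⟨r, hr1, hr2, hr3⟩ := (h1.and (h2.and (eventually_ge_atTop B))).exists
  exact ⟨M.C1 * r, fun x hx => (hr1 x (hx.trans hr3)).trans hr2⟩

/-- distances between points at bounded distance, along sequences -/
theorem PreLRM.normA_near (M : PreLRM d P) (B : ℝ) (u v : ℕ → V d)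
    (huv : ∀ n, nm (v n - u n) ≤ B) (ε : ℝ) (hε : 0 < ε) :
    Tendsto (fun n : ℕ => P.real {ω | ε * n ≤ M.t ω (u n) (v n)}) atTop (𝓝 0) := by
  rw [tendsto_order]
  constructor
  · intro a ha
    exact Eventually.of_forall fun n => ha.trans_le measureReal_nonneg
  · intro a ha
    obtain ⟨S, hS⟩ := M.normA_tight B (a / 2) (by linarith)
    have h1 : ∀ᶠ n : ℕ in atTop, S < ε * n := by
      have : Tendsto (fun n : ℕ => ε * (n : ℝ)) atTop atTop :=
        tendsto_natCast_atTop_atTop.const_mul_atTop hε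
      exact this.eventually_gt_atTop S
    filter_upwards [h1] with n hn
    have h2 : P.real {ω | ε * n ≤ M.t ω (u n) (v n)} =
        P.real {ω | ε * n ≤ M.t ω 0 (v n - u n)} :=
      M.real_shift (u n) (v n) (Ici (ε * n)) measurableSet_Ici
    rw [h2]
    have h3 : P.real {ω | ε * n ≤ M.t ω 0 (v n - u n)} ≤
        P.real {ω | S < M.t ω 0 (v n - u n)} := by
      refine measureReal_mono ?_
      intro ω hω
      exact hn.trans_le hω
    have := hS _ (huv n)
    linarith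

omit [IsProbabilityMeasure P] in
theorem PreLRM.normA_abs (M : PreLRM d P) (ω : Ω) (u v : V d) :
    |M.t ω 0 u - M.t ω 0 v| ≤ M.t ω v u := by
  rw [abs_le]
  constructor
  · have h1 := M.t_tri ω 0 u v
    have h2 := M.t_symm ω u v
    linarith
  · have h1 := M.t_tri ω 0 v u
    linarith

/-- uniqueness of limits in probability -/
theorem normA_uniq {X : ℕ → Ω → ℝ} {a b : ℝ}
    (ha : ∀ ε : ℝ, 0 < ε → Tendsto (fun n : ℕ => P.real {ω | ε * n ≤ |X n ω - n * a|}) atTop (𝓝 0))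
    (hb : ∀ ε : ℝ, 0 < ε → Tendsto (fun n : ℕ => P.real {ω | ε * n ≤ |X n ω - n * b|}) atTop (𝓝 0)) :
    a = b := by
  by_contra hne
  have hpos : 0 < |a - b| := abs_pos.2 (sub_ne_zero.2 hne)
  have h1 := (ha (|a - b| / 2) (by linarith)).add (hb (|a - b| / 2) (by linarith))
  rw [add_zero] at h1
  have h2 := h1.eventually_lt_const (show (0 : ℝ) < 1 by norm_num)
  obtain ⟨n, hn⟩ := h2.exists
  have h3 : (univ : Set Ω) ⊆ {ω | |a - b| / 2 * n ≤ |X n ω - n * a|} ∪
      {ω | |a - b| / 2 * n ≤ |X n ω - n * b|} := by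
    intro ω _
    by_contra hω
    rw [mem_union, not_or] at hω
    have h4 : |X n ω - n * a| < |a - b| / 2 * n := not_le.1 hω.1
    have h5 : |X n ω - n * b| < |a - b| / 2 * n := not_le.1 hω.2
    have h6 : |(n : ℝ) * a - n * b| ≤ |X n ω - n * a| + |X n ω - n * b| := by
      have h7 : (n : ℝ) * a - n * b = (X n ω - n * b) - (X n ω - n * a) := by ring
      rw [h7]
      exact (abs_sub _ _).trans (by linarith)
    have h8 : |(n : ℝ) * a - n * b| = n * |a - b| := by
      rw [← mul_sub, abs_mul, Nat.abs_cast]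
    linarith
  have h4 := measureReal_mono (μ := P) h3
  have h5 := measureReal_union_le (μ := P) {ω | |a - b| / 2 * n ≤ |X n ω - n * a|}
    {ω | |a - b| / 2 * n ≤ |X n ω - n * b|}
  rw [probReal_univ] at h4
  linarith

/-- nearby endpoints do not matter -/
theorem PreLRM.lim_close (M : PreLRM d P) (x : E d) (w : ℕ → V d) (B : ℝ)
    (hw : ∀ n, nm (w n - rd ((n : ℝ) • x)) ≤ B) (ε : ℝ) (hε : 0 < ε) :
    Tendsto (fun n : ℕ => P.real {ω | ε * n ≤ |M.t ω 0 (w n) - n * M.μ x|}) atTop (𝓝 0) := by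
  have h1 := (M.lim x (ε / 2) (by linarith)).add
    (M.normA_near B (fun n => rd ((n : ℝ) • x)) w hw (ε / 2) (by linarith))
  rw [add_zero] at h1
  refine squeeze_zero (fun n => measureReal_nonneg) (fun n => ?_) h1
  refine (measureReal_mono ?_).trans (measureReal_union_le _ _)
  intro ω hω
  by_contra h
  rw [mem_union, not_or] at h
  have h2 : |M.t ω 0 (rd ((n : ℝ) • x)) - n * M.μ x| < ε / 2 * n := not_le.1 h.1
  have h3 : M.t ω (rd ((n : ℝ) • x)) (w n) < ε / 2 * n := not_le.1 h.2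
  have h4 := M.normA_abs ω (w n) (rd ((n : ℝ) • x))
  have h5 : ε * n ≤ |M.t ω 0 (w n) - n * M.μ x| := hω
  have h6 : |M.t ω 0 (w n) - n * M.μ x| ≤ |M.t ω 0 (w n) - M.t ω 0 (rd ((n : ℝ) • x))| +
      |M.t ω 0 (rd ((n : ℝ) • x)) - n * M.μ x| := abs_sub_le _ _ _
  linarith

theorem PreLRM.mu_nat (M : PreLRM d P) (k : ℕ) (x : E d) :
    M.μ ((k : ℝ) • x) = k * M.μ x := by
  refine normA_uniq (X := fun n ω => M.t ω 0 (rd ((n : ℝ) • ((k : ℝ) • x))))
    (fun ε hε => M.lim ((k : ℝ) • x) ε hε) (fun ε hε => ?_)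
  rcases Nat.eq_zero_or_pos k with hk | hk
  · subst hk
    have h1 : ∀ᶠ n : ℕ in atTop, (0 : ℝ) = P.real {ω | ε * n ≤
        |M.t ω 0 (rd ((n : ℝ) • (((0 : ℕ) : ℝ) • x))) - n * (((0 : ℕ) : ℝ) * M.μ x)|} := by
      filter_upwards [eventually_gt_atTop 0] with n hn
      have h2 : {ω | ε * n ≤
        |M.t ω 0 (rd ((n : ℝ) • (((0 : ℕ) : ℝ) • x))) - n * (((0 : ℕ) : ℝ) * M.μ x)|} = ∅ := by
        ext ω
        have h3 : rd ((n : ℝ) • (((0 : ℕ) : ℝ) • x)) = 0 := by
          funext i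
          simp [rd]
        have h4 : (0 : ℝ) < ε * n := by positivity
        simp only [h3, M.t_self, mem_ofPred_eq, mem_empty_iff_false, iff_false, not_le]
        simpa using h4
      rw [h2, measureReal_empty]
    exact tendsto_const_nhds.congr' h1
  · have hk' : (0 : ℝ) < k := by exact_mod_cast hk
    have h1 := (M.lim x (ε / k) (by positivity)).comp
      (tendsto_id.atTop_mul_const' hk : Tendsto (fun n : ℕ => n * k) atTop atTop)
    refine h1.congr ?_
    intro n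
    rw [Function.comp_apply]
    congr 1
    ext ω
    simp only [mem_ofPred_eq]
    have h2 : ε / k * ((n * k : ℕ) : ℝ) = ε * n := by
      push_cast
      field_simp
    have h3 : ((n * k : ℕ) : ℝ) • x = (n : ℝ) • ((k : ℝ) • x) := by
      rw [smul_smul]
      push_cast
      rfl
    have h4 : ((n * k : ℕ) : ℝ) * M.μ x = n * (k * M.μ x) := by
      push_cast
      ring
    rw [h2, h3, h4]

theorem PreLRM.mu_neg (M : PreLRM d P) (x : E d) : M.μ (-x) = M.μ x := by
  refine normA_uniq (X := fun n ω => M.t ω 0 (rd ((n : ℝ) • (-x))))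
    (fun ε hε => M.lim (-x) ε hε) (fun ε hε => ?_)
  have h1 : ∀ n : ℕ, nm (-rd ((n : ℝ) • (-x)) - rd ((n : ℝ) • x)) ≤ 1 := by
    intro n
    have h2 := norm_rd_sub ((n : ℝ) • (-x))
    have h3 := norm_rd_sub ((n : ℝ) • x)
    unfold nm
    rw [tr_sub, tr_neg]
    have h4 : -tr (rd ((n : ℝ) • (-x))) - tr (rd ((n : ℝ) • x)) =
        -(tr (rd ((n : ℝ) • (-x))) - (n : ℝ) • (-x)) - (tr (rd ((n : ℝ) • x)) - (n : ℝ) • x) := by
      rw [smul_neg]
      abel
    rw [h4]
    refine (norm_sub_le _ _).trans ?_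
    rw [norm_neg]
    linarith
  refine (M.lim_close x (fun n => -rd ((n : ℝ) • (-x))) 1 h1 ε hε).congr ?_
  intro n
  have h2 := M.real_shift (rd ((n : ℝ) • (-x))) 0 {s | ε * n ≤ |s - n * M.μ x|}
    (measurableSet_le measurable_const ((measurable_id.sub_const _).abs))
  rw [zero_sub] at h2
  refine Eq.trans h2.symm ?_
  congr 1
  ext ω
  simp only [mem_ofPred_eq]
  rw [M.t_symm ω (rd ((n : ℝ) • (-x))) 0]

theorem PreLRM.mu_add (M : PreLRM d P) (x y : E d) : M.μ (x + y) ≤ M.μ x + M.μ y := by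
  by_contra hlt
  push Not at hlt
  set ε := (M.μ (x + y) - M.μ x - M.μ y) / 5 with hεdef
  have hε : 0 < ε := by
    rw [hεdef]
    linarith
  set a : ℕ → V d := fun n => rd ((n : ℝ) • x) with ha
  set b : ℕ → V d := fun n => rd ((n : ℝ) • y) with hb
  set c : ℕ → V d := fun n => rd ((n : ℝ) • (x + y)) with hc
  have hclose : ∀ n, nm (c n - (a n + b n)) ≤ 3 / 2 := by
    intro n
    have h1 := norm_rd_sub ((n : ℝ) • x)
    have h2 := norm_rd_sub ((n : ℝ) • y)
    have h3 := norm_rd_sub ((n : ℝ) • (x + y))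
    unfold nm
    rw [tr_sub, tr_add]
    have h4 : tr (c n) - (tr (a n) + tr (b n)) = (tr (c n) - (n : ℝ) • (x + y)) -
        (tr (a n) - (n : ℝ) • x) - (tr (b n) - (n : ℝ) • y) := by
      rw [smul_add]
      abel
    rw [h4]
    have h5 := norm_sub_le ((tr (c n) - (n : ℝ) • (x + y)) - (tr (a n) - (n : ℝ) • x))
      (tr (b n) - (n : ℝ) • y)
    have h6 := norm_sub_le (tr (c n) - (n : ℝ) • (x + y)) (tr (a n) - (n : ℝ) • x)
    linarith
  have t1 := M.lim (x + y) ε hε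
  have t2 := M.lim x ε hε
  have t3 : Tendsto (fun n : ℕ => P.real {ω | ε * n ≤ |M.t ω (a n) (a n + b n) - n * M.μ y|})
      atTop (𝓝 0) := by
    refine (M.lim y ε hε).congr ?_
    intro n
    have h2 := M.real_shift (a n) (a n + b n) {s | ε * n ≤ |s - n * M.μ y|}
      (measurableSet_le measurable_const ((measurable_id.sub_const _).abs))
    rw [add_sub_cancel_left] at h2
    exact h2.symm
  have t4 := M.normA_near (3 / 2) (fun n => a n + b n) c hclose ε hε
  have h1 := ((t1.add t2).add t3).add t4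
  simp only [add_zero] at h1
  have h2 := h1.eventually_lt_const (show (0 : ℝ) < 1 by norm_num)
  obtain ⟨n, hn, hn1⟩ := (h2.and (eventually_gt_atTop 0)).exists
  have hn1' : (0 : ℝ) < n := by exact_mod_cast hn1
  have h3 : (univ : Set Ω) ⊆ (({ω | ε * n ≤ |M.t ω 0 (c n) - n * M.μ (x + y)|} ∪
      {ω | ε * n ≤ |M.t ω 0 (a n) - n * M.μ x|}) ∪
      {ω | ε * n ≤ |M.t ω (a n) (a n + b n) - n * M.μ y|}) ∪
      {ω | ε * n ≤ M.t ω (a n + b n) (c n)} := by
    intro ω _
    by_contra hω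
    rw [mem_union, not_or, mem_union, not_or, mem_union, not_or] at hω
    obtain ⟨⟨⟨g1, g2⟩, g3⟩, g4⟩ := hω
    have g1' : |M.t ω 0 (c n) - n * M.μ (x + y)| < ε * n := not_le.1 g1
    have g2' : |M.t ω 0 (a n) - n * M.μ x| < ε * n := not_le.1 g2
    have g3' : |M.t ω (a n) (a n + b n) - n * M.μ y| < ε * n := not_le.1 g3
    have g4' : M.t ω (a n + b n) (c n) < ε * n := not_le.1 g4
    have k1 := (abs_lt.1 g1').1
    have k2 := (abs_lt.1 g2').2
    have k3 := (abs_lt.1 g3').2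
    have k4 := M.t_tri ω 0 (a n) (c n)
    have k5 := M.t_tri ω (a n) (a n + b n) (c n)
    have k6 : n * (M.μ (x + y) - M.μ x - M.μ y) < 4 * ε * n := by linarith
    have k7 : M.μ (x + y) - M.μ x - M.μ y = 5 * ε := by
      rw [hεdef]
      ring
    rw [k7] at k6
    nlinarith
  have h4 := measureReal_mono (μ := P) h3
  rw [probReal_univ] at h4
  have h5 := measureReal_union_le (μ := P) (({ω | ε * n ≤ |M.t ω 0 (c n) - n * M.μ (x + y)|} ∪
      {ω | ε * n ≤ |M.t ω 0 (a n) - n * M.μ x|}) ∪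
      {ω | ε * n ≤ |M.t ω (a n) (a n + b n) - n * M.μ y|})
      {ω | ε * n ≤ M.t ω (a n + b n) (c n)}
  have h6 := measureReal_union_le (μ := P) ({ω | ε * n ≤ |M.t ω 0 (c n) - n * M.μ (x + y)|} ∪
      {ω | ε * n ≤ |M.t ω 0 (a n) - n * M.μ x|})
      {ω | ε * n ≤ |M.t ω (a n) (a n + b n) - n * M.μ y|}
  have h7 := measureReal_union_le (μ := P) {ω | ε * n ≤ |M.t ω 0 (c n) - n * M.μ (x + y)|}
      {ω | ε * n ≤ |M.t ω 0 (a n) - n * M.μ x|}
  linarith

theorem PreLRM.mu_ub (M : PreLRM d P) (x : E d) : M.μ x ≤ M.C1 * ‖x‖ := by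
  by_contra hlt
  push Not at hlt
  have hC1 := M.one_le_C1
  set ε := (M.μ x - M.C1 * ‖x‖) / (2 * (M.C1 + 1)) with hεdef
  have hε : 0 < ε := div_pos (by linarith) (by linarith)
  have hε2 : ε * (M.C1 + 1) * 2 = M.μ x - M.C1 * ‖x‖ := by
    rw [hεdef]
    field_simp
  have hx0 : 0 ≤ ‖x‖ := norm_nonneg x
  have t1 := M.lim x ε hε
  have hr : Tendsto (fun n : ℕ => (‖x‖ + ε) * (n : ℝ)) atTop atTop :=
    tendsto_natCast_atTop_atTop.const_mul_atTop (by linarith)
  have h1 := hr.eventually (M.up_lin 1)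
  have t2 : Tendsto (fun n : ℕ => ((‖x‖ + ε) * (n : ℝ)) ^ (-((1 : ℕ) : ℝ))) atTop (𝓝 0) :=
    (tendsto_rpow_neg_atTop (by norm_num)).comp hr
  have h2 := (t1.add t2).eventually_lt_const (show (0 : ℝ) + 0 < 1 by norm_num)
  have h3 : ∀ᶠ n : ℕ in atTop, 1 / 2 ≤ ε * n := by
    have : Tendsto (fun n : ℕ => ε * (n : ℝ)) atTop atTop :=
      tendsto_natCast_atTop_atTop.const_mul_atTop hε
    exact this.eventually_ge_atTop _
  obtain ⟨n, hn1, hn2, hn3, hn4⟩ := (h1.and (h2.and (h3.and (eventually_gt_atTop 0)))).exists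
  have hn4' : (0 : ℝ) < n := by exact_mod_cast hn4
  have h4 : nm (rd ((n : ℝ) • x)) ≤ (‖x‖ + ε) * n := by
    refine (nm_rd_le _).trans ?_
    rw [norm_smul, Real.norm_eq_abs, Nat.abs_cast]
    nlinarith
  have h5 := hn1 _ h4
  have h6 : (univ : Set Ω) ⊆ {ω | ε * n ≤ |M.t ω 0 (rd ((n : ℝ) • x)) - n * M.μ x|} ∪
      {ω | M.C1 * ((‖x‖ + ε) * n) < M.t ω 0 (rd ((n : ℝ) • x))} := by
    intro ω _
    by_contra hω
    rw [mem_union, not_or] at hω
    have g1 : |M.t ω 0 (rd ((n : ℝ) • x)) - n * M.μ x| < ε * n := not_le.1 hω.1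
    have g2 : M.t ω 0 (rd ((n : ℝ) • x)) ≤ M.C1 * ((‖x‖ + ε) * n) := not_lt.1 hω.2
    have k1 := (abs_lt.1 g1).1
    have k2 : n * M.μ x < n * (M.C1 * (‖x‖ + ε) + ε) := by nlinarith
    have k3 : M.μ x < M.C1 * (‖x‖ + ε) + ε := lt_of_mul_lt_mul_left k2 hn4'.le
    nlinarith
  have h7 := measureReal_mono (μ := P) h6
  rw [probReal_univ] at h7
  have h8 := measureReal_union_le (μ := P)
    {ω | ε * n ≤ |M.t ω 0 (rd ((n : ℝ) • x)) - n * M.μ x|}
    {ω | M.C1 * ((‖x‖ + ε) * n) < M.t ω 0 (rd ((n : ℝ) • x))}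
  linarith

end FPPX
end

section

/-! Cutting a near geodesic chain at scale `m`. -/

namespace FPPX

open MeasureTheory ProbabilityTheory Filter Set
open scoped Topology

variable {d : ℕ} {Ω : Type} [MeasurableSpace Ω] {P : Measure Ω} [IsProbabilityMeasure P]

private def cons (a : ℕ) (f : ℕ → ℕ) : ℕ → ℕ
  | 0 => a
  | j + 1 => f j

private theorem cut_index (x : ℕ → V d) (l : ℕ) {J m : ℝ} (hm : 0 < m)
    (hx : ∀ i, i < l → nm (x (i + 1) - x i) ≤ J) :
    ∀ n start : ℕ, start ≤ l → l - start = n → ∃ (k : ℕ) (idx : ℕ → ℕ), idx 0 = start ∧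
      (∀ j, j < k → idx j < idx (j + 1)) ∧ idx k ≤ l ∧
      (∀ j, j < k → m ≤ nm (x (idx (j + 1)) - x (idx j)) ∧
        nm (x (idx (j + 1)) - x (idx j)) ≤ m + J) ∧ nm (x l - x (idx k)) < m := by
  classical
  intro n
  induction n using Nat.strong_induction_on with
  | _ n ih =>
    intro start hstart hn
    by_cases hex : ∃ i, start < i ∧ i ≤ l ∧ m ≤ nm (x i - x start)
    · have hspec := Nat.find_spec hex
      have hmin : ∀ {j}, j < Nat.find hex → ¬ (start < j ∧ j ≤ l ∧ m ≤ nm (x j - x start)) :=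
        fun {j} hj => Nat.find_min hex hj
      generalize Nat.find hex = i at hspec hmin
      obtain ⟨h1, h2, h3⟩ := hspec
      obtain ⟨i', rfl⟩ : ∃ i', i = i' + 1 := ⟨i - 1, by omega⟩
      have h4 : nm (x i' - x start) < m := by
        rcases Nat.lt_or_ge start i' with h5 | h5
        · by_contra hcon
          push Not at hcon
          exact hmin (Nat.lt_succ_self i') ⟨h5, by omega, hcon⟩
        · have : i' = start := by omega
          rw [this, sub_self, nm_zero]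
          exact hm
      have h5 : nm (x (i' + 1) - x start) ≤ m + J := by
        have h6 : x (i' + 1) - x start = (x (i' + 1) - x i') + (x i' - x start) := by abel
        rw [h6]
        have h7 := nm_add (x (i' + 1) - x i') (x i' - x start)
        have h8 := hx i' (by omega)
        linarith
      have hlt : l - (i' + 1) < n := by omega
      obtain ⟨k, idx, g0, g1, g2, g3, g4⟩ := ih (l - (i' + 1)) hlt (i' + 1) h2 rfl
      clear ih hmin
      refine ⟨k + 1, cons start idx, rfl, ?_, g2, ?_, g4⟩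
      · intro j hj
        cases j with
        | zero =>
          show start < idx 0
          rw [g0]; exact h1
        | succ j => exact g1 j (by omega)
      · intro j hj
        cases j with
        | zero =>
          show m ≤ nm (x (idx 0) - x start) ∧ nm (x (idx 0) - x start) ≤ m + J
          rw [g0]; exact ⟨h3, h5⟩
        | succ j => exact g3 j (by omega)
    · refine ⟨0, fun _ => start, rfl, fun j hj => absurd hj (Nat.not_lt_zero j), hstart,
        fun j hj => absurd hj (Nat.not_lt_zero j), ?_⟩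
      show nm (x l - x start) < m
      rcases Nat.lt_or_ge start l with h | h
      · by_contra hcon
        push Not at hcon
        exact hex ⟨l, h, le_refl l, hcon⟩
      · have : l = start := by omega
        rw [this, sub_self, nm_zero]
        exact hm

theorem PreLRM.cut (M : PreLRM d P) {ω : Ω} {R ε m : ℝ} (hω : ω ∈ M.ChainGood R ε)
    (hR : 0 < R) (hm : 0 < m) {u v : V d} (hu : nm u ≤ R) (hv : nm v ≤ R) :
    ∃ (k : ℕ) (a : ℕ → V d), a 0 = u ∧
      (∀ j, j < k → m ≤ nm (a (j + 1) - a j) ∧ nm (a (j + 1) - a j) ≤ m + R ^ ε) ∧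
      nm (v - a k) < m ∧
      (∀ i j, i ≤ j → j ≤ k → ∑ l ∈ Finset.Ico i j, M.t ω (a l) (a (l + 1)) ≤
        M.t ω (a i) (a j) + (k + 3) * R ^ ε) ∧
      ∑ l ∈ Finset.range k, M.t ω (a l) (a (l + 1)) + M.t ω (a k) v ≤
        M.t ω u v + (k + 3) * R ^ ε ∧
      (∀ j, j ≤ k → M.t ω u (a j) + M.t ω (a j) v ≤ M.t ω u v + 3 * R ^ ε) := by
  obtain ⟨l, x, s, hx0, hxl, hjump, hs0, hsl, hts, -⟩ := hω u v hu hv
  have hJ : 0 ≤ R ^ ε := Real.rpow_nonneg hR.le ε
  obtain ⟨k, idx, g0, g1, g2, g3, g4⟩ := cut_index x l hm hjump l 0 (Nat.zero_le l) rfl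
  have hmono : ∀ i j, i ≤ j → j ≤ k → idx i ≤ idx j := by
    intro i j hij
    induction j, hij using Nat.le_induction with
    | base => intro _; exact le_refl _
    | succ j hij ih =>
      intro hj
      exact (ih (by omega)).trans (g1 j (by omega)).le
  have hle : ∀ j, j ≤ k → idx j ≤ l := fun j hj => (hmono j k hj le_rfl).trans g2
  have hsumle : ∀ i j, i ≤ j → j ≤ k → ∑ l ∈ Finset.Ico i j, M.t ω (x (idx l)) (x (idx (l + 1))) ≤
      s (idx j) - s (idx i) + ((j : ℝ) - i) * R ^ ε := by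
    intro i j hij
    induction j, hij using Nat.le_induction with
    | base => intro _; simp
    | succ j hij ih =>
      intro hj
      rw [Finset.sum_Ico_succ_top hij]
      have h1 := ih (by omega)
      have h2 := hts (idx j) (idx (j + 1)) (g1 j (by omega)).le (hle (j + 1) hj)
      push_cast
      linarith
  have hu' : ∀ j, j ≤ k → M.t ω u (x (idx j)) ≤ s (idx j) - s 0 + R ^ ε := by
    intro j hj
    have := hts 0 (idx j) (Nat.zero_le _) (hle j hj)
    rwa [hx0] at this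
  have hv' : ∀ j, j ≤ k → M.t ω (x (idx j)) v ≤ s l - s (idx j) + R ^ ε := by
    intro j hj
    have := hts (idx j) l (hle j hj) le_rfl
    rwa [hxl] at this
  refine ⟨k, fun j => x (idx j), ?_, g3, ?_, ?_, ?_, ?_⟩
  · show x (idx 0) = u
    rw [g0, hx0]
  · rw [← hxl]; exact g4
  · intro i j hij hj
    have h1 := hsumle i j hij hj
    have h2 := hu' i (hij.trans hj)
    have h3 := hv' j hj
    have h4 := M.t_tri ω u (x (idx i)) v
    have h5 := M.t_tri ω (x (idx i)) (x (idx j)) v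
    have h6 : ((j : ℝ) - i) ≤ k := by
      have h7 : (j : ℝ) ≤ k := by exact_mod_cast hj
      have h8 : (0 : ℝ) ≤ i := Nat.cast_nonneg i
      linarith
    have h9 : ((j : ℝ) - i) * R ^ ε ≤ k * R ^ ε := mul_le_mul_of_nonneg_right h6 hJ
    have h10 : ((k : ℝ) + 3) * R ^ ε = k * R ^ ε + 3 * R ^ ε := by ring
    rw [h10]
    linarith
  · have h1 := hsumle 0 k (Nat.zero_le k) le_rfl
    rw [← Finset.range_eq_Ico, g0] at h1
    have h3 := hv' k le_rfl
    have h10 : ((k : ℝ) + 3) * R ^ ε = k * R ^ ε + 3 * R ^ ε := by ring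
    rw [h10]
    push_cast at h1
    have h11 : ((k : ℝ) - 0) * R ^ ε = k * R ^ ε := by ring
    rw [h11] at h1
    show ∑ l ∈ Finset.range k, M.t ω (x (idx l)) (x (idx (l + 1))) + M.t ω (x (idx k)) v ≤ _
    linarith
  · intro j hj
    have h2 := hu' j hj
    have h3 := hv' j hj
    show M.t ω u (x (idx j)) + M.t ω (x (idx j)) v ≤ _
    linarith

end FPPX
end

section

/-! Linear lower bound for all pairs. -/

namespace FPPX

open MeasureTheory ProbabilityTheory Filter Set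
open scoped Topology

variable {d : ℕ} {Ω : Type} [MeasurableSpace Ω] {P : Measure Ω} [IsProbabilityMeasure P]

theorem LRM.LL (M : LRM d P) (D ε : ℝ) (hε : 0 < ε) :
    Negl P (fun r => {ω | ∃ u v : V d, nm u ≤ r ^ D ∧ r ^ ε ≤ nm (v - u) ∧
      M.t ω u v < M.c0 * nm (v - u)}) := by
  have h1 := Negl.starts M.toPreLRM (Negl.comp_rpow M.linlow hε (c := 1) one_pos) D
  refine Negl.mono (Eventually.of_forall fun r => ?_) h1
  rintro ω ⟨u, v, hu, hv, ht⟩
  refine ⟨u, hu, v - u, by simpa using hv, ?_⟩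
  rw [M.t_shift, zero_add, sub_add_cancel]
  exact ht

end FPPX
end

section

/-! Localisation. -/

namespace FPPX

open MeasureTheory ProbabilityTheory Filter Set
open scoped Topology

variable {d : ℕ} {Ω : Type} [MeasurableSpace Ω] {P : Measure Ω} [IsProbabilityMeasure P]

/-- localisation: the metric in a ball of radius `r` is determined, up to `r ^ ε`, by the
randomness in a ball of radius `Cl * r` -/
theorem LRM.loc (M : LRM d P) : ∃ Cl : ℝ, 1 ≤ Cl ∧ ∀ D ε : ℝ, 0 < ε →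
    Negl P (fun r => {ω | ∃ u v w : V d, nm u ≤ r ^ D ∧ nm (v - u) ≤ r ∧ nm (w - u) ≤ r ∧
      ω ∉ M.LE (bl u (Cl * r)) v w (M.t ω v w + r ^ ε)}) := by
  have hC1 : 0 < M.C1 := lt_of_lt_of_le one_pos M.one_le_C1
  have hc0 := M.c0_pos
  refine ⟨3 * M.C1 / M.c0 + 3, ?_, ?_⟩
  · have : 0 < 3 * M.C1 / M.c0 := by positivity
    linarith
  intro D ε hε
  -- the exponents
  obtain ⟨D1, hD1⟩ : ∃ D1 : ℝ, D1 = max D 1 := ⟨_, rfl⟩
  have hD1a : D ≤ D1 := hD1 ▸ le_max_left _ _
  have hD1b : 1 ≤ D1 := hD1 ▸ le_max_right _ _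
  obtain ⟨D', hD'⟩ : ∃ D' : ℝ, D' = D1 + 2 := ⟨_, rfl⟩
  have hD'0 : 0 < D' := by linarith
  obtain ⟨e, he⟩ : ∃ e : ℝ, e = min ε 1 / 3 := ⟨_, rfl⟩
  have hmin : 0 < min ε 1 := lt_min hε one_pos
  have he0 : 0 < e := by rw [he]; positivity
  have heε : e ≤ ε := by
    have := min_le_left ε (1 : ℝ)
    linarith
  have he1 : e < 1 := by
    have := min_le_right ε (1 : ℝ)
    linarith
  have hch := Negl.comp_rpow (M.chain (e / D') (div_pos he0 hD'0)) hD'0 (c := 1) one_pos
  have hLL := M.LL D' (1 / 2) (by norm_num)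
  have hUL := M.toPreLRM.UL D' (1 / 2) (by norm_num)
  refine Negl.mono ?_ ((hch.union hLL).union hUL)
  filter_upwards [eventually_ge_atTop (2 : ℝ), ev_rpow_le 3 hC1 he1] with r hr2 hre
  have hr1 : (1 : ℝ) ≤ r := by linarith
  have hr0 : (0 : ℝ) < r := by linarith
  -- powers of `r`
  have hRe : (1 * r ^ D') ^ (e / D') = r ^ e := by
    rw [one_mul, ← Real.rpow_mul hr0.le]
    congr 1
    field_simp
  have hrD : r ^ D + r ≤ r ^ D' := by
    have h1 : r ^ D ≤ r ^ D1 := Real.rpow_le_rpow_of_exponent_le hr1 hD1a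
    have h2 : r ≤ r ^ D1 := by
      calc r = r ^ (1 : ℝ) := (Real.rpow_one r).symm
        _ ≤ r ^ D1 := Real.rpow_le_rpow_of_exponent_le hr1 hD1b
    have h3 : r ^ D' = r ^ D1 * r ^ (2 : ℝ) := by
      rw [hD', Real.rpow_add hr0]
    have h4 : (2 : ℝ) ≤ r ^ (2 : ℝ) := by
      rw [Real.rpow_two]; nlinarith
    have h5 : 0 < r ^ D1 := Real.rpow_pos_of_pos hr0 _
    have h6 := mul_le_mul_of_nonneg_left h4 h5.le
    rw [h3]
    linarith
  have hsq : r ^ ((1 : ℝ) / 2) ≤ r := by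
    calc r ^ ((1 : ℝ) / 2) ≤ r ^ (1 : ℝ) :=
          Real.rpow_le_rpow_of_exponent_le hr1 (by norm_num)
      _ = r := Real.rpow_one r
  have her : r ^ e ≤ r := by
    calc r ^ e ≤ r ^ (1 : ℝ) := Real.rpow_le_rpow_of_exponent_le hr1 he1.le
      _ = r := Real.rpow_one r
  have hee : r ^ e ≤ r ^ ε := Real.rpow_le_rpow_of_exponent_le hr1 heε
  rw [Real.rpow_one] at hre
  rintro ω ⟨u, v, w, hu, hv, hw, hω⟩
  by_contra hcon
  simp only [mem_union, not_or, mem_compl_iff, not_not] at hcon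
  obtain ⟨⟨hg, hl⟩, hup⟩ := hcon
  simp only [mem_ofPred_eq, not_exists, not_and, not_lt] at hl hup
  have hvR : nm v ≤ r ^ D' := by
    have h1 : nm v ≤ nm u + nm (v - u) := by
      have := nm_add u (v - u)
      rwa [add_sub_cancel] at this
    linarith
  have hwR : nm w ≤ r ^ D' := by
    have h1 : nm w ≤ nm u + nm (w - u) := by
      have := nm_add u (w - u)
      rwa [add_sub_cancel] at this
    linarith
  -- the distance of `v` and `w`
  have hvw : nm (w - v) ≤ 2 * r := by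
    have h1 : nm (w - v) ≤ nm (w - u) + nm (v - u) := by
      have := nm_sub_le (w - u) (v - u)
      rwa [sub_sub_sub_cancel_right] at this
    linarith
  have htvw : M.t ω v w ≤ 2 * M.C1 * r := by
    have h1 := hup v w hvR hwR
    have h2 : max (nm (w - v)) (r ^ ((1 : ℝ) / 2)) ≤ 2 * r := max_le hvw (by linarith)
    have h3 := mul_le_mul_of_nonneg_left h2 hC1.le
    linarith
  obtain ⟨l, x, s, hx0, hxl, hjump, hs0, hsl, hts, hloc⟩ := hg v w (by simpa using hvR)
    (by simpa using hwR)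
  rw [hRe] at hjump hsl hts hloc
  -- the chain stays close
  have hclose : ∀ i ≤ l, nm (x i - v) ≤ 3 * M.C1 * r / M.c0 + r := by
    intro i hi
    have h1 := hts 0 i (Nat.zero_le i) hi
    rw [hx0] at h1
    have h2 := hts i l hi le_rfl
    have h3 := M.t_nonneg ω (x i) (x l)
    have h4 : M.t ω v (x i) ≤ 3 * M.C1 * r := by linarith
    by_contra hc
    push Not at hc
    have h5 : 0 ≤ 3 * M.C1 * r / M.c0 := by positivity
    have h6 := hl v (x i) hvR (by linarith)
    have h7 : 3 * M.C1 * r / M.c0 < nm (x i - v) := by linarith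
    rw [div_lt_iff₀ hc0] at h7
    linarith
  apply hω
  have h8 := hloc (bl u ((3 * M.C1 / M.c0 + 3) * r)) (by
    intro i hi z hz
    have h1 := hclose i hi
    show nm (z - u) ≤ (3 * M.C1 / M.c0 + 3) * r
    have h2 : nm (z - u) ≤ nm (z - x i) + nm (x i - v) + nm (v - u) := by
      have e1 := nm_add (z - x i) (x i - v)
      have e2 := nm_add (z - x i + (x i - v)) (v - u)
      have e3 : z - x i + (x i - v) + (v - u) = z - u := by abel
      rw [e3] at e2
      linarith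
    have h3 : (3 * M.C1 / M.c0 + 3) * r = 3 * M.C1 * r / M.c0 + 3 * r := by ring
    rw [h3]
    linarith)
  exact M.LE_mono _ _ _ _ _ _ Subset.rfl (by linarith) h8

/-- the localisation constant -/
noncomputable def LRM.Cl (M : LRM d P) : ℝ := Classical.choose M.loc

theorem LRM.one_le_Cl (M : LRM d P) : 1 ≤ M.Cl := (Classical.choose_spec M.loc).1

theorem LRM.loc' (M : LRM d P) (D ε : ℝ) (hε : 0 < ε) :
    Negl P (fun r => {ω | ∃ u v w : V d, nm u ≤ r ^ D ∧ nm (v - u) ≤ r ∧ nm (w - u) ≤ r ∧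
      ω ∉ M.LE (bl u (M.Cl * r)) v w (M.t ω v w + r ^ ε)}) :=
  (Classical.choose_spec M.loc).2 D ε hε

end FPPX
end

section

/-! Pointwise forms of the uniform bounds, at scales `B * r ^ a`. -/

namespace FPPX

open MeasureTheory ProbabilityTheory Filter Set
open scoped Topology

variable {d : ℕ} {Ω : Type} [MeasurableSpace Ω] {P : Measure Ω} [IsProbabilityMeasure P]

/-- upper bound for all pairs at distance at most `r` in the ball of radius `R` -/
def PreLRM.UpAt (M : PreLRM d P) (ω : Ω) (R r β : ℝ) : Prop :=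
  ∀ u v : V d, nm u ≤ R → nm (v - u) ≤ r → M.t ω u v ≤ M.μ (tr (v - u)) + r ^ β

/-- lower bound for all pairs at distance at most `r` in the ball of radius `R` -/
def PreLRM.LowAt (M : PreLRM d P) (ω : Ω) (R r β : ℝ) : Prop :=
  ∀ u v : V d, nm u ≤ R → nm (v - u) ≤ r → M.μ (tr (v - u)) - r ^ β ≤ M.t ω u v

/-- localisation for all pairs at distance at most `r` in the ball of radius `R` -/
def LRM.LocAt (M : LRM d P) (ω : Ω) (R r ε : ℝ) : Prop :=
  ∀ u v : V d, nm u ≤ R → nm (v - u) ≤ r →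
    ω ∈ M.LE (bl u (M.Cl * r)) u v (M.t ω u v + r ^ ε)

lemma scale_ev {a B : ℝ} (ha : 0 < a) (hB : 0 < B) (D : ℝ) :
    ∃ D' : ℝ, ∀ᶠ r : ℝ in atTop, r ^ D ≤ (B * r ^ a) ^ D' ∧ 0 < r := by
  refine ⟨(|D| + 1) / a, ?_⟩
  have h1 : D < |D| + 1 := lt_of_le_of_lt (le_abs_self D) (lt_add_one _)
  have h2 : 0 < B ^ ((|D| + 1) / a) := Real.rpow_pos_of_pos hB _
  filter_upwards [ev_rpow_le 1 h2 h1, eventually_gt_atTop 0] with r hr hr0
  refine ⟨?_, hr0⟩
  rw [Real.mul_rpow hB.le (Real.rpow_nonneg hr0.le _), ← Real.rpow_mul hr0.le,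
    mul_div_cancel₀ _ ha.ne']
  linarith

theorem PreLRM.UpAll.scale {M : PreLRM d P} {β : ℝ} (h : M.UpAll β) {a B : ℝ} (ha : 0 < a)
    (hB : 0 < B) (D : ℝ) : Negl P (fun r => {ω | ¬ M.UpAt ω (r ^ D) (B * r ^ a) β}) := by
  obtain ⟨D', hD'⟩ := scale_ev ha hB D
  refine Negl.mono ?_ ((h D').comp_rpow ha hB)
  filter_upwards [hD'] with r hr ω hω
  simp only [PreLRM.UpAt, mem_ofPred_eq] at hω ⊢
  push Not at hω
  obtain ⟨u, v, h1, h2, h3⟩ := hω
  exact ⟨u, v, h1.trans hr.1, h2, h3⟩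

theorem PreLRM.Low.scale {M : PreLRM d P} {β : ℝ} (h : M.Low β) {a B : ℝ} (ha : 0 < a)
    (hB : 0 < B) (D : ℝ) : Negl P (fun r => {ω | ¬ M.LowAt ω (r ^ D) (B * r ^ a) β}) := by
  obtain ⟨D', hD'⟩ := scale_ev ha hB D
  refine Negl.mono ?_ ((h D').comp_rpow ha hB)
  filter_upwards [hD'] with r hr ω hω
  simp only [PreLRM.LowAt, mem_ofPred_eq] at hω ⊢
  push Not at hω
  obtain ⟨u, v, h1, h2, h3⟩ := hω
  exact ⟨u, v, h1.trans hr.1, h2, h3⟩

theorem LRM.loc_scale (M : LRM d P) {ε a B : ℝ} (hε : 0 < ε) (ha : 0 < a)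
    (hB : 0 < B) (D : ℝ) : Negl P (fun r => {ω | ¬ M.LocAt ω (r ^ D) (B * r ^ a) ε}) := by
  obtain ⟨D', hD'⟩ := scale_ev ha hB D
  refine Negl.mono ?_ ((M.loc' D' ε hε).comp_rpow ha hB)
  filter_upwards [hD'] with r hr ω hω
  simp only [LRM.LocAt, mem_ofPred_eq] at hω ⊢
  push Not at hω
  obtain ⟨u, v, h1, h2, h3⟩ := hω
  refine ⟨u, u, v, h1.trans hr.1, ?_, h2, h3⟩
  rw [sub_self, nm_zero]
  exact (mul_pos hB (Real.rpow_pos_of_pos hr.2 _)).le

end FPPX
end

section

/-! Fast events: definition. -/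

namespace FPPX

open MeasureTheory ProbabilityTheory Filter Set
open scoped Topology

variable {d : ℕ} {Ω : Type} [MeasurableSpace Ω] {P : Measure Ω} [IsProbabilityMeasure P]

/-- local event that a passage time from `A` is much smaller than `ν` predicts -/
def LRM.FE (M : LRM d P) (ν : E d →ₗ[ℝ] ℝ) (D m s : ℝ) (A : V d) : Set Ω :=
  {ω | ∃ b : V d, nm b ≤ D * m ∧ ω ∈ M.LE (bl A (M.Cl * (D * m))) A (A + b) (ν (tr b) - s)}

end FPPX
end

section

/-! Union bound over separated families of local events. -/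

namespace FPPX

open MeasureTheory ProbabilityTheory Filter Set
open scoped Topology

variable {d : ℕ} {Ω : Type} [MeasurableSpace Ω] {P : Measure Ω} [IsProbabilityMeasure P]

theorem PreLRM.prob_inter (M : PreLRM d P) (n : ℕ) (K : Fin n → Set (V d))
    (hK : ∀ i j, i ≠ j → Disjoint (K i) (K j)) (Ev : Fin n → Set Ω)
    (hEv : ∀ i, MeasurableSet[M.F (K i)] (Ev i)) (p : ℝ) (hp : 0 ≤ p)
    (hP : ∀ i, P.real (Ev i) ≤ p) : P.real (⋂ i, Ev i) ≤ p ^ n := by
  have h1 : P (⋂ i, Ev i) = ∏ i, P (Ev i) := (M.F_indep n K hK).meas_iInter hEv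
  have h2 : P.real (⋂ i, Ev i) = ∏ i, P.real (Ev i) := by
    unfold Measure.real
    rw [h1, ENNReal.toReal_prod]
  rw [h2]
  calc ∏ i, P.real (Ev i) ≤ ∏ _i : Fin n, p :=
        Finset.prod_le_prod (fun i _ => measureReal_nonneg) fun i _ => hP i
    _ = p ^ n := by simp

private theorem SepA_tri {d : ℕ} (x y z : V d) (ρ : ℝ) (h1 : nm (z - x) ≤ ρ)
    (h2 : nm (z - y) ≤ ρ) : nm (x - y) ≤ 2 * ρ := by
  have h3 : tr (x - y) = tr (z - y) - tr (z - x) := by
    funext i
    simp [tr]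
  unfold nm at *
  rw [h3]
  refine (norm_sub_le _ _).trans ?_
  linarith

theorem PreLRM.sep_union (M : PreLRM d P) (S : Finset (V d)) (Ev : V d → Set Ω) (ρ p : ℝ)
    (hp : 0 ≤ p) (hEv : ∀ x ∈ S, MeasurableSet[M.F (bl x ρ)] (Ev x))
    (hP : ∀ x ∈ S, P.real (Ev x) ≤ p) (b : ℕ) :
    P.real {ω | ∃ x : Fin b → V d, (∀ i, x i ∈ S) ∧
      (∀ i j, i ≠ j → 2 * ρ < nm (x i - x j)) ∧ ∀ i, ω ∈ Ev (x i)} ≤ (S.card * p) ^ b := by
  classical
  set G : (Fin b → V d) → Set Ω := fun x =>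
    if ∀ i j, i ≠ j → 2 * ρ < nm (x i - x j) then ⋂ i, Ev (x i) else ∅ with hG
  have hsub : {ω | ∃ x : Fin b → V d, (∀ i, x i ∈ S) ∧
      (∀ i j, i ≠ j → 2 * ρ < nm (x i - x j)) ∧ ∀ i, ω ∈ Ev (x i)} ⊆
      ⋃ x ∈ Fintype.piFinset (fun _ : Fin b => S), G x := by
    rintro ω ⟨x, hxS, hsep, hω⟩
    refine mem_iUnion₂.mpr ⟨x, Fintype.mem_piFinset.mpr hxS, ?_⟩
    simp only [hG]
    rw [if_pos hsep]
    exact mem_iInter.mpr hω
  have hGp : ∀ x ∈ Fintype.piFinset (fun _ : Fin b => S), P.real (G x) ≤ p ^ b := by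
    intro x hx
    have hxS := Fintype.mem_piFinset.mp hx
    by_cases hsep : ∀ i j, i ≠ j → 2 * ρ < nm (x i - x j)
    · simp only [hG]
      rw [if_pos hsep]
      refine M.prob_inter b (fun i => bl (x i) ρ) ?_ _ (fun i => hEv _ (hxS i)) p hp
        fun i => hP _ (hxS i)
      intro i j hij
      rw [Set.disjoint_left]
      intro z hz1 hz2
      exact absurd (hsep i j hij) (not_lt.mpr (SepA_tri (x i) (x j) z ρ hz1 hz2))
    · simp only [hG]
      rw [if_neg hsep]
      simp only [measureReal_empty]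
      positivity
  calc P.real {ω | ∃ x : Fin b → V d, (∀ i, x i ∈ S) ∧
      (∀ i j, i ≠ j → 2 * ρ < nm (x i - x j)) ∧ ∀ i, ω ∈ Ev (x i)}
      ≤ P.real (⋃ x ∈ Fintype.piFinset (fun _ : Fin b => S), G x) :=
        measureReal_mono hsub (measure_ne_top P _)
    _ ≤ ∑ x ∈ Fintype.piFinset (fun _ : Fin b => S), P.real (G x) :=
        measureReal_biUnion_finset_le _ _
    _ ≤ ∑ _x ∈ Fintype.piFinset (fun _ : Fin b => S), p ^ b := Finset.sum_le_sum hGp
    _ = (S.card * p) ^ b := by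
        rw [Finset.sum_const, Fintype.card_piFinset_const, nsmul_eq_mul, mul_pow]
        push_cast
        rfl

end FPPX
end

section

/-! Elementary properties of the upper bound predicates. -/

namespace FPPX

open MeasureTheory ProbabilityTheory Filter Set
open scoped Topology

variable {d : ℕ} {Ω : Type} [MeasurableSpace Ω] {P : Measure Ω} [IsProbabilityMeasure P]

/-- union over the endpoint -/
private theorem UpA_ball (M : PreLRM d P) {β : ℝ} (h : M.Up β) :
    Negl P (fun r => {ω | ∃ x : V d, nm x ≤ r ∧ M.μ (tr x) + r ^ β < M.t ω 0 x}) := by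
  apply Negl.of_poly ((d : ℝ) + 1)
  intro K
  filter_upwards [h K, eventually_ge_atTop 1, eventually_ge_atTop ((3 : ℝ) ^ d)] with r h1 h2 h3
  have h0 : 0 < r := by linarith
  have hfin : {x : V d | nm x ≤ r}.Finite := finite_bl _
  have hset : {ω | ∃ x : V d, nm x ≤ r ∧ M.μ (tr x) + r ^ β < M.t ω 0 x} =
      ⋃ x ∈ hfin.toFinset, {ω | M.μ (tr x) + r ^ β < M.t ω 0 x} := by
    ext ω
    simp only [mem_iUnion, Finite.mem_toFinset, exists_prop]
    rfl
  rw [hset]
  have hcard : (hfin.toFinset.card : ℝ) ≤ r ^ ((d : ℝ) + 1) := by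
    have h4 : (hfin.toFinset.card : ℝ) = ({x : V d | nm x ≤ r}.ncard : ℝ) := by
      rw [ncard_eq_toFinset_card _ hfin]
    rw [h4]
    refine (card_bl r h0.le).trans ?_
    calc (2 * r + 1) ^ d ≤ (3 * r) ^ d := pow_le_pow_left₀ (by positivity) (by linarith) d
      _ = (3 : ℝ) ^ d * r ^ d := mul_pow _ _ _
      _ ≤ r * r ^ d := mul_le_mul_of_nonneg_right h3 (by positivity)
      _ = r ^ ((d : ℝ) + 1) := by
          rw [Real.rpow_add h0, Real.rpow_natCast, Real.rpow_one, mul_comm]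
  calc P.real (⋃ x ∈ hfin.toFinset, {ω | M.μ (tr x) + r ^ β < M.t ω 0 x})
      ≤ ∑ x ∈ hfin.toFinset, P.real {ω | M.μ (tr x) + r ^ β < M.t ω 0 x} :=
        measureReal_biUnion_finset_le _ _
    _ ≤ ∑ _x ∈ hfin.toFinset, r ^ (-(K : ℝ)) := by
        apply Finset.sum_le_sum
        intro x hx
        exact h1 x (hfin.mem_toFinset.1 hx)
    _ = hfin.toFinset.card * r ^ (-(K : ℝ)) := by rw [Finset.sum_const, nsmul_eq_mul]
    _ ≤ r ^ ((d : ℝ) + 1) * r ^ (-(K : ℝ)) := mul_le_mul_of_nonneg_right hcard (by positivity)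

/-- uniform version -/
theorem PreLRM.UpAll_of_Up (M : PreLRM d P) {β : ℝ} (h : M.Up β) : M.UpAll β := by
  intro D
  refine Negl.mono (Filter.Eventually.of_forall ?_) (Negl.starts M (UpA_ball M h) D)
  rintro r ω ⟨u, v, hu, hv, hlt⟩
  refine ⟨u, hu, v - u, hv, ?_⟩
  have h1 : M.t (M.θ u ω) 0 (v - u) = M.t ω u v := by
    rw [M.t_shift, zero_add, sub_add_cancel]
  rw [h1]
  exact hlt

theorem PreLRM.Up_mono (M : PreLRM d P) {β β' : ℝ} (h : M.Up β) (hb : β ≤ β') : M.Up β' := by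
  intro K
  filter_upwards [h K, eventually_ge_atTop 1] with r h1 h2 x hx
  refine le_trans (measureReal_mono ?_) (h1 x hx)
  intro ω hω
  have h3 : r ^ β ≤ r ^ β' := Real.rpow_le_rpow_of_exponent_le h2 hb
  have h4 : M.μ (tr x) + r ^ β' < M.t ω 0 x := hω
  show M.μ (tr x) + r ^ β < M.t ω 0 x
  linarith

/-- trivial starting point -/
theorem PreLRM.Up_trivial (M : PreLRM d P) {β : ℝ} (hβ : 1 < β) : M.Up β := by
  intro K
  filter_upwards [M.up_lin K, ev_rpow_le M.C1 one_pos hβ, eventually_gt_atTop 0] with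
    r h1 h2 h3 x hx
  refine le_trans (measureReal_mono ?_) (h1 x hx)
  intro ω hω
  have hμ : 0 ≤ M.μ (tr x) := by
    by_cases h0 : tr x = 0
    · have h5 := M.mu_nat 0 (0 : E d)
      rw [Nat.cast_zero, zero_mul, zero_smul] at h5
      rw [h0, h5]
    · exact (M.μ_pos _ h0).le
  have h4 : M.μ (tr x) + r ^ β < M.t ω 0 x := hω
  show M.C1 * r < M.t ω 0 x
  rw [Real.rpow_one, one_mul] at h2
  linarith

end FPPX
end

section

/-! Sequential exploration in a forward direction. -/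

namespace FPPX

open MeasureTheory ProbabilityTheory Filter Set
open scoped Topology

variable {d : ℕ} {Ω : Type} [MeasurableSpace Ω] {P : Measure Ω} [IsProbabilityMeasure P]

/-- positions of the exploration with (random, local) increments `ξ` -/
def PreLRM.walk (M : PreLRM d P) (ξ : Ω → V d) : ℕ → Ω → V d
  | 0, _ => 0
  | k + 1, ω => M.walk ξ k ω + ξ (M.θ (M.walk ξ k ω) ω)

theorem PreLRM.walk_finite (M : PreLRM d P) (ξ : Ω → V d) (S : Finset (V d))
    (hS : ∀ ω, ξ ω ∈ S) (k : ℕ) : ∃ T : Finset (V d), ∀ ω, M.walk ξ k ω ∈ T := by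
  classical
  induction k with
  | zero => exact ⟨{0}, fun ω => Finset.mem_singleton.2 rfl⟩
  | succ k ih =>
    obtain ⟨T, hT⟩ := ih
    refine ⟨(T ×ˢ S).image (fun p => p.1 + p.2), fun ω => ?_⟩
    exact Finset.mem_image.2 ⟨(M.walk ξ k ω, ξ (M.θ (M.walk ξ k ω) ω)),
      Finset.mem_product.2 ⟨hT ω, hS _⟩, rfl⟩

/-- an almost sure property holds almost surely along the exploration -/
theorem PreLRM.walk_ae (M : PreLRM d P) (ξ : Ω → V d) (q : Ω → Prop) (hq : ∀ᵐ ω ∂P, q ω) :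
    ∀ᵐ ω ∂P, ∀ k, q (M.θ (M.walk ξ k ω) ω) := by
  have h1 : ∀ᵐ ω ∂P, ∀ x : V d, q (M.θ x ω) := by
    rw [ae_all_iff]
    intro x
    exact (M.θ_mp x).quasiMeasurePreserving.ae hq
  filter_upwards [h1] with ω hω k using hω _

end FPPX
end

section

/-! The exploration is adapted. -/

namespace FPPX

open MeasureTheory ProbabilityTheory Filter Set
open scoped Topology

variable {d : ℕ} {Ω : Type} [MeasurableSpace Ω] {P : Measure Ω} [IsProbabilityMeasure P]

/-- the event that the walk is at `x` only depends on what lies behind `x` -/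
theorem PreLRM.walk_event (M : PreLRM d P) (ν : E d →ₗ[ℝ] ℝ) (ρ R : ℝ) (hρ : 0 ≤ ρ)
    (hR : 0 ≤ R) (ξ : Ω → V d) (S : Finset (V d)) (hS : ∀ ω, ξ ω ∈ S)
    (hξ : ∀ b, MeasurableSet[M.F (bl 0 R)] (ξ ⁻¹' {b}))
    (hadv : ∀ ω, ∀ z ∈ bl (0 : V d) R, ν (tr z) < ν (tr (ξ ω)) - ρ) (k : ℕ) (x : V d) :
    MeasurableSet[M.F {z | ν (tr z) < ν (tr x) - ρ}] {ω | M.walk ξ k ω = x} := by
  induction k generalizing x with
  | zero =>
    by_cases h : (0 : V d) = x
    · have : {ω : Ω | M.walk ξ 0 ω = x} = univ := by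
        ext ω
        simp only [PreLRM.walk, h, mem_ofPred_eq, mem_univ]
      rw [this]
      exact @MeasurableSet.univ _ (M.F _)
    · have : {ω : Ω | M.walk ξ 0 ω = x} = ∅ := by
        ext ω
        simp only [PreLRM.walk, h, mem_ofPred_eq, mem_empty_iff_false]
      rw [this]
      exact @MeasurableSet.empty _ (M.F _)
  | succ k ih =>
    have hdec : {ω : Ω | M.walk ξ (k + 1) ω = x} =
        ⋃ b ∈ S, ({ω | M.walk ξ k ω = x - b} ∩ M.θ (x - b) ⁻¹' (ξ ⁻¹' {b})) := by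
      ext ω
      simp only [mem_ofPred_eq, mem_iUnion, mem_inter_iff, mem_preimage, mem_singleton_iff,
        exists_prop]
      constructor
      · intro h
        have h1 : M.walk ξ (k + 1) ω = M.walk ξ k ω + ξ (M.θ (M.walk ξ k ω) ω) := rfl
        have h2 : M.walk ξ k ω = x - ξ (M.θ (M.walk ξ k ω) ω) := by
          rw [← h, h1]; abel
        refine ⟨ξ (M.θ (M.walk ξ k ω) ω), hS _, h2, ?_⟩
        rw [← h2]
      · rintro ⟨b, -, h1, h2⟩
        show M.walk ξ k ω + ξ (M.θ (M.walk ξ k ω) ω) = x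
        rw [h1, h2]
        abel
    rw [hdec]
    refine Finset.measurableSet_biUnion S fun b _ => ?_
    by_cases hb : ∃ ω₀, ξ ω₀ = b
    · obtain ⟨ω₀, hω₀⟩ := hb
      have hz : ∀ z ∈ bl (0 : V d) R, ν (tr z) < ν (tr b) - ρ := by
        intro z hz
        have := hadv ω₀ z hz
        rwa [hω₀] at this
      have h0 : 0 < ν (tr b) - ρ := by
        have := hz 0 (by
          show nm ((0 : V d) - 0) ≤ R
          rw [sub_zero, nm_zero]; exact hR)
        rwa [tr_zero, map_zero] at this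
      have hx : ν (tr (x - b)) = ν (tr x) - ν (tr b) := by rw [tr_sub, map_sub]
      refine MeasurableSet.inter ?_ ?_
      · refine M.F_mono _ _ ?_ _ (ih (x - b))
        intro z hz'
        have hz'' : ν (tr z) < ν (tr (x - b)) - ρ := hz'
        show ν (tr z) < ν (tr x) - ρ
        rw [hx] at hz''
        linarith
      · refine M.F_mono _ _ ?_ _ (M.F_shift (x - b) _ _ (hξ b))
        intro z hz'
        have h1 : ν (tr (z - (x - b))) < ν (tr b) - ρ := hz _ hz'
        rw [tr_sub, map_sub, hx] at h1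
        show ν (tr z) < ν (tr x) - ρ
        linarith
    · have he : ξ ⁻¹' {b} = ∅ := by
        ext ω
        simp only [mem_preimage, mem_singleton_iff, mem_empty_iff_false, iff_false]
        intro h
        exact hb ⟨ω, h⟩
      rw [he, preimage_empty, inter_empty]
      exact @MeasurableSet.empty _ (M.F _)

end FPPX
end

section

/-! The fresh environment. -/

namespace FPPX

open MeasureTheory ProbabilityTheory Filter Set
open scoped Topology

variable {d : ℕ} {Ω : Type} [MeasurableSpace Ω] {P : Measure Ω} [IsProbabilityMeasure P]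

/-- the fresh environment seen from the `k`-th position has the original law -/
theorem PreLRM.walk_integral (M : PreLRM d P) (ν : E d →ₗ[ℝ] ℝ) (ρ R : ℝ) (hρ : 0 ≤ ρ)
    (hR : 0 ≤ R) (ξ : Ω → V d) (S : Finset (V d)) (hS : ∀ ω, ξ ω ∈ S)
    (hξ : ∀ b, MeasurableSet[M.F (bl 0 R)] (ξ ⁻¹' {b}))
    (hadv : ∀ ω, ∀ z ∈ bl (0 : V d) R, ν (tr z) < ν (tr (ξ ω)) - ρ)
    (g : Ω → ℝ) (hg : Measurable[M.F {z | -ρ ≤ ν (tr z)}] g) (hgi : Integrable g P) (k : ℕ) :
    Integrable (fun ω => g (M.θ (M.walk ξ k ω) ω)) P ∧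
      ∫ ω, g (M.θ (M.walk ξ k ω) ω) ∂P = ∫ ω, g ω ∂P := by
  classical
  obtain ⟨T, hT⟩ := M.walk_finite ξ S hS k
  -- the events
  have hAF : ∀ x, MeasurableSet[M.F {z | ν (tr z) < ν (tr x) - ρ}] {ω | M.walk ξ k ω = x} :=
    M.walk_event ν ρ R hρ hR ξ S hS hξ hadv k
  have hA : ∀ x, MeasurableSet {ω | M.walk ξ k ω = x} := fun x => M.F_le _ _ (hAF x)
  -- the shifted functions
  have hgx : ∀ x, Integrable (fun ω => g (M.θ x ω)) P := fun x =>
    (M.θ_mp x).integrable_comp_of_integrable hgi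
  have hgm : Measurable g := hg.mono (M.F_le _) le_rfl
  have hgE : ∀ x, ∫ ω, g (M.θ x ω) ∂P = ∫ ω, g ω ∂P := by
    intro x
    have h1 := (M.θ_mp x).map_eq
    conv_rhs => rw [← h1]
    rw [integral_map (M.θ_mp x).measurable.aemeasurable hgm.aestronglyMeasurable]
  -- the key identity
  have hkey : ∀ x, ∫ ω in {ω | M.walk ξ k ω = x}, g (M.θ x ω) ∂P
      = P.real {ω | M.walk ξ k ω = x} * ∫ ω, g ω ∂P := by
    intro x
    have hdisj : Disjoint {z : V d | ν (tr z) < ν (tr x) - ρ} {z : V d | ν (tr x) - ρ ≤ ν (tr z)} := by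
      rw [Set.disjoint_left]
      intro z h1 h2
      have h3 : ν (tr z) < ν (tr x) - ρ := h1
      have h4 : ν (tr x) - ρ ≤ ν (tr z) := h2
      linarith
    have hind : Indep (M.F {z : V d | ν (tr x) - ρ ≤ ν (tr z)})
        (M.F {z : V d | ν (tr z) < ν (tr x) - ρ}) P := by
      have h1 := M.F_indep 2 ![{z : V d | ν (tr x) - ρ ≤ ν (tr z)},
        {z : V d | ν (tr z) < ν (tr x) - ρ}] (by
          intro i j hij
          fin_cases i <;> fin_cases j
          · exact absurd rfl hij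
          · exact hdisj.symm
          · exact hdisj
          · exact absurd rfl hij)
      exact h1.indep (i := 0) (j := 1) (by decide)
    have hsh : Measurable[M.F {z : V d | ν (tr x) - ρ ≤ ν (tr z)}] (fun ω => g (M.θ x ω)) := by
      intro B hB
      have h2 := M.F_shift x _ _ (hg hB)
      refine M.F_mono _ _ ?_ _ h2
      intro z hz
      have h3 : -ρ ≤ ν (tr (z - x)) := hz
      rw [tr_sub, map_sub] at h3
      show ν (tr x) - ρ ≤ ν (tr z)
      linarith
    have hce := condExp_indep_eq (M.F_le {z : V d | ν (tr x) - ρ ≤ ν (tr z)})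
      (M.F_le {z : V d | ν (tr z) < ν (tr x) - ρ}) (μ := P) (f := fun ω => g (M.θ x ω))
      hsh.stronglyMeasurable hind
    have h4 := setIntegral_condExp (M.F_le {z : V d | ν (tr z) < ν (tr x) - ρ}) (μ := P)
      (hgx x) (hAF x)
    rw [← h4, setIntegral_congr_ae (hA x) (hce.mono fun ω h _ => h), setIntegral_const, hgE x,
      smul_eq_mul]
  -- decomposition
  have hdec : (fun ω => g (M.θ (M.walk ξ k ω) ω)) =
      fun ω => ∑ x ∈ T, ({ω | M.walk ξ k ω = x} : Set Ω).indicator (fun ω => g (M.θ x ω)) ω := by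
    funext ω
    rw [Finset.sum_eq_single (M.walk ξ k ω)]
    · rw [indicator_of_mem (show ω ∈ {ω' | M.walk ξ k ω' = M.walk ξ k ω} from rfl)]
    · intro x _ hx
      rw [indicator_of_notMem]
      intro h
      exact hx h.symm
    · intro h
      exact absurd (hT ω) h
  have hint : ∀ x ∈ T, Integrable
      (({ω | M.walk ξ k ω = x} : Set Ω).indicator (fun ω => g (M.θ x ω))) P :=
    fun x _ => (hgx x).indicator (hA x)
  refine ⟨?_, ?_⟩
  · rw [hdec]
    exact integrable_finsetSum T hint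
  · rw [hdec, integral_finsetSum T hint]
    have h1 : ∀ x ∈ T, ∫ ω, ({ω | M.walk ξ k ω = x} : Set Ω).indicator (fun ω => g (M.θ x ω)) ω ∂P
        = P.real {ω | M.walk ξ k ω = x} * ∫ ω, g ω ∂P := by
      intro x _
      rw [integral_indicator (hA x), hkey x]
    rw [Finset.sum_congr rfl h1, ← Finset.sum_mul]
    have h2 : ∑ x ∈ T, P.real {ω | M.walk ξ k ω = x} = 1 := by
      rw [← measureReal_biUnion_finset]
      · have : (⋃ x ∈ T, {ω | M.walk ξ k ω = x}) = univ := by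
          ext ω
          simp only [mem_iUnion, mem_ofPred_eq, exists_prop, mem_univ, iff_true]
          exact ⟨_, hT ω, rfl⟩
        rw [this]
        simp
      · intro x _ y _ hxy
        rw [Function.onFun, Set.disjoint_left]
        intro ω h3 h4
        exact hxy (h3.symm.trans h4)
      · exact fun x _ => hA x
    rw [h2, one_mul]

end FPPX
end
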