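import Pool.Agent.Lib.MP_fa364e_pr.Mg.G001
import Pool.Agent.Lib.MP_fa364e_pr.Core.Lat
import Pool.Agent.Lib.MP_fa364e_pr.Mg.G002

section

/-! Cutting a straight segment into blocks. -/

namespace FPPX

open MeasureTheory ProbabilityTheory Filter Set
open scoped Topology

/-- differences of rounded points -/
private lemma blocks_diff {d : ℕ} (x y : E d) : ‖tr (rd y - rd x) - (y - x)‖ ≤ 1 := by
  have h1 := norm_rd_sub x
  have h2 := norm_rd_sub y
  have h3 : tr (rd y - rd x) - (y - x) = (tr (rd y) - y) - (tr (rd x) - x) := by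
    rw [tr_sub]; abel
  rw [h3]
  exact (norm_sub_le _ _).trans (by linarith)

theorem blocks {d : ℕ} {μ : E d → ℝ} {c C : ℝ} (hμ : IsNm μ c C) (x : V d) (hx : x ≠ 0) (m : ℝ)
    (hm : 1 ≤ m) :
    ∃ (k : ℕ) (y : ℕ → V d), 1 ≤ k ∧ (k : ℝ) ≤ nm x / m + 1 ∧ y 0 = 0 ∧ y k = x ∧
      (∀ j, j < k → nm (y (j + 1) - y j) ≤ m + 1) ∧
      (∀ j, j ≤ k → nm (y j) ≤ nm x + 1) ∧
      (∀ i j, i < j → j < k → ((j : ℝ) - i) * (m / 2) - 1 ≤ nm (y j - y i)) ∧
      ∑ j ∈ Finset.range k, μ (tr (y (j + 1) - y j)) ≤ μ (tr x) + C * k := by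
  have hnx : 1 ≤ nm x := one_le_nm hx
  have hm0 : 0 < m := by linarith
  have hC : 0 ≤ C := by
    have h1 := (hμ.lb (tr x)).trans (hμ.ub (tr x))
    have h2 : 0 < ‖tr x‖ := lt_of_lt_of_le one_pos hnx
    have h3 := hμ.cpos
    have h4 : c ≤ C := le_of_mul_le_mul_right h1 h2
    linarith
  set k : ℕ := ⌈nm x / m⌉₊ with hk
  have hk1 : 1 ≤ k := Nat.one_le_iff_ne_zero.mpr (by
    rw [hk]; exact (Nat.ceil_pos.mpr (by positivity)).ne')
  have hkR : (1 : ℝ) ≤ k := by exact_mod_cast hk1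
  have hk0 : (0 : ℝ) < k := by linarith
  have hkle : (k : ℝ) < nm x / m + 1 := Nat.ceil_lt_add_one (by positivity)
  have hkge : nm x / m ≤ k := Nat.le_ceil _
  have hstep : nm x / k ≤ m := by
    rw [div_le_iff₀ hk0]
    rw [div_le_iff₀ hm0] at hkge
    linarith
  let y : ℕ → V d := fun j => rd (((j : ℝ) / k) • tr x)
  have hdiff : ∀ i j : ℕ, ‖tr (y j - y i) - (((j : ℝ) - i) / k) • tr x‖ ≤ 1 := by
    intro i j
    have := blocks_diff (((i : ℝ) / k) • tr x) (((j : ℝ) / k) • tr x)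
    rw [← sub_smul, ← sub_div] at this
    exact this
  refine ⟨k, y, hk1, hkle.le, ?_, ?_, ?_, ?_, ?_, ?_⟩
  · have : ((0 : ℕ) : ℝ) / k = 0 := by simp
    simp only [y]
    rw [this, zero_smul, ← tr_zero, rd_tr]
  · simp only [y]
    rw [div_self hk0.ne', one_smul, rd_tr]
  · intro j _
    have h1 := hdiff j (j + 1)
    have h2 : (((j + 1 : ℕ) : ℝ) - j) / k = 1 / k := by push_cast; ring
    rw [h2] at h1
    have h3 : tr (y (j + 1) - y j) = (1 / (k : ℝ)) • tr x +
        (tr (y (j + 1) - y j) - (1 / (k : ℝ)) • tr x) := by abel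
    have h4 : ‖(1 / (k : ℝ)) • tr x‖ = nm x / k := by
      rw [norm_smul, Real.norm_of_nonneg (by positivity), nm]; ring
    unfold nm at hstep h4 ⊢
    rw [h3]
    refine (norm_add_le _ _).trans ?_
    rw [h4]
    linarith
  · intro j hj
    have h1 := nm_rd_le (((j : ℝ) / k) • tr x)
    have h2 : ‖((j : ℝ) / k) • tr x‖ ≤ nm x := by
      rw [norm_smul, Real.norm_of_nonneg (by positivity)]
      have : (j : ℝ) / k ≤ 1 := by
        rw [div_le_one hk0]; exact_mod_cast hj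
      exact mul_le_of_le_one_left (norm_nonneg _) this
    show nm (rd (((j : ℝ) / k) • tr x)) ≤ nm x + 1
    linarith
  · intro i j hij hjk
    have h1 := hdiff i j
    have hk2 : (2 : ℝ) ≤ k := by
      have : 2 ≤ k := by omega
      exact_mod_cast this
    have h2 : m / 2 ≤ nm x / k := by
      rw [le_div_iff₀ hk0]
      have : (k : ℝ) - 1 < nm x / m := by linarith
      rw [lt_div_iff₀ hm0] at this
      nlinarith
    have h3 : (0 : ℝ) ≤ (j : ℝ) - i := by
      have : (i : ℝ) < j := by exact_mod_cast hij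
      linarith
    have h4 : ‖(((j : ℝ) - i) / k) • tr x‖ = ((j : ℝ) - i) * (nm x / k) := by
      rw [norm_smul, Real.norm_of_nonneg (by positivity), nm]; ring
    have h5 : ‖(((j : ℝ) - i) / k) • tr x‖ ≤ ‖tr (y j - y i)‖ + 1 := by
      have h6 : (((j : ℝ) - i) / k) • tr x = tr (y j - y i) -
        (tr (y j - y i) - (((j : ℝ) - i) / k) • tr x) := by abel
      rw [h6]
      exact (norm_sub_le _ _).trans (by linarith)
    rw [h4] at h5
    unfold nm at h5 ⊢
    have h7 : ((j : ℝ) - i) * (m / 2) ≤ ((j : ℝ) - i) * (‖tr x‖ / k) :=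
      mul_le_mul_of_nonneg_left h2 h3
    linarith
  · have hone : ∀ j ∈ Finset.range k, μ (tr (y (j + 1) - y j)) ≤ μ (tr x) / k + C := by
      intro j _
      have h1 := hdiff j (j + 1)
      have h2 : (((j + 1 : ℕ) : ℝ) - j) / k = 1 / k := by push_cast; ring
      rw [h2] at h1
      have h3 := (abs_le.mp (hμ.sub_le (tr (y (j + 1) - y j)) ((1 / (k : ℝ)) • tr x))).2
      have h4 : μ ((1 / (k : ℝ)) • tr x) = μ (tr x) / k := by
        rw [hμ.smul, abs_of_pos (by positivity)]; ring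
      have h5 := mul_le_mul_of_nonneg_left h1 hC
      linarith
    calc ∑ j ∈ Finset.range k, μ (tr (y (j + 1) - y j))
        ≤ ∑ _j ∈ Finset.range k, (μ (tr x) / k + C) := Finset.sum_le_sum hone
      _ = μ (tr x) + C * k := by
        rw [Finset.sum_const, Finset.card_range, nsmul_eq_mul]
        field_simp

end FPPX
end

section

/-! Separated families. -/

namespace FPPX

open MeasureTheory ProbabilityTheory Filter Set
open scoped Topology

variable {d : ℕ} {Ω : Type} [MeasurableSpace Ω] {P : Measure Ω} [IsProbabilityMeasure P]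



end FPPX
end

section

/-! Stationary local random metrics, before the time constant is known to exist. -/

namespace FPPX

open MeasureTheory ProbabilityTheory Filter Set
open scoped Topology

/-- stationary local random pseudometric, without time constant -/
structure PreB (d : ℕ) {Ω : Type} [mΩ : MeasurableSpace Ω] (P : Measure Ω) where
  t : Ω → V d → V d → ℝ
  LE : Set (V d) → V d → V d → ℝ → Set Ω
  F : Set (V d) → MeasurableSpace Ω
  θ : V d → Ω → Ω
  t_nonneg : ∀ ω u v, 0 ≤ t ω u v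
  t_self : ∀ ω u, t ω u u = 0
  t_symm : ∀ ω u v, t ω u v = t ω v u
  t_tri : ∀ ω u v w, t ω u w ≤ t ω u v + t ω v w
  t_meas : ∀ u v, Measurable (fun ω => t ω u v)
  t_shift : ∀ x ω u v, t (θ x ω) u v = t ω (u + x) (v + x)
  θ_mp : ∀ x, MeasurePreserving (θ x) P P
  F_le : ∀ K, F K ≤ mΩ
  F_mono : ∀ K K', K ⊆ K' → F K ≤ F K'
  F_shift : ∀ x K A, MeasurableSet[F K] A → MeasurableSet[F (sh x K)] (θ x ⁻¹' A)
  F_indep : ∀ (n : ℕ) (K : Fin n → Set (V d)), (∀ i j, i ≠ j → Disjoint (K i) (K j)) →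
    iIndep (fun i => F (K i)) P
  LE_meas : ∀ K u v s, MeasurableSet[F K] (LE K u v s)
  LE_t : ∀ K u v s ω, ω ∈ LE K u v s → t ω u v ≤ s
  LE_mono : ∀ K K' u v s s', K ⊆ K' → s ≤ s' → LE K u v s ⊆ LE K' u v s'
  LE_shift : ∀ x K u v s, θ x ⁻¹' (LE K u v s) = LE (sh x K) (u + x) (v + x) s
  C1 : ℝ
  one_le_C1 : 1 ≤ C1
  hs_up : ∀ K : ℕ, ∀ᶠ r : ℝ in atTop, ∀ (ν : E d →ₗ[ℝ] ℝ) (a : ℝ) (u v : V d),
    a ≤ ν (tr u) → a ≤ ν (tr v) → nm (v - u) ≤ r →
    P.real (LE {z | a ≤ ν (tr z)} u v (C1 * r))ᶜ ≤ r ^ (-(K : ℝ))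

/-- the event that all pairs in the ball of radius `r` are joined by near geodesic chains with
jumps at most `r ^ ε`, all of whose subchains localise the metric up to `r ^ ε` -/
def PreB.CG {d : ℕ} {Ω : Type} [MeasurableSpace Ω] {P : Measure Ω} (M : PreB d P)
    (r ε : ℝ) : Set Ω :=
  {ω | ∀ u v, nm u ≤ r → nm v ≤ r → ∃ (l : ℕ) (x : ℕ → V d) (s : ℕ → ℝ),
    x 0 = u ∧ x l = v ∧ (∀ i, i < l → nm (x (i + 1) - x i) ≤ r ^ ε) ∧
    0 ≤ s 0 ∧ s l ≤ M.t ω u v + r ^ ε ∧
    ∀ i j, i ≤ j → j ≤ l → ∀ K : Set (V d),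
      (∀ n, i ≤ n → n ≤ j → ∀ z, nm (z - x n) ≤ r ^ ε → z ∈ K) →
      ω ∈ M.LE K (x i) (x j) (s j - s i + r ^ ε)}

/-- stationary local random metric with near geodesic chains and a weak lower bound -/
structure BLRM (d : ℕ) {Ω : Type} [mΩ : MeasurableSpace Ω] (P : Measure Ω) extends PreB d P where
  chain : ∀ ε : ℝ, 0 < ε → Negl P (fun r => (toPreB.CG r ε)ᶜ)
  weak : Negl P (fun r => {ω | ∃ z : V d, r ≤ nm z ∧ nm z ≤ 2 * r ∧ t ω 0 z < r ^ (1 / 2 : ℝ)})

end FPPX
end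

section

/-! Moments and invariance (copies of Core.Neg, MomA, MomB, SepA for PreB). -/

namespace FPPX

open MeasureTheory ProbabilityTheory Filter Set
open scoped Topology

variable {d : ℕ} {Ω : Type} [MeasurableSpace Ω] {P : Measure Ω} [IsProbabilityMeasure P]

/-- outer measures do not increase under measure preserving preimages -/
lemma realB_preimage_le (M : PreB d P) (x : V d) (A : Set Ω) :
    P.real (M.θ x ⁻¹' A) ≤ P.real A := by
  have h1 : M.θ x ⁻¹' A ⊆ M.θ x ⁻¹' (toMeasurable P A) :=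
    preimage_mono (subset_toMeasurable P A)
  have h2 : P (M.θ x ⁻¹' A) ≤ P A := by
    calc P (M.θ x ⁻¹' A) ≤ P (M.θ x ⁻¹' (toMeasurable P A)) := measure_mono h1
      _ = P (toMeasurable P A) :=
          (M.θ_mp x).measure_preimage (measurableSet_toMeasurable P A).nullMeasurableSet
      _ = P A := measure_toMeasurable A
  exact ENNReal.toReal_mono (measure_ne_top P A) h2


/-- linear upper bound, single pair -/
lemma PreB.up_lin (M : PreB d P) (K : ℕ) : ∀ᶠ r : ℝ in atTop, ∀ x : V d, nm x ≤ r →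
    P.real {ω | M.C1 * r < M.t ω 0 x} ≤ r ^ (-(K : ℝ)) := by
  filter_upwards [M.hs_up K] with r hr x hx
  have h := hr 0 0 0 x (by simp) (by simp) (by rwa [sub_zero])
  have hsub : {ω | M.C1 * r < M.t ω 0 x} ⊆
      (M.LE {z | (0 : ℝ) ≤ (0 : E d →ₗ[ℝ] ℝ) (tr z)} 0 x (M.C1 * r))ᶜ := by
    intro ω hω hmem
    exact absurd (M.LE_t _ _ _ _ _ hmem) (not_le.mpr hω)
  exact le_trans (measureReal_mono hsub) h

omit [IsProbabilityMeasure P] in
private lemma MomBB_shift (M : PreB d P) (u v : V d) (ω : Ω) :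
    M.t ω u v = M.t (M.θ u ω) 0 (v - u) := by
  rw [M.t_shift u ω 0 (v - u), zero_add, sub_add_cancel]

/-- expectations are translation invariant -/
lemma PreB.integral_shift (M : PreB d P) (u v : V d) (f : ℝ → ℝ) (hf : Measurable f) :
    ∫ ω, f (M.t ω u v) ∂P = ∫ ω, f (M.t ω 0 (v - u)) ∂P := by
  have h1 : ∫ ω, f (M.t ω u v) ∂P = ∫ ω, f (M.t (M.θ u ω) 0 (v - u)) ∂P := by
    refine integral_congr_ae (Eventually.of_forall fun ω => ?_)
    show f (M.t ω u v) = f (M.t (M.θ u ω) 0 (v - u))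
    rw [MomBB_shift M u v ω]
  have hg : Measurable (fun ω => f (M.t ω 0 (v - u))) := hf.comp (M.t_meas 0 (v - u))
  rw [h1, ← integral_map (f := fun ω => f (M.t ω 0 (v - u))) (M.θ_mp u).measurable.aemeasurable
    hg.aestronglyMeasurable, (M.θ_mp u).map_eq]

/-- probabilities are translation invariant -/
lemma PreB.real_shift (M : PreB d P) (u v : V d) (A : Set ℝ) (hA : MeasurableSet A) :
    P.real {ω | M.t ω u v ∈ A} = P.real {ω | M.t ω 0 (v - u) ∈ A} := by
  have h1 : {ω | M.t ω u v ∈ A} = M.θ u ⁻¹' {ω | M.t ω 0 (v - u) ∈ A} := by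
    ext ω
    show M.t ω u v ∈ A ↔ M.t (M.θ u ω) 0 (v - u) ∈ A
    rw [MomBB_shift M u v ω]
  have hm : MeasurableSet {ω | M.t ω 0 (v - u) ∈ A} := M.t_meas 0 (v - u) hA
  rw [h1, (M.θ_mp u).measureReal_preimage hm.nullMeasurableSet]

lemma PreB.mom_lint (M : PreB d P) (q : ℕ) : ∃ C : ℝ, 0 ≤ C ∧ ∀ x : V d,
    ∫⁻ ω, ENNReal.ofReal (M.t ω 0 x ^ q) ∂P ≤ ENNReal.ofReal (C * (1 + nm x) ^ q) := by
  obtain ⟨R0, hR0⟩ := eventually_atTop.1 (M.up_lin (q + 1))
  set R := max R0 1 with hR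
  have hC1 := M.one_le_C1
  have hR1 : 1 ≤ R := le_max_right _ _
  have hR2 : R0 ≤ R := le_max_left _ _
  have hC0 : 0 < M.C1 := by linarith
  have hR3 : 0 < R := by linarith
  refine ⟨(M.C1 * R) ^ q + (2 * M.C1) ^ q * 2, by positivity, fun x => ?_⟩
  have hx : 0 ≤ nm x := norm_nonneg _
  set n := max (nm x) R with hn
  have hnR : R ≤ n := le_max_right _ _
  have h1 := mom_key (P := P) (M.t_meas 0 x) (fun ω => M.t_nonneg ω 0 x) hC1 (hR1.trans hnR) q
    (fun s hs => hR0 s (hR2.trans (hnR.trans hs)) x ((le_max_left _ _).trans hs))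
  refine h1.trans (ENNReal.ofReal_le_ofReal ?_)
  have h2 : n ≤ R * (1 + nm x) := by
    apply max_le
    · nlinarith
    · nlinarith
  have h3 : (M.C1 * n) ^ q ≤ (M.C1 * R) ^ q * (1 + nm x) ^ q := by
    rw [← mul_pow]
    apply pow_le_pow_left₀ (by positivity)
    calc M.C1 * n ≤ M.C1 * (R * (1 + nm x)) := by gcongr
      _ = M.C1 * R * (1 + nm x) := by ring
  have h4 : (1 : ℝ) ≤ (1 + nm x) ^ q := one_le_pow₀ (by linarith)
  have h5 : 0 ≤ (2 * M.C1) ^ q * 2 := by positivity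
  nlinarith

lemma PreB.integrable_pow (M : PreB d P) (q : ℕ) (u v : V d) :
    Integrable (fun ω => M.t ω u v ^ q) P := by
  have h0 : ∀ x : V d, Integrable (fun ω => M.t ω 0 x ^ q) P := by
    intro x
    obtain ⟨C, -, hC⟩ := M.mom_lint q
    refine ⟨((M.t_meas 0 x).pow_const q).aestronglyMeasurable, ?_⟩
    rw [hasFiniteIntegral_iff_ofReal (Eventually.of_forall fun ω => pow_nonneg (M.t_nonneg ω 0 x) q)]
    exact (hC x).trans_lt ENNReal.ofReal_lt_top
  have h1 := ((M.θ_mp u).integrable_comp (h0 (v - u)).aestronglyMeasurable).2 (h0 (v - u))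
  refine h1.congr (Eventually.of_forall fun ω => ?_)
  simp only [Function.comp, M.t_shift, zero_add, sub_add_cancel]

/-- all moments grow linearly -/
lemma PreB.moment (M : PreB d P) (q : ℕ) :
    ∃ C : ℝ, ∀ x : V d, ∫ ω, M.t ω 0 x ^ q ∂P ≤ C * (1 + nm x) ^ q := by
  obtain ⟨C, hC0, hC⟩ := M.mom_lint q
  refine ⟨C, fun x => ?_⟩
  rw [integral_eq_lintegral_of_nonneg_ae
    (Eventually.of_forall fun ω => pow_nonneg (M.t_nonneg ω 0 x) q)
    (M.integrable_pow q 0 x).aestronglyMeasurable]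
  have hx : 0 ≤ nm x := norm_nonneg _
  exact ENNReal.toReal_le_of_le_ofReal (by positivity) (hC x)

/-- a crude bound for expectations on small events -/
lemma PreB.integral_on_small (M : PreB d P) : ∃ C : ℝ, ∀ (x : V d) (A : Set Ω),
    MeasurableSet A → ∫ ω in A, M.t ω 0 x ∂P ≤ C * (1 + nm x) * Real.sqrt (P.real A) := by
  obtain ⟨C, hC⟩ := M.moment 2
  refine ⟨Real.sqrt (max C 0), fun x A _ => ?_⟩
  have hx : 0 ≤ nm x := norm_nonneg _
  have hi1 : Integrable (fun ω => M.t ω 0 x) P := by simpa using M.integrable_pow 1 0 x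
  have hi2 := M.integrable_pow 2 0 x
  have h1 := mom_cs (P := P.restrict A) hi1.restrict hi2.restrict
  have h2 : ∫ ω in A, M.t ω 0 x ^ 2 ∂P ≤ ∫ ω, M.t ω 0 x ^ 2 ∂P :=
    setIntegral_le_integral hi2 (Eventually.of_forall fun ω => sq_nonneg _)
  have h3 : (P.restrict A).real univ = P.real A := by
    rw [measureReal_def, Measure.restrict_apply_univ, measureReal_def]
  rw [h3] at h1
  have hA : 0 ≤ P.real A := measureReal_nonneg
  have h4 : (∫ ω in A, M.t ω 0 x ∂P) ^ 2 ≤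
      (Real.sqrt (max C 0) * (1 + nm x) * Real.sqrt (P.real A)) ^ 2 := by
    rw [mul_pow, mul_pow, Real.sq_sqrt (le_max_right _ _), Real.sq_sqrt hA]
    calc (∫ ω in A, M.t ω 0 x ∂P) ^ 2 ≤ P.real A * ∫ ω in A, M.t ω 0 x ^ 2 ∂P := h1
      _ ≤ P.real A * (max C 0 * (1 + nm x) ^ 2) := by
        refine mul_le_mul_of_nonneg_left ?_ hA
        refine (h2.trans (hC x)).trans ?_
        exact mul_le_mul_of_nonneg_right (le_max_left _ _) (by positivity)
      _ = max C 0 * (1 + nm x) ^ 2 * P.real A := by ring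
  exact abs_le_of_sq_le_sq' h4 (by positivity) |>.2


theorem PreB.prob_inter (M : PreB d P) (n : ℕ) (K : Fin n → Set (V d))
    (hK : ∀ i j, i ≠ j → Disjoint (K i) (K j)) (Ev : Fin n → Set Ω)
    (hEv : ∀ i, MeasurableSet[M.F (K i)] (Ev i)) (p : ℝ) (hp : 0 ≤ p)
    (hP : ∀ i, P.real (Ev i) ≤ p) : P.real (⋂ i, Ev i) ≤ p ^ n := by
  have h1 : P (⋂ i, Ev i) = ∏ i, P (Ev i) := (M.F_indep n K hK).meas_iInter hEv
  have h2 : P.real (⋂ i, Ev i) = ∏ i, P.real (Ev i) := by
    unfold Measure.real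
    rw [h1, ENNReal.toReal_prod]
  rw [h2]
  calc ∏ i, P.real (Ev i) ≤ ∏ _i : Fin n, p :=
        Finset.prod_le_prod (fun i _ => measureReal_nonneg) fun i _ => hP i
    _ = p ^ n := by simp

private theorem SepBB_tri {d : ℕ} (x y z : V d) (ρ : ℝ) (h1 : nm (z - x) ≤ ρ)
    (h2 : nm (z - y) ≤ ρ) : nm (x - y) ≤ 2 * ρ := by
  have h3 : tr (x - y) = tr (z - y) - tr (z - x) := by
    funext i
    simp [tr]
  unfold nm at *
  rw [h3]
  refine (norm_sub_le _ _).trans ?_
  linarith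

theorem PreB.sep_union (M : PreB d P) (S : Finset (V d)) (Ev : V d → Set Ω) (ρ p : ℝ)
    (hp : 0 ≤ p) (hEv : ∀ x ∈ S, MeasurableSet[M.F (bl x ρ)] (Ev x))
    (hP : ∀ x ∈ S, P.real (Ev x) ≤ p) (b : ℕ) :
    P.real {ω | ∃ x : Fin b → V d, (∀ i, x i ∈ S) ∧
      (∀ i j, i ≠ j → 2 * ρ < nm (x i - x j)) ∧ ∀ i, ω ∈ Ev (x i)} ≤ (S.card * p) ^ b := by
  classical
  set G : (Fin b → V d) → Set Ω := fun x =>
    if ∀ i j, i ≠ j → 2 * ρ < nm (x i - x j) then ⋂ i, Ev (x i) else ∅ with hG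
  have hsub : {ω | ∃ x : Fin b → V d, (∀ i, x i ∈ S) ∧
      (∀ i j, i ≠ j → 2 * ρ < nm (x i - x j)) ∧ ∀ i, ω ∈ Ev (x i)} ⊆
      ⋃ x ∈ Fintype.piFinset (fun _ : Fin b => S), G x := by
    rintro ω ⟨x, hxS, hsep, hω⟩
    refine mem_iUnion₂.mpr ⟨x, Fintype.mem_piFinset.mpr hxS, ?_⟩
    simp only [hG]
    rw [if_pos hsep]
    exact mem_iInter.mpr hω
  have hGp : ∀ x ∈ Fintype.piFinset (fun _ : Fin b => S), P.real (G x) ≤ p ^ b := by
    intro x hx
    have hxS := Fintype.mem_piFinset.mp hx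
    by_cases hsep : ∀ i j, i ≠ j → 2 * ρ < nm (x i - x j)
    · simp only [hG]
      rw [if_pos hsep]
      refine M.prob_inter b (fun i => bl (x i) ρ) ?_ _ (fun i => hEv _ (hxS i)) p hp
        fun i => hP _ (hxS i)
      intro i j hij
      rw [Set.disjoint_left]
      intro z hz1 hz2
      exact absurd (hsep i j hij) (not_lt.mpr (SepBB_tri (x i) (x j) z ρ hz1 hz2))
    · simp only [hG]
      rw [if_neg hsep]
      simp only [measureReal_empty]
      positivity
  calc P.real {ω | ∃ x : Fin b → V d, (∀ i, x i ∈ S) ∧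
      (∀ i j, i ≠ j → 2 * ρ < nm (x i - x j)) ∧ ∀ i, ω ∈ Ev (x i)}
      ≤ P.real (⋃ x ∈ Fintype.piFinset (fun _ : Fin b => S), G x) :=
        measureReal_mono hsub (measure_ne_top P _)
    _ ≤ ∑ x ∈ Fintype.piFinset (fun _ : Fin b => S), P.real (G x) :=
        measureReal_biUnion_finset_le _ _
    _ ≤ ∑ _x ∈ Fintype.piFinset (fun _ : Fin b => S), p ^ b := Finset.sum_le_sum hGp
    _ = (S.card * p) ^ b := by
        rw [Finset.sum_const, Fintype.card_piFinset_const, nsmul_eq_mul, mul_pow]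
        push_cast
        rfl

end FPPX
end

section

/-! Law of large numbers for local variables seen from separated points. -/

namespace FPPX

open MeasureTheory ProbabilityTheory Filter Set
open scoped Topology

variable {d : ℕ} {Ω : Type} [MeasurableSpace Ω] {P : Measure Ω} [IsProbabilityMeasure P]

/-- shifted local functions are measurable for the shifted ball -/
lemma lln_meas (M : PreB d P) (K : Set (V d)) (g : Ω → ℝ) (hg : Measurable[M.F K] g) (x : V d) :
    Measurable[M.F (sh x K)] (fun ω => g (M.θ x ω)) := by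
  intro A hA
  exact M.F_shift x K _ (hg hA)

/-- invariance of integrals -/
lemma lln_int (M : PreB d P) (g : Ω → ℝ) (hg : Measurable g) (x : V d) :
    ∫ ω, g (M.θ x ω) ∂P = ∫ ω, g ω ∂P := by
  have h := M.θ_mp x
  have h1 := integral_map (μ := P) h.measurable.aemeasurable (f := g)
    (hg.aestronglyMeasurable)
  rw [h.map_eq] at h1
  exact h1.symm

/-- independence of local functions with disjoint supports -/
lemma lln_indep (M : PreB d P) (K K' : Set (V d)) (hK : Disjoint K K') (f g : Ω → ℝ)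
    (hf : Measurable[M.F K] f) (hg : Measurable[M.F K'] g) :
    ∫ ω, f ω * g ω ∂P = (∫ ω, f ω ∂P) * ∫ ω, g ω ∂P := by
  have h2 := M.F_indep 2 ![K, K'] (by
    intro i j hij
    fin_cases i <;> fin_cases j
    · exact absurd rfl hij
    · simpa using hK
    · simpa using hK.symm
    · exact absurd rfl hij)
  have h3 : Indep (M.F K) (M.F K') P := by
    have := h2.indep (i := 0) (j := 1) (by decide)
    simpa using this
  have h4 : IndepFun f g P := by
    rw [IndepFun_iff_Indep]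
    exact indep_of_indep_of_le h3 hf.comap_le hg.comap_le
  exact h4.integral_fun_mul_eq_mul_integral
    (hf.mono (M.F_le _) le_rfl).aestronglyMeasurable
    (hg.mono (M.F_le _) le_rfl).aestronglyMeasurable

/-- counting near pairs -/
lemma lln_count (k L i : ℕ) :
    ((Finset.range k).filter (fun j => j < i + L + 1 ∧ i < j + L + 1)).card ≤ 2 * L + 1 := by
  have h : (Finset.range k).filter (fun j => j < i + L + 1 ∧ i < j + L + 1) ⊆
      Finset.Ico (i - L) (i + L + 1) := by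
    intro j hj
    rw [Finset.mem_filter] at hj
    rw [Finset.mem_Ico]
    omega
  calc _ ≤ (Finset.Ico (i - L) (i + L + 1)).card := Finset.card_le_card h
    _ ≤ 2 * L + 1 := by rw [Nat.card_Ico]; omega

/-- second moment bound for sums of bounded variables with short range correlations -/
lemma lln_second (X : ℕ → Ω → ℝ) (hX : ∀ i, Measurable (X i)) (C : ℝ)
    (hXb : ∀ i ω, |X i ω| ≤ C) (L : ℕ)
    (hcov : ∀ i j : ℕ, i + L + 1 ≤ j → ∫ ω, X i ω * X j ω ∂P = 0) (k : ℕ) :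
    ∫ ω, (∑ i ∈ Finset.range k, X i ω) ^ 2 ∂P ≤ (2 * L + 1) * C ^ 2 * k := by
  classical
  have hC : ∀ i j ω, |X i ω * X j ω| ≤ C ^ 2 := by
    intro i j ω
    rw [abs_mul, pow_two]
    exact mul_le_mul (hXb i ω) (hXb j ω) (abs_nonneg _) ((abs_nonneg _).trans (hXb i ω))
  have hint : ∀ i j, Integrable (fun ω => X i ω * X j ω) P := by
    intro i j
    exact Integrable.of_bound ((hX i).mul (hX j)).aestronglyMeasurable (C ^ 2)
      (Eventually.of_forall fun ω => by rw [Real.norm_eq_abs]; exact hC i j ω)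
  have hC0 : ∀ i j, ∫ ω, X i ω * X j ω ∂P ≤ C ^ 2 := by
    intro i j
    calc ∫ ω, X i ω * X j ω ∂P ≤ ∫ _, C ^ 2 ∂P :=
          integral_mono (hint i j) (integrable_const _) (fun ω => (abs_le.1 (hC i j ω)).2)
      _ = C ^ 2 := by simp
  have hexp : ∀ ω, (∑ i ∈ Finset.range k, X i ω) ^ 2 =
      ∑ i ∈ Finset.range k, ∑ j ∈ Finset.range k, X i ω * X j ω := by
    intro ω
    rw [pow_two, Finset.sum_mul_sum]
  have h1 : ∫ ω, (∑ i ∈ Finset.range k, X i ω) ^ 2 ∂P =
      ∑ i ∈ Finset.range k, ∑ j ∈ Finset.range k, ∫ ω, X i ω * X j ω ∂P := by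
    simp_rw [hexp]
    rw [integral_finsetSum _ (fun i _ => integrable_finsetSum _ (fun j _ => hint i j))]
    refine Finset.sum_congr rfl fun i _ => ?_
    rw [integral_finsetSum _ (fun j _ => hint i j)]
  rw [h1]
  have h2 : ∀ i j, ∫ ω, X i ω * X j ω ∂P ≤
      if (j < i + L + 1 ∧ i < j + L + 1) then C ^ 2 else 0 := by
    intro i j
    split_ifs with h
    · exact hC0 i j
    · by_cases hj : j < i + L + 1
      · have hi : j + L + 1 ≤ i := by
          by_contra hlt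
          exact h ⟨hj, by omega⟩
        have := hcov j i hi
        rw [show (fun ω => X i ω * X j ω) = fun ω => X j ω * X i ω from
          funext fun ω => mul_comm _ _, this]
      · rw [hcov i j (by omega)]
  have h3 : ∀ i ∈ Finset.range k, ∑ j ∈ Finset.range k, ∫ ω, X i ω * X j ω ∂P ≤
      (2 * L + 1) * C ^ 2 := by
    intro i _
    calc _ ≤ ∑ j ∈ Finset.range k, (if (j < i + L + 1 ∧ i < j + L + 1) then C ^ 2 else 0) :=
          Finset.sum_le_sum fun j _ => h2 i j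
      _ = (((Finset.range k).filter (fun j => j < i + L + 1 ∧ i < j + L + 1)).card : ℝ) *
            C ^ 2 := by
          rw [← Finset.sum_filter, Finset.sum_const, nsmul_eq_mul]
      _ ≤ (2 * L + 1) * C ^ 2 := by
          refine mul_le_mul_of_nonneg_right ?_ (sq_nonneg _)
          have := lln_count k L i
          exact_mod_cast this
  calc _ ≤ ∑ _i ∈ Finset.range k, (2 * (L : ℝ) + 1) * C ^ 2 := Finset.sum_le_sum h3
    _ = (2 * L + 1) * C ^ 2 * k := by
        rw [Finset.sum_const, Finset.card_range, nsmul_eq_mul]; ring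

/-- first moment bound from the second moment -/
lemma lln_first (S : Ω → ℝ) (hS : Measurable S) (B : ℝ) (hB : ∀ ω, |S ω| ≤ B) (D a : ℝ)
    (ha : 0 < a) (hD : ∫ ω, S ω ^ 2 ∂P ≤ D) : ∫ ω, |S ω| ∂P ≤ (D / a + a) / 2 := by
  have hint : Integrable (fun ω => S ω ^ 2) P :=
    Integrable.of_bound (hS.pow_const 2).aestronglyMeasurable (B ^ 2)
      (Eventually.of_forall fun ω => by
        rw [Real.norm_eq_abs, abs_pow]
        exact pow_le_pow_left₀ (abs_nonneg _) (hB ω) 2)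
  have hint1 : Integrable (fun ω => |S ω|) P :=
    Integrable.of_bound (hS.abs).aestronglyMeasurable B
      (Eventually.of_forall fun ω => by
        rw [Real.norm_eq_abs, abs_abs]
        exact hB ω)
  have hpt : ∀ ω, |S ω| ≤ (S ω ^ 2 / a + a) / 2 := by
    intro ω
    have h1 : 0 ≤ (|S ω| - a) ^ 2 := sq_nonneg _
    have h2 : |S ω| ^ 2 = S ω ^ 2 := sq_abs _
    have h3 : 2 * |S ω| * a ≤ S ω ^ 2 + a ^ 2 := by nlinarith
    have h4 : (S ω ^ 2 / a + a) / 2 = (S ω ^ 2 + a ^ 2) / (2 * a) := by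
      field_simp
    rw [h4, le_div_iff₀ (by positivity)]
    linarith
  calc ∫ ω, |S ω| ∂P ≤ ∫ ω, (S ω ^ 2 / a + a) / 2 ∂P :=
        integral_mono hint1 (((hint.div_const a).add (integrable_const a)).div_const 2) hpt
    _ = ((∫ ω, S ω ^ 2 ∂P) / a + a) / 2 := by
        rw [integral_div, integral_add (hint.div_const a) (integrable_const a), integral_div]
        simp
    _ ≤ (D / a + a) / 2 := by
        have : (∫ ω, S ω ^ 2 ∂P) / a ≤ D / a := div_le_div_of_nonneg_right hD ha.le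
        linarith

theorem PreB.lln (M : PreB d P) (R : ℝ) (g : Ω → ℝ) (hg : Measurable[M.F (bl 0 R)] g)
    (hb : ∀ ω, |g ω| ≤ R) (y : ℕ → V d) (c B : ℝ) (hc : 0 < c)
    (hy : ∀ i j : ℕ, i < j → c * ((j : ℝ) - i) - B ≤ nm (y j - y i)) :
    Tendsto (fun k : ℕ => (∫ ω, |∑ i ∈ Finset.range k, (g (M.θ (y i) ω) - ∫ ω', g ω' ∂P)| ∂P) / k)
      atTop (𝓝 0) := by
  classical
  have hgm : Measurable g := hg.mono (M.F_le _) le_rfl
  obtain ⟨ω₀⟩ : Nonempty Ω := P.nonempty_of_neZero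
  have hR : 0 ≤ R := (abs_nonneg _).trans (hb ω₀)
  have hgi : Integrable g P :=
    Integrable.of_bound hgm.aestronglyMeasurable R
      (Eventually.of_forall fun ω => by rw [Real.norm_eq_abs]; exact hb ω)
  set m : ℝ := ∫ ω', g ω' ∂P with hm
  have hmb : |m| ≤ R := by
    calc |m| ≤ ∫ ω, |g ω| ∂P := abs_integral_le_integral_abs
      _ ≤ ∫ _, R ∂P := integral_mono hgi.abs (integrable_const _) hb
      _ = R := by simp
  set X : ℕ → Ω → ℝ := fun i ω => g (M.θ (y i) ω) - m with hXdef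
  have hXF : ∀ i, Measurable[M.F (sh (y i) (bl 0 R))] (X i) := fun i =>
    (lln_meas M (bl 0 R) g hg (y i)).sub_const m
  have hXm : ∀ i, Measurable (X i) := fun i => (hXF i).mono (M.F_le _) le_rfl
  have hXb : ∀ i ω, |X i ω| ≤ 2 * R := by
    intro i ω
    calc |X i ω| ≤ |g (M.θ (y i) ω)| + |m| := abs_sub _ _
      _ ≤ R + R := add_le_add (hb _) hmb
      _ = 2 * R := by ring
  have hX0 : ∀ i, ∫ ω, X i ω ∂P = 0 := by
    intro i
    have hi : Integrable (fun ω => g (M.θ (y i) ω)) P :=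
      (M.θ_mp (y i)).integrable_comp_of_integrable hgi
    rw [hXdef]
    simp only
    rw [integral_sub hi (integrable_const _), lln_int M g hgm (y i)]
    simp [hm]
  obtain ⟨L, hL⟩ := exists_nat_gt ((2 * R + B) / c)
  rw [div_lt_iff₀ hc] at hL
  have hcov : ∀ i j : ℕ, i + L + 1 ≤ j → ∫ ω, X i ω * X j ω ∂P = 0 := by
    intro i j hij
    have h1 := hy i j (by omega)
    have h2 : (L : ℝ) ≤ (j : ℝ) - i := by
      have : ((i + L + 1 : ℕ) : ℝ) ≤ j := by exact_mod_cast hij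
      push_cast at this
      linarith
    have h3 : 2 * R < nm (y j - y i) := by
      have := mul_le_mul_of_nonneg_left h2 hc.le
      linarith
    have hdis : Disjoint (sh (y i) (bl 0 R)) (sh (y j) (bl 0 R)) := by
      rw [Set.disjoint_left]
      intro z hz1 hz2
      have e1 : nm (z - y i - 0) ≤ R := hz1
      have e2 : nm (z - y j - 0) ≤ R := hz2
      rw [sub_zero] at e1 e2
      have e3 : nm (y j - y i) ≤ nm (z - y i) + nm (z - y j) := by
        unfold nm
        have : tr (y j - y i) = tr (z - y i) - tr (z - y j) := by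
          funext l
          simp [tr]
        rw [this]
        exact norm_sub_le _ _
      linarith
    rw [lln_indep M _ _ hdis (X i) (X j) (hXF i) (hXF j), hX0 i, zero_mul]
  have hsec := lln_second X hXm (2 * R) hXb L hcov
  set C : ℝ := (2 * L + 1) * (2 * R) ^ 2 with hC
  have hbd : ∀ k : ℕ, 1 ≤ k → (∫ ω, |∑ i ∈ Finset.range k, X i ω| ∂P) / k ≤
      ((C + 1) / 2) * (Real.sqrt k)⁻¹ := by
    intro k hk
    have hk' : (1 : ℝ) ≤ k := by exact_mod_cast hk
    have hs : 0 < Real.sqrt k := Real.sqrt_pos.2 (by linarith)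
    have hss : Real.sqrt k * Real.sqrt k = k := Real.mul_self_sqrt (by linarith)
    have h1 := lln_first (P := P) (fun ω => ∑ i ∈ Finset.range k, X i ω)
      (Finset.measurable_sum _ fun i _ => hXm i) (k * (2 * R)) (by
        intro ω
        calc |∑ i ∈ Finset.range k, X i ω| ≤ ∑ i ∈ Finset.range k, |X i ω| :=
              Finset.abs_sum_le_sum_abs _ _
          _ ≤ ∑ _i ∈ Finset.range k, 2 * R := Finset.sum_le_sum fun i _ => hXb i ω
          _ = k * (2 * R) := by rw [Finset.sum_const, Finset.card_range, nsmul_eq_mul])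
      (C * k) (Real.sqrt k) hs (hsec k)
    have h2 : (C * k / Real.sqrt k + Real.sqrt k) / 2 = ((C + 1) / 2) * Real.sqrt k := by
      rw [div_add' _ _ _ hs.ne', div_div, div_eq_iff (by positivity)]
      rw [← hss]
      have : Real.sqrt (Real.sqrt k * Real.sqrt k) = Real.sqrt k := by rw [hss]
      rw [this]
      ring
    rw [h2] at h1
    rw [div_le_iff₀ (by linarith)]
    calc _ ≤ ((C + 1) / 2) * Real.sqrt k := h1
      _ = ((C + 1) / 2) * (Real.sqrt k)⁻¹ * k := by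
          rw [mul_assoc]
          congr 1
          rw [inv_mul_eq_div, eq_div_iff hs.ne', hss]
  have hlim : Tendsto (fun k : ℕ => ((C + 1) / 2) * (Real.sqrt k)⁻¹) atTop (𝓝 0) := by
    have h1 : Tendsto (fun k : ℕ => (Real.sqrt (k : ℝ))⁻¹) atTop (𝓝 0) :=
      tendsto_inv_atTop_zero.comp (Real.tendsto_sqrt_atTop.comp tendsto_natCast_atTop_atTop)
    simpa using h1.const_mul ((C + 1) / 2)
  refine squeeze_zero' (Eventually.of_forall fun k => ?_) ?_ hlim
  · exact div_nonneg (integral_nonneg fun ω => abs_nonneg _) (Nat.cast_nonneg k)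
  · filter_upwards [eventually_ge_atTop 1] with k hk
    exact hbd k hk

end FPPX
end

section

/-! Existence of the limit of the normalised means. -/

namespace FPPX

open MeasureTheory ProbabilityTheory Filter Set
open scoped Topology

variable {d : ℕ} {Ω : Type} [MeasurableSpace Ω] {P : Measure Ω} [IsProbabilityMeasure P]

lemma PreB.mean_int (M : PreB d P) (u v : V d) : Integrable (fun ω => M.t ω u v) P := by
  simpa using M.integrable_pow 1 u v

lemma PreB.mean_shift (M : PreB d P) (u v : V d) :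
    ∫ ω, M.t ω u v ∂P = ∫ ω, M.t ω 0 (v - u) ∂P :=
  M.integral_shift u v id measurable_id

/-- means of nearly additive triples -/
lemma PreB.mean_tri (M : PreB d P) (a b c : V d) :
    ∫ ω, M.t ω 0 c ∂P ≤ ∫ ω, M.t ω 0 a ∂P + ∫ ω, M.t ω 0 b ∂P + ∫ ω, M.t ω 0 (c - (a + b)) ∂P := by
  have h1 : ∀ ω, M.t ω 0 c ≤ M.t ω 0 a + M.t ω a (a + b) + M.t ω (a + b) c := by
    intro ω
    have h2 := M.t_tri ω 0 a c
    have h3 := M.t_tri ω a (a + b) c
    linarith
  have i1 := M.mean_int 0 a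
  have i2 := M.mean_int a (a + b)
  have i3 := M.mean_int (a + b) c
  have h4 : ∫ ω, M.t ω 0 c ∂P ≤ ∫ ω, (M.t ω 0 a + M.t ω a (a + b) + M.t ω (a + b) c) ∂P :=
    integral_mono (M.mean_int 0 c) ((i1.add i2).add i3) h1
  have h5 : ∫ ω, (M.t ω 0 a + M.t ω a (a + b) + M.t ω (a + b) c) ∂P =
      ∫ ω, M.t ω 0 a ∂P + ∫ ω, M.t ω a (a + b) ∂P + ∫ ω, M.t ω (a + b) c ∂P := by
    have i4 : Integrable (fun ω => M.t ω 0 a + M.t ω a (a + b)) P := i1.add i2
    rw [integral_add i4 i3, integral_add i1 i2]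
  rw [h5, M.mean_shift a (a + b), M.mean_shift (a + b) c, add_sub_cancel_left] at h4
  exact h4

theorem PreB.exists_mu (M : PreB d P) : ∃ μ : E d → ℝ, ∀ x : E d,
    Tendsto (fun n : ℕ => (∫ ω, M.t ω 0 (rd ((n : ℝ) • x)) ∂P) / n) atTop (𝓝 (μ x)) := by
  obtain ⟨C, hC⟩ := M.moment 1
  set C0 := max C 0 * (5 / 2) with hC0
  have hC1 : 0 ≤ C0 := by positivity
  have hsmall : ∀ z : V d, nm z ≤ 3 / 2 → ∫ ω, M.t ω 0 z ∂P ≤ C0 := by
    intro z hz
    have h1 := hC z
    simp only [pow_one] at h1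
    have h2 : 0 ≤ nm z := nm_nonneg z
    calc ∫ ω, M.t ω 0 z ∂P ≤ C * (1 + nm z) := h1
      _ ≤ max C 0 * (1 + nm z) := mul_le_mul_of_nonneg_right (le_max_left _ _) (by linarith)
      _ ≤ max C 0 * (5 / 2) := mul_le_mul_of_nonneg_left (by linarith) (le_max_right _ _)
  have hsub : ∀ x : E d, Subadditive (fun n : ℕ => (∫ ω, M.t ω 0 (rd ((n : ℝ) • x)) ∂P) + C0) := by
    intro x m n
    have h1 := M.mean_tri (rd ((m : ℝ) • x)) (rd ((n : ℝ) • x)) (rd (((m + n : ℕ) : ℝ) • x))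
    have h2 : nm (rd (((m + n : ℕ) : ℝ) • x) - (rd ((m : ℝ) • x) + rd ((n : ℝ) • x))) ≤ 3 / 2 := by
      unfold nm
      rw [tr_sub, tr_add]
      have e1 := norm_rd_sub (((m + n : ℕ) : ℝ) • x)
      have e2 := norm_rd_sub ((m : ℝ) • x)
      have e3 := norm_rd_sub ((n : ℝ) • x)
      have e4 : tr (rd (((m + n : ℕ) : ℝ) • x)) - (tr (rd ((m : ℝ) • x)) + tr (rd ((n : ℝ) • x))) =
          (tr (rd (((m + n : ℕ) : ℝ) • x)) - ((m + n : ℕ) : ℝ) • x) -
            (tr (rd ((m : ℝ) • x)) - (m : ℝ) • x) - (tr (rd ((n : ℝ) • x)) - (n : ℝ) • x) := by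
        rw [Nat.cast_add, add_smul]
        abel
      rw [e4]
      have e5 := norm_sub_le ((tr (rd (((m + n : ℕ) : ℝ) • x)) - ((m + n : ℕ) : ℝ) • x) -
            (tr (rd ((m : ℝ) • x)) - (m : ℝ) • x)) (tr (rd ((n : ℝ) • x)) - (n : ℝ) • x)
      have e6 := norm_sub_le (tr (rd (((m + n : ℕ) : ℝ) • x)) - ((m + n : ℕ) : ℝ) • x)
            (tr (rd ((m : ℝ) • x)) - (m : ℝ) • x)
      linarith
    have h3 := hsmall _ h2
    show (∫ ω, M.t ω 0 (rd (((m + n : ℕ) : ℝ) • x)) ∂P) + C0 ≤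
      ((∫ ω, M.t ω 0 (rd ((m : ℝ) • x)) ∂P) + C0) + ((∫ ω, M.t ω 0 (rd ((n : ℝ) • x)) ∂P) + C0)
    linarith
  have hb : ∀ x : E d, BddBelow (range fun n : ℕ =>
      ((∫ ω, M.t ω 0 (rd ((n : ℝ) • x)) ∂P) + C0) / n) := by
    intro x
    refine ⟨0, ?_⟩
    rintro _ ⟨n, rfl⟩
    have : 0 ≤ ∫ ω, M.t ω 0 (rd ((n : ℝ) • x)) ∂P := integral_nonneg fun ω => M.t_nonneg ω _ _
    positivity
  refine ⟨fun x => (hsub x).lim, fun x => ?_⟩
  have h1 := (hsub x).tendsto_lim (hb x)
  have h2 : Tendsto (fun n : ℕ => C0 / (n : ℝ)) atTop (𝓝 0) := tendsto_const_div_atTop_nhds_zero_nat C0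
  have h3 := h1.sub h2
  rw [sub_zero] at h3
  refine h3.congr (fun n => ?_)
  ring

/-- the time constant -/
noncomputable def PreB.mu (M : PreB d P) : E d → ℝ := Classical.choose M.exists_mu

theorem PreB.mu_lim (M : PreB d P) (x : E d) :
    Tendsto (fun n : ℕ => (∫ ω, M.t ω 0 (rd ((n : ℝ) • x)) ∂P) / n) atTop (𝓝 (M.mu x)) :=
  Classical.choose_spec M.exists_mu x

end FPPX
end

section

/-! Fast events: definitions and elementary facts. -/

namespace FPPX

open MeasureTheory ProbabilityTheory Filter Set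
open scoped Topology

variable {d : ℕ} {Ω : Type} [MeasurableSpace Ω] {P : Measure Ω} [IsProbabilityMeasure P]

/-- some lattice point at distance about `m` is reached in time at most `c * m` -/
def PreB.Fast (M : PreB d P) (c m : ℝ) : Set Ω :=
  {ω | ∃ z : V d, m ≤ nm z ∧ nm z ≤ 2 * m ∧ M.t ω 0 z ≤ c * m}

/-- local version, started from `a` -/
def PreB.LFast (M : PreB d P) (c m : ℝ) (a : V d) : Set Ω :=
  {ω | ∃ z : V d, m ≤ nm (z - a) ∧ nm (z - a) ≤ 2 * m ∧ ω ∈ M.LE (bl a (3 * m)) a z (c * m)}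

theorem PreB.LFast_meas (M : PreB d P) (c m : ℝ) (a : V d) :
    MeasurableSet[M.F (bl a (3 * m))] (M.LFast c m a) := by
  have h : M.LFast c m a = ⋃ z : V d, ⋃ (_ : m ≤ nm (z - a) ∧ nm (z - a) ≤ 2 * m),
      M.LE (bl a (3 * m)) a z (c * m) := by
    ext ω
    simp only [PreB.LFast, mem_iUnion]
    constructor
    · rintro ⟨z, h1, h2, h3⟩
      exact ⟨z, ⟨h1, h2⟩, h3⟩
    · rintro ⟨z, ⟨h1, h2⟩, h3⟩
      exact ⟨z, h1, h2, h3⟩
  rw [h]
  exact MeasurableSet.iUnion fun z => MeasurableSet.iUnion fun _ => M.LE_meas _ _ _ _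

theorem PreB.LFast_prob (M : PreB d P) (c m : ℝ) (a : V d) :
    P.real (M.LFast c m a) ≤ P.real (M.Fast c m) := by
  refine le_trans ?_ (realB_preimage_le M a (M.Fast c m))
  apply measureReal_mono _ (measure_ne_top _ _)
  rintro ω ⟨z, h1, h2, h3⟩
  refine ⟨z - a, h1, h2, ?_⟩
  rw [M.t_shift, zero_add, sub_add_cancel]
  exact M.LE_t _ _ _ _ _ h3

end FPPX
end

section

/-! One scale step: deterministic part. -/

namespace FPPX

open MeasureTheory ProbabilityTheory Filter Set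
open scoped Topology

variable {d : ℕ} {Ω : Type} [MeasurableSpace Ω] {P : Measure Ω} [IsProbabilityMeasure P]

/-- crossing indices of a path with small jumps -/
theorem StepDet_cross {l k : ℕ} {x : ℕ → V d} {r m ρ : ℝ} (hm : 0 < m) (hρ : 0 ≤ ρ)
    (hx0 : x 0 = 0) (hxl : r ≤ nm (x l)) (hst : ∀ i, i < l → nm (x (i + 1) - x i) ≤ ρ)
    (hk : (k : ℝ) * (m + ρ) ≤ r) :
    ∃ p q : ℕ → ℕ, p 0 = 0 ∧ (∀ i, i ≤ k → p i ≤ l) ∧
      (∀ i, i ≤ k → (i : ℝ) * (m + ρ) ≤ nm (x (p i)) ∧ nm (x (p i)) ≤ i * (m + ρ) + ρ) ∧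
      (∀ i, i < k → p i ≤ q i ∧ q i ≤ p (i + 1)) ∧
      (∀ i, i < k → m ≤ nm (x (q i) - x (p i)) ∧
        ∀ n, p i ≤ n → n ≤ q i → nm (x n - x (p i)) ≤ m + ρ) := by
  set lam : ℕ → ℝ := fun i => (i : ℝ) * (m + ρ) with hlam
  have hmρ : 0 < m + ρ := by linarith
  have hlmono : ∀ i j : ℕ, i ≤ j → lam i ≤ lam j := fun i j h =>
    mul_le_mul_of_nonneg_right (Nat.cast_le.2 h) hmρ.le
  set p : ℕ → ℕ := fun i => sInf {n | lam i ≤ nm (x n)} with hp
  have hne : ∀ i, i ≤ k → l ∈ {n | lam i ≤ nm (x n)} := fun i hi =>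
    ((hlmono i k hi).trans hk).trans hxl
  have hpl : ∀ i, i ≤ k → p i ≤ l := fun i hi => Nat.sInf_le (hne i hi)
  have hpmem : ∀ i, i ≤ k → lam i ≤ nm (x (p i)) := fun i hi => Nat.sInf_mem ⟨l, hne i hi⟩
  have hplt : ∀ i n, n < p i → nm (x n) < lam i := fun i n hn => by
    have := Nat.notMem_of_lt_sInf hn
    simpa using this
  have hp0 : p 0 = 0 := by
    have h0 : (0 : ℕ) ∈ {n | lam 0 ≤ nm (x n)} := by
      show lam 0 ≤ nm (x 0)
      simp [hlam, nm_nonneg]
    exact Nat.le_zero.1 (Nat.sInf_le h0)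
  have hpub : ∀ i, i ≤ k → nm (x (p i)) ≤ lam i + ρ := by
    intro i hi
    rcases Nat.eq_zero_or_pos (p i) with h | h
    · rw [h, hx0, nm_zero]
      have : 0 ≤ lam i := by positivity
      linarith
    · obtain ⟨n, hn⟩ := Nat.exists_eq_succ_of_ne_zero h.ne'
      have h1 : nm (x n) < lam i := hplt i n (by omega)
      have h2 : n < l := by have := hpl i hi; omega
      have h3 := hst n h2
      have h4 : nm (x (p i)) ≤ nm (x (n + 1) - x n) + nm (x n) := by
        rw [hn]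
        have := nm_add (x (n + 1) - x n) (x n)
        rwa [sub_add_cancel] at this
      linarith
  have hpp : ∀ i, i < k → p i ≤ p (i + 1) := by
    intro i hi
    by_contra hcon
    push Not at hcon
    have h1 := hplt i _ hcon
    have h2 := hpmem (i + 1) hi
    have h3 := hlmono i (i + 1) (Nat.le_succ i)
    linarith
  set q : ℕ → ℕ := fun i => sInf {n | p i ≤ n ∧ m ≤ nm (x n - x (p i))} with hq
  have hqne : ∀ i, i < k → p (i + 1) ∈ {n | p i ≤ n ∧ m ≤ nm (x n - x (p i))} := by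
    intro i hi
    refine ⟨hpp i hi, ?_⟩
    have h1 := hpmem (i + 1) hi
    have h2 := hpub i hi.le
    have h3 : nm (x (p (i + 1))) ≤ nm (x (p (i + 1)) - x (p i)) + nm (x (p i)) := by
      have := nm_add (x (p (i + 1)) - x (p i)) (x (p i))
      rwa [sub_add_cancel] at this
    have h4 : lam (i + 1) = lam i + (m + ρ) := by simp only [hlam]; push_cast; ring
    linarith
  have hqp : ∀ i, i < k → q i ≤ p (i + 1) := fun i hi => Nat.sInf_le (hqne i hi)
  have hqmem : ∀ i, i < k → p i ≤ q i ∧ m ≤ nm (x (q i) - x (p i)) := fun i hi =>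
    Nat.sInf_mem ⟨_, hqne i hi⟩
  have hqlt : ∀ i n, p i ≤ n → n < q i → nm (x n - x (p i)) < m := fun i n hpn hn => by
    have := Nat.notMem_of_lt_sInf hn
    by_contra hcon
    push Not at hcon
    exact this ⟨hpn, hcon⟩
  refine ⟨p, q, hp0, hpl, fun i hi => ⟨hpmem i hi, hpub i hi⟩,
    fun i hi => ⟨(hqmem i hi).1, hqp i hi⟩, fun i hi => ⟨(hqmem i hi).2, fun n hpn hnq => ?_⟩⟩
  rcases Nat.lt_or_ge n (q i) with h | h
  · exact (hqlt i n hpn h).le.trans (by linarith)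
  · have hnq' : n = q i := le_antisymm hnq h
    subst hnq'
    rcases Nat.eq_or_lt_of_le hpn with h1 | h1
    · rw [← h1, sub_self, nm_zero]; linarith
    · obtain ⟨n', hn'⟩ := Nat.exists_eq_succ_of_ne_zero (show q i ≠ 0 by omega)
      have h2 : nm (x n' - x (p i)) < m := hqlt i n' (by omega) (by omega)
      have h3 : n' < l := by
        have := hqp i hi
        have := hpl (i + 1) hi
        omega
      have h4 := hst n' h3
      have h5 : nm (x (q i) - x (p i)) ≤ nm (x (n' + 1) - x n') + nm (x n' - x (p i)) := by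
        rw [hn']
        have := nm_add (x (n' + 1) - x n') (x n' - x (p i))
        rwa [sub_add_sub_cancel] at this
      linarith

theorem StepDet_sum {k : ℕ} {p q : ℕ → ℕ} {s : ℕ → ℝ} {ρ cm : ℝ} (F : ℕ → Prop)
    [DecidablePred F] (h1 : ∀ i, i < k → -ρ ≤ s (p (i + 1)) - s (q i))
    (h2 : ∀ i, i < k → -ρ ≤ s (q i) - s (p i))
    (h3 : ∀ i, i < k → ¬ F i → cm - ρ ≤ s (q i) - s (p i)) :
    ((k : ℝ) - ((Finset.range k).filter F).card) * cm - 2 * k * ρ ≤ s (p k) - s (p 0) := by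
  induction k with
  | zero => simp
  | succ k ih =>
    have ih' := ih (fun i hi => h1 i (by omega)) (fun i hi => h2 i (by omega))
      (fun i hi => h3 i (by omega))
    have a1 := h1 k (by omega)
    have a2 := h2 k (by omega)
    rw [Finset.range_add_one, Finset.filter_insert]
    by_cases hF : F k
    · rw [if_pos hF, Finset.card_insert_of_notMem (by simp)]
      push_cast
      linarith
    · rw [if_neg hF]
      have a3 := h3 k (by omega) hF
      push_cast
      linarith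

omit [IsProbabilityMeasure P] in
theorem StepDet_core (M : PreB d P) (b : ℕ) {ω : Ω} {z : V d} {l : ℕ} {x : ℕ → V d} {s : ℕ → ℝ}
    {r m ρ c : ℝ} (hr : 0 < r) (hm : 0 < m) (hρ : 0 ≤ ρ) (hρm : ρ ≤ m) (hmr : m + ρ ≤ r)
    (hc : 0 < c) (hx0 : x 0 = 0) (hxl : x l = z) (hz : r ≤ nm z)
    (hst : ∀ i, i < l → nm (x (i + 1) - x i) ≤ ρ) (hs0 : 0 ≤ s 0) (hsl : s l ≤ M.t ω 0 z + ρ)
    (hloc : ∀ i j, i ≤ j → j ≤ l → ∀ K : Set (V d),
      (∀ n, i ≤ n → n ≤ j → ∀ z, nm (z - x n) ≤ ρ → z ∈ K) →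
      ω ∈ M.LE K (x i) (x j) (s j - s i + ρ)) :
    (∃ x : Fin b → V d, (∀ i, nm (x i) ≤ 3 * r) ∧
      (∀ i j, i ≠ j → 2 * (3 * m) < nm (x i - x j)) ∧ ∀ i, ω ∈ M.LFast c m (x i)) ∨
    (r / (m + ρ) - 1 - 7 * b) * (c * m) - (2 * (r / (m + ρ)) + 2) * ρ ≤ M.t ω 0 z := by
  classical
  have hmρ : 0 < m + ρ := by linarith
  set k : ℕ := ⌊r / (m + ρ)⌋₊ with hk
  have hk1 : (k : ℝ) ≤ r / (m + ρ) := Nat.floor_le (by positivity)
  have hk2 : r / (m + ρ) < k + 1 := Nat.lt_floor_add_one _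
  have hk3 : (k : ℝ) * (m + ρ) ≤ r := by rwa [le_div_iff₀ hmρ] at hk1
  obtain ⟨p, q, hp0, hpl, hpn, hpq, hq⟩ :=
    StepDet_cross hm hρ hx0 (by rw [hxl]; exact hz) hst hk3
  have hs : ∀ i j, i ≤ j → j ≤ l → -ρ ≤ s j - s i := by
    intro i j hij hjl
    have h1 := M.LE_t _ _ _ _ _ (hloc i j hij hjl Set.univ (fun _ _ _ _ _ => Set.mem_univ _))
    have h2 := M.t_nonneg ω (x i) (x j)
    linarith
  have hslow : ∀ i, i < k → ω ∉ M.LFast c m (x (p i)) → c * m - ρ ≤ s (q i) - s (p i) := by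
    intro i hi hnot
    by_contra hcon
    push Not at hcon
    apply hnot
    refine ⟨x (q i), (hq i hi).1, ?_, ?_⟩
    · have := (hq i hi).2 (q i) (hpq i hi).1 le_rfl
      linarith
    · have h1 := hloc (p i) (q i) (hpq i hi).1 ((hpq i hi).2.trans (hpl (i + 1) hi))
        (bl (x (p i)) (3 * m)) (fun n hn1 hn2 y hy => by
          show nm (y - x (p i)) ≤ 3 * m
          have h2 := (hq i hi).2 n hn1 hn2
          have h3 := nm_add (y - x n) (x n - x (p i))
          rw [sub_add_sub_cancel] at h3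
          linarith)
      exact M.LE_mono _ _ _ _ _ _ (subset_refl _) (by linarith) h1
  set F : ℕ → Prop := fun i => ω ∈ M.LFast c m (x (p i)) with hF
  have hsum := StepDet_sum (k := k) (p := p) (q := q) (s := s) (ρ := ρ) (cm := c * m) F
    (fun i hi => hs _ _ (hpq i hi).2 (hpl (i + 1) hi))
    (fun i hi => hs _ _ (hpq i hi).1 ((hpq i hi).2.trans (hpl (i + 1) hi)))
    (fun i hi hFi => hslow i hi hFi)
  by_cases hcard : b * 7 ≤ ((Finset.range k).filter F).card
  · left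
    obtain ⟨f, hf1, hf2⟩ := sep_indices _ b 7 (by norm_num) hcard
    have hfk : ∀ i, f i < k ∧ F (f i) := fun i => by
      have := hf1 i
      rw [Finset.mem_filter, Finset.mem_range] at this
      exact this
    have hsep : ∀ i j : Fin b, i < j → 2 * (3 * m) < nm (x (p (f j)) - x (p (f i))) := by
      intro i j hij
      have h1 := hf2 i j hij
      have h2 := (hpn (f j) (hfk j).1.le).1
      have h3 := (hpn (f i) (hfk i).1.le).2
      have h4 : nm (x (p (f j))) ≤ nm (x (p (f j)) - x (p (f i))) + nm (x (p (f i))) := by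
        have := nm_add (x (p (f j)) - x (p (f i))) (x (p (f i)))
        rwa [sub_add_cancel] at this
      have h5 : (f i : ℝ) + 7 ≤ f j := by exact_mod_cast h1
      have h6 : ((f i : ℝ) + 7) * (m + ρ) ≤ f j * (m + ρ) :=
        mul_le_mul_of_nonneg_right h5 hmρ.le
      nlinarith
    refine ⟨fun i => x (p (f i)), fun i => ?_, fun i j hij => ?_, fun i => (hfk i).2⟩
    · have h3 := (hpn (f i) (hfk i).1.le).2
      have h5 : (f i : ℝ) ≤ k := by exact_mod_cast (hfk i).1.le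
      have h6 : (f i : ℝ) * (m + ρ) ≤ k * (m + ρ) := mul_le_mul_of_nonneg_right h5 hmρ.le
      linarith
    · rcases lt_or_gt_of_ne hij with h | h
      · rw [nm_sub_comm]; exact hsep i j h
      · exact hsep j i h
  · right
    push Not at hcard
    have h1 := hs (p k) l (hpl k le_rfl) le_rfl
    rw [hp0] at hsum
    have h2 : (((Finset.range k).filter F).card : ℝ) ≤ b * 7 := by exact_mod_cast hcard.le
    have hcm : 0 < c * m := mul_pos hc hm
    have h3 : ((k : ℝ) - 7 * b) * (c * m) ≤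
        ((k : ℝ) - ((Finset.range k).filter F).card) * (c * m) :=
      mul_le_mul_of_nonneg_right (by linarith) hcm.le
    have h4 : (r / (m + ρ) - 1 - 7 * b) * (c * m) ≤ ((k : ℝ) - 7 * b) * (c * m) :=
      mul_le_mul_of_nonneg_right (by linarith) hcm.le
    have h5 : 2 * (k : ℝ) * ρ ≤ 2 * (r / (m + ρ)) * ρ :=
      mul_le_mul_of_nonneg_right (by linarith) hρ
    linarith

/-- a fast point at scale `r` produces `b` separated local fast events at scale `r ^ (8/9)` -/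
theorem PreB.step_det (M : PreB d P) (b : ℕ) : ∀ᶠ r : ℝ in atTop, ∀ ω ∈ M.CG (r ^ (2 : ℝ)) (1 / 200),
    ∀ c : ℝ, r ^ (-(1 / 2) : ℝ) / 4 ≤ c → ω ∈ M.Fast (c * (1 - r ^ (-(1 / 10) : ℝ))) r →
    ∃ x : Fin b → V d, (∀ i, nm (x i) ≤ 3 * r) ∧
      (∀ i j, i ≠ j → 2 * (3 * r ^ (8 / 9 : ℝ)) < nm (x i - x j)) ∧
      ∀ i, ω ∈ M.LFast c (r ^ (8 / 9 : ℝ)) (x i) := by
  have E1 := ev_rpow_le 1 (show (0 : ℝ) < 1 / 4 by norm_num)
    (show (1 / 9 + 1 / 100 : ℝ) < 9 / 10 by norm_num)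
  have E2 := ev_rpow_le (7 * b + 1) (show (0 : ℝ) < 1 / 4 by norm_num)
    (show (8 / 9 : ℝ) < 9 / 10 by norm_num)
  have E3 := ev_rpow_le 16 (show (0 : ℝ) < 1 / 4 by norm_num)
    (show (1 / 2 + (1 / 9 + 1 / 100) : ℝ) < 9 / 10 by norm_num)
  have E4 := ev_rpow_le 2 (show (0 : ℝ) < 1 by norm_num)
    (show (8 / 9 : ℝ) < 1 by norm_num)
  filter_upwards [E1, E2, E3, E4, eventually_ge_atTop 2] with r e1 e2 e3 e4 hr2 ω hω c hc hfast
  have hr : 0 < r := by linarith
  have hr1 : 1 ≤ r := by linarith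
  obtain ⟨z, hz1, hz2, hz3⟩ := hfast
  obtain ⟨l, x, s, hx0, hxl, hst, hs0, hsl, hloc⟩ := hω 0 z
    (by rw [nm_zero]; positivity) (by
      have : r ^ (2 : ℝ) = r * r := by
        rw [show (2 : ℝ) = ((2 : ℕ) : ℝ) by norm_num, Real.rpow_natCast]; ring
      rw [this]
      nlinarith)
  have hρe : (r ^ (2 : ℝ)) ^ (1 / 200 : ℝ) = r ^ (1 / 100 : ℝ) := by
    rw [← Real.rpow_mul hr.le]; congr 1; norm_num
  rw [hρe] at hst hsl hloc
  set ρ : ℝ := r ^ (1 / 100 : ℝ) with hρ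
  set m : ℝ := r ^ (8 / 9 : ℝ) with hm
  have hρ0 : 0 < ρ := by positivity
  have hm0 : 0 < m := by positivity
  have hρm : ρ ≤ m := Real.rpow_le_rpow_of_exponent_le hr1 (by norm_num)
  have hmr : m + ρ ≤ r := by
    rw [Real.rpow_one] at e4
    linarith
  have hc0 : 0 < c := lt_of_lt_of_le (by positivity) hc
  rcases StepDet_core M b hr hm0 hρ0.le hρm hmr hc0 hx0 hxl hz1 hst hs0 hsl hloc with h | h
  · exact h
  · exfalso
    -- numerical contradiction
    set R : ℝ := r ^ (1 / 9 : ℝ) with hR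
    have hR0 : 0 < R := by positivity
    have hmR : m * R = r := by
      rw [hm, hR, ← Real.rpow_add hr]; norm_num
    have hR1 : 1 ≤ R := Real.one_le_rpow hr1 (by norm_num)
    have hRρ : R * ρ = r ^ (1 / 9 + 1 / 100 : ℝ) := by
      rw [hR, hρ, ← Real.rpow_add hr]
    set H : ℝ := r ^ (1 / 2 : ℝ) with hH
    have hH0 : 0 < H := by positivity
    have hHc : 1 ≤ 4 * (H * c) := by
      have h1 : r ^ (-(1 / 2) : ℝ) * H = 1 := by
        rw [hH, ← Real.rpow_add hr]; norm_num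
      nlinarith [mul_le_mul_of_nonneg_left hc hH0.le]
    have hHRρ : H * (R * ρ) = r ^ (1 / 2 + (1 / 9 + 1 / 100) : ℝ) := by
      rw [hRρ, hH, ← Real.rpow_add hr]
    set T : ℝ := r ^ (9 / 10 : ℝ) with hT
    have hT0 : 0 < T := by positivity
    have hT1 : r * r ^ (-(1 / 10) : ℝ) = T := by
      nth_rewrite 1 [← Real.rpow_one r]
      rw [← Real.rpow_add hr, hT]; norm_num
    rw [← hRρ, one_mul] at e1
    rw [← hHRρ] at e3
    have hz4 : M.t ω 0 z ≤ c * r - c * T := by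
      have h1 : c * (1 - r ^ (-(1 / 10) : ℝ)) * r = c * r - c * (r * r ^ (-(1 / 10) : ℝ)) := by ring
      rw [h1, hT1] at hz3
      exact hz3
    -- lower bound for `r / (m + ρ)`
    have hmρ : 0 < m + ρ := by linarith
    have hd1 : r / (m + ρ) ≤ R := by
      rw [div_le_iff₀ hmρ]
      nlinarith [mul_nonneg hR0.le hρ0.le]
    have hd2 : r - R * ρ ≤ r / (m + ρ) * m := by
      rw [div_mul_eq_mul_div, le_div_iff₀ hmρ]
      have : (r - R * ρ) * (m + ρ) = r * m + r * ρ - (m * R) * ρ - R * ρ * ρ := by ring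
      rw [this, hmR]
      have : 0 ≤ R * ρ * ρ := by positivity
      linarith
    have h5 : (r / (m + ρ) - 1 - 7 * b) * (c * m) =
        c * (r / (m + ρ) * m) - c * ((7 * b + 1) * m) := by ring
    have h6 : c * (r - R * ρ) ≤ c * (r / (m + ρ) * m) := mul_le_mul_of_nonneg_left hd2 hc0.le
    have h7 : (2 * (r / (m + ρ)) + 2) * ρ ≤ 4 * (R * ρ) := by
      have h8 : (2 * (r / (m + ρ)) + 2) ≤ 4 * R := by linarith
      have h8' := mul_le_mul_of_nonneg_right h8 hρ0.le
      rwa [mul_assoc 4] at h8'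
    have h9 : 4 * (R * ρ) ≤ c * (16 * (H * (R * ρ))) := by
      have h8 : 0 < R * ρ := by positivity
      have h8' := mul_le_mul_of_nonneg_right hHc h8.le
      have h8'' : c * (16 * (H * (R * ρ))) = 4 * (4 * (H * c) * (R * ρ)) := by ring
      rw [h8'']
      linarith
    have h10 : c * (16 * (H * (R * ρ))) ≤ c * (1 / 4 * T) := mul_le_mul_of_nonneg_left e3 hc0.le
    have h11 : c * ((7 * b + 1) * m) ≤ c * (1 / 4 * T) := mul_le_mul_of_nonneg_left e2 hc0.le
    have h12 : c * (R * ρ) ≤ c * (1 / 4 * T) := mul_le_mul_of_nonneg_left e1 hc0.le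
    have h13 : 0 < c * T := mul_pos hc0 hT0
    have h14 : c * (1 / 4 * T) = 1 / 4 * (c * T) := by ring
    rw [h14] at h10 h11 h12
    rw [mul_sub] at h6
    rw [h5] at h
    linarith

end FPPX
end
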