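import Pool.Agent.Lib.MP_fa364e_pr.Mg.G009

section

/-! Approximation of passage times by local variables. -/

namespace FPPX

open MeasureTheory ProbabilityTheory Filter Set
open scoped Topology

variable {d : ℕ} {Ω : Type} [MeasurableSpace Ω] {P : Measure Ω} [IsProbabilityMeasure P]

/-- number of indices `s < N` with `ω ∉ A s` -/
noncomputable def cntOut {Ω : Type} (A : ℕ → Set Ω) (N : ℕ) (ω : Ω) : ℝ :=
  ∑ s ∈ Finset.range N, (A s)ᶜ.indicator (fun _ => (1 : ℝ)) ω

omit [MeasurableSpace Ω] in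
lemma cntOut_meas {m0 : MeasurableSpace Ω} (A : ℕ → Set Ω) (N : ℕ)
    (h : ∀ s, MeasurableSet[m0] (A s)) : Measurable[m0] (cntOut A N) := by
  have h1 : ∀ s ∈ Finset.range N, Measurable[m0] (fun ω => (A s)ᶜ.indicator (fun _ => (1 : ℝ)) ω) :=
    fun s _ => Measurable.indicator measurable_const (h s).compl
  unfold cntOut
  exact Finset.measurable_fun_sum _ h1

omit [MeasurableSpace Ω] in
lemma cntOut_nonneg (A : ℕ → Set Ω) (N : ℕ) (ω : Ω) : 0 ≤ cntOut A N ω :=
  Finset.sum_nonneg fun _ _ => Set.indicator_nonneg (fun _ _ => zero_le_one) _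

omit [MeasurableSpace Ω] in
lemma cntOut_le (A : ℕ → Set Ω) (N : ℕ) (ω : Ω) : cntOut A N ω ≤ N := by
  have h : ∀ s ∈ Finset.range N, (A s)ᶜ.indicator (fun _ => (1 : ℝ)) ω ≤ 1 := fun s _ =>
    Set.indicator_le_self' (fun _ _ => zero_le_one) _
  calc cntOut A N ω ≤ ∑ s ∈ Finset.range N, (1 : ℝ) := Finset.sum_le_sum h
    _ = N := by simp

omit [MeasurableSpace Ω] in
/-- if `ω ∉ A s` for all `s < τ`, then the count is at least `min τ N` -/
lemma cntOut_lower (A : ℕ → Set Ω) (N : ℕ) (ω : Ω) (τ : ℝ)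
    (h : ∀ s : ℕ, (s : ℝ) < τ → ω ∉ A s) : min τ N ≤ cntOut A N ω := by
  induction N with
  | zero => simp [cntOut]
  | succ n ih =>
    have hs : cntOut A (n + 1) ω = cntOut A n ω + (A n)ᶜ.indicator (fun _ => (1 : ℝ)) ω := by
      unfold cntOut
      rw [Finset.sum_range_succ]
    rw [hs]
    by_cases hn : (n : ℝ) < τ
    · have h1 : (A n)ᶜ.indicator (fun _ => (1 : ℝ)) ω = 1 :=
        Set.indicator_of_mem (h n hn) _
      rw [h1]
      have h2 : min τ (n : ℝ) = n := min_eq_right hn.le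
      rw [h2] at ih
      have h3 : min τ ((n + 1 : ℕ) : ℝ) ≤ ((n + 1 : ℕ) : ℝ) := min_le_right _ _
      push_cast at h3 ⊢
      linarith
    · push Not at hn
      have h2 : min τ (n : ℝ) = τ := min_eq_left hn
      rw [h2] at ih
      have h3 : min τ ((n + 1 : ℕ) : ℝ) ≤ τ := min_le_left _ _
      have h4 : 0 ≤ (A n)ᶜ.indicator (fun _ => (1 : ℝ)) ω :=
        Set.indicator_nonneg (fun _ _ => zero_le_one) _
      linarith

omit [MeasurableSpace Ω] in
/-- if `ω ∈ A s` for all `s ≥ c`, then the count is at most `c + 1` -/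
lemma cntOut_upper (A : ℕ → Set Ω) (N : ℕ) (ω : Ω) (c : ℝ) (hc : 0 ≤ c)
    (h : ∀ s : ℕ, c ≤ (s : ℝ) → ω ∈ A s) : cntOut A N ω ≤ c + 1 := by
  have key : ∀ n : ℕ, cntOut A n ω ≤ min (n : ℝ) (c + 1) := by
    intro n
    induction n with
    | zero => simp only [cntOut, Finset.range_zero, Finset.sum_empty, Nat.cast_zero]; exact le_min le_rfl (by linarith)
    | succ n ih =>
      have hs : cntOut A (n + 1) ω = cntOut A n ω + (A n)ᶜ.indicator (fun _ => (1 : ℝ)) ω := by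
        unfold cntOut
        rw [Finset.sum_range_succ]
      rw [hs]
      by_cases hn : c ≤ (n : ℝ)
      · have h1 : (A n)ᶜ.indicator (fun _ => (1 : ℝ)) ω = 0 :=
          Set.indicator_of_notMem (fun hh : ω ∈ (A n)ᶜ => hh (h n hn)) _
        rw [h1, add_zero]
        refine le_trans ih (min_le_min ?_ le_rfl)
        push_cast
        linarith
      · push Not at hn
        have h1 : (A n)ᶜ.indicator (fun _ => (1 : ℝ)) ω ≤ 1 :=
          Set.indicator_le_self' (fun _ _ => zero_le_one) _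
        have h2 := le_trans ih (min_le_left _ _)
        refine le_min ?_ ?_
        · push_cast
          linarith
        · linarith
  exact le_trans (key N) (min_le_right _ _)

omit [MeasurableSpace Ω] in
lemma cntOut_anti (A B : ℕ → Set Ω) (h : ∀ s, A s ⊆ B s) (N : ℕ) (ω : Ω) :
    cntOut B N ω ≤ cntOut A N ω := by
  refine Finset.sum_le_sum fun s _ => ?_
  exact Set.indicator_le_indicator_of_subset (Set.compl_subset_compl.mpr (h s))
    (fun _ => zero_le_one) _

lemma bl_mono0 {d : ℕ} (u : V d) {r s : ℝ} (h : r ≤ s) : bl u r ⊆ bl u s :=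
  fun _ hz => le_trans hz h

omit [IsProbabilityMeasure P] in
/-- on the chain event the passage time is seen in a large ball -/
lemma BLRM.cg_local (M : BLRM d P) (m : ℝ) (w : V d) (hw : nm w ≤ m) (ω : Ω)
    (hω : ω ∈ M.toPreB.CG m (1 / 2)) :
    ∃ R : ℕ, ω ∈ M.LE (bl 0 R) 0 w (M.t ω 0 w + 2 * m ^ (1 / 2 : ℝ)) := by
  have h0 : nm (0 : V d) ≤ m := by
    have : (0 : ℝ) ≤ nm w := norm_nonneg _
    have h00 : nm (0 : V d) = 0 := by
      unfold nm
      have : tr (0 : V d) = 0 := by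
        funext i
        simp [tr]
      rw [this, norm_zero]
    rw [h00]
    linarith
  obtain ⟨l, x, s, hx0, hxl, -, hs0, hsl, hloc⟩ := hω 0 w h0 hw
  -- bound for the chain
  obtain ⟨R, hR⟩ := exists_nat_gt
    (m ^ (1 / 2 : ℝ) + ∑ n ∈ Finset.range (l + 1), nm (x n))
  refine ⟨R, ?_⟩
  have h1 := hloc 0 l (Nat.zero_le _) le_rfl (bl 0 (R : ℝ)) ?_
  · rw [hx0, hxl] at h1
    refine M.LE_mono _ _ _ _ _ _ le_rfl ?_ h1
    linarith
  · intro n _ hn z hz
    have hb : nm (x n) ≤ ∑ n ∈ Finset.range (l + 1), nm (x n) :=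
      Finset.single_le_sum (f := fun n => nm (x n)) (fun _ _ => norm_nonneg _)
        (Finset.mem_range.mpr (by omega))
    show nm (z - 0) ≤ R
    have htri : nm (z - 0) ≤ nm (z - x n) + nm (x n) := by
      unfold nm
      have : tr (z - 0) = tr (z - x n) + tr (x n) := by
        funext i
        simp [tr]
      rw [this]
      exact norm_add_le _ _
    linarith

theorem BLRM.local_approx (M : BLRM d P) (ε : ℝ) (hε : 0 < ε) : ∀ᶠ m : ℝ in atTop,
    ∀ w : V d, nm w ≤ m → ∃ (R : ℝ) (g : Ω → ℝ), 0 < R ∧ Measurable[M.F (bl 0 R)] g ∧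
      (∀ ω, |g ω| ≤ R) ∧ ∫ ω, |M.t ω 0 w - g ω| ∂P ≤ ε * m := by
  obtain ⟨C, hC⟩ := M.toPreB.moment 2
  have hev1 : ∀ᶠ m : ℝ in atTop, P.real (M.toPreB.CG m (1 / 2))ᶜ ≤ m ^ (-((2 : ℕ) : ℝ)) :=
    M.chain (1 / 2) (by norm_num) 2
  have hev2 : ∀ᶠ m : ℝ in atTop, 2 * m ^ (1 / 2 : ℝ) + 9 + 4 * |C| ≤ ε * m := by
    have h1 : Tendsto (fun m : ℝ => (m ^ (1 / 2 : ℝ))) atTop atTop :=
      tendsto_rpow_atTop (by norm_num)
    filter_upwards [h1.eventually_ge_atTop (4 / ε), h1.eventually_ge_atTop 1,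
      eventually_ge_atTop (2 * (9 + 4 * |C|) / ε), eventually_ge_atTop 0] with m hm1 hm1' hm2 hm0
    have e1 : m = m ^ (1 / 2 : ℝ) * m ^ (1 / 2 : ℝ) := by
      rw [← Real.rpow_add' hm0 (by norm_num)]
      norm_num
    have e2 : 4 ≤ ε * m ^ (1 / 2 : ℝ) := by
      rw [div_le_iff₀ hε] at hm1
      linarith
    have e3 : 4 * m ^ (1 / 2 : ℝ) ≤ ε * m := by
      calc 4 * m ^ (1 / 2 : ℝ) ≤ (ε * m ^ (1 / 2 : ℝ)) * m ^ (1 / 2 : ℝ) :=
            mul_le_mul_of_nonneg_right e2 (by linarith)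
        _ = ε * m := by rw [mul_assoc, ← e1]
    have e4 : 2 * (9 + 4 * |C|) ≤ ε * m := by
      rw [div_le_iff₀ hε] at hm2
      linarith
    linarith
  filter_upwards [hev1, hev2, eventually_ge_atTop 1] with m hm1 hm2 hm3 w hw
  set ρ : ℝ := m ^ (1 / 2 : ℝ) with hρ
  have hρ0 : 0 ≤ ρ := Real.rpow_nonneg (by linarith) _
  obtain ⟨N, hN1, hN2⟩ : ∃ N : ℕ, m ^ 2 ≤ N ∧ (N : ℝ) ≤ m ^ 2 + 1 :=
    ⟨⌈m ^ 2⌉₊, Nat.le_ceil _, (Nat.ceil_lt_add_one (by positivity)).le⟩
  set g : ℕ → Ω → ℝ := fun R => cntOut (fun s => M.LE (bl 0 (R : ℝ)) 0 w s) N with hg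
  have hτm : Measurable (fun ω => M.t ω 0 w) := M.t_meas 0 w
  have hgm' : ∀ R : ℕ, Measurable[M.F (bl 0 (R : ℝ))] (g R) := fun R =>
    cntOut_meas _ N fun s => M.LE_meas _ _ _ _
  have hgm : ∀ R : ℕ, Measurable (g R) := fun R =>
    cntOut_meas _ N fun s => M.F_le _ _ (M.LE_meas _ _ _ _)
  set A : ℕ → Set Ω := fun R => {ω | g R ω ≤ M.t ω 0 w + 2 * ρ + 1} with hA
  have hAm : ∀ R : ℕ, MeasurableSet (A R) := fun R =>
    measurableSet_le (hgm R) ((hτm.add_const _).add_const _)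
  have hAmono : Monotone A := by
    intro R R' hRR ω hω
    refine le_trans (cntOut_anti _ _ (fun s => ?_) N ω) hω
    exact M.LE_mono _ _ _ _ _ _ (bl_mono0 0 (by exact_mod_cast hRR)) le_rfl
  have hcov : M.toPreB.CG m (1 / 2) ⊆ ⋃ R, A R := by
    intro ω hω
    obtain ⟨R, hR⟩ := M.cg_local m w hw ω hω
    refine mem_iUnion.mpr ⟨R, ?_⟩
    have ht0 := M.t_nonneg ω 0 w
    refine cntOut_upper _ N ω (M.t ω 0 w + 2 * ρ) (by linarith) ?_
    intro s hs
    exact M.LE_mono _ _ _ _ _ _ le_rfl hs hR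
  -- choose R
  have hlim : Tendsto (fun R => P.real (A R)ᶜ) atTop (𝓝 (P.real (⋂ R, (A R)ᶜ))) := by
    have h1 : Tendsto (fun R => P (A R)ᶜ) atTop (𝓝 (P (⋂ R, (A R)ᶜ))) := by
      refine tendsto_measure_iInter_atTop (fun R => (hAm R).compl.nullMeasurableSet) ?_ ?_
      · intro R R' hRR
        exact Set.compl_subset_compl.mpr (hAmono hRR)
      · exact ⟨0, measure_ne_top _ _⟩
    exact (ENNReal.tendsto_toReal (measure_ne_top _ _)).comp h1
  have hsmall : P.real (⋂ R, (A R)ᶜ) ≤ m ^ (-((2 : ℕ) : ℝ)) := by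
    refine le_trans (measureReal_mono ?_ (measure_ne_top _ _)) hm1
    rw [← Set.compl_iUnion]
    exact Set.compl_subset_compl.mpr hcov
  have hmpos : (0 : ℝ) < m ^ (-((2 : ℕ) : ℝ)) := Real.rpow_pos_of_pos (by linarith) _
  obtain ⟨R, hR⟩ : ∃ R, P.real (A R)ᶜ < 2 * m ^ (-((2 : ℕ) : ℝ)) :=
    (hlim.eventually (gt_mem_nhds (lt_of_le_of_lt hsmall (by linarith)))).exists
  have hNpos : (0 : ℝ) < N := lt_of_lt_of_le (by positivity) hN1
  refine ⟨(R : ℝ) + N, g R, ?_, ?_, ?_, ?_⟩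
  · have : (0 : ℝ) ≤ R := Nat.cast_nonneg _
    linarith
  · exact Measurable.mono (hgm' R) (M.F_mono _ _ (bl_mono0 0 (by linarith))) le_rfl
  · intro ω
    rw [abs_of_nonneg (cntOut_nonneg _ _ _)]
    have h1 : g R ω ≤ N := cntOut_le _ _ _
    have : (0 : ℝ) ≤ R := Nat.cast_nonneg _
    linarith
  · -- pointwise bound
    have hpt : ∀ ω, |M.t ω 0 w - g R ω| ≤
        (2 * ρ + 1) + (N : ℝ) * (A R)ᶜ.indicator (fun _ => (1 : ℝ)) ω + M.t ω 0 w ^ 2 / N := by
      intro ω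
      have ht0 := M.t_nonneg ω 0 w
      have hlow : min (M.t ω 0 w) N ≤ g R ω := by
        refine cntOut_lower _ N ω _ ?_
        intro s hs hmem
        exact absurd (M.LE_t _ _ _ _ _ hmem) (not_le.mpr hs)
      have hup : g R ω ≤ N := cntOut_le _ _ _
      have hsq : 0 ≤ M.t ω 0 w ^ 2 / N := by positivity
      have hind0 : 0 ≤ (A R)ᶜ.indicator (fun _ => (1 : ℝ)) ω :=
        Set.indicator_nonneg (fun _ _ => zero_le_one) _
      have hN0 : 0 ≤ (N : ℝ) * (A R)ᶜ.indicator (fun _ => (1 : ℝ)) ω :=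
        mul_nonneg hNpos.le hind0
      rw [abs_le]
      constructor
      · -- g - t ≤ ...
        by_cases hmem : ω ∈ A R
        · have : g R ω ≤ M.t ω 0 w + 2 * ρ + 1 := hmem
          linarith
        · have h1 : (A R)ᶜ.indicator (fun _ => (1 : ℝ)) ω = 1 := Set.indicator_of_mem hmem _
          rw [h1]
          linarith
      · by_cases htN : M.t ω 0 w ≤ N
        · rw [min_eq_left htN] at hlow
          linarith
        · push Not at htN
          have h2 : M.t ω 0 w ≤ M.t ω 0 w ^ 2 / N := by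
            rw [le_div_iff₀ hNpos]
            nlinarith
          have h3 : 0 ≤ g R ω := cntOut_nonneg _ _ _
          linarith
    have hint1 : Integrable (fun ω => (A R)ᶜ.indicator (fun _ => (1 : ℝ)) ω) P :=
      (integrable_const 1).indicator (hAm R).compl
    have hint2 : Integrable (fun ω => M.t ω 0 w ^ 2) P := M.toPreB.integrable_pow 2 0 w
    have hi1 : Integrable (fun ω => (2 * ρ + 1) +
        (N : ℝ) * (A R)ᶜ.indicator (fun _ => (1 : ℝ)) ω) P :=
      (integrable_const _).add (hint1.const_mul _)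
    have hi2 : Integrable (fun ω => M.t ω 0 w ^ 2 / N) P := hint2.div_const _
    have hmain : ∫ ω, |M.t ω 0 w - g R ω| ∂P ≤
        ∫ ω, ((2 * ρ + 1) + (N : ℝ) * (A R)ᶜ.indicator (fun _ => (1 : ℝ)) ω
          + M.t ω 0 w ^ 2 / N) ∂P := by
      refine integral_mono_of_nonneg (Eventually.of_forall fun ω => abs_nonneg _)
        (hi1.add hi2) (Eventually.of_forall hpt)
    have e1 : ∫ ω, ((2 * ρ + 1) + (N : ℝ) * (A R)ᶜ.indicator (fun _ => (1 : ℝ)) ω
          + M.t ω 0 w ^ 2 / N) ∂P = (2 * ρ + 1) + (N : ℝ) * P.real (A R)ᶜ +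
          (∫ ω, M.t ω 0 w ^ 2 ∂P) / N := by
      rw [integral_add hi1 hi2, integral_add (integrable_const _) (hint1.const_mul _),
        integral_div, integral_const_mul, integral_const]
      have : ∫ ω, (A R)ᶜ.indicator (fun _ => (1 : ℝ)) ω ∂P = P.real (A R)ᶜ := by
        rw [integral_indicator (hAm R).compl]
        simp [measureReal_def]
      rw [this]
      simp
    have e2 : ∫ ω, M.t ω 0 w ^ 2 ∂P ≤ |C| * (1 + m) ^ 2 := by
      refine le_trans (hC w) ?_
      have hnw : (0 : ℝ) ≤ nm w := norm_nonneg _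
      have : (1 + nm w) ^ 2 ≤ (1 + m) ^ 2 := by
        apply pow_le_pow_left₀ <;> linarith
      calc C * (1 + nm w) ^ 2 ≤ |C| * (1 + nm w) ^ 2 :=
            mul_le_mul_of_nonneg_right (le_abs_self C) (by positivity)
        _ ≤ |C| * (1 + m) ^ 2 := mul_le_mul_of_nonneg_left this (abs_nonneg C)
    have e3 : (∫ ω, M.t ω 0 w ^ 2 ∂P) / N ≤ 4 * |C| := by
      rw [div_le_iff₀ hNpos]
      have h1 : (1 + m) ^ 2 ≤ 4 * m ^ 2 := by nlinarith
      have h2 : |C| * (1 + m) ^ 2 ≤ |C| * (4 * N) :=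
        mul_le_mul_of_nonneg_left (by linarith) (abs_nonneg C)
      linarith
    have e4 : (N : ℝ) * P.real (A R)ᶜ ≤ 8 := by
      have h1 : m ^ (-((2 : ℕ) : ℝ)) = (m ^ 2)⁻¹ := by
        rw [Real.rpow_neg (by linarith), Real.rpow_natCast]
      rw [h1] at hR
      have hm2' : (0 : ℝ) < m ^ 2 := by positivity
      have h2 : (N : ℝ) * P.real (A R)ᶜ ≤ (m ^ 2 + 1) * (2 * (m ^ 2)⁻¹) :=
        mul_le_mul hN2 hR.le measureReal_nonneg (by positivity)
      have h3 : (m ^ 2 + 1) * (2 * (m ^ 2)⁻¹) = 2 + 2 * (m ^ 2)⁻¹ := by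
        field_simp
      have h4 : (m ^ 2)⁻¹ ≤ 1 := inv_le_one_of_one_le₀ (by nlinarith)
      linarith
    linarith
end FPPX
end

section

/-! Upper half of the law of large numbers for passage times. -/

namespace FPPX

open MeasureTheory ProbabilityTheory Filter Set
open scoped Topology

variable {d : ℕ} {Ω : Type} [MeasurableSpace Ω] {P : Measure Ω} [IsProbabilityMeasure P]

omit [IsProbabilityMeasure P] in
lemma Up_add4 {f1 f2 f3 f4 : Ω → ℝ} (h1 : Integrable f1 P) (h2 : Integrable f2 P)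
    (h3 : Integrable f3 P) (h4 : Integrable f4 P) :
    ∫ ω, (f1 ω + f2 ω + f3 ω + f4 ω) ∂P =
      ∫ ω, f1 ω ∂P + ∫ ω, f2 ω ∂P + ∫ ω, f3 ω ∂P + ∫ ω, f4 ω ∂P := by
  have e1 : ∫ ω, (f1 ω + f2 ω + f3 ω + f4 ω) ∂P =
      ∫ ω, (f1 ω + f2 ω + f3 ω) ∂P + ∫ ω, f4 ω ∂P := integral_add ((h1.add h2).add h3) h4
  have e2 : ∫ ω, (f1 ω + f2 ω + f3 ω) ∂P = ∫ ω, (f1 ω + f2 ω) ∂P + ∫ ω, f3 ω ∂P :=
    integral_add (h1.add h2) h3
  have e3 : ∫ ω, (f1 ω + f2 ω) ∂P = ∫ ω, f1 ω ∂P + ∫ ω, f2 ω ∂P := integral_add h1 h2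
  rw [e1, e2, e3]

lemma PreB.Up_integrable (M : PreB d P) (u v : V d) : Integrable (fun ω => M.t ω u v) P := by
  have := M.integrable_pow 1 u v
  simpa using this

lemma PreB.Up_integral (M : PreB d P) (u v : V d) :
    ∫ ω, M.t ω u v ∂P = ∫ ω, M.t ω 0 (v - u) ∂P :=
  M.integral_shift u v (fun s => s) measurable_id

lemma PreB.Up_first (M : PreB d P) : ∃ C : ℝ, 0 ≤ C ∧ ∀ u v : V d,
    ∫ ω, M.t ω u v ∂P ≤ C * (1 + nm (v - u)) := by
  obtain ⟨C, hC⟩ := M.moment 1
  refine ⟨max C 0, le_max_right _ _, fun u v => ?_⟩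
  rw [M.Up_integral]
  have h1 := hC (v - u)
  simp only [pow_one] at h1
  refine h1.trans (mul_le_mul_of_nonneg_right (le_max_left _ _) ?_)
  have := nm_nonneg (v - u)
  linarith

lemma PreB.Up_mu_nonneg (M : PreB d P) (x : E d) : 0 ≤ M.mu x := by
  refine ge_of_tendsto (M.mu_lim x) (Eventually.of_forall fun n => ?_)
  exact div_nonneg (integral_nonneg fun ω => M.t_nonneg _ _ _) (Nat.cast_nonneg _)

omit [IsProbabilityMeasure P] in
/-- the chain of points -/
lemma PreB.Up_chain (M : PreB d P) (y : ℕ → V d) (w : V d) (hy : y 0 = 0) (ω : Ω) (k : ℕ) :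
    M.t ω 0 (y k) ≤ ∑ i ∈ Finset.range k, M.t ω (y i) (y i + w) +
      ∑ i ∈ Finset.range k, M.t ω (y i + w) (y (i + 1)) := by
  induction k with
  | zero => simp [hy, M.t_self]
  | succ k ih =>
    rw [Finset.sum_range_succ, Finset.sum_range_succ]
    have h1 := M.t_tri ω 0 (y k) (y (k + 1))
    have h2 := M.t_tri ω (y k) (y k + w) (y (k + 1))
    linarith

theorem BLRM.up_mean (M : BLRM d P) (x : E d) (ε : ℝ) (hε : 0 < ε) : ∀ᶠ n : ℕ in atTop,
    ∫ ω, max (M.t ω 0 (rd ((n : ℝ) • x)) - n * (M.mu x + ε)) 0 ∂P ≤ ε * n := by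
  have hmu : 0 ≤ M.mu x := M.Up_mu_nonneg x
  rcases eq_or_ne x 0 with hx | hx
  · subst hx
    refine Eventually.of_forall fun n => ?_
    have h0 : rd ((n : ℝ) • (0 : E d)) = 0 := by
      rw [smul_zero]
      funext i
      simp [rd]
    have hn : (0 : ℝ) ≤ n := Nat.cast_nonneg _
    have h1 : ∀ ω, max (M.t ω 0 (rd ((n : ℝ) • (0 : E d))) - n * (M.mu 0 + ε)) 0 = 0 := by
      intro ω
      rw [h0, M.t_self]
      apply max_eq_right
      have : 0 ≤ (n : ℝ) * (M.mu 0 + ε) := mul_nonneg hn (by linarith)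
      linarith
    simp only [h1, integral_zero]
    positivity
  · obtain ⟨C, hC0, hC⟩ := M.Up_first
    have hxn : 0 < ‖x‖ := norm_pos_iff.mpr hx
    -- choice of m
    have hm1 : ∀ᶠ m : ℕ in atTop,
        ∫ ω, M.t ω 0 (rd ((m : ℝ) • x)) ∂P ≤ m * (M.mu x + ε / 8) := by
      have h1 := (M.mu_lim x).eventually (gt_mem_nhds (show M.mu x < M.mu x + ε / 8 by linarith))
      filter_upwards [h1, eventually_gt_atTop 0] with m hm hm0
      have hm0' : (0 : ℝ) < m := by exact_mod_cast hm0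
      rw [div_lt_iff₀ hm0'] at hm
      linarith
    have hm2 : ∀ᶠ m : ℕ in atTop, C * 3 ≤ m * (ε / 8) := by
      have : Tendsto (fun m : ℕ => (m : ℝ) * (ε / 8)) atTop atTop :=
        tendsto_natCast_atTop_atTop.atTop_mul_const (by positivity)
      exact this.eventually_ge_atTop _
    have hm3 : ∀ᶠ m : ℕ in atTop, ∀ w : V d, nm w ≤ m * (‖x‖ + 1) → ∃ (R : ℝ) (g : Ω → ℝ),
        0 < R ∧ Measurable[M.F (bl 0 R)] g ∧ (∀ ω, |g ω| ≤ R) ∧
        ∫ ω, |M.t ω 0 w - g ω| ∂P ≤ ε / (16 * (‖x‖ + 1)) * (m * (‖x‖ + 1)) := by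
      have : Tendsto (fun m : ℕ => (m : ℝ) * (‖x‖ + 1)) atTop atTop :=
        tendsto_natCast_atTop_atTop.atTop_mul_const (by positivity)
      exact this.eventually (M.local_approx (ε / (16 * (‖x‖ + 1))) (by positivity))
    obtain ⟨m, hm1, hm2, hm3, hm0⟩ :=
      (hm1.and (hm2.and (hm3.and (eventually_ge_atTop 1)))).exists
    have hm0' : (1 : ℝ) ≤ m := by exact_mod_cast hm0
    set w := rd ((m : ℝ) • x) with hw
    have hwn : nm w ≤ m * (‖x‖ + 1) := by
      have := nm_rd_le ((m : ℝ) • x)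
      rw [norm_smul, Real.norm_natCast] at this
      nlinarith
    obtain ⟨R, g, hR, hg, hgR, hgE⟩ := hm3 w hwn
    have hgE' : ∫ ω, |M.t ω 0 w - g ω| ∂P ≤ ε / 16 * m := by
      refine hgE.trans (le_of_eq ?_)
      field_simp
    have hgm : Measurable g := hg.mono (M.F_le _) le_rfl
    set y : ℕ → V d := fun i => rd (((i * m : ℕ) : ℝ) • x) with hy
    have hy0 : y 0 = 0 := by
      simp only [hy, zero_mul, Nat.cast_zero, zero_smul]
      funext i
      simp [rd]
    have hgint : ∀ z : V d, Integrable (fun ω => g (M.θ z ω)) P := by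
      intro z
      refine Integrable.of_bound (C := R)
        (hgm.comp (M.θ_mp z).measurable).aestronglyMeasurable ?_
      exact Eventually.of_forall fun ω => by simpa using hgR (M.θ z ω)
    have hgi : Integrable g P := by
      refine Integrable.of_bound (C := R) hgm.aestronglyMeasurable ?_
      exact Eventually.of_forall fun ω => by simpa using hgR ω
    -- law of large numbers
    have hsep : ∀ i j : ℕ, i < j → (m * ‖x‖) * ((j : ℝ) - i) - 1 ≤ nm (y j - y i) := by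
      intro i j hij
      have h1 := norm_rd_sub (((j * m : ℕ) : ℝ) • x)
      have h2 := norm_rd_sub (((i * m : ℕ) : ℝ) • x)
      have h3 : nm (y j - y i) = ‖tr (y j) - tr (y i)‖ := by rw [← tr_sub]; rfl
      have h4 : ‖(((j * m : ℕ) : ℝ) • x) - (((i * m : ℕ) : ℝ) • x)‖ =
          (m * ‖x‖) * ((j : ℝ) - i) := by
        rw [← sub_smul, norm_smul, Real.norm_eq_abs, abs_of_nonneg]
        · push_cast; ring
        · push_cast
          have : (i : ℝ) ≤ j := by exact_mod_cast hij.le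
          nlinarith
      have h5 : (((j * m : ℕ) : ℝ) • x) - (((i * m : ℕ) : ℝ) • x) =
          (tr (y j) - tr (y i)) - (tr (y j) - (((j * m : ℕ) : ℝ) • x)) +
            (tr (y i) - (((i * m : ℕ) : ℝ) • x)) := by abel
      have h6 : ‖(((j * m : ℕ) : ℝ) • x) - (((i * m : ℕ) : ℝ) • x)‖ ≤
          ‖tr (y j) - tr (y i)‖ + ‖tr (y j) - (((j * m : ℕ) : ℝ) • x)‖ +
            ‖tr (y i) - (((i * m : ℕ) : ℝ) • x)‖ := by
        rw [h5]
        exact (norm_add_le _ _).trans (add_le_add_left (norm_sub_le _ _) _)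
      rw [h4] at h6
      rw [h3]
      linarith
    have hlln := M.lln R g hg hgR y (m * ‖x‖) 1 (by positivity) hsep
    have hlln' : ∀ᶠ k : ℕ in atTop,
        ∫ ω, |∑ i ∈ Finset.range k, (g (M.θ (y i) ω) - ∫ ω', g ω' ∂P)| ∂P ≤ ε / 16 * k := by
      filter_upwards [hlln.eventually (gt_mem_nhds (show 0 < ε / 16 by positivity)),
        eventually_gt_atTop 0] with k hk hk0
      have hk0' : (0 : ℝ) < k := by exact_mod_cast hk0
      rw [div_lt_iff₀ hk0'] at hk
      exact hk.le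
    obtain ⟨k₀, hk₀⟩ := eventually_atTop.mp hlln'
    set Cm := C * (1 + (m * ‖x‖ + 1)) with hCm
    have hlast : ∀ᶠ n : ℕ in atTop, Cm ≤ ε / 2 * n := by
      have : Tendsto (fun n : ℕ => ε / 2 * (n : ℝ)) atTop atTop :=
        Tendsto.const_mul_atTop (by positivity) tendsto_natCast_atTop_atTop
      exact this.eventually_ge_atTop _
    filter_upwards [hlast, eventually_ge_atTop (m * k₀)] with n hn1 hn2
    set k := n / m with hk
    have hkk : k₀ ≤ k := (Nat.le_div_iff_mul_le (by omega)).mpr (by rw [mul_comm]; exact hn2)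
    have hkm : k * m ≤ n := Nat.div_mul_le_self n m
    have hkn : n < (k + 1) * m := by
      have := Nat.lt_div_mul_add (a := n) (b := m) (by omega)
      rw [add_mul, one_mul]
      exact this
    have hkm' : (k : ℝ) * m ≤ n := by exact_mod_cast hkm
    have hkn' : (n : ℝ) ≤ (k + 1) * m := by exact_mod_cast hkn.le
    set z := rd ((n : ℝ) • x) with hz
    -- pointwise bound
    have hEg : ∫ ω, g ω ∂P ≤ m * (M.mu x + ε) := by
      have h1 : ∫ ω, g ω ∂P - ∫ ω, M.t ω 0 w ∂P ≤ ∫ ω, |M.t ω 0 w - g ω| ∂P := by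
        rw [← integral_sub hgi (M.Up_integrable _ _)]
        refine integral_mono (hgi.sub (M.Up_integrable _ _))
          ((M.Up_integrable _ _).sub hgi).abs fun ω => ?_
        simp only
        rw [abs_sub_comm]
        exact le_abs_self _
      nlinarith
    have hpt : ∀ ω, max (M.t ω 0 z - n * (M.mu x + ε)) 0 ≤
        ∑ i ∈ Finset.range k, |M.t (M.θ (y i) ω) 0 w - g (M.θ (y i) ω)| +
        |∑ i ∈ Finset.range k, (g (M.θ (y i) ω) - ∫ ω', g ω' ∂P)| +
        ∑ i ∈ Finset.range k, M.t ω (y i + w) (y (i + 1)) + M.t ω (y k) z := by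
      intro ω
      have hnn1 : 0 ≤ ∑ i ∈ Finset.range k, |M.t (M.θ (y i) ω) 0 w - g (M.θ (y i) ω)| :=
        Finset.sum_nonneg fun i _ => abs_nonneg _
      have hnn2 : 0 ≤ ∑ i ∈ Finset.range k, M.t ω (y i + w) (y (i + 1)) :=
        Finset.sum_nonneg fun i _ => M.t_nonneg _ _ _
      have hnn3 := M.t_nonneg ω (y k) z
      have hnn4 := abs_nonneg (∑ i ∈ Finset.range k, (g (M.θ (y i) ω) - ∫ ω', g ω' ∂P))
      refine max_le ?_ (by linarith)
      have h1 := M.Up_chain y w hy0 ω k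
      have h2 := M.t_tri ω 0 (y k) z
      have h3 : ∑ i ∈ Finset.range k, M.t ω (y i) (y i + w) ≤
          ∑ i ∈ Finset.range k, |M.t (M.θ (y i) ω) 0 w - g (M.θ (y i) ω)| +
          ∑ i ∈ Finset.range k, g (M.θ (y i) ω) := by
        rw [← Finset.sum_add_distrib]
        refine Finset.sum_le_sum fun i _ => ?_
        have e1 := M.t_shift (y i) ω 0 w
        rw [zero_add, add_comm w] at e1
        rw [← e1]
        have := le_abs_self (M.t (M.θ (y i) ω) 0 w - g (M.θ (y i) ω))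
        linarith
      have h4 : ∑ i ∈ Finset.range k, g (M.θ (y i) ω) ≤
          |∑ i ∈ Finset.range k, (g (M.θ (y i) ω) - ∫ ω', g ω' ∂P)| + k * ∫ ω', g ω' ∂P := by
        have e1 := le_abs_self (∑ i ∈ Finset.range k, (g (M.θ (y i) ω) - ∫ ω', g ω' ∂P))
        rw [Finset.sum_sub_distrib, Finset.sum_const, Finset.card_range, nsmul_eq_mul] at e1
        rw [Finset.sum_sub_distrib, Finset.sum_const, Finset.card_range, nsmul_eq_mul]
        linarith
      have h5 : (k : ℝ) * ∫ ω', g ω' ∂P ≤ n * (M.mu x + ε) := by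
        calc (k : ℝ) * ∫ ω', g ω' ∂P ≤ k * (m * (M.mu x + ε)) :=
              mul_le_mul_of_nonneg_left hEg (Nat.cast_nonneg _)
          _ = (k * m) * (M.mu x + ε) := by ring
          _ ≤ n * (M.mu x + ε) := mul_le_mul_of_nonneg_right hkm' (by linarith)
      linarith
    -- integrability
    have hint1 : ∀ i ∈ Finset.range k,
        Integrable (fun ω => |M.t (M.θ (y i) ω) 0 w - g (M.θ (y i) ω)|) P := by
      intro i _
      have : Integrable (fun ω => |M.t ω 0 w - g ω|) P := ((M.Up_integrable _ _).sub hgi).abs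
      exact (M.θ_mp (y i)).integrable_comp_of_integrable this
    have hint2 : Integrable
        (fun ω => |∑ i ∈ Finset.range k, (g (M.θ (y i) ω) - ∫ ω', g ω' ∂P)|) P :=
      (integrable_finsetSum _ fun i _ => (hgint (y i)).sub (integrable_const _)).abs
    have hint3 : Integrable (fun ω => ∑ i ∈ Finset.range k, M.t ω (y i + w) (y (i + 1))) P :=
      integrable_finsetSum _ fun i _ => M.Up_integrable _ _
    have hint4 := M.Up_integrable (y k) z
    have hintL : Integrable (fun ω => max (M.t ω 0 z - n * (M.mu x + ε)) 0) P :=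
      ((M.Up_integrable 0 z).sub (integrable_const _)).pos_part
    -- bounds of the four terms
    have hb1 : ∫ ω, ∑ i ∈ Finset.range k, |M.t (M.θ (y i) ω) 0 w - g (M.θ (y i) ω)| ∂P ≤
        k * (ε / 16 * m) := by
      rw [integral_finsetSum _ hint1]
      calc ∑ i ∈ Finset.range k, ∫ ω, |M.t (M.θ (y i) ω) 0 w - g (M.θ (y i) ω)| ∂P
          ≤ ∑ _i ∈ Finset.range k, ε / 16 * m := by
            refine Finset.sum_le_sum fun i _ => ?_
            have e1 : ∫ ω, |M.t (M.θ (y i) ω) 0 w - g (M.θ (y i) ω)| ∂P =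
                ∫ ω, |M.t ω 0 w - g ω| ∂P := by
              have hmeas : Measurable fun ω => |M.t ω 0 w - g ω| :=
                ((M.t_meas 0 w).sub hgm).abs
              rw [← integral_map (φ := M.θ (y i)) (f := fun ω => |M.t ω 0 w - g ω|)
                (M.θ_mp (y i)).measurable.aemeasurable hmeas.aestronglyMeasurable,
                (M.θ_mp (y i)).map_eq]
            rw [e1]
            exact hgE'
        _ = k * (ε / 16 * m) := by
            rw [Finset.sum_const, Finset.card_range, nsmul_eq_mul]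
    have hb2 := hk₀ k hkk
    have hb3 : ∫ ω, ∑ i ∈ Finset.range k, M.t ω (y i + w) (y (i + 1)) ∂P ≤ k * (C * 3) := by
      rw [integral_finsetSum _ fun i _ => M.Up_integrable _ _]
      calc ∑ i ∈ Finset.range k, ∫ ω, M.t ω (y i + w) (y (i + 1)) ∂P
          ≤ ∑ _i ∈ Finset.range k, C * 3 := by
            refine Finset.sum_le_sum fun i _ => ?_
            refine (hC _ _).trans (mul_le_mul_of_nonneg_left ?_ hC0)
            have h1 := norm_rd_sub ((((i + 1) * m : ℕ) : ℝ) • x)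
            have h2 := norm_rd_sub (((i * m : ℕ) : ℝ) • x)
            have h3 := norm_rd_sub ((m : ℝ) • x)
            have h4 : nm (y (i + 1) - (y i + w)) = ‖(tr (y (i + 1)) -
                (((i + 1) * m : ℕ) : ℝ) • x) - (tr (y i) - ((i * m : ℕ) : ℝ) • x) -
                (tr w - (m : ℝ) • x)‖ := by
              unfold nm
              rw [tr_sub, tr_add]
              congr 1
              have : (((i + 1) * m : ℕ) : ℝ) • x = ((i * m : ℕ) : ℝ) • x + (m : ℝ) • x := by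
                rw [← add_smul]; congr 1; push_cast; ring
              rw [this]
              abel
            have h5 : nm (y (i + 1) - (y i + w)) ≤ ‖tr (y (i + 1)) -
                (((i + 1) * m : ℕ) : ℝ) • x‖ + ‖tr (y i) - ((i * m : ℕ) : ℝ) • x‖ +
                ‖tr w - (m : ℝ) • x‖ := by
              rw [h4]
              exact (norm_sub_le _ _).trans (add_le_add_left (norm_sub_le _ _) _)
            linarith
        _ = k * (C * 3) := by rw [Finset.sum_const, Finset.card_range, nsmul_eq_mul]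
    have hb4 : ∫ ω, M.t ω (y k) z ∂P ≤ Cm := by
      refine (hC _ _).trans (mul_le_mul_of_nonneg_left ?_ hC0)
      have h1 := norm_rd_sub ((n : ℝ) • x)
      have h2 := norm_rd_sub (((k * m : ℕ) : ℝ) • x)
      have h3 : nm (z - y k) = ‖(tr z - (n : ℝ) • x) - (tr (y k) - ((k * m : ℕ) : ℝ) • x) +
          ((n : ℝ) - ((k * m : ℕ) : ℝ)) • x‖ := by
        unfold nm
        rw [tr_sub, sub_smul]
        congr 1
        abel
      have h4 : ‖((n : ℝ) - ((k * m : ℕ) : ℝ)) • x‖ ≤ m * ‖x‖ := by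
        rw [norm_smul, Real.norm_eq_abs, abs_of_nonneg]
        · refine mul_le_mul_of_nonneg_right ?_ hxn.le
          push_cast
          linarith
        · push_cast
          linarith
      have h5 : nm (z - y k) ≤ ‖tr z - (n : ℝ) • x‖ + ‖tr (y k) - ((k * m : ℕ) : ℝ) • x‖ +
          ‖((n : ℝ) - ((k * m : ℕ) : ℝ)) • x‖ := by
        rw [h3]
        exact (norm_add_le _ _).trans (add_le_add_left (norm_sub_le _ _) _)
      linarith
    have hk0 : (0 : ℝ) ≤ k := Nat.cast_nonneg _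
    calc ∫ ω, max (M.t ω 0 z - n * (M.mu x + ε)) 0 ∂P
        ≤ ∫ ω, (∑ i ∈ Finset.range k, |M.t (M.θ (y i) ω) 0 w - g (M.θ (y i) ω)| +
            |∑ i ∈ Finset.range k, (g (M.θ (y i) ω) - ∫ ω', g ω' ∂P)| +
            ∑ i ∈ Finset.range k, M.t ω (y i + w) (y (i + 1)) + M.t ω (y k) z) ∂P :=
          integral_mono hintL
            ((((integrable_finsetSum _ hint1).add hint2).add hint3).add hint4) hpt
      _ = ∫ ω, ∑ i ∈ Finset.range k, |M.t (M.θ (y i) ω) 0 w - g (M.θ (y i) ω)| ∂P +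
            ∫ ω, |∑ i ∈ Finset.range k, (g (M.θ (y i) ω) - ∫ ω', g ω' ∂P)| ∂P +
            ∫ ω, ∑ i ∈ Finset.range k, M.t ω (y i + w) (y (i + 1)) ∂P +
            ∫ ω, M.t ω (y k) z ∂P := by
          exact Up_add4 (integrable_finsetSum _ hint1) hint2 hint3 hint4
      _ ≤ k * (ε / 16 * m) + ε / 16 * k + k * (C * 3) + Cm := by linarith
      _ ≤ ε * n := by
          have f1 : k * (ε / 16 * m) ≤ ε / 16 * n := by nlinarith
          have f2 : ε / 16 * k ≤ ε / 16 * n := by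
            refine mul_le_mul_of_nonneg_left ?_ (by positivity)
            nlinarith
          have f3 : k * (C * 3) ≤ ε / 8 * n := by
            calc (k : ℝ) * (C * 3) ≤ k * (m * (ε / 8)) := mul_le_mul_of_nonneg_left hm2 hk0
              _ = (k * m) * (ε / 8) := by ring
              _ ≤ n * (ε / 8) := mul_le_mul_of_nonneg_right hkm' (by positivity)
              _ = ε / 8 * n := by ring
          have hn0 : (0 : ℝ) ≤ n := Nat.cast_nonneg _
          nlinarith

end FPPX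
end

section

/-! One scale step. -/

namespace FPPX

open MeasureTheory ProbabilityTheory Filter Set
open scoped Topology

variable {d : ℕ} {Ω : Type} [MeasurableSpace Ω] {P : Measure Ω} [IsProbabilityMeasure P]

theorem BLRM.step (M : BLRM d P) (b K : ℕ) : ∀ᶠ r : ℝ in atTop, ∀ c : ℝ,
    r ^ (-(1 / 2) : ℝ) / 4 ≤ c →
    P.real (M.Fast (c * (1 - r ^ (-(1 / 10) : ℝ))) r) ≤
      ((7 * r) ^ d * P.real (M.Fast c (r ^ (8 / 9 : ℝ)))) ^ b + r ^ (-(K : ℝ)) := by
  have h1 := M.toPreB.step_det b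
  have h2 : Negl P (fun r => (M.toPreB.CG (1 * r ^ (2 : ℝ)) (1 / 200))ᶜ) :=
    (M.chain (1 / 200) (by norm_num)).comp_rpow (by norm_num) (by norm_num)
  filter_upwards [h1, h2 K, eventually_ge_atTop 1] with r hr1 hr2 hr3 c hc
  have hr0 : 0 < r := by linarith
  have hfin : {x : V d | nm x ≤ 3 * r}.Finite := finite_bl _
  set S : Finset (V d) := hfin.toFinset with hS
  set m : ℝ := r ^ (8 / 9 : ℝ) with hm
  set p : ℝ := P.real (M.Fast c m) with hp
  have hp0 : 0 ≤ p := measureReal_nonneg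
  have hcard : (S.card : ℝ) ≤ (7 * r) ^ d := by
    have h4 : (S.card : ℝ) = ({x : V d | nm x ≤ 3 * r}.ncard : ℝ) := by
      rw [ncard_eq_toFinset_card _ hfin]
    rw [h4]
    refine (card_bl (3 * r) (by positivity)).trans ?_
    exact pow_le_pow_left₀ (by positivity) (by linarith) d
  have hsub : M.Fast (c * (1 - r ^ (-(1 / 10) : ℝ))) r ⊆
      {ω | ∃ x : Fin b → V d, (∀ i, x i ∈ S) ∧
        (∀ i j, i ≠ j → 2 * (3 * m) < nm (x i - x j)) ∧ ∀ i, ω ∈ M.LFast c m (x i)} ∪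
      (M.toPreB.CG (1 * r ^ (2 : ℝ)) (1 / 200))ᶜ := by
    intro ω hω
    by_cases hcg : ω ∈ M.toPreB.CG (1 * r ^ (2 : ℝ)) (1 / 200)
    · left
      rw [one_mul] at hcg
      obtain ⟨x, hx1, hx2, hx3⟩ := hr1 ω hcg c hc hω
      exact ⟨x, fun i => by rw [hS, Finite.mem_toFinset]; exact hx1 i, hx2, hx3⟩
    · right
      exact hcg
  refine (measureReal_mono hsub).trans ((measureReal_union_le _ _).trans ?_)
  refine add_le_add ?_ hr2
  refine (M.toPreB.sep_union S (fun a => M.LFast c m a) (3 * m) p hp0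
    (fun x _ => M.toPreB.LFast_meas c m x) (fun x _ => M.toPreB.LFast_prob c m x) b).trans ?_
  exact pow_le_pow_left₀ (by positivity) (mul_le_mul_of_nonneg_right hcard hp0) b

end FPPX
end

section

/-! Induction over scales: a linear lower bound with polynomially small error probability. -/

namespace FPPX

open MeasureTheory ProbabilityTheory Filter Set
open scoped Topology

variable {d : ℕ} {Ω : Type} [MeasurableSpace Ω] {P : Measure Ω} [IsProbabilityMeasure P]

theorem Ind_exp_ineq : ∀ᶠ r : ℝ in atTop,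
    1 + r ^ (-(1 / 20) : ℝ) ≤
      (1 + (r ^ (8 / 9 : ℝ)) ^ (-(1 / 20) : ℝ)) * (1 - r ^ (-(1 / 10) : ℝ)) := by
  have E1 := ev_rpow_le 1 (show (0 : ℝ) < 1 / 2 by norm_num)
    (show (-(1 / 20) : ℝ) < -(2 / 45) by norm_num)
  have E2 := ev_rpow_le 1 (show (0 : ℝ) < 1 / 4 by norm_num)
    (show (-(1 / 10) : ℝ) < -(2 / 45) by norm_num)
  filter_upwards [E1, E2, eventually_ge_atTop 1] with r e1 e2 hr1
  have hr : 0 < r := by linarith
  have h1 : (r ^ (8 / 9 : ℝ)) ^ (-(1 / 20) : ℝ) = r ^ (-(2 / 45) : ℝ) := by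
    rw [← Real.rpow_mul hr.le]; congr 1; norm_num
  rw [h1]
  set A : ℝ := r ^ (-(2 / 45) : ℝ) with hA
  set B : ℝ := r ^ (-(1 / 20) : ℝ) with hB
  set C : ℝ := r ^ (-(1 / 10) : ℝ) with hC
  have hA1 : A ≤ 1 := Real.rpow_le_one_of_one_le_of_nonpos hr1 (by norm_num)
  have hC0 : 0 < C := by positivity
  nlinarith

theorem Ind_num (d : ℕ) : ∀ᶠ r : ℝ in atTop,
    ((7 * r) ^ d * (r ^ (8 / 9 : ℝ)) ^ (-(3 * (d + 1)) : ℝ)) ^ 2 +
      r ^ (-((3 * (d + 1) + 1 : ℕ) : ℝ)) ≤ r ^ (-(3 * (d + 1)) : ℝ) := by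
  have E1 := ev_rpow_le ((7 : ℝ) ^ (2 * d)) (show (0 : ℝ) < 1 / 2 by norm_num)
    (show ((2 * d : ℝ) + -(16 / 3 * (d + 1)) : ℝ) < -(3 * (d + 1)) by
      have : (0 : ℝ) ≤ d := Nat.cast_nonneg d
      linarith)
  have E2 := ev_rpow_le 1 (show (0 : ℝ) < 1 / 2 by norm_num)
    (show (-((3 * (d + 1) + 1 : ℕ) : ℝ)) < -(3 * (d + 1)) by push_cast; linarith)
  filter_upwards [E1, E2, eventually_ge_atTop 1] with r e1 e2 hr1
  have hr : 0 < r := by linarith
  have h1 : ((7 * r) ^ d * (r ^ (8 / 9 : ℝ)) ^ (-(3 * (d + 1)) : ℝ)) ^ 2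
      = (7 : ℝ) ^ (2 * d) * r ^ ((2 * d : ℝ) + -(16 / 3 * (d + 1)) : ℝ) := by
    rw [mul_pow, ← pow_mul, mul_pow, ← Real.rpow_mul hr.le, ← Real.rpow_natCast (_ ^ (_ * _)) 2,
      ← Real.rpow_mul hr.le, mul_comm d 2, mul_assoc, ← Real.rpow_natCast r (2 * d),
      ← Real.rpow_add hr]
    congr 2
    push_cast
    ring
  rw [h1]
  linarith

omit [IsProbabilityMeasure P] in
theorem Ind_fast_mono (M : PreB d P) {c c' r : ℝ} (hr : 0 ≤ r) (h : c ≤ c') :
    M.Fast c r ⊆ M.Fast c' r := by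
  rintro ω ⟨z, h1, h2, h3⟩
  exact ⟨z, h1, h2, h3.trans (mul_le_mul_of_nonneg_right h hr)⟩

theorem BLRM.ind (M : BLRM d P) : ∃ c1 r0 : ℝ, 0 < c1 ∧ 1 ≤ r0 ∧ ∀ r : ℝ, r0 ≤ r →
    P.real (M.Fast c1 r) ≤ r ^ (-(3 * (d + 1)) : ℝ) := by
  obtain ⟨R, hR⟩ := eventually_atTop.1 (Ind_exp_ineq.and ((Ind_num d).and
    ((M.step 2 (3 * (d + 1) + 1)).and (M.weak (3 * (d + 1))))))
  set r0 : ℝ := max R 2 with hr0
  have hr02 : 2 ≤ r0 := le_max_right _ _
  have hr00 : 0 < r0 := by linarith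
  have hr01 : 1 ≤ r0 := by linarith
  set cs : ℝ := r0 ^ (-(9 / 16) : ℝ) / 4 with hcs
  have hcs0 : 0 < cs := by positivity
  -- base region
  have base : ∀ r, r0 ≤ r → r ≤ r0 ^ (9 / 8 : ℝ) →
      P.real (M.Fast (cs * (1 + r ^ (-(1 / 20) : ℝ))) r) ≤ r ^ (-(3 * (d + 1)) : ℝ) := by
    intro r h1 h2
    have hr : 0 < r := by linarith
    have hr1 : 1 ≤ r := by linarith
    have hw := (hR r ((le_max_left _ _).trans h1)).2.2.2
    have hcast : ((3 * (d + 1) : ℕ) : ℝ) = 3 * ((d : ℝ) + 1) := by push_cast; ring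
    rw [hcast] at hw
    refine (measureReal_mono ?_).trans hw
    rintro ω ⟨z, hz1, hz2, hz3⟩
    refine ⟨z, hz1, hz2, lt_of_le_of_lt hz3 ?_⟩
    have h3 : r ^ (-(1 / 20) : ℝ) ≤ 1 := Real.rpow_le_one_of_one_le_of_nonpos hr1 (by norm_num)
    have h4 : r ^ (1 / 2 : ℝ) ≤ r0 ^ (9 / 16 : ℝ) := by
      calc r ^ (1 / 2 : ℝ) ≤ (r0 ^ (9 / 8 : ℝ)) ^ (1 / 2 : ℝ) :=
            Real.rpow_le_rpow hr.le h2 (by norm_num)
        _ = r0 ^ (9 / 16 : ℝ) := by rw [← Real.rpow_mul hr00.le]; norm_num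
    have h5 : r0 ^ (-(9 / 16) : ℝ) * r0 ^ (9 / 16 : ℝ) = 1 := by
      rw [← Real.rpow_add hr00]; norm_num
    have h6 : r = r ^ (1 / 2 : ℝ) * r ^ (1 / 2 : ℝ) := by
      rw [← Real.rpow_add hr]; norm_num
    have h7 : 0 < r ^ (1 / 2 : ℝ) := by positivity
    have h8 : cs * r ^ (1 / 2 : ℝ) ≤ 1 / 4 := by
      calc cs * r ^ (1 / 2 : ℝ) ≤ cs * r0 ^ (9 / 16 : ℝ) := mul_le_mul_of_nonneg_left h4 hcs0.le
        _ = (r0 ^ (-(9 / 16) : ℝ) * r0 ^ (9 / 16 : ℝ)) / 4 := by rw [hcs]; ring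
        _ = 1 / 4 := by rw [h5]
    calc cs * (1 + r ^ (-(1 / 20) : ℝ)) * r ≤ cs * 2 * r := by
          apply mul_le_mul_of_nonneg_right _ hr.le
          apply mul_le_mul_of_nonneg_left _ hcs0.le
          linarith
      _ = 2 * (cs * r ^ (1 / 2 : ℝ)) * r ^ (1 / 2 : ℝ) := by
          conv_lhs => rw [h6]
          ring
      _ ≤ 2 * (1 / 4) * r ^ (1 / 2 : ℝ) := by
          apply mul_le_mul_of_nonneg_right _ h7.le
          linarith
      _ < r ^ (1 / 2 : ℝ) := by linarith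
  -- all scales
  have all : ∀ n : ℕ, ∀ r, r0 ≤ r → r ≤ r0 ^ ((9 / 8 : ℝ) ^ n) →
      P.real (M.Fast (cs * (1 + r ^ (-(1 / 20) : ℝ))) r) ≤ r ^ (-(3 * (d + 1)) : ℝ) := by
    intro n
    induction n with
    | zero =>
      intro r h1 h2
      apply base r h1
      rw [pow_zero, Real.rpow_one] at h2
      exact h2.trans (by
        conv_lhs => rw [← Real.rpow_one r0]
        exact Real.rpow_le_rpow_of_exponent_le hr01 (by norm_num))
    | succ n ih =>
      intro r h1 h2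
      rcases le_or_gt r (r0 ^ (9 / 8 : ℝ)) with h3 | h3
      · exact base r h1 h3
      · have hr : 0 < r := by linarith
        have hr1 : 1 ≤ r := by linarith
        obtain ⟨a1, a2, a3, -⟩ := hR r ((le_max_left _ _).trans h1)
        set m : ℝ := r ^ (8 / 9 : ℝ) with hm
        have hm1 : r0 ≤ m := by
          calc r0 = (r0 ^ (9 / 8 : ℝ)) ^ (8 / 9 : ℝ) := by
                rw [← Real.rpow_mul hr00.le]; norm_num
            _ ≤ m := Real.rpow_le_rpow (by positivity) h3.le (by norm_num)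
        have hm2 : m ≤ r0 ^ ((9 / 8 : ℝ) ^ n) := by
          calc m ≤ (r0 ^ ((9 / 8 : ℝ) ^ (n + 1))) ^ (8 / 9 : ℝ) :=
                Real.rpow_le_rpow hr.le h2 (by norm_num)
            _ = r0 ^ ((9 / 8 : ℝ) ^ n) := by
                rw [← Real.rpow_mul hr00.le, pow_succ, mul_assoc]; norm_num
        have him := ih m hm1 hm2
        have hm0 : 0 < m := by positivity
        set c : ℝ := cs * (1 + m ^ (-(1 / 20) : ℝ)) with hc
        have hcr : r ^ (-(1 / 2) : ℝ) / 4 ≤ c := by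
          have b1 : r ^ (-(1 / 2) : ℝ) ≤ r0 ^ (-(9 / 16) : ℝ) := by
            calc r ^ (-(1 / 2) : ℝ) ≤ (r0 ^ (9 / 8 : ℝ)) ^ (-(1 / 2) : ℝ) :=
                  Real.rpow_le_rpow_of_nonpos (by positivity) h3.le (by norm_num)
              _ = r0 ^ (-(9 / 16) : ℝ) := by rw [← Real.rpow_mul hr00.le]; norm_num
          have b2 : cs ≤ c := by
            rw [hc]
            have : 0 < m ^ (-(1 / 20) : ℝ) := by positivity
            nlinarith
          calc r ^ (-(1 / 2) : ℝ) / 4 ≤ cs := by rw [hcs]; linarith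
            _ ≤ c := b2
        have hst := a3 c hcr
        have hmono : M.Fast (cs * (1 + r ^ (-(1 / 20) : ℝ))) r ⊆
            M.Fast (c * (1 - r ^ (-(1 / 10) : ℝ))) r := by
          apply Ind_fast_mono M.toPreB hr.le
          rw [hc, mul_assoc]
          exact mul_le_mul_of_nonneg_left a1 hcs0.le
        refine (measureReal_mono hmono).trans (hst.trans (le_trans ?_ a2))
        have h7 : (0 : ℝ) ≤ (7 * r) ^ d := by positivity
        have h8 := mul_le_mul_of_nonneg_left him h7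
        have h9 : 0 ≤ (7 * r) ^ d * P.real (M.Fast c m) := mul_nonneg h7 measureReal_nonneg
        have h10 := pow_le_pow_left₀ h9 h8 2
        linarith
  refine ⟨cs, r0, hcs0, hr01, fun r hr => ?_⟩
  have hr' : 0 < r := by linarith
  obtain ⟨n, hn⟩ : ∃ n : ℕ, r ≤ r0 ^ ((9 / 8 : ℝ) ^ n) := by
    have h1 : Tendsto (fun n : ℕ => (9 / 8 : ℝ) ^ n) atTop atTop :=
      tendsto_pow_atTop_atTop_of_one_lt (by norm_num)
    have h2 : Tendsto (fun s : ℝ => r0 ^ s) atTop atTop :=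
      tendsto_rpow_atTop_of_base_gt_one r0 (by linarith)
    exact ((h2.comp h1).eventually_ge_atTop r).exists
  refine (measureReal_mono (Ind_fast_mono M.toPreB hr'.le ?_)).trans (all n r hr hn)
  have : 0 < r ^ (-(1 / 20) : ℝ) := by positivity
  nlinarith

end FPPX
end
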