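import Mathlib
import Pool.Agent.Lib.MP_fa364e_pr.Std.Defs
import Pool.Agent.Lib.MP_fa364e_pr.Std.Chi
import Pool.Agent.Lib.MP_fa364e_pr.Mg.G001
import Pool.Agent.Lib.MP_fa364e_pr.Core.Lat
import Pool.Agent.Lib.MP_fa364e_pr.Sharp.Defs

section

/-! Lattice paths. -/

namespace FPPX

open MeasureTheory ProbabilityTheory Filter Set
open scoped Topology

variable {d : ℕ}

theorem Joins.symm {e : Edge d} {u v : V d} (h : Joins e u v) : Joins e v u := by
  rcases h with h | h
  · exact Or.inr h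
  · exact Or.inl h

private lemma path_nm_single (i : Fin d) : nm (Pi.single i 1 : V d) ≤ 1 := by
  unfold nm
  rw [pi_norm_le_iff_of_nonneg (by norm_num)]
  intro j
  by_cases h : j = i
  · subst h; simp [tr]
  · simp [tr, Pi.single_eq_of_ne h]

theorem Joins.nm_le {e : Edge d} {u v : V d} (h : Joins e u v) : nm (v - u) ≤ 1 := by
  rcases h with ⟨h1, h2⟩ | ⟨h1, h2⟩
  · have : v - u = Pi.single e.2 1 := by rw [h1, h2]; abel
    rw [this]; exact path_nm_single _
  · have : v - u = -Pi.single e.2 1 := by rw [h1, h2]; abel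
    rw [this, nm_neg]; exact path_nm_single _

theorem IsPath.append {u v w : V d} {l l' : List (Edge d)} (h : IsPath u v l)
    (h' : IsPath v w l') : IsPath u w (l ++ l') := by
  induction l generalizing u with
  | nil =>
    have h1 : u = v := h
    subst h1
    exact h'
  | cons e l ih =>
    obtain ⟨z, h1, h2⟩ := h
    exact ⟨z, h1, ih h2⟩

theorem IsPath.reverse {u v : V d} {l : List (Edge d)} (h : IsPath u v l) :
    IsPath v u l.reverse := by
  induction l generalizing u with
  | nil =>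
    have h1 : u = v := h
    subst h1
    exact rfl
  | cons e l ih =>
    obtain ⟨z, h1, h2⟩ := h
    rw [List.reverse_cons]
    refine (ih h2).append ⟨u, h1.symm, rfl⟩

theorem IsPath.shift (x : V d) {u v : V d} {l : List (Edge d)} (h : IsPath u v l) :
    IsPath (u + x) (v + x) (l.map (fun e => (e.1 + x, e.2))) := by
  induction l generalizing u with
  | nil =>
    have h1 : u = v := h
    subst h1
    exact rfl
  | cons e l ih =>
    obtain ⟨z, h1, h2⟩ := h
    refine ⟨z + x, ?_, ih h2⟩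
    rcases h1 with ⟨h3, h4⟩ | ⟨h3, h4⟩
    · left
      refine ⟨by rw [h3], ?_⟩
      rw [h4]; simp only; abel
    · right
      refine ⟨by rw [h3], ?_⟩
      rw [h4]; simp only; abel

/-- the vertices of a path -/
theorem IsPath.verts {u v : V d} {l : List (Edge d)} (h : IsPath u v l) :
    ∃ x : ℕ → V d, x 0 = u ∧ x l.length = v ∧
      ∀ i (hi : i < l.length), Joins l[i] (x i) (x (i + 1)) := by
  induction l generalizing u with
  | nil =>
    have h1 : u = v := h
    refine ⟨fun _ => u, rfl, h1, fun i hi => absurd hi (Nat.not_lt_zero _)⟩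
  | cons e l ih =>
    obtain ⟨z, h1, h2⟩ := h
    obtain ⟨x, hx0, hx1, hx2⟩ := ih h2
    refine ⟨fun n => match n with | 0 => u | n + 1 => x n, rfl, hx1, ?_⟩
    intro i hi
    cases i with
    | zero =>
      simp only [List.getElem_cons_zero]
      rw [hx0]; exact h1
    | succ i =>
      simp only [List.getElem_cons_succ]
      exact hx2 i (by simpa using hi)

theorem isPath_sub (x : ℕ → V d) (l : List (Edge d))
    (hx : ∀ i (hi : i < l.length), Joins l[i] (x i) (x (i + 1))) (i j : ℕ) (hij : i ≤ j)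
    (hj : j ≤ l.length) : IsPath (x i) (x j) ((l.drop i).take (j - i)) := by
  induction j, hij using Nat.le_induction with
  | base => simp [IsPath]
  | succ j hij ih =>
    have h1 := ih (by omega)
    have h2 : j + 1 - i = (j - i) + 1 := by omega
    rw [h2, List.take_add_one]
    refine h1.append ?_
    have h3 : (l.drop i)[j - i]? = some l[j] := by
      rw [List.getElem?_drop]
      have h4 : i + (j - i) = j := by omega
      rw [h4]
      exact List.getElem?_eq_getElem (by omega)
    rw [h3]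
    exact ⟨x (j + 1), hx j (by omega), rfl⟩

private lemma path_sum_step (u v : V d) (i : Fin d) (u' : V d) (h : ∀ j, j ≠ i → u' j = u j)
    (hi : (v i - u i).natAbs = (v i - u' i).natAbs + 1) :
    ∑ j, (v j - u j).natAbs = (∑ j, (v j - u' j).natAbs) + 1 := by
  rw [← Finset.add_sum_erase _ _ (Finset.mem_univ i),
    ← Finset.add_sum_erase (a := i) Finset.univ (fun j => (v j - u' j).natAbs) (Finset.mem_univ i),
    hi]
  have : ∑ x ∈ Finset.univ.erase i, (v x - u x).natAbs
      = ∑ x ∈ Finset.univ.erase i, (v x - u' x).natAbs := by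
    apply Finset.sum_congr rfl
    intro j hj
    rw [h j (Finset.ne_of_mem_erase hj)]
  rw [this]; ring

private def PathGood (ν : E d →ₗ[ℝ] ℝ) (a : ℝ) (m : ℕ) (u v : V d) : Prop :=
  ∃ l : List (Edge d), IsPath u v l ∧ l.Nodup ∧ l.length = m ∧
      ∀ e ∈ l, (a ≤ ν (tr e.1) ∧ a ≤ ν (tr (e.1 + Pi.single e.2 1))) ∧
        ∀ j, min (u j) (v j) ≤ e.1 j ∧ (e.1 + Pi.single e.2 1 : V d) j ≤ max (u j) (v j)

private lemma PathGood.symm {ν : E d →ₗ[ℝ] ℝ} {a : ℝ} {m : ℕ} {u v : V d}
    (h : PathGood ν a m u v) : PathGood ν a m v u := by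
  obtain ⟨l, h1, h2, h3, h4⟩ := h
  refine ⟨l.reverse, h1.reverse, List.nodup_reverse.2 h2, by rw [List.length_reverse, h3], ?_⟩
  intro e he
  rw [List.mem_reverse] at he
  obtain ⟨h5, h6⟩ := h4 e he
  refine ⟨h5, fun j => ?_⟩
  rw [min_comm, max_comm]
  exact h6 j

private lemma path_step (ν : E d →ₗ[ℝ] ℝ) (a : ℝ) (m : ℕ)
    (ih : ∀ u v : V d, ∑ i, (v i - u i).natAbs = m → a ≤ ν (tr u) → a ≤ ν (tr v) →
      PathGood ν a m u v) (u v : V d) (hs : ∑ i, (v i - u i).natAbs = m + 1)
    (hu : a ≤ ν (tr u)) (hv : a ≤ ν (tr v)) (i : Fin d)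
    (hi : (u i < v i ∧ 0 ≤ ν (tr (Pi.single i 1 : V d))) ∨
      (v i < u i ∧ ν (tr (Pi.single i 1 : V d)) ≤ 0)) : PathGood ν a (m + 1) u v := by
  rcases hi with ⟨h1, h2⟩ | ⟨h1, h2⟩
  · set u' : V d := u + Pi.single i 1 with hu'
    have e1 : ∀ j, j ≠ i → u' j = u j := by
      intro j hj; simp [hu', Pi.single_eq_of_ne hj]
    have e2 : u' i = u i + 1 := by simp [hu']
    have h3 : ∑ j, (v j - u' j).natAbs = m := by
      have h4 := path_sum_step u v i u' e1 (by rw [e2]; omega)
      omega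
    have h4 : a ≤ ν (tr u') := by
      rw [hu', tr_add, map_add]; linarith
    obtain ⟨l, g1, g2, g3, g4⟩ := ih u' v h3 h4 hv
    refine ⟨(u, i) :: l, ⟨u', Or.inl ⟨rfl, rfl⟩, g1⟩, ?_, by rw [List.length_cons, g3], ?_⟩
    · rw [List.nodup_cons]
      refine ⟨fun hmem => ?_, g2⟩
      have h5 := ((g4 _ hmem).2 i).1
      simp only at h5
      rw [e2] at h5
      have h6 : min (u i + 1) (v i) = u i + 1 := min_eq_left (by omega)
      omega
    · intro e he
      rw [List.mem_cons] at he
      rcases he with he | he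
      · subst he
        refine ⟨⟨hu, h4⟩, fun j => ?_⟩
        simp only
        refine ⟨min_le_left _ _, ?_⟩
        change u' j ≤ _
        by_cases hj : j = i
        · subst hj
          rw [e2]
          exact le_max_of_le_right (by omega)
        · rw [e1 j hj]; exact le_max_left _ _
      · obtain ⟨h5, h6⟩ := g4 e he
        refine ⟨h5, fun j => ?_⟩
        obtain ⟨h7, h8⟩ := h6 j
        by_cases hj : j = i
        · subst hj
          rw [e2] at h7 h8
          constructor
          · refine le_trans ?_ h7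
            rw [min_eq_left (by omega : u j + 1 ≤ v j)]
            exact (min_le_left _ _).trans (by omega)
          · refine h8.trans ?_
            rw [max_eq_right (by omega : u j + 1 ≤ v j)]
            exact le_max_right _ _
        · rw [e1 j hj] at h7 h8
          exact ⟨h7, h8⟩
  · set u' : V d := u - Pi.single i 1 with hu'
    have e1 : ∀ j, j ≠ i → u' j = u j := by
      intro j hj; simp [hu', Pi.single_eq_of_ne hj]
    have e2 : u' i = u i - 1 := by simp [hu']
    have e3 : u' + Pi.single i 1 = u := by rw [hu']; abel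
    have h3 : ∑ j, (v j - u' j).natAbs = m := by
      have h4 := path_sum_step u v i u' e1 (by rw [e2]; omega)
      omega
    have h4 : a ≤ ν (tr u') := by
      rw [hu', tr_sub, map_sub]; linarith
    obtain ⟨l, g1, g2, g3, g4⟩ := ih u' v h3 h4 hv
    refine ⟨(u', i) :: l, ⟨u', Or.inr ⟨rfl, e3.symm⟩, g1⟩, ?_, by rw [List.length_cons, g3], ?_⟩
    · rw [List.nodup_cons]
      refine ⟨fun hmem => ?_, g2⟩
      have h5 := ((g4 _ hmem).2 i).2
      simp only at h5
      rw [e3, e2] at h5
      have h6 : max (u i - 1) (v i) = u i - 1 := max_eq_left (by omega)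
      omega
    · intro e he
      rw [List.mem_cons] at he
      rcases he with he | he
      · subst he
        refine ⟨⟨h4, by simp only; rw [e3]; exact hu⟩, fun j => ?_⟩
        simp only
        rw [e3]
        refine ⟨?_, le_max_left _ _⟩
        by_cases hj : j = i
        · subst hj
          rw [e2]
          exact min_le_of_right_le (by omega)
        · rw [e1 j hj]; exact min_le_left _ _
      · obtain ⟨h5, h6⟩ := g4 e he
        refine ⟨h5, fun j => ?_⟩
        obtain ⟨h7, h8⟩ := h6 j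
        by_cases hj : j = i
        · subst hj
          rw [e2] at h7 h8
          constructor
          · refine le_trans ?_ h7
            rw [min_eq_right (by omega : v j ≤ u j - 1)]
            exact min_le_right _ _
          · refine h8.trans ?_
            rw [max_eq_left (by omega : v j ≤ u j - 1)]
            exact le_max_of_le_left (by omega)
        · rw [e1 j hj] at h7 h8
          exact ⟨h7, h8⟩

private lemma path_main (ν : E d →ₗ[ℝ] ℝ) (a : ℝ) : ∀ (m : ℕ) (u v : V d),
    ∑ i, (v i - u i).natAbs = m → a ≤ ν (tr u) → a ≤ ν (tr v) → PathGood ν a m u v := by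
  intro m
  induction m with
  | zero =>
    intro u v hs hu hv
    have h1 : u = v := by
      funext i
      have h2 := (Finset.sum_eq_zero_iff.1 hs) i (Finset.mem_univ i)
      omega
    subst h1
    exact ⟨[], rfl, List.nodup_nil, rfl, fun e he => absurd he (List.not_mem_nil)⟩
  | succ m ih =>
    intro u v hs hu hv
    obtain ⟨i, hi⟩ : ∃ i, u i ≠ v i := by
      by_contra hcon
      push Not at hcon
      have : ∑ i, (v i - u i).natAbs = 0 := by
        apply Finset.sum_eq_zero
        intro i _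
        rw [hcon i]; simp
      omega
    have hs' : ∑ i, (u i - v i).natAbs = m + 1 := by
      rw [← hs]
      apply Finset.sum_congr rfl
      intro j _
      omega
    rcases lt_or_gt_of_ne hi with h1 | h1
    · rcases le_total 0 (ν (tr (Pi.single i 1 : V d))) with h2 | h2
      · exact path_step ν a m ih u v hs hu hv i (Or.inl ⟨h1, h2⟩)
      · exact (path_step ν a m ih v u hs' hv hu i (Or.inr ⟨h1, h2⟩)).symm
    · rcases le_total 0 (ν (tr (Pi.single i 1 : V d))) with h2 | h2
      · exact (path_step ν a m ih v u hs' hv hu i (Or.inl ⟨h1, h2⟩)).symm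
      · exact path_step ν a m ih u v hs hu hv i (Or.inr ⟨h1, h2⟩)

/-- a coordinatewise monotone path which stays in a given half space -/
theorem exists_mono_path (ν : E d →ₗ[ℝ] ℝ) (a : ℝ) (u v : V d) (hu : a ≤ ν (tr u))
    (hv : a ≤ ν (tr v)) : ∃ l : List (Edge d), IsPath u v l ∧ l.Nodup ∧
      (l.length : ℝ) ≤ d * nm (v - u) ∧
      ∀ e ∈ l, a ≤ ν (tr e.1) ∧ a ≤ ν (tr (e.1 + Pi.single e.2 1)) := by
  obtain ⟨l, h1, h2, h3, h4⟩ := path_main ν a _ u v rfl hu hv
  refine ⟨l, h1, h2, ?_, fun e he => (h4 e he).1⟩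
  rw [h3]
  push_cast
  calc ∑ i, (((v i - u i).natAbs : ℕ) : ℝ) ≤ ∑ _i : Fin d, nm (v - u) := by
        apply Finset.sum_le_sum
        intro i _
        rw [Nat.cast_natAbs]
        have h5 : ‖tr (v - u) i‖ ≤ ‖tr (v - u)‖ := norm_le_pi_norm _ i
        simpa [tr, nm] using h5
    _ = d * nm (v - u) := by simp

theorem exists_path (u v : V d) : ∃ l : List (Edge d), IsPath u v l := by
  obtain ⟨l, hl, -⟩ := exists_mono_path (0 : E d →ₗ[ℝ] ℝ) 0 u v (by simp) (by simp)
  exact ⟨l, hl⟩

end FPPX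
end

section

/-! Elementary properties of passage times. -/

namespace FPPX

open MeasureTheory ProbabilityTheory Filter Set
open scoped Topology

variable {d : ℕ}

theorem pt_bdd {τ : Edge d → ℝ} (hτ : ∀ e, 0 ≤ τ e) (u v : V d) :
    BddBelow {s | ∃ l : List (Edge d), IsPath u v l ∧ s = (l.map τ).sum} := by
  refine ⟨0, ?_⟩
  rintro s ⟨l, -, rfl⟩
  refine List.sum_nonneg ?_
  intro x hx
  obtain ⟨e, -, rfl⟩ := List.mem_map.1 hx
  exact hτ e

theorem pt_nonneg {τ : Edge d → ℝ} (hτ : ∀ e, 0 ≤ τ e) (u v : V d) : 0 ≤ pt τ u v := by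
  unfold pt
  refine Real.sInf_nonneg ?_
  rintro s ⟨l, -, rfl⟩
  refine List.sum_nonneg ?_
  intro x hx
  obtain ⟨e, -, rfl⟩ := List.mem_map.1 hx
  exact hτ e

theorem pt_le {τ : Edge d → ℝ} (hτ : ∀ e, 0 ≤ τ e) {u v : V d} {l : List (Edge d)}
    (h : IsPath u v l) : pt τ u v ≤ (l.map τ).sum :=
  csInf_le (pt_bdd hτ u v) ⟨l, h, rfl⟩

theorem pt_near {τ : Edge d → ℝ} (u v : V d) {s : ℝ} (h : pt τ u v < s) :
    ∃ l : List (Edge d), IsPath u v l ∧ (l.map τ).sum < s := by
  have hne : {s | ∃ l : List (Edge d), IsPath u v l ∧ s = (l.map τ).sum}.Nonempty := by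
    obtain ⟨l, hl⟩ := exists_path u v
    exact ⟨_, l, hl, rfl⟩
  obtain ⟨x, ⟨l, hl, rfl⟩, hx⟩ := exists_lt_of_csInf_lt hne h
  exact ⟨l, hl, hx⟩

theorem pt_self {τ : Edge d → ℝ} (hτ : ∀ e, 0 ≤ τ e) (u : V d) : pt τ u u = 0 := by
  refine le_antisymm ?_ (pt_nonneg hτ u u)
  have h : IsPath u u ([] : List (Edge d)) := by simp [IsPath]
  simpa using pt_le hτ h

theorem pt_symm (τ : Edge d → ℝ) (u v : V d) : pt τ u v = pt τ v u := by
  unfold pt
  congr 1
  ext s
  constructor
  · rintro ⟨l, hl, rfl⟩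
    exact ⟨l.reverse, hl.reverse, by rw [List.map_reverse, List.sum_reverse]⟩
  · rintro ⟨l, hl, rfl⟩
    exact ⟨l.reverse, hl.reverse, by rw [List.map_reverse, List.sum_reverse]⟩

theorem pt_tri {τ : Edge d → ℝ} (hτ : ∀ e, 0 ≤ τ e) (u v w : V d) :
    pt τ u w ≤ pt τ u v + pt τ v w := by
  refine le_of_forall_pos_le_add fun ε hε => ?_
  obtain ⟨l, hl, h1⟩ := pt_near (τ := τ) u v (s := pt τ u v + ε / 2) (by linarith)
  obtain ⟨l', hl', h2⟩ := pt_near (τ := τ) v w (s := pt τ v w + ε / 2) (by linarith)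
  have h3 := pt_le hτ (hl.append hl')
  rw [List.map_append, List.sum_append] at h3
  linarith

theorem pt_shift (τ : Edge d → ℝ) (x u v : V d) :
    pt (fun e => τ (e.1 + x, e.2)) u v = pt τ (u + x) (v + x) := by
  unfold pt
  congr 1
  ext s
  constructor
  · rintro ⟨l, hl, rfl⟩
    refine ⟨_, hl.shift x, ?_⟩
    rw [List.map_map]
    rfl
  · rintro ⟨l, hl, rfl⟩
    have h := hl.shift (-x)
    rw [add_neg_cancel_right, add_neg_cancel_right] at h
    refine ⟨_, h, ?_⟩
    rw [List.map_map]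
    congr 1
    refine List.map_congr_left fun e _ => ?_
    simp

theorem pt_meas (u v : V d) : Measurable (fun τ : Edge d → ℝ => pt τ u v) := by
  have h : (fun τ : Edge d → ℝ => pt τ u v) =
      fun τ => ⨅ l : {l : List (Edge d) // IsPath u v l}, (l.1.map τ).sum := by
    funext τ
    unfold pt iInf
    congr 1
    ext s
    constructor
    · rintro ⟨l, hl, rfl⟩
      exact ⟨⟨l, hl⟩, rfl⟩
    · rintro ⟨⟨l, hl⟩, rfl⟩
      exact ⟨l, hl, rfl⟩
  rw [h]
  have key : ∀ l : List (Edge d), Measurable fun τ : Edge d → ℝ => (l.map τ).sum := by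
    intro l
    induction l with
    | nil => simp
    | cons e l ih =>
      simp only [List.map_cons, List.sum_cons]
      exact (measurable_pi_apply e).add ih
  exact Measurable.iInf fun l => key l.1

end FPPX
end

section

/-! From pointwise bounds to inclusions of sets. -/

namespace FPPX

open MeasureTheory ProbabilityTheory Filter Set
open scoped Topology Pointwise

variable {d : ℕ}

/-- a norm on `Fin d → ℝ`, seen on Euclidean space -/
def toRR (μ : E d → ℝ) : RR d → ℝ := fun x => μ (fun i => x i)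

private lemma shapeA_smul {μ : E d → ℝ} {c C : ℝ} (hμ : IsNm μ c C) (s : ℝ) (x : RR d) :
    toRR μ (s • x) = |s| * toRR μ x := by
  have h1 : toRR μ (s • x) = μ (s • (fun i => x i : E d)) := rfl
  rw [h1, hμ.smul]
  rfl

theorem limitShape_toRR {μ : E d → ℝ} {c C : ℝ} (hμ : IsNm μ c C) :
    limitShape (toRR μ) = {x : RR d | μ (fun i => x i) ≤ 1} := by
  ext x
  show ‖x‖ * toRR μ (‖x‖⁻¹ • x) ≤ 1 ↔ toRR μ x ≤ 1
  rw [shapeA_smul hμ]
  rcases eq_or_ne x 0 with rfl | hx
  · have h0 : toRR μ (0 : RR d) = 0 := by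
      have := hμ.normD_zero
      exact this
    rw [h0]
    simp
  · have hn : ‖x‖ ≠ 0 := norm_ne_zero_iff.2 hx
    rw [abs_inv, abs_norm, ← mul_assoc, mul_inv_cancel₀ hn, one_mul]

theorem smul_limitShape {μ : E d → ℝ} {c C : ℝ} (hμ : IsNm μ c C) {s : ℝ} (hs : 0 ≤ s) :
    s • limitShape (toRR μ) = {x : RR d | μ (fun i => x i) ≤ s} := by
  rw [limitShape_toRR hμ]
  rcases hs.eq_or_lt with rfl | hs
  · rw [zero_smul_set]
    · ext x
      show x = 0 ↔ toRR μ x ≤ 0
      constructor
      · rintro rfl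
        exact hμ.normD_zero.le
      · intro h
        have h1 := (hμ.lb (fun i => x i)).trans h
        have h2 : ‖(fun i => x i : E d)‖ ≤ 0 := by
          by_contra hcon
          push Not at hcon
          have := mul_pos hμ.cpos hcon
          linarith
        have h3 : (fun i => x i : E d) = 0 := norm_le_zero_iff.1 h2
        ext i
        exact congrFun h3 i
    · exact ⟨0, by
        show μ (0 : E d) ≤ 1
        rw [hμ.normD_zero]
        exact zero_le_one⟩
  · ext x
    rw [mem_smul_set_iff_inv_smul_mem₀ hs.ne']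
    show toRR μ (s⁻¹ • x) ≤ 1 ↔ toRR μ x ≤ s
    rw [shapeA_smul hμ, abs_of_pos (inv_pos.2 hs), inv_mul_le_iff₀ hs, mul_one]

private lemma shapeA_latt (x : RR d) (i : Fin d) : |x i - latt x i| ≤ 1 / 2 := by
  exact abs_sub_round (x i)

private lemma shapeA_close {μ : E d → ℝ} {c C : ℝ} (hμ : IsNm μ c C) {x : RR d} {v : V d}
    (h : ∀ i, |x i - v i| ≤ 1 / 2) :
    |μ (fun i => x i) - μ (tr v)| ≤ |C| / 2 ∧ nm v ≤ ‖(fun i => x i : E d)‖ + 1 / 2 := by
  have h1 : ‖(fun i => x i : E d) - tr v‖ ≤ 1 / 2 := by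
    rw [pi_norm_le_iff_of_nonneg (by norm_num)]
    intro i
    exact h i
  constructor
  · calc |μ (fun i => x i) - μ (tr v)| ≤ C * ‖(fun i => x i : E d) - tr v‖ := hμ.sub_le _ _
      _ ≤ |C| * ‖(fun i => x i : E d) - tr v‖ := by
        gcongr
        exact le_abs_self C
      _ ≤ |C| * (1 / 2) := by gcongr
      _ = |C| / 2 := by ring
  · have h2 : tr v = (fun i => x i : E d) - ((fun i => x i : E d) - tr v) := by abel
    unfold nm
    calc ‖tr v‖ = ‖(fun i => x i : E d) - ((fun i => x i : E d) - tr v)‖ := by rw [← h2]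
      _ ≤ ‖(fun i => x i : E d)‖ + ‖(fun i => x i : E d) - tr v‖ := norm_sub_le _ _
      _ ≤ ‖(fun i => x i : E d)‖ + 1 / 2 := by gcongr

theorem shape_of_bound {μ : E d → ℝ} {c C : ℝ} (hμ : IsNm μ c C) {τ : Edge d → ℝ}
    (hτ : ∀ e, 0 ≤ τ e) {κ κ' : ℝ} (hκ' : 0 < κ') (hκκ' : κ < κ') (hκ1 : κ' ≤ 1)
    (h : ∀ᶠ r : ℝ in atTop, ∀ v : V d, nm v ≤ r → |pt τ 0 v - μ (tr v)| ≤ r ^ κ) :
    ∀ᶠ t : ℝ in atTop, (t - t ^ κ') • limitShape (toRR μ) ⊆ wet τ t ∧
      wet τ t ⊆ (t + t ^ κ') • limitShape (toRR μ) := by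
  have hc : 0 < c := hμ.cpos
  obtain ⟨k, hkκ, hk0, hkκ'⟩ : ∃ k : ℝ, κ ≤ k ∧ 0 < k ∧ k < κ' :=
    ⟨max κ (κ' / 2), le_max_left _ _, lt_max_of_lt_right (by linarith),
      max_lt hκκ' (by linarith)⟩
  have hk1 : k < 1 := by linarith
  obtain ⟨r₀, hr₀⟩ := eventually_atTop.1 ((h.and (eventually_ge_atTop (1 : ℝ))).and
    (ev_rpow_le 1 (show (0 : ℝ) < c / 2 by positivity) hk1))
  have key : ∀ r : ℝ, r₀ ≤ r → ∀ v : V d, nm v ≤ r → |pt τ 0 v - μ (tr v)| ≤ r ^ k := by
    intro r hr y hy
    obtain ⟨⟨h1, h2⟩, _⟩ := hr₀ r hr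
    exact (h1 y hy).trans (Real.rpow_le_rpow_of_exponent_le h2 hkκ)
  filter_upwards [eventually_ge_atTop (1 : ℝ), eventually_ge_atTop (r₀ * c),
    eventually_ge_atTop c,
    ev_rpow_le ((2 / c) ^ k) (show (0 : ℝ) < 1 / 2 by norm_num) hkκ',
    ev_const_le (|C| / 2) (show (0 : ℝ) < 1 / 2 by norm_num) hκ'] with
    t ht1 ht2 htc ht4 ht5
  have ht0 : 0 ≤ t := by linarith
  have htκ : t ^ κ' ≤ t := by
    calc t ^ κ' ≤ t ^ (1 : ℝ) := Real.rpow_le_rpow_of_exponent_le ht1 hκ1
      _ = t := Real.rpow_one t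
  have htκ0 : 0 ≤ t ^ κ' := Real.rpow_nonneg ht0 _
  have h0 : r₀ ≤ 2 * t / c := by
    rw [le_div_iff₀ hc]
    linarith
  have h3 : (2 * t / c) ^ k = (2 / c) ^ k * t ^ k := by
    rw [← Real.mul_rpow (by positivity) ht0]
    congr 1
    ring
  rw [smul_limitShape hμ (by linarith), smul_limitShape hμ (by linarith)]
  refine ⟨?_, ?_⟩
  · intro x hx
    have hx' : μ (fun i => x i) ≤ t - t ^ κ' := hx
    have hcl := shapeA_close hμ (shapeA_latt x)
    refine ⟨latt x, ?_, shapeA_latt x⟩
    have h1 : nm (latt x) ≤ 2 * t / c := by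
      have h4 : ‖(fun i => x i : E d)‖ ≤ t / c := by
        rw [le_div_iff₀ hc]
        have := hμ.lb (fun i => x i)
        linarith
      have h5 : (1 : ℝ) ≤ t / c := by
        rw [le_div_iff₀ hc]
        linarith
      have h6 : 2 * t / c = t / c + t / c := by ring
      rw [h6]
      linarith [hcl.2]
    have h2 := key (2 * t / c) h0 _ h1
    rw [h3] at h2
    have h4 := (abs_le.1 h2).2
    have h5 := (abs_le.1 hcl.1).1
    linarith
  · rintro x ⟨v, hv, hxv⟩
    have hcl := shapeA_close hμ hxv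
    show μ (fun i => x i) ≤ t + t ^ κ'
    have h5 := (abs_le.1 hcl.1).2
    rcases le_or_gt (nm v) (2 * t / c) with h1 | h1
    · have h2 := key (2 * t / c) h0 v h1
      rw [h3] at h2
      have h4 := (abs_le.1 h2).1
      linarith
    · exfalso
      have h0' : r₀ ≤ nm v := h0.trans h1.le
      have h2 := key (nm v) h0' v le_rfl
      have h3' := (hr₀ _ h0').2
      rw [one_mul, Real.rpow_one] at h3'
      have h4 := (abs_le.1 h2).1
      have h6 : c * nm v ≤ μ (tr v) := hμ.lb (tr v)
      rw [div_lt_iff₀ hc] at h1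
      linarith

theorem shape_one {μ : E d → ℝ} {c C : ℝ} (hμ : IsNm μ c C) {τ : Edge d → ℝ}
    (hτ : ∀ e, 0 ≤ τ e)
    (h : ∀ ε : ℝ, 0 < ε → ∀ᶠ r : ℝ in atTop, ∀ v : V d, nm v ≤ r →
      |pt τ 0 v - μ (tr v)| ≤ ε * r) :
    ∀ᶠ t : ℝ in atTop, (t - t ^ (1 : ℝ)) • limitShape (toRR μ) ⊆ wet τ t ∧
      wet τ t ⊆ (t + t ^ (1 : ℝ)) • limitShape (toRR μ) := by
  have hc : 0 < c := hμ.cpos
  obtain ⟨r₀, hr₀⟩ := eventually_atTop.1 (h (c / 8) (by positivity))
  filter_upwards [eventually_ge_atTop (1 : ℝ), eventually_ge_atTop (r₀ * c),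
    eventually_ge_atTop (pt τ 0 0), eventually_ge_atTop (|C|)] with t ht1 ht2 ht3 ht4
  have ht0 : 0 ≤ t := by linarith
  have h0 : r₀ ≤ 2 * t / c := by
    rw [le_div_iff₀ hc]
    linarith
  rw [Real.rpow_one, smul_limitShape hμ (by linarith), smul_limitShape hμ (by linarith)]
  refine ⟨?_, ?_⟩
  · intro x hx
    have hx' : μ (fun i => x i) ≤ t - t := hx
    have h1 := hμ.lb (fun i => x i)
    have h2 : ‖(fun i => x i : E d)‖ ≤ 0 := by
      by_contra hcon
      push Not at hcon
      have := mul_pos hc hcon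
      linarith
    have h3 : (fun i => x i : E d) = 0 := norm_le_zero_iff.1 h2
    refine ⟨0, ht3, fun i => ?_⟩
    have h4 : x i = 0 := congrFun h3 i
    rw [h4]
    simp
  · rintro x ⟨v, hv, hxv⟩
    have hcl := shapeA_close hμ hxv
    show μ (fun i => x i) ≤ t + t
    have h5 := (abs_le.1 hcl.1).2
    rcases le_or_gt (nm v) (2 * t / c) with h1 | h1
    · have h2 := hr₀ (2 * t / c) h0 v h1
      have h3 : c / 8 * (2 * t / c) = t / 4 := by field_simp; ring
      rw [h3] at h2
      have h4 := (abs_le.1 h2).1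
      linarith
    · exfalso
      have h0' : r₀ ≤ nm v := h0.trans h1.le
      have h2 := hr₀ (nm v) h0' v le_rfl
      have h4 := (abs_le.1 h2).1
      have h6 : c * nm v ≤ μ (tr v) := hμ.lb (tr v)
      rw [div_lt_iff₀ hc] at h1
      linarith

end FPPX
end

section

/-! Shifts and sub-sigma-algebras of a product space indexed by the lattice. -/

namespace FPPX

open MeasureTheory ProbabilityTheory Filter Set
open scoped Topology

variable {d : ℕ} {X : Type} [MeasurableSpace X]

/-- the information carried by the sites in `K` -/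
def FP (X : Type) [MeasurableSpace X] {d : ℕ} (K : Set (V d)) : MeasurableSpace (V d → X) :=
  ⨆ v ∈ K, MeasurableSpace.comap (fun ω : V d → X => ω v) inferInstance

/-- translation of the environment -/
def thP {X : Type} {d : ℕ} (x : V d) (ω : V d → X) : V d → X := fun v => ω (v + x)

theorem FP_le (K : Set (V d)) : FP X K ≤ MeasurableSpace.pi :=
  iSup₂_le fun v _ => (measurable_pi_apply v).comap_le

theorem FP_mono (K K' : Set (V d)) (h : K ⊆ K') : FP X K ≤ FP X K' :=
  iSup₂_le fun v hv => le_iSup₂_of_le (f := fun v (_ : v ∈ K') =>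
    MeasurableSpace.comap (fun ω : V d → X => ω v) inferInstance) v (h hv) le_rfl

theorem FP_shift (x : V d) (K : Set (V d)) (A : Set (V d → X)) (hA : MeasurableSet[FP X K] A) :
    MeasurableSet[FP X (sh x K)] (thP x ⁻¹' A) := by
  have h : FP X K ≤ (FP X (sh x K)).map (thP x) := by
    refine iSup₂_le fun v hv => ?_
    rintro _ ⟨B, hB, rfl⟩
    have hv' : v + x ∈ sh x K := by
      show v + x - x ∈ K
      rw [add_sub_cancel_right]
      exact hv
    have h2 : MeasurableSpace.comap (fun ω : V d → X => ω (v + x)) inferInstance ≤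
        FP X (sh x K) :=
      le_iSup₂_of_le (f := fun v (_ : v ∈ sh x K) =>
        MeasurableSpace.comap (fun ω : V d → X => ω v) inferInstance) (v + x) hv' le_rfl
    exact h2 _ ⟨B, hB, rfl⟩
  exact h A hA

theorem FP_indep (Λ : Measure X) [IsProbabilityMeasure Λ] (n : ℕ) (K : Fin n → Set (V d))
    (hK : ∀ i j, i ≠ j → Disjoint (K i) (K j)) :
    iIndep (fun i => FP X (K i)) (Measure.infinitePi (fun _ : V d => Λ)) := by
  classical
  have hI : iIndep (fun v : V d => MeasurableSpace.comap (fun ω : V d → X => ω v)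
      inferInstance) (Measure.infinitePi (fun _ : V d => Λ)) :=
    iIndepFun_infinitePi (P := fun _ : V d => Λ) (X := fun _ t => t) (fun _ => measurable_id)
  have hd : ∀ i j e, e ∈ K i → e ∈ K j → i = j := by
    intro i j e hi hj
    by_contra hne
    exact (Set.disjoint_left.1 (hK i j hne)) hi hj
  refine iIndepSets.iIndep (fun i => FP_le (K i))
    (fun i => piiUnionInter (fun e : V d => {s | MeasurableSet[MeasurableSpace.comap
      (fun ω : V d → X => ω e) inferInstance] s}) (K i))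
    (fun i => isPiSystem_piiUnionInter _ (fun e => @MeasurableSpace.isPiSystem_measurableSet _
      (MeasurableSpace.comap (fun ω : V d → X => ω e) inferInstance)) _)
    (fun i => (generateFrom_piiUnionInter_measurableSet _ _).symm) ?_
  rw [iIndepSets_iff]
  intro s f hf
  choose! t ht G hG hfG using hf
  set g : V d → Set (V d → X) := fun e =>
    if h : ∃ i ∈ s, e ∈ t i then G h.choose e else univ with hg
  have hgi : ∀ i ∈ s, ∀ e ∈ t i, g e = G i e := by
    intro i hi e he
    have h : ∃ i ∈ s, e ∈ t i := ⟨i, hi, he⟩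
    have h1 := h.choose_spec
    have h2 : h.choose = i := hd _ _ e (ht _ h1.1 h1.2) (ht _ hi he)
    simp only [hg]
    rw [dif_pos h, h2]
  have hgm : ∀ i ∈ s, ∀ e ∈ t i, MeasurableSet[MeasurableSpace.comap
      (fun ω : V d → X => ω e) inferInstance] (g e) := by
    intro i hi e he
    rw [hgi i hi e he]
    exact hG i hi e he
  have h1 : ∀ i ∈ s, f i = ⋂ e ∈ t i, g e := by
    intro i hi
    rw [hfG i hi]
    exact iInter₂_congr fun e he => (hgi i hi e he).symm
  have h2 : ⋂ i ∈ s, f i = ⋂ e ∈ s.biUnion t, g e := by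
    rw [Finset.set_biInter_biUnion]
    exact iInter₂_congr h1
  rw [h2, hI.meas_biInter, Finset.prod_biUnion]
  · refine Finset.prod_congr rfl fun i hi => ?_
    rw [h1 i hi, hI.meas_biInter]
    exact fun e he => hgm i hi e he
  · intro i hi j hj hij
    rw [Function.onFun, Finset.disjoint_left]
    intro e he he'
    exact hij (hd _ _ e (ht _ hi he) (ht _ hj he'))
  · intro e he
    obtain ⟨i, hi, he⟩ := Finset.mem_biUnion.1 he
    exact hgm i hi e he

theorem thP_mp (Λ : Measure X) [IsProbabilityMeasure Λ] (x : V d) :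
    MeasurePreserving (thP x) (Measure.infinitePi (fun _ : V d => Λ))
      (Measure.infinitePi (fun _ : V d => Λ)) := by
  classical
  have hm : Measurable (thP (X := X) (d := d) x) :=
    measurable_pi_lambda _ fun e => measurable_pi_apply _
  refine ⟨hm, Measure.eq_infinitePi _ fun s t ht => ?_⟩
  rw [Measure.map_apply hm (MeasurableSet.pi (Finset.countable_toSet s) fun e _ => ht e)]
  have h : thP x ⁻¹' (Set.pi s t) =
      Set.pi (s.image fun e : V d => e + x) (fun e => t (e - x)) := by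
    ext ω
    simp only [Set.mem_preimage, Set.mem_pi, Finset.mem_coe, Finset.mem_image]
    constructor
    · rintro h _ ⟨e, he, rfl⟩
      have := h e he
      simp only [thP] at this
      simpa using this
    · intro h e he
      have := h _ ⟨e, he, rfl⟩
      simp only [thP]
      simpa using this
  rw [h, Measure.infinitePi_pi _ (fun e _ => ht _), Finset.prod_image]
  · simp
  · intro e _ e' _ h
    exact add_right_cancel h

theorem FP_comap (K : Set (V d)) {v : V d} (hv : v ∈ K) {A : Set X} (hA : MeasurableSet A) :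
    MeasurableSet[FP X K] ((fun ω : V d → X => ω v) ⁻¹' A) := by
  have h2 : MeasurableSpace.comap (fun ω : V d → X => ω v) inferInstance ≤ FP X K :=
    le_iSup₂_of_le (f := fun v (_ : v ∈ K) =>
      MeasurableSpace.comap (fun ω : V d → X => ω v) inferInstance) v hv le_rfl
  exact h2 _ ⟨A, hA, rfl⟩

end FPPX
end

section

/-! Self-avoiding paths. -/

namespace FPPX

open MeasureTheory ProbabilityTheory Filter Set
open scoped Topology

variable {d : ℕ}

/-- loop erasure: an injective walk with the same end points -/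
private lemma walk_loop_erase (O : Set (V d)) (b : ℕ → V d) :
    ∀ k : ℕ, (∀ i ≤ k, b i ∈ O) → (∀ i < k, nm (b (i + 1) - b i) ≤ 1) →
    ∃ (m : ℕ) (c : ℕ → V d), c 0 = b 0 ∧ c m = b k ∧ (∀ i ≤ m, c i ∈ O) ∧
      (∀ i < m, nm (c (i + 1) - c i) ≤ 1) ∧ ∀ i ≤ m, ∀ j ≤ m, c i = c j → i = j := by
  intro k
  induction k with
  | zero =>
    intro hb _
    exact ⟨0, b, rfl, rfl, fun i hi => hb i hi, fun i hi => absurd hi (Nat.not_lt_zero i),
      fun i hi j hj _ => by omega⟩
  | succ k ih =>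
    intro hb hs
    obtain ⟨m, c, h0, hm, hO, hst, hinj⟩ :=
      ih (fun i hi => hb i (by omega)) (fun i hi => hs i (by omega))
    by_cases hex : ∃ i ≤ m, c i = b (k + 1)
    · obtain ⟨i, him, hi⟩ := hex
      exact ⟨i, c, h0, hi, fun j hj => hO j (by omega), fun j hj => hst j (by omega),
        fun j hj l hl h => hinj j (by omega) l (by omega) h⟩
    · push Not at hex
      refine ⟨m + 1, fun i => if i ≤ m then c i else b (k + 1), ?_, ?_, ?_, ?_, ?_⟩
      · simp [h0]
      · simp
      · intro i hi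
        by_cases h : i ≤ m
        · simp only [h, if_true]; exact hO i h
        · simp only [h, if_false]; exact hb (k + 1) le_rfl
      · intro i hi
        have him : i ≤ m := by omega
        by_cases h : i + 1 ≤ m
        · simp only [h, him, if_true]; exact hst i (by omega)
        · have hi' : i = m := by omega
          subst hi'
          simp only [h, le_refl, if_true, if_false]
          rw [hm]; exact hs k (by omega)
      · intro i hi j hj h
        by_cases hi1 : i ≤ m <;> by_cases hj1 : j ≤ m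
        · simp only [hi1, hj1, if_true] at h
          exact hinj i hi1 j hj1 h
        · simp only [hi1, hj1, if_true, if_false] at h
          exact absurd h (hex i hi1)
        · simp only [hi1, hj1, if_true, if_false] at h
          exact absurd h.symm (hex j hj1)
        · omega

/-- extracting a self-avoiding path from a walk -/
theorem walk_to_path (O : Set (V d)) (k : ℕ) (b : ℕ → V d) (hb : ∀ i ≤ k, b i ∈ O)
    (hs : ∀ i < k, nm (b (i + 1) - b i) ≤ 1) (n : ℕ) (hn : (n : ℝ) ≤ nm (b k - b 0)) :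
    ∃ c : ℕ → V d, c 0 = b 0 ∧ (∀ i ≤ n, c i ∈ O) ∧ (∀ i < n, nm (c (i + 1) - c i) ≤ 1) ∧
      ∀ i ≤ n, ∀ j ≤ n, c i = c j → i = j := by
  obtain ⟨m, c, h0, hm, hO, hst, hinj⟩ := walk_loop_erase O b k hb hs
  have hlen : ∀ i ≤ m, nm (c i - c 0) ≤ i := by
    intro i
    induction i with
    | zero => intro _; simp [nm_zero]
    | succ i ih =>
      intro hi
      have h1 := ih (by omega)
      have h2 := hst i (by omega)
      have h3 : c (i + 1) - c 0 = (c (i + 1) - c i) + (c i - c 0) := by abel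
      rw [h3]
      refine (nm_add _ _).trans ?_
      push_cast
      linarith
  have hnm : n ≤ m := by
    have h1 := hlen m le_rfl
    rw [hm, h0] at h1
    exact_mod_cast hn.trans h1
  exact ⟨c, h0, fun i hi => hO i (by omega), fun i hi => hst i (by omega),
    fun i hi j hj h => hinj i (by omega) j (by omega) h⟩

end FPPX
end

section

/-! Finite product Bernoulli probabilities as polynomials. -/

namespace FPPX

open MeasureTheory ProbabilityTheory Filter Set
open scoped Topology

/-- probability of the event `𝒜` when the elements of `E0` are kept with probability `p` -/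
noncomputable def prb {ι : Type} (E0 : Finset ι) (𝒜 : Set (Finset ι)) (p : ℝ) : ℝ :=
  ∑ A ∈ E0.powerset, 𝒜.indicator (fun A => p ^ A.card * (1 - p) ^ (E0.card - A.card)) A

variable {ι : Type} [DecidableEq ι]

omit [DecidableEq ι] in
theorem prb_congr (E0 : Finset ι) {𝒜 ℬ : Set (Finset ι)} (h : ∀ A ⊆ E0, (A ∈ 𝒜 ↔ A ∈ ℬ)) (p : ℝ) :
    prb E0 𝒜 p = prb E0 ℬ p := by
  unfold prb
  apply Finset.sum_congr rfl
  intro A hA
  rw [Finset.mem_powerset] at hA
  by_cases hm : A ∈ 𝒜
  · rw [Set.indicator_of_mem hm, Set.indicator_of_mem ((h A hA).mp hm)]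
  · rw [Set.indicator_of_notMem hm, Set.indicator_of_notMem (fun h' => hm ((h A hA).mpr h'))]

omit [DecidableEq ι] in
theorem prb_empty (𝒜 : Set (Finset ι)) (p : ℝ) :
    prb (∅ : Finset ι) 𝒜 p = 𝒜.indicator (fun _ => (1 : ℝ)) ∅ := by
  unfold prb
  rw [Finset.powerset_empty, Finset.sum_singleton]
  by_cases hm : (∅ : Finset ι) ∈ 𝒜
  · rw [Set.indicator_of_mem hm, Set.indicator_of_mem hm]
    simp
  · rw [Set.indicator_of_notMem hm, Set.indicator_of_notMem hm]

/-- the basic recursion -/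
theorem prb_insert {E : Finset ι} {e : ι} (he : e ∉ E) (𝒜 : Set (Finset ι)) (p : ℝ) :
    prb (insert e E) 𝒜 p = p * prb E {A | insert e A ∈ 𝒜} p + (1 - p) * prb E 𝒜 p := by
  unfold prb
  rw [Finset.sum_powerset_insert he, Finset.mul_sum, Finset.mul_sum, add_comm]
  congr 1
  · apply Finset.sum_congr rfl
    intro t ht
    rw [Finset.mem_powerset] at ht
    have het : e ∉ t := fun h => he (ht h)
    have hcard := Finset.card_le_card ht
    by_cases hm : insert e t ∈ 𝒜
    · rw [Set.indicator_of_mem hm, Set.indicator_of_mem (show t ∈ {A | insert e A ∈ 𝒜} from hm),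
        Finset.card_insert_of_notMem het, Finset.card_insert_of_notMem he]
      have : E.card + 1 - (t.card + 1) = E.card - t.card := by omega
      rw [this, pow_succ]
      ring
    · rw [Set.indicator_of_notMem hm,
        Set.indicator_of_notMem (show t ∉ {A | insert e A ∈ 𝒜} from hm), mul_zero]
  · apply Finset.sum_congr rfl
    intro t ht
    rw [Finset.mem_powerset] at ht
    have hcard := Finset.card_le_card ht
    by_cases hm : t ∈ 𝒜
    · rw [Set.indicator_of_mem hm, Set.indicator_of_mem hm, Finset.card_insert_of_notMem he]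
      have : E.card + 1 - t.card = (E.card - t.card) + 1 := by omega
      rw [this, pow_succ]
      ring
    · rw [Set.indicator_of_notMem hm, Set.indicator_of_notMem hm, mul_zero]

theorem prb_nonneg (E0 : Finset ι) (𝒜 : Set (Finset ι)) {p : ℝ} (h0 : 0 ≤ p) (h1 : p ≤ 1) :
    0 ≤ prb E0 𝒜 p := by
  unfold prb
  apply Finset.sum_nonneg
  intro A _
  apply Set.indicator_nonneg
  intro B _
  have : 0 ≤ 1 - p := by linarith
  positivity

theorem prb_univ (E0 : Finset ι) (p : ℝ) : prb E0 univ p = 1 := by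
  induction E0 using Finset.induction_on with
  | empty => rw [prb_empty]; simp
  | insert e E he ih =>
    rw [prb_insert he]
    have : {A : Finset ι | insert e A ∈ (univ : Set (Finset ι))} = univ := by
      ext A; simp
    rw [this, ih]
    ring

theorem prb_mono (E0 : Finset ι) (𝒜 ℬ : Set (Finset ι)) (h : ∀ A ⊆ E0, A ∈ 𝒜 → A ∈ ℬ) {p : ℝ}
    (h0 : 0 ≤ p) (h1 : p ≤ 1) : prb E0 𝒜 p ≤ prb E0 ℬ p := by
  unfold prb
  apply Finset.sum_le_sum
  intro A hA
  rw [Finset.mem_powerset] at hA
  have h2 : 0 ≤ 1 - p := by linarith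
  by_cases hm : A ∈ 𝒜
  · rw [Set.indicator_of_mem hm, Set.indicator_of_mem (h A hA hm)]
  · rw [Set.indicator_of_notMem hm]
    apply Set.indicator_nonneg
    intro B _
    positivity

theorem prb_compl (E0 : Finset ι) (𝒜 : Set (Finset ι)) (p : ℝ) :
    prb E0 𝒜ᶜ p = 1 - prb E0 𝒜 p := by
  have h1 : prb E0 𝒜ᶜ p + prb E0 𝒜 p = prb E0 univ p := by
    unfold prb
    rw [← Finset.sum_add_distrib]
    apply Finset.sum_congr rfl
    intro A _
    by_cases hm : A ∈ 𝒜
    · rw [Set.indicator_of_mem hm, Set.indicator_of_notMem (by simpa using hm)]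
      simp
    · rw [Set.indicator_of_notMem hm, Set.indicator_of_mem (by simpa using hm)]
      simp
  rw [prb_univ] at h1
  linarith

/-- union bound over a finite family -/
theorem prb_biUnion_le {κ : Type} (E0 : Finset ι) (S : Finset κ) (𝒜 : κ → Set (Finset ι)) {p : ℝ}
    (h0 : 0 ≤ p) (h1 : p ≤ 1) : prb E0 (⋃ k ∈ S, 𝒜 k) p ≤ ∑ k ∈ S, prb E0 (𝒜 k) p := by
  unfold prb
  rw [Finset.sum_comm]
  apply Finset.sum_le_sum
  intro A _
  have h2 : 0 ≤ 1 - p := by linarith
  have hnn : ∀ k, 0 ≤ (𝒜 k).indicator (fun A => p ^ A.card * (1 - p) ^ (E0.card - A.card)) A := by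
    intro k
    apply Set.indicator_nonneg
    intro B _
    positivity
  by_cases hm : A ∈ ⋃ k ∈ S, 𝒜 k
  · rw [Set.indicator_of_mem hm]
    simp only [Set.mem_iUnion, exists_prop] at hm
    obtain ⟨k, hk, hk2⟩ := hm
    refine le_trans (le_of_eq ?_) (Finset.single_le_sum (fun k _ => hnn k) hk)
    rw [Set.indicator_of_mem hk2]
  · rw [Set.indicator_of_notMem hm]
    exact Finset.sum_nonneg (fun k _ => hnn k)

/-- additivity over a finite disjoint family -/
theorem prb_biUnion {κ : Type} (E0 : Finset ι) (S : Finset κ) (𝒜 : κ → Set (Finset ι)) (p : ℝ)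
    (hd : ∀ i ∈ S, ∀ j ∈ S, i ≠ j → Disjoint (𝒜 i) (𝒜 j)) :
    prb E0 (⋃ k ∈ S, 𝒜 k) p = ∑ k ∈ S, prb E0 (𝒜 k) p := by
  unfold prb
  rw [Finset.sum_comm]
  apply Finset.sum_congr rfl
  intro A _
  by_cases hm : A ∈ ⋃ k ∈ S, 𝒜 k
  · rw [Set.indicator_of_mem hm]
    simp only [Set.mem_iUnion, exists_prop] at hm
    obtain ⟨k, hk, hk2⟩ := hm
    rw [Finset.sum_eq_single k]
    · rw [Set.indicator_of_mem hk2]
    · intro j hj hjk
      rw [Set.indicator_of_notMem]
      intro hj2
      exact Set.disjoint_left.mp (hd j hj k hk hjk) hj2 hk2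
    · intro h; exact absurd hk h
  · rw [Set.indicator_of_notMem hm]
    symm
    apply Finset.sum_eq_zero
    intro k hk
    rw [Set.indicator_of_notMem]
    intro hk2
    apply hm
    simp only [Set.mem_iUnion, exists_prop]
    exact ⟨k, hk, hk2⟩

/-- independence -/
theorem prb_prod (E1 E2 : Finset ι) (hd : Disjoint E1 E2) (𝒜 ℬ : Set (Finset ι)) (p : ℝ) :
    prb (E1 ∪ E2) {A | A ∩ E1 ∈ 𝒜 ∧ A ∩ E2 ∈ ℬ} p = prb E1 𝒜 p * prb E2 ℬ p := by
  induction E1 using Finset.induction_on generalizing 𝒜 with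
  | empty =>
    rw [Finset.empty_union, prb_empty]
    by_cases hm : (∅ : Finset ι) ∈ 𝒜
    · rw [Set.indicator_of_mem hm, one_mul]
      apply prb_congr
      intro A hA
      simp only [Finset.inter_empty, Set.mem_ofPred_eq, hm, true_and]
      rw [Finset.inter_eq_left.mpr hA]
    · rw [Set.indicator_of_notMem hm, zero_mul]
      have : prb E2 {A | A ∩ ∅ ∈ 𝒜 ∧ A ∩ E2 ∈ ℬ} p = prb E2 ∅ p := by
        apply prb_congr
        intro A _
        simp [hm]
      rw [this]
      unfold prb
      simp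
  | insert e E he ih =>
    rw [Finset.disjoint_insert_left] at hd
    have he2 : e ∉ E ∪ E2 := by
      rw [Finset.mem_union]
      rintro (h | h)
      · exact he h
      · exact hd.1 h
    rw [Finset.insert_union, prb_insert he2, prb_insert he, add_mul, mul_assoc, mul_assoc,
      ← ih hd.2, ← ih hd.2]
    congr 2
    · apply prb_congr
      intro A hA
      have h1 : insert e A ∩ insert e E = insert e (A ∩ E) := by
        rw [← Finset.insert_inter_distrib]
      have h2 : insert e A ∩ E2 = A ∩ E2 := Finset.insert_inter_of_notMem hd.1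
      simp only [Set.mem_ofPred_eq, h1, h2]
    · apply prb_congr
      intro A hA
      have h1 : A ∩ insert e E = A ∩ E := Finset.inter_insert_of_notMem (fun h => he2 (hA h))
      simp only [Set.mem_ofPred_eq, h1]

theorem prb_restrict (E0 E1 : Finset ι) (h : E1 ⊆ E0) (𝒜 : Set (Finset ι)) (p : ℝ) :
    prb E0 {A | A ∩ E1 ∈ 𝒜} p = prb E1 𝒜 p := by
  have h1 := prb_prod E1 (E0 \ E1) Finset.disjoint_sdiff 𝒜 univ p
  rw [prb_univ, mul_one, Finset.union_sdiff_of_subset h] at h1
  rw [← h1]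
  congr 1
  ext A
  simp

theorem prb_mem (E0 : Finset ι) (e : ι) (he : e ∈ E0) (p : ℝ) : prb E0 {A | e ∈ A} p = p := by
  have h1 := prb_restrict E0 {e} (Finset.singleton_subset_iff.mpr he) {B | e ∈ B} p
  have h2 : {A : Finset ι | A ∩ {e} ∈ {B : Finset ι | e ∈ B}} = {A | e ∈ A} := by
    ext A
    simp
  rw [h2] at h1
  rw [h1]
  have h3 : ({e} : Finset ι) = insert e ∅ := rfl
  rw [h3, prb_insert (Finset.notMem_empty e), prb_empty, prb_empty]
  simp

end FPPX
end

section

/-! Percolation in finite boxes. -/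

namespace FPPX

open MeasureTheory ProbabilityTheory Filter Set
open scoped Topology

variable {d : ℕ}

open Classical in
/-- edges with at least one endpoint in the box of radius `n` -/
noncomputable def Ebox (d n : ℕ) : Finset (Edge d) :=
  (((finite_bl (d := d) (n + 1 : ℝ)).toFinset ×ˢ (Finset.univ : Finset (Fin d))).filter
    (fun e => nm e.1 ≤ n ∨ nm (e.1 + Pi.single e.2 1) ≤ n))

theorem mem_Ebox (n : ℕ) (e : Edge d) :
    e ∈ Ebox d n ↔ nm e.1 ≤ n ∨ nm (e.1 + Pi.single e.2 1) ≤ n := by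
  classical
  unfold Ebox
  simp only [Finset.mem_filter, Finset.mem_product, Finite.mem_toFinset, mem_ofPred_eq,
    Finset.mem_univ, and_true, and_iff_right_iff_imp]
  rintro (h | h)
  · linarith
  · have h1 : nm ((e.1 + Pi.single e.2 1) - e.1) ≤ 1 := Joins.nm_le (e := e) (Or.inl ⟨rfl, rfl⟩)
    have h2 := nm_sub_le (e.1 + Pi.single e.2 1) ((e.1 + Pi.single e.2 1) - e.1)
    rw [sub_sub_cancel] at h2
    linarith

/-- the origin is connected to the outside of the box of radius `n` -/
def exitEv (d n : ℕ) : Set (Finset (Edge d)) :=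
  {A | ∃ v : V d, (n : ℝ) < nm v ∧ Conn (A : Set (Edge d)) 0 v}

/-- probability of being connected to the outside of the box -/
noncomputable def fex (d n : ℕ) (p : ℝ) : ℝ := prb (Ebox d n) (exitEv d n) p

open Classical in
/-- edges inside a finite set -/
noncomputable def Ein (S : Finset (V d)) : Finset (Edge d) :=
  (S ×ˢ (Finset.univ : Finset (Fin d))).filter (fun e => e.1 + Pi.single e.2 1 ∈ S)

theorem mem_Ein (S : Finset (V d)) (e : Edge d) :
    e ∈ Ein S ↔ e.1 ∈ S ∧ e.1 + Pi.single e.2 1 ∈ S := by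
  classical
  unfold Ein
  simp only [Finset.mem_filter, Finset.mem_product, Finset.mem_univ, and_true]

open Classical in
/-- boundary edges of a finite set -/
noncomputable def Ebd (S : Finset (V d)) : Finset (Edge d) :=
  ((S ×ˢ (Finset.univ : Finset (Fin d))).filter (fun e => e.1 + Pi.single e.2 1 ∉ S)) ∪
  ((S ×ˢ (Finset.univ : Finset (Fin d))).image (fun e => (e.1 - Pi.single e.2 1, e.2))).filter
    (fun e => e.1 ∉ S)

theorem mem_Ebd (S : Finset (V d)) (e : Edge d) :
    e ∈ Ebd S ↔ (e.1 ∈ S ∧ e.1 + Pi.single e.2 1 ∉ S) ∨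
      (e.1 ∉ S ∧ e.1 + Pi.single e.2 1 ∈ S) := by
  classical
  unfold Ebd
  simp only [Finset.mem_union, Finset.mem_filter, Finset.mem_product, Finset.mem_univ, and_true,
    Finset.mem_image, Prod.exists]
  constructor
  · rintro (h | ⟨⟨a, i, ha, rfl⟩, h2⟩)
    · exact Or.inl h
    · refine Or.inr ⟨h2, ?_⟩
      simpa using ha
  · rintro (h | ⟨h1, h2⟩)
    · exact Or.inl h
    · refine Or.inr ⟨⟨e.1 + Pi.single e.2 1, e.2, h2, ?_⟩, h1⟩
      ext1
      · simp
      · rfl

open Classical in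
/-- the inner endpoint of a boundary edge -/
noncomputable def inn (S : Finset (V d)) (e : Edge d) : V d :=
  if e.1 ∈ S then e.1 else e.1 + Pi.single e.2 1

open Classical in
/-- the outer endpoint of a boundary edge -/
noncomputable def out (S : Finset (V d)) (e : Edge d) : V d :=
  if e.1 ∈ S then e.1 + Pi.single e.2 1 else e.1

/-- the quantity of Duminil-Copin and Tassion -/
noncomputable def phi (S : Finset (V d)) (p : ℝ) : ℝ :=
  p * ∑ e ∈ Ebd S, prb (Ein S) {A | Conn (A : Set (Edge d)) 0 (inn S e)} p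

theorem exitEv_inc (n : ℕ) (A B : Finset (Edge d)) (h : A ⊆ B) (hA : A ∈ exitEv d n) :
    B ∈ exitEv d n := by
  obtain ⟨v, hv, l, hl, hlA⟩ := hA
  exact ⟨v, hv, l, hl, fun e he => Finset.mem_coe.mpr (h (Finset.mem_coe.mp (hlA e he)))⟩

theorem exit_restrict_aux (n : ℕ) (A : Set (Edge d)) (v : V d) (hv : (n : ℝ) < nm v)
    (l : List (Edge d)) (u : V d) (hu : nm u ≤ n) (h : IsPath u v l) (hA : ∀ e ∈ l, e ∈ A) :
    ∃ w : V d, (n : ℝ) < nm w ∧ Conn (A ∩ ↑(Ebox d n)) u w := by
  induction l generalizing u with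
  | nil =>
    have h' : u = v := h
    rw [h'] at hu
    linarith
  | cons e l ih =>
    obtain ⟨w, hj, hw⟩ := h
    have he : e ∈ Ebox d n := by
      rw [mem_Ebox]
      rcases hj with ⟨h1, -⟩ | ⟨-, h1⟩
      · left; rw [← h1]; exact hu
      · right; rw [← h1]; exact hu
    rcases lt_or_ge (n : ℝ) (nm w) with hn | hn
    · refine ⟨w, hn, [e], ⟨w, hj, rfl⟩, ?_⟩
      intro e' he'
      rw [List.mem_singleton] at he'
      subst he'
      exact ⟨hA _ List.mem_cons_self, he⟩
    · obtain ⟨w', hw', l', hl', hl''⟩ := ih w hn hw (fun e' he' => hA e' (List.mem_cons_of_mem _ he'))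
      refine ⟨w', hw', e :: l', ⟨w, hj, hl'⟩, ?_⟩
      intro e' he'
      rcases List.mem_cons.mp he' with rfl | h2
      · exact ⟨hA _ List.mem_cons_self, he⟩
      · exact hl'' e' h2

/-- the exit event only depends on the edges touching the box -/
theorem exit_restrict (n : ℕ) (A : Set (Edge d)) (v : V d) (hv : (n : ℝ) < nm v)
    (h : Conn A 0 v) : ∃ w : V d, (n : ℝ) < nm w ∧ Conn (A ∩ ↑(Ebox d n)) 0 w := by
  obtain ⟨l, hl, hlA⟩ := h
  refine exit_restrict_aux n A v hv l 0 ?_ hl hlA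
  rw [nm_zero]
  exact Nat.cast_nonneg n

end FPPX
end

section

/-! Russo's formula. -/

namespace FPPX

open MeasureTheory ProbabilityTheory Filter Set
open scoped Topology

variable {ι : Type} [DecidableEq ι]

omit [DecidableEq ι] in
theorem russo_sub (E : Finset ι) (𝒜 ℬ : Set (Finset ι)) (h : ∀ A ⊆ E, A ∈ ℬ → A ∈ 𝒜) (p : ℝ) :
    prb E {A | A ∈ 𝒜 ∧ A ∉ ℬ} p = prb E 𝒜 p - prb E ℬ p := by
  unfold prb
  rw [← Finset.sum_sub_distrib]
  apply Finset.sum_congr rfl
  intro A hA
  rw [Finset.mem_powerset] at hA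
  by_cases h1 : A ∈ 𝒜
  · by_cases h2 : A ∈ ℬ
    · rw [Set.indicator_of_mem h1, Set.indicator_of_mem h2,
        Set.indicator_of_notMem (fun h3 : A ∈ {A | A ∈ 𝒜 ∧ A ∉ ℬ} => h3.2 h2), sub_self]
    · rw [Set.indicator_of_mem h1, Set.indicator_of_notMem h2,
        Set.indicator_of_mem (show A ∈ {A | A ∈ 𝒜 ∧ A ∉ ℬ} from ⟨h1, h2⟩), sub_zero]
  · have h2 : A ∉ ℬ := fun h' => h1 (h A hA h')
    rw [Set.indicator_of_notMem h1, Set.indicator_of_notMem h2,
      Set.indicator_of_notMem (fun h3 : A ∈ {A | A ∈ 𝒜 ∧ A ∉ ℬ} => h1 h3.1), sub_self]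

/-- the probability that `e` is pivotal, in terms of the other elements -/
theorem russo_piv {E : Finset ι} {e : ι} (he : e ∉ E) (𝒜 : Set (Finset ι)) (p : ℝ) :
    prb (insert e E) {A | insert e A ∈ 𝒜 ∧ A.erase e ∉ 𝒜} p =
      prb E {A | insert e A ∈ 𝒜 ∧ A ∉ 𝒜} p := by
  rw [prb_insert he]
  have h1 : prb E {A | insert e A ∈ {A | insert e A ∈ 𝒜 ∧ A.erase e ∉ 𝒜}} p =
      prb E {A | insert e A ∈ 𝒜 ∧ A ∉ 𝒜} p := by
    apply prb_congr
    intro A hA
    have heA : e ∉ A := fun h => he (hA h)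
    simp only [Set.mem_ofPred_eq, Finset.insert_idem, Finset.erase_insert heA]
  have h2 : prb E {A | insert e A ∈ 𝒜 ∧ A.erase e ∉ 𝒜} p =
      prb E {A | insert e A ∈ 𝒜 ∧ A ∉ 𝒜} p := by
    apply prb_congr
    intro A hA
    have heA : e ∉ A := fun h => he (hA h)
    simp only [Set.mem_ofPred_eq, Finset.erase_eq_of_notMem heA]
  rw [h1, h2]
  ring

theorem russo_inc {𝒜 : Set (Finset ι)} (hinc : ∀ A B : Finset ι, A ⊆ B → A ∈ 𝒜 → B ∈ 𝒜) (e : ι) :
    ∀ A B : Finset ι, A ⊆ B → A ∈ {A | insert e A ∈ 𝒜} → B ∈ {A | insert e A ∈ 𝒜} :=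
  fun A B hAB hA => hinc (insert e A) (insert e B) (Finset.insert_subset_insert e hAB) hA

theorem prb_hasDerivAt (E0 : Finset ι) (𝒜 : Set (Finset ι))
    (hinc : ∀ A B : Finset ι, A ⊆ B → A ∈ 𝒜 → B ∈ 𝒜) (p : ℝ) :
    HasDerivAt (prb E0 𝒜)
      (∑ e ∈ E0, prb E0 {A | insert e A ∈ 𝒜 ∧ A.erase e ∉ 𝒜} p) p := by
  induction E0 using Finset.induction_on generalizing 𝒜 with
  | empty =>
    have h1 : prb (∅ : Finset ι) 𝒜 = fun _ => 𝒜.indicator (fun _ => (1 : ℝ)) ∅ := by
      funext q
      exact prb_empty 𝒜 q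
    rw [h1, Finset.sum_empty]
    exact hasDerivAt_const _ _
  | insert e0 E he ih =>
    have h1 : prb (insert e0 E) 𝒜 = fun q => q * prb E {A | insert e0 A ∈ 𝒜} q +
        (1 - q) * prb E 𝒜 q := by
      funext q
      exact prb_insert he 𝒜 q
    have h2 := ih {A | insert e0 A ∈ 𝒜} (russo_inc hinc e0)
    have h3 := ih 𝒜 hinc
    have h4 := ((hasDerivAt_id p).mul h2).add (((hasDerivAt_const p (1 : ℝ)).sub
      (hasDerivAt_id p)).mul h3)
    rw [h1]
    refine h4.congr_deriv ?_
    rw [Finset.sum_insert he, russo_piv he]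
    have h5 : prb E {A | insert e0 A ∈ 𝒜 ∧ A ∉ 𝒜} p =
        prb E {A | insert e0 A ∈ 𝒜} p - prb E 𝒜 p :=
      russo_sub E {A | insert e0 A ∈ 𝒜} 𝒜
        (fun A _ hA => hinc A (insert e0 A) (Finset.subset_insert e0 A) hA) p
    have h6 : ∑ e ∈ E, prb (insert e0 E) {A | insert e A ∈ 𝒜 ∧ A.erase e ∉ 𝒜} p =
        p * (∑ e ∈ E, prb E {A | insert e A ∈ {A | insert e0 A ∈ 𝒜} ∧
          A.erase e ∉ {A | insert e0 A ∈ 𝒜}} p) +
        (1 - p) * ∑ e ∈ E, prb E {A | insert e A ∈ 𝒜 ∧ A.erase e ∉ 𝒜} p := by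
      rw [Finset.mul_sum, Finset.mul_sum, ← Finset.sum_add_distrib]
      apply Finset.sum_congr rfl
      intro e heE
      have hne : e0 ≠ e := fun h => he (h ▸ heE)
      rw [prb_insert he]
      congr 2
      apply prb_congr
      intro A _
      simp only [Set.mem_ofPred_eq]
      rw [Finset.insert_comm e e0 A, Finset.erase_insert_of_ne hne]
    rw [h5, h6]
    simp only [id, Pi.sub_apply]
    ring

theorem prb_mono_p (E0 : Finset ι) (𝒜 : Set (Finset ι))
    (hinc : ∀ A B : Finset ι, A ⊆ B → A ∈ 𝒜 → B ∈ 𝒜) {p q : ℝ} (hp : 0 ≤ p) (hpq : p ≤ q)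
    (hq : q ≤ 1) : prb E0 𝒜 p ≤ prb E0 𝒜 q := by
  induction E0 using Finset.induction_on generalizing 𝒜 with
  | empty => rw [prb_empty, prb_empty]
  | insert e0 E he ih =>
    rw [prb_insert he, prb_insert he]
    have h2 := ih {A | insert e0 A ∈ 𝒜} (russo_inc hinc e0)
    have h3 := ih 𝒜 hinc
    have h4 : prb E 𝒜 q ≤ prb E {A | insert e0 A ∈ 𝒜} q :=
      prb_mono E 𝒜 _ (fun A _ hA => hinc A (insert e0 A) (Finset.subset_insert e0 A) hA)
        (hp.trans hpq) hq
    have h5 := mul_le_mul_of_nonneg_left h2 hp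
    have h6 := mul_le_mul_of_nonneg_left h3 (by linarith : 0 ≤ 1 - p)
    have h7 := mul_nonneg (by linarith : 0 ≤ q - p) (sub_nonneg.mpr h4)
    nlinarith

/-- the state of a pivotal element is independent of its being pivotal -/
theorem prb_pivotal (E0 : Finset ι) (𝒜 : Set (Finset ι)) (e : ι) (he : e ∈ E0) (p : ℝ) :
    prb E0 {A | (insert e A ∈ 𝒜 ∧ A.erase e ∉ 𝒜) ∧ A ∉ 𝒜} p =
      (1 - p) * prb E0 {A | insert e A ∈ 𝒜 ∧ A.erase e ∉ 𝒜} p := by
  have hE : E0 = insert e (E0.erase e) := (Finset.insert_erase he).symm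
  have hne : e ∉ E0.erase e := Finset.notMem_erase e E0
  rw [hE, russo_piv hne, prb_insert hne]
  have h1 : prb (E0.erase e) {A | insert e A ∈
      {A | (insert e A ∈ 𝒜 ∧ A.erase e ∉ 𝒜) ∧ A ∉ 𝒜}} p = 0 := by
    have : prb (E0.erase e) {A | insert e A ∈
        {A | (insert e A ∈ 𝒜 ∧ A.erase e ∉ 𝒜) ∧ A ∉ 𝒜}} p = prb (E0.erase e) ∅ p := by
      apply prb_congr
      intro A _
      simp only [Set.mem_ofPred_eq, Finset.insert_idem, Set.mem_empty_iff_false, iff_false]
      rintro ⟨⟨h2, -⟩, h3⟩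
      exact h3 h2
    rw [this]
    unfold prb
    simp
  have h2 : prb (E0.erase e) {A | (insert e A ∈ 𝒜 ∧ A.erase e ∉ 𝒜) ∧ A ∉ 𝒜} p =
      prb (E0.erase e) {A | insert e A ∈ 𝒜 ∧ A ∉ 𝒜} p := by
    apply prb_congr
    intro A hA
    have heA : e ∉ A := fun h => hne (hA h)
    simp only [Set.mem_ofPred_eq, Finset.erase_eq_of_notMem heA]
    tauto
  rw [h1, h2]
  ring

end FPPX
end

section

/-! Finite volume probabilities and the infinite volume measure. -/

namespace FPPX

open MeasureTheory ProbabilityTheory Filter Set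
open scoped Topology

variable {d : ℕ}

lemma measurableSet_cyl (E0 B : Finset (Edge d)) :
    MeasurableSet {A : Set (Edge d) | (B : Set (Edge d)) = A ∩ ↑E0} := by
  have h : {A : Set (Edge d) | (B : Set (Edge d)) = A ∩ ↑E0} =
      ⋂ e : Edge d, {A : Set (Edge d) | e ∈ B ↔ (e ∈ A ∧ e ∈ E0)} := by
    ext A
    simp only [mem_ofPred_eq, mem_iInter]
    constructor
    · intro h e
      have h1 : e ∈ (B : Set (Edge d)) ↔ e ∈ A ∩ ↑E0 := by rw [h]
      simpa using h1
    · intro h
      ext e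
      simpa using h e
  rw [h]
  refine MeasurableSet.iInter fun e => ?_
  by_cases h1 : e ∈ B <;> by_cases h2 : e ∈ E0
  · simpa [h1, h2] using measurableSet_mem e
  · simp [h1, h2]
  · have : {A : Set (Edge d) | e ∈ B ↔ (e ∈ A ∧ e ∈ E0)} = {A : Set (Edge d) | e ∈ A}ᶜ := by
      ext A; simp [h1, h2]
    rw [this]
    exact (measurableSet_mem e).compl
  · simp [h1, h2]

lemma setBer_cyl (E0 B : Finset (Edge d)) (hB : B ⊆ E0) (p : unitInterval) :
    (setBernoulli (Set.univ : Set (Edge d)) p).real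
      {A | (B : Set (Edge d)) = A ∩ ↑E0} =
      (p : ℝ) ^ B.card * (1 - (p : ℝ)) ^ (E0.card - B.card) := by
  classical
  have h : ((fun q : Edge d → Prop ↦ {i | q i}) ⁻¹'
      {A : Set (Edge d) | (B : Set (Edge d)) = A ∩ ↑E0}) =
      Set.pi (E0 : Set (Edge d)) (fun i => {q : Prop | q ↔ i ∈ B}) := by
    ext q
    simp only [mem_preimage, mem_ofPred_eq, Set.mem_pi, Finset.mem_coe]
    constructor
    · intro h i hi
      have h1 : i ∈ (B : Set (Edge d)) ↔ i ∈ {i | q i} ∩ (E0 : Set (Edge d)) := by rw [h]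
      simp only [Finset.mem_coe, mem_inter_iff, mem_ofPred_eq, hi, and_true] at h1
      exact h1.symm
    · intro h
      ext i
      simp only [Finset.mem_coe, mem_inter_iff, mem_ofPred_eq]
      constructor
      · intro hi
        exact ⟨(h i (hB hi)).mpr hi, hB hi⟩
      · rintro ⟨h1, h2⟩
        exact (h i h2).mp h1
  have hpi := Measure.infinitePi_pi (X := fun _ : Edge d => Prop)
    (μ := fun i : Edge d => (unitInterval.toNNReal p •
      Measure.dirac (i ∈ (Set.univ : Set (Edge d))) +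
      unitInterval.toNNReal (unitInterval.symm p) • Measure.dirac False : Measure Prop))
    (s := E0) (t := fun i => {q : Prop | q ↔ i ∈ B}) (fun i _ => MeasurableSet.of_discrete)
  rw [measureReal_def, setBernoulli_apply', h, hpi]
  have h2 : ∀ i ∈ E0, ((unitInterval.toNNReal p • Measure.dirac (i ∈ (Set.univ : Set (Edge d))) +
      unitInterval.toNNReal (unitInterval.symm p) • Measure.dirac False : Measure Prop)
        {q : Prop | q ↔ i ∈ B}) =
      if i ∈ B then (unitInterval.toNNReal p : ENNReal)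
        else (unitInterval.toNNReal (unitInterval.symm p) : ENNReal) := by
    intro i _
    by_cases hi : i ∈ B
    · simp [hi]
    · simp [hi]
  rw [Finset.prod_congr rfl h2, Finset.prod_ite, Finset.prod_const, Finset.prod_const]
  have h3 : E0.filter (fun i => i ∈ B) = B := by
    ext i; simp only [Finset.mem_filter]; exact ⟨fun h => h.2, fun h => ⟨hB h, h⟩⟩
  have h4 : (E0.filter (fun i => ¬ i ∈ B)).card = E0.card - B.card := by
    rw [← Finset.sdiff_eq_filter, Finset.card_sdiff_of_subset hB]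
  rw [h3, h4, ENNReal.toReal_mul, ENNReal.toReal_pow, ENNReal.toReal_pow]
  simp

/-- probabilities of local events under the infinite Bernoulli measure -/
theorem setBer_local (E0 : Finset (Edge d)) (𝒜 : Set (Finset (Edge d))) (p : unitInterval) :
    (setBernoulli (Set.univ : Set (Edge d)) p).real
      {A | ∃ B ∈ 𝒜, (B : Set (Edge d)) = A ∩ ↑E0} = prb E0 𝒜 p := by
  classical
  have h : {A : Set (Edge d) | ∃ B ∈ 𝒜, (B : Set (Edge d)) = A ∩ ↑E0} =
      ⋃ B ∈ E0.powerset.filter (fun B => B ∈ 𝒜),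
        {A : Set (Edge d) | (B : Set (Edge d)) = A ∩ ↑E0} := by
    ext A
    simp only [mem_ofPred_eq, mem_iUnion, Finset.mem_filter, Finset.mem_powerset, exists_prop]
    constructor
    · rintro ⟨B, h1, h2⟩
      refine ⟨B, ⟨?_, h1⟩, h2⟩
      intro e he
      have : e ∈ (B : Set (Edge d)) := he
      rw [h2] at this
      exact this.2
    · rintro ⟨B, ⟨_, h1⟩, h2⟩
      exact ⟨B, h1, h2⟩
  rw [h, measureReal_biUnion_finset]
  · unfold prb
    rw [Finset.sum_filter]
    refine Finset.sum_congr rfl fun B hB => ?_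
    by_cases h1 : B ∈ 𝒜
    · rw [if_pos h1, indicator_of_mem h1, setBer_cyl E0 B (Finset.mem_powerset.mp hB) p]
    · rw [if_neg h1, indicator_of_notMem h1]
  · intro B _ C _ hBC
    rw [Function.onFun, Set.disjoint_left]
    intro A h1 h2
    simp only [mem_ofPred_eq] at h1 h2
    apply hBC
    exact_mod_cast h1.trans h2.symm
  · intro B _
    exact measurableSet_cyl E0 B

lemma measurableSet_local (E0 : Finset (Edge d)) (𝒜 : Set (Finset (Edge d))) :
    MeasurableSet {A : Set (Edge d) | ∃ B ∈ 𝒜, (B : Set (Edge d)) = A ∩ ↑E0} := by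
  have h : {A : Set (Edge d) | ∃ B ∈ 𝒜, (B : Set (Edge d)) = A ∩ ↑E0} =
      ⋃ B ∈ 𝒜, {A : Set (Edge d) | (B : Set (Edge d)) = A ∩ ↑E0} := by
    ext A
    simp
  rw [h]
  exact MeasurableSet.biUnion (Set.to_countable _) fun B _ => measurableSet_cyl E0 B

lemma Conn_mono {A B : Set (Edge d)} (h : A ⊆ B) {u v : V d} (hc : Conn A u v) : Conn B u v := by
  obtain ⟨l, h1, h2⟩ := hc
  exact ⟨l, h1, fun e he => h (h2 e he)⟩

lemma exit_eq (n : ℕ) : {A : Set (Edge d) | ∃ v : V d, (n : ℝ) < nm v ∧ Conn A 0 v} =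
    {A | ∃ B ∈ exitEv d n, (B : Set (Edge d)) = A ∩ ↑(Ebox d n)} := by
  classical
  ext A
  simp only [mem_ofPred_eq]
  constructor
  · rintro ⟨v, hv, hc⟩
    obtain ⟨w, hw, hc'⟩ := exit_restrict n A v hv hc
    refine ⟨(Ebox d n).filter (fun e => e ∈ A), ⟨w, hw, ?_⟩, ?_⟩
    · have h1 : (((Ebox d n).filter (fun e => e ∈ A) : Finset (Edge d)) : Set (Edge d)) =
          A ∩ ↑(Ebox d n) := by
        ext e; simp [and_comm]
      rw [h1]; exact hc'
    · ext e; simp [and_comm]
  · rintro ⟨B, ⟨v, hv, hc⟩, h⟩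
    refine ⟨v, hv, ?_⟩
    rw [h] at hc
    exact Conn_mono inter_subset_left hc

lemma cluster_infinite_iff (A : Set (Edge d)) :
    (cluster A 0).Infinite ↔ ∀ n : ℕ, ∃ v : V d, (n : ℝ) < nm v ∧ Conn A 0 v := by
  constructor
  · intro h n
    by_contra hcon
    push Not at hcon
    apply h
    refine (finite_bl (d := d) (n : ℝ)).subset ?_
    intro v hv
    by_contra h2
    simp only [mem_ofPred_eq, not_le] at h2
    exact hcon v h2 hv
  · intro h hf
    obtain ⟨M, hM⟩ := (hf.image nm).bddAbove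
    obtain ⟨n, hn⟩ := exists_nat_ge M
    obtain ⟨v, hv, hc⟩ := h n
    have := hM (mem_image_of_mem nm (show v ∈ cluster A 0 from hc))
    linarith

/-- if the exit probabilities are bounded below, then the origin percolates -/
theorem theta_ge (p : unitInterval) (c : ℝ) (h : ∀ n, c ≤ fex d n p) : c ≤ percTheta d p := by
  set μ := setBernoulli (Set.univ : Set (Edge d)) p with hμ
  set G : ℕ → Set (Set (Edge d)) :=
    fun n => {A : Set (Edge d) | ∃ v : V d, (n : ℝ) < nm v ∧ Conn A 0 v} with hG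
  have hmeas : ∀ n, MeasurableSet (G n) := by
    intro n
    rw [hG]
    simp only
    rw [exit_eq]
    exact measurableSet_local _ _
  have hanti : Antitone G := by
    intro m n hmn A
    rintro ⟨v, hv, hc⟩
    refine ⟨v, lt_of_le_of_lt ?_ hv, hc⟩
    exact_mod_cast hmn
  have ht : Tendsto (μ ∘ G) atTop (𝓝 (μ (⋂ n, G n))) :=
    tendsto_measure_iInter_atTop (fun n => (hmeas n).nullMeasurableSet) hanti
      ⟨0, measure_ne_top _ _⟩
  have ht2 : Tendsto (fun n => μ.real (G n)) atTop (𝓝 (μ.real (⋂ n, G n))) := by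
    have := (ENNReal.tendsto_toReal (measure_ne_top μ (⋂ n, G n))).comp ht
    exact this
  have h3 : {A : Set (Edge d) | (cluster A 0).Infinite} = ⋂ n, G n := by
    ext A
    simp only [mem_ofPred_eq, mem_iInter]
    exact cluster_infinite_iff A
  unfold percTheta
  rw [h3]
  refine ge_of_tendsto' ht2 fun n => ?_
  have h4 : μ.real (G n) = fex d n p := by
    rw [hG, hμ]
    simp only
    rw [exit_eq, setBer_local]
    rfl
  rw [h4]
  exact h n

theorem theta_one (hd : 1 ≤ d) : percTheta d 1 = 1 := by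
  have : Nonempty (Fin d) := ⟨⟨0, hd⟩⟩
  unfold percTheta
  rw [setBernoulli_one, measureReal_def, Measure.dirac_apply_of_mem]
  · simp
  · show (cluster (Set.univ : Set (Edge d)) 0).Infinite
    have h1 : cluster (Set.univ : Set (Edge d)) 0 = Set.univ := by
      ext v
      simp only [mem_univ, iff_true]
      obtain ⟨l, hl⟩ := exists_path (0 : V d) v
      exact ⟨l, hl, fun e _ => mem_univ e⟩
    rw [h1]
    exact Set.infinite_univ

end FPPX
end
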