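import Pool.Agent.Lib.MP_fa364e_pr.Poi.Model
import Pool.Agent.Lib.MP_fa364e_pr.Core.Lat
import Pool.Agent.Lib.MP_fa364e_pr.Mg.G014

section

/-! Euclidean first-passage percolation: internal definitions. -/

namespace FPPX

open MeasureTheory ProbabilityTheory Filter Set
open scoped Topology

variable {d : ℕ}

/-- lattice points as points of Euclidean space -/
noncomputable def emb {d : ℕ} (v : Fin d → ℤ) : RR d := WithLp.toLp 2 (fun i => (v i : ℝ))

/-- the index of the dyadic box of level `m` (side `2 ^ (-m)`) containing `x` -/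
noncomputable def dix {d : ℕ} (m : ℕ) (x : RR d) : Fin d → ℤ :=
  fun i => ⌊(x i + 1 / 2) * 2 ^ m⌋

/-- dyadic boxes -/
def dbox {d : ℕ} (m : ℕ) (b : Fin d → ℤ) : Set (RR d) := {x | dix m x = b}

/-- the (unit) cell containing the box `b` of level `m` -/
def cel {d : ℕ} (m : ℕ) (b : Fin d → ℤ) : Fin d → ℤ := fun i => b i / 2 ^ m

/-- the position of the box `b` of level `m` relative to its cell -/
def rel {d : ℕ} (m : ℕ) (b : Fin d → ℤ) : Fin d → Fin (2 ^ m) :=
  fun i => ⟨(b i % 2 ^ m).toNat, by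
    have h1 : (0 : ℤ) < 2 ^ m := by positivity
    have h2 := Int.emod_lt_of_pos (b i) h1
    have h3 := Int.emod_nonneg (b i) h1.ne'
    zify
    rw [Int.toNat_of_nonneg h3]
    exact h2⟩

/-- configurations of particles in a cell (only the particles in the unit cell around the origin
matter) -/
structure Cfg (d : ℕ) where
  pts : Set (RR d)

/-- number of particles in a box of level `m` inside the unit cell around the origin -/
noncomputable def Cfg.cnt {d : ℕ} (m : ℕ) (k : Fin d → Fin (2 ^ m)) (S : Cfg d) : ℕ∞ :=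
  (S.pts ∩ dbox m (fun i => ((k i : ℕ) : ℤ))).encard

noncomputable instance Cfg.instMeasurableSpace (d : ℕ) : MeasurableSpace (Cfg d) :=
  ⨆ (m : ℕ) (k : Fin d → Fin (2 ^ m)), MeasurableSpace.comap (Cfg.cnt m k) ⊤

/-- environments: one configuration for every cell -/
abbrev Env (d : ℕ) := (Fin d → ℤ) → Cfg d

/-- the particles of an environment -/
def parts {d : ℕ} (ω : Env d) : Set (RR d) := {x | x - emb (latt x) ∈ (ω (latt x)).pts}

/-- the environment of a set of particles -/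
def can {d : ℕ} (S : Set (RR d)) : Env d := fun v => ⟨{y | y + emb v ∈ S}⟩

/-- union of the cells of `K` -/
def hat {d : ℕ} (K : Set (Fin d → ℤ)) : Set (RR d) := {x | latt x ∈ K}

/-- the law of the particles in one cell -/
structure IsCellLaw {d : ℕ} (Λ : Measure (Cfg d)) : Prop where
  prob : IsProbabilityMeasure Λ
  law : ∀ (m : ℕ) (k : Fin d → Fin (2 ^ m)) (n : ℕ), Λ.real {S | S.cnt m k = n} =
    Real.exp (-((2 : ℝ) ^ (m * d))⁻¹) * (((2 : ℝ) ^ (m * d))⁻¹) ^ n / (n.factorial : ℝ)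
  indep : ∀ m : ℕ, iIndepFun (fun (k : Fin d → Fin (2 ^ m)) (S : Cfg d) => S.cnt m k) Λ

/-- the canonical law -/
noncomputable abbrev PP {d : ℕ} (Λ : Measure (Cfg d)) : Measure (Env d) :=
  Measure.infinitePi (fun _ : Fin d → ℤ => Λ)

/-- there is a chain of points of `S` from `p` to `q` of total cost `c` -/
def Wk {d : ℕ} (α : ℝ) (S : Set (RR d)) (p q : RR d) (c : ℝ) : Prop :=
  ∃ (k : ℕ) (x : ℕ → RR d), (∀ i ≤ k, x i ∈ S) ∧ x 0 = p ∧ x k = q ∧
    c = ∑ i ∈ Finset.range k, ‖x i - x (i + 1)‖ ^ α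

/-- there is a chain of points of `S` from `p` to `q` of total cost `c`, with jumps at most
`h` -/
def Wh {d : ℕ} (α : ℝ) (S : Set (RR d)) (h : ℝ) (p q : RR d) (c : ℝ) : Prop :=
  ∃ (k : ℕ) (x : ℕ → RR d), (∀ i ≤ k, x i ∈ S) ∧ x 0 = p ∧ x k = q ∧
    (∀ i < k, ‖x i - x (i + 1)‖ ≤ h) ∧ c = ∑ i ∈ Finset.range k, ‖x i - x (i + 1)‖ ^ α

/-- the stationary pseudometric on lattice points -/
noncomputable def tP {d : ℕ} (α : ℝ) (S : Set (RR d)) (u v : Fin d → ℤ) : ℝ :=
  if u = v then 0 else sInf {s | ∃ p q c, Wk α S p q c ∧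
    s = (2 * ‖p - emb u‖) ^ α + c + (2 * ‖q - emb v‖) ^ α}

/-- local events -/
def LEP {d : ℕ} (α : ℝ) (K : Set (Fin d → ℤ)) (u v : Fin d → ℤ) (s : ℝ) : Set (Env d) :=
  {ω | (u = v ∧ 0 ≤ s) ∨ ∃ p q c, Wk α (parts ω ∩ hat K) p q c ∧
    (2 * ‖p - emb u‖) ^ α + c + (2 * ‖q - emb v‖) ^ α < s}

/-- the cell of `v` contains a particle -/
def occ {d : ℕ} (ω : Env d) (v : Fin d → ℤ) : Prop := (parts ω ∩ dbox 0 v).Nonempty

end FPPX
end

section

/-! The embedding of the lattice. -/

namespace FPPX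

open MeasureTheory ProbabilityTheory Filter Set
open scoped Topology

variable {d : ℕ}

lemma emb_apply (v : V d) (i : Fin d) : emb v i = (v i : ℝ) := rfl

lemma emb_zero : emb (0 : V d) = 0 := by
  ext i
  rw [emb_apply]
  simp

lemma emb_add (u v : V d) : emb (u + v) = emb u + emb v := by
  ext i
  rw [PiLp.add_apply, emb_apply, emb_apply, emb_apply]
  simp

lemma emb_sub (u v : V d) : emb (u - v) = emb u - emb v := by
  ext i
  rw [PiLp.sub_apply, emb_apply, emb_apply, emb_apply]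
  simp

private lemma boxA_abs_apply_le (x : RR d) (i : Fin d) : |x i| ≤ ‖x‖ := by
  have := PiLp.norm_apply_le x i
  rwa [Real.norm_eq_abs] at this

private lemma boxA_norm_le (x : RR d) (M : ℝ) (hM : 0 ≤ M) (h : ∀ i, |x i| ≤ M) :
    ‖x‖ ≤ d * M := by
  rw [EuclideanSpace.norm_eq]
  refine Real.sqrt_le_iff.2 ⟨by positivity, ?_⟩
  have h1 : ∑ i, ‖x i‖ ^ 2 ≤ ∑ _i : Fin d, M ^ 2 :=
    Finset.sum_le_sum fun i _ => pow_le_pow_left₀ (norm_nonneg _) (h i) 2
  rw [Finset.sum_const, Finset.card_univ, Fintype.card_fin, nsmul_eq_mul] at h1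
  refine h1.trans ?_
  rw [mul_pow]
  refine mul_le_mul_of_nonneg_right ?_ (by positivity)
  rcases Nat.eq_zero_or_pos d with h0 | h0
  · subst h0
    simp
  · have : (1 : ℝ) ≤ d := by exact_mod_cast h0
    nlinarith

lemma nm_le_norm_emb (v : V d) : nm v ≤ ‖emb v‖ := by
  unfold nm
  rw [pi_norm_le_iff_of_nonneg (norm_nonneg _)]
  intro i
  rw [Real.norm_eq_abs]
  exact boxA_abs_apply_le (emb v) i

lemma norm_emb_le (v : V d) : ‖emb v‖ ≤ d * nm v := by
  refine boxA_norm_le _ _ (nm_nonneg v) fun i => ?_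
  have := norm_le_pi_norm (tr v) i
  rwa [Real.norm_eq_abs] at this

lemma latt_emb (v : V d) : latt (emb v) = v := by
  funext i
  simp [latt, emb_apply]

lemma latt_add_emb (x : RR d) (v : V d) : latt (x + emb v) = latt x + v := by
  funext i
  simp only [latt, Pi.add_apply, PiLp.add_apply, emb_apply]
  exact round_add_intCast _ _

lemma norm_sub_emb_latt (x : RR d) : ‖x - emb (latt x)‖ ≤ d / 2 := by
  have := boxA_norm_le (x - emb (latt x)) (1 / 2) (by norm_num) fun i => by
    rw [PiLp.sub_apply, emb_apply]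
    exact abs_sub_round (x i)
  linarith

lemma nm_latt_sub (x y : RR d) : nm (latt x - latt y) ≤ ‖x - y‖ + 1 := by
  unfold nm
  rw [pi_norm_le_iff_of_nonneg (by positivity)]
  intro i
  rw [Real.norm_eq_abs]
  have h1 := abs_sub_round (x i)
  have h2 := abs_sub_round (y i)
  have h3 := boxA_abs_apply_le (x - y) i
  rw [PiLp.sub_apply] at h3
  have h4 : tr (latt x - latt y) i = (round (x i) : ℝ) - (round (y i) : ℝ) := by
    simp [tr, latt]
  rw [h4]
  rw [abs_le] at h1 h2 h3 ⊢
  constructor <;> linarith [h1.1, h1.2, h2.1, h2.2, h3.1, h3.2]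

lemma nm_latt_le (x : RR d) : nm (latt x) ≤ ‖x‖ + 1 / 2 := by
  unfold nm
  rw [pi_norm_le_iff_of_nonneg (by positivity)]
  intro i
  rw [Real.norm_eq_abs]
  have h1 := abs_sub_round (x i)
  have h3 := boxA_abs_apply_le x i
  have h4 : tr (latt x) i = (round (x i) : ℝ) := rfl
  rw [h4]
  rw [abs_le] at h1 h3 ⊢
  constructor <;> linarith [h1.1, h1.2, h3.1, h3.2]

end FPPX
end

section

/-! Dyadic boxes. -/

namespace FPPX

open MeasureTheory ProbabilityTheory Filter Set
open scoped Topology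

variable {d : ℕ}

private lemma box_floor_mul_div (y : ℝ) (k : ℤ) (hk : 0 < k) : ⌊y * k⌋ / k = ⌊y⌋ := by
  have hk' : (0 : ℝ) < k := by exact_mod_cast hk
  apply le_antisymm
  · rw [Int.le_floor]
    have h1 : ⌊y * k⌋ / k * k ≤ ⌊y * k⌋ := Int.ediv_mul_le _ hk.ne'
    have h2 : ((⌊y * k⌋ / k * k : ℤ) : ℝ) ≤ y * k :=
      (by exact_mod_cast h1 : ((⌊y * k⌋ / k * k : ℤ) : ℝ) ≤ (⌊y * k⌋ : ℝ)).trans
        (Int.floor_le _)
    rw [Int.cast_mul] at h2
    exact le_of_mul_le_mul_right h2 hk'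
  · rw [Int.le_ediv_iff_mul_le hk, Int.le_floor]
    push_cast
    exact mul_le_mul_of_nonneg_right (Int.floor_le y) hk'.le

private lemma box_norm_le {x : RR d} {c : ℝ} (hc : 0 ≤ c) (h : ∀ i, |x i| ≤ c) :
    ‖x‖ ≤ d * c := by
  rw [EuclideanSpace.norm_eq, Real.sqrt_le_iff]
  refine ⟨by positivity, ?_⟩
  have h1 : ∑ i, ‖x i‖ ^ 2 ≤ ∑ _i : Fin d, c ^ 2 := by
    apply Finset.sum_le_sum
    intro i _
    rw [Real.norm_eq_abs]
    exact pow_le_pow_left₀ (abs_nonneg _) (h i) 2
  rw [Finset.sum_const, Finset.card_univ, Fintype.card_fin, nsmul_eq_mul] at h1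
  refine h1.trans ?_
  rw [mul_pow]
  apply mul_le_mul_of_nonneg_right _ (by positivity)
  have : d ≤ d ^ 2 := by nlinarith [Nat.zero_le d, Nat.le_mul_self d]
  exact_mod_cast this

private lemma box_abs_le (x : RR d) (i : Fin d) : |x i| ≤ ‖x‖ := by
  have := PiLp.norm_apply_le x i
  rwa [Real.norm_eq_abs] at this

private lemma box_floor_sub (a b : ℝ) : |((⌊a⌋ - ⌊b⌋ : ℤ) : ℝ)| ≤ |a - b| + 1 := by
  have h1 := Int.floor_le a
  have h2 := Int.lt_floor_add_one a
  have h3 := Int.floor_le b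
  have h4 := Int.lt_floor_add_one b
  push_cast
  rw [abs_le]
  constructor
  · have := neg_abs_le (a - b)
    linarith
  · have := le_abs_self (a - b)
    linarith

private lemma box_le_floor_sub (a b : ℝ) : |a - b| ≤ |((⌊a⌋ - ⌊b⌋ : ℤ) : ℝ)| + 1 := by
  have h1 := Int.floor_le a
  have h2 := Int.lt_floor_add_one a
  have h3 := Int.floor_le b
  have h4 := Int.lt_floor_add_one b
  push_cast
  rw [abs_le]
  constructor
  · have := neg_abs_le ((⌊a⌋ : ℝ) - ⌊b⌋)
    linarith
  · have := le_abs_self ((⌊a⌋ : ℝ) - ⌊b⌋)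
    linarith

private lemma box_dix_diff (m : ℕ) (x y : RR d) (i : Fin d) :
    (x i + 1 / 2) * 2 ^ m - (y i + 1 / 2) * 2 ^ m = 2 ^ m * (x - y) i := by
  rw [PiLp.sub_apply]
  ring

private lemma box_dix_add (m : ℕ) (v : V d) (x : RR d) :
    dix m (x + emb v) = fun i => dix m x i + 2 ^ m * v i := by
  funext i
  unfold dix
  rw [PiLp.add_apply, emb_apply]
  have h : (x i + (v i : ℝ) + 1 / 2) * 2 ^ m = (x i + 1 / 2) * 2 ^ m + ((2 ^ m * v i : ℤ) : ℝ) := by
    push_cast
    ring
  rw [h, Int.floor_add_intCast]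

lemma dix_zero (x : RR d) : dix 0 x = latt x := by
  funext i
  unfold dix latt
  rw [round_eq, pow_zero, mul_one]

lemma mem_dbox (m : ℕ) (x : RR d) : x ∈ dbox m (dix m x) := rfl

lemma measurable_dix (m : ℕ) : Measurable (dix (d := d) m) := by
  refine measurable_pi_lambda _ fun i => ?_
  refine Int.measurable_floor.comp ?_
  have h : Measurable fun x : RR d => x i := by fun_prop
  exact (h.add_const _).mul_const _

lemma measurableSet_dbox (m : ℕ) (b : V d) : MeasurableSet (dbox m b) :=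
  measurable_dix m (measurableSet_singleton b)

lemma disjoint_dbox (m : ℕ) {b b' : V d} (h : b ≠ b') : Disjoint (dbox m b) (dbox m b') := by
  rw [Set.disjoint_left]
  intro x hx hx'
  exact h (hx.symm.trans hx')

/-- a box lies in its cell -/
lemma latt_of_mem_dbox {m : ℕ} {b : V d} {x : RR d} (h : x ∈ dbox m b) : latt x = cel m b := by
  funext i
  have h1 : dix m x i = b i := congrFun h i
  unfold cel
  rw [← h1, ← dix_zero]
  unfold dix
  rw [pow_zero, mul_one]
  have h2 := box_floor_mul_div (x i + 1 / 2) (2 ^ m) (by positivity)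
  push_cast at h2
  exact h2.symm

/-- translating a box by a lattice vector -/
lemma mem_dbox_add (m : ℕ) (b : V d) (v : V d) (x : RR d) :
    x + emb v ∈ dbox m (fun i => b i + 2 ^ m * v i) ↔ x ∈ dbox m b := by
  unfold dbox
  simp only [Set.mem_ofPred_eq]
  rw [box_dix_add]
  constructor
  · intro h
    funext i
    have := congrFun h i
    simpa using this
  · intro h
    rw [h]

/-- the box of level `m` and index `b` consists of the points of level `m + 1` boxes with index
`b'` such that `b' / 2 = b` -/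
lemma dix_succ (m : ℕ) (x : RR d) : dix m x = fun i => dix (m + 1) x i / 2 := by
  funext i
  unfold dix
  have h2 := box_floor_mul_div ((x i + 1 / 2) * 2 ^ m) 2 (by norm_num)
  rw [← h2, pow_succ, ← mul_assoc]
  push_cast
  rfl

lemma norm_sub_of_dbox {m : ℕ} {b : V d} {x y : RR d} (hx : x ∈ dbox m b) (hy : y ∈ dbox m b) :
    ‖x - y‖ ≤ d * ((2 : ℝ) ^ m)⁻¹ := by
  apply box_norm_le (by positivity)
  intro i
  have h1 : dix m x i = dix m y i := congrFun (hx.trans hy.symm) i
  have h2 := box_le_floor_sub ((x i + 1 / 2) * 2 ^ m) ((y i + 1 / 2) * 2 ^ m)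
  unfold dix at h1
  rw [h1, sub_self, Int.cast_zero, abs_zero, zero_add, box_dix_diff, abs_mul,
    abs_of_pos (by positivity : (0 : ℝ) < 2 ^ m)] at h2
  rw [← one_div, le_div_iff₀ (by positivity), mul_comm]
  exact h2

/-- nearby points lie in neighbouring boxes -/
lemma nm_dix_sub (m : ℕ) (x y : RR d) : nm (dix m x - dix m y) ≤ 2 ^ m * ‖x - y‖ + 1 := by
  unfold nm
  rw [pi_norm_le_iff_of_nonneg (by positivity)]
  intro i
  have h2 := box_floor_sub ((x i + 1 / 2) * 2 ^ m) ((y i + 1 / 2) * 2 ^ m)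
  rw [box_dix_diff, abs_mul, abs_of_pos (by positivity : (0 : ℝ) < 2 ^ m)] at h2
  rw [Real.norm_eq_abs]
  refine h2.trans ?_
  have := mul_le_mul_of_nonneg_left (box_abs_le (x - y) i) (by positivity : (0 : ℝ) ≤ 2 ^ m)
  linarith

lemma le_nm_dix_sub (m : ℕ) (x y : RR d) :
    2 ^ m * ‖x - y‖ / d ≤ nm (dix m x - dix m y) + 1 := by
  have hn : 0 ≤ nm (dix m x - dix m y) := norm_nonneg _
  rcases Nat.eq_zero_or_pos d with hd | hd
  · subst hd
    simp only [Nat.cast_zero, div_zero]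
    linarith
  have hd' : (0 : ℝ) < d := by exact_mod_cast hd
  rw [div_le_iff₀ hd']
  have h : ‖x - y‖ ≤ d * ((nm (dix m x - dix m y) + 1) / 2 ^ m) := by
    apply box_norm_le (by positivity)
    intro i
    have h2 := box_le_floor_sub ((x i + 1 / 2) * 2 ^ m) ((y i + 1 / 2) * 2 ^ m)
    rw [box_dix_diff, abs_mul, abs_of_pos (by positivity : (0 : ℝ) < 2 ^ m)] at h2
    rw [le_div_iff₀ (by positivity), mul_comm]
    refine h2.trans ?_
    have h3 : ‖tr (dix m x - dix m y) i‖ ≤ nm (dix m x - dix m y) := norm_le_pi_norm _ i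
    rw [Real.norm_eq_abs] at h3
    have h4 : tr (dix m x - dix m y) i =
        ((⌊(x i + 1 / 2) * 2 ^ m⌋ - ⌊(y i + 1 / 2) * 2 ^ m⌋ : ℤ) : ℝ) := rfl
    rw [h4] at h3
    linarith
  have h5 := mul_le_mul_of_nonneg_left h (by positivity : (0 : ℝ) ≤ 2 ^ m)
  refine h5.trans (le_of_eq ?_)
  field_simp

lemma volume_dbox (m : ℕ) (b : V d) : volume (dbox m b) = ENNReal.ofReal (((2 : ℝ) ^ (m * d))⁻¹) := by
  have h2 : (0 : ℝ) < 2 ^ m := by positivity
  have hset : dbox m b = (MeasurableEquiv.toLp 2 (Fin d → ℝ)).symm ⁻¹'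
      (Set.univ.pi fun i => Set.Ico ((b i : ℝ) / 2 ^ m - 1 / 2) (((b i : ℝ) + 1) / 2 ^ m - 1 / 2)) := by
    ext x
    simp only [Set.mem_preimage, Set.mem_univ_pi, Set.mem_Ico]
    have hx : x ∈ dbox m b ↔ ∀ i, dix m x i = b i := funext_iff
    rw [hx]
    refine forall_congr' fun i => ?_
    unfold dix
    rw [Int.floor_eq_iff]
    have hxi : (MeasurableEquiv.toLp 2 (Fin d → ℝ)).symm x i = x i := rfl
    rw [hxi, sub_le_iff_le_add, div_le_iff₀ h2, lt_sub_iff_add_lt, lt_div_iff₀ h2]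
  rw [hset, (EuclideanSpace.volume_preserving_symm_measurableEquiv_toLp (Fin d)).measure_preimage_equiv,
    Real.volume_pi_Ico]
  have h3 : ∀ i, ((b i : ℝ) + 1) / 2 ^ m - 1 / 2 - ((b i : ℝ) / 2 ^ m - 1 / 2) = ((2 : ℝ) ^ m)⁻¹ := by
    intro i
    field_simp
    ring
  simp only [h3]
  rw [Finset.prod_const, Finset.card_univ, Fintype.card_fin, ← ENNReal.ofReal_pow (by positivity),
    inv_pow, ← pow_mul]

lemma cel_rel (m : ℕ) (b : V d) : (fun i => 2 ^ m * cel m b i + ((rel m b i : ℕ) : ℤ)) = b := by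
  funext i
  unfold cel rel
  simp only
  rw [Int.toNat_of_nonneg (Int.emod_nonneg _ (by positivity))]
  exact Int.mul_ediv_add_emod _ _

lemma cel_inv (m : ℕ) (v : V d) (k : Fin d → Fin (2 ^ m)) :
    cel m (fun i => 2 ^ m * v i + ((k i : ℕ) : ℤ)) = v ∧
      rel m (fun i => 2 ^ m * v i + ((k i : ℕ) : ℤ)) = k := by
  have hp : (0 : ℤ) < 2 ^ m := by positivity
  have hk : ∀ i, ((k i : ℕ) : ℤ) < 2 ^ m := fun i => by exact_mod_cast (k i).2
  constructor
  · funext i
    unfold cel
    beta_reduce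
    rw [Int.add_comm, Int.add_mul_ediv_left _ _ hp.ne', Int.ediv_eq_zero_of_lt (by positivity) (hk i),
      zero_add]
  · funext i
    unfold rel
    apply Fin.ext
    beta_reduce
    simp only
    rw [Int.add_comm, Int.add_mul_emod_self_left, Int.emod_eq_of_lt (by positivity) (hk i)]
    simp

lemma parts_can (S : Set (RR d)) : parts (can S) = S := by
  ext x
  unfold parts can
  simp only [Set.mem_ofPred_eq, sub_add_cancel]

lemma encard_parts (ω : Env d) (m : ℕ) (b : V d) :
    (parts ω ∩ dbox m b).encard = (ω (cel m b)).cnt m (rel m b) := by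
  unfold Cfg.cnt
  have hb : (fun i => ((rel m b i : ℕ) : ℤ) + 2 ^ m * cel m b i) = b := by
    have := cel_rel m b
    conv_rhs => rw [← this]
    funext i
    ring
  have hset : parts ω ∩ dbox m b = (fun y => y + emb (cel m b)) ''
      ((ω (cel m b)).pts ∩ dbox m (fun i => ((rel m b i : ℕ) : ℤ))) := by
    ext x
    constructor
    · rintro ⟨hx1, hx2⟩
      have hl := latt_of_mem_dbox hx2
      refine ⟨x - emb (cel m b), ⟨?_, ?_⟩, sub_add_cancel _ _⟩
      · have : x - emb (latt x) ∈ (ω (latt x)).pts := hx1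
        rwa [hl] at this
      · rw [← mem_dbox_add m _ (cel m b), sub_add_cancel, hb]
        exact hx2
    · rintro ⟨y, ⟨hy1, hy2⟩, rfl⟩
      have h2 : y + emb (cel m b) ∈ dbox m b := by
        have := (mem_dbox_add m _ (cel m b) y).2 hy2
        rwa [hb] at this
      refine ⟨?_, h2⟩
      have hl := latt_of_mem_dbox h2
      change y + emb (cel m b) - emb (latt (y + emb (cel m b))) ∈ (ω (latt (y + emb (cel m b)))).pts
      rw [hl, add_sub_cancel_right]
      exact hy1
  rw [hset]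
  exact (add_left_injective (emb (cel m b))).encard_image _

end FPPX
end

section

/-! Chains of particles. -/

namespace FPPX

open MeasureTheory ProbabilityTheory Filter Set
open scoped Topology

variable {d : ℕ} {α : ℝ} {S S' : Set (RR d)} {p q r : RR d} {c c' h h' : ℝ}

private lemma wk_glue (x y : ℕ → RR d) (k : ℕ) (h : x k = y 0) :
    ∃ z : ℕ → RR d, (∀ i ≤ k, z i = x i) ∧ ∀ j, z (k + j) = y j := by
  refine ⟨fun i => if i ≤ k then x i else y (i - k), fun i hi => if_pos hi, fun j => ?_⟩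
  rcases Nat.eq_zero_or_pos j with rfl | hj
  · show (if k + 0 ≤ k then x (k + 0) else y (k + 0 - k)) = y 0
    rw [if_pos (by omega), Nat.add_zero]
    exact h
  · show (if k + j ≤ k then x (k + j) else y (k + j - k)) = y j
    rw [if_neg (by omega), Nat.add_sub_cancel_left]

lemma Wh.toWk (hw : Wh α S h p q c) : Wk α S p q c := by
  obtain ⟨k, x, h1, h2, h3, -, h5⟩ := hw
  exact ⟨k, x, h1, h2, h3, h5⟩

lemma Wk.refl (hp : p ∈ S) : Wk α S p p 0 :=
  ⟨0, fun _ => p, fun _ _ => hp, rfl, rfl, by simp⟩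

private lemma wk_two (hp : p ∈ S) (hq : q ∈ S) : ∃ x : ℕ → RR d,
    (∀ i ≤ 1, x i ∈ S) ∧ x 0 = p ∧ x 1 = q := by
  refine ⟨fun i => if i = 0 then p else q, fun i _ => ?_, by simp, by simp⟩
  show (if i = 0 then p else q) ∈ S
  split_ifs
  · exact hp
  · exact hq

lemma Wk.hop (hp : p ∈ S) (hq : q ∈ S) : Wk α S p q (‖p - q‖ ^ α) := by
  obtain ⟨x, h1, h2, h3⟩ := wk_two hp hq
  refine ⟨1, x, h1, h2, h3, ?_⟩
  rw [Finset.sum_range_one, h2, zero_add, h3]

lemma Wk.trans (h1 : Wk α S p q c) (h2 : Wk α S q r c') : Wk α S p r (c + c') := by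
  obtain ⟨k, x, hx, hx0, hxk, hc⟩ := h1
  obtain ⟨l, y, hy, hy0, hyl, hc'⟩ := h2
  obtain ⟨z, hz1, hz2⟩ := wk_glue x y k (hxk.trans hy0.symm)
  refine ⟨k + l, z, fun i hi => ?_, ?_, ?_, ?_⟩
  · rcases Nat.lt_or_ge k i with h | h
    · obtain ⟨j, rfl⟩ := Nat.exists_eq_add_of_lt h
      rw [add_assoc, hz2]
      exact hy _ (by omega)
    · rw [hz1 i h]
      exact hx i h
  · rw [hz1 0 (Nat.zero_le _), hx0]
  · rw [hz2, hyl]
  · rw [Finset.sum_range_add, hc, hc']
    congr 1
    · refine Finset.sum_congr rfl fun i hi => ?_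
      rw [Finset.mem_range] at hi
      rw [hz1 i hi.le, hz1 (i + 1) hi]
    · refine Finset.sum_congr rfl fun j _ => ?_
      rw [hz2, add_assoc, hz2]

lemma Wk.symm (h1 : Wk α S p q c) : Wk α S q p c := by
  obtain ⟨k, x, hx, hx0, hxk, hc⟩ := h1
  refine ⟨k, fun i => x (k - i), fun i _ => hx _ (Nat.sub_le _ _), ?_, ?_, ?_⟩
  · simpa using hxk
  · simpa using hx0
  · rw [hc, ← Finset.sum_range_reflect]
    refine Finset.sum_congr rfl fun i hi => ?_
    rw [Finset.mem_range] at hi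
    have e1 : k - 1 - i = k - (i + 1) := by omega
    have e2 : k - (i + 1) + 1 = k - i := by omega
    rw [e1, e2, norm_sub_rev]

lemma Wk.mono (h1 : Wk α S p q c) (hS : S ⊆ S') : Wk α S' p q c := by
  obtain ⟨k, x, hx, h⟩ := h1
  exact ⟨k, x, fun i hi => hS (hx i hi), h⟩

lemma Wk.nonneg (h1 : Wk α S p q c) : 0 ≤ c := by
  obtain ⟨k, x, -, -, -, rfl⟩ := h1
  exact Finset.sum_nonneg fun i _ => Real.rpow_nonneg (norm_nonneg _) _

lemma Wk.left (h1 : Wk α S p q c) : p ∈ S := by
  obtain ⟨k, x, hx, hx0, -, -⟩ := h1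
  rw [← hx0]
  exact hx 0 (Nat.zero_le _)

lemma Wk.right (h1 : Wk α S p q c) : q ∈ S := by
  obtain ⟨k, x, hx, -, hxk, -⟩ := h1
  rw [← hxk]
  exact hx k le_rfl

/-- translation -/
lemma Wk.shift (h1 : Wk α S p q c) (e : RR d) : Wk α {x | x - e ∈ S} (p + e) (q + e) c := by
  obtain ⟨k, x, hx, hx0, hxk, hc⟩ := h1
  refine ⟨k, fun i => x i + e, fun i hi => ?_, by rw [← hx0], by rw [← hxk], ?_⟩
  · show x i + e - e ∈ S
    rw [add_sub_cancel_right]
    exact hx i hi
  · rw [hc]
    refine Finset.sum_congr rfl fun i _ => ?_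
    rw [add_sub_add_right_eq_sub]

/-- images under isometries -/
lemma Wk.image (h1 : Wk α S p q c) (f : RR d → RR d) (hf : ∀ x y, ‖f x - f y‖ = ‖x - y‖) :
    Wk α (f '' S) (f p) (f q) c := by
  obtain ⟨k, x, hx, hx0, hxk, hc⟩ := h1
  refine ⟨k, fun i => f (x i), fun i hi => mem_image_of_mem f (hx i hi), by rw [← hx0],
    by rw [← hxk], ?_⟩
  rw [hc]
  refine Finset.sum_congr rfl fun i _ => ?_
  rw [hf]

lemma Wh.refl (hp : p ∈ S) : Wh α S h p p 0 :=
  ⟨0, fun _ => p, fun _ _ => hp, rfl, rfl, fun i hi => absurd hi (Nat.not_lt_zero i), by simp⟩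

lemma Wh.hop (hp : p ∈ S) (hq : q ∈ S) (hh : ‖p - q‖ ≤ h) : Wh α S h p q (‖p - q‖ ^ α) := by
  obtain ⟨x, h1, h2, h3⟩ := wk_two hp hq
  refine ⟨1, x, h1, h2, h3, fun i hi => ?_, ?_⟩
  · have : i = 0 := by omega
    subst this
    rw [h2, zero_add, h3]
    exact hh
  · rw [Finset.sum_range_one, h2, zero_add, h3]

lemma Wh.trans (h1 : Wh α S h p q c) (h2 : Wh α S h q r c') : Wh α S h p r (c + c') := by
  obtain ⟨k, x, hx, hx0, hxk, hxh, hc⟩ := h1
  obtain ⟨l, y, hy, hy0, hyl, hyh, hc'⟩ := h2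
  obtain ⟨z, hz1, hz2⟩ := wk_glue x y k (hxk.trans hy0.symm)
  refine ⟨k + l, z, fun i hi => ?_, ?_, ?_, fun i hi => ?_, ?_⟩
  · rcases Nat.lt_or_ge k i with h | h
    · obtain ⟨j, rfl⟩ := Nat.exists_eq_add_of_lt h
      rw [add_assoc, hz2]
      exact hy _ (by omega)
    · rw [hz1 i h]
      exact hx i h
  · rw [hz1 0 (Nat.zero_le _), hx0]
  · rw [hz2, hyl]
  · rcases Nat.lt_or_ge i k with h | h
    · rw [hz1 i h.le, hz1 (i + 1) h]
      exact hxh i h
    · obtain ⟨j, rfl⟩ := Nat.exists_eq_add_of_le h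
      rw [hz2, add_assoc, hz2]
      exact hyh j (by omega)
  · rw [Finset.sum_range_add, hc, hc']
    congr 1
    · refine Finset.sum_congr rfl fun i hi => ?_
      rw [Finset.mem_range] at hi
      rw [hz1 i hi.le, hz1 (i + 1) hi]
    · refine Finset.sum_congr rfl fun j _ => ?_
      rw [hz2, add_assoc, hz2]

lemma Wh.mono (h1 : Wh α S h p q c) (hh : h ≤ h') : Wh α S h' p q c := by
  obtain ⟨k, x, hx, hx0, hxk, hxh, hc⟩ := h1
  exact ⟨k, x, hx, hx0, hxk, fun i hi => (hxh i hi).trans hh, hc⟩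

lemma ept_eq (α : ℝ) (S : Set (RR d)) (p q : RR d) : ept α S p q = sInf {s | Wk α S p q s} :=
  rfl

private lemma wk_bdd (α : ℝ) (S : Set (RR d)) (p q : RR d) : BddBelow {s | Wk α S p q s} :=
  ⟨0, fun _ hs => Wk.nonneg hs⟩

lemma ept_nonneg (α : ℝ) (S : Set (RR d)) (p q : RR d) : 0 ≤ ept α S p q := by
  rw [ept_eq]
  exact Real.sInf_nonneg fun _ hs => Wk.nonneg hs

lemma ept_le (h1 : Wk α S p q c) : ept α S p q ≤ c := by
  rw [ept_eq]
  exact csInf_le (wk_bdd α S p q) h1

/-- near optimal chains -/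
lemma ept_near (hp : p ∈ S) (hq : q ∈ S) {s : ℝ} (hs : ept α S p q < s) :
    ∃ c, Wk α S p q c ∧ c < s := by
  rw [ept_eq] at hs
  have hne : {s | Wk α S p q s}.Nonempty := ⟨‖p - q‖ ^ α, Wk.hop hp hq⟩
  obtain ⟨c, hc, hcs⟩ := exists_lt_of_csInf_lt hne hs
  exact ⟨c, hc, hcs⟩

/-- the basic inequality behind the triangle inequality for `tP` -/
lemma hop_le (hα : 0 ≤ α) (x y z : RR d) :
    ‖x - z‖ ^ α ≤ (2 * ‖x - y‖) ^ α + (2 * ‖z - y‖) ^ α := by
  have h1 : ‖x - z‖ ≤ ‖x - y‖ + ‖z - y‖ := by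
    rw [norm_sub_rev z y]
    exact norm_sub_le_norm_sub_add_norm_sub x y z
  have h2 : 0 ≤ (2 * ‖x - y‖) ^ α := by positivity
  have h3 : 0 ≤ (2 * ‖z - y‖) ^ α := by positivity
  rcases le_total ‖x - y‖ ‖z - y‖ with h | h
  · have h4 : ‖x - z‖ ^ α ≤ (2 * ‖z - y‖) ^ α :=
      Real.rpow_le_rpow (norm_nonneg _) (by linarith) hα
    linarith
  · have h4 : ‖x - z‖ ^ α ≤ (2 * ‖x - y‖) ^ α :=
      Real.rpow_le_rpow (norm_nonneg _) (by linarith) hα
    linarith

end FPPX
end

section

/-! The stationary pseudometric on lattice points: deterministic properties. -/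

namespace FPPX

open MeasureTheory ProbabilityTheory Filter Set
open scoped Topology

variable {d : ℕ} {α : ℝ}

private lemma Met_term_nonneg {S : Set (RR d)} {u v : V d} {p q : RR d} {c : ℝ}
    (h : Wk α S p q c) : 0 ≤ (2 * ‖p - emb u‖) ^ α + c + (2 * ‖q - emb v‖) ^ α := by
  have h1 := h.nonneg
  have h2 : 0 ≤ (2 * ‖p - emb u‖) ^ α := Real.rpow_nonneg (by positivity) _
  have h3 : 0 ≤ (2 * ‖q - emb v‖) ^ α := Real.rpow_nonneg (by positivity) _
  linarith

theorem tP_nonneg (S : Set (RR d)) (u v : V d) : 0 ≤ tP α S u v := by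
  unfold tP
  split_ifs
  · exact le_rfl
  · refine Real.sInf_nonneg ?_
    rintro s ⟨p, q, c, h, rfl⟩
    exact Met_term_nonneg h

theorem tP_self (S : Set (RR d)) (u : V d) : tP α S u u = 0 := by
  simp [tP]

theorem tP_symm (S : Set (RR d)) (u v : V d) : tP α S u v = tP α S v u := by
  unfold tP
  by_cases h : u = v
  · simp [h]
  · rw [if_neg h, if_neg (Ne.symm h)]
    congr 1
    ext s
    constructor
    · rintro ⟨p, q, c, hw, rfl⟩
      exact ⟨q, p, c, hw.symm, by ring⟩
    · rintro ⟨p, q, c, hw, rfl⟩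
      exact ⟨q, p, c, hw.symm, by ring⟩

theorem tP_le {S : Set (RR d)} {u v : V d} {p q : RR d} {c : ℝ} (h : Wk α S p q c) :
    tP α S u v ≤ (2 * ‖p - emb u‖) ^ α + c + (2 * ‖q - emb v‖) ^ α := by
  unfold tP
  split_ifs
  · exact Met_term_nonneg h
  · refine csInf_le ⟨0, ?_⟩ ⟨p, q, c, h, rfl⟩
    rintro s ⟨p, q, c, h, rfl⟩
    exact Met_term_nonneg h

theorem tP_near {S : Set (RR d)} (hS : S.Nonempty) {u v : V d} (huv : u ≠ v) {s : ℝ}
    (h : tP α S u v < s) :
    ∃ p q c, Wk α S p q c ∧ (2 * ‖p - emb u‖) ^ α + c + (2 * ‖q - emb v‖) ^ α < s := by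
  unfold tP at h
  rw [if_neg huv] at h
  obtain ⟨x, hx⟩ := hS
  obtain ⟨t, ⟨p, q, c, hw, rfl⟩, ht⟩ := exists_lt_of_csInf_lt
    (⟨_, x, x, 0, Wk.refl hx, rfl⟩ : {s | ∃ p q c, Wk α S p q c ∧
    s = (2 * ‖p - emb u‖) ^ α + c + (2 * ‖q - emb v‖) ^ α}.Nonempty) h
  exact ⟨p, q, c, hw, ht⟩

theorem tP_tri (hα : 0 ≤ α) (S : Set (RR d)) (u v w : V d) :
    tP α S u w ≤ tP α S u v + tP α S v w := by
  rcases S.eq_empty_or_nonempty with hS | hS
  · have h0 : ∀ u v : V d, tP α S u v = 0 := by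
      intro u v
      unfold tP
      split_ifs
      · rfl
      · have : {s | ∃ p q c, Wk α S p q c ∧
            s = (2 * ‖p - emb u‖) ^ α + c + (2 * ‖q - emb v‖) ^ α} = ∅ := by
          rw [Set.eq_empty_iff_forall_notMem]
          rintro s ⟨p, q, c, hw, _⟩
          have := hw.left
          rw [hS] at this
          exact this
        rw [this, Real.sInf_empty]
    rw [h0, h0, h0]
    norm_num
  by_cases huv : u = v
  · subst huv
    rw [tP_self, zero_add]
  by_cases hvw : v = w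
  · subst hvw
    rw [tP_self, add_zero]
  refine le_of_forall_pos_le_add fun ε hε => ?_
  obtain ⟨p, q, c, h1, h2⟩ := tP_near (α := α) hS huv
    (show tP α S u v < tP α S u v + ε / 2 by linarith)
  obtain ⟨p', q', c', h3, h4⟩ := tP_near (α := α) hS hvw
    (show tP α S v w < tP α S v w + ε / 2 by linarith)
  have h5 := (h1.trans (Wk.hop (α := α) h1.right h3.left)).trans h3
  have h6 := tP_le (u := u) (v := w) h5
  have h7 := hop_le hα q (emb v) p'
  linarith

theorem parts_thP (x : V d) (ω : Env d) :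
    parts (fun v => ω (v + x)) = {y | y + emb x ∈ parts ω} := by
  ext y
  simp only [parts, Set.mem_setOf_eq]
  rw [latt_add_emb, emb_add, add_sub_add_right_eq_sub]

private lemma Met_wk_shift_iff {S : Set (RR d)} (e p q : RR d) (c : ℝ) :
    Wk α {y | y + e ∈ S} p q c ↔ Wk α S (p + e) (q + e) c := by
  constructor
  · intro h
    have h1 := h.shift e
    refine h1.mono ?_
    intro y hy
    simpa using hy
  · intro h
    have h1 := h.shift (-e)
    simp only [add_neg_cancel_right, sub_neg_eq_add] at h1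
    exact h1

theorem tP_shift (x : V d) (ω : Env d) (u v : V d) :
    tP α (parts (fun v => ω (v + x))) u v = tP α (parts ω) (u + x) (v + x) := by
  unfold tP
  rw [parts_thP]
  by_cases h : u = v
  · simp [h]
  · have h' : u + x ≠ v + x := fun hh => h (add_right_cancel hh)
    rw [if_neg h, if_neg h']
    congr 1
    ext s
    constructor
    · rintro ⟨p, q, c, hw, rfl⟩
      refine ⟨p + emb x, q + emb x, c, (Met_wk_shift_iff _ _ _ _).1 hw, ?_⟩
      rw [emb_add, emb_add, add_sub_add_right_eq_sub, add_sub_add_right_eq_sub]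
    · rintro ⟨p, q, c, hw, rfl⟩
      refine ⟨p - emb x, q - emb x, c, (Met_wk_shift_iff _ _ _ _).2 ?_, ?_⟩
      · rwa [sub_add_cancel, sub_add_cancel]
      · rw [emb_add, emb_add]
        have h1 : ∀ (a : RR d) (b : V d), a - (emb b + emb x) = a - emb x - emb b := by
          intro a b; abel
        rw [h1, h1]

theorem LEP_t (K : Set (V d)) (u v : V d) (s : ℝ) (ω : Env d) (h : ω ∈ LEP α K u v s) :
    tP α (parts ω) u v ≤ s := by
  rcases h with ⟨rfl, hs⟩ | ⟨p, q, c, hw, hs⟩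
  · rwa [tP_self]
  · exact (tP_le (hw.mono Set.inter_subset_left)).trans hs.le

theorem LEP_mono (K K' : Set (V d)) (u v : V d) (s s' : ℝ) (hK : K ⊆ K') (hs : s ≤ s') :
    LEP α K u v s ⊆ LEP α K' u v s' := by
  rintro ω (⟨h1, h2⟩ | ⟨p, q, c, hw, h2⟩)
  · exact Or.inl ⟨h1, h2.trans hs⟩
  · refine Or.inr ⟨p, q, c, hw.mono ?_, h2.trans_le hs⟩
    exact Set.inter_subset_inter_right _ fun y hy => hK hy

private lemma Met_set_eq (x : V d) (K : Set (V d)) (ω : Env d) :
    parts (fun v => ω (v + x)) ∩ hat K = {y | y + emb x ∈ parts ω ∩ hat (sh x K)} := by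
  rw [parts_thP]
  ext y
  simp only [Set.mem_inter_iff, Set.mem_setOf_eq, hat]
  refine and_congr_right fun _ => ?_
  rw [latt_add_emb]
  show latt y ∈ K ↔ latt y + x - x ∈ K
  rw [add_sub_cancel_right]

theorem LEP_shift (x : V d) (K : Set (V d)) (u v : V d) (s : ℝ) :
    (fun (ω : Env d) v => ω (v + x)) ⁻¹' (LEP α K u v s) = LEP α (sh x K) (u + x) (v + x) s := by
  ext ω
  simp only [LEP, Set.mem_preimage, Set.mem_setOf_eq, add_left_inj]
  refine or_congr_right ?_
  rw [Met_set_eq]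
  constructor
  · rintro ⟨p, q, c, hw, hs⟩
    refine ⟨p + emb x, q + emb x, c, (Met_wk_shift_iff _ _ _ _).1 hw, ?_⟩
    rwa [emb_add, emb_add, add_sub_add_right_eq_sub, add_sub_add_right_eq_sub]
  · rintro ⟨p, q, c, hw, hs⟩
    refine ⟨p - emb x, q - emb x, c, (Met_wk_shift_iff _ _ _ _).2 ?_, ?_⟩
    · rwa [sub_add_cancel, sub_add_cancel]
    · rw [emb_add, emb_add] at hs
      have h1 : ∀ (a : RR d) (b : V d), a - (emb b + emb x) = a - emb x - emb b := by
        intro a b; abel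
      rwa [h1, h1] at hs

end FPPX
end

section

/-! A Poisson process is locally finite and its particles have different distances to a point. -/

namespace FPPX

open MeasureTheory ProbabilityTheory Filter Set
open scoped Topology

variable {d : ℕ} {Ω : Type*} [MeasurableSpace Ω] {P : Measure Ω} {Q : Ω → Set (RR d)}

private lemma ties_finite [IsProbabilityMeasure P] (h : IsPoisson P Q) {A : Set (RR d)}
    (hA : MeasurableSet A) (hv : volume A ≠ ⊤) : ∀ᵐ ω ∂P, (Q ω ∩ A).Finite := by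
  set v : NNReal := (volume A).toNNReal with hvdef
  have hvr : (volume A).toReal = (v : ℝ) := rfl
  have hmeas : ∀ k : ℕ, MeasurableSet {ω | (Q ω ∩ A).encard = k} := fun k =>
    (h.meas A hA) (measurableSet_singleton (k : ℕ∞))
  have hdis : Pairwise (Function.onFun Disjoint fun k : ℕ => {ω | (Q ω ∩ A).encard = k}) := by
    intro k l hkl
    rw [Function.onFun, Set.disjoint_left]
    intro ω h1 h2
    apply hkl
    have h3 : ((k : ℕ) : ℕ∞) = l := h1.symm.trans h2
    exact_mod_cast h3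
  have hterm : ∀ k : ℕ, P {ω | (Q ω ∩ A).encard = k} =
      ENNReal.ofReal (Real.exp (-(v : ℝ)) * (v : ℝ) ^ k / (k.factorial : ℝ)) := by
    intro k
    rw [← hvr, ← h.law A hA hv k, measureReal_def, ENNReal.ofReal_toReal (measure_ne_top _ _)]
  have hone : P (⋃ k : ℕ, {ω | (Q ω ∩ A).encard = k}) = 1 := by
    rw [measure_iUnion hdis hmeas]
    simp only [hterm]
    rw [← ENNReal.ofReal_tsum_of_nonneg (fun k => by positivity)
      (hasSum_one_poissonMeasure v).summable, (hasSum_one_poissonMeasure v).tsum_eq,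
      ENNReal.ofReal_one]
  have hae : ∀ᵐ ω ∂P, ω ∈ ⋃ k : ℕ, {ω | (Q ω ∩ A).encard = k} := by
    rw [mem_ae_iff_prob_eq_one (MeasurableSet.iUnion hmeas) |>.symm] at hone
    exact hone
  filter_upwards [hae] with ω hω
  obtain ⟨k, hk⟩ := Set.mem_iUnion.1 hω
  have hk' : (Q ω ∩ A).encard = k := hk
  exact Set.finite_of_encard_eq_coe hk'

theorem IsPoisson.ae_finite [IsProbabilityMeasure P] (h : IsPoisson P Q) :
    ∀ᵐ ω ∂P, ∀ R : ℝ, (Q ω ∩ Metric.ball 0 R).Finite := by
  have h1 : ∀ᵐ ω ∂P, ∀ n : ℕ, (Q ω ∩ Metric.ball 0 (n : ℝ)).Finite := by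
    rw [ae_all_iff]
    intro n
    exact ties_finite h measurableSet_ball measure_ball_lt_top.ne
  filter_upwards [h1] with ω hω
  intro R
  obtain ⟨n, hn⟩ := exists_nat_ge R
  exact (hω n).subset (Set.inter_subset_inter_right _ (Metric.ball_subset_ball hn))

theorem IsPoisson.two_le [IsProbabilityMeasure P] (h : IsPoisson P Q) {A : Set (RR d)}
    (hA : MeasurableSet A) (hv : volume A ≠ ⊤) :
    P.real {ω | 2 ≤ (Q ω ∩ A).encard} ≤ (volume A).toReal ^ 2 := by
  set v := (volume A).toReal with hvdef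
  have hv0 : 0 ≤ v := ENNReal.toReal_nonneg
  have hmeas : ∀ k : ℕ, MeasurableSet {ω | (Q ω ∩ A).encard = k} := fun k =>
    (h.meas A hA) (measurableSet_singleton (k : ℕ∞))
  have h0 := h.law A hA hv 0
  have h1 := h.law A hA hv 1
  have hcompl : {ω | 2 ≤ (Q ω ∩ A).encard} =
      ({ω | (Q ω ∩ A).encard = (0 : ℕ)} ∪ {ω | (Q ω ∩ A).encard = (1 : ℕ)})ᶜ := by
    ext ω
    simp only [Set.mem_ofPred_eq, Set.mem_compl_iff, Set.mem_union]
    generalize (Q ω ∩ A).encard = e
    constructor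
    · rintro he (h2 | h2)
      · rw [h2] at he
        exact absurd he (by decide)
      · rw [h2] at he
        exact absurd he (by decide)
    · intro he
      by_contra hlt
      rw [not_le] at hlt
      apply he
      have hle : e ≤ 1 := by
        rw [show (2 : ℕ∞) = 1 + 1 from by norm_num] at hlt
        exact Order.le_of_lt_add_one hlt
      rcases eq_or_lt_of_le hle with h3 | h3
      · right
        rw [h3]
        rfl
      · left
        have : e = 0 := Order.lt_one_iff.1 h3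
        rw [this]
        rfl
  have hdis : Disjoint {ω | (Q ω ∩ A).encard = (0 : ℕ)} {ω | (Q ω ∩ A).encard = (1 : ℕ)} := by
    rw [Set.disjoint_left]
    intro ω h2 h3
    have h4 : ((0 : ℕ) : ℕ∞) = (1 : ℕ) := h2.symm.trans h3
    exact absurd (by exact_mod_cast h4 : (0 : ℕ) = 1) (by norm_num)
  rw [hcompl, probReal_compl_eq_one_sub ((hmeas 0).union (hmeas 1)),
    measureReal_union hdis (hmeas 1), h0, h1]
  rw [← hvdef]
  have he : 1 - v ≤ Real.exp (-v) := by
    have := Real.add_one_le_exp (-v)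
    linarith
  simp only [pow_zero, mul_one, Nat.factorial_zero, Nat.cast_one, div_one, pow_one,
    Nat.factorial_one]
  nlinarith [mul_le_mul_of_nonneg_right he (by linarith : (0 : ℝ) ≤ 1 + v)]

private lemma ties_pow (n : ℕ) {a b R : ℝ} (ha : 0 ≤ a) (hab : a ≤ b) (hb : b ≤ R) :
    b ^ (n + 1) - a ^ (n + 1) ≤ (n + 1) * R ^ n * (b - a) := by
  have hR : 0 ≤ R := (ha.trans hab).trans hb
  induction n with
  | zero => simp
  | succ n ih =>
    have h1 : b ^ (n + 1 + 1) - a ^ (n + 1 + 1) =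
        b * (b ^ (n + 1) - a ^ (n + 1)) + a ^ (n + 1) * (b - a) := by ring
    rw [h1]
    have h2 : 0 ≤ b ^ (n + 1) - a ^ (n + 1) := by
      have := pow_le_pow_left₀ ha hab (n + 1)
      linarith
    have h3 : b * (b ^ (n + 1) - a ^ (n + 1)) ≤ R * ((n + 1) * R ^ n * (b - a)) :=
      (mul_le_mul_of_nonneg_right hb h2).trans (mul_le_mul_of_nonneg_left ih hR)
    have h4 : a ^ (n + 1) * (b - a) ≤ R ^ (n + 1) * (b - a) :=
      mul_le_mul_of_nonneg_right (pow_le_pow_left₀ ha (hab.trans hb) _) (by linarith)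
    push_cast
    calc b * (b ^ (n + 1) - a ^ (n + 1)) + a ^ (n + 1) * (b - a)
        ≤ R * ((n + 1) * R ^ n * (b - a)) + R ^ (n + 1) * (b - a) := add_le_add h3 h4
      _ = (n + 1 + 1) * R ^ (n + 1) * (b - a) := by ring

private lemma ties_shell (m : ℕ) (x : RR (m + 1)) {a b R : ℝ} (ha : 0 ≤ a) (hab : a ≤ b)
    (hb : b ≤ R) :
    (volume (Metric.ball x b \ Metric.ball x a)).toReal ≤
      (volume (Metric.ball (0 : RR (m + 1)) 1)).toReal * ((m + 1) * R ^ m) * (b - a) := by
  have hsub : Metric.ball x a ⊆ Metric.ball x b := Metric.ball_subset_ball hab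
  have h1 : (volume (Metric.ball x b \ Metric.ball x a)).toReal =
      (volume (Metric.ball x b)).toReal - (volume (Metric.ball x a)).toReal := by
    rw [measure_sdiff hsub measurableSet_ball.nullMeasurableSet measure_ball_lt_top.ne,
      ENNReal.toReal_sub_of_le (measure_mono hsub) measure_ball_lt_top.ne]
  have hvol : ∀ r : ℝ, 0 ≤ r → (volume (Metric.ball x r)).toReal =
      r ^ (m + 1) * (volume (Metric.ball (0 : RR (m + 1)) 1)).toReal := by
    intro r hr
    rw [Measure.addHaar_ball volume x hr, ENNReal.toReal_mul, ENNReal.toReal_ofReal (by positivity)]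
    simp
  rw [h1, hvol b (ha.trans hab), hvol a ha, ← sub_mul]
  have h2 := mul_le_mul_of_nonneg_right (ties_pow m ha hab hb)
    (ENNReal.toReal_nonneg (a := volume (Metric.ball (0 : RR (m + 1)) 1)))
  refine h2.trans (le_of_eq (by ring))

private lemma ties_R [IsProbabilityMeasure P] (m : ℕ) {Q : Ω → Set (RR (m + 1))}
    (h : IsPoisson P Q) (x : RR (m + 1)) (R : ℝ) (hR : 0 < R) :
    P {ω | ∃ p ∈ Q ω, ∃ q ∈ Q ω, dist x p = dist x q ∧ p ≠ q ∧ dist x p < R} = 0 := by
  set B := {ω | ∃ p ∈ Q ω, ∃ q ∈ Q ω, dist x p = dist x q ∧ p ≠ q ∧ dist x p < R} with hB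
  set V := (volume (Metric.ball (0 : RR (m + 1)) 1)).toReal with hV
  have hV0 : 0 ≤ V := ENNReal.toReal_nonneg
  set C := V * ((m + 1) * R ^ m) * R with hC
  have hC0 : 0 ≤ C := by positivity
  have key : ∀ n : ℕ, 1 ≤ n → P.real B ≤ C ^ 2 / n := by
    intro n hn
    have hn0 : (0 : ℝ) < n := by exact_mod_cast hn
    set A : ℕ → Set (RR (m + 1)) := fun k =>
      Metric.ball x ((k + 1) * (R / n)) \ Metric.ball x (k * (R / n)) with hA
    have hRn : 0 < R / n := by positivity
    have hAm : ∀ k, MeasurableSet (A k) := fun k =>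
      MeasurableSet.diff measurableSet_ball measurableSet_ball
    have hAv : ∀ k, volume (A k) ≠ ⊤ := fun k =>
      ((measure_mono Set.sdiff_subset).trans_lt measure_ball_lt_top).ne
    have hAb : ∀ k ∈ Finset.range n, (volume (A k)).toReal ≤ C / n := by
      intro k hk
      have hkn : (k : ℝ) + 1 ≤ n := by exact_mod_cast Finset.mem_range.1 hk
      have h1 := ties_shell m x (a := k * (R / n)) (b := (k + 1) * (R / n)) (R := R)
        (by positivity) (by nlinarith) (by
          calc ((k : ℝ) + 1) * (R / n) ≤ n * (R / n) := mul_le_mul_of_nonneg_right hkn hRn.le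
            _ = R := by field_simp)
      refine h1.trans (le_of_eq ?_)
      rw [← hV, hC]
      field_simp
      ring
    have hsub : B ⊆ ⋃ k ∈ Finset.range n, {ω | 2 ≤ (Q ω ∩ A k).encard} := by
      rintro ω ⟨p, hp, q, hq, hpq, hne, hlt⟩
      have hs0 : 0 ≤ dist x p / (R / n) := by positivity
      set k := ⌊dist x p / (R / n)⌋₊ with hk
      have hk1 : (k : ℝ) ≤ dist x p / (R / n) := Nat.floor_le hs0
      have hk2 : dist x p / (R / n) < k + 1 := Nat.lt_floor_add_one _
      rw [le_div_iff₀ hRn] at hk1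
      rw [div_lt_iff₀ hRn] at hk2
      have hkn : k < n := by
        rw [hk, Nat.floor_lt hs0, div_lt_iff₀ hRn]
        calc dist x p < R := hlt
          _ = n * (R / n) := by field_simp
      rw [Set.mem_iUnion₂]
      refine ⟨k, Finset.mem_range.2 hkn, ?_⟩
      have hmem : ∀ y, dist x y = dist x p → y ∈ A k := by
        intro y hy
        constructor
        · rw [Metric.mem_ball, dist_comm, hy]
          exact hk2
        · rw [Metric.mem_ball, dist_comm, hy, not_lt]
          exact hk1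
      have hpair : ({p, q} : Set (RR (m + 1))) ⊆ Q ω ∩ A k := by
        intro y hy
        rcases hy with rfl | hy
        · exact ⟨hp, hmem _ rfl⟩
        · rw [Set.mem_singleton_iff] at hy
          subst hy
          exact ⟨hq, hmem _ hpq.symm⟩
      have := Set.encard_le_encard hpair
      rw [Set.encard_pair hne] at this
      exact this
    calc P.real B ≤ P.real (⋃ k ∈ Finset.range n, {ω | 2 ≤ (Q ω ∩ A k).encard}) :=
          measureReal_mono hsub (measure_ne_top _ _)
      _ ≤ ∑ k ∈ Finset.range n, P.real {ω | 2 ≤ (Q ω ∩ A k).encard} :=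
          measureReal_biUnion_finset_le _ _
      _ ≤ ∑ _k ∈ Finset.range n, (C / n) ^ 2 := by
          apply Finset.sum_le_sum
          intro k hk
          refine (h.two_le (hAm k) (hAv k)).trans ?_
          exact pow_le_pow_left₀ ENNReal.toReal_nonneg (hAb k hk) 2
      _ = C ^ 2 / n := by
          rw [Finset.sum_const, Finset.card_range, nsmul_eq_mul]
          field_simp
  have hlim : Tendsto (fun n : ℕ => C ^ 2 / (n : ℝ)) atTop (𝓝 0) :=
    tendsto_const_div_atTop_nhds_zero_nat _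
  have h0 : P.real B ≤ 0 := by
    refine ge_of_tendsto hlim ?_
    filter_upwards [eventually_ge_atTop 1] with n hn
    exact key n hn
  have h1 : P.real B = 0 := le_antisymm h0 measureReal_nonneg
  exact (measureReal_eq_zero_iff (measure_ne_top _ _)).1 h1

theorem IsPoisson.no_ties [IsProbabilityMeasure P] (hd : 1 ≤ d) (h : IsPoisson P Q) (x : RR d) :
    ∀ᵐ ω ∂P, ∀ p ∈ Q ω, ∀ q ∈ Q ω, dist x p = dist x q → p = q := by
  obtain ⟨m, rfl⟩ : ∃ m, d = m + 1 := ⟨d - 1, by omega⟩
  have h1 : ∀ᵐ ω ∂P, ∀ n : ℕ,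
      ¬ ∃ p ∈ Q ω, ∃ q ∈ Q ω, dist x p = dist x q ∧ p ≠ q ∧ dist x p < (n : ℝ) + 1 := by
    rw [ae_all_iff]
    intro n
    rw [ae_iff]
    simp only [not_not]
    exact ties_R m h x _ (by positivity)
  filter_upwards [h1] with ω hω
  intro p hp q hq hpq
  by_contra hne
  obtain ⟨n, hn⟩ := exists_nat_ge (dist x p)
  exact hω n ⟨p, hp, q, hq, hpq, hne, by linarith⟩

end FPPX
end

section

/-! Uniqueness of the law of the particles in a cell. -/

namespace FPPX

open MeasureTheory ProbabilityTheory Filter Set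
open scoped Topology

variable {d : ℕ}

/-- the information on the numbers of particles in the boxes of level `m` -/
noncomputable def lev (d m : ℕ) : MeasurableSpace (Cfg d) :=
  ⨆ (k : Fin d → Fin (2 ^ m)), MeasurableSpace.comap (Cfg.cnt m k) ⊤

private theorem law_lev_le (m : ℕ) : lev d m ≤ Cfg.instMeasurableSpace d :=
  le_iSup (fun m => lev d m) m

private theorem law_measurable_cnt_lev (m : ℕ) (k : Fin d → Fin (2 ^ m)) :
    Measurable[lev d m] (Cfg.cnt (d := d) m k) := by
  rw [measurable_iff_comap_le]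
  exact le_iSup (fun k : Fin d → Fin (2 ^ m) => MeasurableSpace.comap (Cfg.cnt m k) ⊤) k

theorem measurable_cnt (m : ℕ) (k : Fin d → Fin (2 ^ m)) : Measurable (Cfg.cnt (d := d) m k) :=
  (law_measurable_cnt_lev m k).mono (law_lev_le m) le_rfl

theorem lev_le (m : ℕ) : lev d m ≤ Cfg.instMeasurableSpace d := law_lev_le m

/-- the boxes of level `m + 1` in a box of level `m` -/
private def law_sub (m : ℕ) (k : Fin d → Fin (2 ^ m)) (k' : Fin d → Fin (2 ^ (m + 1))) : Prop :=
  ∀ i, (k' i : ℕ) / 2 = (k i : ℕ)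

private theorem law_box_split (m : ℕ) (k : Fin d → Fin (2 ^ m)) :
    dbox m (fun i => ((k i : ℕ) : ℤ)) =
      ⋃ k' : {k' : Fin d → Fin (2 ^ (m + 1)) // law_sub m k k'},
        dbox (m + 1) (fun i => ((k'.1 i : ℕ) : ℤ)) := by
  ext x
  constructor
  · intro hx
    have h1 : dix m x = fun i => ((k i : ℕ) : ℤ) := hx
    rw [dix_succ] at h1
    have h2 : ∀ i, dix (m + 1) x i / 2 = ((k i : ℕ) : ℤ) := fun i => congrFun h1 i
    have h3 : ∀ i, 0 ≤ dix (m + 1) x i := by
      intro i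
      have := h2 i
      omega
    have h4 : ∀ i, (dix (m + 1) x i).toNat < 2 ^ (m + 1) := by
      intro i
      have h5 := h2 i
      have h6 := (k i).2
      have h7 : 2 ^ (m + 1) = 2 * 2 ^ m := pow_succ' 2 m
      have h8 := h3 i
      rw [h7]
      omega
    rw [mem_iUnion]
    refine ⟨⟨fun i => ⟨(dix (m + 1) x i).toNat, h4 i⟩, ?_⟩, ?_⟩
    · intro i
      have h5 := h2 i
      have h8 := h3 i
      simp only
      omega
    · change dix (m + 1) x = _
      funext i
      simp only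
      rw [Int.toNat_of_nonneg (h3 i)]
  · intro hx
    rw [mem_iUnion] at hx
    obtain ⟨⟨k', hk'⟩, hx⟩ := hx
    have h1 : dix (m + 1) x = fun i => ((k' i : ℕ) : ℤ) := hx
    change dix m x = _
    rw [dix_succ, h1]
    funext i
    have := hk' i
    simp only
    omega

private theorem law_cnt_split (m : ℕ) (k : Fin d → Fin (2 ^ m)) (S : Cfg d) :
    S.cnt m k = ∑ᶠ k' : {k' : Fin d → Fin (2 ^ (m + 1)) // law_sub m k k'}, S.cnt (m + 1) k'.1 := by
  unfold Cfg.cnt
  rw [law_box_split m k, inter_iUnion, encard_iUnion_of_finite]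
  intro k1 k2 h12
  refine Disjoint.mono inter_subset_right inter_subset_right ?_
  apply disjoint_dbox
  intro h
  apply h12
  apply Subtype.ext
  funext i
  have := congrFun h i
  apply Fin.ext
  exact_mod_cast this

private theorem law_lev_succ (m : ℕ) : lev d m ≤ lev d (m + 1) := by
  classical
  unfold lev
  apply iSup_le
  intro k
  change MeasurableSpace.comap (Cfg.cnt m k) ⊤ ≤ lev d (m + 1)
  have h : Measurable[lev d (m + 1)] (Cfg.cnt (d := d) m k) := by
    have h1 : Cfg.cnt (d := d) m k = fun S =>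
        ∑ k' : {k' : Fin d → Fin (2 ^ (m + 1)) // law_sub m k k'}, S.cnt (m + 1) k'.1 := by
      funext S
      rw [law_cnt_split, finsum_eq_sum_of_fintype]
    rw [h1]
    exact Finset.measurable_sum _ fun k' _ => law_measurable_cnt_lev (m + 1) k'.1
  exact measurable_iff_comap_le.1 h

theorem lev_mono {m m' : ℕ} (h : m ≤ m') : lev d m ≤ lev d m' := by
  induction m', h using Nat.le_induction with
  | base => exact le_rfl
  | succ n _ ih => exact ih.trans (law_lev_succ n)

/-- the sets which are measurable at some level form a pi-system generating everything -/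
theorem lev_piSystem : IsPiSystem {A : Set (Cfg d) | ∃ m, MeasurableSet[lev d m] A} := by
  rintro A ⟨m, hA⟩ B ⟨m', hB⟩ -
  refine ⟨max m m', ?_⟩
  exact MeasurableSet.inter (lev_mono (le_max_left m m') A hA) (lev_mono (le_max_right m m') B hB)

theorem lev_generate : Cfg.instMeasurableSpace d =
    MeasurableSpace.generateFrom {A : Set (Cfg d) | ∃ m, MeasurableSet[lev d m] A} :=
  MeasurableSpace.measurableSpace_iSup_eq (fun m => lev d m)

end FPPX
end

section

/-! Uniqueness of the law of the particles in a cell. -/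

namespace FPPX

open MeasureTheory ProbabilityTheory Filter Set
open scoped Topology

variable {d : ℕ}

/-- the vector of counts of level `m` generates `lev d m` -/
private lemma lev_eq_comap (m : ℕ) : lev d m =
    MeasurableSpace.comap (fun (S : Cfg d) (k : Fin d → Fin (2 ^ m)) => S.cnt m k)
      MeasurableSpace.pi := by
  unfold lev MeasurableSpace.pi
  rw [MeasurableSpace.comap_iSup]
  refine iSup_congr fun k => ?_
  rw [MeasurableSpace.comap_comp]
  rfl

/-- two probability measures on `ℕ∞` which agree on the finite points are equal -/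
private lemma enat_ext {μ ν : Measure ℕ∞} [IsProbabilityMeasure μ] [IsProbabilityMeasure ν]
    (h : ∀ n : ℕ, μ.real {(n : ℕ∞)} = ν.real {(n : ℕ∞)}) : μ = ν := by
  have h1 : ∀ n : ℕ, μ {(n : ℕ∞)} = ν {(n : ℕ∞)} := by
    intro n
    rw [← ENNReal.toReal_eq_toReal_iff' (measure_ne_top _ _) (measure_ne_top _ _)]
    exact h n
  have h2 : ({⊤} : Set ℕ∞)ᶜ = ⋃ n : ℕ, {(n : ℕ∞)} := by
    ext x
    simp only [mem_compl_iff, mem_singleton_iff, mem_iUnion]
    constructor
    · intro hx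
      exact ⟨x.toNat, (ENat.natCast_toNat hx).symm⟩
    · rintro ⟨n, rfl⟩
      exact ENat.natCast_ne_top n
  have h3 : ∀ (ρ : Measure ℕ∞), ρ ({⊤} : Set ℕ∞)ᶜ = ∑' n : ℕ, ρ {(n : ℕ∞)} := by
    intro ρ
    rw [h2, measure_iUnion]
    · intro i j hij
      rw [Function.onFun, Set.disjoint_singleton]
      exact fun h => hij (by exact_mod_cast h)
    · intro i
      exact MeasurableSet.singleton _
  have h4 : μ ({⊤} : Set ℕ∞)ᶜ = ν ({⊤} : Set ℕ∞)ᶜ := by
    rw [h3, h3]
    exact tsum_congr h1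
  have h5 : μ ({⊤} : Set ℕ∞) = ν ({⊤} : Set ℕ∞) := by
    have h6 := prob_compl_eq_one_sub (μ := μ) (MeasurableSet.singleton (⊤ : ℕ∞)).compl
    have h7 := prob_compl_eq_one_sub (μ := ν) (MeasurableSet.singleton (⊤ : ℕ∞)).compl
    rw [compl_compl] at h6 h7
    rw [h6, h7, h4]
  apply Measure.ext_of_singleton
  intro a
  induction a using ENat.recTopCoe with
  | top => exact h5
  | coe n => exact h1 n

/-- both laws agree on the sets of level `m` -/
private lemma lev_agree {Λ Λ' : Measure (Cfg d)} (h : IsCellLaw Λ) (h' : IsCellLaw Λ') (m : ℕ)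
    (A : Set (Cfg d)) (hA : MeasurableSet[lev d m] A) : Λ A = Λ' A := by
  have := h.prob
  have := h'.prob
  set F : Cfg d → (Fin d → Fin (2 ^ m)) → ℕ∞ := fun S k => S.cnt m k with hF
  have hFm : Measurable F := measurable_pi_lambda _ (fun k => measurable_cnt m k)
  have hmap : ∀ k, Λ.map (fun S : Cfg d => S.cnt m k) = Λ'.map (fun S : Cfg d => S.cnt m k) := by
    intro k
    have hm : Measurable (fun S : Cfg d => S.cnt m k) := measurable_cnt m k
    have : IsProbabilityMeasure (Λ.map (fun S : Cfg d => S.cnt m k)) :=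
      Measure.isProbabilityMeasure_map hm.aemeasurable
    have : IsProbabilityMeasure (Λ'.map (fun S : Cfg d => S.cnt m k)) :=
      Measure.isProbabilityMeasure_map hm.aemeasurable
    apply enat_ext
    intro n
    rw [map_measureReal_apply hm (MeasurableSet.singleton _),
      map_measureReal_apply hm (MeasurableSet.singleton _)]
    exact (h.law m k n).trans (h'.law m k n).symm
  have hpi : Λ.map F = Λ'.map F := by
    have h1 := (iIndepFun_iff_map_fun_eq_pi_map (μ := Λ)
      (f := fun (k : Fin d → Fin (2 ^ m)) (S : Cfg d) => S.cnt m k)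
      (fun k => (measurable_cnt m k).aemeasurable)).mp (h.indep m)
    have h2 := (iIndepFun_iff_map_fun_eq_pi_map (μ := Λ')
      (f := fun (k : Fin d → Fin (2 ^ m)) (S : Cfg d) => S.cnt m k)
      (fun k => (measurable_cnt m k).aemeasurable)).mp (h'.indep m)
    rw [hF, h1, h2]
    congr 1
    funext k
    exact hmap k
  rw [lev_eq_comap] at hA
  obtain ⟨B, hB, rfl⟩ := hA
  rw [← Measure.map_apply hFm hB, ← Measure.map_apply hFm hB, hpi]

theorem IsCellLaw.unique {Λ Λ' : Measure (Cfg d)} (h : IsCellLaw Λ) (h' : IsCellLaw Λ') :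
    Λ = Λ' := by
  have := h.prob
  have := h'.prob
  apply ext_of_generate_finite _ lev_generate lev_piSystem
  · rintro A ⟨m, hA⟩
    exact lev_agree h h' m A hA
  · simp

end FPPX
end

section

/-! A chain of particles following a lattice path: deterministic bound. -/

namespace FPPX

open MeasureTheory ProbabilityTheory Filter Set
open scoped Topology

variable {d : ℕ}

open Classical in
/-- cost of the runs of empty cells starting at the `i`-th site of a path with `N + 1` sites -/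
noncomputable def runc (α : ℝ) (G N : ℕ) (w : ℕ → V d) (i : ℕ) (ω : Env d) : ℝ :=
  ∑ g ∈ Finset.range (G + 1),
    if i + g ≤ N + 1 ∧ ∀ j < g, ¬ occ ω (w (i + j)) then (((d : ℝ) + 1) * (1 + g)) ^ α else 0

private lemma hsA_runc_nonneg (α : ℝ) (G N : ℕ) (w : ℕ → V d) (i : ℕ) (ω : Env d) :
    0 ≤ runc α G N w i ω := by
  unfold runc
  refine Finset.sum_nonneg fun g _ => ?_
  split_ifs
  · positivity
  · exact le_rfl

private lemma hsA_runc_ge (α : ℝ) (G N : ℕ) (w : ℕ → V d) (i : ℕ) (ω : Env d) (g : ℕ)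
    (hg : g ≤ G) (h1 : i + g ≤ N + 1) (h2 : ∀ j < g, ¬ occ ω (w (i + j))) :
    (((d : ℝ) + 1) * (1 + g)) ^ α ≤ runc α G N w i ω := by
  classical
  unfold runc
  have := Finset.single_le_sum (s := Finset.range (G + 1))
    (f := fun g : ℕ => if i + g ≤ N + 1 ∧ ∀ j < g, ¬ occ ω (w (i + j))
      then (((d : ℝ) + 1) * (1 + g)) ^ α else 0)
    (fun g _ => by
      split_ifs
      · positivity
      · exact le_rfl) (Finset.mem_range.mpr (Nat.lt_succ_of_le hg))
  refine le_trans (le_of_eq ?_) this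
  rw [if_pos ⟨h1, h2⟩]

private lemma hsA_dist {N : ℕ} {w : ℕ → V d}
    (hw : ∀ i < N, ‖emb (w (i + 1)) - emb (w i)‖ ≤ 1) (i k : ℕ) (hk : i + k ≤ N) :
    ‖emb (w (i + k)) - emb (w i)‖ ≤ k := by
  induction k with
  | zero => simp
  | succ k ih =>
    have h1 := ih (by omega)
    have h2 := hw (i + k) (by omega)
    have h3 : emb (w (i + (k + 1))) - emb (w i) =
        (emb (w (i + k + 1)) - emb (w (i + k))) + (emb (w (i + k)) - emb (w i)) := by
      rw [← add_assoc]
      abel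
    rw [h3]
    push_cast
    linarith [norm_add_le (emb (w (i + k + 1)) - emb (w (i + k))) (emb (w (i + k)) - emb (w i))]

private lemma hsA_occ {ω : Env d} {K : Set (V d)} {z : V d} (hz : z ∈ K) (h : occ ω z) :
    ∃ q ∈ parts ω ∩ hat K, ‖q - emb z‖ ≤ d / 2 := by
  obtain ⟨q, hq1, hq2⟩ := h
  have hq3 : latt q = z := by
    rw [← dix_zero]
    exact hq2
  refine ⟨q, ⟨hq1, ?_⟩, ?_⟩
  · change latt q ∈ K
    rw [hq3]
    exact hz
  · rw [← hq3]
    exact norm_sub_emb_latt q

private lemma hsA_tri (a b c e : RR d) : ‖a - b‖ ≤ ‖a - c‖ + ‖e - c‖ + ‖b - e‖ := by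
  have h : a - b = (a - c) - (e - c) - (b - e) := by abel
  rw [h]
  have h1 := norm_sub_le (a - c - (e - c)) (b - e)
  have h2 := norm_sub_le (a - c) (e - c)
  linarith

private lemma hsA_main {α : ℝ} (hα : 1 ≤ α) {ω : Env d} {K : Set (V d)} {R : ℝ} {G N : ℕ}
    {w : ℕ → V d}
    (hw : ∀ i < N, ‖emb (w (i + 1)) - emb (w i)‖ ≤ 1) (hK : ∀ i ≤ N, w i ∈ K)
    {p : RR d} (hp : p ∈ parts ω ∩ hat K) (hpR : ‖p - emb (w 0)‖ ≤ R)
    (hG : ∀ i, i + G ≤ N + 1 → ∃ j, i ≤ j ∧ j < i + G ∧ occ ω (w j)) (n : ℕ) (hn : n ≤ N) :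
    (∀ j ≤ n, ¬ occ ω (w j)) ∨ ∃ j ≤ n, ∃ q ∈ parts ω ∩ hat K, ‖q - emb (w j)‖ ≤ d / 2 ∧
      (∀ i, j < i → i ≤ n → ¬ occ ω (w i)) ∧ ∃ c, Wk α (parts ω ∩ hat K) p q c ∧
        c ≤ (R + G + d) ^ α + ∑ i ∈ Finset.range (j + 1), runc α G N w i ω := by
  have hdn : (0 : ℝ) ≤ d := Nat.cast_nonneg d
  have hGn : (0 : ℝ) ≤ G := Nat.cast_nonneg G
  have hα0 : 0 ≤ α := by linarith
  induction n with
  | zero =>
    by_cases h : occ ω (w 0)
    · right
      obtain ⟨q, hq, hqd⟩ := hsA_occ (hK 0 (by omega)) h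
      refine ⟨0, le_rfl, q, hq, hqd, fun i h1 h2 => by omega, ‖p - q‖ ^ α, Wk.hop hp hq, ?_⟩
      have h1 : ‖p - q‖ ≤ R + G + d := by
        have := hsA_tri p q (emb (w 0)) (emb (w 0))
        rw [sub_self, norm_zero] at this
        linarith
      have h2 : ‖p - q‖ ^ α ≤ (R + G + d) ^ α := Real.rpow_le_rpow (norm_nonneg _) h1 hα0
      have h3 : 0 ≤ ∑ i ∈ Finset.range (0 + 1), runc α G N w i ω :=
        Finset.sum_nonneg fun i _ => hsA_runc_nonneg α G N w i ω
      linarith
    · left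
      intro j hj
      have : j = 0 := by omega
      subst this
      exact h
  | succ n ih =>
    have ih := ih (by omega)
    by_cases h : occ ω (w (n + 1))
    · right
      obtain ⟨q', hq', hqd'⟩ := hsA_occ (hK (n + 1) hn) h
      rcases ih with ih | ⟨j, hj, q, hq, hqd, hemp, c, hc, hcle⟩
      · refine ⟨n + 1, le_rfl, q', hq', hqd', fun i h1 h2 => by omega, ‖p - q'‖ ^ α,
          Wk.hop hp hq', ?_⟩
        have hnG : n + 1 ≤ G := by
          by_contra hcon
          obtain ⟨j, _, hj2, hj3⟩ := hG 0 (by omega)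
          exact ih j (by omega) hj3
        have h0 : ‖emb (w (n + 1)) - emb (w 0)‖ ≤ ((n + 1 : ℕ) : ℝ) := by
          have := hsA_dist hw 0 (n + 1) (by omega)
          rwa [zero_add] at this
        have hnG' : ((n + 1 : ℕ) : ℝ) ≤ G := by exact_mod_cast hnG
        have h1 : ‖p - q'‖ ≤ R + G + d := by
          have := hsA_tri p q' (emb (w 0)) (emb (w (n + 1)))
          linarith
        have h2 : ‖p - q'‖ ^ α ≤ (R + G + d) ^ α := Real.rpow_le_rpow (norm_nonneg _) h1 hα0
        have h3 : 0 ≤ ∑ i ∈ Finset.range (n + 1 + 1), runc α G N w i ω :=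
          Finset.sum_nonneg fun i _ => hsA_runc_nonneg α G N w i ω
        linarith
      · obtain ⟨g, rfl⟩ : ∃ g, n = j + g := ⟨n - j, by omega⟩
        refine ⟨j + g + 1, le_rfl, q', hq', hqd', fun i h1 h2 => by omega, c + ‖q - q'‖ ^ α,
          hc.trans (Wk.hop hq hq'), ?_⟩
        have hgG : g ≤ G := by
          by_contra hcon
          obtain ⟨i, hi1, hi2, hi3⟩ := hG (j + 1) (by omega)
          exact hemp i (by omega) (by omega) hi3
        have h0 : ‖emb (w (j + g + 1)) - emb (w j)‖ ≤ ((g + 1 : ℕ) : ℝ) :=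
          hsA_dist hw j (g + 1) (by omega)
        have h1 : ‖q - q'‖ ≤ ((d : ℝ) + 1) * (1 + g) := by
          have := hsA_tri q q' (emb (w j)) (emb (w (j + g + 1)))
          push_cast at h0
          have hgn : (0 : ℝ) ≤ (d : ℝ) * g := by positivity
          nlinarith
        have h2 : ‖q - q'‖ ^ α ≤ (((d : ℝ) + 1) * (1 + g)) ^ α :=
          Real.rpow_le_rpow (norm_nonneg _) h1 hα0
        have h3 : (((d : ℝ) + 1) * (1 + g)) ^ α ≤ runc α G N w (j + 1) ω :=
          hsA_runc_ge α G N w (j + 1) ω g hgG (by omega)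
            (fun i hi => hemp (j + 1 + i) (by omega) (by omega))
        have h4 : ∑ i ∈ Finset.range (j + 1 + 1), runc α G N w i ω ≤
            ∑ i ∈ Finset.range (j + g + 1 + 1), runc α G N w i ω := by
          refine Finset.sum_le_sum_of_subset_of_nonneg ?_
            fun i _ _ => hsA_runc_nonneg α G N w i ω
          intro i hi
          rw [Finset.mem_range] at hi ⊢
          omega
        rw [Finset.sum_range_succ] at h4
        linarith
    · rcases ih with ih | ⟨j, hj, q, hq, hqd, hemp, c, hc, hcle⟩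
      · left
        intro j hj
        rcases Nat.lt_or_ge j (n + 1) with h1 | h1
        · exact ih j (by omega)
        · have : j = n + 1 := by omega
          subst this
          exact h
      · right
        refine ⟨j, by omega, q, hq, hqd, ?_, c, hc, hcle⟩
        intro i h1 h2
        rcases Nat.lt_or_ge i (n + 1) with h3 | h3
        · exact hemp i h1 (by omega)
        · have : i = n + 1 := by omega
          subst this
          exact h

theorem hsA {α : ℝ} (hα : 1 ≤ α) {ω : Env d} {K : Set (V d)} {u v : V d} {R : ℝ} {G N : ℕ}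
    {w : ℕ → V d} (hR : 0 ≤ R) (h0 : w 0 = u) (hN : w N = v)
    (hw : ∀ i < N, ‖emb (w (i + 1)) - emb (w i)‖ ≤ 1) (hK : ∀ i ≤ N, w i ∈ K)
    (hu : ∃ p ∈ parts ω ∩ hat K, ‖p - emb u‖ ≤ R) (hv : ∃ q ∈ parts ω ∩ hat K, ‖q - emb v‖ ≤ R)
    (hG : ∀ i, i + G ≤ N + 1 → ∃ j, i ≤ j ∧ j < i + G ∧ occ ω (w j)) :
    ∃ p q c, Wk α (parts ω ∩ hat K) p q c ∧
      (2 * ‖p - emb u‖) ^ α + c + (2 * ‖q - emb v‖) ^ α ≤
        4 * (2 * (R + G + d)) ^ α + ∑ i ∈ Finset.range (N + 1), runc α G N w i ω := by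
  subst h0
  subst hN
  obtain ⟨p, hp, hpR⟩ := hu
  obtain ⟨q, hq, hqR⟩ := hv
  have hdn : (0 : ℝ) ≤ d := Nat.cast_nonneg d
  have hGn : (0 : ℝ) ≤ G := Nat.cast_nonneg G
  have hα0 : 0 ≤ α := by linarith
  have e1 : (2 * ‖p - emb (w 0)‖) ^ α ≤ (2 * (R + G + d)) ^ α :=
    Real.rpow_le_rpow (by positivity) (by linarith) hα0
  have e2 : (2 * ‖q - emb (w N)‖) ^ α ≤ (2 * (R + G + d)) ^ α :=
    Real.rpow_le_rpow (by positivity) (by linarith) hα0
  have e3 : (R + G + d) ^ α ≤ (2 * (R + G + d)) ^ α :=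
    Real.rpow_le_rpow (by positivity) (by linarith) hα0
  have e4 : 0 ≤ (2 * (R + G + d)) ^ α := by positivity
  rcases hsA_main hα hw hK hp hpR hG N le_rfl with h | ⟨j, hj, q', hq', hqd', hemp, c, hc, hcle⟩
  · have hNG : N + 1 < G := by
      by_contra hcon
      obtain ⟨j, _, hj2, hj3⟩ := hG 0 (by omega)
      exact h j (by omega) hj3
    have hd1 : ‖emb (w N) - emb (w 0)‖ ≤ (N : ℝ) := by
      have := hsA_dist hw 0 N (by omega)
      rwa [zero_add] at this
    have hNG' : ((N + 1 : ℕ) : ℝ) ≤ G := by exact_mod_cast hNG.le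
    push_cast at hNG'
    have hd2 : ‖p - q‖ ≤ 2 * (R + G + d) := by
      have := hsA_tri p q (emb (w 0)) (emb (w N))
      linarith
    have e5 : ‖p - q‖ ^ α ≤ (2 * (R + G + d)) ^ α :=
      Real.rpow_le_rpow (norm_nonneg _) hd2 hα0
    refine ⟨p, q, ‖p - q‖ ^ α, Wk.hop hp hq, ?_⟩
    have h3 : 0 ≤ ∑ i ∈ Finset.range (N + 1), runc α G N w i ω :=
      Finset.sum_nonneg fun i _ => hsA_runc_nonneg α G N w i ω
    linarith
  · obtain ⟨g, rfl⟩ : ∃ g, N = j + g := ⟨N - j, by omega⟩
    have hgG : g ≤ G := by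
      by_contra hcon
      obtain ⟨i, hi1, hi2, hi3⟩ := hG (j + 1) (by omega)
      exact hemp i (by omega) (by omega) hi3
    have hd1 : ‖emb (w (j + g)) - emb (w j)‖ ≤ (g : ℝ) := hsA_dist hw j g le_rfl
    have hgG' : (g : ℝ) ≤ G := by exact_mod_cast hgG
    have hd2 : ‖q' - q‖ ≤ R + G + d := by
      have := hsA_tri q' q (emb (w j)) (emb (w (j + g)))
      linarith
    have e5 : ‖q' - q‖ ^ α ≤ (R + G + d) ^ α :=
      Real.rpow_le_rpow (norm_nonneg _) hd2 hα0
    refine ⟨p, q, c + ‖q' - q‖ ^ α, hc.trans (Wk.hop hq' hq), ?_⟩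
    have h4 : ∑ i ∈ Finset.range (j + 1), runc α G (j + g) w i ω ≤
        ∑ i ∈ Finset.range (j + g + 1), runc α G (j + g) w i ω := by
      refine Finset.sum_le_sum_of_subset_of_nonneg ?_
        fun i _ _ => hsA_runc_nonneg α G (j + g) w i ω
      intro i hi
      rw [Finset.mem_range] at hi ⊢
      omega
    linarith

end FPPX
end

section

/-! Monotone lattice paths in half spaces, as sequences of sites. -/

namespace FPPX

open MeasureTheory ProbabilityTheory Filter Set
open scoped Topology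

variable {d : ℕ}

private lemma mpath_norm_single (i : Fin d) : ‖emb (Pi.single i 1 : V d)‖ = 1 := by
  have h : emb (Pi.single i 1 : V d) = EuclideanSpace.single i (1 : ℝ) := by
    ext j
    rw [emb_apply]
    by_cases hj : j = i
    · subst hj; simp
    · simp [hj]
  rw [h, PiLp.norm_single]
  simp

private def MPathGood (ν : E d →ₗ[ℝ] ℝ) (a : ℝ) (m : ℕ) (u v : V d) : Prop :=
  ∃ w : ℕ → V d, w 0 = u ∧ w m = v ∧ (∀ i < m, ‖emb (w (i + 1)) - emb (w i)‖ ≤ 1) ∧
    (∀ i ≤ m, ∀ j ≤ m, w i = w j → i = j) ∧ (∀ i ≤ m, a ≤ ν (tr (w i))) ∧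
    ∀ i ≤ m, ∀ j, min (u j) (v j) ≤ w i j ∧ w i j ≤ max (u j) (v j)

private lemma MPathGood.symm {ν : E d →ₗ[ℝ] ℝ} {a : ℝ} {m : ℕ} {u v : V d}
    (h : MPathGood ν a m u v) : MPathGood ν a m v u := by
  obtain ⟨w, h1, h2, h3, h4, h5, h6⟩ := h
  refine ⟨fun i => w (m - i), by simpa using h2, by simpa using h1, ?_, ?_, ?_, ?_⟩
  · intro i hi
    have h7 := h3 (m - (i + 1)) (by omega)
    have h8 : m - (i + 1) + 1 = m - i := by omega
    rw [h8] at h7
    rw [norm_sub_rev]
    exact h7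
  · intro i hi j hj hij
    have := h4 (m - i) (by omega) (m - j) (by omega) hij
    omega
  · intro i _
    exact h5 (m - i) (by omega)
  · intro i _ j
    rw [min_comm, max_comm]
    exact h6 (m - i) (by omega) j

private lemma mpath_sum_step (u v : V d) (i : Fin d) (u' : V d) (h : ∀ j, j ≠ i → u' j = u j)
    (hi : (v i - u i).natAbs = (v i - u' i).natAbs + 1) :
    ∑ j, (v j - u j).natAbs = (∑ j, (v j - u' j).natAbs) + 1 := by
  rw [← Finset.add_sum_erase _ _ (Finset.mem_univ i),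
    ← Finset.add_sum_erase (a := i) Finset.univ (fun j => (v j - u' j).natAbs) (Finset.mem_univ i),
    hi]
  have : ∑ x ∈ Finset.univ.erase i, (v x - u x).natAbs
      = ∑ x ∈ Finset.univ.erase i, (v x - u' x).natAbs := by
    apply Finset.sum_congr rfl
    intro j hj
    rw [h j (Finset.ne_of_mem_erase hj)]
  rw [this]; ring

/-- adding a site in front -/
private lemma mpath_cons (ν : E d →ₗ[ℝ] ℝ) (a : ℝ) (m : ℕ) (u u' v : V d)
    (hu : a ≤ ν (tr u)) (hn : ‖emb u' - emb u‖ ≤ 1) (i : Fin d)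
    (hout : u i < min (u' i) (v i) ∨ max (u' i) (v i) < u i)
    (hbox : ∀ j, min (u j) (v j) ≤ min (u' j) (v j) ∧ max (u' j) (v j) ≤ max (u j) (v j))
    (h : MPathGood ν a m u' v) : MPathGood ν a (m + 1) u v := by
  obtain ⟨w, h1, h2, h3, h4, h5, h6⟩ := h
  have hne : ∀ k ≤ m, u ≠ w k := by
    intro k hk he
    have h7 := h6 k hk i
    rw [← he] at h7
    omega
  refine ⟨fun n => match n with | 0 => u | n + 1 => w n, rfl, h2, ?_, ?_, ?_, ?_⟩
  · intro k hk
    cases k with
    | zero => simpa [h1] using hn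
    | succ k => exact h3 k (by omega)
  · intro k hk l hl hkl
    cases k with
    | zero =>
      cases l with
      | zero => rfl
      | succ l => exact absurd hkl (hne l (by omega))
    | succ k =>
      cases l with
      | zero => exact absurd hkl.symm (hne k (by omega))
      | succ l =>
        have := h4 k (by omega) l (by omega) hkl
        omega
  · intro k hk
    cases k with
    | zero => exact hu
    | succ k => exact h5 k (by omega)
  · intro k hk j
    cases k with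
    | zero => exact ⟨min_le_left _ _, le_max_left _ _⟩
    | succ k =>
      have h7 := h6 k (by omega) j
      exact ⟨(hbox j).1.trans h7.1, h7.2.trans (hbox j).2⟩

private lemma mpath_step (ν : E d →ₗ[ℝ] ℝ) (a : ℝ) (m : ℕ)
    (ih : ∀ u v : V d, ∑ i, (v i - u i).natAbs = m → a ≤ ν (tr u) → a ≤ ν (tr v) →
      MPathGood ν a m u v) (u v : V d) (hs : ∑ i, (v i - u i).natAbs = m + 1)
    (hu : a ≤ ν (tr u)) (hv : a ≤ ν (tr v)) (i : Fin d)
    (hi : (u i < v i ∧ 0 ≤ ν (tr (Pi.single i 1 : V d))) ∨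
      (v i < u i ∧ ν (tr (Pi.single i 1 : V d)) ≤ 0)) : MPathGood ν a (m + 1) u v := by
  rcases hi with ⟨h1, h2⟩ | ⟨h1, h2⟩
  · set u' : V d := u + Pi.single i 1 with hu'
    have e1 : ∀ j, j ≠ i → u' j = u j := by
      intro j hj; simp [hu', Pi.single_eq_of_ne hj]
    have e2 : u' i = u i + 1 := by simp [hu']
    have h3 : ∑ j, (v j - u' j).natAbs = m := by
      have h4 := mpath_sum_step u v i u' e1 (by rw [e2]; omega)
      omega
    have h4 : a ≤ ν (tr u') := by
      rw [hu', tr_add, map_add]; linarith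
    refine mpath_cons ν a m u u' v hu ?_ i (Or.inl (by omega)) ?_ (ih u' v h3 h4 hv)
    · rw [hu', emb_add, add_sub_cancel_left, mpath_norm_single]
    · intro j
      by_cases hj : j = i
      · subst hj
        rw [e2]; omega
      · rw [e1 j hj]; exact ⟨le_rfl, le_rfl⟩
  · set u' : V d := u - Pi.single i 1 with hu'
    have e1 : ∀ j, j ≠ i → u' j = u j := by
      intro j hj; simp [hu', Pi.single_eq_of_ne hj]
    have e2 : u' i = u i - 1 := by simp [hu']
    have h3 : ∑ j, (v j - u' j).natAbs = m := by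
      have h4 := mpath_sum_step u v i u' e1 (by rw [e2]; omega)
      omega
    have h4 : a ≤ ν (tr u') := by
      rw [hu', tr_sub, map_sub]; linarith
    refine mpath_cons ν a m u u' v hu ?_ i (Or.inr (by omega)) ?_ (ih u' v h3 h4 hv)
    · rw [hu', emb_sub, sub_sub_cancel_left, norm_neg, mpath_norm_single]
    · intro j
      by_cases hj : j = i
      · subst hj
        rw [e2]; omega
      · rw [e1 j hj]; exact ⟨le_rfl, le_rfl⟩

private lemma mpath_main (ν : E d →ₗ[ℝ] ℝ) (a : ℝ) : ∀ (m : ℕ) (u v : V d),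
    ∑ i, (v i - u i).natAbs = m → a ≤ ν (tr u) → a ≤ ν (tr v) → MPathGood ν a m u v := by
  intro m
  induction m with
  | zero =>
    intro u v hs hu hv
    have h1 : u = v := by
      funext i
      have h2 := (Finset.sum_eq_zero_iff.1 hs) i (Finset.mem_univ i)
      omega
    subst h1
    refine ⟨fun _ => u, rfl, rfl, fun i hi => absurd hi (Nat.not_lt_zero _), ?_, fun _ _ => hu,
      fun _ _ j => ⟨min_le_left _ _, le_max_left _ _⟩⟩
    intro i hi j hj _
    omega
  | succ m ih =>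
    intro u v hs hu hv
    obtain ⟨i, hi⟩ : ∃ i, u i ≠ v i := by
      by_contra hcon
      push Not at hcon
      have : ∑ i, (v i - u i).natAbs = 0 := by
        apply Finset.sum_eq_zero
        intro i _
        rw [hcon i]; simp
      omega
    have hs' : ∑ i, (u i - v i).natAbs = m + 1 := by
      rw [← hs]
      apply Finset.sum_congr rfl
      intro j _
      omega
    rcases lt_or_gt_of_ne hi with h1 | h1
    · rcases le_total 0 (ν (tr (Pi.single i 1 : V d))) with h2 | h2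
      · exact mpath_step ν a m ih u v hs hu hv i (Or.inl ⟨h1, h2⟩)
      · exact (mpath_step ν a m ih v u hs' hv hu i (Or.inr ⟨h1, h2⟩)).symm
    · rcases le_total 0 (ν (tr (Pi.single i 1 : V d))) with h2 | h2
      · exact (mpath_step ν a m ih v u hs' hv hu i (Or.inl ⟨h1, h2⟩)).symm
      · exact mpath_step ν a m ih u v hs hu hv i (Or.inr ⟨h1, h2⟩)

theorem exists_mono_sites (ν : E d →ₗ[ℝ] ℝ) (a : ℝ) (u v : V d) (hu : a ≤ ν (tr u))
    (hv : a ≤ ν (tr v)) : ∃ (N : ℕ) (w : ℕ → V d), w 0 = u ∧ w N = v ∧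
      (N : ℝ) ≤ d * nm (v - u) ∧ (∀ i < N, ‖emb (w (i + 1)) - emb (w i)‖ ≤ 1) ∧
      (∀ i ≤ N, ∀ j ≤ N, w i = w j → i = j) ∧ ∀ i ≤ N, a ≤ ν (tr (w i)) := by
  obtain ⟨w, h1, h2, h3, h4, h5, -⟩ := mpath_main ν a _ u v rfl hu hv
  refine ⟨_, w, h1, h2, ?_, h3, h4, h5⟩
  push_cast
  calc ∑ i, (((v i - u i).natAbs : ℕ) : ℝ) ≤ ∑ _i : Fin d, nm (v - u) := by
        apply Finset.sum_le_sum
        intro i _
        rw [Nat.cast_natAbs]
        have h5 : ‖tr (v - u) i‖ ≤ ‖tr (v - u)‖ := norm_le_pi_norm _ i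
        simpa [tr, nm] using h5
    _ = d * nm (v - u) := by simp

/-- a straight half line of sites in the half space -/
theorem exists_ray (hd : 1 ≤ d) (ν : E d →ₗ[ℝ] ℝ) (a : ℝ) (u : V d) (hu : a ≤ ν (tr u)) :
    ∃ e : V d, (∀ n m : ℕ, u + n • e = u + m • e → n = m) ∧ ‖emb e‖ = 1 ∧
      ∀ n : ℕ, a ≤ ν (tr (u + n • e)) := by
  have key : ∀ e : V d, 0 ≤ ν (tr e) → ∀ n : ℕ, a ≤ ν (tr (u + n • e)) := by
    intro e he n
    induction n with
    | zero => simpa using hu
    | succ n ih =>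
      rw [succ_nsmul, ← add_assoc, tr_add, map_add]
      linarith
  set i : Fin d := ⟨0, by omega⟩ with hi
  rcases le_total 0 (ν (tr (Pi.single i 1 : V d))) with h | h
  · refine ⟨Pi.single i 1, ?_, mpath_norm_single i, key _ h⟩
    intro n m hnm
    have h1 := congrFun hnm i
    simpa using h1
  · refine ⟨0 - Pi.single i 1, ?_, ?_, key _ ?_⟩
    · intro n m hnm
      have h1 := congrFun hnm i
      simpa using h1
    · rw [emb_sub, emb_zero, zero_sub, norm_neg, mpath_norm_single]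
    · rw [tr_sub, map_sub]
      have h2 : tr (0 : V d) = 0 := by
        funext j; simp [tr]
      rw [h2, map_zero]
      linarith

end FPPX
end
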