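import Pool.Agent.Lib.MP_fa364e_pr.Mg.G003
import Pool.Agent.Lib.MP_fa364e_pr.Mg.G002
import Pool.Agent.Lib.MP_fa364e_pr.Mg.G009
import Pool.Agent.Lib.MP_fa364e_pr.Core.Lat
import Pool.Agent.Lib.MP_fa364e_pr.Mg.G001
import Pool.Agent.Lib.MP_fa364e_pr.Mg.G013
import Pool.Agent.Lib.MP_fa364e_pr.Mg.G014

section

/-! Probability of a bad block. -/

namespace FPPX

open MeasureTheory ProbabilityTheory Filter Set
open scoped Topology

variable {d : ℕ} {Ω : Type} [MeasurableSpace Ω] {P : Measure Ω} [IsProbabilityMeasure P]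

/-- Markov's inequality for the upper deviations -/
private theorem UpB_markov (M : PreLRM d P) (v w : V d) (s : ℝ) :
    s * P.real {ω | M.μ (tr (w - v)) + s < M.t ω v w} ≤
      ∫ ω, max (M.t ω 0 (w - v) - M.μ (tr (w - v))) 0 ∂P := by
  rcases le_or_gt s 0 with hs | hs
  · have h1 : s * P.real {ω | M.μ (tr (w - v)) + s < M.t ω v w} ≤ 0 :=
      mul_nonpos_of_nonpos_of_nonneg hs measureReal_nonneg
    have h2 : 0 ≤ ∫ ω, max (M.t ω 0 (w - v) - M.μ (tr (w - v))) 0 ∂P :=
      integral_nonneg (fun ω => le_max_right _ _)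
    linarith
  have h1 := M.real_shift v w (Ioi (M.μ (tr (w - v)) + s)) measurableSet_Ioi
  have h2 : {ω | M.t ω v w ∈ Ioi (M.μ (tr (w - v)) + s)} =
      {ω | M.μ (tr (w - v)) + s < M.t ω v w} := rfl
  rw [h2] at h1
  rw [h1]
  have hint : Integrable (fun ω => M.t ω 0 (w - v)) P := by
    simpa using M.integrable_pow 1 0 (w - v)
  have hint2 : Integrable (fun ω => max (M.t ω 0 (w - v) - M.μ (tr (w - v))) 0) P :=
    (hint.sub (integrable_const _)).pos_part
  have h3 := mul_meas_ge_le_integral_of_nonneg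
    (Eventually.of_forall fun ω => le_max_right (M.t ω 0 (w - v) - M.μ (tr (w - v))) 0) hint2 s
  refine le_trans ?_ h3
  apply mul_le_mul_of_nonneg_left _ hs.le
  refine measureReal_mono ?_
  intro ω hω
  have hω' : M.μ (tr (w - v)) + s < M.t ω 0 (w - v) := hω
  show s ≤ max (M.t ω 0 (w - v) - M.μ (tr (w - v))) 0
  exact le_max_of_le_left (by linarith)

/-- probability of a bad block -/
theorem LRM.block_prob (M : LRM d P) {γ δ : ℝ} (hγ : 0 < γ) (hU : M.U γ) (hδ : 0 < δ)
    (hδ4 : δ ≤ 1 / 4) : ∀ᶠ r : ℝ in atTop, ∀ v w : V d, nm v ≤ 2 * r →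
      nm (w - v) ≤ 2 * r ^ (1 - δ) →
      P.real (M.LE (bl v (M.Cl * (2 * r ^ (1 - δ)))) v w
        (M.μ (tr (w - v)) + r ^ (γ + 2 * δ)))ᶜ ≤ r ^ (-(3 * δ / 2)) := by
  obtain ⟨C, hC⟩ := hU
  have hC0 : 0 ≤ C := by
    have h1 := hC 0
    rw [nm_zero, add_zero, Real.one_rpow, mul_one] at h1
    exact (integral_nonneg (fun ω => le_max_right _ _)).trans h1
  have hLoc := (M.loc_scale (ε := γ) (a := 1 - δ) (B := 2) hγ (by linarith) (by norm_num) 2) 1
  have e1 : ∀ᶠ r : ℝ in atTop, (2 ^ γ) * r ^ ((1 - δ) * γ) ≤ (1 / 2) * r ^ (γ + 2 * δ) := by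
    apply ev_rpow_le _ (by norm_num)
    nlinarith [mul_pos hδ hγ]
  have e2 : ∀ᶠ r : ℝ in atTop, (2 * C * 3 ^ γ) * r ^ (-(2 * δ)) ≤ (1 / 2) * r ^ (-(3 * δ / 2)) :=
    ev_rpow_le _ (by norm_num) (by linarith)
  have e3 : ∀ᶠ r : ℝ in atTop, 1 * r ^ (-(1 : ℝ)) ≤ (1 / 2) * r ^ (-(3 * δ / 2)) :=
    ev_rpow_le _ (by norm_num) (by linarith)
  filter_upwards [hLoc, e1, e2, e3, eventually_ge_atTop 2] with r hLoc e1 e2 e3 hr2 v w hv hw
  have hr0 : 0 < r := by linarith
  have hr1 : 1 ≤ r := by linarith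
  set m : ℝ := r ^ (1 - δ) with hm
  have hm1 : 1 ≤ m := Real.one_le_rpow hr1 (by linarith)
  have hm0 : 0 < m := by linarith
  set τ : ℝ := r ^ (γ + 2 * δ) with hτ
  have hτ0 : 0 < τ := by positivity
  have hr22 : r ^ (2 : ℝ) = r * r := by
    rw [show (2 : ℝ) = ((2 : ℕ) : ℝ) by norm_num, Real.rpow_natCast]
    ring
  have hmγ : (2 * m) ^ γ ≤ τ / 2 := by
    rw [Real.mul_rpow (by norm_num) hm0.le, hm, ← Real.rpow_mul hr0.le]
    linarith
  have hsub : (M.LE (bl v (M.Cl * (2 * m))) v w (M.μ (tr (w - v)) + τ))ᶜ ⊆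
      {ω | M.μ (tr (w - v)) + τ / 2 < M.t ω v w} ∪
      {ω | ¬ M.LocAt ω (r ^ (2 : ℝ)) (2 * m) γ} := by
    intro ω hω
    by_contra hcon
    simp only [mem_union, mem_ofPred_eq, not_or, not_not, not_lt] at hcon
    obtain ⟨h1, h2⟩ := hcon
    apply hω
    have h3 := h2 v w (by rw [hr22]; nlinarith) hw
    exact M.LE_mono _ _ _ _ _ _ (le_refl _) (by linarith) h3
  have hP1 : P.real {ω | M.μ (tr (w - v)) + τ / 2 < M.t ω v w} ≤
      (2 * C * 3 ^ γ) * r ^ (-(2 * δ)) := by
    have h1 := UpB_markov M.toPreLRM v w (τ / 2)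
    have h2 := hC (w - v)
    have h3 : (1 + nm (w - v)) ^ γ ≤ 3 ^ γ * m ^ γ := by
      rw [← Real.mul_rpow (by norm_num) hm0.le]
      apply Real.rpow_le_rpow (by have := nm_nonneg (w - v); linarith) _ hγ.le
      linarith
    have h4 : C * (1 + nm (w - v)) ^ γ ≤ C * (3 ^ γ * m ^ γ) :=
      mul_le_mul_of_nonneg_left h3 hC0
    have h5 : P.real {ω | M.μ (tr (w - v)) + τ / 2 < M.t ω v w} ≤
        (2 * C * 3 ^ γ) * (m ^ γ / τ) := by
      have h6 : P.real {ω | M.μ (tr (w - v)) + τ / 2 < M.t ω v w} * τ ≤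
          2 * C * 3 ^ γ * m ^ γ := by linarith
      rw [← mul_div_assoc, le_div_iff₀ hτ0]
      exact h6
    refine h5.trans ?_
    apply mul_le_mul_of_nonneg_left _ (by positivity)
    rw [hm, hτ, ← Real.rpow_mul hr0.le, ← Real.rpow_sub hr0]
    apply Real.rpow_le_rpow_of_exponent_le hr1
    nlinarith [mul_pos hδ hγ]
  have hP2 : P.real {ω | ¬ M.LocAt ω (r ^ (2 : ℝ)) (2 * m) γ} ≤ 1 * r ^ (-(1 : ℝ)) := by
    have := hLoc
    push_cast at this
    rw [one_mul]
    exact this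
  calc P.real (M.LE (bl v (M.Cl * (2 * m))) v w (M.μ (tr (w - v)) + τ))ᶜ
      ≤ P.real ({ω | M.μ (tr (w - v)) + τ / 2 < M.t ω v w} ∪
        {ω | ¬ M.LocAt ω (r ^ (2 : ℝ)) (2 * m) γ}) := measureReal_mono hsub
    _ ≤ _ := measureReal_union_le _ _
    _ ≤ r ^ (-(3 * δ / 2)) := by linarith

end FPPX
end

section

/-! Multiscale upper bound: from first moments to super-polynomial tails. -/

namespace FPPX

open MeasureTheory ProbabilityTheory Filter Set
open scoped Topology

variable {d : ℕ} {Ω : Type} [MeasurableSpace Ω] {P : Measure Ω} [IsProbabilityMeasure P]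

omit [IsProbabilityMeasure P] in
/-- triangle inequality along a chain -/
private theorem UpStep_chain (M : PreLRM d P) (ω : Ω) (y : ℕ → V d) (k : ℕ) :
    M.t ω (y 0) (y k) ≤ ∑ j ∈ Finset.range k, M.t ω (y j) (y (j + 1)) := by
  induction k with
  | zero => simp [M.t_self]
  | succ k ih =>
    rw [Finset.sum_range_succ]
    exact (M.t_tri ω _ _ _).trans (add_le_add ih le_rfl)

/-- bounding the sum over blocks: `τ` for good blocks, `Q` for bad ones -/
private theorem UpStep_sum (k : ℕ) (T U : ℕ → ℝ) (τ Q : ℝ) (hτ : 0 ≤ τ) (hQ : 0 ≤ Q)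
    (N : ℕ) (I : Finset ℕ) (hI : I.card ≤ N)
    (h1 : ∀ j, j < k → j ∉ I → T j ≤ U j + τ) (h2 : ∀ j, j < k → j ∈ I → T j ≤ U j + Q) :
    ∑ j ∈ Finset.range k, T j ≤ ∑ j ∈ Finset.range k, U j + k * τ + N * Q := by
  classical
  have h3 : ∀ j ∈ Finset.range k, T j ≤ U j + τ + (if j ∈ I then Q else 0) := by
    intro j hj
    rw [Finset.mem_range] at hj
    by_cases h : j ∈ I
    · rw [if_pos h]; linarith [h2 j hj h]
    · rw [if_neg h]; linarith [h1 j hj h]
  have h4 := Finset.sum_le_sum h3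
  rw [Finset.sum_add_distrib, Finset.sum_add_distrib] at h4
  have h5 : ∑ j ∈ Finset.range k, (if j ∈ I then Q else 0) ≤ N * Q := by
    rw [← Finset.sum_filter, Finset.sum_const, nsmul_eq_mul]
    apply mul_le_mul_of_nonneg_right _ hQ
    have : (Finset.range k).filter (fun j => j ∈ I) ⊆ I := by
      intro j hj
      exact (Finset.mem_filter.mp hj).2
    exact_mod_cast (Finset.card_le_card this).trans hI
  have h6 : ∑ j ∈ Finset.range k, τ = k * τ := by simp
  linarith

theorem LRM.UpStep (M : LRM d P) {γ β δ : ℝ} (hγ : 0 < γ) (hU : M.U γ) (hUp : M.Up β)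
    (hβ : 0 < β) (hδ : 0 < δ) (hδ4 : δ ≤ 1 / 4) :
    M.Up (max (γ + 4 * δ) (β * (1 - δ / 2))) := by
  classical
  intro K
  set β' := max (γ + 4 * δ) (β * (1 - δ / 2)) with hβ'
  have hb1' : γ + 4 * δ ≤ β' := le_max_left _ _
  have hb2' : β * (1 - δ / 2) ≤ β' := le_max_right _ _
  have hCl := M.one_le_Cl
  have hCM := M.toPreLRM.isNm
  set L : ℕ := ⌈8 * M.Cl + 6⌉₊ with hL
  have hL1 : 8 * M.Cl + 6 ≤ (L : ℝ) := Nat.le_ceil _
  have hL2 : 1 ≤ L := by
    have : (1 : ℝ) ≤ (L : ℝ) := by linarith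
    exact_mod_cast this
  set b : ℕ := ⌈4 * ((K : ℝ) + 1) / δ⌉₊ with hb
  have hb1 : 4 * ((K : ℝ) + 1) / δ ≤ (b : ℝ) := Nat.le_ceil _
  have hb2 : (K : ℝ) + 1 ≤ (δ / 4) * b := by
    rw [div_le_iff₀ hδ] at hb1
    linarith
  have hG := ((M.toPreLRM.UpAll_of_Up hUp).scale (a := 1 - δ) (B := 2) (by linarith)
    (by norm_num) 2) (K + 1)
  have hBl := M.block_prob hγ hU hδ hδ4
  have e1 : ∀ᶠ r : ℝ in atTop, (|M.CM| * 2) * r ^ δ ≤ (1 / 3) * r ^ β' :=
    ev_rpow_le _ (by norm_num) (by linarith)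
  have e2 : ∀ᶠ r : ℝ in atTop, 2 * r ^ (γ + 3 * δ) ≤ (1 / 3) * r ^ β' :=
    ev_rpow_le _ (by norm_num) (by linarith)
  have e3 : ∀ᶠ r : ℝ in atTop, (((b * L : ℕ) : ℝ) * 2 ^ β) * r ^ (β * (1 - δ)) ≤
      (1 / 3) * r ^ β' := by
    apply ev_rpow_le _ (by norm_num)
    have : β * (1 - δ) < β * (1 - δ / 2) := by
      apply mul_lt_mul_of_pos_left _ hβ
      linarith
    linarith
  have e4 : ∀ᶠ r : ℝ in atTop, 2 * r ^ (-(δ / 2)) ≤ 1 * r ^ (-(δ / 4)) :=
    ev_rpow_le _ (by norm_num) (by linarith)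
  have e5 : ∀ᶠ r : ℝ in atTop, (3 : ℝ) ≤ 1 * r ^ (1 - δ) :=
    ev_const_le _ (by norm_num) (by linarith)
  filter_upwards [hG, hBl, e1, e2, e3, e4, e5, eventually_ge_atTop 2] with
    r hG hBl e1 e2 e3 e4 e5 hr2 x hx
  have hr0 : 0 < r := by linarith
  have hr1 : 1 ≤ r := by linarith
  rw [one_mul] at e4 e5
  rcases eq_or_ne x 0 with rfl | hx0
  · -- trivial case
    have h0 : M.μ (tr (0 : V d)) = 0 := by
      rw [tr_zero]
      have h1 := hCM.lb 0
      have h2 := hCM.ub 0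
      simp only [norm_zero, mul_zero] at h1 h2
      exact le_antisymm h2 h1
    have : {ω | M.μ (tr (0 : V d)) + r ^ β' < M.t ω 0 0} = ∅ := by
      ext ω
      simp only [mem_ofPred_eq, mem_empty_iff_false, iff_false, not_lt, M.t_self, h0, zero_add]
      positivity
    rw [this]
    simp only [measureReal_empty]
    positivity
  set m : ℝ := r ^ (1 - δ) with hm
  have hm1 : 1 ≤ m := by linarith
  have hm0 : 0 < m := by linarith
  obtain ⟨k, y, hk1, hk2, hy0, hyk, hstep, hybd, hysep, hysum⟩ := blocks hCM x hx0 m hm1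
  have hrd : r / m = r ^ δ := by
    rw [hm, div_eq_iff (by positivity), ← Real.rpow_add hr0]
    conv_lhs => rw [← Real.rpow_one r]
    congr 1; ring
  have hrδ : 1 ≤ r ^ δ := Real.one_le_rpow hr1 hδ.le
  have hk3 : (k : ℝ) ≤ 2 * r ^ δ := by
    have : nm x / m ≤ r / m := div_le_div_of_nonneg_right hx hm0.le
    rw [hrd] at this
    linarith
  -- distinctness
  have hinj : ∀ i j, i < k → j < k → y i = y j → i = j := by
    have key : ∀ i j, i < j → j < k → y i ≠ y j := by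
      intro i j hij hj h
      have h1 := hysep i j hij hj
      rw [h, sub_self, nm_zero] at h1
      have h2 : (1 : ℝ) ≤ (j : ℝ) - i := by
        have : ((i + 1 : ℕ) : ℝ) ≤ j := by exact_mod_cast hij
        push_cast at this
        linarith
      nlinarith
    intro i j hi hj h
    rcases lt_trichotomy i j with h1 | h1 | h1
    · exact absurd h (key i j h1 hj)
    · exact h1
    · exact absurd h.symm (key j i h1 hi)
  set ρ : ℝ := M.Cl * (2 * m) with hρ
  set τ : ℝ := r ^ (γ + 2 * δ) with hτ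
  set Ev : V d → Set Ω := fun v => {ω | ∃ j, j < k ∧ y j = v ∧
    ω ∉ M.LE (bl v ρ) v (y (j + 1)) (M.μ (tr (y (j + 1) - v)) + τ)} with hEv
  have hEvj : ∀ j, j < k → Ev (y j) =
      (M.LE (bl (y j) ρ) (y j) (y (j + 1)) (M.μ (tr (y (j + 1) - y j)) + τ))ᶜ := by
    intro j hj
    ext ω
    simp only [hEv, mem_ofPred_eq, mem_compl_iff]
    constructor
    · rintro ⟨i, hi, hij, h⟩
      have := hinj i j hi hj hij
      subst this
      exact h
    · intro h
      exact ⟨j, hj, rfl, h⟩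
  set S : Finset (V d) := (Finset.range k).image y with hS
  have hScard : (S.card : ℝ) ≤ k := by
    have := Finset.card_image_le (s := Finset.range k) (f := y)
    rw [Finset.card_range] at this
    exact_mod_cast this
  set p : ℝ := r ^ (-(3 * δ / 2)) with hp
  have hp0 : 0 ≤ p := by positivity
  have hSep := M.toPreLRM.sep_union S Ev ρ p hp0 (by
    intro v hv
    obtain ⟨j, hj, rfl⟩ := Finset.mem_image.mp hv
    rw [Finset.mem_range] at hj
    rw [hEvj j hj]
    exact MeasurableSet.compl (M.LE_meas _ _ _ _)) (by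
    intro v hv
    obtain ⟨j, hj, rfl⟩ := Finset.mem_image.mp hv
    rw [Finset.mem_range] at hj
    rw [hEvj j hj]
    apply hBl
    · have := hybd j hj.le
      linarith
    · have := hstep j hj
      linarith) b
  set Bsep : Set Ω := {ω | ∃ x : Fin b → V d, (∀ i, x i ∈ S) ∧
      (∀ i j, i ≠ j → 2 * ρ < nm (x i - x j)) ∧ ∀ i, ω ∈ Ev (x i)} with hBsep
  have hsub : {ω | M.μ (tr x) + r ^ β' < M.t ω 0 x} ⊆
      {ω | ¬ M.UpAt ω (r ^ (2 : ℝ)) (2 * m) β} ∪ Bsep := by
    intro ω hω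
    by_contra hcon
    simp only [mem_union, mem_ofPred_eq, not_or, not_not] at hcon
    obtain ⟨hup, hnsep⟩ := hcon
    have hω' : M.μ (tr x) + r ^ β' < M.t ω 0 x := hω
    set I : Finset ℕ := (Finset.range k).filter (fun j => ω ∈ Ev (y j)) with hI
    have hIcard : I.card ≤ b * L := by
      by_contra hc
      push Not at hc
      obtain ⟨f, hf1, hf2⟩ := sep_indices I b L hL2 hc.le
      apply hnsep
      have hfI : ∀ i, f i < k ∧ ω ∈ Ev (y (f i)) := by
        intro i
        have := Finset.mem_filter.mp (hf1 i)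
        exact ⟨Finset.mem_range.mp this.1, this.2⟩
      have key : ∀ i j, i < j → 2 * ρ < nm (y (f i) - y (f j)) := by
        intro i j hij
        have h1 := hf2 i j hij
        have h2 := hysep (f i) (f j) (by omega) (hfI j).1
        rw [nm_sub_comm]
        have h3 : (L : ℝ) ≤ (f j : ℝ) - f i := by
          have : ((f i + L : ℕ) : ℝ) ≤ f j := by exact_mod_cast h1
          push_cast at this
          linarith
        have h4 : (8 * M.Cl + 6) * (m / 2) ≤ ((f j : ℝ) - f i) * (m / 2) :=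
          mul_le_mul_of_nonneg_right (hL1.trans h3) (by positivity)
        rw [hρ]
        nlinarith
      refine ⟨fun i => y (f i), fun i => Finset.mem_image_of_mem _
        (Finset.mem_range.mpr (hfI i).1), ?_, fun i => (hfI i).2⟩
      intro i j hij
      rcases lt_or_gt_of_ne hij with h | h
      · exact key i j h
      · have := key j i h
        rwa [nm_sub_comm] at this
    have hchain := UpStep_chain M.toPreLRM ω y k
    rw [hy0, hyk] at hchain
    have hsum := UpStep_sum k (fun j => M.t ω (y j) (y (j + 1)))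
      (fun j => M.μ (tr (y (j + 1) - y j))) τ ((2 * m) ^ β) (by positivity) (by positivity)
      (b * L) I hIcard (by
        intro j hj hjI
        have h1 : ω ∉ Ev (y j) := by
          intro h
          exact hjI (Finset.mem_filter.mpr ⟨Finset.mem_range.mpr hj, h⟩)
        rw [hEvj j hj, mem_compl_iff, not_not] at h1
        exact M.LE_t _ _ _ _ _ h1) (by
        intro j hj _
        apply hup
        · have h1 := hybd j hj.le
          have h2 : r ^ (2 : ℝ) = r * r := by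
            rw [show (2 : ℝ) = ((2 : ℕ) : ℝ) by norm_num, Real.rpow_natCast]
            ring
          rw [h2]
          nlinarith
        · have := hstep j hj
          linarith)
    -- final computation
    have hτ2 : (k : ℝ) * τ ≤ 2 * r ^ (γ + 3 * δ) := by
      have : r ^ (γ + 3 * δ) = r ^ δ * τ := by
        rw [hτ, ← Real.rpow_add hr0]; congr 1; ring
      rw [this, ← mul_assoc]
      exact mul_le_mul_of_nonneg_right hk3 (by positivity)
    have hQ2 : ((b * L : ℕ) : ℝ) * (2 * m) ^ β = (((b * L : ℕ) : ℝ) * 2 ^ β) * r ^ (β * (1 - δ)) := by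
      rw [Real.mul_rpow (by norm_num) hm0.le, hm, ← Real.rpow_mul hr0.le, mul_comm (1 - δ) β]
      ring
    have hC2 : M.CM * k ≤ (|M.CM| * 2) * r ^ δ := by
      calc M.CM * k ≤ |M.CM| * k := mul_le_mul_of_nonneg_right (le_abs_self _) (by positivity)
        _ ≤ |M.CM| * (2 * r ^ δ) := mul_le_mul_of_nonneg_left hk3 (abs_nonneg _)
        _ = _ := by ring
    rw [hQ2] at hsum
    linarith
  have hPsep : P.real Bsep ≤ r ^ (-((K : ℝ) + 1)) := by
    refine hSep.trans ?_
    have h1 : (S.card : ℝ) * p ≤ r ^ (-(δ / 4)) := by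
      have h2 : (S.card : ℝ) * p ≤ (2 * r ^ δ) * p :=
        mul_le_mul_of_nonneg_right (hScard.trans hk3) hp0
      have h3 : (2 * r ^ δ) * p = 2 * r ^ (-(δ / 2)) := by
        rw [mul_assoc, hp, ← Real.rpow_add hr0]; congr 2; ring
      linarith
    calc ((S.card : ℝ) * p) ^ b ≤ (r ^ (-(δ / 4))) ^ b :=
          pow_le_pow_left₀ (by positivity) h1 b
      _ = r ^ (-(δ / 4) * b) := by
          rw [Real.rpow_mul hr0.le, Real.rpow_natCast]
      _ ≤ r ^ (-((K : ℝ) + 1)) := by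
          apply Real.rpow_le_rpow_of_exponent_le hr1
          linarith
  have hfin : r ^ (-((K : ℝ) + 1)) + r ^ (-((K : ℝ) + 1)) ≤ r ^ (-(K : ℝ)) := by
    have h1 : r ^ (-(K : ℝ)) = r * r ^ (-((K : ℝ) + 1)) := by
      have h3 := Real.rpow_add hr0 1 (-((K : ℝ) + 1))
      rw [Real.rpow_one] at h3
      rw [← h3]
      congr 1; ring
    rw [h1]
    have h2 : 0 ≤ r ^ (-((K : ℝ) + 1)) := by positivity
    nlinarith
  have hG' : P.real {ω | ¬ M.UpAt ω (r ^ (2 : ℝ)) (2 * m) β} ≤ r ^ (-((K : ℝ) + 1)) := by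
    have := hG
    push_cast at this
    exact this
  calc P.real {ω | M.μ (tr x) + r ^ β' < M.t ω 0 x}
      ≤ P.real ({ω | ¬ M.UpAt ω (r ^ (2 : ℝ)) (2 * m) β} ∪ Bsep) := measureReal_mono hsub
    _ ≤ P.real {ω | ¬ M.UpAt ω (r ^ (2 : ℝ)) (2 * m) β} + P.real Bsep := measureReal_union_le _ _
    _ ≤ r ^ (-(K : ℝ)) := by linarith

end FPPX
end

section

/-! Strong control implies the variance bound. -/

namespace FPPX

open MeasureTheory ProbabilityTheory Filter Set
open scoped Topology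

variable {d : ℕ} {Ω : Type} [MeasurableSpace Ω] {P : Measure Ω} [IsProbabilityMeasure P]

lemma VarSC_sq_integrable (M : PreLRM d P) (x : V d) (c : ℝ) :
    Integrable (fun ω => (M.t ω 0 x - c) ^ 2) P := by
  have h2 := M.integrable_pow 2 0 x
  have h1 : Integrable (fun ω => M.t ω 0 x) P := by simpa using M.integrable_pow 1 0 x
  have h : (fun ω => (M.t ω 0 x - c) ^ 2) =
      fun ω => M.t ω 0 x ^ 2 - 2 * c * M.t ω 0 x + c ^ 2 := by
    funext ω; ring
  rw [h]
  exact (h2.sub (h1.const_mul (2 * c))).add (integrable_const _)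

/-- the mean minimises the quadratic deviation -/
lemma VarSC_var_le (M : PreLRM d P) (x : V d) (c : ℝ) :
    ∫ ω, (M.t ω 0 x - ∫ ω', M.t ω' 0 x ∂P) ^ 2 ∂P ≤ ∫ ω, (M.t ω 0 x - c) ^ 2 ∂P := by
  have h1 : Integrable (fun ω => M.t ω 0 x) P := by simpa using M.integrable_pow 1 0 x
  set e := ∫ ω', M.t ω' 0 x ∂P with he
  have hI := VarSC_sq_integrable M x c
  have h : (fun ω => (M.t ω 0 x - e) ^ 2) =
      fun ω => (M.t ω 0 x - c) ^ 2 - (2 * (e - c) * M.t ω 0 x - (e ^ 2 - c ^ 2)) := by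
    funext ω; ring
  have hI2 : Integrable (fun ω => 2 * (e - c) * M.t ω 0 x - (e ^ 2 - c ^ 2)) P :=
    (h1.const_mul _).sub (integrable_const _)
  rw [h, integral_sub hI hI2, integral_sub (h1.const_mul _) (integrable_const _),
    integral_const_mul, ← he]
  simp only [integral_const, probReal_univ, smul_eq_mul, one_mul]
  nlinarith [sq_nonneg (e - c)]

lemma VarSC_mu_le (M : PreLRM d P) (x : V d) : 0 ≤ M.μ (tr x) ∧ M.μ (tr x) ≤ M.CM * nm x := by
  refine ⟨?_, M.isNm.ub _⟩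
  have := M.isNm.lb (tr x)
  exact (mul_nonneg M.isNm.cpos.le (norm_nonneg _)).trans this

/-- strong two-sided control implies the variance bound -/
theorem PreLRM.HypB_of_SC (M : PreLRM d P) {κ : ℝ} (hκ : 0 ≤ κ) (h : M.SC κ) : M.HypB κ := by
  obtain ⟨R0, hR0⟩ := eventually_atTop.mp (h 4)
  obtain ⟨C4, hC4⟩ := M.moment 4
  obtain ⟨C2, hC2⟩ := M.moment 2
  set R := max R0 1 with hR
  refine ⟨1 + (|C4| * 16 + 1) / 2 + M.CM ^ 2 + (|C2| + M.CM ^ 2) * (1 + R) ^ 2, ?_⟩
  intro x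
  set n := nm x with hn
  have hn0 : 0 ≤ n := nm_nonneg x
  have hR1 : 1 ≤ R := le_max_right _ _
  obtain ⟨hμ0, hμ1⟩ := VarSC_mu_le M x
  set c := M.μ (tr x) with hc
  have hc2 : c ^ 2 ≤ M.CM ^ 2 * n ^ 2 := by
    rw [← mul_pow]
    exact pow_le_pow_left₀ hμ0 hμ1 2
  have hpow1 : (1 : ℝ) ≤ (1 + n) ^ (2 * κ) := Real.one_le_rpow (by linarith) (by linarith)
  have hge : ∀ y, y ≤ 1 + (|C4| * 16 + 1) / 2 + M.CM ^ 2 + (|C2| + M.CM ^ 2) * (1 + R) ^ 2 →
      y ≤ (1 + (|C4| * 16 + 1) / 2 + M.CM ^ 2 + (|C2| + M.CM ^ 2) * (1 + R) ^ 2) *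
        (1 + n) ^ (2 * κ) := by
    intro y hy
    have h0 : 0 ≤ 1 + (|C4| * 16 + 1) / 2 + M.CM ^ 2 + (|C2| + M.CM ^ 2) * (1 + R) ^ 2 := by
      positivity
    nlinarith
  refine (VarSC_var_le M x c).trans ?_
  rcases lt_or_ge n R with hlt | hge'
  · apply hge
    have h1 : ∫ ω, (M.t ω 0 x - c) ^ 2 ∂P ≤ ∫ ω, (M.t ω 0 x ^ 2 + c ^ 2) ∂P := by
      apply integral_mono (VarSC_sq_integrable M x c)
        ((M.integrable_pow 2 0 x).add (integrable_const _))
      intro ω
      have := M.t_nonneg ω 0 x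
      simp only [Pi.add_apply]
      nlinarith [mul_nonneg this hμ0]
    rw [integral_add (M.integrable_pow 2 0 x) (integrable_const _)] at h1
    simp only [integral_const, probReal_univ, smul_eq_mul, one_mul] at h1
    have h2 := hC2 x
    have h3 : C2 * (1 + nm x) ^ 2 ≤ |C2| * (1 + R) ^ 2 := by
      apply mul_le_mul (le_abs_self _) _ (by positivity) (abs_nonneg _)
      exact pow_le_pow_left₀ (by linarith) (by linarith) 2
    have h4 : M.CM ^ 2 * n ^ 2 ≤ M.CM ^ 2 * (1 + R) ^ 2 := by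
      apply mul_le_mul_of_nonneg_left _ (sq_nonneg _)
      exact pow_le_pow_left₀ hn0 (by linarith) 2
    have h5 : 0 ≤ 1 + (|C4| * 16 + 1) / 2 + M.CM ^ 2 := by positivity
    nlinarith
  · have hn1 : 1 ≤ n := hR1.trans hge'
    have hnpos : 0 < n := by linarith
    set A : Set Ω := {ω | n ^ κ < |M.t ω 0 x - c|} with hA
    have hAm : MeasurableSet A :=
      measurableSet_lt measurable_const (((M.t_meas 0 x).sub_const c).abs)
    have hPA : P.real A ≤ (n ^ 4)⁻¹ := by
      have h1 := hR0 n ((le_max_left _ _).trans hge')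
      have h2 : P.real A ≤ P.real {ω | ∃ v : V d, nm v ≤ n ∧ n ^ κ < |M.t ω 0 v - M.μ (tr v)|} :=
        measureReal_mono (fun ω hω => ⟨x, le_refl _, hω⟩)
      have h3 : n ^ (-((4 : ℕ) : ℝ)) = (n ^ 4)⁻¹ := by
        rw [Real.rpow_neg hn0, Real.rpow_natCast]
      rw [← h3]
      exact h2.trans h1
    have hI4 := M.integrable_pow 4 0 x
    have hIA : Integrable (A.indicator (fun _ => (1 : ℝ))) P := (integrable_const 1).indicator hAm
    have hintA : ∫ ω, A.indicator (fun _ => (1 : ℝ)) ω ∂P = P.real A := by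
      rw [integral_indicator hAm]
      simp
    have h1 : ∫ ω, (M.t ω 0 x - c) ^ 2 ∂P ≤ ∫ ω, ((n ^ (2 * κ) +
        (n ^ 4)⁻¹ / 2 * M.t ω 0 x ^ 4) + (n ^ 4 / 2 + c ^ 2) * A.indicator (fun _ => (1 : ℝ)) ω) ∂P := by
      apply integral_mono (VarSC_sq_integrable M x c)
        (((integrable_const _).add (hI4.const_mul _)).add (hIA.const_mul _))
      intro ω
      have ht := M.t_nonneg ω 0 x
      simp only [Pi.add_apply]
      by_cases hω : ω ∈ A
      · rw [indicator_of_mem hω]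
        have e1 : (M.t ω 0 x - c) ^ 2 ≤ M.t ω 0 x ^ 2 + c ^ 2 := by
          nlinarith [mul_nonneg ht hμ0]
        have e2 : M.t ω 0 x ^ 2 ≤ (n ^ 4)⁻¹ / 2 * M.t ω 0 x ^ 4 + n ^ 4 / 2 := by
          have e3 : 0 ≤ (n ^ 4)⁻¹ * (M.t ω 0 x ^ 2 - n ^ 4) ^ 2 := by positivity
          have e4 : (n ^ 4)⁻¹ * (M.t ω 0 x ^ 2 - n ^ 4) ^ 2 =
              (n ^ 4)⁻¹ * M.t ω 0 x ^ 4 - 2 * M.t ω 0 x ^ 2 + n ^ 4 := by
            field_simp
            ring
          linarith
        have e5 : 0 ≤ n ^ (2 * κ) := by positivity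
        linarith
      · rw [indicator_of_notMem hω]
        have e1 : |M.t ω 0 x - c| ≤ n ^ κ := not_lt.mp hω
        have e2 : (M.t ω 0 x - c) ^ 2 ≤ n ^ (2 * κ) := by
          rw [← sq_abs]
          calc |M.t ω 0 x - c| ^ 2 ≤ (n ^ κ) ^ 2 := pow_le_pow_left₀ (abs_nonneg _) e1 2
            _ = n ^ (2 * κ) := by
                rw [← Real.rpow_natCast, ← Real.rpow_mul hn0]
                congr 1
                push_cast
                ring
        have e3 : 0 ≤ (n ^ 4)⁻¹ / 2 * M.t ω 0 x ^ 4 := by positivity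
        linarith
    have hint : ∫ ω, ((n ^ (2 * κ) +
        (n ^ 4)⁻¹ / 2 * M.t ω 0 x ^ 4) + (n ^ 4 / 2 + c ^ 2) * A.indicator (fun _ => (1 : ℝ)) ω) ∂P
        = n ^ (2 * κ) + (n ^ 4)⁻¹ / 2 * ∫ ω, M.t ω 0 x ^ 4 ∂P + (n ^ 4 / 2 + c ^ 2) * P.real A := by
      have i1 : Integrable (fun ω => n ^ (2 * κ) + (n ^ 4)⁻¹ / 2 * M.t ω 0 x ^ 4) P :=
        (integrable_const _).add (hI4.const_mul _)
      rw [integral_add i1 (hIA.const_mul _),
        integral_add (integrable_const _) (hI4.const_mul _), integral_const_mul,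
        integral_const_mul, hintA]
      simp
    rw [hint] at h1
    have h2 : (n ^ 4)⁻¹ / 2 * ∫ ω, M.t ω 0 x ^ 4 ∂P ≤ |C4| * 16 / 2 := by
      have h3 : ∫ ω, M.t ω 0 x ^ 4 ∂P ≤ |C4| * 16 * n ^ 4 := by
        refine (hC4 x).trans ?_
        rw [mul_assoc]
        apply mul_le_mul (le_abs_self _) _ (by positivity) (abs_nonneg _)
        calc (1 + nm x) ^ 4 ≤ (2 * n) ^ 4 := pow_le_pow_left₀ (by linarith) (by linarith) 4
          _ = 16 * n ^ 4 := by ring
      calc (n ^ 4)⁻¹ / 2 * ∫ ω, M.t ω 0 x ^ 4 ∂P ≤ (n ^ 4)⁻¹ / 2 * (|C4| * 16 * n ^ 4) :=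
            mul_le_mul_of_nonneg_left h3 (by positivity)
        _ = |C4| * 16 / 2 := by field_simp
    have h3 : (n ^ 4 / 2 + c ^ 2) * P.real A ≤ 1 / 2 + M.CM ^ 2 := by
      calc (n ^ 4 / 2 + c ^ 2) * P.real A ≤ (n ^ 4 / 2 + M.CM ^ 2 * n ^ 4) * (n ^ 4)⁻¹ := by
            apply mul_le_mul _ hPA measureReal_nonneg (by positivity)
            have : n ^ 2 ≤ n ^ 4 := pow_le_pow_right₀ hn1 (by norm_num)
            nlinarith [sq_nonneg M.CM, mul_le_mul_of_nonneg_left this (sq_nonneg M.CM)]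
        _ = 1 / 2 + M.CM ^ 2 := by field_simp
    have h4 : n ^ (2 * κ) ≤ (1 + n) ^ (2 * κ) :=
      Real.rpow_le_rpow hn0 (by linarith) (by linarith)
    have h5 : ((|C4| * 16 + 1) / 2 + M.CM ^ 2) ≤
        ((|C4| * 16 + 1) / 2 + M.CM ^ 2) * (1 + n) ^ (2 * κ) :=
      le_mul_of_one_le_right (by positivity) hpow1
    have h6 : 0 ≤ (|C2| + M.CM ^ 2) * (1 + R) ^ 2 * (1 + n) ^ (2 * κ) := by positivity
    nlinarith

end FPPX
end

section

/-! Almost sure bounds along integers give bounds in probability. -/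

namespace FPPX

open MeasureTheory ProbabilityTheory Filter Set
open scoped Topology

variable {d : ℕ} {Ω : Type} [MeasurableSpace Ω] {P : Measure Ω} [IsProbabilityMeasure P]

private lemma ASnat_ceil_le {r : ℝ} (hr : 1 ≤ r) : ((⌈r⌉₊ : ℕ) : ℝ) ≤ 2 * r := by
  have := Nat.ceil_lt_add_one (show 0 ≤ r by linarith)
  linarith

private lemma ASnat_ceil_rpow {κ κ' : ℝ} (hk : κ < κ') :
    ∀ᶠ r : ℝ in atTop, ((⌈r⌉₊ : ℕ) : ℝ) ^ κ ≤ r ^ κ' := by
  filter_upwards [ev_rpow_le (max 1 ((2 : ℝ) ^ κ)) one_pos hk, eventually_ge_atTop (1 : ℝ)]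
    with r h1 h2
  rw [one_mul] at h1
  refine le_trans ?_ h1
  have h0 : 0 < r := by linarith
  have h3 : r ≤ ((⌈r⌉₊ : ℕ) : ℝ) := Nat.le_ceil r
  rcases le_total 0 κ with hκ | hκ
  · calc ((⌈r⌉₊ : ℕ) : ℝ) ^ κ ≤ (2 * r) ^ κ :=
          Real.rpow_le_rpow (by positivity) (ASnat_ceil_le h2) hκ
      _ = (2 : ℝ) ^ κ * r ^ κ := Real.mul_rpow (by norm_num) h0.le
      _ ≤ _ := mul_le_mul_of_nonneg_right (le_max_right _ _) (by positivity)
  · calc ((⌈r⌉₊ : ℕ) : ℝ) ^ κ ≤ r ^ κ := Real.rpow_le_rpow_of_nonpos h0 h3 hκ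
      _ = 1 * r ^ κ := (one_mul _).symm
      _ ≤ _ := mul_le_mul_of_nonneg_right (le_max_left _ _) (by positivity)

theorem PreLRM.HypA_of_nat (M : PreLRM d P) {κ κ' : ℝ} (hk : κ < κ')
    (h : ∀ᵐ ω ∂P, ∀ᶠ n : ℕ in atTop, ∀ v : V d, nm v ≤ n →
      |M.t ω 0 v - M.μ (tr v)| ≤ (n : ℝ) ^ κ) : M.HypA κ' := by
  set D : ℕ → Set Ω := fun n =>
    {ω | ∃ v : V d, nm v ≤ (n : ℝ) ∧ (n : ℝ) ^ κ < |M.t ω 0 v - M.μ (tr v)|} with hD
  have hDm : ∀ n, MeasurableSet (D n) := by
    intro n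
    have hfin : {x : V d | nm x ≤ (n : ℝ)}.Finite := finite_bl _
    have h1 : D n = ⋃ v ∈ {x : V d | nm x ≤ (n : ℝ)},
        {ω | (n : ℝ) ^ κ < |M.t ω 0 v - M.μ (tr v)|} := by
      ext ω
      simp [hD]
    rw [h1]
    refine hfin.measurableSet_biUnion fun v _ => ?_
    have h2 : Measurable (fun ω => |M.t ω 0 v - M.μ (tr v)|) :=
      ((M.t_meas 0 v).sub measurable_const).abs
    exact measurableSet_lt measurable_const h2
  have hDlim : Tendsto (fun n => P (D n)) atTop (𝓝 (P ∅)) := by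
    apply tendsto_measure_of_ae_tendsto_indicator_of_isFiniteMeasure atTop
      MeasurableSet.empty hDm
    filter_upwards [h] with ω hω
    filter_upwards [hω] with n hn
    simp only [mem_empty_iff_false, iff_false]
    rintro ⟨v, hv1, hv2⟩
    exact absurd (hn v hv1) (not_le.2 hv2)
  rw [measure_empty] at hDlim
  have hDr : Tendsto (fun n => P.real (D n)) atTop (𝓝 0) := by
    have h1 := (ENNReal.tendsto_toReal (ENNReal.zero_ne_top)).comp hDlim
    rw [ENNReal.toReal_zero] at h1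
    exact h1
  have h1 : Tendsto (fun r : ℝ => P.real (D ⌈r⌉₊)) atTop (𝓝 0) :=
    hDr.comp tendsto_nat_ceil_atTop
  refine squeeze_zero' (Eventually.of_forall fun r => measureReal_nonneg) ?_ h1
  filter_upwards [ASnat_ceil_rpow hk] with r h3
  refine measureReal_mono ?_ (measure_ne_top P _)
  rintro ω ⟨v, hv1, hv2⟩
  exact ⟨v, hv1.trans (Nat.le_ceil r), h3.trans_lt hv2⟩

end FPPX
end

section

/-! Comparison of the passage times with the lattice pseudometric. -/

namespace FPPX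

open MeasureTheory ProbabilityTheory Filter Set
open scoped Topology

variable {d : ℕ} {α : ℝ}

theorem cmp (hα : 0 ≤ α) {S : Set (RR d)} {p q : RR d} (hp : p ∈ S) (hq : q ∈ S) (u v : V d) :
    |ept α S p q - tP α S u v| ≤ (2 * ‖p - emb u‖) ^ α + (2 * ‖q - emb v‖) ^ α := by
  have h1 : tP α S u v ≤ (2 * ‖p - emb u‖) ^ α + ept α S p q + (2 * ‖q - emb v‖) ^ α := by
    apply le_of_forall_pos_le_add
    intro ε hε
    obtain ⟨c, hc, hcs⟩ := ept_near (α := α) hp hq (s := ept α S p q + ε) (by linarith)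
    have := tP_le (u := u) (v := v) hc
    linarith
  have h2 : ept α S p q ≤ tP α S u v + ((2 * ‖p - emb u‖) ^ α + (2 * ‖q - emb v‖) ^ α) := by
    by_cases huv : u = v
    · subst huv
      rw [tP_self, zero_add]
      exact (ept_le (Wk.hop hp hq)).trans (hop_le hα p (emb u) q)
    · apply le_of_forall_pos_le_add
      intro ε hε
      obtain ⟨p', q', c, hc, hs⟩ := tP_near (α := α) ⟨p, hp⟩ huv (s := tP α S u v + ε)
        (by linarith)
      have w := ((Wk.hop (α := α) hp hc.left).trans hc).trans (Wk.hop hc.right hq)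
      have h3 := ept_le w
      have h4 := hop_le hα p (emb u) p'
      have h5 := hop_le hα q' (emb v) q
      linarith
  rw [abs_le]
  constructor <;> linarith

/-- the error made when replacing a point by the lattice point of its cell -/
noncomputable def Er {d : ℕ} (α : ℝ) (S : Set (RR d)) (v : V d) : ℝ :=
  (2 * (Metric.infDist (emb v) S + d)) ^ α

theorem Er_nonneg (S : Set (RR d)) (v : V d) : 0 ≤ Er α S v := by
  have := Metric.infDist_nonneg (x := emb v) (s := S)
  exact Real.rpow_nonneg (by positivity) _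

/-- `near` selects nearest particles -/
def IsNear {d : ℕ} (S : Set (RR d)) (near : RR d → RR d) : Prop :=
  ∀ x, near x ∈ S ∧ ∀ p ∈ S, dist x (near x) ≤ dist x p

lemma cmp_norm_le (y : RR d) {s : ℝ} (hs : 0 ≤ s) (h : ∀ i, |y i| ≤ s) : ‖y‖ ≤ d * s := by
  rw [EuclideanSpace.norm_eq, Real.sqrt_le_iff]
  refine ⟨by positivity, ?_⟩
  have h1 : ∑ i, ‖y i‖ ^ 2 ≤ ∑ _i : Fin d, s ^ 2 := by
    apply Finset.sum_le_sum
    intro i _
    rw [Real.norm_eq_abs]
    exact pow_le_pow_left₀ (abs_nonneg _) (h i) 2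
  rw [Finset.sum_const, Finset.card_univ, Fintype.card_fin, nsmul_eq_mul] at h1
  refine h1.trans ?_
  rw [mul_pow]
  apply mul_le_mul_of_nonneg_right _ (by positivity)
  have : d ≤ d ^ 2 := Nat.le_self_pow (by norm_num) d
  exact_mod_cast this

lemma cmp_norm_sub_latt (x : RR d) : ‖x - emb (latt x)‖ ≤ d / 2 := by
  have h := cmp_norm_le (x - emb (latt x)) (s := 1 / 2) (by norm_num) (fun i => by
    have := abs_sub_round (x i)
    simpa [emb, latt] using this)
  linarith

lemma cmp_abs_le_norm (y : RR d) (i : Fin d) : |y i| ≤ ‖y‖ := by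
  have := PiLp.norm_apply_le y i
  simpa [Real.norm_eq_abs] using this

lemma cmp_latt_emb (v : V d) : latt (emb v) = v := by
  funext i
  simp [latt, emb]

lemma cmp_latt_zero : latt (0 : RR d) = 0 := by
  funext i
  simp [latt]

lemma cmp_sup_le (y : RR d) : ‖(fun i => y i : E d)‖ ≤ ‖y‖ := by
  rw [pi_norm_le_iff_of_nonneg (norm_nonneg _)]
  intro i
  exact cmp_abs_le_norm y i

lemma cmp_nm_latt (y : RR d) : nm (latt y) ≤ ‖y‖ + 1 / 2 := by
  have h1 := nm_rd_le (fun i => y i : E d)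
  have h2 := cmp_sup_le y
  have h3 : rd (fun i => y i : E d) = latt y := rfl
  rw [h3] at h1
  linarith

lemma cmp_norm_tr_sub (y : RR d) : ‖tr (latt y) - (fun i => y i : E d)‖ ≤ 1 / 2 :=
  norm_rd_sub (fun i => y i : E d)

lemma cmp_norm_emb (v : V d) : ‖emb v‖ ≤ d * nm v := by
  apply cmp_norm_le _ (nm_nonneg v)
  intro i
  have := norm_le_pi_norm (tr v) i
  simpa [emb, tr, nm] using this

lemma cmp_near_le {S : Set (RR d)} {near : RR d → RR d} (hn : IsNear S near) (x : RR d) :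
    ‖near x - emb (latt x)‖ ≤ Metric.infDist (emb (latt x)) S + d := by
  have h1 : dist x (near x) ≤ Metric.infDist x S := by
    rw [Metric.le_infDist ⟨_, (hn x).1⟩]
    exact fun {y} hy => (hn x).2 y hy
  have h2 : Metric.infDist x S ≤ Metric.infDist (emb (latt x)) S + dist x (emb (latt x)) :=
    Metric.infDist_le_infDist_add_dist
  have h3 := cmp_norm_sub_latt x
  rw [← dist_eq_norm] at h3
  have h4 : ‖near x - emb (latt x)‖ ≤ dist (near x) x + dist x (emb (latt x)) := by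
    rw [← dist_eq_norm]
    exact dist_triangle _ _ _
  rw [dist_comm (near x) x] at h4
  linarith

theorem cmp_near (hα : 0 ≤ α) {S : Set (RR d)} {near : RR d → RR d} (hn : IsNear S near)
    (x y : RR d) :
    |ept α S (near x) (near y) - tP α S (latt x) (latt y)| ≤ Er α S (latt x) + Er α S (latt y) := by
  refine (cmp hα (hn x).1 (hn y).1 (latt x) (latt y)).trans (add_le_add ?_ ?_)
  · apply Real.rpow_le_rpow (by positivity) _ hα
    have := cmp_near_le hn x
    linarith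
  · apply Real.rpow_le_rpow (by positivity) _ hα
    have := cmp_near_le hn y
    linarith

lemma cmp_shift {p : ℝ → Prop} (h : ∀ᶠ r : ℝ in atTop, p r) :
    ∀ᶠ r : ℝ in atTop, p (r + 1 / 2) :=
  (tendsto_atTop_add_const_right atTop (1 / 2 : ℝ) tendsto_id).eventually h

lemma cmp_pow {r κ k : ℝ} (hr : 1 ≤ r) (hk0 : 0 ≤ k) (hk : κ ≤ k) {a s : ℝ} (ha : 0 ≤ a)
    (hs1 : 1 ≤ s) (hs : s ≤ a * r) : s ^ κ ≤ a ^ k * r ^ k := by
  rw [← Real.mul_rpow ha (by linarith)]
  exact (Real.rpow_le_rpow_of_exponent_le hs1 hk).trans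
    (Real.rpow_le_rpow (by linarith) hs hk0)

theorem boundP_of_lat (hα : 0 ≤ α) {μ : E d → ℝ} {c C : ℝ} (hμ : IsNm μ c C) {S : Set (RR d)}
    {near : RR d → RR d} (hn : IsNear S near) {κ κ' : ℝ} (hκ' : 0 < κ') (hκκ' : κ < κ')
    (h1 : ∀ᶠ r : ℝ in atTop, ∀ v : V d, nm v ≤ r → |tP α S 0 v - μ (tr v)| ≤ r ^ κ)
    (h2 : ∀ ε : ℝ, 0 < ε → ∀ᶠ r : ℝ in atTop, ∀ v : V d, nm v ≤ r → Er α S v ≤ r ^ ε) :
    ∀ᶠ r : ℝ in atTop, ∀ y : RR d, ‖y‖ ≤ r →
      |ept α S (near 0) (near y) - toRR μ y| ≤ r ^ κ' := by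
  set k := max κ (κ' / 2) with hk
  have hk0 : 0 < k := lt_max_of_lt_right (by linarith)
  have hkk : k < κ' := max_lt hκκ' (by linarith)
  have g1 := cmp_shift h1
  have g2 := cmp_shift (h2 (κ' / 2) (by linarith))
  filter_upwards [g1, g2, eventually_ge_atTop (1 : ℝ),
    ev_rpow_le (3 * (2 : ℝ) ^ k) (B := 1 / 2) (by norm_num) hkk,
    ev_const_le (|C| / 2) (B := 1 / 2) (by norm_num) hκ'] with r a1 a2 hr a3 a4 y hy
  have hv : nm (latt y) ≤ r + 1 / 2 := (cmp_nm_latt y).trans (by linarith)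
  have b1 := cmp_near (α := α) hα hn 0 y
  rw [cmp_latt_zero] at b1
  have b2 := a2 0 (by rw [nm_zero]; linarith)
  have b3 := a2 _ hv
  have b4 := a1 _ hv
  have b5 := hμ.sub_le (tr (latt y)) (fun i => y i : E d)
  have b6 : C * ‖tr (latt y) - (fun i => y i : E d)‖ ≤ |C| / 2 := by
    have := cmp_norm_tr_sub y
    calc C * ‖tr (latt y) - (fun i => y i : E d)‖
        ≤ |C| * ‖tr (latt y) - (fun i => y i : E d)‖ :=
          mul_le_mul_of_nonneg_right (le_abs_self C) (norm_nonneg _)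
      _ ≤ |C| * (1 / 2) := mul_le_mul_of_nonneg_left this (abs_nonneg C)
      _ = |C| / 2 := by ring
  have c1 : (r + 1 / 2) ^ κ ≤ (2 : ℝ) ^ k * r ^ k :=
    cmp_pow hr hk0.le (le_max_left _ _) (by norm_num) (by linarith) (by linarith)
  have c2 : (r + 1 / 2) ^ (κ' / 2) ≤ (2 : ℝ) ^ k * r ^ k :=
    cmp_pow hr hk0.le (le_max_right _ _) (by norm_num) (by linarith) (by linarith)
  have e : ept α S (near 0) (near y) - toRR μ y
      = (ept α S (near 0) (near y) - tP α S 0 (latt y)) + (tP α S 0 (latt y) - μ (tr (latt y)))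
        + (μ (tr (latt y)) - μ (fun i => y i : E d)) := by
    unfold toRR
    ring
  rw [e]
  refine (abs_add_three _ _ _).trans ?_
  linarith

theorem linP_of_lat (hα : 0 ≤ α) {μ : E d → ℝ} {c C : ℝ} (hμ : IsNm μ c C) {S : Set (RR d)}
    {near : RR d → RR d} (hn : IsNear S near)
    (h1 : ∀ ε : ℝ, 0 < ε → ∀ᶠ r : ℝ in atTop, ∀ v : V d, nm v ≤ r →
      |tP α S 0 v - μ (tr v)| ≤ ε * r)
    (h2 : ∀ ε : ℝ, 0 < ε → ∀ᶠ r : ℝ in atTop, ∀ v : V d, nm v ≤ r → Er α S v ≤ r ^ ε) :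
    ∀ ε : ℝ, 0 < ε → ∀ᶠ r : ℝ in atTop, ∀ y : RR d, ‖y‖ ≤ r →
      |ept α S (near 0) (near y) - toRR μ y| ≤ ε * r := by
  intro ε hε
  have g1 := cmp_shift (h1 (ε / 4) (by linarith))
  have g2 := cmp_shift (h2 (1 / 2) (by norm_num))
  filter_upwards [g1, g2, eventually_ge_atTop (1 : ℝ),
    ev_rpow_le (2 * (2 : ℝ) ^ (1 / 2 : ℝ)) (B := ε / 4) (by linarith)
      (show (1 / 2 : ℝ) < 1 by norm_num),
    ev_const_le (|C| / 2) (B := ε / 4) (by linarith) one_pos] with r a1 a2 hr a3 a4 y hy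
  have hv : nm (latt y) ≤ r + 1 / 2 := (cmp_nm_latt y).trans (by linarith)
  have b1 := cmp_near (α := α) hα hn 0 y
  rw [cmp_latt_zero] at b1
  have b2 := a2 0 (by rw [nm_zero]; linarith)
  have b3 := a2 _ hv
  have b4 := a1 _ hv
  have b5 := hμ.sub_le (tr (latt y)) (fun i => y i : E d)
  have b6 : C * ‖tr (latt y) - (fun i => y i : E d)‖ ≤ |C| / 2 := by
    have := cmp_norm_tr_sub y
    calc C * ‖tr (latt y) - (fun i => y i : E d)‖
        ≤ |C| * ‖tr (latt y) - (fun i => y i : E d)‖ :=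
          mul_le_mul_of_nonneg_right (le_abs_self C) (norm_nonneg _)
      _ ≤ |C| * (1 / 2) := mul_le_mul_of_nonneg_left this (abs_nonneg C)
      _ = |C| / 2 := by ring
  have c2 : (r + 1 / 2) ^ (1 / 2 : ℝ) ≤ (2 : ℝ) ^ (1 / 2 : ℝ) * r ^ (1 / 2 : ℝ) :=
    cmp_pow hr (by norm_num) le_rfl (by norm_num) (by linarith) (by linarith)
  rw [Real.rpow_one] at a3 a4
  have c3 : ε / 4 * (r + 1 / 2) ≤ ε / 2 * r := by nlinarith
  have e : ept α S (near 0) (near y) - toRR μ y
      = (ept α S (near 0) (near y) - tP α S 0 (latt y)) + (tP α S 0 (latt y) - μ (tr (latt y)))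
        + (μ (tr (latt y)) - μ (fun i => y i : E d)) := by
    unfold toRR
    ring
  rw [e]
  refine (abs_add_three _ _ _).trans ?_
  linarith

theorem latP_of_bound (hα : 0 ≤ α) {μ : E d → ℝ} {S : Set (RR d)}
    {near : RR d → RR d} (hn : IsNear S near) {κ κ' : ℝ} (hκ' : 0 < κ') (hκκ' : κ < κ')
    (h1 : ∀ᶠ r : ℝ in atTop, ∀ y : RR d, ‖y‖ ≤ r →
      |ept α S (near 0) (near y) - toRR μ y| ≤ r ^ κ)
    (h2 : ∀ ε : ℝ, 0 < ε → ∀ᶠ r : ℝ in atTop, ∀ v : V d, nm v ≤ r → Er α S v ≤ r ^ ε) :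
    ∀ᶠ r : ℝ in atTop, ∀ v : V d, nm v ≤ r → |tP α S 0 v - μ (tr v)| ≤ r ^ κ' := by
  set k := max κ (κ' / 2) with hk
  have hk0 : 0 < k := lt_max_of_lt_right (by linarith)
  have hkk : k < κ' := max_lt hκκ' (by linarith)
  have hd : (0 : ℝ) < d + 1 := by positivity
  have g1 : ∀ᶠ r : ℝ in atTop, ∀ y : RR d, ‖y‖ ≤ ((d : ℝ) + 1) * r →
      |ept α S (near 0) (near y) - toRR μ y| ≤ (((d : ℝ) + 1) * r) ^ κ :=
    (tendsto_id.const_mul_atTop hd).eventually h1
  have g2 := h2 (κ' / 2) (by linarith)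
  filter_upwards [g1, g2, eventually_ge_atTop (1 : ℝ),
    ev_rpow_le (2 + ((d : ℝ) + 1) ^ k) (B := 1) (by norm_num) hkk] with r a1 a2 hr a3 v hv
  have hdr : (d : ℝ) * nm v ≤ ((d : ℝ) + 1) * r := by
    have := nm_nonneg v
    have h0 : (0 : ℝ) ≤ d := Nat.cast_nonneg d
    nlinarith
  have b0 := a1 (emb v) ((cmp_norm_emb v).trans hdr)
  have b1 := cmp_near (α := α) hα hn 0 (emb v)
  rw [cmp_latt_zero, cmp_latt_emb] at b1
  have b2 := a2 0 (by rw [nm_zero]; linarith)
  have b3 := a2 v hv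
  have c1 : (((d : ℝ) + 1) * r) ^ κ ≤ ((d : ℝ) + 1) ^ k * r ^ k := by
    apply cmp_pow hr hk0.le (le_max_left _ _) hd.le _ le_rfl
    have h0 : (0 : ℝ) ≤ d := Nat.cast_nonneg d
    nlinarith
  have c2 : r ^ (κ' / 2) ≤ r ^ k := Real.rpow_le_rpow_of_exponent_le hr (le_max_right _ _)
  have e0 : toRR μ (emb v) = μ (tr v) := rfl
  rw [e0] at b0
  have e : tP α S 0 v - μ (tr v)
      = -(ept α S (near 0) (near (emb v)) - tP α S 0 v)
        + (ept α S (near 0) (near (emb v)) - μ (tr v)) := by ring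
  rw [e]
  refine (abs_add_le _ _).trans ?_
  rw [abs_neg]
  linarith

end FPPX
end

section

/-! Isolated particles of a Poisson process. -/

namespace FPPX

open MeasureTheory ProbabilityTheory Filter Set
open scoped Topology

variable {d : ℕ} {Ω : Type*} [MeasurableSpace Ω] {P : Measure Ω} {Q : Ω → Set (RR d)}

/-- exactly one particle in the ball of radius `1 / 8` around `x`, and no other particle in the
ball of radius `1` -/
def isol {Ω : Type*} (Q : Ω → Set (RR d)) (x : RR d) : Set Ω :=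
  {ω | (Q ω ∩ Metric.ball x (1 / 8)).encard = 1 ∧
    (Q ω ∩ (Metric.ball x 1 \ Metric.ball x (1 / 8))).encard = 0}

theorem isol_near {ω : Ω} {x : RR d} (h : ω ∈ isol Q x) {near : RR d → RR d}
    (hn : IsNear (Q ω) near) {y : RR d} (hy : ‖y - x‖ ≤ 1 / 4) : near y = near x := by
  obtain ⟨h1, h2⟩ := h
  obtain ⟨p, hp⟩ := Set.encard_eq_one.1 h1
  rw [Set.encard_eq_zero] at h2
  have hpm : p ∈ Q ω ∩ Metric.ball x (1 / 8) := by
    rw [hp]
    exact mem_singleton p
  have hpx : dist p x < 1 / 8 := hpm.2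
  have hfar : ∀ q ∈ Q ω, q ≠ p → 1 ≤ dist q x := by
    intro q hq hqp
    by_contra hcon
    push Not at hcon
    by_cases hq8 : q ∈ Metric.ball x (1 / 8)
    · have : q ∈ ({p} : Set (RR d)) := by
        rw [← hp]
        exact ⟨hq, hq8⟩
      exact hqp this
    · have : q ∈ (∅ : Set (RR d)) := by
        rw [← h2]
        exact ⟨hq, hcon, hq8⟩
      exact this
  have key : ∀ z : RR d, dist z x ≤ 1 / 4 → near z = p := by
    intro z hz
    by_contra hcon
    have h3 := hfar (near z) (hn z).1 hcon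
    have h4 := (hn z).2 p hpm.1
    have h5 := dist_triangle_right z p x
    have h6 := dist_triangle_left (near z) x z
    rw [dist_comm z p] at h5
    have h7 := dist_triangle (near z) z x
    have h8 := dist_triangle p x z
    rw [dist_comm (near z) z] at h7
    rw [dist_comm x z] at h8
    rw [dist_comm z p] at h4
    linarith
  rw [key y (by rw [dist_eq_norm]; exact hy), key x (by rw [dist_self]; norm_num)]

private lemma isol_indep (h : IsPoisson P Q) {ι : Type*} (A : ι → Set (RR d))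
    (hA : ∀ i, MeasurableSet (A i)) (hd : ∀ i j, i ≠ j → Disjoint (A i) (A j)) :
    iIndepFun (fun i ω => (Q ω ∩ A i).encard) P := by
  classical
  rw [iIndepFun_iff_finset]
  intro s
  have h1 := h.indep s.card (fun k => A (s.equivFin.symm k)) (fun k => hA _) (fun i j hij =>
    hd _ _ fun he => hij (s.equivFin.symm.injective (Subtype.ext he)))
  have h2 := h1.precomp (g := s.equivFin) s.equivFin.injective
  convert h2 using 1
  funext i ω
  simp [Finset.restrict]

private lemma isol_meas1 (h : IsPoisson P Q) {A : Set (RR d)} (hA : MeasurableSet A) (k : ℕ∞) :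
    MeasurableSet {ω | (Q ω ∩ A).encard = k} :=
  h.meas A hA (MeasurableSet.singleton k)

private lemma isol_meas (h : IsPoisson P Q) (x : RR d) : MeasurableSet (isol Q x) :=
  (isol_meas1 h measurableSet_ball 1).inter
    (isol_meas1 h (measurableSet_ball.diff measurableSet_ball) 0)

/-- the two regions around `x` -/
private def isolA (x : RR d) (b : Bool) : Set (RR d) :=
  if b then Metric.ball x 1 \ Metric.ball x (1 / 8) else Metric.ball x (1 / 8)

private def isolV (b : Bool) : ℕ∞ := if b then 0 else 1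

private lemma isolA_meas (x : RR d) (b : Bool) : MeasurableSet (isolA x b) := by
  cases b
  · exact measurableSet_ball
  · exact measurableSet_ball.diff measurableSet_ball

private lemma isolA_sub (x : RR d) (b : Bool) : isolA x b ⊆ Metric.ball x 1 := by
  cases b
  · exact Metric.ball_subset_ball (by norm_num)
  · exact sdiff_subset

private lemma isolA_disj (x : RR d) {b b' : Bool} (h : b ≠ b') :
    Disjoint (isolA x b) (isolA x b') := by
  cases b <;> cases b'
  · exact absurd rfl h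
  · exact disjoint_sdiff_right
  · exact disjoint_sdiff_left
  · exact absurd rfl h

private lemma isol_eq (x : RR d) : isol Q x =
    ⋂ b ∈ (Finset.univ : Finset Bool), (fun ω => (Q ω ∩ isolA x b).encard) ⁻¹' {isolV b} := by
  ext ω
  simp [isol, isolA, isolV, and_comm]

private lemma isol_real (h : IsPoisson P Q) [IsProbabilityMeasure P] (x : RR d) :
    P (isol Q x) = ∏ b : Bool, P ((fun ω => (Q ω ∩ isolA x b).encard) ⁻¹' {isolV b}) := by
  rw [isol_eq]
  exact (isol_indep h (isolA x) (isolA_meas x)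
    (fun b b' hb => isolA_disj x hb)).measure_inter_preimage_eq_mul Finset.univ
    (fun b _ => MeasurableSet.singleton _)

theorem isol_prob [IsProbabilityMeasure P] (h : IsPoisson P Q) : ∃ p0 : ℝ, 0 < p0 ∧
    ∀ x : RR d, MeasurableSet (isol Q x) ∧ P.real (isol Q x) = p0 := by
  set v : ℝ := (volume (Metric.ball (0 : RR d) (1 / 8))).toReal with hv
  set V' : ℝ := (volume (Metric.ball (0 : RR d) 1)).toReal with hV
  have hvpos : 0 < v := ENNReal.toReal_pos
    (Metric.measure_ball_pos volume (0 : RR d) (by norm_num)).ne' measure_ball_lt_top.ne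
  refine ⟨Real.exp (-(V' - v)) * (Real.exp (-v) * v), by positivity, fun x => ⟨isol_meas h x, ?_⟩⟩
  have hb : ∀ r : ℝ, volume (Metric.ball x r) = volume (Metric.ball (0 : RR d) r) :=
    fun r => Measure.addHaar_ball_center volume x r
  have h1 : (volume (isolA x false)).toReal = v := by
    show (volume (Metric.ball x (1 / 8))).toReal = v
    rw [hb]
  have h2 : (volume (isolA x true)).toReal = V' - v := by
    show (volume (Metric.ball x 1 \ Metric.ball x (1 / 8))).toReal = V' - v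
    rw [measure_sdiff (Metric.ball_subset_ball (by norm_num)) measurableSet_ball.nullMeasurableSet
      measure_ball_lt_top.ne, hb, hb, ENNReal.toReal_sub_of_le
      (measure_mono (Metric.ball_subset_ball (by norm_num))) measure_ball_lt_top.ne]
  have hfin : ∀ b, volume (isolA x b) ≠ ⊤ := fun b =>
    ((measure_mono (isolA_sub x b)).trans_lt measure_ball_lt_top).ne
  have l1 := h.law (isolA x false) (isolA_meas x false) (hfin false) 1
  have l2 := h.law (isolA x true) (isolA_meas x true) (hfin true) 0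
  rw [h1] at l1
  rw [h2] at l2
  rw [measureReal_def, isol_real h x, Fintype.prod_bool, ENNReal.toReal_mul]
  have e1 : (P ((fun ω => (Q ω ∩ isolA x false).encard) ⁻¹' {isolV false})).toReal =
      Real.exp (-v) * v := by
    have : (fun ω => (Q ω ∩ isolA x false).encard) ⁻¹' {isolV false} =
      {ω | (Q ω ∩ isolA x false).encard = ((1 : ℕ) : ℕ∞)} := by
      ext ω
      simp [isolV]
    rw [this]
    rw [measureReal_def] at l1
    rw [l1]
    simp
  have e2 : (P ((fun ω => (Q ω ∩ isolA x true).encard) ⁻¹' {isolV true})).toReal =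
      Real.exp (-(V' - v)) := by
    have : (fun ω => (Q ω ∩ isolA x true).encard) ⁻¹' {isolV true} =
      {ω | (Q ω ∩ isolA x true).encard = ((0 : ℕ) : ℕ∞)} := by
      ext ω
      simp [isolV]
    rw [this]
    rw [measureReal_def] at l2
    rw [l2]
    simp
  rw [e1, e2]

theorem isol_ae [IsProbabilityMeasure P] (hd : 1 ≤ d) (h : IsPoisson P Q) :
    ∀ᵐ ω ∂P, ∀ R : ℝ, ∃ x : RR d, R ≤ ‖x‖ ∧ ω ∈ isol Q x := by
  obtain ⟨p0, hp0, hp⟩ := isol_prob h
  have key : ∀ R : ℕ, ∀ᵐ ω ∂P, ∃ x : RR d, (R : ℝ) ≤ ‖x‖ ∧ ω ∈ isol Q x := by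
    intro R
    set e : RR d := EuclideanSpace.single ⟨0, hd⟩ 1 with he
    have hen : ‖e‖ = 1 := by simp [he]
    set x : ℕ → RR d := fun j => ((R : ℝ) + 4 * j) • e with hx
    have hxn : ∀ j, (R : ℝ) ≤ ‖x j‖ := by
      intro j
      rw [hx]
      simp only [norm_smul, hen, mul_one, Real.norm_eq_abs]
      rw [abs_of_nonneg (by positivity)]
      have : (0 : ℝ) ≤ 4 * j := by positivity
      linarith
    have hxd : ∀ i j, i ≠ j → 4 ≤ dist (x i) (x j) := by
      intro i j hij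
      have h1 : x i - x j = (4 * ((i : ℝ) - j)) • e := by
        rw [hx]
        simp only
        rw [← sub_smul]
        congr 1
        ring
      rw [dist_eq_norm, h1, norm_smul, hen, mul_one, Real.norm_eq_abs, abs_mul]
      have h2 : (1 : ℝ) ≤ |(i : ℝ) - j| := by
        have h3 : (1 : ℤ) ≤ |(i : ℤ) - j| := Int.one_le_abs (by omega)
        exact_mod_cast h3
      have h4 : |(4 : ℝ)| = 4 := abs_of_pos (by norm_num)
      rw [h4]
      linarith
    have hind : iIndepFun (fun (k : ℕ × Bool) ω => (Q ω ∩ isolA (x k.1) k.2).encard) P := by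
      refine isol_indep h (fun k : ℕ × Bool => isolA (x k.1) k.2) (fun k => isolA_meas _ _) ?_
      rintro ⟨i, b⟩ ⟨j, b'⟩ hne
      by_cases hij : i = j
      · subst hij
        exact isolA_disj (x i) (fun hb => hne (Prod.ext rfl hb))
      · refine Disjoint.mono (isolA_sub _ _) (isolA_sub _ _) ?_
        exact Metric.ball_disjoint_ball (by have := hxd i j hij; linarith)
    have hset : iIndepSet (fun j => isol Q (x j)) P := by
      rw [iIndepSet_iff_meas_biInter (fun j => isol_meas h _)]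
      intro S
      have h1 : (⋂ j ∈ S, isol Q (x j)) = ⋂ k ∈ S ×ˢ (Finset.univ : Finset Bool),
          (fun ω => (Q ω ∩ isolA (x k.1) k.2).encard) ⁻¹' {isolV k.2} := by
        ext ω
        simp only [isol_eq, mem_iInter, Finset.mem_product, Finset.mem_univ, and_true]
        constructor
        · intro hh k hk
          exact hh k.1 hk k.2 trivial
        · intro hh j hj b _
          exact hh (j, b) hj
      rw [h1, hind.measure_inter_preimage_eq_mul (S ×ˢ Finset.univ)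
        (fun k _ => MeasurableSet.singleton _), Finset.prod_product]
      refine Finset.prod_congr rfl fun j _ => ?_
      rw [isol_real h (x j)]
    have hsum : ∑' j, P (isol Q (x j)) = ⊤ := by
      have h1 : ∀ j, P (isol Q (x j)) = ENNReal.ofReal p0 := by
        intro j
        rw [← (hp (x j)).2, measureReal_def, ENNReal.ofReal_toReal (measure_ne_top _ _)]
      simp_rw [h1]
      exact ENNReal.tsum_const_eq_top_of_ne_zero (by simpa using hp0)
    have h1 := measure_limsup_eq_one (fun j => isol_meas h (x j)) hset hsum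
    have hms : MeasurableSet (limsup (fun j => isol Q (x j)) atTop) :=
      MeasurableSet.measurableSet_limsup fun j => isol_meas h (x j)
    have h2 : ∀ᵐ ω ∂P, ω ∈ limsup (fun j => isol Q (x j)) atTop :=
      (mem_ae_iff_prob_eq_one hms).2 h1
    filter_upwards [h2] with ω hω
    rw [mem_limsup_iff_frequently_mem] at hω
    obtain ⟨j, hj⟩ := hω.exists
    exact ⟨x j, hxn j, hj⟩
  rw [← ae_all_iff] at key
  filter_upwards [key] with ω hω R
  obtain ⟨n, hn⟩ := exists_nat_ge R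
  obtain ⟨x, hx, hx'⟩ := hω n
  exact ⟨x, hn.trans hx, hx'⟩

end FPPX
end
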