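import Pool.Agent.Lib.MP_fa364e_pr.Mg.G013
import Pool.Agent.Lib.MP_fa364e_pr.Mg.G014
import Pool.Agent.Lib.MP_fa364e_pr.Mg.G010
import Pool.Agent.Lib.MP_fa364e_pr.Mg.G001
import Pool.Agent.Lib.MP_fa364e_pr.Mg.G009

section

/-! Measurability of the existence of chains of particles satisfying open conditions. -/

namespace FPPX

open MeasureTheory ProbabilityTheory Filter Set
open scoped Topology

variable {d : ℕ} {α : ℝ}

private lemma MeasO_cnt (m : ℕ) (k : Fin d → Fin (2 ^ m)) (A : Set ℕ∞) :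
    MeasurableSet {S : Cfg d | S.cnt m k ∈ A} := by
  have h : MeasurableSpace.comap (Cfg.cnt m k) ⊤ ≤ Cfg.instMeasurableSpace d :=
    le_iSup₂ (f := fun (m : ℕ) (k : Fin d → Fin (2 ^ m)) =>
      MeasurableSpace.comap (Cfg.cnt (d := d) m k) ⊤) m k
  exact h _ ⟨A, trivial, rfl⟩

/-- a box contains a particle -/
theorem meas_box (K : Set (V d)) (m : ℕ) (b : V d) (hb : cel m b ∈ K) :
    MeasurableSet[FP (Cfg d) K] {ω : Env d | (parts ω ∩ dbox m b).Nonempty} := by
  have h := FP_comap (X := Cfg d) K hb (MeasO_cnt m (rel m b) {0}ᶜ)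
  have h2 : {ω : Env d | (parts ω ∩ dbox m b).Nonempty} =
      (fun ω : V d → Cfg d => ω (cel m b)) ⁻¹' {S : Cfg d | S.cnt m (rel m b) ∈ ({0}ᶜ : Set ℕ∞)} := by
    ext ω
    simp only [Set.mem_ofPred_eq, Set.mem_preimage, Set.mem_compl_iff, Set.mem_singleton_iff]
    rw [← encard_parts, ← Set.encard_ne_zero]
  rw [h2]
  exact h

theorem meas_encard (m : ℕ) (b : V d) :
    Measurable fun ω : Env d => (parts ω ∩ dbox m b).encard := by
  have h : (fun ω : Env d => (parts ω ∩ dbox m b).encard) =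
      (fun S : Cfg d => S.cnt m (rel m b)) ∘ (fun ω : Env d => ω (cel m b)) := by
    funext ω
    simp only [Function.comp_apply]
    exact encard_parts ω m b
  rw [h]
  exact Measurable.comp (fun A _ => MeasO_cnt m (rel m b) A) (measurable_pi_apply _)

theorem meas_open (K : Set (V d)) (n : ℕ) (U : Set (Fin n → RR d)) (hU : IsOpen U) :
    MeasurableSet[FP (Cfg d) K] {ω : Env d | ∃ x : Fin n → RR d,
      (∀ i, x i ∈ parts ω ∩ hat K) ∧ x ∈ U} := by
  have h : {ω : Env d | ∃ x : Fin n → RR d, (∀ i, x i ∈ parts ω ∩ hat K) ∧ x ∈ U} =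
      ⋃ m : ℕ, ⋃ b : Fin n → V d, ⋃ _ : ((∀ x : Fin n → RR d, (∀ i, x i ∈ dbox m (b i)) → x ∈ U) ∧
        ∀ i, cel m (b i) ∈ K), ⋂ i : Fin n, {ω : Env d | (parts ω ∩ dbox m (b i)).Nonempty} := by
    ext ω
    simp only [Set.mem_ofPred_eq, Set.mem_iUnion, Set.mem_iInter]
    constructor
    · rintro ⟨x, hx, hxU⟩
      obtain ⟨ε, hε, hball⟩ := Metric.isOpen_iff.1 hU x hxU
      obtain ⟨m, hm⟩ := exists_pow_lt_of_lt_one (show 0 < ε / (d + 1) by positivity)
        (show (1 / 2 : ℝ) < 1 by norm_num)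
      have hm2 : (d : ℝ) * ((2 : ℝ) ^ m)⁻¹ < ε := by
        have h1 : ((2 : ℝ) ^ m)⁻¹ = (1 / 2) ^ m := by rw [one_div, inv_pow]
        rw [h1]
        have h2 : (1 / 2 : ℝ) ^ m * (d + 1) < ε := by
          rwa [lt_div_iff₀ (by positivity)] at hm
        have h3 : (0 : ℝ) < (1 / 2) ^ m := by positivity
        nlinarith
      refine ⟨m, fun i => dix m (x i), ⟨?_, ?_⟩, ?_⟩
      · intro y hy
        apply hball
        rw [Metric.mem_ball, dist_pi_lt_iff hε]
        intro i
        rw [dist_eq_norm]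
        exact (norm_sub_of_dbox (hy i) (mem_dbox m (x i))).trans_lt hm2
      · intro i
        rw [← latt_of_mem_dbox (mem_dbox m (x i))]
        exact (hx i).2
      · intro i
        exact ⟨x i, (hx i).1, mem_dbox m (x i)⟩
    · rintro ⟨m, b, ⟨h1, h2⟩, h3⟩
      choose x hx using h3
      refine ⟨x, fun i => ⟨(hx i).1, ?_⟩, h1 x fun i => (hx i).2⟩
      change latt (x i) ∈ K
      rw [latt_of_mem_dbox (hx i).2]
      exact h2 i
  rw [h]
  refine MeasurableSet.iUnion fun m => MeasurableSet.iUnion fun b => MeasurableSet.iUnion fun hc =>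
    MeasurableSet.iInter fun i => meas_box K m (b i) (hc.2 i)

/-- chains with a strict bound on a continuous functional of the end points and the cost -/
theorem meas_chain (hα : 0 < α) (K : Set (V d)) (f : RR d → RR d → ℝ)
    (hf : Continuous fun z : RR d × RR d => f z.1 z.2) (s : ℝ) :
    MeasurableSet[FP (Cfg d) K] {ω : Env d | ∃ p q c, Wk α (parts ω ∩ hat K) p q c ∧
      f p q + c < s} := by
  have h : {ω : Env d | ∃ p q c, Wk α (parts ω ∩ hat K) p q c ∧ f p q + c < s} =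
      ⋃ k : ℕ, {ω : Env d | ∃ x : Fin (k + 1) → RR d, (∀ i, x i ∈ parts ω ∩ hat K) ∧
        x ∈ {x : Fin (k + 1) → RR d | f (x 0) (x (Fin.last k)) +
          ∑ i : Fin k, ‖x i.castSucc - x i.succ‖ ^ α < s}} := by
    ext ω
    simp only [Set.mem_ofPred_eq, Set.mem_iUnion]
    constructor
    · rintro ⟨p, q, c, ⟨k, x, hx, rfl, rfl, rfl⟩, hlt⟩
      refine ⟨k, fun i => x i, fun i => hx i (by omega), ?_⟩
      rw [Finset.sum_range] at hlt
      simpa using hlt
    · rintro ⟨k, y, hy, hlt⟩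
      have hy' : ∀ (i : ℕ) (hi : i ≤ k), y ⟨min i k, by omega⟩ = y ⟨i, by omega⟩ := by
        intro i hi
        congr 1
        exact Fin.ext (min_eq_left hi)
      refine ⟨y 0, y (Fin.last k), _, ⟨k, fun i => y ⟨min i k, by omega⟩, fun i _ => hy _,
        hy' 0 (Nat.zero_le _), hy' k le_rfl, rfl⟩, ?_⟩
      rw [Finset.sum_range]
      convert hlt using 2
      apply Finset.sum_congr rfl
      intro i _
      have h1 : y ⟨min (i : ℕ) k, by omega⟩ = y i.castSucc := hy' i (by omega)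
      have h2 : y ⟨min ((i : ℕ) + 1) k, by omega⟩ = y i.succ := hy' (i + 1) (by omega)
      change ‖y ⟨min (i : ℕ) k, _⟩ - y ⟨min ((i : ℕ) + 1) k, _⟩‖ ^ α = _
      rw [h1, h2]
  rw [h]
  refine MeasurableSet.iUnion fun k => meas_open K (k + 1) _ ?_
  refine isOpen_lt ?_ continuous_const
  refine Continuous.add ?_ ?_
  · exact Continuous.comp (g := fun z : RR d × RR d => f z.1 z.2)
      (f := fun x : Fin (k + 1) → RR d => (x 0, x (Fin.last k))) hf (by fun_prop)
  · refine continuous_finsetSum _ fun i _ => ?_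
    refine Continuous.rpow_const ?_ fun _ => Or.inr hα.le
    have h1 : Continuous fun x : Fin (k + 1) → RR d => x i.castSucc - x i.succ := by fun_prop
    exact h1.norm

private lemma MeasO_cont (hα : 0 < α) (u v : V d) :
    Continuous fun z : RR d × RR d =>
      (2 * ‖z.1 - emb u‖) ^ α + (2 * ‖z.2 - emb v‖) ^ α := by
  refine Continuous.add ?_ ?_
  · refine Continuous.rpow_const ?_ fun _ => Or.inr hα.le
    exact continuous_const.mul (continuous_fst.sub continuous_const).norm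
  · refine Continuous.rpow_const ?_ fun _ => Or.inr hα.le
    exact continuous_const.mul (continuous_snd.sub continuous_const).norm

private lemma MeasO_ch (hα : 0 < α) (K : Set (V d)) (u v : V d) (s : ℝ) :
    MeasurableSet[FP (Cfg d) K] {ω : Env d | ∃ p q c, Wk α (parts ω ∩ hat K) p q c ∧
      (2 * ‖p - emb u‖) ^ α + c + (2 * ‖q - emb v‖) ^ α < s} := by
  have h := meas_chain hα K (fun p q => (2 * ‖p - emb u‖) ^ α + (2 * ‖q - emb v‖) ^ α)
    (MeasO_cont hα u v) s
  have h2 : {ω : Env d | ∃ p q c, Wk α (parts ω ∩ hat K) p q c ∧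
      (2 * ‖p - emb u‖) ^ α + c + (2 * ‖q - emb v‖) ^ α < s} =
      {ω : Env d | ∃ p q c, Wk α (parts ω ∩ hat K) p q c ∧
      (2 * ‖p - emb u‖) ^ α + (2 * ‖q - emb v‖) ^ α + c < s} := by
    ext ω
    simp only [Set.mem_ofPred_eq]
    constructor
    · rintro ⟨p, q, c, h1, h2⟩
      exact ⟨p, q, c, h1, by linarith⟩
    · rintro ⟨p, q, c, h1, h2⟩
      exact ⟨p, q, c, h1, by linarith⟩
  rw [h2]
  exact h

theorem LEP_meas (hα : 0 < α) (K : Set (V d)) (u v : V d) (s : ℝ) :
    MeasurableSet[FP (Cfg d) K] (LEP α K u v s) := by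
  by_cases hc : u = v ∧ 0 ≤ s
  · have h : LEP α K u v s = Set.univ := by
      ext ω
      simp only [LEP, Set.mem_ofPred_eq, Set.mem_univ, iff_true]
      exact Or.inl hc
    rw [h]
    exact MeasurableSet.univ
  · have h : LEP α K u v s = {ω : Env d | ∃ p q c, Wk α (parts ω ∩ hat K) p q c ∧
        (2 * ‖p - emb u‖) ^ α + c + (2 * ‖q - emb v‖) ^ α < s} := by
      ext ω
      simp only [LEP, Set.mem_ofPred_eq]
      constructor
      · rintro (h1 | h1)
        · exact absurd h1 hc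
        · exact h1
      · exact Or.inr
    rw [h]
    exact MeasO_ch hα K u v s

theorem tP_meas (hα : 0 < α) (u v : V d) : Measurable fun ω : Env d => tP α (parts ω) u v := by
  by_cases huv : u = v
  · have h : (fun ω : Env d => tP α (parts ω) u v) = fun _ => 0 := by
      funext ω
      rw [huv]
      exact tP_self _ _
    rw [h]
    exact measurable_const
  have hat_univ : hat (d := d) Set.univ = Set.univ := by
    ext x
    simp [hat]
  have hemp : ∀ ω : Env d, ¬ (parts ω).Nonempty → tP α (parts ω) u v = 0 := by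
    intro ω hω
    rw [tP, if_neg huv]
    have h1 : {s | ∃ p q c, Wk α (parts ω) p q c ∧
        s = (2 * ‖p - emb u‖) ^ α + c + (2 * ‖q - emb v‖) ^ α} = ∅ := by
      rw [Set.eq_empty_iff_forall_notMem]
      rintro s ⟨p, q, c, ⟨k, x, hx, -⟩, -⟩
      exact hω ⟨x 0, hx 0 (Nat.zero_le _)⟩
    rw [h1, Real.sInf_empty]
  apply measurable_of_Iio
  intro s
  rcases le_or_gt s 0 with hs | hs
  · have h : (fun ω : Env d => tP α (parts ω) u v) ⁻¹' Set.Iio s = ∅ := by
      rw [Set.eq_empty_iff_forall_notMem]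
      intro ω hω
      have h1 := tP_nonneg (α := α) (parts ω) u v
      rw [Set.mem_preimage, Set.mem_Iio] at hω
      linarith
    rw [h]
    exact MeasurableSet.empty
  · have h : (fun ω : Env d => tP α (parts ω) u v) ⁻¹' Set.Iio s =
        {ω : Env d | ∃ x : Fin 1 → RR d, (∀ i, x i ∈ parts ω ∩ hat Set.univ) ∧
          x ∈ (Set.univ : Set (Fin 1 → RR d))}ᶜ ∪
        {ω : Env d | ∃ p q c, Wk α (parts ω ∩ hat Set.univ) p q c ∧
          (2 * ‖p - emb u‖) ^ α + c + (2 * ‖q - emb v‖) ^ α < s} := by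
      ext ω
      rw [hat_univ]
      simp only [Set.inter_univ, Set.mem_preimage, Set.mem_Iio, Set.mem_union, Set.mem_compl_iff,
        Set.mem_ofPred_eq, Set.mem_univ, and_true]
      constructor
      · intro h1
        by_cases hne : (parts ω).Nonempty
        · exact Or.inr (tP_near hne huv h1)
        · refine Or.inl ?_
          rintro ⟨x, hx⟩
          exact hne ⟨x 0, hx 0⟩
      · rintro (h1 | ⟨p, q, c, h1, h2⟩)
        · have hne : ¬ (parts ω).Nonempty := by
            rintro ⟨x, hx⟩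
            exact h1 ⟨fun _ => x, fun _ => hx⟩
          rw [hemp ω hne]
          exact hs
        · exact (tP_le h1).trans_lt h2
    rw [h]
    refine MeasurableSet.union (MeasurableSet.compl ?_) ?_
    · exact FP_le (X := Cfg d) Set.univ _ (meas_open Set.univ 1 Set.univ isOpen_univ)
    · exact FP_le (X := Cfg d) Set.univ _ (MeasO_ch hα Set.univ u v s)

end FPPX
end

section

/-! From a Poisson process to the canonical space. -/

namespace FPPX

open MeasureTheory ProbabilityTheory Filter Set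
open scoped Topology

variable {d : ℕ} {Ω : Type*} [MeasurableSpace Ω] {P : Measure Ω} {Q : Ω → Set (RR d)}
  {Λ : Measure (Cfg d)}

private lemma cnt_can (S : Set (RR d)) (v : V d) (m : ℕ) (k : Fin d → Fin (2 ^ m)) :
    (can S v).cnt m k = (S ∩ dbox m (fun i => ((k i : ℕ) : ℤ) + 2 ^ m * v i)).encard := by
  have h1 : (fun y : RR d => y + emb v) '' ((can S v).pts ∩ dbox m (fun i => ((k i : ℕ) : ℤ)))
      = S ∩ dbox m (fun i => ((k i : ℕ) : ℤ) + 2 ^ m * v i) := by
    ext x
    constructor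
    · rintro ⟨y, ⟨hy1, hy2⟩, rfl⟩
      exact ⟨hy1, (mem_dbox_add m _ v y).mpr hy2⟩
    · rintro ⟨hx1, hx2⟩
      refine ⟨x - emb v, ⟨?_, ?_⟩, by simp⟩
      · show x - emb v + emb v ∈ S
        rw [sub_add_cancel]
        exact hx1
      · apply (mem_dbox_add m _ v _).mp
        rw [sub_add_cancel]
        exact hx2
  unfold Cfg.cnt
  rw [← h1, Function.Injective.encard_image (add_left_injective (emb v))]

private lemma measurable_to_cfg {f : Ω → Cfg d}
    (hf : ∀ (m : ℕ) (k : Fin d → Fin (2 ^ m)), Measurable fun ω => (f ω).cnt m k) :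
    Measurable f := by
  rw [measurable_iff_comap_le]
  unfold Cfg.instMeasurableSpace
  rw [MeasurableSpace.comap_iSup]
  refine iSup_le fun m => ?_
  rw [MeasurableSpace.comap_iSup]
  refine iSup_le fun k => ?_
  rw [MeasurableSpace.comap_comp]
  exact (hf m k).comap_le

theorem IsPoisson.meas_can (h : IsPoisson P Q) : Measurable fun ω => can (Q ω) := by
  apply measurable_pi_lambda
  intro v
  apply measurable_to_cfg
  intro m k
  simp only [cnt_can]
  exact h.meas _ (measurableSet_dbox m _)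

theorem IsPoisson.cellLaw [IsProbabilityMeasure P] (h : IsPoisson P Q) (v : V d) :
    IsCellLaw (P.map fun ω => can (Q ω) v) := by
  have hX : Measurable fun ω => can (Q ω) v := (measurable_pi_apply v).comp h.meas_can
  have hpr : IsProbabilityMeasure (P.map fun ω => can (Q ω) v) :=
    Measure.isProbabilityMeasure_map hX.aemeasurable
  refine ⟨hpr, ?_, ?_⟩
  · intro m k n
    have hms : MeasurableSet {S : Cfg d | S.cnt m k = n} :=
      measurable_cnt m k (MeasurableSet.singleton _)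
    rw [map_measureReal_apply hX hms]
    have h1 : (fun ω => can (Q ω) v) ⁻¹' {S : Cfg d | S.cnt m k = n}
        = {ω | (Q ω ∩ dbox m (fun i => ((k i : ℕ) : ℤ) + 2 ^ m * v i)).encard = n} := by
      ext ω
      simp only [mem_preimage, mem_ofPred_eq, cnt_can]
    have hv := volume_dbox (d := d) m (fun i => ((k i : ℕ) : ℤ) + 2 ^ m * v i)
    rw [h1, h.law _ (measurableSet_dbox m _) (by rw [hv]; exact ENNReal.ofReal_ne_top), hv,
      ENNReal.toReal_ofReal (by positivity)]
  · intro m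
    set B : (Fin d → Fin (2 ^ m)) → Set (RR d) :=
      fun k => dbox m (fun i => ((k i : ℕ) : ℤ) + 2 ^ m * v i) with hB
    have hBm : ∀ k, MeasurableSet (B k) := fun k => measurableSet_dbox m _
    have hBd : ∀ k l, k ≠ l → Disjoint (B k) (B l) := by
      intro k l hkl
      apply disjoint_dbox
      intro he
      apply hkl
      funext i
      have := congrFun he i
      apply Fin.ext
      omega
    set e := Fintype.equivFin (Fin d → Fin (2 ^ m)) with he
    have h1 := h.indep _ (fun i => B (e.symm i)) (fun i => hBm _)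
      (fun i j hij => hBd _ _ (fun h2 => hij (e.symm.injective h2)))
    have h2 : iIndepFun (fun (k : Fin d → Fin (2 ^ m)) ω => (Q ω ∩ B k).encard) P := by
      have h3 := h1.precomp (g := e) e.injective
      simpa using h3
    have h4 : ∀ k, Measurable fun ω => (Q ω ∩ B k).encard := fun k => h.meas _ (hBm k)
    rw [iIndepFun_iff_map_fun_eq_pi_map (fun k => (h4 k).aemeasurable)] at h2
    rw [iIndepFun_iff_map_fun_eq_pi_map (fun k => (measurable_cnt m k).aemeasurable)]
    have hF : Measurable fun (S : Cfg d) (k : Fin d → Fin (2 ^ m)) => S.cnt m k :=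
      measurable_pi_lambda _ (fun k => measurable_cnt m k)
    rw [Measure.map_map hF hX]
    have h5 : (fun (S : Cfg d) (k : Fin d → Fin (2 ^ m)) => S.cnt m k) ∘
        (fun ω => can (Q ω) v) = fun ω k => (Q ω ∩ B k).encard := by
      funext ω k
      exact cnt_can (Q ω) v m k
    rw [h5, h2]
    congr 1
    funext k
    rw [Measure.map_map (measurable_cnt m k) hX]
    congr 1
    funext ω
    exact (cnt_can (Q ω) v m k).symm

end FPPX
end

section

/-! From a Poisson process to the canonical space. -/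

namespace FPPX

open MeasureTheory ProbabilityTheory Filter Set
open scoped Topology

variable {d : ℕ} {Ω : Type*} [MeasurableSpace Ω] {P : Measure Ω} {Q : Ω → Set (RR d)}
  {Λ : Measure (Cfg d)}

/-- blocks of independent variables are independent -/
private lemma transB_blocks {ι κ : Type*} [IsProbabilityMeasure P] {X : ι → κ → Ω → ℕ∞}
    (mX : ∀ i k, Measurable (X i k))
    (h : iIndepFun (fun (p : (_ : ι) × κ) ω => X p.1 p.2 ω) P) :
    iIndepFun (fun (i : ι) (ω : Ω) (k : κ) => X i k ω) P := by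
  have hprob : ∀ i k, IsProbabilityMeasure (P.map (X i k)) :=
    fun i k => Measure.isProbabilityMeasure_map (mX i k).aemeasurable
  have mX1 : Measurable fun ω (p : (_ : ι) × κ) => X p.1 p.2 ω :=
    measurable_pi_iff.2 fun p => mX p.1 p.2
  have mX2 : ∀ i, Measurable fun ω (k : κ) => X i k ω :=
    fun i => measurable_pi_iff.2 fun k => mX i k
  rw [iIndepFun_iff_map_fun_eq_infinitePi_map mX2]
  have e1 : (MeasurableEquiv.piCurry (fun (_ : ι) (_ : κ) => ℕ∞)) ∘
      (fun ω (p : (_ : ι) × κ) => X p.1 p.2 ω) = fun ω i k => X i k ω := by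
    ext
    simp [Sigma.curry]
  have e2 : P.map (fun ω i k => X i k ω) =
      (P.map (fun ω (p : (_ : ι) × κ) => X p.1 p.2 ω)).map
        (MeasurableEquiv.piCurry (fun (_ : ι) (_ : κ) => ℕ∞)) := by
    rw [Measure.map_map (MeasurableEquiv.measurable _) mX1, e1]
  rw [e2, iIndepFun.map_fun_eq_infinitePi_map (X := fun (p : (_ : ι) × κ) ω => X p.1 p.2 ω)
    (fun p => mX p.1 p.2) h, Measure.infinitePi_map_piCurry (fun i k => P.map (X i k))]
  congr 1
  funext i
  have h' : iIndepFun (X i) P :=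
    h.precomp (g := fun k : κ => (⟨i, k⟩ : (_ : ι) × κ)) (fun k k' hk => by simpa using hk)
  rw [(iIndepFun_iff_map_fun_eq_infinitePi_map (mX i)).1 h']

/-- numbers of particles in disjoint sets, for an arbitrary index set -/
private lemma transB_disj {ι : Type*} (h : IsPoisson P Q) (A : ι → Set (RR d))
    (hA : ∀ i, MeasurableSet (A i)) (hd : ∀ i j, i ≠ j → Disjoint (A i) (A j)) :
    iIndepFun (fun i ω => (Q ω ∩ A i).encard) P := by
  rw [iIndepFun_iff_finset]
  intro s
  let e := s.equivFin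
  have h1 := h.indep s.card (fun i => A (e.symm i)) (fun i => hA _) (fun i j hij =>
    hd _ _ (fun he => hij (e.symm.injective (Subtype.ext he))))
  have h2 := h1.precomp (g := fun i : s => e i) e.injective
  have h3 : (fun (i : s) (ω : Ω) => (Q ω ∩ A (e.symm (e i))).encard) =
      s.restrict (fun i ω => (Q ω ∩ A i).encard) := by
    funext i ω
    simp
  rw [← h3]
  exact h2

private lemma transB_top : (inferInstance : MeasurableSpace ℕ∞) = ⊤ :=
  le_antisymm le_top (fun _ _ => MeasurableSet.of_discrete)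

/-- the information at level `m` is the information of the vector of counts -/
private lemma transB_lev (m : ℕ) : lev d m = MeasurableSpace.comap
    (fun (S : Cfg d) (k : Fin d → Fin (2 ^ m)) => S.cnt m k) inferInstance := by
  unfold lev
  change _ = MeasurableSpace.comap (fun (S : Cfg d) (k : Fin d → Fin (2 ^ m)) => S.cnt m k)
    (MeasurableSpace.pi)
  rw [MeasurableSpace.pi, MeasurableSpace.comap_iSup]
  refine iSup_congr fun k => ?_
  rw [MeasurableSpace.comap_comp, ← transB_top]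
  rfl

theorem IsPoisson.indep_can [IsProbabilityMeasure P] (h : IsPoisson P Q) :
    iIndepFun (fun (v : V d) ω => can (Q ω) v) P := by
  have hbox : ∀ (m : ℕ) (v : V d) (k : Fin d → Fin (2 ^ m)) (ω : Ω),
      (can (Q ω) v).cnt m k =
        (Q ω ∩ dbox m (fun i => 2 ^ m * v i + ((k i : ℕ) : ℤ))).encard := by
    intro m v k ω
    have h1 := encard_parts (can (Q ω)) m (fun i => 2 ^ m * v i + ((k i : ℕ) : ℤ))
    rw [parts_can, (cel_inv m v k).1, (cel_inv m v k).2] at h1
    exact h1.symm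
  -- independence at a fixed level
  have hlev : ∀ m : ℕ, iIndepFun (fun (v : V d) (ω : Ω) (k : Fin d → Fin (2 ^ m)) =>
      (can (Q ω) v).cnt m k) P := by
    intro m
    refine transB_blocks (X := fun v k ω => (can (Q ω) v).cnt m k) (fun v k => ?_) ?_
    · simp_rw [hbox]
      exact h.meas _ (measurableSet_dbox _ _)
    · simp_rw [hbox]
      refine transB_disj h (fun p : (_ : V d) × (Fin d → Fin (2 ^ m)) =>
        dbox m (fun i => 2 ^ m * p.1 i + ((p.2 i : ℕ) : ℤ))) (fun _ => measurableSet_dbox _ _) ?_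
      intro p p' hpp
      refine disjoint_dbox m fun he => hpp ?_
      have e1 := (cel_inv m p.1 p.2).1
      have e2 := (cel_inv m p.1 p.2).2
      have e1' := (cel_inv m p'.1 p'.2).1
      have e2' := (cel_inv m p'.1 p'.2).2
      rw [he] at e1 e2
      obtain ⟨v, k⟩ := p
      obtain ⟨v', k'⟩ := p'
      simp only at e1 e2 e1' e2'
      rw [← e1, ← e2, e1', e2']
  -- the general case
  rw [iIndepFun_iff_iIndep]
  refine iIndepSets.iIndep (m := fun v => MeasurableSpace.comap (fun ω => can (Q ω) v)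
    (Cfg.instMeasurableSpace d)) (fun v => ?_)
    (π := fun v => {s | ∃ t ∈ {A : Set (Cfg d) | ∃ m, MeasurableSet[lev d m] A},
      (fun ω => can (Q ω) v) ⁻¹' t = s})
    (fun v => lev_piSystem.comap _) (fun v => ?_) ?_
  · exact ((measurable_pi_apply v).comp h.meas_can).comap_le
  · rw [lev_generate, MeasurableSpace.comap_generateFrom]
    rfl
  · rw [iIndepSets_iff]
    intro s f hf
    choose! A hA hfA using hf
    choose! mm hmm using hA
    let m := s.sup mm
    have hA' : ∀ v ∈ s, MeasurableSet[lev d m] (A v) := fun v hv =>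
      lev_mono (Finset.le_sup hv) _ (hmm v hv)
    have hB : ∀ v ∈ s, ∃ B : Set ((Fin d → Fin (2 ^ m)) → ℕ∞), MeasurableSet B ∧
        (fun (S : Cfg d) (k : Fin d → Fin (2 ^ m)) => S.cnt m k) ⁻¹' B = A v := by
      intro v hv
      have h1 := hA' v hv
      rw [transB_lev] at h1
      exact h1
    choose! B hB hBA using hB
    have h2 := (hlev m).measure_inter_preimage_eq_mul s (sets := B) hB
    have h3 : ∀ v ∈ s, (fun (ω : Ω) (k : Fin d → Fin (2 ^ m)) => (can (Q ω) v).cnt m k) ⁻¹' B v =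
        f v := by
      intro v hv
      rw [← hfA v hv, ← hBA v hv]
      rfl
    have h4 : (⋂ i ∈ s, f i) = ⋂ i ∈ s,
        (fun (ω : Ω) (k : Fin d → Fin (2 ^ m)) => (can (Q ω) i).cnt m k) ⁻¹' B i :=
      iInter₂_congr fun v hv => (h3 v hv).symm
    rw [h4, h2]
    exact Finset.prod_congr rfl fun v hv => by rw [h3 v hv]

end FPPX
end

section

/-! From a Poisson process to the canonical space. -/

namespace FPPX

open MeasureTheory ProbabilityTheory Filter Set
open scoped Topology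

variable {d : ℕ} {Ω : Type*} [MeasurableSpace Ω] {P : Measure Ω} {Q : Ω → Set (RR d)}
  {Λ : Measure (Cfg d)}

theorem IsPoisson.map_can [IsProbabilityMeasure P] (h : IsPoisson P Q) (hΛ : IsCellLaw Λ) :
    P.map (fun ω => can (Q ω)) = PP Λ := by
  have h1 : ∀ v : V d, Measurable fun ω => can (Q ω) v := fun v =>
    (measurable_pi_apply v).comp h.meas_can
  have h2 := (h.indep_can).map_fun_eq_infinitePi_map h1
  have h3 : (fun v : V d => P.map fun ω => can (Q ω) v) = fun _ => Λ := by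
    funext v
    exact (h.cellLaw v).unique hΛ
  rw [h3] at h2
  exact h2

theorem IsPoisson.ae_of [IsProbabilityMeasure P] (h : IsPoisson P Q) (hΛ : IsCellLaw Λ)
    {q : Env d → Prop} (hq : ∀ᵐ ω ∂(PP Λ), q ω) : ∀ᵐ ω ∂P, q (can (Q ω)) := by
  rw [← h.map_can hΛ] at hq
  exact ae_of_ae_map h.meas_can.aemeasurable hq

theorem IsPoisson.real_of [IsProbabilityMeasure P] (h : IsPoisson P Q) (hΛ : IsCellLaw Λ)
    {A : Set (Env d)} (hA : MeasurableSet A) : P.real {ω | can (Q ω) ∈ A} = (PP Λ).real A := by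
  rw [← h.map_can hΛ, map_measureReal_apply h.meas_can hA]
  rfl

theorem IsPoisson.integral_of [IsProbabilityMeasure P] (h : IsPoisson P Q) (hΛ : IsCellLaw Λ)
    {f : Env d → ℝ} (hf : Measurable f) : ∫ ω, f (can (Q ω)) ∂P = ∫ ω, f ω ∂(PP Λ) := by
  rw [← h.map_can hΛ, integral_map h.meas_can.aemeasurable hf.aestronglyMeasurable]

end FPPX
end

section

/-! Measurability of the passage times. -/

namespace FPPX

open MeasureTheory ProbabilityTheory Filter Set
open scoped Topology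

variable {d : ℕ} {α : ℝ} {Ω : Type*} [MeasurableSpace Ω] {P : Measure Ω} {Q : Ω → Set (RR d)}

/-- relaxed passage time: the chains may start (end) at any particle which is nearly a nearest
particle to `x` (to `y`) -/
noncomputable def eptR {d : ℕ} (α : ℝ) (S : Set (RR d)) (x y : RR d) (ε : ℝ) : ℝ :=
  sInf {s | ∃ p q c, Wk α S p q c ∧ dist x p < Metric.infDist x S + ε ∧
    dist y q < Metric.infDist y S + ε ∧ s = c}

/-- events that some tuple of particles satisfies an open condition -/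
private lemma meas_openQ (h : IsPoisson P Q) (n : ℕ) (U : Set (Fin n → RR d)) (hU : IsOpen U) :
    MeasurableSet {ω | ∃ z : Fin n → RR d, (∀ i, z i ∈ Q ω) ∧ z ∈ U} := by
  have h1 : MeasurableSet {ω : Env d | ∃ x : Fin n → RR d,
      (∀ i, x i ∈ parts ω ∩ hat (univ : Set (V d))) ∧ x ∈ U} :=
    FP_le univ _ (meas_open univ n U hU)
  have h2 := h.meas_can h1
  convert h2 using 1
  ext ω
  simp only [mem_ofPred_eq, mem_preimage, parts_can, hat, mem_univ, mem_inter_iff, and_true,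
    ofPred_true]

private lemma meas_empty (h : IsPoisson P Q) : MeasurableSet {ω | Q ω = ∅} := by
  have h1 := meas_openQ h 1 univ isOpen_univ
  have h2 : {ω | Q ω = ∅} = {ω | ∃ z : Fin 1 → RR d, (∀ i, z i ∈ Q ω) ∧ z ∈ univ}ᶜ := by
    ext ω
    simp only [mem_ofPred_eq, mem_compl_iff, mem_univ, and_true]
    constructor
    · rintro h ⟨z, hz⟩
      have := hz 0
      rw [h] at this
      exact this
    · intro h
      rw [eq_empty_iff_forall_notMem]
      intro p hp
      exact h ⟨fun _ => p, fun _ => hp⟩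
  rw [h2]
  exact h1.compl

private lemma meas_infDist (h : IsPoisson P Q) (x : RR d) :
    Measurable fun ω => Metric.infDist x (Q ω) := by
  apply measurable_of_Iio
  intro a
  have h1 := meas_openQ h 1 {z | dist x (z 0) < a}
    (isOpen_lt (continuous_const.dist (continuous_apply 0)) continuous_const)
  by_cases ha : 0 < a
  · have h2 : (fun ω => Metric.infDist x (Q ω)) ⁻¹' Iio a = {ω | Q ω = ∅} ∪
        {ω | ∃ z : Fin 1 → RR d, (∀ i, z i ∈ Q ω) ∧ z ∈ {z : Fin 1 → RR d | dist x (z 0) < a}} := by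
      ext ω
      simp only [mem_preimage, mem_Iio, mem_union, mem_ofPred_eq]
      rcases eq_empty_or_nonempty (Q ω) with he | hne
      · simp [he, Metric.infDist_empty, ha]
      · rw [Metric.infDist_lt_iff hne]
        constructor
        · rintro ⟨p, hp, hpa⟩
          exact Or.inr ⟨fun _ => p, fun _ => hp, hpa⟩
        · rintro (h | ⟨z, hz, hza⟩)
          · exact absurd h hne.ne_empty
          · exact ⟨z 0, hz 0, hza⟩
    rw [h2]
    exact (meas_empty h).union h1
  · have h2 : (fun ω => Metric.infDist x (Q ω)) ⁻¹' Iio a = ∅ := by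
      ext ω
      simp only [mem_preimage, mem_Iio, mem_empty_iff_false, iff_false, not_lt]
      exact (not_lt.1 ha).trans Metric.infDist_nonneg
    rw [h2]
    exact MeasurableSet.empty

private lemma meas_chainQ (hα : 0 < α) (h : IsPoisson P Q) (x y : RR d) (a b s : ℝ) :
    MeasurableSet {ω | ∃ p q c, Wk α (Q ω) p q c ∧ dist x p < a ∧ dist y q < b ∧ c < s} := by
  have h2 : {ω | ∃ p q c, Wk α (Q ω) p q c ∧ dist x p < a ∧ dist y q < b ∧ c < s} =
      ⋃ k : ℕ, {ω | ∃ z : Fin (k + 1) → RR d, (∀ i, z i ∈ Q ω) ∧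
        z ∈ {z : Fin (k + 1) → RR d | (dist x (z 0) < a ∧ dist y (z (Fin.last k)) < b) ∧
          ∑ i : Fin k, ‖z i.castSucc - z i.succ‖ ^ α < s}} := by
    ext ω
    simp only [mem_ofPred_eq, mem_iUnion]
    constructor
    · rintro ⟨p, q, c, ⟨k, w, hw, h0, hk, hc⟩, hp, hq, hcs⟩
      refine ⟨k, fun i => w i, fun i => hw i (by omega), ⟨?_, ?_⟩, ?_⟩
      · simpa [h0] using hp
      · simpa [hk] using hq
      · rw [hc, Finset.sum_range] at hcs
        simpa using hcs
    · rintro ⟨k, z, hz, ⟨hp, hq⟩, hs⟩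
      refine ⟨z 0, z (Fin.last k), _, ⟨k, fun i => if hi : i < k + 1 then z ⟨i, hi⟩ else z 0,
        ?_, ?_, ?_, rfl⟩, hp, hq, ?_⟩
      · intro i hi
        have hi' : i < k + 1 := by omega
        simp only [hi', dif_pos]
        exact hz _
      · simp
      · simp [Fin.last]
      · rw [Finset.sum_range]
        refine lt_of_eq_of_lt ?_ hs
        apply Finset.sum_congr rfl
        intro i _
        have h1 : (i : ℕ) < k + 1 := by omega
        have h2 : (i : ℕ) + 1 < k + 1 := by omega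
        simp only [h1, h2, dif_pos]
        rfl
  rw [h2]
  refine MeasurableSet.iUnion fun k => meas_openQ h (k + 1) _ ?_
  refine (IsOpen.and (IsOpen.and ?_ ?_) ?_)
  · exact isOpen_lt (continuous_const.dist (continuous_apply 0)) continuous_const
  · exact isOpen_lt (continuous_const.dist (continuous_apply _)) continuous_const
  · refine isOpen_lt ?_ continuous_const
    refine continuous_finsetSum _ fun i _ => ?_
    refine Continuous.rpow_const ?_ fun _ => Or.inr hα.le
    have h1 : Continuous fun x : Fin (k + 1) → RR d => x i.castSucc := continuous_apply _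
    have h2 : Continuous fun x : Fin (k + 1) → RR d => x i.succ := continuous_apply _
    exact (h1.sub h2).norm

theorem eptR_meas (hα : 0 < α) (h : IsPoisson P Q) (x y : RR d) {ε : ℝ} (hε : 0 < ε) :
    Measurable fun ω => eptR α (Q ω) x y ε := by
  apply measurable_of_Iio
  intro s
  have hbdd : ∀ S : Set (RR d), BddBelow {s | ∃ p q c, Wk α S p q c ∧
      dist x p < Metric.infDist x S + ε ∧ dist y q < Metric.infDist y S + ε ∧ s = c} := by
    intro S
    refine ⟨0, ?_⟩
    rintro t ⟨p, q, c, hw, _, _, rfl⟩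
    exact hw.nonneg
  by_cases hs : 0 < s
  · have h2 : (fun ω => eptR α (Q ω) x y ε) ⁻¹' Iio s = {ω | Q ω = ∅} ∪
        ⋃ (a : ℚ) (b : ℚ), ({ω | (a : ℝ) < Metric.infDist x (Q ω) + ε} ∩
          {ω | (b : ℝ) < Metric.infDist y (Q ω) + ε}) ∩
          {ω | ∃ p q c, Wk α (Q ω) p q c ∧ dist x p < a ∧ dist y q < b ∧ c < s} := by
      ext ω
      simp only [mem_preimage, mem_Iio, mem_union, mem_iUnion, mem_inter_iff, mem_ofPred_eq]
      rcases eq_empty_or_nonempty (Q ω) with he | hne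
      · constructor
        · intro _; exact Or.inl he
        · intro _
          have : {s | ∃ p q c, Wk α (Q ω) p q c ∧ dist x p < Metric.infDist x (Q ω) + ε ∧
              dist y q < Metric.infDist y (Q ω) + ε ∧ s = c} = ∅ := by
            rw [eq_empty_iff_forall_notMem]
            rintro t ⟨p, q, c, hw, _⟩
            have := hw.left
            rw [he] at this
            exact this
          rw [eptR, this, Real.sInf_empty]
          exact hs
      · have hD : {s | ∃ p q c, Wk α (Q ω) p q c ∧ dist x p < Metric.infDist x (Q ω) + ε ∧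
              dist y q < Metric.infDist y (Q ω) + ε ∧ s = c}.Nonempty := by
          obtain ⟨p, hp, hpd⟩ := (Metric.infDist_lt_iff (x := x) hne).1
            (lt_add_of_pos_right (Metric.infDist x (Q ω)) hε)
          obtain ⟨q, hq, hqd⟩ := (Metric.infDist_lt_iff (x := y) hne).1
            (lt_add_of_pos_right (Metric.infDist y (Q ω)) hε)
          exact ⟨_, p, q, _, Wk.hop hp hq, hpd, hqd, rfl⟩
        rw [eptR, csInf_lt_iff (hbdd _) hD]
        constructor
        · rintro ⟨t, ⟨p, q, c, hw, hp, hq, rfl⟩, hts⟩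
          obtain ⟨a, ha1, ha2⟩ := exists_rat_btwn hp
          obtain ⟨b, hb1, hb2⟩ := exists_rat_btwn hq
          exact Or.inr ⟨a, b, ⟨ha2, hb2⟩, p, q, t, hw, ha1, hb1, hts⟩
        · rintro (h | ⟨a, b, ⟨ha, hb⟩, p, q, c, hw, hp, hq, hcs⟩)
          · exact absurd h hne.ne_empty
          · exact ⟨c, ⟨p, q, c, hw, hp.trans ha, hq.trans hb, rfl⟩, hcs⟩
    rw [h2]
    refine (meas_empty h).union (MeasurableSet.iUnion fun a => MeasurableSet.iUnion fun b =>
      (MeasurableSet.inter ?_ ?_).inter (meas_chainQ hα h x y a b s))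
    · exact measurableSet_lt measurable_const ((meas_infDist h x).add_const ε)
    · exact measurableSet_lt measurable_const ((meas_infDist h y).add_const ε)
  · have h2 : (fun ω => eptR α (Q ω) x y ε) ⁻¹' Iio s = ∅ := by
      ext ω
      simp only [mem_preimage, mem_Iio, mem_empty_iff_false, iff_false, not_lt]
      refine (not_lt.1 hs).trans ?_
      apply Real.sInf_nonneg
      rintro t ⟨p, q, c, hw, _, _, rfl⟩
      exact hw.nonneg
    rw [h2]
    exact MeasurableSet.empty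

private lemma infDist_near {S : Set (RR d)} {near : RR d → RR d} (hn : IsNear S near) (x : RR d) :
    Metric.infDist x S = dist x (near x) := by
  apply le_antisymm
  · exact Metric.infDist_le_dist_of_mem (hn x).1
  · by_contra hlt
    push Not at hlt
    obtain ⟨p, hp, hpd⟩ := (Metric.infDist_lt_iff ⟨near x, (hn x).1⟩).1 hlt
    exact absurd ((hn x).2 p hp) (not_le.2 hpd)

private lemma near_eventually {S : Set (RR d)} {near : RR d → RR d} (hn : IsNear S near)
    (hfin : ∀ R : ℝ, (S ∩ Metric.ball 0 R).Finite) {x : RR d}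
    (hx : ∀ p ∈ S, ∀ q ∈ S, dist x p = dist x q → p = q) :
    ∀ᶠ n : ℕ in atTop, ∀ p ∈ S, dist x p < Metric.infDist x S + 1 / ((n : ℝ) + 1) →
      p = near x := by
  have hF := hfin (‖x‖ + (dist x (near x) + 1))
  have h1 : ∀ p ∈ S ∩ Metric.ball 0 (‖x‖ + (dist x (near x) + 1)), ∀ᶠ n : ℕ in atTop,
      dist x p < Metric.infDist x S + 1 / ((n : ℝ) + 1) → p = near x := by
    intro p hp
    by_cases hpe : p = near x
    · exact Eventually.of_forall fun _ _ => hpe
    · have hgap : dist x (near x) < dist x p := by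
        refine lt_of_le_of_ne ((hn x).2 p hp.1) fun he => hpe ?_
        exact hx p hp.1 (near x) (hn x).1 he.symm
      have ht := (tendsto_one_div_add_atTop_nhds_zero_nat (𝕜 := ℝ)).eventually_lt_const
        (sub_pos.2 hgap)
      filter_upwards [ht] with n hn' hlt
      rw [infDist_near hn] at hlt
      linarith
  filter_upwards [(Filter.eventually_all_finite hF).2 h1] with n hnn p hp hlt
  refine hnn p ⟨hp, ?_⟩ hlt
  rw [Metric.mem_ball, dist_zero_right]
  have h2 : ‖p‖ ≤ ‖x‖ + dist x p := by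
    rw [dist_eq_norm]
    have : p = x - (x - p) := by abel
    calc ‖p‖ = ‖x - (x - p)‖ := by rw [← this]
      _ ≤ ‖x‖ + ‖x - p‖ := norm_sub_le _ _
  rw [infDist_near hn] at hlt
  have h3 : 1 / ((n : ℝ) + 1) ≤ 1 := by
    rw [div_le_one (by positivity)]
    have : (0 : ℝ) ≤ n := Nat.cast_nonneg n
    linarith
  linarith

theorem eptR_eventually {S : Set (RR d)} {near : RR d → RR d} (hn : IsNear S near)
    (hfin : ∀ R : ℝ, (S ∩ Metric.ball 0 R).Finite) {x y : RR d}
    (hx : ∀ p ∈ S, ∀ q ∈ S, dist x p = dist x q → p = q)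
    (hy : ∀ p ∈ S, ∀ q ∈ S, dist y p = dist y q → p = q) :
    ∀ᶠ n : ℕ in atTop, eptR α S x y (1 / ((n : ℝ) + 1)) = ept α S (near x) (near y) := by
  filter_upwards [near_eventually hn hfin hx, near_eventually hn hfin hy] with n h1 h2
  rw [eptR, ept_eq]
  congr 1
  ext s
  simp only [mem_ofPred_eq]
  have hpos : (0 : ℝ) < 1 / ((n : ℝ) + 1) := by positivity
  constructor
  · rintro ⟨p, q, c, hw, hp, hq, rfl⟩
    rw [← h1 p hw.left hp, ← h2 q hw.right hq]
    exact hw
  · intro hw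
    refine ⟨near x, near y, s, hw, ?_, ?_, rfl⟩
    · rw [infDist_near hn]; linarith
    · rw [infDist_near hn]; linarith

theorem ept_aemeasurable [IsProbabilityMeasure P] (hd : 1 ≤ d) (hα : 0 < α) (h : IsPoisson P Q)
    {near : Ω → RR d → RR d} (hn : ∀ᵐ ω ∂P, IsNear (Q ω) (near ω)) (x y : RR d) :
    AEMeasurable (fun ω => ept α (Q ω) (near ω x) (near ω y)) P := by
  refine aemeasurable_of_tendsto_metrizable_ae atTop
    (f := fun (n : ℕ) ω => eptR α (Q ω) x y (1 / ((n : ℝ) + 1)))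
    (fun n => (eptR_meas hα h x y (by positivity)).aemeasurable) ?_
  filter_upwards [hn, h.ae_finite, h.no_ties hd x, h.no_ties hd y] with ω h1 h2 h3 h4
  exact tendsto_const_nhds.congr' ((eptR_eventually h1 h2 h3 h4).mono fun n hn => hn.symm)

end FPPX
end

section

/-! Near optimal chains: deterministic part. -/

namespace FPPX

open MeasureTheory ProbabilityTheory Filter Set
open scoped Topology

variable {d : ℕ} {α : ℝ}

/-- the cost of the artificial end of a chain -/
lemma end_cost_le (hα : 0 ≤ α) (x : RR d) :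
    (2 * ‖x - emb (latt x)‖) ^ α ≤ (d : ℝ) ^ α := by
  apply Real.rpow_le_rpow (by positivity) _ hα
  have := norm_sub_emb_latt x
  linarith

/-- a number whose `α`-th power is at most `T` is at most `T + 1` -/
lemma le_of_rpow_le_aux {y T : ℝ} (hα : 1 < α) (hy : 0 ≤ y) (h : y ^ α ≤ T) : y ≤ T + 1 := by
  rcases le_or_gt y 1 with h1 | h1
  · have : 0 ≤ y ^ α := Real.rpow_nonneg hy α
    linarith
  · have h2 : y ^ (1 : ℝ) ≤ y ^ α := Real.rpow_le_rpow_of_exponent_le h1.le hα.le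
    rw [Real.rpow_one] at h2
    linarith

/-- from a chain of particles with jumps at most `h` to a chain of lattice points as in the
definition of `CG` -/
theorem chain_of_Wh (hα : 1 < α) {ω : Env d} {u v : V d} {p q : RR d} {c h s δ : ℝ}
    (hw : Wh α (parts ω) h p q c) (hp : ‖p - emb u‖ ≤ h) (hq : ‖q - emb v‖ ≤ h)
    (hs : (2 * ‖p - emb u‖) ^ α + c + (2 * ‖q - emb v‖) ^ α ≤ s) (hδ : 0 ≤ δ)
    (hh : h + 1 ≤ δ) (hd : 2 * (d : ℝ) ^ α < δ) :
    ∃ (l : ℕ) (x : ℕ → V d) (s' : ℕ → ℝ),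
      x 0 = u ∧ x l = v ∧ (∀ i, i < l → nm (x (i + 1) - x i) ≤ δ) ∧
      0 ≤ s' 0 ∧ s' l ≤ s ∧
      ∀ i j, i ≤ j → j ≤ l → ∀ K : Set (V d),
        (∀ n, i ≤ n → n ≤ j → ∀ z, nm (z - x n) ≤ δ → z ∈ K) →
        ω ∈ LEP α K (x i) (x j) (s' j - s' i + δ) := by
  obtain ⟨k, x, hx, hx0, hxk, hxh, hcS⟩ := hw
  have hα0 : 0 ≤ α := by linarith
  have hdα : 0 ≤ (d : ℝ) ^ α := Real.rpow_nonneg (Nat.cast_nonneg d) α
  set a : ℝ := (2 * ‖p - emb u‖) ^ α with ha
  set b : ℝ := (2 * ‖q - emb v‖) ^ α with hb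
  have ha0 : 0 ≤ a := Real.rpow_nonneg (by positivity) _
  have hb0 : 0 ≤ b := Real.rpow_nonneg (by positivity) _
  set S : ℕ → ℝ := fun j => ∑ i ∈ Finset.range j, ‖x i - x (i + 1)‖ ^ α with hS
  have hSk : S k = c := hcS.symm
  have hS0 : S 0 = 0 := by simp [hS]
  -- the chain
  let X : ℕ → V d := fun n => if n = 0 then u else if n ≤ k + 1 then latt (x (n - 1)) else v
  let s' : ℕ → ℝ := fun n => if n = 0 then 0 else if n ≤ k + 1 then a + S (n - 1) else a + c + b
  have hX0 : X 0 = u := by simp [X]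
  have hXm : ∀ n, n ≤ k → X (n + 1) = latt (x n) := by
    intro n hn
    simp [X, hn]
  have hXl : X (k + 2) = v := by
    simp [X]
  have hs0 : s' 0 = 0 := by simp [s']
  have hsm : ∀ n, n ≤ k → s' (n + 1) = a + S n := by
    intro n hn
    simp [s', hn]
  have hsl : s' (k + 2) = a + c + b := by
    simp [s']
  refine ⟨k + 2, X, s', hX0, hXl, ?_, hs0.ge, by rw [hsl]; exact hs, ?_⟩
  · intro i hi
    rcases Nat.eq_zero_or_pos i with rfl | hi0
    · rw [hXm 0 (Nat.zero_le k), hX0, hx0]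
      have h1 := nm_latt_sub p (emb u)
      rw [latt_emb] at h1
      linarith
    · obtain ⟨m, rfl⟩ : ∃ m, i = m + 1 := ⟨i - 1, by omega⟩
      rcases Nat.lt_or_ge m k with hm | hm
      · rw [hXm (m + 1) (by omega), hXm m (by omega)]
        have h1 := nm_latt_sub (x (m + 1)) (x m)
        have h2 := hxh m hm
        rw [norm_sub_rev] at h2
        linarith
      · have hmk : m = k := by omega
        subst hmk
        rw [hXl, hXm m le_rfl, hxk]
        have h1 := nm_latt_sub (emb v) q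
        rw [latt_emb, norm_sub_rev] at h1
        linarith
  · intro i j hij hjl K hK
    rcases Nat.eq_or_lt_of_le hij with rfl | hlt
    · left
      refine ⟨rfl, ?_⟩
      linarith
    right
    -- the ends of the chain of particles
    set i' : ℕ := i - 1 with hi'
    set j' : ℕ := min j (k + 1) - 1 with hj'
    have hi'k : i' ≤ k := by omega
    have hj'k : j' ≤ k := by omega
    have hij' : i' ≤ j' := by omega
    have hii : i ≤ i' + 1 := by omega
    have hjj : j' + 1 ≤ j := by omega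
    have hmem : ∀ n, i' ≤ n → n ≤ j' → x n ∈ parts ω ∩ hat K := by
      intro n h1 h2
      refine ⟨hx n (by omega), ?_⟩
      show latt (x n) ∈ K
      apply hK (n + 1) (by omega) (by omega)
      rw [hXm n (by omega), sub_self, nm_zero]
      exact hδ
    refine ⟨x i', x j', S j' - S i', ⟨j' - i', fun n => x (i' + n), ?_, ?_, ?_, ?_⟩, ?_⟩
    · intro n hn
      exact hmem _ (by omega) (by omega)
    · simp
    · show x (i' + (j' - i')) = x j'
      congr 1
      omega
    · have h1 : S j' = S i' + ∑ n ∈ Finset.range (j' - i'), ‖x (i' + n) - x (i' + (n + 1))‖ ^ α := by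
        have h2 : j' = i' + (j' - i') := by omega
        conv_lhs => rw [h2]
        simp only [hS]
        rw [Finset.sum_range_add]
        rfl
      rw [h1]
      ring
    · -- the cost
      have hleft : (2 * ‖x i' - emb (X i)‖) ^ α - S i' ≤ a + (d : ℝ) ^ α - s' i := by
        rcases Nat.eq_zero_or_pos i with h0 | h0
        · have hi0 : i' = 0 := by omega
          rw [hi0, h0, hX0, hs0, hS0, hx0]
          linarith
        · have h2 : i = i' + 1 := by omega
          rw [h2, hXm i' hi'k, hsm i' hi'k]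
          have := end_cost_le hα0 (x i')
          linarith
      have hright : (2 * ‖x j' - emb (X j)‖) ^ α + S j' ≤ s' j - a + (d : ℝ) ^ α := by
        rcases Nat.lt_or_ge (k + 1) j with h0 | h0
        · have hj0 : j = k + 2 := by omega
          have hj1 : j' = k := by omega
          rw [hj1, hj0, hXl, hsl, hSk, hxk]
          linarith
        · have h2 : j = j' + 1 := by omega
          rw [h2, hXm j' hj'k, hsm j' hj'k]
          have := end_cost_le hα0 (x j')
          linarith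
      linarith

/-- near optimal chains stay in a ball -/
theorem chain_stay (hα : 1 < α) {S : Set (RR d)} {u v : V d} {R T : ℝ} (hR : 1 ≤ R)
    (hTR : 4 * (T + d + 2) ≤ R)
    (hweak : ∀ z : V d, R ≤ nm (z - u) → nm (z - u) ≤ 2 * R → T + (d : ℝ) ^ α < tP α S u z)
    {k : ℕ} {x : ℕ → RR d} (hx : ∀ i ≤ k, x i ∈ S)
    (hc : (2 * ‖x 0 - emb u‖) ^ α + ∑ i ∈ Finset.range k, ‖x i - x (i + 1)‖ ^ α +
      (2 * ‖x k - emb v‖) ^ α ≤ T) :
    ∀ i ≤ k, nm (latt (x i) - u) < R := by
  have hα0 : 0 ≤ α := by linarith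
  have hd0 : (0 : ℝ) ≤ d := Nat.cast_nonneg d
  have hnn : ∀ i, 0 ≤ ‖x i - x (i + 1)‖ ^ α := fun i => Real.rpow_nonneg (norm_nonneg _) _
  have ha0 : 0 ≤ (2 * ‖x 0 - emb u‖) ^ α := Real.rpow_nonneg (by positivity) _
  have hb0 : 0 ≤ (2 * ‖x k - emb v‖) ^ α := Real.rpow_nonneg (by positivity) _
  have hS0 : ∀ n, 0 ≤ ∑ i ∈ Finset.range n, ‖x i - x (i + 1)‖ ^ α := fun n =>
    Finset.sum_nonneg fun i _ => hnn i
  have hmono : ∀ n, n ≤ k → ∑ i ∈ Finset.range n, ‖x i - x (i + 1)‖ ^ α ≤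
      ∑ i ∈ Finset.range k, ‖x i - x (i + 1)‖ ^ α := by
    intro n hn
    exact Finset.sum_le_sum_of_subset_of_nonneg (Finset.range_mono hn) (fun i _ _ => hnn i)
  have hT0 : 0 ≤ T := by
    have := hS0 k
    linarith
  intro i
  induction i with
  | zero =>
    intro _
    have h1 : 2 * ‖x 0 - emb u‖ ≤ T + 1 :=
      le_of_rpow_le_aux hα (by positivity) (by have := hS0 k; linarith)
    have h2 := nm_latt_sub (x 0) (emb u)
    rw [latt_emb] at h2
    have h3 := norm_nonneg (x 0 - emb u)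
    linarith
  | succ m ih =>
    intro hm
    have ih' := ih (by omega)
    by_contra hcon
    rw [not_lt] at hcon
    have h1 : ‖x m - x (m + 1)‖ ^ α ≤ ∑ i ∈ Finset.range k, ‖x i - x (i + 1)‖ ^ α :=
      Finset.single_le_sum (f := fun i => ‖x i - x (i + 1)‖ ^ α) (fun i _ => hnn i)
        (Finset.mem_range.mpr (by omega))
    have h2 : ‖x m - x (m + 1)‖ ≤ T + 1 :=
      le_of_rpow_le_aux hα (norm_nonneg _) (by linarith)
    have h3 := nm_latt_sub (x (m + 1)) (x m)
    rw [norm_sub_rev] at h3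
    have h4 : nm (latt (x (m + 1)) - u) ≤
        nm (latt (x (m + 1)) - latt (x m)) + nm (latt (x m) - u) := by
      have := nm_add (latt (x (m + 1)) - latt (x m)) (latt (x m) - u)
      rwa [sub_add_sub_cancel] at this
    have h5 := hweak (latt (x (m + 1))) hcon (by linarith)
    have hwk : Wk α S (x 0) (x (m + 1)) (∑ i ∈ Finset.range (m + 1), ‖x i - x (i + 1)‖ ^ α) :=
      ⟨m + 1, x, fun i hi => hx i (by omega), rfl, rfl, rfl⟩
    have h6 := tP_le (u := u) (v := latt (x (m + 1))) hwk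
    have h7 := end_cost_le hα0 (x (m + 1))
    have h8 := hmono (m + 1) hm
    linarith

end FPPX
end

section

/-! The numbers of particles in boxes under the canonical law. -/

namespace FPPX

open MeasureTheory ProbabilityTheory Filter Set
open scoped Topology

variable {d : ℕ} {Λ : Measure (Cfg d)}

private lemma cells_eval_mp [IsProbabilityMeasure Λ] (v : V d) :
    MeasurePreserving (fun ω : Env d => ω v) (PP Λ) Λ :=
  measurePreserving_eval_infinitePi (fun _ : V d => Λ) v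

theorem cells_indep (h : IsCellLaw Λ) (m : ℕ) :
    iIndepFun (fun (b : V d) (ω : Env d) => (parts ω ∩ dbox m b).encard) (PP Λ) := by
  have := h.prob
  have hX : ∀ (v : V d) (k : Fin d → Fin (2 ^ m)),
      Measurable fun ω : Env d => (ω v).cnt m k := fun v k =>
    (measurable_cnt m k).comp (measurable_pi_apply v)
  have h1 : iIndepFun (fun (v : V d) (ω : Env d) (k : Fin d → Fin (2 ^ m)) => (ω v).cnt m k)
      (PP Λ) :=
    iIndepFun_infinitePi (P := fun _ : V d => Λ)
      (X := fun (_ : V d) (S : Cfg d) (k : Fin d → Fin (2 ^ m)) => S.cnt m k)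
      (fun _ => measurable_pi_iff.2 fun k => measurable_cnt m k)
  have h2 : ∀ v : V d, iIndepFun (fun (k : Fin d → Fin (2 ^ m)) (ω : Env d) => (ω v).cnt m k)
      (PP Λ) := by
    intro v
    rw [iIndepFun_iff_map_fun_eq_infinitePi_map (fun k => hX v k)]
    have h3 := (iIndepFun_iff_map_fun_eq_infinitePi_map (P := Λ)
      (fun k : Fin d → Fin (2 ^ m) => measurable_cnt m k)).1 (h.indep m)
    have h4 : (fun (ω : Env d) (k : Fin d → Fin (2 ^ m)) => (ω v).cnt m k) =
        (fun (S : Cfg d) (k : Fin d → Fin (2 ^ m)) => S.cnt m k) ∘ fun ω : Env d => ω v := rfl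
    rw [h4, ← Measure.map_map (measurable_pi_iff.2 fun k => measurable_cnt m k)
      (measurable_pi_apply v), (cells_eval_mp v).map_eq, h3]
    congr 1
    funext k
    have h5 : (fun ω : Env d => (ω v).cnt m k) =
        (fun S : Cfg d => S.cnt m k) ∘ fun ω : Env d => ω v := rfl
    rw [h5, ← Measure.map_map (measurable_cnt m k) (measurable_pi_apply v),
      (cells_eval_mp v).map_eq]
  have h6 := iIndepFun_uncurry' (P := PP Λ)
    (X := fun (v : V d) (k : Fin d → Fin (2 ^ m)) (ω : Env d) => (ω v).cnt m k) hX h1 h2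
  have hinj : Function.Injective fun b : V d => (cel m b, rel m b) := by
    intro b b' hb
    have e1 : cel m b = cel m b' := congrArg Prod.fst hb
    have e2 : rel m b = rel m b' := congrArg Prod.snd hb
    rw [← cel_rel m b, ← cel_rel m b', e1, e2]
  have h7 := h6.precomp hinj
  have h8 : (fun (b : V d) (ω : Env d) => (parts ω ∩ dbox m b).encard) =
      fun (b : V d) (ω : Env d) => (ω (cel m b)).cnt m (rel m b) := by
    funext b ω
    exact encard_parts ω m b
  rw [h8]
  exact h7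

theorem cells_law (h : IsCellLaw Λ) (m : ℕ) (b : V d) (n : ℕ) :
    (PP Λ).real {ω : Env d | (parts ω ∩ dbox m b).encard = n} =
      Real.exp (-((2 : ℝ) ^ (m * d))⁻¹) * (((2 : ℝ) ^ (m * d))⁻¹) ^ n / (n.factorial : ℝ) := by
  have := h.prob
  rw [← h.law m (rel m b) n]
  have h1 : {ω : Env d | (parts ω ∩ dbox m b).encard = n} =
      (fun ω : Env d => ω (cel m b)) ⁻¹' {S : Cfg d | S.cnt m (rel m b) = n} := by
    ext ω
    simp only [mem_ofPred_eq, mem_preimage, encard_parts]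
  have h2 : MeasurableSet {S : Cfg d | S.cnt m (rel m b) = n} :=
    measurable_cnt m (rel m b) (measurableSet_singleton _)
  rw [h1, measureReal_def, measureReal_def,
    (cells_eval_mp (cel m b)).measure_preimage h2.nullMeasurableSet]

private lemma cells_meas (m : ℕ) (b : V d) :
    Measurable fun ω : Env d => (parts ω ∩ dbox m b).encard := by
  have h8 : (fun ω : Env d => (parts ω ∩ dbox m b).encard) =
      fun ω : Env d => (ω (cel m b)).cnt m (rel m b) := by
    funext ω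
    exact encard_parts ω m b
  rw [h8]
  exact (measurable_cnt m _).comp (measurable_pi_apply _)

private lemma cells_inter (h : IsCellLaw Λ) (m : ℕ) (B : Finset (V d)) (A : Set ℕ∞)
    (hA : MeasurableSet A) :
    (PP Λ).real {ω : Env d | ∀ b ∈ B, (parts ω ∩ dbox m b).encard ∈ A} =
      ∏ b ∈ B, (PP Λ).real {ω : Env d | (parts ω ∩ dbox m b).encard ∈ A} := by
  have h1 := (cells_indep h m).measure_inter_preimage_eq_mul B (sets := fun _ => A)
    (fun _ _ => hA)
  have h2 : {ω : Env d | ∀ b ∈ B, (parts ω ∩ dbox m b).encard ∈ A} =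
      ⋂ b ∈ B, (fun ω : Env d => (parts ω ∩ dbox m b).encard) ⁻¹' A := by
    ext ω
    simp
  rw [measureReal_def, h2, h1, ENNReal.toReal_prod]
  rfl

/-- the probability that finitely many given boxes are all occupied -/
theorem occ_boxes (h : IsCellLaw Λ) (m : ℕ) (B : Finset (V d)) :
    (PP Λ).real {ω : Env d | ∀ b ∈ B, (parts ω ∩ dbox m b).Nonempty} ≤
      (((2 : ℝ) ^ (m * d))⁻¹) ^ B.card := by
  have := h.prob
  have h0 : {ω : Env d | ∀ b ∈ B, (parts ω ∩ dbox m b).Nonempty} =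
      {ω : Env d | ∀ b ∈ B, (parts ω ∩ dbox m b).encard ∈ ({0} : Set ℕ∞)ᶜ} := by
    ext ω
    simp only [mem_ofPred_eq, mem_compl_iff, mem_singleton_iff, Set.encard_eq_zero,
      ← Set.nonempty_iff_ne_empty]
  rw [h0, cells_inter h m B _ (measurableSet_singleton _).compl, ← Finset.prod_const]
  refine Finset.prod_le_prod (fun _ _ => measureReal_nonneg) fun b _ => ?_
  have h1 : {ω : Env d | (parts ω ∩ dbox m b).encard ∈ ({0} : Set ℕ∞)ᶜ} =
      {ω : Env d | (parts ω ∩ dbox m b).encard = (0 : ℕ)}ᶜ := by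
    ext ω
    simp
  have h2 : MeasurableSet {ω : Env d | (parts ω ∩ dbox m b).encard = (0 : ℕ)} :=
    cells_meas m b (measurableSet_singleton _)
  rw [h1, probReal_compl_eq_one_sub h2, cells_law h m b 0]
  have h3 := Real.add_one_le_exp (-((2 : ℝ) ^ (m * d))⁻¹)
  simp only [pow_zero, mul_one, Nat.factorial_zero, Nat.cast_one, div_one]
  linarith

/-- the probability that finitely many given cells are all empty -/
theorem empty_cells (h : IsCellLaw Λ) (B : Finset (V d)) :
    (PP Λ).real {ω : Env d | ∀ v ∈ B, ¬ occ ω v} = Real.exp (-(B.card : ℝ)) := by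
  have h0 : {ω : Env d | ∀ v ∈ B, ¬ occ ω v} =
      {ω : Env d | ∀ b ∈ B, (parts ω ∩ dbox 0 b).encard ∈ ({0} : Set ℕ∞)} := by
    ext ω
    simp only [mem_ofPred_eq, mem_singleton_iff, Set.encard_eq_zero, occ,
      Set.not_nonempty_iff_eq_empty]
  rw [h0, cells_inter h 0 B _ (measurableSet_singleton _)]
  have h1 : ∀ b ∈ B, (PP Λ).real {ω : Env d | (parts ω ∩ dbox 0 b).encard ∈ ({0} : Set ℕ∞)} =
      Real.exp (-1) := by
    intro b _
    have h2 := cells_law h 0 b 0
    simp only [zero_mul, pow_zero, inv_one, mul_one, Nat.factorial_zero, Nat.cast_one,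
      div_one, Nat.cast_zero] at h2
    simpa using h2
  rw [Finset.prod_congr rfl h1, Finset.prod_const, ← Real.exp_nat_mul]
  congr 1
  ring

theorem occ_meas (K : Set (V d)) {v : V d} (hv : v ∈ K) :
    MeasurableSet[FP (Cfg d) K] {ω : Env d | occ ω v} := by
  have h1 : cel 0 v = v := by
    funext i
    simp [cel]
  exact meas_box K 0 v (by rw [h1]; exact hv)

theorem ae_nonempty (h : IsCellLaw Λ) (hd : 1 ≤ d) : ∀ᵐ ω ∂(PP Λ), (parts ω).Nonempty := by
  have := h.prob
  have h1 : ∀ n : ℕ, (PP Λ).real {ω : Env d | ¬ (parts ω).Nonempty} ≤ Real.exp (-(n : ℝ)) := by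
    intro n
    let f : ℕ → V d := fun j => Function.update 0 ⟨0, hd⟩ (j : ℤ)
    have hf : Function.Injective f := by
      intro j j' hj
      have h2 := congrFun hj ⟨0, hd⟩
      simpa [f] using h2
    have h3 := empty_cells h ((Finset.range n).map ⟨f, hf⟩)
    rw [Finset.card_map, Finset.card_range] at h3
    rw [← h3]
    refine measureReal_mono ?_
    intro ω hω v _ hv
    exact hω (hv.mono Set.inter_subset_left)
  have h2 : (PP Λ).real {ω : Env d | ¬ (parts ω).Nonempty} ≤ 0 := by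
    have hlim : Tendsto (fun n : ℕ => Real.exp (-(n : ℝ))) atTop (𝓝 0) :=
      Real.tendsto_exp_neg_atTop_nhds_zero.comp tendsto_natCast_atTop_atTop
    exact ge_of_tendsto' hlim h1
  rw [ae_iff]
  have h3 : (PP Λ).real {ω : Env d | ¬ (parts ω).Nonempty} = 0 :=
    le_antisymm h2 measureReal_nonneg
  rw [measureReal_def, ENNReal.toReal_eq_zero_iff] at h3
  rcases h3 with h3 | h3
  · exact h3
  · exact absurd h3 (measure_ne_top _ _)

end FPPX
end

section

/-! The cost of the runs of empty cells along a path. -/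

namespace FPPX

open MeasureTheory ProbabilityTheory Filter Set
open scoped Topology

variable {d : ℕ} {Λ : Measure (Cfg d)}

theorem runc_bound {α : ℝ} (hα : 0 ≤ α) (G N : ℕ) (w : ℕ → V d) (i : ℕ) (ω : Env d) :
    0 ≤ runc α G N w i ω ∧ runc α G N w i ω ≤ (G + 1) * (((d : ℝ) + 1) * (1 + G)) ^ α := by
  unfold runc
  constructor
  · refine Finset.sum_nonneg fun g _ => ?_
    split_ifs
    · positivity
    · exact le_rfl
  · have h1 : ∀ g ∈ Finset.range (G + 1),
        (open Classical in if i + g ≤ N + 1 ∧ ∀ j < g, ¬ occ ω (w (i + j)) then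
          (((d : ℝ) + 1) * (1 + g)) ^ α else 0) ≤ (((d : ℝ) + 1) * (1 + G)) ^ α := by
      intro g hg
      have hg' : (g : ℝ) ≤ G := by
        exact_mod_cast Nat.lt_succ_iff.1 (Finset.mem_range.1 hg)
      split_ifs
      · refine Real.rpow_le_rpow (by positivity) ?_ hα
        gcongr
      · positivity
    refine (Finset.sum_le_sum h1).trans ?_
    simp

private lemma HsB0_meas_empty (K : Set (V d)) (w : ℕ → V d) (i g : ℕ)
    (hK : ∀ j < g, w (i + j) ∈ K) :
    MeasurableSet[FP (Cfg d) K] {ω : Env d | ∀ j < g, ¬ occ ω (w (i + j))} := by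
  have : {ω : Env d | ∀ j < g, ¬ occ ω (w (i + j))} =
      ⋂ j ∈ Finset.range g, {ω : Env d | occ ω (w (i + j))}ᶜ := by
    ext ω; simp
  rw [this]
  exact Finset.measurableSet_biInter _
    (fun j hj => (occ_meas K (hK j (Finset.mem_range.1 hj))).compl)

/-- `runc` at `i` only depends on the cells `w i, …, w (i + G - 1)` (of index at most `N`) -/
theorem runc_meas (α : ℝ) (G N : ℕ) (w : ℕ → V d) (i : ℕ) :
    Measurable[FP (Cfg d) {v | ∃ j, i ≤ j ∧ j < i + G ∧ j ≤ N ∧ w j = v}] (runc α G N w i) := by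
  unfold runc
  refine Finset.measurable_sum _ fun g hg => ?_
  have hg' := Nat.lt_succ_iff.1 (Finset.mem_range.1 hg)
  by_cases h : i + g ≤ N + 1
  · refine Measurable.ite ?_ measurable_const measurable_const
    have h1 : {ω : Env d | i + g ≤ N + 1 ∧ ∀ j < g, ¬ occ ω (w (i + j))} =
        {ω : Env d | ∀ j < g, ¬ occ ω (w (i + j))} := by
      ext ω; simp [h]
    rw [h1]
    refine HsB0_meas_empty _ w i g fun j hj => ⟨i + j, ?_, ?_, ?_, rfl⟩
    · omega
    · omega
    · omega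
  · simp only [h, false_and, if_false]
    exact measurable_const

private lemma HsB0_summable (d : ℕ) (α : ℝ) :
    Summable fun g : ℕ => (((d : ℝ) + 1) * (1 + g)) ^ α * Real.exp (-(g : ℝ)) := by
  set k : ℕ := ⌈|α|⌉₊ with hk
  have hk' : α ≤ (k : ℝ) := (le_abs_self α).trans (Nat.le_ceil _)
  have h1 : Summable fun n : ℕ => ((n : ℝ)) ^ k * Real.exp (-1 * (n : ℝ)) :=
    Real.summable_pow_mul_exp_neg_nat_mul k one_pos
  have h2 := (summable_nat_add_iff 1).2 h1
  have h3 := h2.mul_left ((((d : ℝ) + 1) ^ k) * Real.exp 1)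
  refine Summable.of_nonneg_of_le (fun g => by positivity) (fun g => ?_) h3
  have h4 : (1 : ℝ) ≤ ((d : ℝ) + 1) * (1 + g) := by
    have h5 : (0 : ℝ) ≤ d := by positivity
    have h6 : (0 : ℝ) ≤ g := by positivity
    nlinarith [mul_nonneg h5 h6]
  have h5 : (((d : ℝ) + 1) * (1 + g)) ^ α ≤ (((d : ℝ) + 1) * (1 + g)) ^ k := by
    rw [← Real.rpow_natCast]
    exact Real.rpow_le_rpow_of_exponent_le h4 hk'
  calc (((d : ℝ) + 1) * (1 + g)) ^ α * Real.exp (-(g : ℝ))
      ≤ (((d : ℝ) + 1) * (1 + g)) ^ k * Real.exp (-(g : ℝ)) := by gcongr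
    _ = (((d : ℝ) + 1) ^ k * Real.exp 1) *
        ((((g + 1 : ℕ) : ℝ)) ^ k * Real.exp (-1 * ((g + 1 : ℕ) : ℝ))) := by
      push_cast
      have h6 : Real.exp (-(g : ℝ)) = Real.exp 1 * Real.exp (-1 * ((g : ℝ) + 1)) := by
        rw [← Real.exp_add]; congr 1; ring
      rw [h6, mul_pow, add_comm (1 : ℝ) (g : ℝ)]
      ring

theorem runc_mean (h : IsCellLaw Λ) (α : ℝ) : ∃ m : ℝ, 0 ≤ m ∧ ∀ (G N : ℕ) (w : ℕ → V d),
    (∀ i ≤ N, ∀ j ≤ N, w i = w j → i = j) → ∀ i, ∫ ω, runc α G N w i ω ∂(PP Λ) ≤ m := by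
  classical
  have := h.prob
  refine ⟨∑' g : ℕ, (((d : ℝ) + 1) * (1 + g)) ^ α * Real.exp (-(g : ℝ)),
    tsum_nonneg fun g => by positivity, ?_⟩
  intro G N w hw i
  have hterm : ∀ g ∈ Finset.range (G + 1), ∀ ω : Env d,
      (open Classical in if i + g ≤ N + 1 ∧ ∀ j < g, ¬ occ ω (w (i + j)) then
          (((d : ℝ) + 1) * (1 + g)) ^ α else 0) =
      if i + g ≤ N + 1 then ({ω : Env d | ∀ j < g, ¬ occ ω (w (i + j))}.indicator
        (fun _ => (((d : ℝ) + 1) * (1 + g)) ^ α) ω) else 0 := by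
    intro g _ ω
    by_cases h1 : i + g ≤ N + 1
    · by_cases h2 : ∀ j < g, ¬ occ ω (w (i + j))
      · rw [if_pos ⟨h1, h2⟩, if_pos h1]
        exact (Set.indicator_of_mem (s := {ω : Env d | ∀ j < g, ¬ occ ω (w (i + j))}) h2
          (fun _ => (((d : ℝ) + 1) * (1 + g)) ^ α)).symm
      · rw [if_neg fun hh => h2 hh.2, if_pos h1]
        exact (Set.indicator_of_notMem (s := {ω : Env d | ∀ j < g, ¬ occ ω (w (i + j))}) h2
          (fun _ => (((d : ℝ) + 1) * (1 + g)) ^ α)).symm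
    · rw [if_neg fun hh => h1 hh.1, if_neg h1]
  have hme : ∀ g, MeasurableSet {ω : Env d | ∀ j < g, ¬ occ ω (w (i + j))} := fun g =>
    FP_le _ _ (HsB0_meas_empty Set.univ w i g fun _ _ => Set.mem_univ _)
  have h1 : ∫ ω, runc α G N w i ω ∂(PP Λ) = ∑ g ∈ Finset.range (G + 1),
      ∫ ω, (if i + g ≤ N + 1 then ({ω : Env d | ∀ j < g, ¬ occ ω (w (i + j))}.indicator
        (fun _ => (((d : ℝ) + 1) * (1 + g)) ^ α) ω) else 0) ∂(PP Λ) := by
    rw [← integral_finsetSum]
    · refine integral_congr_ae (Filter.Eventually.of_forall fun ω => ?_)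
      exact Finset.sum_congr rfl fun g hg => hterm g hg ω
    · intro g _
      by_cases h1 : i + g ≤ N + 1
      · simp only [if_pos h1]
        exact (integrable_const _).indicator (hme g)
      · simp only [if_neg h1]
        exact integrable_zero _ _ _
  rw [h1]
  refine (Finset.sum_le_sum (g := fun g : ℕ =>
    (((d : ℝ) + 1) * (1 + g)) ^ α * Real.exp (-(g : ℝ))) fun g _ => ?_).trans
    ((HsB0_summable d α).sum_le_tsum _ fun g _ => by positivity)
  by_cases h2 : i + g ≤ N + 1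
  · simp only [if_pos h2]
    rw [integral_indicator_const _ (hme g)]
    have h3 : {ω : Env d | ∀ j < g, ¬ occ ω (w (i + j))} =
        {ω : Env d | ∀ v ∈ (Finset.range g).image (fun j => w (i + j)), ¬ occ ω v} := by
      ext ω; simp
    rw [h3, empty_cells h, Finset.card_image_of_injOn, Finset.card_range, smul_eq_mul, mul_comm]
    intro a ha b hb hab
    have ha' := Finset.mem_range.1 (Finset.mem_coe.1 ha)
    have hb' := Finset.mem_range.1 (Finset.mem_coe.1 hb)
    have := hw (i + a) (by omega) (i + b) (by omega) hab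
    omega
  · simp only [if_neg h2, integral_zero]
    positivity

end FPPX
end

section

/-! Concentration of the cost of the runs of empty cells along a path. -/

namespace FPPX

open MeasureTheory ProbabilityTheory Filter Set
open scoped Topology

variable {d : ℕ} {Λ : Measure (Cfg d)}

private lemma hsB_reindex (g : ℕ → ℝ) (G n : ℕ) :
    ∑ i ∈ Finset.range (G * n), g i = ∑ k ∈ Finset.range n, ∑ a ∈ Finset.range G, g (a + G * k) := by
  induction n with
  | zero => simp
  | succ n ih =>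
    rw [Nat.mul_succ, Finset.sum_range_add, Finset.sum_range_succ, ih]
    congr 1
    exact Finset.sum_congr rfl fun a _ => by rw [add_comm]

private lemma hsB_reindex' (f : ℕ → ℝ) (G N : ℕ) (hG : 1 ≤ G) :
    ∑ i ∈ Finset.range (N + 1), f i = ∑ a ∈ Finset.range G, ∑ k : Fin (N + 1),
      if a + G * (k : ℕ) ≤ N then f (a + G * k) else 0 := by
  have h1 : ∑ i ∈ Finset.range (N + 1), f i =
      ∑ i ∈ Finset.range (G * (N + 1)), if i ≤ N then f i else 0 := by
    have h2 : Finset.range (N + 1) ⊆ Finset.range (G * (N + 1)) := by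
      intro i hi
      rw [Finset.mem_range] at *
      calc i < 1 * (N + 1) := by omega
        _ ≤ G * (N + 1) := Nat.mul_le_mul_right _ hG
    rw [← Finset.sum_subset h2]
    · refine Finset.sum_congr rfl fun i hi => ?_
      rw [Finset.mem_range] at hi
      rw [if_pos (by omega)]
    · intro i _ hi
      rw [Finset.mem_range] at hi
      rw [if_neg (by omega)]
  rw [h1, hsB_reindex, Finset.sum_comm]
  refine Finset.sum_congr rfl fun a _ => ?_
  rw [Finset.sum_range]

/-- the `k`-th variable of the class `a` -/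
private noncomputable def hsY (α : ℝ) (G N : ℕ) (w : ℕ → V d) (a : ℕ) (k : ℕ) (ω : Env d) : ℝ :=
  if a + G * k ≤ N then runc α G N w (a + G * k) ω else 0

private lemma hsY_meas (α : ℝ) (G N : ℕ) (w : ℕ → V d) (a k : ℕ) :
    Measurable[FP (Cfg d) {v | ∃ j, a + G * k ≤ j ∧ j < a + G * k + G ∧ j ≤ N ∧ w j = v}]
      (hsY α G N w a k) := by
  unfold hsY
  by_cases h : a + G * k ≤ N
  · simp only [if_pos h]
    exact runc_meas α G N w (a + G * k)
  · simp only [if_neg h]
    exact @measurable_const _ _ _ (_) _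

private lemma hsY_indep (h : IsCellLaw Λ) (α : ℝ) (G N : ℕ) (w : ℕ → V d)
    (hw : ∀ i ≤ N, ∀ j ≤ N, w i = w j → i = j) (a : ℕ) :
    iIndepFun (fun (k : Fin (N + 1)) (ω : Env d) => hsY α G N w a k ω) (PP Λ) := by
  have := h.prob
  rw [iIndepFun_iff_iIndep]
  have h1 := FP_indep (d := d) (X := Cfg d) Λ (N + 1)
    (fun k => {v | ∃ j, a + G * (k : ℕ) ≤ j ∧ j < a + G * k + G ∧ j ≤ N ∧ w j = v}) ?_
  · refine iIndep_of_iIndep_of_le h1 fun k => ?_
    exact (hsY_meas α G N w a k).comap_le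
  · intro i j hij
    rw [Set.disjoint_left]
    rintro v ⟨p, hp1, hp2, hp3, hp4⟩ ⟨q, hq1, hq2, hq3, hq4⟩
    have hpq : p = q := hw p hp3 q hq3 (hp4.trans hq4.symm)
    subst hpq
    apply hij
    have h3 : (i : ℕ) = j := by
      rcases lt_trichotomy (i : ℕ) (j : ℕ) with hlt | heq | hgt
      · exfalso
        have : G * ((i : ℕ) + 1) ≤ G * j := Nat.mul_le_mul_left _ hlt
        rw [Nat.mul_add] at this
        omega
      · exact heq
      · exfalso
        have : G * ((j : ℕ) + 1) ≤ G * i := Nat.mul_le_mul_left _ hgt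
        rw [Nat.mul_add] at this
        omega
    exact Fin.ext h3

private lemma hsY_bound {α : ℝ} (hα : 0 ≤ α) (G N : ℕ) (w : ℕ → V d) (a k : ℕ) (ω : Env d) :
    hsY α G N w a k ω ∈ Set.Icc 0 ((G + 1) * (((d : ℝ) + 1) * (1 + G)) ^ α) := by
  unfold hsY
  split_ifs
  · exact ⟨(runc_bound hα G N w _ ω).1, (runc_bound hα G N w _ ω).2⟩
  · exact ⟨le_refl _, by positivity⟩

theorem hsB (h : IsCellLaw Λ) {α : ℝ} (hα : 0 ≤ α) : ∃ m : ℝ, 0 ≤ m ∧
    ∀ (G N : ℕ) (w : ℕ → V d), 1 ≤ G → (∀ i ≤ N, ∀ j ≤ N, w i = w j → i = j) →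
      ∀ s : ℝ, 0 ≤ s → (PP Λ).real {ω | m * (N + 1) + s ≤
        ∑ i ∈ Finset.range (N + 1), runc α G N w i ω} ≤
          G * Real.exp (-((s / G) ^ 2 /
            ((N + 1) * ((G + 1) * (((d : ℝ) + 1) * (1 + G)) ^ α) ^ 2))) := by
  have := h.prob
  obtain ⟨m, hm0, hm⟩ := runc_mean h α
  refine ⟨m, hm0, ?_⟩
  intro G N w hG hw s hs
  set M : ℝ := (G + 1) * (((d : ℝ) + 1) * (1 + G)) ^ α with hM
  have hM0 : 0 < M := by positivity
  have hG0 : (0 : ℝ) < G := by exact_mod_cast hG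
  have hmeas : ∀ a k, Measurable (hsY (d := d) α G N w a k) := fun a k =>
    (hsY_meas α G N w a k).mono (FP_le _) le_rfl
  -- one class
  have hclass : ∀ a : ℕ, (PP Λ).real {ω | s / G ≤ ∑ k : Fin (N + 1),
      (hsY α G N w a k ω - ∫ ω', hsY α G N w a k ω' ∂(PP Λ))} ≤
      Real.exp (-((s / G) ^ 2 / ((N + 1) * M ^ 2))) := by
    intro a
    have hind : iIndepFun (fun (k : Fin (N + 1)) (ω : Env d) =>
        hsY α G N w a k ω - ∫ ω', hsY α G N w a k ω' ∂(PP Λ)) (PP Λ) :=
      (hsY_indep h α G N w hw a).comp (fun k x => x - ∫ ω', hsY α G N w a k ω' ∂(PP Λ))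
        (fun k => measurable_id.sub_const _)
    have hsub : ∀ k ∈ (Finset.univ : Finset (Fin (N + 1))), HasSubgaussianMGF
        (fun (ω : Env d) => hsY α G N w a k ω - ∫ ω', hsY α G N w a k ω' ∂(PP Λ))
        ((‖M - 0‖₊ / 2) ^ 2) (PP Λ) := fun k _ =>
      hasSubgaussianMGF_of_mem_Icc (hmeas a k).aemeasurable
        (Filter.Eventually.of_forall fun ω => hsY_bound hα G N w a k ω)
    have hmain := HasSubgaussianMGF.measure_sum_ge_le_of_iIndepFun hind hsub
      (ε := s / G) (by positivity)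
    refine hmain.trans ?_
    apply Real.exp_le_exp.2
    rw [neg_div, neg_le_neg_iff]
    rw [Finset.sum_const, Finset.card_univ, Fintype.card_fin]
    have hc : ((((N + 1) • (‖M - 0‖₊ / 2) ^ 2 : NNReal)) : ℝ) = (N + 1) * (M / 2) ^ 2 := by
      rw [nsmul_eq_mul]
      push_cast
      rw [sub_zero, Real.norm_of_nonneg hM0.le]
    rw [hc]
    refine div_le_div_of_nonneg_left (by positivity) (by positivity) ?_
    nlinarith [sq_nonneg M, mul_nonneg (Nat.cast_nonneg (α := ℝ) N) (sq_nonneg M)]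
  -- union bound
  have hincl : {ω : Env d | m * (N + 1) + s ≤ ∑ i ∈ Finset.range (N + 1), runc α G N w i ω} ⊆
      ⋃ a ∈ Finset.range G, {ω | s / G ≤ ∑ k : Fin (N + 1),
        (hsY α G N w a k ω - ∫ ω', hsY α G N w a k ω' ∂(PP Λ))} := by
    intro ω hω
    rw [mem_ofPred_eq] at hω
    by_contra hcon
    simp only [mem_iUnion, mem_ofPred_eq, not_exists, not_le] at hcon
    have h1 : ∑ a ∈ Finset.range G, ∑ k : Fin (N + 1),
        (hsY α G N w a k ω - ∫ ω', hsY α G N w a k ω' ∂(PP Λ)) < ∑ a ∈ Finset.range G, s / G :=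
      Finset.sum_lt_sum_of_nonempty ⟨0, Finset.mem_range.2 (by omega)⟩ fun a ha => hcon a ha
    rw [Finset.sum_const, Finset.card_range, nsmul_eq_mul, mul_div_cancel₀ _ hG0.ne'] at h1
    simp only [Finset.sum_sub_distrib] at h1
    have h2 : ∑ a ∈ Finset.range G, ∑ k : Fin (N + 1), hsY α G N w a k ω =
        ∑ i ∈ Finset.range (N + 1), runc α G N w i ω :=
      (hsB_reindex' (fun i => runc α G N w i ω) G N hG).symm
    have h3 : ∑ a ∈ Finset.range G, ∑ k : Fin (N + 1), ∫ ω', hsY α G N w a k ω' ∂(PP Λ) =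
        ∑ i ∈ Finset.range (N + 1), ∫ ω', runc α G N w i ω' ∂(PP Λ) := by
      rw [hsB_reindex' (fun i => ∫ ω', runc α G N w i ω' ∂(PP Λ)) G N hG]
      refine Finset.sum_congr rfl fun a _ => Finset.sum_congr rfl fun k _ => ?_
      unfold hsY
      split_ifs
      · rfl
      · simp
    have h4 : ∑ i ∈ Finset.range (N + 1), ∫ ω', runc α G N w i ω' ∂(PP Λ) ≤ m * (N + 1) := by
      calc _ ≤ ∑ _i ∈ Finset.range (N + 1), m := Finset.sum_le_sum fun i _ => hm G N w hw i
        _ = m * (N + 1) := by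
          rw [Finset.sum_const, Finset.card_range, nsmul_eq_mul]
          push_cast
          ring
    linarith
  calc (PP Λ).real {ω | m * (N + 1) + s ≤ ∑ i ∈ Finset.range (N + 1), runc α G N w i ω}
      ≤ (PP Λ).real (⋃ a ∈ Finset.range G, {ω | s / G ≤ ∑ k : Fin (N + 1),
        (hsY α G N w a k ω - ∫ ω', hsY α G N w a k ω' ∂(PP Λ))}) :=
        measureReal_mono hincl (measure_ne_top _ _)
    _ ≤ ∑ a ∈ Finset.range G, (PP Λ).real {ω | s / G ≤ ∑ k : Fin (N + 1),
        (hsY α G N w a k ω - ∫ ω', hsY α G N w a k ω' ∂(PP Λ))} :=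
        measureReal_biUnion_finset_le _ _
    _ ≤ ∑ _a ∈ Finset.range G, Real.exp (-((s / G) ^ 2 / ((N + 1) * M ^ 2))) :=
        Finset.sum_le_sum fun a _ => hclass a
    _ = G * Real.exp (-((s / G) ^ 2 / ((N + 1) * M ^ 2))) := by
        rw [Finset.sum_const, Finset.card_range, nsmul_eq_mul]

end FPPX
end

section

/-! Linear upper bound inside half spaces for Euclidean first-passage percolation. -/

namespace FPPX

open MeasureTheory ProbabilityTheory Filter Set
open scoped Topology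

variable {d : ℕ} {Λ : Measure (Cfg d)}

private lemma HsUp_ev (A : ℝ) {c θ : ℝ} (hc : 0 < c) (hθ : 0 < θ) (s : ℝ) (K : ℕ) :
    ∀ᶠ r : ℝ in atTop, A * r ^ s * Real.exp (-(c * r ^ θ)) ≤ r ^ (-(K : ℝ)) / 2 := by
  have h1 := (tendsto_rpow_mul_exp_neg_mul_atTop_nhds_zero ((s + K) / θ) c hc).comp
    (tendsto_rpow_atTop hθ)
  have h2 : 0 < 1 / (2 * (|A| + 1)) := by positivity
  filter_upwards [h1.eventually (Iio_mem_nhds h2), eventually_gt_atTop 0] with r hr hr0
  have e0 : (r ^ θ) ^ ((s + K) / θ) = r ^ s * r ^ (K : ℝ) := by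
    rw [← Real.rpow_mul hr0.le, ← Real.rpow_add hr0]
    congr 1
    field_simp
  have hr' : r ^ s * r ^ (K : ℝ) * Real.exp (-(c * r ^ θ)) < 1 / (2 * (|A| + 1)) := by
    have h3 := hr
    simp only [Function.comp, Set.mem_Iio] at h3
    rw [e0] at h3
    rwa [neg_mul] at h3
  have hK : 0 < r ^ (K : ℝ) := Real.rpow_pos_of_pos hr0 _
  rw [Real.rpow_neg hr0.le, ← one_div, div_div, le_div_iff₀ (by positivity)]
  have h4 : 0 ≤ r ^ s * r ^ (K : ℝ) * Real.exp (-(c * r ^ θ)) := by positivity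
  have h5 : A * r ^ s * Real.exp (-(c * r ^ θ)) * (r ^ (K : ℝ) * 2) =
      2 * A * (r ^ s * r ^ (K : ℝ) * Real.exp (-(c * r ^ θ))) := by ring
  rw [h5]
  have h6 : 2 * A * (r ^ s * r ^ (K : ℝ) * Real.exp (-(c * r ^ θ))) ≤
      2 * (|A| + 1) * (r ^ s * r ^ (K : ℝ) * Real.exp (-(c * r ^ θ))) := by
    apply mul_le_mul_of_nonneg_right _ h4
    have := le_abs_self A
    linarith
  have h7 : 2 * (|A| + 1) * (r ^ s * r ^ (K : ℝ) * Real.exp (-(c * r ^ θ))) ≤
      2 * (|A| + 1) * (1 / (2 * (|A| + 1))) :=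
    mul_le_mul_of_nonneg_left hr'.le (by positivity)
  have h8 : 2 * (|A| + 1) * (1 / (2 * (|A| + 1))) = 1 := by
    field_simp
  linarith

private lemma HsUp_emb_nsmul (n : ℕ) (e : V d) : emb (n • e) = (n : ℝ) • emb e := by
  induction n with
  | zero => rw [zero_smul, emb_zero, Nat.cast_zero, zero_smul]
  | succ k ih => rw [succ_nsmul, emb_add, ih, Nat.cast_succ, add_smul, one_smul]

/-- a particle near `u` in the half space -/
private lemma HsUp_near (hd : 1 ≤ d) (h : IsCellLaw Λ) (ν : E d →ₗ[ℝ] ℝ) (a : ℝ) (u : V d)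
    (hu : a ≤ ν (tr u)) (G : ℕ) : ∃ B : Set (Env d), (PP Λ).real B ≤ Real.exp (-(G : ℝ)) ∧
      ∀ ω, ω ∉ B → ∃ p ∈ parts ω ∩ hat {z | a ≤ ν (tr z)}, ‖p - emb u‖ ≤ G + d := by
  classical
  obtain ⟨e, hinj, hnorm, hK⟩ := exists_ray hd ν a u hu
  refine ⟨{ω : Env d | ∀ z ∈ (Finset.range G).image (fun n : ℕ => u + n • e), ¬ occ ω z},
    ?_, ?_⟩
  · rw [empty_cells h, Finset.card_image_of_injective _ (fun n m hnm => hinj n m hnm),
      Finset.card_range]
  · intro ω hω
    simp only [Set.mem_ofPred_eq, not_forall, not_not] at hω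
    obtain ⟨z, hz, hocc⟩ := hω
    rw [Finset.mem_image] at hz
    obtain ⟨n, hn, rfl⟩ := hz
    rw [Finset.mem_range] at hn
    obtain ⟨p, hp, hpb⟩ := hocc
    have hl : latt p = u + n • e := by
      rw [← dix_zero]
      exact hpb
    refine ⟨p, ⟨hp, ?_⟩, ?_⟩
    · show latt p ∈ {z | a ≤ ν (tr z)}
      rw [hl]
      exact hK n
    · have h1 : p - emb u = (p - emb (latt p)) + (n : ℝ) • emb e := by
        rw [hl, emb_add, HsUp_emb_nsmul]
        abel
      have h2 := norm_sub_emb_latt p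
      have h3 : ‖(n : ℝ) • emb e‖ = n := by
        rw [norm_smul, hnorm, mul_one, Real.norm_eq_abs, abs_of_nonneg (Nat.cast_nonneg _)]
      have h4 : (n : ℝ) ≤ G := by exact_mod_cast hn.le
      have h5 : (0 : ℝ) ≤ d := Nat.cast_nonneg _
      rw [h1]
      refine (norm_add_le _ _).trans ?_
      rw [h3]
      linarith

/-- the deterministic part: outside a small event the local event holds -/
private lemma HsUp_main (hd : 1 ≤ d) (h : IsCellLaw Λ) {α m : ℝ} (hα : 1 ≤ α) (hm : 0 ≤ m)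
    (hB : ∀ (G N : ℕ) (w : ℕ → V d), 1 ≤ G → (∀ i ≤ N, ∀ j ≤ N, w i = w j → i = j) →
      ∀ s : ℝ, 0 ≤ s → (PP Λ).real {ω | m * (N + 1) + s ≤
        ∑ i ∈ Finset.range (N + 1), runc α G N w i ω} ≤
          G * Real.exp (-((s / G) ^ 2 /
            ((N + 1) * ((G + 1) * (((d : ℝ) + 1) * (1 + G)) ^ α) ^ 2))))
    (G : ℕ) (hG : 1 ≤ G) (r : ℝ) (hr : 1 ≤ r)
    (hbig : 4 * (2 * ((G + d) + G + d)) ^ α ≤ 2 * r) (ν : E d →ₗ[ℝ] ℝ) (a : ℝ) (u v : V d)
    (hu : a ≤ ν (tr u)) (hv : a ≤ ν (tr v)) (huv : nm (v - u) ≤ r) :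
    (PP Λ).real (LEP α {z | a ≤ ν (tr z)} u v ((m * (d + 1) + 3) * r))ᶜ ≤
      (d + 3) * r * Real.exp (-(G : ℝ)) + G * Real.exp (-((r / G) ^ 2 /
            (((d + 1) * r) * ((G + 1) * (((d : ℝ) + 1) * (1 + G)) ^ α) ^ 2))) := by
  classical
  have := h.prob
  obtain ⟨N, w, h0, hN, hNle, hstep, hinj, hin⟩ := exists_mono_sites ν a u v hu hv
  obtain ⟨Bu, hBu, hnu⟩ := HsUp_near hd h ν a u hu G
  obtain ⟨Bv, hBv, hnv⟩ := HsUp_near hd h ν a v hv G
  have hd0 : (0 : ℝ) ≤ d := Nat.cast_nonneg _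
  have hNr : (N : ℝ) ≤ d * r := hNle.trans (mul_le_mul_of_nonneg_left huv hd0)
  have hN1 : (N : ℝ) + 1 ≤ (d + 1) * r := by linarith
  set B1 : ℕ → Set (Env d) := fun i =>
    {ω : Env d | ∀ z ∈ (Finset.range G).image (fun j : ℕ => w (i + j)), ¬ occ ω z} with hB1
  set B3 : Set (Env d) := {ω | m * (N + 1) + r ≤
        ∑ i ∈ Finset.range (N + 1), runc α G N w i ω} with hB3
  have hP1 : ∀ i, i + G ≤ N + 1 → (PP Λ).real (B1 i) ≤ Real.exp (-(G : ℝ)) := by
    intro i hi
    rw [hB1]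
    simp only
    rw [empty_cells h, Finset.card_image_of_injOn, Finset.card_range]
    intro j hj j' hj' hjj
    rw [Finset.mem_coe, Finset.mem_range] at hj hj'
    have := hinj (i + j) (by omega) (i + j') (by omega) hjj
    omega
  have hsub : (LEP α {z | a ≤ ν (tr z)} u v ((m * (d + 1) + 3) * r))ᶜ ⊆
      (⋃ i ∈ (Finset.range (N + 1)).filter (fun i => i + G ≤ N + 1), B1 i) ∪ (Bu ∪ (Bv ∪ B3)) := by
    intro ω hω
    by_contra hcon
    apply hω
    simp only [Set.mem_union, not_or, Set.mem_iUnion, not_exists] at hcon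
    obtain ⟨hc1, hcu, hcv, hc3⟩ := hcon
    have hwin : ∀ i, i + G ≤ N + 1 → ∃ j, i ≤ j ∧ j < i + G ∧ occ ω (w j) := by
      intro i hi
      have h1 := hc1 i (by
        rw [Finset.mem_filter, Finset.mem_range]
        exact ⟨by omega, hi⟩)
      simp only [hB1, Set.mem_ofPred_eq, not_forall, not_not] at h1
      obtain ⟨z, hz, hocc⟩ := h1
      rw [Finset.mem_image] at hz
      obtain ⟨j, hj, rfl⟩ := hz
      rw [Finset.mem_range] at hj
      exact ⟨i + j, by omega, by omega, hocc⟩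
    have hG0 : (0 : ℝ) ≤ G := Nat.cast_nonneg _
    obtain ⟨p, q, c, hwk, hle⟩ := hsA (α := α) hα (ω := ω) (K := {z | a ≤ ν (tr z)}) (u := u)
      (v := v) (R := G + d) (G := G) (N := N) (w := w) (by linarith) h0 hN hstep hin
      (hnu ω hcu) (hnv ω hcv) hwin
    refine Or.inr ⟨p, q, c, hwk, lt_of_le_of_lt hle ?_⟩
    rw [hB3, Set.mem_ofPred_eq, not_le] at hc3
    have h5 : m * ((N : ℝ) + 1) ≤ m * ((d + 1) * r) := mul_le_mul_of_nonneg_left hN1 hm
    calc 4 * (2 * ((G + d : ℝ) + G + d)) ^ α + ∑ i ∈ Finset.range (N + 1), runc α G N w i ω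
        < 2 * r + (m * (N + 1) + r) := by linarith
      _ ≤ (m * (d + 1) + 3) * r := by linarith
  have h1 : (PP Λ).real (LEP α {z | a ≤ ν (tr z)} u v ((m * (d + 1) + 3) * r))ᶜ ≤
      (PP Λ).real (⋃ i ∈ (Finset.range (N + 1)).filter (fun i => i + G ≤ N + 1), B1 i) +
        ((PP Λ).real Bu + ((PP Λ).real Bv + (PP Λ).real B3)) := by
    refine (measureReal_mono hsub).trans ((measureReal_union_le _ _).trans ?_)
    refine add_le_add le_rfl ((measureReal_union_le _ _).trans ?_)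
    exact add_le_add le_rfl (measureReal_union_le _ _)
  have h2 : (PP Λ).real (⋃ i ∈ (Finset.range (N + 1)).filter (fun i => i + G ≤ N + 1), B1 i) ≤
      ((d + 1) * r) * Real.exp (-(G : ℝ)) := by
    refine (measureReal_biUnion_finset_le _ _).trans ?_
    calc ∑ i ∈ (Finset.range (N + 1)).filter (fun i => i + G ≤ N + 1), (PP Λ).real (B1 i)
        ≤ ∑ i ∈ (Finset.range (N + 1)).filter (fun i => i + G ≤ N + 1), Real.exp (-(G : ℝ)) :=
          Finset.sum_le_sum fun i hi => hP1 i (Finset.mem_filter.mp hi).2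
      _ = ((Finset.range (N + 1)).filter (fun i => i + G ≤ N + 1)).card * Real.exp (-(G : ℝ)) := by
          rw [Finset.sum_const, nsmul_eq_mul]
      _ ≤ ((d + 1) * r) * Real.exp (-(G : ℝ)) := by
          apply mul_le_mul_of_nonneg_right _ (Real.exp_pos _).le
          have h3 := Finset.card_filter_le (Finset.range (N + 1)) (fun i => i + G ≤ N + 1)
          rw [Finset.card_range] at h3
          have h4 : ((((Finset.range (N + 1)).filter (fun i => i + G ≤ N + 1)).card : ℕ) : ℝ) ≤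
              (N : ℝ) + 1 := by exact_mod_cast h3
          linarith
  have h3 : (PP Λ).real B3 ≤ G * Real.exp (-((r / G) ^ 2 /
            (((d + 1) * r) * ((G + 1) * (((d : ℝ) + 1) * (1 + G)) ^ α) ^ 2))) := by
    refine (hB G N w hG hinj r (by linarith)).trans ?_
    apply mul_le_mul_of_nonneg_left _ (Nat.cast_nonneg _)
    apply Real.exp_le_exp.mpr
    apply neg_le_neg
    have hG0 : (0 : ℝ) < G := by exact_mod_cast hG
    have h4 : 0 < ((G + 1) * (((d : ℝ) + 1) * (1 + G)) ^ α) ^ 2 := by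
      have : 0 < (((d : ℝ) + 1) * (1 + G)) ^ α := Real.rpow_pos_of_pos (by positivity) _
      positivity
    apply div_le_div_of_nonneg_left (by positivity) (by positivity)
    exact mul_le_mul_of_nonneg_right hN1 h4.le
  have h4 : 2 * Real.exp (-(G : ℝ)) ≤ 2 * r * Real.exp (-(G : ℝ)) := by
    apply mul_le_mul_of_nonneg_right _ (Real.exp_pos _).le
    linarith
  have h5 : (d + 3) * r * Real.exp (-(G : ℝ)) = ((d + 1) * r) * Real.exp (-(G : ℝ)) +
      2 * r * Real.exp (-(G : ℝ)) := by ring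
  linarith

theorem poi_hs_up (hd : 1 ≤ d) (h : IsCellLaw Λ) {α : ℝ} (hα : 1 ≤ α) : ∃ C1 : ℝ, 1 ≤ C1 ∧
    ∀ K : ℕ, ∀ᶠ r : ℝ in atTop, ∀ (ν : E d →ₗ[ℝ] ℝ) (a : ℝ) (u v : V d),
      a ≤ ν (tr u) → a ≤ ν (tr v) → nm (v - u) ≤ r →
      (PP Λ).real (LEP α {z | a ≤ ν (tr z)} u v (C1 * r))ᶜ ≤ r ^ (-(K : ℝ)) := by
  obtain ⟨m, hm, hB⟩ := hsB h (α := α) (by linarith)
  have hd0 : (0 : ℝ) ≤ d := Nat.cast_nonneg _
  refine ⟨m * (d + 1) + 3, by nlinarith, fun K => ?_⟩
  obtain ⟨θ, hθ⟩ : ∃ θ, θ = 1 / (8 * (α + 1)) := ⟨_, rfl⟩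
  have hα1 : 0 < α + 1 := by linarith
  have hθ0 : 0 < θ := by rw [hθ]; positivity
  have hθα : θ * (α + 1) = 1 / 8 := by
    rw [hθ]
    field_simp
  have hθ16 : θ ≤ 1 / 16 := by nlinarith
  -- constants
  obtain ⟨C2, hC2⟩ : ∃ C2, C2 = 3 * (((d : ℝ) + 1) * 3) ^ α := ⟨_, rfl⟩
  have hC20 : 0 < C2 := by
    rw [hC2]
    have : 0 < (((d : ℝ) + 1) * 3) ^ α := Real.rpow_pos_of_pos (by positivity) _
    positivity
  obtain ⟨c, hc⟩ : ∃ c, c = 1 / (4 * ((d + 1) * C2 ^ 2)) := ⟨_, rfl⟩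
  have hc0 : 0 < c := by rw [hc]; positivity
  have hev1 := HsUp_ev ((d : ℝ) + 3) one_pos hθ0 1 K
  have hev2 := HsUp_ev 2 hc0 (by norm_num : (0 : ℝ) < 1 / 2) θ K
  have hev3 := ev_rpow_le (4 * (8 + 4 * (d : ℝ)) ^ α) (B := 2) (by norm_num) (a := θ * α) (b := 1)
    (by nlinarith)
  filter_upwards [hev1, hev2, hev3, eventually_ge_atTop 1] with r h1 h2 h3 hr ν a u v hu hv huv
  have hr0 : 0 < r := by linarith
  have hrθ : 1 ≤ r ^ θ := Real.one_le_rpow hr hθ0.le
  obtain ⟨G, hG⟩ : ∃ G : ℕ, G = ⌈r ^ θ⌉₊ := ⟨_, rfl⟩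
  have hG1 : r ^ θ ≤ G := by rw [hG]; exact Nat.le_ceil _
  have hG2 : (G : ℝ) ≤ 2 * r ^ θ := by
    have := Nat.ceil_lt_add_one (by linarith : 0 ≤ r ^ θ)
    rw [← hG] at this
    linarith
  have hG3 : 1 ≤ G := by
    have : (1 : ℝ) ≤ G := hrθ.trans hG1
    exact_mod_cast this
  have hG0 : (0 : ℝ) < G := by exact_mod_cast hG3
  have hbig : 4 * (2 * ((G + d : ℝ) + G + d)) ^ α ≤ 2 * r := by
    have e1 : 2 * ((G + d : ℝ) + G + d) ≤ (8 + 4 * d) * r ^ θ := by nlinarith
    have e2 : (2 * ((G + d : ℝ) + G + d)) ^ α ≤ ((8 + 4 * d) * r ^ θ) ^ α :=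
      Real.rpow_le_rpow (by positivity) e1 (by linarith)
    have e3 : ((8 + 4 * (d : ℝ)) * r ^ θ) ^ α = (8 + 4 * (d : ℝ)) ^ α * r ^ (θ * α) := by
      rw [Real.mul_rpow (by positivity) (by positivity), Real.rpow_mul hr0.le]
    rw [e3] at e2
    rw [Real.rpow_one] at h3
    linarith
  refine (HsUp_main hd h hα hm hB G hG3 r hr hbig ν a u v hu hv huv).trans ?_
  have h4 : ((d : ℝ) + 3) * r * Real.exp (-(G : ℝ)) ≤ r ^ (-(K : ℝ)) / 2 := by
    rw [Real.rpow_one, one_mul] at h1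
    refine le_trans ?_ h1
    apply mul_le_mul_of_nonneg_left _ (by positivity)
    apply Real.exp_le_exp.mpr
    linarith
  have h5 : (G : ℝ) * Real.exp (-((r / G) ^ 2 /
            (((d + 1) * r) * ((G + 1) * (((d : ℝ) + 1) * (1 + G)) ^ α) ^ 2))) ≤
      r ^ (-(K : ℝ)) / 2 := by
    refine le_trans ?_ h2
    apply mul_le_mul hG2 _ (Real.exp_pos _).le (by positivity)
    apply Real.exp_le_exp.mpr
    apply neg_le_neg
    have f1 : (G + 1) * (((d : ℝ) + 1) * (1 + G)) ^ α ≤ C2 * r ^ (1 / 8 : ℝ) := by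
      have g1 : (G : ℝ) + 1 ≤ 3 * r ^ θ := by linarith
      have g2 : ((d : ℝ) + 1) * (1 + G) ≤ (((d : ℝ) + 1) * 3) * r ^ θ := by nlinarith
      have g3 : (((d : ℝ) + 1) * (1 + G)) ^ α ≤ ((((d : ℝ) + 1) * 3) * r ^ θ) ^ α :=
        Real.rpow_le_rpow (by positivity) g2 (by linarith)
      have g4 : ((((d : ℝ) + 1) * 3) * r ^ θ) ^ α = (((d : ℝ) + 1) * 3) ^ α * r ^ (θ * α) := by
        rw [Real.mul_rpow (by positivity) (by positivity), Real.rpow_mul hr0.le]
      have g5 : r ^ (1 / 8 : ℝ) = r ^ θ * r ^ (θ * α) := by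
        rw [← Real.rpow_add hr0, ← hθα]
        congr 1
        ring
      calc (G + 1) * (((d : ℝ) + 1) * (1 + G)) ^ α
          ≤ (3 * r ^ θ) * ((((d : ℝ) + 1) * 3) ^ α * r ^ (θ * α)) := by
            rw [← g4]
            apply mul_le_mul g1 g3 (by positivity) (by positivity)
        _ = C2 * r ^ (1 / 8 : ℝ) := by rw [g5, hC2]; ring
    have f2 : ((G + 1) * (((d : ℝ) + 1) * (1 + G)) ^ α) ^ 2 ≤ C2 ^ 2 * r ^ (1 / 4 : ℝ) := by
      have g1 : (C2 * r ^ (1 / 8 : ℝ)) ^ 2 = C2 ^ 2 * r ^ (1 / 4 : ℝ) := by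
        rw [mul_pow, ← Real.rpow_natCast (r ^ (1 / 8 : ℝ)), ← Real.rpow_mul hr0.le]
        norm_num
      rw [← g1]
      exact pow_le_pow_left₀ (by positivity) f1 2
    have f3 : r ^ (15 / 8 : ℝ) / 4 ≤ (r / G) ^ 2 := by
      have g1 : r / (2 * r ^ θ) ≤ r / G := div_le_div_of_nonneg_left hr0.le hG0 hG2
      have g2 : (r / (2 * r ^ θ)) ^ 2 = r ^ (2 - 2 * θ) / 4 := by
        rw [Real.rpow_sub hr0, div_pow, mul_pow, mul_comm (2 : ℝ) θ, Real.rpow_mul hr0.le]
        norm_num
        field_simp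
      have g3 : r ^ (15 / 8 : ℝ) ≤ r ^ (2 - 2 * θ) := Real.rpow_le_rpow_of_exponent_le hr
        (by linarith)
      have g4 := pow_le_pow_left₀ (by positivity) g1 2
      rw [g2] at g4
      linarith
    rw [hc, le_div_iff₀ (by positivity)]
    calc 1 / (4 * ((d + 1) * C2 ^ 2)) * r ^ (1 / 2 : ℝ) *
          (((d + 1) * r) * ((G + 1) * (((d : ℝ) + 1) * (1 + G)) ^ α) ^ 2)
        ≤ 1 / (4 * ((d + 1) * C2 ^ 2)) * r ^ (1 / 2 : ℝ) *
          (((d + 1) * r) * (C2 ^ 2 * r ^ (1 / 4 : ℝ))) := by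
          apply mul_le_mul_of_nonneg_left _ (by positivity)
          apply mul_le_mul_of_nonneg_left f2 (by positivity)
      _ = (r ^ (1 / 2 : ℝ) * r * r ^ (1 / 4 : ℝ)) / 4 := by
          field_simp
      _ = r ^ (7 / 4 : ℝ) / 4 := by
          congr 1
          nth_rewrite 2 [← Real.rpow_one r]
          rw [← Real.rpow_add hr0, ← Real.rpow_add hr0]
          norm_num
      _ ≤ r ^ (15 / 8 : ℝ) / 4 := by
          have := Real.rpow_le_rpow_of_exponent_le hr (by norm_num : (7 / 4 : ℝ) ≤ 15 / 8)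
          linarith
      _ ≤ (r / G) ^ 2 := f3
  linarith

end FPPX
end

section

/-! Euclidean first-passage percolation on the canonical space as a `PreB`. -/

namespace FPPX

open MeasureTheory ProbabilityTheory Filter Set
open scoped Topology

variable {d : ℕ} {Λ : Measure (Cfg d)} {α : ℝ}

/-- Euclidean first-passage percolation as a stationary local random metric -/
noncomputable def poiPreB (hd : 1 ≤ d) (h : IsCellLaw Λ) (hα : 1 < α) : PreB d (PP Λ) :=
  haveI := h.prob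
  { t := fun ω u v => tP α (parts ω) u v
    LE := LEP α
    F := FP (Cfg d)
    θ := thP
    t_nonneg := fun ω u v => tP_nonneg _ u v
    t_self := fun ω u => tP_self _ u
    t_symm := fun ω u v => tP_symm _ u v
    t_tri := fun ω u v w => tP_tri (by linarith) _ u v w
    t_meas := fun u v => tP_meas (by linarith) u v
    t_shift := fun x ω u v => tP_shift x ω u v
    θ_mp := thP_mp Λ
    F_le := FP_le
    F_mono := FP_mono
    F_shift := FP_shift
    F_indep := FP_indep Λ
    LE_meas := LEP_meas (by linarith)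
    LE_t := LEP_t
    LE_mono := LEP_mono
    LE_shift := LEP_shift
    C1 := Classical.choose (poi_hs_up hd h hα.le)
    one_le_C1 := (Classical.choose_spec (poi_hs_up hd h hα.le)).1
    hs_up := (Classical.choose_spec (poi_hs_up hd h hα.le)).2 }

theorem poiPreB_t (hd : 1 ≤ d) (h : IsCellLaw Λ) (hα : 1 < α) (ω : Env d) (u v : V d) :
    (poiPreB hd h hα).t ω u v = tP α (parts ω) u v := rfl

theorem poiPreB_LE (hd : 1 ≤ d) (h : IsCellLaw Λ) (hα : 1 < α) (K : Set (V d)) (u v : V d)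
    (s : ℝ) : (poiPreB hd h hα).LE K u v s = LEP α K u v s := rfl

end FPPX
end

section

/-! Refining chains of particles by inserting particles near midpoints. -/

namespace FPPX

open MeasureTheory ProbabilityTheory Filter Set
open scoped Topology

variable {d : ℕ}

private lemma refine_eta {α : ℝ} (hα : 1 < α) : ∃ η : ℝ, 0 < η ∧ η ≤ 1 / 4 ∧
    (1 / 2 + η) ^ α ≤ 1 / 2 := by
  have hα0 : (0:ℝ) < α := by linarith
  have h1 : (1 / 2 : ℝ) < (1 / 2 : ℝ) ^ (1 / α) := by
    have : (1 / 2 : ℝ) ^ (1 : ℝ) < (1 / 2 : ℝ) ^ (1 / α) := by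
      apply Real.rpow_lt_rpow_of_exponent_gt (by norm_num) (by norm_num)
      rw [div_lt_one hα0]
      exact hα
    simpa using this
  refine ⟨min (1 / 4) ((1 / 2 : ℝ) ^ (1 / α) - 1 / 2), ?_, min_le_left _ _, ?_⟩
  · apply lt_min
    · norm_num
    · linarith
  · have h2 : 1 / 2 + min (1 / 4) ((1 / 2 : ℝ) ^ (1 / α) - 1 / 2) ≤ (1 / 2 : ℝ) ^ (1 / α) := by
      have := min_le_right (1 / 4) ((1 / 2 : ℝ) ^ (1 / α) - 1 / 2)
      linarith
    have h3 : 0 ≤ 1 / 2 + min (1 / 4) ((1 / 2 : ℝ) ^ (1 / α) - 1 / 2) := by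
      have : 0 ≤ min (1 / 4) ((1 / 2 : ℝ) ^ (1 / α) - 1 / 2) := le_min (by norm_num) (by linarith)
      linarith
    calc (1 / 2 + min (1 / 4) ((1 / 2 : ℝ) ^ (1 / α) - 1 / 2)) ^ α
        ≤ ((1 / 2 : ℝ) ^ (1 / α)) ^ α := Real.rpow_le_rpow h3 h2 hα0.le
      _ = 1 / 2 := by
          rw [← Real.rpow_mul (by norm_num)]
          rw [one_div_mul_cancel hα0.ne', Real.rpow_one]

private lemma refine_hop_aux {α η : ℝ} (hα : 1 < α) (hη : 0 < η) (hη4 : η ≤ 1 / 4)
    (hηα : (1 / 2 + η) ^ α ≤ 1 / 2) (S : Set (RR d)) (h : ℝ) (hh : 0 < h) (n : ℕ) :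
    ∀ p q : RR d, ‖p - q‖ ≤ h * (4 / 3) ^ n → p ∈ S → q ∈ S →
    (∀ x : RR d, ‖x - p‖ ≤ 4 * ‖p - q‖ → ∃ y ∈ S, ‖y - x‖ ≤ η * h) →
    ∃ c, Wh α S h p q c ∧ c ≤ ‖p - q‖ ^ α := by
  induction n with
  | zero =>
    intro p q hpq hp hq _
    refine ⟨_, Wh.hop hp hq (by simpa using hpq), le_rfl⟩
  | succ n ih =>
    intro p q hpq hp hq hyp
    by_cases hc : ‖p - q‖ ≤ h
    · exact ⟨_, Wh.hop hp hq hc, le_rfl⟩
    · push Not at hc
      have hmid : ‖((1 / 2 : ℝ) • (p + q)) - p‖ = 1 / 2 * ‖p - q‖ := by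
        have : ((1 / 2 : ℝ) • (p + q)) - p = (-(1 / 2 : ℝ)) • (p - q) := by
          module
        rw [this, norm_smul]
        norm_num
      have hmid2 : ‖((1 / 2 : ℝ) • (p + q)) - q‖ = 1 / 2 * ‖p - q‖ := by
        have : ((1 / 2 : ℝ) • (p + q)) - q = ((1 / 2 : ℝ)) • (p - q) := by
          module
        rw [this, norm_smul]
        norm_num
      obtain ⟨y, hyS, hy⟩ := hyp ((1 / 2 : ℝ) • (p + q)) (by
        rw [hmid]
        have := norm_nonneg (p - q)
        linarith)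
      have hy' : ‖y - ((1 / 2 : ℝ) • (p + q))‖ ≤ η * ‖p - q‖ :=
        hy.trans (mul_le_mul_of_nonneg_left hc.le hη.le)
      have hpy : ‖p - y‖ ≤ (1 / 2 + η) * ‖p - q‖ := by
        have h1 : ‖p - y‖ ≤ ‖p - ((1 / 2 : ℝ) • (p + q))‖ + ‖((1 / 2 : ℝ) • (p + q)) - y‖ :=
          norm_sub_le_norm_sub_add_norm_sub _ _ _
        rw [norm_sub_rev p ((1 / 2 : ℝ) • (p + q)), hmid,
          norm_sub_rev ((1 / 2 : ℝ) • (p + q)) y] at h1
        linarith
      have hyq : ‖y - q‖ ≤ (1 / 2 + η) * ‖p - q‖ := by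
        have h1 : ‖y - q‖ ≤ ‖y - ((1 / 2 : ℝ) • (p + q))‖ + ‖((1 / 2 : ℝ) • (p + q)) - q‖ :=
          norm_sub_le_norm_sub_add_norm_sub _ _ _
        rw [hmid2] at h1
        linarith
      have hnn := norm_nonneg (p - q)
      have h34 : (1 / 2 + η) * ‖p - q‖ ≤ 3 / 4 * ‖p - q‖ :=
        mul_le_mul_of_nonneg_right (by linarith) hnn
      have hpow : 3 / 4 * ‖p - q‖ ≤ h * (4 / 3) ^ n := by
        have h1 : h * (4 / 3 : ℝ) ^ (n + 1) = 4 / 3 * (h * (4 / 3) ^ n) := by ring
        rw [h1] at hpq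
        linarith
      obtain ⟨c1, hw1, hc1⟩ := ih p y (by linarith) hp hyS (fun x hx => hyp x (by linarith))
      obtain ⟨c2, hw2, hc2⟩ := ih y q (by linarith) hyS hq (fun x hx => hyp x (by
        have h1 : ‖x - p‖ ≤ ‖x - y‖ + ‖y - p‖ := norm_sub_le_norm_sub_add_norm_sub _ _ _
        rw [norm_sub_rev y p] at h1
        linarith))
      refine ⟨c1 + c2, hw1.trans hw2, ?_⟩
      have hb : ((1 / 2 + η) * ‖p - q‖) ^ α ≤ 1 / 2 * ‖p - q‖ ^ α := by
        rw [Real.mul_rpow (by linarith) hnn]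
        exact mul_le_mul_of_nonneg_right hηα (Real.rpow_nonneg hnn _)
      have h1 : ‖p - y‖ ^ α ≤ ((1 / 2 + η) * ‖p - q‖) ^ α :=
        Real.rpow_le_rpow (norm_nonneg _) hpy (by linarith)
      have h2 : ‖y - q‖ ^ α ≤ ((1 / 2 + η) * ‖p - q‖) ^ α :=
        Real.rpow_le_rpow (norm_nonneg _) hyq (by linarith)
      linarith

private lemma refine_hop_eta {α η : ℝ} (hα : 1 < α) (hη : 0 < η) (hη4 : η ≤ 1 / 4)
    (hηα : (1 / 2 + η) ^ α ≤ 1 / 2) (S : Set (RR d))
    (h : ℝ) (p q : RR d) (hh : 0 < h) (hp : p ∈ S) (hq : q ∈ S)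
    (hyp : ∀ x : RR d, ‖x - p‖ ≤ 4 * ‖p - q‖ → ∃ y ∈ S, ‖y - x‖ ≤ η * h) :
    ∃ c, Wh α S h p q c ∧ c ≤ ‖p - q‖ ^ α := by
  obtain ⟨n, hn⟩ := pow_unbounded_of_one_lt (‖p - q‖ / h) (by norm_num : (1 : ℝ) < 4 / 3)
  refine refine_hop_aux hα hη hη4 hηα S h hh n p q ?_ hp hq hyp
  rw [div_lt_iff₀ hh] at hn
  linarith

theorem refine_hop {α : ℝ} (hα : 1 < α) : ∃ η : ℝ, 0 < η ∧ η ≤ 1 / 4 ∧ ∀ (S : Set (RR d))
    (h : ℝ) (p q : RR d), 0 < h → p ∈ S → q ∈ S →
    (∀ x : RR d, ‖x - p‖ ≤ 4 * ‖p - q‖ → ∃ y ∈ S, ‖y - x‖ ≤ η * h) →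
    ∃ c, Wh α S h p q c ∧ c ≤ ‖p - q‖ ^ α := by
  obtain ⟨η, hη, hη4, hηα⟩ := refine_eta hα
  exact ⟨η, hη, hη4, fun S h p q hh hp hq hyp =>
    refine_hop_eta hα hη hη4 hηα S h p q hh hp hq hyp⟩

theorem refine_walk {α : ℝ} (hα : 1 < α) : ∃ η : ℝ, 0 < η ∧ η ≤ 1 / 4 ∧ ∀ (S : Set (RR d))
    (h R : ℝ) (k : ℕ) (x : ℕ → RR d), 0 < h → (∀ i ≤ k, x i ∈ S) → (∀ i ≤ k, ‖x i‖ ≤ R / 10) →
    (∀ z : RR d, ‖z‖ ≤ R → ∃ y ∈ S, ‖y - z‖ ≤ η * h) →
    ∃ c, Wh α S h (x 0) (x k) c ∧ c ≤ ∑ i ∈ Finset.range k, ‖x i - x (i + 1)‖ ^ α := by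
  obtain ⟨η, hη, hη4, hηα⟩ := refine_eta hα
  refine ⟨η, hη, hη4, fun S h R k x hh hS hR hyp => ?_⟩
  induction k with
  | zero => exact ⟨0, Wh.refl (hS 0 le_rfl), by simp⟩
  | succ k ih =>
    obtain ⟨c1, hw1, hc1⟩ := ih (fun i hi => hS i (by omega)) (fun i hi => hR i (by omega))
    have hxk := hR k (by omega)
    have hxk1 := hR (k + 1) le_rfl
    have hnn := norm_nonneg (x k)
    have hdiff : ‖x k - x (k + 1)‖ ≤ R / 5 := by
      have := norm_sub_le (x k) (x (k + 1))
      linarith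
    obtain ⟨c2, hw2, hc2⟩ := refine_hop_eta hα hη hη4 hηα S h (x k) (x (k + 1)) hh
      (hS k (by omega)) (hS (k + 1) le_rfl) (fun z hz => hyp z (by
        have h1 : ‖z‖ ≤ ‖z - x k‖ + ‖x k‖ := by
          have := norm_add_le (z - x k) (x k)
          simpa using this
        linarith))
    refine ⟨c1 + c2, hw1.trans hw2, ?_⟩
    rw [Finset.sum_range_succ]
    linarith

end FPPX
end

section

/-! Chains of particles with short jumps do not go far. -/

namespace FPPX

open MeasureTheory ProbabilityTheory Filter Set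
open scoped Topology

variable {d : ℕ} {Λ : Measure (Cfg d)}

/-- the path with given increments -/
private def wbPath (n : ℕ) (b0 : V d) (e : Fin n → Fin d → Fin 3) (i : ℕ) : V d :=
  b0 + ∑ j ∈ Finset.range i, if h : j < n then (fun x => ((e ⟨j, h⟩ x : ℕ) : ℤ) - 1) else 0

private lemma wb_coord {v : V d} {r : ℝ} (h : nm v ≤ r) (i : Fin d) : |(v i : ℝ)| ≤ r := by
  have h1 : ‖tr v i‖ ≤ ‖tr v‖ := norm_le_pi_norm _ i
  simp only [tr, Real.norm_eq_abs] at h1
  exact h1.trans h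

private lemma wb_exists (n : ℕ) (b0 : V d) (c : ℕ → V d) (h0 : c 0 = b0)
    (hs : ∀ i < n, nm (c (i + 1) - c i) ≤ 1) :
    ∃ e : Fin n → Fin d → Fin 3, ∀ i ≤ n, wbPath n b0 e i = c i := by
  have hstep : ∀ i < n, ∀ x : Fin d, -1 ≤ c (i + 1) x - c i x ∧ c (i + 1) x - c i x ≤ 1 := by
    intro i hi x
    have h1 := wb_coord (hs i hi) x
    rw [abs_le] at h1
    simp only [Pi.sub_apply] at h1
    constructor
    · exact_mod_cast h1.1
    · exact_mod_cast h1.2
  refine ⟨fun j x => ⟨(c (j + 1) x - c j x + 1).toNat, ?_⟩, ?_⟩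
  · have := hstep j j.2 x
    omega
  · intro i hi
    induction i with
    | zero => simp [wbPath, h0]
    | succ i ih =>
      have hi' : i < n := hi
      have ih' := ih (by omega)
      unfold wbPath at *
      rw [Finset.sum_range_succ, ← add_assoc, ih', dif_pos hi']
      funext x
      have := hstep i hi' x
      simp only [Pi.add_apply]
      rw [Int.toNat_of_nonneg (by omega)]
      ring

/-- union bound over the paths of occupied boxes of level `3` -/
theorem occ_path (h : IsCellLaw Λ) (n : ℕ) (b0 : V d) :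
    (PP Λ).real {ω : Env d | ∃ c : ℕ → V d, c 0 = b0 ∧
      (∀ i ≤ n, (parts ω ∩ dbox 3 (c i)).Nonempty) ∧ (∀ i < n, nm (c (i + 1) - c i) ≤ 1) ∧
      ∀ i ≤ n, ∀ j ≤ n, c i = c j → i = j} ≤ ((3 / 8 : ℝ) ^ d) ^ n := by
  classical
  have := h.prob
  have hincl : {ω : Env d | ∃ c : ℕ → V d, c 0 = b0 ∧
      (∀ i ≤ n, (parts ω ∩ dbox 3 (c i)).Nonempty) ∧ (∀ i < n, nm (c (i + 1) - c i) ≤ 1) ∧
      ∀ i ≤ n, ∀ j ≤ n, c i = c j → i = j} ⊆
      ⋃ e : Fin n → Fin d → Fin 3, {ω | (∀ i ≤ n, (parts ω ∩ dbox 3 (wbPath n b0 e i)).Nonempty) ∧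
        ∀ i ≤ n, ∀ j ≤ n, wbPath n b0 e i = wbPath n b0 e j → i = j} := by
    rintro ω ⟨c, h0, h1, h2, h3⟩
    obtain ⟨e, he⟩ := wb_exists n b0 c h0 h2
    rw [mem_iUnion]
    refine ⟨e, fun i hi => ?_, fun i hi j hj hij => ?_⟩
    · rw [he i hi]; exact h1 i hi
    · rw [he i hi, he j hj] at hij; exact h3 i hi j hj hij
  have hone : ∀ e : Fin n → Fin d → Fin 3, (PP Λ).real
      {ω : Env d | (∀ i ≤ n, (parts ω ∩ dbox 3 (wbPath n b0 e i)).Nonempty) ∧
        ∀ i ≤ n, ∀ j ≤ n, wbPath n b0 e i = wbPath n b0 e j → i = j} ≤ ((1 / 8 : ℝ) ^ d) ^ n := by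
    intro e
    by_cases hinj : ∀ i ≤ n, ∀ j ≤ n, wbPath n b0 e i = wbPath n b0 e j → i = j
    · have h1 := occ_boxes h 3 ((Finset.range (n + 1)).image (wbPath n b0 e))
      rw [Finset.card_image_of_injOn, Finset.card_range] at h1
      · refine (measureReal_mono ?_ (measure_ne_top _ _)).trans (h1.trans ?_)
        · rintro ω ⟨h2, -⟩ b hb
          rw [Finset.mem_image] at hb
          obtain ⟨i, hi, rfl⟩ := hb
          rw [Finset.mem_range] at hi
          exact h2 i (by omega)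
        · have h3 : (((2 : ℝ) ^ (3 * d))⁻¹) = (1 / 8 : ℝ) ^ d := by
            rw [pow_mul, ← inv_pow]; norm_num
          rw [h3]
          refine pow_le_pow_of_le_one (by positivity) ?_ (by omega)
          exact pow_le_one₀ (by norm_num) (by norm_num)
      · intro i hi j hj hij
        rw [Finset.mem_coe, Finset.mem_range] at hi hj
        exact hinj i (by omega) j (by omega) hij
    · have h2 : {ω : Env d | (∀ i ≤ n, (parts ω ∩ dbox 3 (wbPath n b0 e i)).Nonempty) ∧
        ∀ i ≤ n, ∀ j ≤ n, wbPath n b0 e i = wbPath n b0 e j → i = j} = ∅ := by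
        ext ω
        simp only [mem_ofPred_eq, mem_empty_iff_false, iff_false, not_and]
        exact fun _ => hinj
      rw [h2, measureReal_empty]
      positivity
  calc _ ≤ (PP Λ).real (⋃ e : Fin n → Fin d → Fin 3,
        {ω | (∀ i ≤ n, (parts ω ∩ dbox 3 (wbPath n b0 e i)).Nonempty) ∧
        ∀ i ≤ n, ∀ j ≤ n, wbPath n b0 e i = wbPath n b0 e j → i = j}) :=
        measureReal_mono hincl (measure_ne_top _ _)
    _ ≤ ∑ e : Fin n → Fin d → Fin 3, (PP Λ).real
        {ω | (∀ i ≤ n, (parts ω ∩ dbox 3 (wbPath n b0 e i)).Nonempty) ∧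
        ∀ i ≤ n, ∀ j ≤ n, wbPath n b0 e i = wbPath n b0 e j → i = j} :=
        measureReal_iUnion_fintype_le _
    _ ≤ ∑ _e : Fin n → Fin d → Fin 3, ((1 / 8 : ℝ) ^ d) ^ n := Finset.sum_le_sum fun e _ => hone e
    _ = ((3 / 8 : ℝ) ^ d) ^ n := by
        rw [Finset.sum_const, Finset.card_univ, nsmul_eq_mul]
        simp only [Fintype.card_pi, Fintype.card_fin, Finset.prod_const, Finset.card_univ]
        push_cast
        rw [← mul_pow, ← mul_pow]
        norm_num

private lemma wb_int {v : V d} (h : nm v < 2) : nm v ≤ 1 := by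
  unfold nm
  rw [pi_norm_le_iff_of_nonneg (by norm_num)]
  intro i
  have h1 := wb_coord (le_refl (nm v)) i
  have h2 : |(v i : ℝ)| < 2 := h1.trans_lt h
  simp only [tr, Real.norm_eq_abs]
  have h3 : |v i| < 2 := by exact_mod_cast h2
  have h4 : |v i| ≤ 1 := by omega
  exact_mod_cast h4

theorem weakB (h : IsCellLaw Λ) (hd : 1 ≤ d) : ∃ C : ℝ, 0 ≤ C ∧ ∀ ρ D : ℝ, 1 ≤ ρ → 0 ≤ D →
    (PP Λ).real {ω : Env d | ∃ (k : ℕ) (x : ℕ → RR d), (∀ i ≤ k, x i ∈ parts ω) ∧ ‖x 0‖ ≤ ρ ∧
      (∀ i < k, ‖x i - x (i + 1)‖ < 1 / 8) ∧ D < ‖x k - x 0‖} ≤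
        C * ρ ^ d * (1 / 2 : ℝ) ^ D := by
  have := h.prob
  refine ⟨27 ^ d * (8 / 3 : ℝ) ^ (2 * d), by positivity, ?_⟩
  intro ρ D hρ hD
  have hd0 : (0 : ℝ) < d := by exact_mod_cast hd
  set n : ℕ := ⌊8 * D / d - 1⌋₊ with hn
  have hfin : {b : V d | nm b ≤ 8 * ρ + 5}.Finite := finite_bl _
  have hincl : {ω : Env d | ∃ (k : ℕ) (x : ℕ → RR d), (∀ i ≤ k, x i ∈ parts ω) ∧ ‖x 0‖ ≤ ρ ∧
      (∀ i < k, ‖x i - x (i + 1)‖ < 1 / 8) ∧ D < ‖x k - x 0‖} ⊆
      ⋃ b0 ∈ hfin.toFinset, {ω : Env d | ∃ c : ℕ → V d, c 0 = b0 ∧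
      (∀ i ≤ n, (parts ω ∩ dbox 3 (c i)).Nonempty) ∧ (∀ i < n, nm (c (i + 1) - c i) ≤ 1) ∧
      ∀ i ≤ n, ∀ j ≤ n, c i = c j → i = j} := by
    rintro ω ⟨k, x, hx, hx0, hs, hxD⟩
    rw [mem_iUnion₂]
    have h1 : ∀ i < k, nm (dix 3 (x (i + 1)) - dix 3 (x i)) ≤ 1 := by
      intro i hi
      apply wb_int
      have h2 := nm_dix_sub 3 (x (i + 1)) (x i)
      have h3 := hs i hi
      rw [norm_sub_rev] at h3
      norm_num at h2
      linarith
    have h2 : (n : ℝ) ≤ nm (dix 3 (x k) - dix 3 (x 0)) := by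
      rcases le_or_gt 0 (8 * D / d - 1) with h3 | h3
      · have h4 : (n : ℝ) ≤ 8 * D / d - 1 := Nat.floor_le h3
        have h5 := le_nm_dix_sub 3 (x k) (x 0)
        have h6 : 8 * D / d ≤ 2 ^ 3 * ‖x k - x 0‖ / d := by
          refine div_le_div_of_nonneg_right ?_ hd0.le
          linarith
        linarith
      · have h4 : n = 0 := Nat.floor_of_nonpos h3.le
        rw [h4]
        simpa using nm_nonneg _
    obtain ⟨c, hc0, hc1, hc2, hc3⟩ := walk_to_path
      {b : V d | (parts ω ∩ dbox 3 b).Nonempty} k (fun i => dix 3 (x i))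
      (fun i hi => ⟨x i, hx i hi, mem_dbox 3 (x i)⟩) h1 n h2
    refine ⟨dix 3 (x 0), ?_, c, hc0, hc1, hc2, hc3⟩
    rw [Set.Finite.mem_toFinset, mem_ofPred_eq]
    have h3 := nm_dix_sub 3 (x 0) 0
    rw [sub_zero] at h3
    have h4 : nm (dix (d := d) 3 0) ≤ 4 := by
      unfold nm
      rw [pi_norm_le_iff_of_nonneg (by norm_num)]
      intro i
      have : (dix (d := d) 3 0) i = 4 := by
        unfold dix
        have h7 : ((0 : RR d) i + 1 / 2) * 2 ^ 3 = ((4 : ℤ) : ℝ) := by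
          simp; norm_num
        rw [h7, Int.floor_intCast]
      simp only [tr, this]
      norm_num
    have h5 : nm (dix 3 (x 0)) ≤ nm (dix 3 (x 0) - dix 3 0) + nm (dix (d := d) 3 0) := by
      have := nm_add (dix 3 (x 0) - dix 3 0) (dix (d := d) 3 0)
      rwa [sub_add_cancel] at this
    norm_num at h3
    linarith
  have hcount : (hfin.toFinset.card : ℝ) ≤ (27 * ρ) ^ d := by
    rw [← Set.ncard_eq_toFinset_card _ hfin]
    refine (card_bl (8 * ρ + 5) (by linarith)).trans ?_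
    exact pow_le_pow_left₀ (by linarith) (by linarith) d
  have hpow : ((3 / 8 : ℝ) ^ d) ^ n ≤ (8 / 3 : ℝ) ^ (2 * d) * (1 / 2 : ℝ) ^ D := by
    have h1 : 8 * D - 2 * d ≤ d * n := by
      have h2 : 8 * D / d - 1 < n + 1 := Nat.lt_floor_add_one _
      have h3 : 8 * D / d < n + 2 := by linarith
      rw [div_lt_iff₀ hd0] at h3
      nlinarith
    calc ((3 / 8 : ℝ) ^ d) ^ n = (3 / 8 : ℝ) ^ ((d * n : ℕ) : ℝ) := by
          rw [Real.rpow_natCast, pow_mul]
      _ ≤ (3 / 8 : ℝ) ^ (8 * D - 2 * d) := by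
          refine Real.rpow_le_rpow_of_exponent_ge (by norm_num) (by norm_num) ?_
          push_cast
          exact h1
      _ = (8 / 3 : ℝ) ^ (2 * d) * ((3 / 8 : ℝ) ^ 8) ^ D := by
          rw [Real.rpow_sub (by norm_num), Real.rpow_mul (by norm_num), div_eq_mul_inv, mul_comm]
          congr 1
          · rw [show (2 * (d : ℝ)) = ((2 * d : ℕ) : ℝ) by push_cast; ring, Real.rpow_natCast,
              ← inv_pow]
            norm_num
          · rw [show (8 : ℝ) = ((8 : ℕ) : ℝ) by norm_num, Real.rpow_natCast]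
      _ ≤ (8 / 3 : ℝ) ^ (2 * d) * (1 / 2 : ℝ) ^ D := by
          refine mul_le_mul_of_nonneg_left ?_ (by positivity)
          exact Real.rpow_le_rpow (by norm_num) (by norm_num) hD
  calc _ ≤ (PP Λ).real (⋃ b0 ∈ hfin.toFinset, {ω : Env d | ∃ c : ℕ → V d, c 0 = b0 ∧
      (∀ i ≤ n, (parts ω ∩ dbox 3 (c i)).Nonempty) ∧ (∀ i < n, nm (c (i + 1) - c i) ≤ 1) ∧
      ∀ i ≤ n, ∀ j ≤ n, c i = c j → i = j}) := measureReal_mono hincl (measure_ne_top _ _)
    _ ≤ ∑ b0 ∈ hfin.toFinset, (PP Λ).real {ω : Env d | ∃ c : ℕ → V d, c 0 = b0 ∧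
      (∀ i ≤ n, (parts ω ∩ dbox 3 (c i)).Nonempty) ∧ (∀ i < n, nm (c (i + 1) - c i) ≤ 1) ∧
      ∀ i ≤ n, ∀ j ≤ n, c i = c j → i = j} := measureReal_biUnion_finset_le _ _
    _ ≤ ∑ _b0 ∈ hfin.toFinset, ((3 / 8 : ℝ) ^ d) ^ n :=
        Finset.sum_le_sum fun b0 _ => occ_path h n b0
    _ = hfin.toFinset.card * ((3 / 8 : ℝ) ^ d) ^ n := by
        rw [Finset.sum_const, nsmul_eq_mul]
    _ ≤ (27 * ρ) ^ d * ((8 / 3 : ℝ) ^ (2 * d) * (1 / 2 : ℝ) ^ D) :=
        mul_le_mul hcount hpow (by positivity) (by positivity)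
    _ = 27 ^ d * (8 / 3 : ℝ) ^ (2 * d) * ρ ^ d * (1 / 2 : ℝ) ^ D := by
        rw [mul_pow]; ring

end FPPX
end
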