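import Pool.Agent.Lib.MP_fa364e_pr.Mg.G008
import Pool.Agent.Lib.MP_fa364e_pr.Mg.G002
import Pool.Agent.Lib.MP_fa364e_pr.Mg.G009
import Pool.Agent.Lib.MP_fa364e_pr.Mg.G012
import Pool.Agent.Lib.MP_fa364e_pr.Mg.G015
import Pool.Agent.Lib.MP_fa364e_pr.Mg.G001

section

/-! Linear upper bound with super-polynomially small error probability. -/

namespace FPPX

open MeasureTheory ProbabilityTheory Filter Set
open scoped Topology

variable {d : ℕ} {Ω : Type} [MeasurableSpace Ω] {P : Measure Ω} [IsProbabilityMeasure P]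

/-- the block from `u` to `v` is bad -/
def LRM.UpLinBad (M : LRM d P) (m s : ℝ) (u v : V d) : Set Ω :=
  (M.LE (bl u (M.Cl * (2 * m))) u v (M.μ (tr (v - u)) + s))ᶜ

theorem LRM.UpLin_meas (M : LRM d P) (m s : ℝ) (u v : V d) :
    MeasurableSet[M.F (bl u (M.Cl * (2 * m)))] (M.UpLinBad m s u v) :=
  (M.LE_meas _ _ _ _).compl

/-- bad blocks are unlikely -/
theorem LRM.UpLin_p (M : LRM d P) (e δ : ℝ) (he : 0 < e) (hδ : 0 < δ) :
    ∀ᶠ m : ℝ in atTop, ∀ u v : V d, nm (v - u) ≤ 2 * m →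
      P.real (M.UpLinBad m (e * m) u v) ≤ δ := by
  have h2 : Tendsto (fun m : ℝ => 2 * m) atTop atTop := tendsto_id.const_mul_atTop two_pos
  have t1 := ((M.toPreLRM.S1up (e / 4) (by linarith)).comp h2).eventually_lt_const
    (show (0 : ℝ) < δ / 2 by linarith)
  have t2 := h2.eventually ((M.loc' 0 (1 / 2) (by norm_num)).lt (show (0 : ℝ) < δ / 2 by linarith))
  have t3 := h2.eventually (ev_rpow_le 1 (show (0 : ℝ) < e / 4 by linarith)
    (show (1 : ℝ) / 2 < 1 by norm_num))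
  filter_upwards [t1, t2, t3, eventually_ge_atTop 0] with m hm1 hm2 hm3 hm4 u v huv
  rw [Function.comp_apply] at hm1
  rw [Real.rpow_one, one_mul] at hm3
  have hsub : M.UpLinBad m (e * m) u v ⊆ M.θ u ⁻¹'
      ({ω | ∃ z : V d, nm z ≤ 2 * m ∧ M.μ (tr z) + e / 4 * (2 * m) < M.t ω 0 z} ∪
      {ω | ∃ u v w : V d, nm u ≤ (2 * m) ^ (0 : ℝ) ∧ nm (v - u) ≤ 2 * m ∧ nm (w - u) ≤ 2 * m ∧
        ω ∉ M.LE (bl u (M.Cl * (2 * m))) v w (M.t ω v w + (2 * m) ^ ((1 : ℝ) / 2))}) := by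
    intro ω hω
    by_contra hcon
    rw [mem_preimage, mem_union, not_or] at hcon
    obtain ⟨g1, g2⟩ := hcon
    simp only [mem_ofPred_eq, not_exists, not_and, not_lt, not_not] at g1 g2
    have k1 := g1 (v - u) huv
    have k2 := g2 0 0 (v - u) (by rw [nm_zero, Real.rpow_zero]; norm_num)
      (by rw [sub_zero, nm_zero]; linarith) (by rwa [sub_zero])
    apply hω
    have k3 : M.θ u ω ∈ M.LE (bl 0 (M.Cl * (2 * m))) 0 (v - u) (M.μ (tr (v - u)) + e * m) :=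
      M.LE_mono _ _ _ _ _ _ Subset.rfl (by linarith) k2
    have k4 := M.LE_shift u (bl 0 (M.Cl * (2 * m))) 0 (v - u) (M.μ (tr (v - u)) + e * m)
    rw [sh_bl, zero_add, sub_add_cancel] at k4
    rw [← k4]
    exact k3
  refine (measureReal_mono hsub).trans ((real_preimage_le M.toPreLRM u _).trans
    ((measureReal_union_le _ _).trans ?_))
  linarith

/-- many bad blocks are very unlikely -/
theorem LRM.UpLin_many (M : LRM d P) (k : ℕ) (y : ℕ → V d) (m s δ : ℝ) (hδ : 0 ≤ δ)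
    (L b : ℕ) (hL : 1 ≤ L)
    (hsep : ∀ i j, i + L ≤ j → j < k → 2 * (M.Cl * (2 * m)) < nm (y j - y i))
    (hp : ∀ j, j < k → P.real (M.UpLinBad m s (y j) (y (j + 1))) ≤ δ) :
    P.real {ω | ∃ I : Finset ℕ, I ⊆ Finset.range k ∧ b * L ≤ I.card ∧
      ∀ j ∈ I, ω ∈ M.UpLinBad m s (y j) (y (j + 1))} ≤ 2 ^ k * δ ^ b := by
  classical
  set G : Finset ℕ → Set Ω := fun J => {ω | ∃ f : Fin b → ℕ, Finset.univ.image f = J ∧
    (∀ i, f i < k) ∧ (∀ i j, i < j → f i + L ≤ f j) ∧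
      ∀ i, ω ∈ M.UpLinBad m s (y (f i)) (y (f i + 1))} with hG
  have hsub : {ω | ∃ I : Finset ℕ, I ⊆ Finset.range k ∧ b * L ≤ I.card ∧
      ∀ j ∈ I, ω ∈ M.UpLinBad m s (y j) (y (j + 1))} ⊆
      ⋃ J ∈ (Finset.range k).powerset, G J := by
    rintro ω ⟨I, hI, hb, hω⟩
    obtain ⟨f, hf1, hf2⟩ := sep_indices I b L hL hb
    refine mem_iUnion₂.2 ⟨Finset.univ.image f, ?_, f, rfl, fun i => ?_, hf2, fun i => hω _ (hf1 i)⟩
    · rw [Finset.mem_powerset]
      intro j hj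
      obtain ⟨i, _, rfl⟩ := Finset.mem_image.1 hj
      exact hI (hf1 i)
    · exact Finset.mem_range.1 (hI (hf1 i))
  have hGp : ∀ J ∈ (Finset.range k).powerset, P.real (G J) ≤ δ ^ b := by
    intro J _
    by_cases hex : ∃ f : Fin b → ℕ, Finset.univ.image f = J ∧
      (∀ i, f i < k) ∧ (∀ i j, i < j → f i + L ≤ f j)
    · obtain ⟨f, hf1, hf2, hf3⟩ := hex
      have hs : G J ⊆ ⋂ i, M.UpLinBad m s (y (f i)) (y (f i + 1)) := by
        rintro ω ⟨f', hf'1, _, _, hω⟩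
        rw [mem_iInter]
        intro i
        have h1 : f i ∈ Finset.univ.image f' := by
          rw [hf'1, ← hf1]
          exact Finset.mem_image_of_mem _ (Finset.mem_univ i)
        obtain ⟨i', _, hi'⟩ := Finset.mem_image.1 h1
        rw [← hi']
        exact hω i'
      refine (measureReal_mono hs).trans ?_
      refine M.toPreLRM.prob_inter b (fun i => bl (y (f i)) (M.Cl * (2 * m))) ?_ _
        (fun i => M.UpLin_meas m s _ _) δ hδ (fun i => hp _ (hf2 i))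
      have hd : ∀ i j, i < j → Disjoint (bl (y (f i)) (M.Cl * (2 * m)))
          (bl (y (f j)) (M.Cl * (2 * m))) := by
        intro i j hij
        rw [Set.disjoint_left]
        intro z hz1 hz2
        have h1 := hsep _ _ (hf3 i j hij) (hf2 j)
        have h2 : nm (y (f j) - y (f i)) ≤ nm (z - y (f i)) + nm (z - y (f j)) := by
          have := nm_sub_le (z - y (f i)) (z - y (f j))
          rwa [sub_sub_sub_cancel_left] at this
        have h3 : nm (z - y (f i)) ≤ M.Cl * (2 * m) := hz1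
        have h4 : nm (z - y (f j)) ≤ M.Cl * (2 * m) := hz2
        linarith
      intro i j hij
      rcases lt_or_gt_of_ne hij with h | h
      · exact hd i j h
      · exact (hd j i h).symm
    · have hs : G J = ∅ := by
        rw [eq_empty_iff_forall_notMem]
        rintro ω ⟨f, hf1, hf2, hf3, _⟩
        exact hex ⟨f, hf1, hf2, hf3⟩
      rw [hs, measureReal_empty]
      positivity
  refine (measureReal_mono hsub (measure_ne_top P _)).trans
    ((measureReal_biUnion_finset_le _ _).trans ?_)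
  refine (Finset.sum_le_sum hGp).trans ?_
  rw [Finset.sum_const, Finset.card_powerset, Finset.card_range, nsmul_eq_mul]
  push_cast
  exact le_rfl

omit [IsProbabilityMeasure P] in
theorem PreLRM.UpLin_tri (M : PreLRM d P) (ω : Ω) (y : ℕ → V d) (n : ℕ) :
    M.t ω (y 0) (y n) ≤ ∑ j ∈ Finset.range n, M.t ω (y j) (y (j + 1)) := by
  induction n with
  | zero => simp [M.t_self]
  | succ n ih =>
    rw [Finset.sum_range_succ]
    have := M.t_tri ω (y 0) (y n) (y (n + 1))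
    linarith

theorem LRM.UpLin (M : LRM d P) (ε : ℝ) (hε : 0 < ε) :
    Negl P (fun r => {ω | ∃ v : V d, nm v ≤ r ∧ M.μ (tr v) + ε * r < M.t ω 0 v}) := by
  classical
  have hC1 := M.one_le_C1
  have hC0 : 0 < M.C1 := by linarith
  have hCl := M.one_le_Cl
  -- constants
  obtain ⟨e, he⟩ : ∃ e : ℝ, e = ε / 8 := ⟨_, rfl⟩
  have he0 : 0 < e := by rw [he]; linarith
  obtain ⟨η, hη⟩ : ∃ η : ℝ, η = ε / (8 * M.C1) := ⟨_, rfl⟩
  have hη0 : 0 < η := by rw [hη]; positivity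
  have hη1 : η * M.C1 = ε / 8 := by rw [hη]; field_simp
  obtain ⟨L, hL⟩ : ∃ L : ℕ, L = ⌈8 * M.Cl + 4⌉₊ := ⟨_, rfl⟩
  have hLr : 8 * M.Cl + 4 ≤ L := by rw [hL]; exact Nat.le_ceil _
  have hL1 : 1 ≤ L := by
    have : (1 : ℝ) ≤ L := by linarith
    exact_mod_cast this
  have hL0 : (0 : ℝ) < L := by linarith
  obtain ⟨N, hN⟩ : ∃ N : ℕ, N = ⌈4 * L / η⌉₊ := ⟨_, rfl⟩
  have hNr : 4 * L / η ≤ N := by rw [hN]; exact Nat.le_ceil _
  obtain ⟨δ, hδ⟩ : ∃ δ : ℝ, δ = (1 / 2) ^ (N + 1) := ⟨_, rfl⟩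
  have hδ0 : 0 < δ := by rw [hδ]; positivity
  -- the event is contained in the union of two
  refine Negl.mono (B' := fun r => {ω | ∃ u v : V d, nm u ≤ r ^ (2 : ℝ) ∧ nm v ≤ r ^ (2 : ℝ) ∧
      M.C1 * max (nm (v - u)) (r ^ ((1 : ℝ) / 4)) < M.t ω u v} ∪
    {ω | ∃ v : V d, nm v ≤ r ∧ (¬ ∃ u v : V d, nm u ≤ r ^ (2 : ℝ) ∧ nm v ≤ r ^ (2 : ℝ) ∧
      M.C1 * max (nm (v - u)) (r ^ ((1 : ℝ) / 4)) < M.t ω u v) ∧
        M.μ (tr v) + ε * r < M.t ω 0 v}) ?_ ((M.toPreLRM.UL 2 (1 / 4) (by norm_num)).union ?_)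
  · refine Eventually.of_forall fun r ω hω => ?_
    obtain ⟨v, hv1, hv2⟩ := hω
    by_cases h : ω ∈ {ω | ∃ u v : V d, nm u ≤ r ^ (2 : ℝ) ∧ nm v ≤ r ^ (2 : ℝ) ∧
      M.C1 * max (nm (v - u)) (r ^ ((1 : ℝ) / 4)) < M.t ω u v}
    · exact Or.inl h
    · exact Or.inr ⟨v, hv1, h, hv2⟩
  refine Negl.of_poly (2 * d) fun K => ?_
  -- the scales
  have hm : Tendsto (fun r : ℝ => r ^ ((1 : ℝ) / 2)) atTop atTop :=
    tendsto_rpow_atTop (by norm_num)
  have t1 := hm.eventually (M.UpLin_p e δ he0 hδ0)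
  have t2 : ∀ᶠ r : ℝ in atTop, 2 * L / η ≤ r ^ ((1 : ℝ) / 2) := hm.eventually_ge_atTop _
  have t3 : ∀ᶠ r : ℝ in atTop, |M.CM| * 2 ≤ ε / 4 * r ^ ((1 : ℝ) / 2) := by
    filter_upwards [ev_const_le (|M.CM| * 2) (show (0 : ℝ) < ε / 4 by linarith)
      (show (0 : ℝ) < 1 / 2 by norm_num)] with r hr using hr
  have t4 := ev_geom (q := 1 / 2) (by norm_num) (show (0 : ℝ) < 1 / 2 by norm_num)
    (show (0 : ℝ) < η / (2 * L) by positivity) K
  filter_upwards [t1, t2, t3, t4, eventually_ge_atTop 3] with r hr1 hr2 hr3 hr4 hr5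
  have hr0 : 0 < r := by linarith
  obtain ⟨m, hmdef⟩ : ∃ m : ℝ, m = r ^ ((1 : ℝ) / 2) := ⟨_, rfl⟩
  rw [← hmdef] at hr1 hr2 hr3 hr4
  have hm1 : 1 ≤ m := by
    rw [hmdef]
    exact Real.one_le_rpow (by linarith) (by norm_num)
  have hm0 : 0 < m := by linarith
  have hmm : m * m = r := by
    rw [hmdef, ← Real.rpow_add hr0]
    norm_num
  have hm4 : r ^ ((1 : ℝ) / 4) ≤ m := by
    rw [hmdef]
    exact Real.rpow_le_rpow_of_exponent_le (by linarith) (by norm_num)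
  obtain ⟨b, hb⟩ : ∃ b : ℕ, b = ⌊η * m / L⌋₊ := ⟨_, rfl⟩
  have hb1 : (b : ℝ) ≤ η * m / L := by
    rw [hb]
    exact Nat.floor_le (by positivity)
  have hb2 : η * m / L < b + 1 := by
    rw [hb]
    exact Nat.lt_floor_add_one _
  have hb3 : 2 ≤ η * m / L := by
    rw [le_div_iff₀ hL0]
    rw [div_le_iff₀ hη0] at hr2
    linarith
  have hb4 : η / (2 * L) * m ≤ b := by
    have : η / (2 * L) * m = η * m / L / 2 := by
      field_simp
    rw [this]
    linarith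
  have hgeom := hr4 b hb4 (by norm_num)
  -- the bound for one point
  have hone : ∀ x : V d, nm x ≤ r → P.real {ω | (¬ ∃ u v : V d, nm u ≤ r ^ (2 : ℝ) ∧
      nm v ≤ r ^ (2 : ℝ) ∧ M.C1 * max (nm (v - u)) (r ^ ((1 : ℝ) / 4)) < M.t ω u v) ∧
        M.μ (tr x) + ε * r < M.t ω 0 x} ≤ r ^ (-(K : ℝ)) := by
    intro x hx
    by_cases hx0 : x = 0
    · have h1 : {ω | (¬ ∃ u v : V d, nm u ≤ r ^ (2 : ℝ) ∧
        nm v ≤ r ^ (2 : ℝ) ∧ M.C1 * max (nm (v - u)) (r ^ ((1 : ℝ) / 4)) < M.t ω u v) ∧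
        M.μ (tr x) + ε * r < M.t ω 0 x} = ∅ := by
        rw [eq_empty_iff_forall_notMem]
        rintro ω ⟨_, hω⟩
        rw [hx0, M.t_self] at hω
        have h2 := M.isNm.lb (tr (0 : V d))
        have h3 := M.isNm.cpos
        have h4 : 0 ≤ M.cm * ‖tr (0 : V d)‖ := by positivity
        have h5 : 0 < ε * r := by positivity
        have h6 : 0 ≤ M.μ (tr (0 : V d)) := h4.trans h2
        linarith
      rw [h1, measureReal_empty]
      positivity
    obtain ⟨k, y, hk1, hk2, hy0, hyk, hy1, hy2, hy3, hy4⟩ := blocks M.isNm x hx0 m hm1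
    have hk3 : (k : ℝ) ≤ 2 * m := by
      have h1 : nm x / m ≤ m := by
        rw [div_le_iff₀ hm0, hmm]
        exact hx
      linarith
    have hkN : k ≤ N * b := by
      have h1 : (k : ℝ) ≤ N * b := by
        have h2 : 2 * m ≤ 4 * L / η * b := by
          have h3 : η * m ≤ 2 * L * b := by
            have h4 : η * m / L ≤ 2 * b := by linarith
            rw [div_le_iff₀ hL0] at h4
            linarith
          have h5 : 4 * L / η * b = 2 * (2 * L * b) / η := by ring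
          rw [h5, le_div_iff₀ hη0]
          linarith
        have h6 : 4 * L / η * (b : ℝ) ≤ N * b := mul_le_mul_of_nonneg_right hNr (Nat.cast_nonneg b)
        linarith
      exact_mod_cast h1
    have hprob := M.UpLin_many k y m (e * m) δ hδ0.le L b hL1 (by
        intro i j hij hjk
        have h1 := hy3 i j (by omega) hjk
        have h2 : (L : ℝ) ≤ (j : ℝ) - i := by
          have : ((i + L : ℕ) : ℝ) ≤ j := by exact_mod_cast hij
          push_cast at this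
          linarith
        have h3 : (8 * M.Cl + 4) * (m / 2) ≤ ((j : ℝ) - i) * (m / 2) :=
          mul_le_mul_of_nonneg_right (by linarith) (by linarith)
        nlinarith) (by
        intro j hj
        apply hr1
        have := hy1 j hj
        linarith)
    have hpow : (2 : ℝ) ^ k * δ ^ b ≤ (1 / 2) ^ b := by
      have h1 : (2 : ℝ) ^ k ≤ 2 ^ (N * b) := pow_le_pow_right₀ (by norm_num) hkN
      have h2 : (2 : ℝ) ^ (N * b) * δ ^ b = (1 / 2) ^ b := by
        rw [hδ, pow_mul, ← mul_pow]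
        congr 1
        rw [pow_succ, ← mul_assoc, ← mul_pow]
        norm_num
      calc (2 : ℝ) ^ k * δ ^ b ≤ 2 ^ (N * b) * δ ^ b :=
            mul_le_mul_of_nonneg_right h1 (by positivity)
        _ = (1 / 2) ^ b := h2
    refine (measureReal_mono ?_).trans (hprob.trans (hpow.trans hgeom))
    rintro ω ⟨hU, hω⟩
    push Not at hU
    refine ⟨(Finset.range k).filter (fun j => ω ∈ M.UpLinBad m (e * m) (y j) (y (j + 1))),
      Finset.filter_subset _ _, ?_, fun j hj => (Finset.mem_filter.1 hj).2⟩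
    by_contra hcard
    push Not at hcard
    -- the deterministic estimate
    have hU' : ∀ j, j < k → M.t ω (y j) (y (j + 1)) ≤ M.C1 * (2 * m) := by
      intro j hj
      have h1 : nm (y j) ≤ r ^ (2 : ℝ) := by
        have := hy2 j hj.le
        rw [Real.rpow_two]
        nlinarith
      have h2 : nm (y (j + 1)) ≤ r ^ (2 : ℝ) := by
        have := hy2 (j + 1) hj
        rw [Real.rpow_two]
        nlinarith
      refine (hU _ _ h1 h2).trans (mul_le_mul_of_nonneg_left (max_le ?_ ?_) hC0.le)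
      · have := hy1 j hj
        linarith
      · linarith
    have hblock : ∀ j ∈ Finset.range k, M.t ω (y j) (y (j + 1)) ≤
        M.μ (tr (y (j + 1) - y j)) + e * m +
          if ω ∈ M.UpLinBad m (e * m) (y j) (y (j + 1)) then M.C1 * (2 * m) else 0 := by
      intro j hj
      rw [Finset.mem_range] at hj
      split_ifs with hbad
      · have h1 := M.isNm.lb (tr (y (j + 1) - y j))
        have h2 := M.isNm.cpos
        have h3 : 0 ≤ M.cm * ‖tr (y (j + 1) - y j)‖ := by positivity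
        have h4 := hU' j hj
        have h5 : 0 < e * m := by positivity
        have h6 := h3.trans h1
        linarith
      · have h1 : ω ∈ M.LE (bl (y j) (M.Cl * (2 * m))) (y j) (y (j + 1))
            (M.μ (tr (y (j + 1) - y j)) + e * m) := by
          by_contra h2
          exact hbad h2
        have := M.LE_t _ _ _ _ _ h1
        linarith
    have h1 := M.toPreLRM.UpLin_tri ω y k
    rw [hy0, hyk] at h1
    have h2 := h1.trans (Finset.sum_le_sum hblock)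
    rw [Finset.sum_add_distrib, Finset.sum_add_distrib, Finset.sum_const, Finset.card_range,
      nsmul_eq_mul, ← Finset.sum_filter, Finset.sum_const, nsmul_eq_mul] at h2
    have h3 : (((Finset.range k).filter
        (fun j => ω ∈ M.UpLinBad m (e * m) (y j) (y (j + 1)))).card : ℝ) ≤ η * m := by
      have h4 : (((Finset.range k).filter
        (fun j => ω ∈ M.UpLinBad m (e * m) (y j) (y (j + 1)))).card : ℝ) ≤ (b * L : ℕ) := by
        exact_mod_cast hcard.le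
      refine h4.trans ?_
      push_cast
      rw [le_div_iff₀ hL0] at hb1
      exact hb1
    have h4 : (((Finset.range k).filter
        (fun j => ω ∈ M.UpLinBad m (e * m) (y j) (y (j + 1)))).card : ℝ) * (M.C1 * (2 * m)) ≤
        ε / 4 * r := by
      calc _ ≤ (η * m) * (M.C1 * (2 * m)) := mul_le_mul_of_nonneg_right h3 (by positivity)
        _ = 2 * (η * M.C1) * (m * m) := by ring
        _ = ε / 4 * r := by rw [hη1, hmm]; ring
    have h5 : (k : ℝ) * (e * m) ≤ ε / 4 * r := by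
      calc (k : ℝ) * (e * m) ≤ (2 * m) * (e * m) := mul_le_mul_of_nonneg_right hk3 (by positivity)
        _ = 2 * e * (m * m) := by ring
        _ = ε / 4 * r := by rw [he, hmm]; ring
    have h6 : M.CM * k ≤ ε / 4 * r := by
      calc M.CM * k ≤ |M.CM| * k := mul_le_mul_of_nonneg_right (le_abs_self _) (Nat.cast_nonneg k)
        _ ≤ |M.CM| * (2 * m) := mul_le_mul_of_nonneg_left hk3 (abs_nonneg _)
        _ = (|M.CM| * 2) * m := by ring
        _ ≤ (ε / 4 * m) * m := mul_le_mul_of_nonneg_right hr3 hm0.le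
        _ = ε / 4 * r := by rw [mul_assoc, hmm]
    have h7 : 0 < ε * r := by positivity
    linarith
  -- union over the points
  have hfin := finite_bl (d := d) r
  have hsub : {ω | ∃ v : V d, nm v ≤ r ∧ (¬ ∃ u v : V d, nm u ≤ r ^ (2 : ℝ) ∧
      nm v ≤ r ^ (2 : ℝ) ∧ M.C1 * max (nm (v - u)) (r ^ ((1 : ℝ) / 4)) < M.t ω u v) ∧
        M.μ (tr v) + ε * r < M.t ω 0 v} ⊆ ⋃ x ∈ hfin.toFinset,
      {ω | (¬ ∃ u v : V d, nm u ≤ r ^ (2 : ℝ) ∧
      nm v ≤ r ^ (2 : ℝ) ∧ M.C1 * max (nm (v - u)) (r ^ ((1 : ℝ) / 4)) < M.t ω u v) ∧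
        M.μ (tr x) + ε * r < M.t ω 0 x} := by
    rintro ω ⟨v, hv, hω⟩
    exact mem_iUnion₂.2 ⟨v, hfin.mem_toFinset.2 hv, hω⟩
  refine (measureReal_mono hsub (measure_ne_top P _)).trans
    ((measureReal_biUnion_finset_le _ _).trans ?_)
  have hsum : ∑ x ∈ hfin.toFinset, P.real {ω | (¬ ∃ u v : V d, nm u ≤ r ^ (2 : ℝ) ∧
      nm v ≤ r ^ (2 : ℝ) ∧ M.C1 * max (nm (v - u)) (r ^ ((1 : ℝ) / 4)) < M.t ω u v) ∧
        M.μ (tr x) + ε * r < M.t ω 0 x} ≤ ∑ _x ∈ hfin.toFinset, r ^ (-(K : ℝ)) :=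
    Finset.sum_le_sum fun x hx => hone x (hfin.mem_toFinset.1 hx)
  refine hsum.trans ?_
  rw [Finset.sum_const, nsmul_eq_mul]
  apply mul_le_mul_of_nonneg_right _ (by positivity)
  have h1 := card_bl (d := d) r hr0.le
  rw [← Set.ncard_eq_toFinset_card _ hfin]
  refine h1.trans ?_
  have h2 : r ^ (2 * (d : ℝ)) = (r ^ 2) ^ d := by
    rw [Real.rpow_mul hr0.le, Real.rpow_two, Real.rpow_natCast]
  rw [h2]
  apply pow_le_pow_left₀ (by positivity)
  nlinarith

end FPPX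
end

section

/-! Almost sure statements. -/

namespace FPPX

open MeasureTheory ProbabilityTheory Filter Set
open scoped Topology

variable {d : ℕ} {Ω : Type} [MeasurableSpace Ω] {P : Measure Ω} [IsProbabilityMeasure P]

/-- almost sure two-sided control with exponent `κ` -/
def PreLRM.AS (M : PreLRM d P) (κ : ℝ) : Prop :=
  ∀ᵐ ω ∂P, ∀ᶠ r : ℝ in atTop, ∀ v : V d, nm v ≤ r → |M.t ω 0 v - M.μ (tr v)| ≤ r ^ κ

/-- Borel-Cantelli for negligible families, along the integers -/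
lemma AS_bc {B : ℝ → Set Ω} (hB : Negl P B) : ∀ᵐ ω ∂P, ∀ᶠ n : ℕ in atTop, ω ∉ B (n : ℝ) := by
  apply ae_eventually_notMem
  have h1 : ∀ᶠ n : ℕ in atTop, ‖P.real (B (n : ℝ))‖ ≤ (n : ℝ) ^ (-(2 : ℝ)) := by
    filter_upwards [tendsto_natCast_atTop_atTop.eventually (hB 2)] with n hn
    rw [Real.norm_of_nonneg measureReal_nonneg]
    exact_mod_cast hn
  have h2 : Summable (fun n : ℕ => P.real (B (n : ℝ))) :=
    Summable.of_norm_bounded_eventually_nat (Real.summable_nat_rpow.2 (by norm_num)) h1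
  have h3 : ∀ n : ℕ, P (B (n : ℝ)) = ENNReal.ofReal (P.real (B (n : ℝ))) := fun n =>
    (ofReal_measureReal (measure_ne_top P _)).symm
  simp_rw [h3]
  exact h2.tsum_ofReal_ne_top

lemma AS_ceil_le {r : ℝ} (hr : 1 ≤ r) : ((⌈r⌉₊ : ℕ) : ℝ) ≤ 2 * r := by
  have := Nat.ceil_lt_add_one (show 0 ≤ r by linarith)
  linarith

lemma AS_ceil_rpow {κ κ' : ℝ} (hk : κ < κ') :
    ∀ᶠ r : ℝ in atTop, ((⌈r⌉₊ : ℕ) : ℝ) ^ κ ≤ r ^ κ' := by
  filter_upwards [ev_rpow_le (max 1 ((2 : ℝ) ^ κ)) one_pos hk, eventually_ge_atTop (1 : ℝ)]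
    with r h1 h2
  rw [one_mul] at h1
  refine le_trans ?_ h1
  have h0 : 0 < r := by linarith
  have h3 : r ≤ ((⌈r⌉₊ : ℕ) : ℝ) := Nat.le_ceil r
  rcases le_total 0 κ with hκ | hκ
  · calc ((⌈r⌉₊ : ℕ) : ℝ) ^ κ ≤ (2 * r) ^ κ :=
          Real.rpow_le_rpow (by positivity) (AS_ceil_le h2) hκ
      _ = (2 : ℝ) ^ κ * r ^ κ := Real.mul_rpow (by norm_num) h0.le
      _ ≤ _ := mul_le_mul_of_nonneg_right (le_max_right _ _) (by positivity)
  · calc ((⌈r⌉₊ : ℕ) : ℝ) ^ κ ≤ r ^ κ := Real.rpow_le_rpow_of_nonpos h0 h3 hκ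
      _ = 1 * r ^ κ := (one_mul _).symm
      _ ≤ _ := mul_le_mul_of_nonneg_right (le_max_left _ _) (by positivity)

theorem PreLRM.AS_of_SC (M : PreLRM d P) {κ κ' : ℝ} (h : M.SC κ) (hk : κ < κ') : M.AS κ' := by
  filter_upwards [AS_bc h] with ω hω
  have h1 := tendsto_nat_ceil_atTop.eventually hω (α := ℝ)
  filter_upwards [h1, AS_ceil_rpow hk] with r h2 h3 v hv
  simp only [not_exists, not_and, not_lt] at h2
  exact (h2 v (hv.trans (Nat.le_ceil r))).trans h3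

theorem PreLRM.HypA_of_AS (M : PreLRM d P) {κ κ' : ℝ} (h : M.AS κ) (hk : κ < κ') :
    M.HypA κ' := by
  set D : ℕ → Set Ω := fun n =>
    {ω | ∃ v : V d, nm v ≤ (n : ℝ) ∧ (n : ℝ) ^ κ < |M.t ω 0 v - M.μ (tr v)|} with hD
  have hDm : ∀ n, MeasurableSet (D n) := by
    intro n
    have hfin : {x : V d | nm x ≤ (n : ℝ)}.Finite := finite_bl _
    have h1 : D n = ⋃ v ∈ {x : V d | nm x ≤ (n : ℝ)},
        {ω | (n : ℝ) ^ κ < |M.t ω 0 v - M.μ (tr v)|} := by
      ext ω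
      simp [hD]
    rw [h1]
    refine hfin.measurableSet_biUnion fun v _ => ?_
    have h2 : Measurable (fun ω => |M.t ω 0 v - M.μ (tr v)|) :=
      ((M.t_meas 0 v).sub measurable_const).abs
    exact measurableSet_lt measurable_const h2
  have hDlim : Tendsto (fun n => P (D n)) atTop (𝓝 (P ∅)) := by
    apply tendsto_measure_of_ae_tendsto_indicator_of_isFiniteMeasure atTop
      MeasurableSet.empty hDm
    filter_upwards [h] with ω hω
    filter_upwards [tendsto_natCast_atTop_atTop.eventually hω] with n hn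
    simp only [mem_empty_iff_false, iff_false]
    rintro ⟨v, hv1, hv2⟩
    exact absurd (hn v hv1) (not_le.2 hv2)
  rw [measure_empty] at hDlim
  have hDr : Tendsto (fun n => P.real (D n)) atTop (𝓝 0) := by
    have h1 := (ENNReal.tendsto_toReal (ENNReal.zero_ne_top)).comp hDlim
    rw [ENNReal.toReal_zero] at h1
    exact h1
  have h1 : Tendsto (fun r : ℝ => P.real (D ⌈r⌉₊)) atTop (𝓝 0) :=
    hDr.comp tendsto_nat_ceil_atTop
  refine squeeze_zero' (Eventually.of_forall fun r => measureReal_nonneg) ?_ h1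
  filter_upwards [AS_ceil_rpow hk] with r h3
  refine measureReal_mono ?_ (measure_ne_top P _)
  rintro ω ⟨v, hv1, hv2⟩
  exact ⟨v, hv1.trans (Nat.le_ceil r), h3.trans_lt hv2⟩

theorem LRM.AS_lin (M : LRM d P) : ∀ᵐ ω ∂P, ∀ ε : ℝ, 0 < ε → ∀ᶠ r : ℝ in atTop,
    ∀ v : V d, nm v ≤ r → |M.t ω 0 v - M.μ (tr v)| ≤ ε * r := by
  have h1 : ∀ k : ℕ, ∀ᵐ ω ∂P, ∀ᶠ n : ℕ in atTop, ∀ v : V d, nm v ≤ (n : ℝ) →
      |M.t ω 0 v - M.μ (tr v)| ≤ 1 / ((k : ℝ) + 1) * n := by
    intro k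
    have hk : (0 : ℝ) < 1 / ((k : ℝ) + 1) := by positivity
    filter_upwards [AS_bc (M.UpLin _ hk), AS_bc (M.LowLin _ hk)] with ω h2 h3
    filter_upwards [h2, h3] with n h4 h5 v hv
    simp only [not_exists, not_and, not_lt] at h4 h5
    have h6 := h4 v hv
    have h7 := h5 v hv
    rw [abs_le]
    constructor <;> linarith
  filter_upwards [ae_all_iff.2 h1] with ω hω ε hε
  obtain ⟨k, hk⟩ := exists_nat_one_div_lt (show 0 < ε / 2 by positivity)
  have h2 := tendsto_nat_ceil_atTop.eventually (hω k) (α := ℝ)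
  filter_upwards [h2, eventually_ge_atTop (1 : ℝ)] with r h3 h4 v hv
  refine (h3 v (hv.trans (Nat.le_ceil r))).trans ?_
  have h5 := AS_ceil_le h4
  have h6 : (0 : ℝ) < 1 / ((k : ℝ) + 1) := by positivity
  calc 1 / ((k : ℝ) + 1) * ((⌈r⌉₊ : ℕ) : ℝ) ≤ 1 / ((k : ℝ) + 1) * (2 * r) := by gcongr
    _ ≤ ε / 2 * (2 * r) := by gcongr
    _ = ε * r := by ring

/-- the time constant is the almost sure limit -/
theorem LRM.as_lim (M : LRM d P) (x : E d) :
    ∀ᵐ ω ∂P, Tendsto (fun n : ℕ => M.t ω 0 (rd ((n : ℝ) • x)) / n) atTop (𝓝 (M.μ x)) := by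
  filter_upwards [M.AS_lin] with ω hω
  rw [Metric.tendsto_atTop]
  intro δ hδ
  have hx : 0 < ‖x‖ + 1 := by have := norm_nonneg x; linarith
  set ε : ℝ := δ / (4 * (‖x‖ + 1)) with hε
  have hεpos : 0 < ε := by positivity
  have ht : Tendsto (fun n : ℕ => (n : ℝ) * (‖x‖ + 1)) atTop atTop :=
    tendsto_natCast_atTop_atTop.atTop_mul_const hx
  have h1 := ht.eventually (hω ε hεpos)
  have h2 : ∀ᶠ n : ℕ in atTop, M.CM ≤ δ / 4 * n := by
    have h3 : Tendsto (fun n : ℕ => δ / 4 * (n : ℝ)) atTop atTop :=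
      tendsto_natCast_atTop_atTop.const_mul_atTop (by positivity)
    exact h3.eventually_ge_atTop _
  obtain ⟨N, hN⟩ := eventually_atTop.1 ((h1.and h2).and (eventually_ge_atTop 1))
  refine ⟨N, fun n hn => ?_⟩
  obtain ⟨⟨h3, h4⟩, h5⟩ := hN n hn
  have hn0 : (1 : ℝ) ≤ n := by exact_mod_cast h5
  have hnpos : (0 : ℝ) < n := by linarith
  have h6 : nm (rd ((n : ℝ) • x)) ≤ (n : ℝ) * (‖x‖ + 1) := by
    have h7 := nm_rd_le ((n : ℝ) • x)
    rw [norm_smul, Real.norm_of_nonneg hnpos.le] at h7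
    linarith
  have h7 := h3 _ h6
  have h8 := M.isNm.sub_le (tr (rd ((n : ℝ) • x))) ((n : ℝ) • x)
  have h9 := norm_rd_sub ((n : ℝ) • x)
  have h10 : M.μ ((n : ℝ) • x) = n * M.μ x := by
    rw [M.isNm.smul, abs_of_pos hnpos]
  rw [h10] at h8
  have hCM : 0 ≤ M.CM ∨ ‖tr (rd ((n : ℝ) • x)) - (n : ℝ) • x‖ = 0 := by
    by_contra hcon
    push Not at hcon
    have h11 := (norm_nonneg (tr (rd ((n : ℝ) • x)) - (n : ℝ) • x)).lt_of_ne hcon.2.symm
    have h12 := (abs_nonneg _).trans h8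
    have := mul_neg_of_neg_of_pos hcon.1 h11
    linarith
  have h11 : M.CM * ‖tr (rd ((n : ℝ) • x)) - (n : ℝ) • x‖ ≤ δ / 4 * n := by
    rcases hCM with hC | h0
    · calc M.CM * ‖tr (rd ((n : ℝ) • x)) - (n : ℝ) • x‖ ≤ M.CM * 1 := by gcongr; linarith
        _ ≤ δ / 4 * n := by linarith
    · rw [h0, mul_zero]; positivity
  have h12 : ε * ((n : ℝ) * (‖x‖ + 1)) = δ / 4 * n := by
    rw [hε]; field_simp
  rw [h12] at h7
  rw [Real.dist_eq]
  have h13 : M.t ω 0 (rd ((n : ℝ) • x)) / n - M.μ x =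
      (M.t ω 0 (rd ((n : ℝ) • x)) - n * M.μ x) / n := by field_simp
  rw [h13, abs_div, abs_of_pos hnpos, div_lt_iff₀ hnpos]
  have h14 : |M.t ω 0 (rd ((n : ℝ) • x)) - n * M.μ x| ≤ δ / 4 * n + δ / 4 * n := by
    have h15 : M.t ω 0 (rd ((n : ℝ) • x)) - n * M.μ x =
        (M.t ω 0 (rd ((n : ℝ) • x)) - M.μ (tr (rd ((n : ℝ) • x)))) +
        (M.μ (tr (rd ((n : ℝ) • x))) - n * M.μ x) := by ring
    rw [h15]
    exact (abs_add_le _ _).trans (add_le_add h7 (h8.trans h11))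
  nlinarith

end FPPX
end

section

/-! Convergence in probability. -/

namespace FPPX

open MeasureTheory ProbabilityTheory Filter Set
open scoped Topology

variable {d : ℕ} {Ω : Type} [MeasurableSpace Ω] {P : Measure Ω} [IsProbabilityMeasure P]

/-- mean convergence -/
lemma BLRM.lim_mean (M : BLRM d P) (x : E d) (ε : ℝ) (hε : 0 < ε) : ∀ᶠ n : ℕ in atTop,
    ∫ ω, |M.t ω 0 (rd ((n : ℝ) • x)) - n * M.mu x| ∂P ≤ 5 * ε * n := by
  have h1 := (M.mu_lim x).eventually_const_lt (show M.mu x - ε < M.mu x by linarith)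
  filter_upwards [M.up_mean x ε hε, h1, eventually_gt_atTop 0] with n h2 h3 h4
  have hn : (0 : ℝ) < n := by exact_mod_cast h4
  have i1 : Integrable (fun ω => M.t ω 0 (rd ((n : ℝ) • x))) P := by
    simpa using M.integrable_pow 1 0 (rd ((n : ℝ) • x))
  have i2 : Integrable (fun ω => M.t ω 0 (rd ((n : ℝ) • x)) - n * (M.mu x + ε)) P :=
    i1.sub (integrable_const _)
  have i3 : Integrable (fun ω => max (M.t ω 0 (rd ((n : ℝ) • x)) - n * (M.mu x + ε)) 0) P :=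
    i2.pos_part
  have i4 : Integrable (fun ω => M.t ω 0 (rd ((n : ℝ) • x)) - n * M.mu x) P :=
    i1.sub (integrable_const _)
  have h5 : ∀ ω, |M.t ω 0 (rd ((n : ℝ) • x)) - n * M.mu x| ≤
      2 * max (M.t ω 0 (rd ((n : ℝ) • x)) - n * (M.mu x + ε)) 0 + 2 * (ε * n) -
        (M.t ω 0 (rd ((n : ℝ) • x)) - n * M.mu x) := by
    intro ω
    have e1 := le_max_left (M.t ω 0 (rd ((n : ℝ) • x)) - n * (M.mu x + ε)) 0
    have e2 := le_max_right (M.t ω 0 (rd ((n : ℝ) • x)) - n * (M.mu x + ε)) 0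
    have e3 : 0 < ε * n := by positivity
    rw [abs_le]
    constructor <;> nlinarith
  have i5 : Integrable (fun ω => 2 * max (M.t ω 0 (rd ((n : ℝ) • x)) - n * (M.mu x + ε)) 0 +
      2 * (ε * n)) P := (i3.const_mul 2).add (integrable_const _)
  have h6 := integral_mono i4.abs (i5.sub i4) h5
  refine h6.trans ?_
  have h7 : ∫ ω, (fun ω => 2 * max (M.t ω 0 (rd ((n : ℝ) • x)) - n * (M.mu x + ε)) 0 +
      2 * (ε * n)) ω - (fun ω => M.t ω 0 (rd ((n : ℝ) • x)) - n * M.mu x) ω ∂P =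
      2 * (∫ ω, max (M.t ω 0 (rd ((n : ℝ) • x)) - n * (M.mu x + ε)) 0 ∂P) + 2 * (ε * n) -
      ((∫ ω, M.t ω 0 (rd ((n : ℝ) • x)) ∂P) - n * M.mu x) := by
    have i6 : Integrable (fun ω =>
      2 * max (M.t ω 0 (rd ((n : ℝ) • x)) - n * (M.mu x + ε)) 0) P := i3.const_mul 2
    rw [integral_sub i5 i4, integral_add i6 (integrable_const _), integral_const_mul,
      integral_sub i1 (integrable_const _)]
    simp
  refine h7.le.trans ?_
  rw [lt_div_iff₀ hn] at h3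
  nlinarith

theorem BLRM.lim (M : BLRM d P) (x : E d) (ε : ℝ) (hε : 0 < ε) :
    Tendsto (fun n : ℕ => P.real {ω | ε * n ≤ |M.t ω 0 (rd ((n : ℝ) • x)) - n * M.mu x|}) atTop
      (𝓝 0) := by
  rw [tendsto_order]
  refine ⟨fun a ha => Eventually.of_forall fun n => ha.trans_le measureReal_nonneg, fun a ha => ?_⟩
  filter_upwards [M.lim_mean x (ε * a / 10) (by positivity), eventually_gt_atTop 0] with n h1 h2
  have hn : (0 : ℝ) < n := by exact_mod_cast h2
  have i1 : Integrable (fun ω => M.t ω 0 (rd ((n : ℝ) • x))) P := by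
    simpa using M.integrable_pow 1 0 (rd ((n : ℝ) • x))
  have i4 : Integrable (fun ω => M.t ω 0 (rd ((n : ℝ) • x)) - n * M.mu x) P :=
    i1.sub (integrable_const _)
  have h3 := mul_meas_ge_le_integral_of_nonneg (μ := P)
    (Eventually.of_forall fun ω => abs_nonneg (M.t ω 0 (rd ((n : ℝ) • x)) - n * M.mu x))
    i4.abs (ε * n)
  have hεn : 0 < ε * n := by positivity
  have h4 : ε * n * P.real {ω | ε * n ≤ |M.t ω 0 (rd ((n : ℝ) • x)) - n * M.mu x|} ≤
      (ε * n) * (a / 2) := by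
    refine (h3.trans h1).trans (le_of_eq ?_)
    ring
  have h5 := le_of_mul_le_mul_left h4 hεn
  linarith

end FPPX
end

section

/-! Linear lower bound with super-polynomially small error probability. -/

namespace FPPX

open MeasureTheory ProbabilityTheory Filter Set
open scoped Topology

variable {d : ℕ} {Ω : Type} [MeasurableSpace Ω] {P : Measure Ω} [IsProbabilityMeasure P]

theorem BLRM.boost (M : BLRM d P) : ∃ c : ℝ, 0 < c ∧ Negl P (fun r => M.Fast c r) := by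
  obtain ⟨c1, r0, hc1, hr0, hind⟩ := M.ind
  refine ⟨c1 / 2, by linarith, ?_⟩
  intro K
  have e1 := M.step (K + 1) (K + 1)
  have e2 : Tendsto (fun r : ℝ => r ^ (8 / 9 : ℝ)) atTop atTop := tendsto_rpow_atTop (by norm_num)
  have e3 : Tendsto (fun r : ℝ => r ^ (1 / 10 : ℝ)) atTop atTop :=
    tendsto_rpow_atTop (by norm_num)
  have e4 : Tendsto (fun r : ℝ => r ^ (1 / 2 : ℝ)) atTop atTop :=
    tendsto_rpow_atTop (by norm_num)
  have e5 := ev_rpow_le ((7 : ℝ) ^ d) (one_pos) (a := (d : ℝ) + 8 / 9 * (-(3 * ((d : ℝ) + 1))))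
    (b := -1) (by have : (0 : ℝ) ≤ d := Nat.cast_nonneg d; linarith)
  filter_upwards [e1, e2.eventually_ge_atTop r0, e3.eventually_ge_atTop 2,
    e4.eventually_ge_atTop (1 / c1), e5, eventually_ge_atTop 2] with r h1 h2 h3 h4 h5 h6
  have h0 : 0 < r := by linarith
  have hinv : r ^ (-(1 / 10) : ℝ) ≤ 1 / 2 := by
    rw [Real.rpow_neg h0.le, inv_le_comm₀ (by positivity) (by norm_num)]
    simpa using h3
  have hc : r ^ (-(1 / 2) : ℝ) / 4 ≤ c1 := by
    have : r ^ (-(1 / 2) : ℝ) ≤ c1 := by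
      rw [Real.rpow_neg h0.le, inv_le_comm₀ (by positivity) hc1]
      simpa using h4
    have h7 : 0 < r ^ (-(1 / 2) : ℝ) := by positivity
    linarith
  have hsub : M.Fast (c1 / 2) r ⊆ M.Fast (c1 * (1 - r ^ (-(1 / 10) : ℝ))) r := by
    rintro ω ⟨z, hz1, hz2, hz3⟩
    refine ⟨z, hz1, hz2, hz3.trans ?_⟩
    apply mul_le_mul_of_nonneg_right _ h0.le
    nlinarith
  have hstep := h1 c1 hc
  have hm := hind (r ^ (8 / 9 : ℝ)) h2
  have hq : (7 * r) ^ d * P.real (M.Fast c1 (r ^ (8 / 9 : ℝ))) ≤ r⁻¹ := by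
    calc (7 * r) ^ d * P.real (M.Fast c1 (r ^ (8 / 9 : ℝ)))
        ≤ (7 * r) ^ d * (r ^ (8 / 9 : ℝ)) ^ (-(3 * ((d : ℝ) + 1)) : ℝ) :=
          mul_le_mul_of_nonneg_left hm (by positivity)
      _ = (7 : ℝ) ^ d * r ^ ((d : ℝ) + 8 / 9 * (-(3 * ((d : ℝ) + 1)))) := by
          rw [mul_pow, ← Real.rpow_natCast r d, ← Real.rpow_mul h0.le, mul_assoc,
            ← Real.rpow_add h0]
      _ ≤ 1 * r ^ (-1 : ℝ) := h5
      _ = r⁻¹ := by rw [one_mul, Real.rpow_neg_one]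
  have hq0 : 0 ≤ (7 * r) ^ d * P.real (M.Fast c1 (r ^ (8 / 9 : ℝ))) := by
    have : 0 ≤ P.real (M.Fast c1 (r ^ (8 / 9 : ℝ))) := measureReal_nonneg
    positivity
  have hpow : ((7 * r) ^ d * P.real (M.Fast c1 (r ^ (8 / 9 : ℝ)))) ^ (K + 1) ≤
      (r⁻¹) ^ (K + 1) := pow_le_pow_left₀ hq0 hq _
  have hr1 : r ^ (-((K + 1 : ℕ) : ℝ)) = (r⁻¹) ^ (K + 1) := by
    rw [Real.rpow_neg h0.le, Real.rpow_natCast, inv_pow]
  have hr2 : r ^ (-(K : ℝ)) = (r⁻¹) ^ K := by
    rw [Real.rpow_neg h0.le, Real.rpow_natCast, inv_pow]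
  have hfin : P.real (M.Fast (c1 / 2) r) ≤ (r⁻¹) ^ (K + 1) + (r⁻¹) ^ (K + 1) := by
    refine (measureReal_mono hsub).trans (hstep.trans ?_)
    rw [hr1]
    exact add_le_add hpow le_rfl
  rw [hr2]
  refine hfin.trans ?_
  rw [pow_succ]
  have h8 : r⁻¹ ≤ 1 / 2 := by
    rw [inv_le_comm₀ h0 (by norm_num)]
    simpa using h6
  have h9 : 0 ≤ (r⁻¹) ^ K := by positivity
  nlinarith

theorem BLRM.linlow (M : BLRM d P) : ∃ c0 : ℝ, 0 < c0 ∧
    Negl P (fun r => {ω | ∃ v, r ≤ nm v ∧ M.t ω 0 v < c0 * nm v}) := by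
  obtain ⟨c, hc, hN⟩ := M.boost
  refine ⟨c / 2, by linarith, ?_⟩
  intro K
  obtain ⟨R, hR⟩ := eventually_atTop.mp (hN (K + 1))
  filter_upwards [eventually_ge_atTop R, eventually_ge_atTop 2] with r h1 h2
  have h0 : 0 < r := by linarith
  have hsub : {ω | ∃ v, r ≤ nm v ∧ M.t ω 0 v < c / 2 * nm v} ⊆
      ⋃ i : ℕ, M.Fast c (2 ^ i * r) := by
    rintro ω ⟨v, hv1, hv2⟩
    have hx : 1 ≤ nm v / r := by rwa [le_div_iff₀ h0, one_mul]
    obtain ⟨i, hi1, hi2⟩ := exists_nat_pow_near hx (by norm_num : (1 : ℝ) < 2)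
    rw [le_div_iff₀ h0] at hi1
    rw [div_lt_iff₀ h0, pow_succ] at hi2
    refine mem_iUnion.mpr ⟨i, v, hi1, by linarith, ?_⟩
    have : c / 2 * nm v ≤ c / 2 * (2 ^ i * 2 * r) :=
      mul_le_mul_of_nonneg_left hi2.le (by linarith)
    have h3 : c / 2 * (2 ^ i * 2 * r) = c * (2 ^ i * r) := by ring
    linarith
  have hbd : ∀ i : ℕ, P.real (M.Fast c (2 ^ i * r)) ≤ (1 / 2) ^ i * (r⁻¹) ^ (K + 1) := by
    intro i
    have hp : (1 : ℝ) ≤ 2 ^ i := one_le_pow₀ (by norm_num)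
    have h3 : R ≤ 2 ^ i * r := h1.trans (by nlinarith)
    have h4 := hR _ h3
    have h5 : (2 ^ i * r) ^ (-((K + 1 : ℕ) : ℝ)) = ((2 : ℝ) ^ i * r)⁻¹ ^ (K + 1) := by
      rw [Real.rpow_neg (by positivity), Real.rpow_natCast, inv_pow]
    rw [h5, mul_inv, mul_pow] at h4
    have h11 : ((1 : ℝ) / 2) ^ i = ((2 : ℝ) ^ i)⁻¹ := by rw [one_div, inv_pow]
    rw [h11]
    refine h4.trans (mul_le_mul_of_nonneg_right ?_ (by positivity))
    have h6 : ((2 : ℝ) ^ i)⁻¹ ≤ 1 := inv_le_one_of_one_le₀ hp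
    have h7 : 0 ≤ ((2 : ℝ) ^ i)⁻¹ := by positivity
    calc ((2 : ℝ) ^ i)⁻¹ ^ (K + 1) = ((2 : ℝ) ^ i)⁻¹ ^ K * ((2 : ℝ) ^ i)⁻¹ := pow_succ _ _
      _ ≤ 1 * ((2 : ℝ) ^ i)⁻¹ := mul_le_mul_of_nonneg_right (pow_le_one₀ h7 h6) h7
      _ = ((2 : ℝ) ^ i)⁻¹ := one_mul _
  have hsum : Summable (fun i : ℕ => (1 / 2 : ℝ) ^ i * (r⁻¹) ^ (K + 1)) :=
    (summable_geometric_of_lt_one (by norm_num) (by norm_num)).mul_right _
  have htot : ∑' i : ℕ, (1 / 2 : ℝ) ^ i * (r⁻¹) ^ (K + 1) = 2 * (r⁻¹) ^ (K + 1) := by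
    rw [tsum_mul_right, tsum_geometric_of_lt_one (by norm_num) (by norm_num)]
    norm_num
  have hU : P (⋃ i : ℕ, M.Fast c (2 ^ i * r)) ≤ ENNReal.ofReal (2 * (r⁻¹) ^ (K + 1)) := by
    calc P (⋃ i : ℕ, M.Fast c (2 ^ i * r)) ≤ ∑' i : ℕ, P (M.Fast c (2 ^ i * r)) :=
          measure_iUnion_le _
      _ ≤ ∑' i : ℕ, ENNReal.ofReal ((1 / 2 : ℝ) ^ i * (r⁻¹) ^ (K + 1)) := by
          apply ENNReal.tsum_le_tsum
          intro i
          rw [← ENNReal.ofReal_toReal (measure_ne_top P (M.Fast c (2 ^ i * r)))]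
          exact ENNReal.ofReal_le_ofReal (hbd i)
      _ = ENNReal.ofReal (2 * (r⁻¹) ^ (K + 1)) := by
          rw [← ENNReal.ofReal_tsum_of_nonneg (fun i => by positivity) hsum, htot]
  have hr2 : r ^ (-(K : ℝ)) = (r⁻¹) ^ K := by
    rw [Real.rpow_neg h0.le, Real.rpow_natCast, inv_pow]
  rw [hr2]
  refine (measureReal_mono hsub).trans ?_
  have h10 : P.real (⋃ i : ℕ, M.Fast c (2 ^ i * r)) ≤ 2 * (r⁻¹) ^ (K + 1) := by
    unfold Measure.real
    exact ENNReal.toReal_le_of_le_ofReal (by positivity) hU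
  refine h10.trans ?_
  have h8 : r⁻¹ ≤ 1 / 2 := by
    rw [inv_le_comm₀ h0 (by norm_num)]
    simpa using h2
  have h9 : 0 ≤ (r⁻¹) ^ K := by positivity
  rw [pow_succ]
  nlinarith

end FPPX
end

section

/-! Positivity of the time constant. -/

namespace FPPX

open MeasureTheory ProbabilityTheory Filter Set
open scoped Topology

variable {d : ℕ} {Ω : Type} [MeasurableSpace Ω] {P : Measure Ω} [IsProbabilityMeasure P]

theorem BLRM.mu_pos (M : BLRM d P) (x : E d) (hx : x ≠ 0) : 0 < M.mu x := by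
  obtain ⟨c0, hc0, hneg⟩ := M.linlow
  have hx0 : 0 < ‖x‖ := norm_pos_iff.mpr hx
  obtain ⟨ε, hε⟩ : ∃ ε, ε = c0 * ‖x‖ / 4 := ⟨_, rfl⟩
  have hε0 : 0 < ε := by rw [hε]; positivity
  have h1 := (M.lim x ε hε0).eventually (Iio_mem_nhds (show (0 : ℝ) < 1 / 4 by norm_num))
  have htend : Tendsto (fun n : ℕ => (n : ℝ) * (‖x‖ / 2)) atTop atTop :=
    tendsto_natCast_atTop_atTop.atTop_mul_const (by positivity)
  have h2 := htend.eventually (hneg.lt (δ := 1 / 4) (by norm_num))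
  have h3 := htend.eventually (eventually_ge_atTop 1)
  obtain ⟨n, k1, k2, k3⟩ := (h1.and (h2.and h3)).exists
  have k1' : P.real {ω | ε * n ≤ |M.t ω 0 (rd ((n : ℝ) • x)) - n * M.mu x|} < 1 / 4 := k1
  obtain ⟨ω, hω⟩ : ∃ ω, ω ∉ {ω | ε * n ≤ |M.t ω 0 (rd ((n : ℝ) • x)) - n * M.mu x|} ∪
      {ω | ∃ v, (n : ℝ) * (‖x‖ / 2) ≤ nm v ∧ M.t ω 0 v < c0 * nm v} := by
    by_contra hcon
    push Not at hcon
    have e1 : P.real (univ : Set Ω) ≤ P.real ({ω | ε * n ≤
        |M.t ω 0 (rd ((n : ℝ) • x)) - n * M.mu x|} ∪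
        {ω | ∃ v, (n : ℝ) * (‖x‖ / 2) ≤ nm v ∧ M.t ω 0 v < c0 * nm v}) :=
      measureReal_mono (fun ω _ => hcon ω)
    have e2 := measureReal_union_le (μ := P) {ω | ε * n ≤
        |M.t ω 0 (rd ((n : ℝ) • x)) - n * M.mu x|}
        {ω | ∃ v, (n : ℝ) * (‖x‖ / 2) ≤ nm v ∧ M.t ω 0 v < c0 * nm v}
    have e3 : P.real (univ : Set Ω) = 1 := by simp
    linarith
  simp only [mem_union, mem_ofPred_eq, not_or, not_exists, not_and, not_le, not_lt] at hω
  obtain ⟨g1, g2⟩ := hω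
  have hn0 : 0 < (n : ℝ) := by
    by_contra hc
    push Not at hc
    have : (n : ℝ) * (‖x‖ / 2) ≤ 0 := mul_nonpos_of_nonpos_of_nonneg hc (by positivity)
    linarith
  have hnorm : (n : ℝ) * (‖x‖ / 2) ≤ nm (rd ((n : ℝ) • x)) := by
    have e1 := norm_rd_sub ((n : ℝ) • x)
    have e2 : ‖(n : ℝ) • x‖ = n * ‖x‖ := by
      rw [norm_smul, Real.norm_of_nonneg hn0.le]
    have e3 : ‖(n : ℝ) • x‖ ≤ ‖tr (rd ((n : ℝ) • x))‖ + ‖tr (rd ((n : ℝ) • x)) - (n : ℝ) • x‖ := by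
      have := norm_sub_norm_le ((n : ℝ) • x) (tr (rd ((n : ℝ) • x)))
      rw [norm_sub_rev] at this
      linarith
    unfold nm
    linarith
  have g3 := g2 _ hnorm
  have g4 := (abs_lt.mp g1).2
  have g5 : c0 * ((n : ℝ) * (‖x‖ / 2)) ≤ c0 * nm (rd ((n : ℝ) • x)) :=
    mul_le_mul_of_nonneg_left hnorm hc0.le
  have g6 : ε * n = c0 * ‖x‖ / 4 * n := by rw [hε]
  have g7 : 0 < c0 * ‖x‖ / 4 * n := by positivity
  have g8 : 0 < n * M.mu x := by nlinarith
  exact (mul_pos_iff_of_pos_left hn0).mp g8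

end FPPX
end

section

/-! Every BLRM is an LRM. -/

namespace FPPX

open MeasureTheory ProbabilityTheory Filter Set
open scoped Topology

variable {d : ℕ} {Ω : Type} [MeasurableSpace Ω] {P : Measure Ω} [IsProbabilityMeasure P]

/-- the underlying `PreLRM` -/
noncomputable def BLRM.toPreLRM (M : BLRM d P) : PreLRM d P where
  t := M.t
  LE := M.LE
  F := M.F
  θ := M.θ
  μ := M.mu
  t_nonneg := M.t_nonneg
  t_self := M.t_self
  t_symm := M.t_symm
  t_tri := M.t_tri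
  t_meas := M.t_meas
  t_shift := M.t_shift
  θ_mp := M.θ_mp
  F_le := M.F_le
  F_mono := M.F_mono
  F_shift := M.F_shift
  F_indep := M.F_indep
  LE_meas := M.LE_meas
  LE_t := M.LE_t
  LE_mono := M.LE_mono
  LE_shift := M.LE_shift
  C1 := M.C1
  one_le_C1 := M.one_le_C1
  hs_up := M.hs_up
  lim := M.lim
  μ_pos := M.mu_pos

theorem BLRM.chain_good (M : BLRM d P) (ε : ℝ) (hε : 0 < ε) :
    Negl P (fun r => (M.toPreLRM.ChainGood r ε)ᶜ) := by
  refine Negl.mono ?_ (M.chain (ε / 2) (by linarith))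
  filter_upwards [ev_rpow_le 2 one_pos (show ε / 2 < ε by linarith),
    eventually_gt_atTop (0 : ℝ)] with r h1 h0
  have hp : 0 ≤ r ^ (ε / 2) := Real.rpow_nonneg h0.le _
  have h2 : 2 * r ^ (ε / 2) ≤ r ^ ε := by simpa using h1
  have h3 : r ^ (ε / 2) ≤ r ^ ε := by linarith
  apply compl_subset_compl.mpr
  intro ω hω u v hu hv
  obtain ⟨l, x, s, hx0, hxl, hj, hs0, hsl, hc⟩ := hω u v hu hv
  refine ⟨l, x, s, hx0, hxl, fun i hi => (hj i hi).trans h3, hs0, ?_, ?_, ?_⟩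
  · change s l ≤ M.t ω u v + r ^ ε
    linarith
  · intro i j hij hjl
    have h4 := M.LE_t _ _ _ _ _ (hc i j hij hjl univ (fun _ _ _ _ _ => mem_univ _))
    change M.t ω (x i) (x j) ≤ s j - s i + r ^ ε
    linarith
  · intro K hK
    have h4 := hc 0 l (Nat.zero_le _) le_rfl K
      (fun n _ hn z hz => hK n hn z (hz.trans h3))
    rw [hx0, hxl] at h4
    have h5 : s l - s 0 + r ^ (ε / 2) ≤ M.t ω u v + r ^ ε := by linarith
    exact M.LE_mono K K u v _ _ Subset.rfl h5 h4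

/-- the underlying `LRM` -/
noncomputable def BLRM.toLRM (M : BLRM d P) : LRM d P where
  toPreLRM := M.toPreLRM
  chain := M.chain_good
  c0 := Classical.choose M.linlow
  c0_pos := (Classical.choose_spec M.linlow).1
  linlow := (Classical.choose_spec M.linlow).2

end FPPX
end

section

/-! There are no large empty balls. -/

namespace FPPX

open MeasureTheory ProbabilityTheory Filter Set
open scoped Topology

variable {d : ℕ} {Λ : Measure (Cfg d)}

/-- all balls of radius `ρ` centred in the ball of radius `R` contain a point of `S` -/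
def NoHole {d : ℕ} (S : Set (RR d)) (R ρ : ℝ) : Prop := ∀ x : RR d, ‖x‖ ≤ R → ∃ p ∈ S, ‖p - x‖ ≤ ρ

private lemma norm_emb_single (i : Fin d) (j : ℤ) : ‖emb (Pi.single i j : V d)‖ = |(j : ℝ)| := by
  have h : emb (Pi.single i j : V d) = EuclideanSpace.single i (j : ℝ) := by
    ext k
    rw [emb_apply]
    by_cases hk : k = i
    · subst hk; simp
    · simp [hk]
  rw [h, PiLp.norm_single, Real.norm_eq_abs]

theorem hole_prob (h : IsCellLaw Λ) (hd : 1 ≤ d) (v : V d) (n : ℕ) :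
    (PP Λ).real {ω : Env d | ∀ p ∈ parts ω, n + d < ‖p - emb v‖} ≤ Real.exp (-(n : ℝ)) := by
  classical
  have := h.prob
  set i0 : Fin d := ⟨0, hd⟩ with hi0
  set w : ℕ → V d := fun j => v + Pi.single i0 (j : ℤ) with hw
  have hwinj : Function.Injective w := by
    intro j k hjk
    have h1 := congrFun hjk i0
    simp only [hw, Pi.add_apply, Pi.single_eq_same] at h1
    omega
  set B : Finset (V d) := (Finset.range (n + 1)).image w with hB
  have hcard : B.card = n + 1 := by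
    rw [hB, Finset.card_image_of_injective _ hwinj, Finset.card_range]
  have hsub : {ω : Env d | ∀ p ∈ parts ω, n + d < ‖p - emb v‖} ⊆
      {ω : Env d | ∀ u ∈ B, ¬ occ ω u} := by
    intro ω hω u hu hocc
    rw [hB, Finset.mem_image] at hu
    obtain ⟨j, hj, rfl⟩ := hu
    rw [Finset.mem_range] at hj
    obtain ⟨x, hx, hxb⟩ := hocc
    have h1 : latt x = w j := by
      rw [← dix_zero]; exact hxb
    have h2 := norm_sub_emb_latt x
    rw [h1] at h2
    have h3 : emb (w j) - emb v = emb (Pi.single i0 (j : ℤ) : V d) := by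
      rw [← emb_sub]
      congr 1
      simp [hw]
    have h4 : ‖emb (w j) - emb v‖ ≤ n := by
      rw [h3, norm_emb_single]
      have : (j : ℝ) ≤ n := by exact_mod_cast (by omega : j ≤ n)
      simpa using this
    have h5 : ‖x - emb v‖ ≤ ‖x - emb (w j)‖ + ‖emb (w j) - emb v‖ := norm_sub_le_norm_sub_add_norm_sub _ _ _
    have h6 := hω x hx
    have h7 : (0 : ℝ) ≤ d := Nat.cast_nonneg d
    linarith
  calc (PP Λ).real {ω : Env d | ∀ p ∈ parts ω, n + d < ‖p - emb v‖}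
      ≤ (PP Λ).real {ω : Env d | ∀ u ∈ B, ¬ occ ω u} := measureReal_mono hsub
    _ = Real.exp (-(B.card : ℝ)) := empty_cells h B
    _ ≤ Real.exp (-(n : ℝ)) := by
        apply Real.exp_le_exp.mpr
        rw [hcard]
        push_cast
        linarith

theorem noHole (h : IsCellLaw Λ) (hd : 1 ≤ d) {a ε : ℝ} (ha : 0 < a) (hε : 0 < ε) :
    Negl (PP Λ) (fun r => {ω : Env d | ¬ NoHole (parts ω) (r ^ a) (r ^ ε)}) := by
  classical
  have := h.prob
  apply Negl.of_poly ((a + 1) * d)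
  intro K
  have hq : Real.exp (-1) < 1 := by
    rw [Real.exp_lt_one_iff]; norm_num
  filter_upwards [ev_geom hq hε (show (0 : ℝ) < 1 / 2 by norm_num) K,
    ev_const_le (2 * (d : ℝ) + 1) (show (0 : ℝ) < 1 / 2 by norm_num) hε,
    eventually_ge_atTop (5 : ℝ)] with r h1 h2 h3
  have hr0 : 0 < r := by linarith
  have hr1 : 1 ≤ r := by linarith
  have hra : 1 ≤ r ^ a := Real.one_le_rpow hr1 ha.le
  have hre : 0 ≤ r ^ ε := Real.rpow_nonneg hr0.le _
  set n : ℕ := ⌊r ^ ε⌋₊ - 2 * d with hn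
  have hfl : (⌊r ^ ε⌋₊ : ℝ) ≤ r ^ ε := Nat.floor_le hre
  have hfl2 : r ^ ε < ⌊r ^ ε⌋₊ + 1 := Nat.lt_floor_add_one _
  have hge : 2 * d ≤ ⌊r ^ ε⌋₊ := by
    have : (2 * (d : ℝ)) ≤ ⌊r ^ ε⌋₊ := by linarith
    exact_mod_cast this
  have hncast : (n : ℝ) = ⌊r ^ ε⌋₊ - 2 * d := by
    rw [hn, Nat.cast_sub hge]; push_cast; ring
  have hd0 : (0 : ℝ) ≤ d := Nat.cast_nonneg d
  have hfin : {x : V d | nm x ≤ r ^ a + 1}.Finite := finite_bl _
  have hsub : {ω : Env d | ¬ NoHole (parts ω) (r ^ a) (r ^ ε)} ⊆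
      ⋃ v ∈ hfin.toFinset, {ω : Env d | ∀ p ∈ parts ω, n + d < ‖p - emb v‖} := by
    intro ω hω
    simp only [NoHole, mem_ofPred_eq, not_forall, not_exists, not_and, not_le] at hω
    obtain ⟨x, hx, hω⟩ := hω
    rw [mem_iUnion₂]
    refine ⟨latt x, ?_, ?_⟩
    · rw [Set.Finite.mem_toFinset]
      have := nm_latt_le x
      show nm (latt x) ≤ r ^ a + 1
      linarith
    · intro p hp
      have h5 := hω p hp
      have h6 := norm_sub_emb_latt x
      have h7 : ‖p - x‖ ≤ ‖p - emb (latt x)‖ + ‖emb (latt x) - x‖ :=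
        norm_sub_le_norm_sub_add_norm_sub _ _ _
      rw [norm_sub_rev (emb (latt x)) x] at h7
      rw [hncast]
      linarith
  have hq2 : Real.exp (-(n : ℝ)) ≤ r ^ (-(K : ℝ)) := by
    have h5 := h1 n (by rw [hncast]; linarith) (Real.exp_nonneg _)
    rw [← Real.exp_nat_mul] at h5
    convert h5 using 2
    ring
  have hcard : (hfin.toFinset.card : ℝ) ≤ r ^ ((a + 1) * d) := by
    rw [← Set.ncard_eq_toFinset_card _ hfin]
    refine (card_bl (d := d) (r ^ a + 1) (by linarith)).trans ?_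
    rw [Real.rpow_mul hr0.le, Real.rpow_natCast]
    apply pow_le_pow_left₀ (by linarith)
    rw [Real.rpow_add hr0, Real.rpow_one]
    nlinarith
  calc (PP Λ).real {ω : Env d | ¬ NoHole (parts ω) (r ^ a) (r ^ ε)}
      ≤ (PP Λ).real (⋃ v ∈ hfin.toFinset,
          {ω : Env d | ∀ p ∈ parts ω, n + d < ‖p - emb v‖}) :=
        measureReal_mono hsub (measure_ne_top _ _)
    _ ≤ ∑ v ∈ hfin.toFinset, (PP Λ).real {ω : Env d | ∀ p ∈ parts ω, n + d < ‖p - emb v‖} :=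
        measureReal_biUnion_finset_le _ _
    _ ≤ ∑ v ∈ hfin.toFinset, r ^ (-(K : ℝ)) :=
        Finset.sum_le_sum (fun v _ => (hole_prob h hd v n).trans hq2)
    _ = hfin.toFinset.card * r ^ (-(K : ℝ)) := by rw [Finset.sum_const, nsmul_eq_mul]
    _ ≤ _ := mul_le_mul_of_nonneg_right hcard (Real.rpow_nonneg hr0.le _)

/-- almost sure version -/
theorem noHole_ae (h : IsCellLaw Λ) (hd : 1 ≤ d) {ε : ℝ} (hε : 0 < ε) :
    ∀ᵐ ω ∂(PP Λ), ∀ᶠ r : ℝ in atTop, NoHole (parts ω) r (r ^ ε) := by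
  have := h.prob
  filter_upwards [AS_bc (noHole h hd (show (0 : ℝ) < 1 by norm_num) (half_pos hε))] with ω hω
  have h1 := tendsto_nat_ceil_atTop.eventually hω (α := ℝ)
  filter_upwards [h1, AS_ceil_rpow (half_lt_self hε)] with r h2 h3 x hx
  simp only [not_not, Real.rpow_one] at h2
  obtain ⟨p, hp, hpx⟩ := h2 x (hx.trans (Nat.le_ceil r))
  exact ⟨p, hp, hpx.trans h3⟩

end FPPX
end
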