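import Pool.Agent.Lib.MP_fa364e_pr.Mg.G014
import Pool.Agent.Lib.MP_fa364e_pr.Std.Defs
import Pool.Agent.Lib.MP_fa364e_pr.Mg.G009
import Pool.Agent.Lib.MP_fa364e_pr.Mg.G001
import Pool.Agent.Lib.MP_fa364e_pr.Std.Chi

section

/-! The differential inequality of Duminil-Copin and Tassion. -/

namespace FPPX

open MeasureTheory ProbabilityTheory Filter Set
open scoped Topology

variable {d : ℕ}

namespace DiffAux

lemma conn_refl (A : Set (Edge d)) (u : V d) : Conn A u u := ⟨[], rfl, by simp⟩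

lemma conn_trans {A : Set (Edge d)} {u v w : V d} (h : Conn A u v) (h' : Conn A v w) :
    Conn A u w := by
  obtain ⟨l, hl, hA⟩ := h
  obtain ⟨l', hl', hA'⟩ := h'
  refine ⟨l ++ l', hl.append hl', ?_⟩
  intro e he
  rcases List.mem_append.1 he with h | h
  · exact hA e h
  · exact hA' e h

lemma conn_mono {A B : Set (Edge d)} (hAB : A ⊆ B) {u v : V d} (h : Conn A u v) :
    Conn B u v := by
  obtain ⟨l, hl, hA⟩ := h
  exact ⟨l, hl, fun e he => hAB (hA e he)⟩

lemma conn_edge {A : Set (Edge d)} {e : Edge d} (he : e ∈ A) {u v : V d} (h : Joins e u v) :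
    Conn A u v :=
  ⟨[e], ⟨v, h, rfl⟩, by simpa using he⟩

/-- `x` is connected in `A` to the outside of the box of radius `n` -/
def Esc (n : ℕ) (A : Set (Edge d)) (x : V d) : Prop := ∃ v : V d, (n : ℝ) < nm v ∧ Conn A x v

lemma Esc.mono {n : ℕ} {A B : Set (Edge d)} (hAB : A ⊆ B) {x : V d} (h : Esc n A x) :
    Esc n B x := by
  obtain ⟨v, hv, h⟩ := h
  exact ⟨v, hv, conn_mono hAB h⟩

lemma Esc.of_conn {n : ℕ} {A : Set (Edge d)} {x y : V d} (h : Conn A x y) (h' : Esc n A y) :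
    Esc n A x := by
  obtain ⟨v, hv, h'⟩ := h'
  exact ⟨v, hv, conn_trans h h'⟩

lemma esc_of_out {n : ℕ} {A : Set (Edge d)} {x : V d} (h : (n : ℝ) < nm x) : Esc n A x :=
  ⟨x, h, conn_refl _ _⟩

lemma not_mem_of_joins {S : Finset (V d)} {e : Edge d} (he : e ∉ Ebd S) {y w : V d}
    (h : Joins e y w) (hy : y ∉ S) : w ∉ S := by
  intro hw
  apply he
  rw [mem_Ebd]
  rcases h with ⟨h1, h2⟩ | ⟨h1, h2⟩
  · subst h1; subst h2; exact Or.inr ⟨hy, hw⟩
  · subst h1; subst h2; exact Or.inl ⟨hw, hy⟩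

lemma mem_of_joins {S : Finset (V d)} {e : Edge d} (he : e ∉ Ebd S) {y w : V d}
    (h : Joins e y w) (hy : y ∈ S) : w ∈ S := by
  by_contra hw
  exact not_mem_of_joins he h.symm hw hy

lemma not_mem_Ein_of_joins {S : Finset (V d)} {e : Edge d} {y w : V d}
    (h : Joins e y w) (hy : y ∉ S) : e ∉ Ein S := by
  intro he
  rw [mem_Ein] at he
  rcases h with ⟨h1, h2⟩ | ⟨h1, h2⟩
  · subst h1; exact hy he.1
  · subst h2; exact hy he.2

lemma conn_of_not_mem {A : Set (Edge d)} {S : Finset (V d)} (hb : ∀ e ∈ A, e ∉ Ebd S) {y v : V d}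
    (hy : y ∉ S) (h : Conn A y v) : Conn (A \ ↑(Ein S)) y v := by
  obtain ⟨l, hl, hA⟩ := h
  induction l generalizing y with
  | nil =>
    have : y = v := hl
    subst this
    exact conn_refl _ _
  | cons e l ih =>
    obtain ⟨w, hw, hl⟩ := hl
    have heA : e ∈ A := hA e (by simp)
    have hwS : w ∉ S := not_mem_of_joins (hb e heA) hw hy
    have h2 := ih hwS hl (fun e' he' => hA e' (List.mem_cons_of_mem _ he'))
    refine conn_trans (conn_edge (e := e) ?_ hw) h2
    exact ⟨heA, fun h => not_mem_Ein_of_joins hw hy (by simpa using h)⟩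

lemma mem_of_conn {A : Set (Edge d)} {S : Finset (V d)} (hb : ∀ e ∈ A, e ∉ Ebd S) {x v : V d}
    (hx : x ∈ S) (h : Conn A x v) : v ∈ S := by
  obtain ⟨l, hl, hA⟩ := h
  induction l generalizing x with
  | nil =>
    have : x = v := hl
    subst this
    exact hx
  | cons e l ih =>
    obtain ⟨w, hw, hl⟩ := hl
    have heA : e ∈ A := hA e (by simp)
    exact ih (mem_of_joins (hb e heA) hw hx) hl (fun e' he' => hA e' (List.mem_cons_of_mem _ he'))

/-- `S` is the set of vertices of the box not connected to the outside -/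
def IsSc (n : ℕ) (A : Set (Edge d)) (S : Finset (V d)) : Prop :=
  ∀ x, x ∈ S ↔ nm x ≤ n ∧ ¬ Esc n A x

lemma isSc_unique {n : ℕ} {A : Set (Edge d)} {S T : Finset (V d)} (h : IsSc n A S)
    (h' : IsSc n A T) : S = T := by
  ext x
  rw [h x, h' x]

open Classical in
lemma isSc_exists (n : ℕ) (A : Set (Edge d)) : ∃ S : Finset (V d), IsSc n A S := by
  refine ⟨((finite_bl (d := d) (n : ℝ)).toFinset).filter (fun x => ¬ Esc n A x), ?_⟩
  intro x
  simp [Finset.mem_filter]

lemma IsSc.no_bd {n : ℕ} {A : Set (Edge d)} {S : Finset (V d)} (h : IsSc n A S) :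
    ∀ e ∈ A, e ∉ Ebd S := by
  have key : ∀ e ∈ A, ∀ x w : V d, Joins e x w → x ∈ S → w ∉ S → False := by
    intro e he x w hj hx hw
    have hx' := (h x).1 hx
    apply hx'.2
    refine Esc.of_conn (conn_edge he hj) ?_
    by_cases hwn : nm w ≤ n
    · by_contra hne
      exact hw ((h w).2 ⟨hwn, hne⟩)
    · exact esc_of_out (not_le.1 hwn)
  intro e he hbd
  rw [mem_Ebd] at hbd
  rcases hbd with ⟨h1, h2⟩ | ⟨h1, h2⟩
  · exact key e he _ _ (Or.inl ⟨rfl, rfl⟩) h1 h2
  · exact key e he _ _ (Or.inr ⟨rfl, rfl⟩) h2 h1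

/-- the event describing `S` in terms of the edges outside `Ein S` -/
def Tev (n : ℕ) (S : Finset (V d)) : Set (Finset (Edge d)) :=
  {B | (∀ e ∈ B, e ∉ Ebd S) ∧ ∀ y, nm y ≤ n → y ∉ S → Esc n (B : Set (Edge d)) y}

lemma Ebd_subset {n : ℕ} {S : Finset (V d)} (hS : ∀ x ∈ S, nm x ≤ n) : Ebd S ⊆ Ebox d n := by
  intro e he
  rw [mem_Ebd] at he
  rw [mem_Ebox]
  rcases he with ⟨h1, h2⟩ | ⟨h1, h2⟩
  · exact Or.inl (hS _ h1)
  · exact Or.inr (hS _ h2)

lemma Ein_subset {n : ℕ} {S : Finset (V d)} (hS : ∀ x ∈ S, nm x ≤ n) : Ein S ⊆ Ebox d n := by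
  intro e he
  rw [mem_Ein] at he
  rw [mem_Ebox]
  exact Or.inl (hS _ he.1)

lemma not_Ein_of_Ebd {S : Finset (V d)} {e : Edge d} (he : e ∈ Ebd S) : e ∉ Ein S := by
  rw [mem_Ebd] at he
  rw [mem_Ein]
  rcases he with ⟨h1, h2⟩ | ⟨h1, h2⟩
  · exact fun h => h2 h.2
  · exact fun h => h1 h.1

lemma isSc_imp {n : ℕ} {A : Finset (Edge d)} (hA : A ⊆ Ebox d n) {S : Finset (V d)}
    (h : IsSc n (A : Set (Edge d)) S) : A ∩ (Ebox d n \ Ein S) ∈ Tev n S := by
  refine ⟨fun e he => h.no_bd e (by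
    have := (Finset.mem_inter.1 he).1
    simpa using this), ?_⟩
  intro y hy hyS
  have h1 : Esc n (A : Set (Edge d)) y := by
    by_contra hne
    exact hyS ((h y).2 ⟨hy, hne⟩)
  obtain ⟨v, hv, hc⟩ := h1
  refine ⟨v, hv, ?_⟩
  refine conn_mono ?_ (conn_of_not_mem h.no_bd hyS hc)
  intro e he
  have h2 : e ∈ A := by simpa using he.1
  have h3 : e ∉ Ein S := by simpa using he.2
  simp only [Finset.coe_inter, Finset.coe_sdiff, Set.mem_inter_iff, Finset.mem_coe, Set.mem_sdiff]
  exact ⟨h2, hA h2, h3⟩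

lemma isSc_of {n : ℕ} {A : Finset (Edge d)} {S : Finset (V d)} (hS : ∀ x ∈ S, nm x ≤ n)
    (h : A ∩ (Ebox d n \ Ein S) ∈ Tev n S) : IsSc n (A : Set (Edge d)) S := by
  obtain ⟨h1, h2⟩ := h
  have hb : ∀ e ∈ (A : Set (Edge d)), e ∉ Ebd S := by
    intro e he hbd
    have heA : e ∈ A := by simpa using he
    refine h1 e ?_ hbd
    rw [Finset.mem_inter, Finset.mem_sdiff]
    exact ⟨heA, Ebd_subset hS hbd, not_Ein_of_Ebd hbd⟩
  intro x
  constructor
  · intro hx
    refine ⟨hS x hx, ?_⟩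
    rintro ⟨v, hv, hc⟩
    have := hS v (mem_of_conn hb hx hc)
    exact absurd hv (not_lt.2 this)
  · rintro ⟨hx, hne⟩
    by_contra hxS
    apply hne
    refine Esc.mono ?_ (h2 x hx hxS)
    intro e he
    have : e ∈ A ∩ (Ebox d n \ Ein S) := by exact_mod_cast he
    exact_mod_cast (Finset.mem_inter.1 this).1

lemma inn_mem {S : Finset (V d)} {e : Edge d} (he : e ∈ Ebd S) :
    ∃ w, Joins e (inn S e) w ∧ inn S e ∈ S ∧ w ∉ S := by
  rw [mem_Ebd] at he
  unfold inn
  rcases he with ⟨h1, h2⟩ | ⟨h1, h2⟩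
  · rw [if_pos h1]
    exact ⟨e.1 + Pi.single e.2 1, Or.inl ⟨rfl, rfl⟩, h1, h2⟩
  · rw [if_neg h1]
    exact ⟨e.1, Or.inr ⟨rfl, rfl⟩, h2, h1⟩

/-- a boundary edge of `Sc` is pivotal when its inner endpoint is connected to the origin -/
lemma pivotal_of {n : ℕ} {A : Finset (Edge d)} {S : Finset (V d)} (h0 : 0 ∈ S)
    (h : IsSc n (A : Set (Edge d)) S) {e : Edge d} (he : e ∈ Ebd S)
    (hc : Conn ((A ∩ Ein S : Finset (Edge d)) : Set (Edge d)) 0 (inn S e)) :
    (insert e A ∈ exitEv d n ∧ A.erase e ∉ exitEv d n) ∧ A ∉ exitEv d n := by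
  have hA : A ∉ exitEv d n := by
    rintro ⟨v, hv, hc'⟩
    exact ((h 0).1 h0).2 ⟨v, hv, hc'⟩
  refine ⟨⟨?_, ?_⟩, hA⟩
  · obtain ⟨w, hj, -, hw⟩ := inn_mem he
    have h1 : Conn ((insert e A : Finset (Edge d)) : Set (Edge d)) 0 (inn S e) := by
      refine conn_mono ?_ hc
      intro f hf
      have : f ∈ A ∩ Ein S := by exact_mod_cast hf
      have hfA := (Finset.mem_inter.1 this).1
      exact_mod_cast Finset.mem_insert_of_mem hfA
    have h2 : Conn ((insert e A : Finset (Edge d)) : Set (Edge d)) (inn S e) w :=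
      conn_edge (e := e) (by simp) hj
    have h3 : Esc n ((insert e A : Finset (Edge d)) : Set (Edge d)) w := by
      by_cases hwn : nm w ≤ n
      · have : Esc n (A : Set (Edge d)) w := by
          by_contra hne
          exact hw ((h w).2 ⟨hwn, hne⟩)
        exact this.mono (by intro f hf; simp only [Finset.coe_insert]; exact Or.inr hf)
      · exact esc_of_out (not_le.1 hwn)
    obtain ⟨v, hv, hv'⟩ := Esc.of_conn (conn_trans h1 h2) h3
    exact ⟨v, hv, hv'⟩
  · intro h1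
    exact hA (exitEv_inc n _ _ (Finset.erase_subset e A) h1)

end DiffAux

open DiffAux

theorem diff_ineq (n : ℕ) (p c : ℝ) (hp : 0 < p) (hp1 : p < 1) (hc : 0 ≤ c)
    (h : ∀ S : Finset (V d), 0 ∈ S → (∀ x ∈ S, nm x ≤ n) → c ≤ phi S p) :
    c * (1 - fex d n p) ≤ p * (1 - p) *
      ∑ e ∈ Ebox d n, prb (Ebox d n) {A | insert e A ∈ exitEv d n ∧ A.erase e ∉ exitEv d n} p := by
  set Box : Finset (V d) := (finite_bl (d := d) (n : ℝ)).toFinset with hBox
  have hmemBox : ∀ x, x ∈ Box ↔ nm x ≤ n := by intro x; simp [hBox]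
  set 𝒮 : Finset (Finset (V d)) := Box.powerset.filter (fun S => (0 : V d) ∈ S) with h𝒮
  have hS0 : ∀ S ∈ 𝒮, (0 : V d) ∈ S := fun S hS => (Finset.mem_filter.1 hS).2
  have hSn : ∀ S ∈ 𝒮, ∀ x ∈ S, nm x ≤ n := fun S hS x hx =>
    (hmemBox x).1 (Finset.mem_powerset.1 (Finset.mem_filter.1 hS).1 hx)
  set q : Finset (V d) → ℝ := fun S => prb (Ebox d n \ Ein S) (Tev n S) p with hq
  have hq0 : ∀ S, 0 ≤ q S := fun S => prb_nonneg _ _ hp.le hp1.le
  set r : Finset (V d) → Edge d → ℝ := fun S e =>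
    prb (Ein S) {A | Conn (A : Set (Edge d)) 0 (inn S e)} p with hr
  set G : Edge d → Finset (V d) → Set (Finset (Edge d)) := fun e S =>
    {A | A ∩ Ein S ∈ {B : Finset (Edge d) | Conn (B : Set (Edge d)) 0 (inn S e)} ∧
      A ∩ (Ebox d n \ Ein S) ∈ Tev n S} with hG
  -- probability of the events `G`
  have hprod : ∀ S ∈ 𝒮, ∀ e, prb (Ebox d n) (G e S) p = r S e * q S := by
    intro S hS e
    have hsub := Ein_subset (hSn S hS)
    have hun : Ein S ∪ (Ebox d n \ Ein S) = Ebox d n := Finset.union_sdiff_of_subset hsub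
    have := prb_prod (Ein S) (Ebox d n \ Ein S) Finset.disjoint_sdiff
      {B : Finset (Edge d) | Conn (B : Set (Edge d)) 0 (inn S e)} (Tev n S) p
    rw [hun] at this
    exact this
  -- the complement of the exit event
  have hcompl : 1 - fex d n p ≤ ∑ S ∈ 𝒮, q S := by
    have h1 : 1 - fex d n p = prb (Ebox d n) (exitEv d n)ᶜ p := (prb_compl _ _ _).symm
    rw [h1]
    have h2 : prb (Ebox d n) (exitEv d n)ᶜ p ≤
        prb (Ebox d n) (⋃ S ∈ 𝒮, {A | A ∩ (Ebox d n \ Ein S) ∈ Tev n S}) p := by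
      apply prb_mono _ _ _ _ hp.le hp1.le
      intro A hA hAc
      obtain ⟨S, hS⟩ := isSc_exists n (A : Set (Edge d))
      have h0 : (0 : V d) ∈ S := by
        rw [hS 0]
        refine ⟨by rw [nm_zero]; positivity, ?_⟩
        rintro ⟨v, hv, hv'⟩
        exact hAc ⟨v, hv, hv'⟩
      have hSm : S ∈ 𝒮 := by
        rw [h𝒮, Finset.mem_filter, Finset.mem_powerset]
        exact ⟨fun x hx => (hmemBox x).2 ((hS x).1 hx).1, h0⟩
      simp only [Set.mem_iUnion]
      exact ⟨S, hSm, isSc_imp hA hS⟩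
    refine h2.trans ((prb_biUnion_le _ _ _ hp.le hp1.le).trans (le_of_eq ?_))
    apply Finset.sum_congr rfl
    intro S hS
    exact prb_restrict (Ebox d n) (Ebox d n \ Ein S) Finset.sdiff_subset (Tev n S) p
  -- the pivotal edges
  have hpiv : ∀ e ∈ Ebox d n, ∑ S ∈ 𝒮.filter (fun S => e ∈ Ebd S), r S e * q S ≤
      (1 - p) * prb (Ebox d n) {A | insert e A ∈ exitEv d n ∧ A.erase e ∉ exitEv d n} p := by
    intro e he
    rw [← prb_pivotal (Ebox d n) (exitEv d n) e he p]
    have h1 : ∑ S ∈ 𝒮.filter (fun S => e ∈ Ebd S), r S e * q S =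
        prb (Ebox d n) (⋃ S ∈ 𝒮.filter (fun S => e ∈ Ebd S), G e S) p := by
      rw [prb_biUnion]
      · apply Finset.sum_congr rfl
        intro S hS
        exact (hprod S (Finset.mem_filter.1 hS).1 e).symm
      · intro S hS T hT hST
        rw [Set.disjoint_left]
        intro A hA hA'
        have hS' := isSc_of (hSn S (Finset.mem_filter.1 hS).1) hA.2
        have hT' := isSc_of (hSn T (Finset.mem_filter.1 hT).1) hA'.2
        exact hST (isSc_unique hS' hT')
    rw [h1]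
    apply prb_mono _ _ _ _ hp.le hp1.le
    intro A hA hAG
    simp only [Set.mem_iUnion] at hAG
    obtain ⟨S, hS, hAG⟩ := hAG
    have hS' := Finset.mem_filter.1 hS
    exact pivotal_of (hS0 S hS'.1) (isSc_of (hSn S hS'.1) hAG.2) hS'.2 hAG.1
  -- exchange of sums
  have hsum : ∑ e ∈ Ebox d n, ∑ S ∈ 𝒮.filter (fun S => e ∈ Ebd S), r S e * q S =
      ∑ S ∈ 𝒮, ∑ e ∈ Ebd S, r S e * q S := by
    apply Finset.sum_comm'
    intro e S
    rw [Finset.mem_filter]
    constructor
    · rintro ⟨-, hS, he⟩; exact ⟨he, hS⟩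
    · rintro ⟨he, hS⟩; exact ⟨Ebd_subset (hSn S hS) he, hS, he⟩
  have hfin : c * ∑ S ∈ 𝒮, q S ≤ p * ∑ S ∈ 𝒮, ∑ e ∈ Ebd S, r S e * q S := by
    rw [Finset.mul_sum, Finset.mul_sum]
    apply Finset.sum_le_sum
    intro S hS
    have h1 : p * ∑ e ∈ Ebd S, r S e * q S = phi S p * q S := by
      rw [← Finset.sum_mul, ← mul_assoc]
      rfl
    rw [h1]
    exact mul_le_mul_of_nonneg_right (h S (hS0 S hS) (hSn S hS)) (hq0 S)
  calc c * (1 - fex d n p) ≤ c * ∑ S ∈ 𝒮, q S := mul_le_mul_of_nonneg_left hcompl hc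
    _ ≤ p * ∑ S ∈ 𝒮, ∑ e ∈ Ebd S, r S e * q S := hfin
    _ = p * ∑ e ∈ Ebox d n, ∑ S ∈ 𝒮.filter (fun S => e ∈ Ebd S), r S e * q S := by rw [hsum]
    _ ≤ p * ∑ e ∈ Ebox d n, (1 - p) *
        prb (Ebox d n) {A | insert e A ∈ exitEv d n ∧ A.erase e ∉ exitEv d n} p :=
      mul_le_mul_of_nonneg_left (Finset.sum_le_sum hpiv) hp.le
    _ = p * (1 - p) * ∑ e ∈ Ebox d n,
        prb (Ebox d n) {A | insert e A ∈ exitEv d n ∧ A.erase e ∉ exitEv d n} p := by
      rw [← Finset.mul_sum, mul_assoc]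

end FPPX
end

section

/-! Integration of the differential inequality. -/

namespace FPPX

open MeasureTheory ProbabilityTheory Filter Set
open scoped Topology

variable {d : ℕ}

theorem fex_lower (n : ℕ) (p0 p1 : ℝ) (h0 : 0 < p0) (h01 : p0 < p1) (h1 : p1 < 1)
    (h : ∀ S : Finset (V d), 0 ∈ S → ∀ q : ℝ, p0 ≤ q → q ≤ p1 → 1 ≤ phi S q) :
    (p1 - p0) / (p1 * (1 - p0)) ≤ fex d n p1 := by
  classical
  set f' : ℝ → ℝ := fun p => ∑ e ∈ Ebox d n,
    prb (Ebox d n) {A | insert e A ∈ exitEv d n ∧ A.erase e ∉ exitEv d n} p with hf'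
  have hf : ∀ p, HasDerivAt (fex d n) (f' p) p := by
    intro p
    exact prb_hasDerivAt (Ebox d n) (exitEv d n) (fun A B hAB hA => exitEv_inc n A B hAB hA) p
  have hG : ∀ p, p < 1 → HasDerivAt (fun q => (1 - fex d n q) * (q / (1 - q)))
      ((0 - f' p) * (p / (1 - p)) + (1 - fex d n p) *
        ((1 * (1 - p) - p * (0 - 1)) / (1 - p) ^ 2)) p := by
    intro p hp
    have hne : (1 : ℝ) - p ≠ 0 := by linarith
    exact ((hasDerivAt_const p (1 : ℝ)).sub (hf p)).mul
      ((hasDerivAt_id p).div ((hasDerivAt_const p (1 : ℝ)).sub (hasDerivAt_id p)) hne)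
  have hanti : AntitoneOn (fun q => (1 - fex d n q) * (q / (1 - q))) (Icc p0 p1) := by
    apply antitoneOn_of_deriv_nonpos (convex_Icc p0 p1)
    · intro p hp
      exact (hG p (lt_of_le_of_lt hp.2 h1)).continuousAt.continuousWithinAt
    · intro p hp
      rw [interior_Icc] at hp
      exact (hG p (hp.2.trans h1)).differentiableAt.differentiableWithinAt
    · intro p hp
      rw [interior_Icc] at hp
      have hp1 : p < 1 := hp.2.trans h1
      have hp0 : 0 < p := h0.trans hp.1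
      rw [(hG p hp1).deriv]
      have hd := diff_ineq (d := d) n p 1 hp0 hp1 zero_le_one
        (fun S hS _ => h S hS p hp.1.le hp.2.le)
      have hd' : 1 * (1 - fex d n p) ≤ p * (1 - p) * f' p := hd
      have hpos : 0 < 1 - p := by linarith
      have e : (0 - f' p) * (p / (1 - p)) + (1 - fex d n p) *
          ((1 * (1 - p) - p * (0 - 1)) / (1 - p) ^ 2) =
          ((1 - fex d n p) - p * (1 - p) * f' p) / (1 - p) ^ 2 := by
        field_simp
        ring
      rw [e]
      apply div_nonpos_of_nonpos_of_nonneg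
      · linarith
      · positivity
  have h2 := hanti (left_mem_Icc.mpr h01.le) (right_mem_Icc.mpr h01.le) h01.le
  simp only at h2
  have h3 : 0 ≤ fex d n p0 := prb_nonneg _ _ h0.le (h01.trans h1).le
  have hp0 : 0 < 1 - p0 := by linarith
  have hp1 : 0 < 1 - p1 := by linarith
  have hp1' : 0 < p1 := h0.trans h01
  have h4 : (1 - fex d n p0) * (p0 / (1 - p0)) ≤ p0 / (1 - p0) := by
    have : 0 ≤ p0 / (1 - p0) := by positivity
    nlinarith
  have h5 := h2.trans h4
  rw [← mul_div_assoc, div_le_div_iff₀ hp1 hp0] at h5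
  rw [div_le_iff₀ (by positivity)]
  nlinarith

end FPPX
end

section

/-! Below criticality some `phi S` is smaller than one. -/

namespace FPPX

open MeasureTheory ProbabilityTheory Filter Set
open scoped Topology

variable {d : ℕ}

theorem phi_mono (S : Finset (V d)) {p q : ℝ} (hp : 0 ≤ p) (hpq : p ≤ q) (hq : q ≤ 1) :
    phi S p ≤ phi S q := by
  unfold phi
  have hp1 : p ≤ 1 := hpq.trans hq
  have h0 : ∀ e ∈ Ebd S, 0 ≤ prb (Ein S) {A | Conn (A : Set (Edge d)) 0 (inn S e)} p :=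
    fun e _ => prb_nonneg _ _ hp hp1
  refine mul_le_mul hpq (Finset.sum_le_sum fun e _ => ?_) (Finset.sum_nonneg h0) (hp.trans hpq)
  refine prb_mono_p _ _ ?_ hp hpq hq
  rintro A B hAB ⟨l, hl, hlA⟩
  exact ⟨l, hl, fun e he => Finset.mem_coe.mpr (hAB (Finset.mem_coe.mp (hlA e he)))⟩

theorem exists_phi_lt (hd : 1 ≤ d) (p0 : ℝ) (h0 : 0 ≤ p0) (h : p0 < pc d) :
    ∃ (p1 : ℝ) (S : Finset (V d)), p0 < p1 ∧ p1 < 1 ∧ 0 ∈ S ∧ phi S p1 < 1 := by
  have hne : {p : ℝ | ∃ h : p ∈ unitInterval, percTheta d ⟨p, h⟩ = 0}.Nonempty := by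
    by_contra hne
    rw [not_nonempty_iff_eq_empty] at hne
    unfold pc at h
    rw [hne, Real.sSup_empty] at h
    linarith
  obtain ⟨p, ⟨hpI, hp⟩, hp0⟩ := exists_lt_of_lt_csSup hne h
  have hp1 : p < 1 := by
    refine lt_of_le_of_ne hpI.2 ?_
    rintro rfl
    have h1 := theta_one (d := d) hd
    have h2 : (⟨1, hpI⟩ : unitInterval) = 1 := rfl
    rw [h2, h1] at hp
    exact one_ne_zero hp
  by_contra hcon
  push Not at hcon
  set p' := (p0 + p) / 2 with hp'
  have ha : p0 < p' := by rw [hp']; linarith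
  have hb : p' < p := by rw [hp']; linarith
  have hc : (p - p') / (p * (1 - p')) ≤ percTheta d ⟨p, hpI⟩ := by
    refine theta_ge _ _ fun n => ?_
    refine fex_lower n p' p (h0.trans_lt ha) hb hp1 ?_
    intro S hS q hq1 hq2
    exact hcon q S (ha.trans_le hq1) (hq2.trans_lt hp1) hS
  rw [hp] at hc
  have hd' : 0 < (p - p') / (p * (1 - p')) := by
    apply div_pos (by linarith)
    apply mul_pos (by linarith) (by linarith)
  linarith

end FPPX
end

section

/-! Exponential decay. -/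

namespace FPPX

open MeasureTheory ProbabilityTheory Filter Set
open scoped Topology

variable {d : ℕ}

/-- induction along a path -/
theorem path_induct {A : Set (Edge d)} {P : V d → Prop}
    (hstep : ∀ a b : V d, ∀ e : Edge d, P a → e ∈ A → Joins e a b → P b) {v : V d} :
    ∀ (l : List (Edge d)) (u : V d), IsPath u v l → (∀ e ∈ l, e ∈ A) → P u → P v := by
  intro l
  induction l with
  | nil => intro u h _ hu; exact h ▸ hu
  | cons e l ih =>
    rintro u ⟨w, h1, h2⟩ hl hu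
    exact ih w h2 (fun f hf => hl f (List.mem_cons_of_mem _ hf))
      (hstep u w e hu (hl e List.mem_cons_self) h1)

/-- the last exit from a set of vertices -/
theorem last_exit (P : V d → Prop) {v : V d} (hv : ¬ P v) :
    ∀ (l : List (Edge d)) (u : V d), IsPath u v l →
      (¬ P u ∧ ∀ f ∈ l, ¬ P f.1 ∧ ¬ P (f.1 + Pi.single f.2 1)) ∨
      ∃ e ∈ l, ∃ a b : V d, P a ∧ ¬ P b ∧ Joins e a b ∧ ∃ l' : List (Edge d), IsPath b v l' ∧
        ∀ f ∈ l', f ∈ l ∧ ¬ P f.1 ∧ ¬ P (f.1 + Pi.single f.2 1) := by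
  intro l
  induction l with
  | nil => intro u h; left; exact ⟨by rw [show u = v from h]; exact hv, by simp⟩
  | cons e l ih =>
    rintro u ⟨w, h1, h2⟩
    rcases ih w h2 with ⟨hw, hl⟩ | ⟨e', he', a, b, ha, hb, hj, l', hl', hf⟩
    · by_cases hu : P u
      · right
        exact ⟨e, List.mem_cons_self, u, w, hu, hw, h1, l, h2,
          fun f hf => ⟨List.mem_cons_of_mem _ hf, hl f hf⟩⟩
      · left
        refine ⟨hu, fun f hf => ?_⟩
        rcases List.mem_cons.1 hf with rfl | hf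
        · rcases h1 with ⟨g1, g2⟩ | ⟨g1, g2⟩
          · rw [← g2, ← g1]; exact ⟨hu, hw⟩
          · rw [← g2, ← g1]; exact ⟨hw, hu⟩
        · exact hl f hf
    · right
      exact ⟨e', List.mem_cons_of_mem _ he', a, b, ha, hb, hj, l', hl',
        fun f hf' => ⟨List.mem_cons_of_mem _ (hf f hf').1, (hf f hf').2⟩⟩

theorem Conn.mono {A B : Set (Edge d)} (h : A ⊆ B) {u v : V d} (hc : Conn A u v) : Conn B u v := by
  obtain ⟨l, h1, h2⟩ := hc
  exact ⟨l, h1, fun e he => h (h2 e he)⟩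

theorem Conn.refl (A : Set (Edge d)) (u : V d) : Conn A u u := ⟨[], rfl, by simp⟩

theorem Conn.step {A : Set (Edge d)} {u v w : V d} (h : Conn A u v) {e : Edge d} (he : e ∈ A)
    (hj : Joins e v w) : Conn A u w := by
  obtain ⟨l, h1, h2⟩ := h
  refine ⟨l ++ [e], h1.append ⟨w, hj, rfl⟩, ?_⟩
  intro f hf
  rcases List.mem_append.1 hf with hf | hf
  · exact h2 f hf
  · rw [List.mem_singleton.1 hf]; exact he

open Classical in
/-- the cluster of the origin inside `S` -/
noncomputable def Cl (S : Finset (V d)) (B : Finset (Edge d)) : Finset (V d) :=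
  S.filter (fun x => Conn ((B : Set (Edge d)) ∩ ↑(Ein S)) 0 x)

theorem mem_Cl {S : Finset (V d)} {B : Finset (Edge d)} {x : V d} :
    x ∈ Cl S B ↔ x ∈ S ∧ Conn ((B : Set (Edge d)) ∩ ↑(Ein S)) 0 x := by
  classical
  simp only [Cl, Finset.mem_filter]

theorem zero_mem_Cl {S : Finset (V d)} (hS : 0 ∈ S) (B : Finset (Edge d)) : 0 ∈ Cl S B :=
  mem_Cl.2 ⟨hS, Conn.refl _ _⟩

theorem Joins.ends {e : Edge d} {a b : V d} (h : Joins e a b) (P : V d → Prop) :
    (P a ∧ P b) ↔ (P e.1 ∧ P (e.1 + Pi.single e.2 1)) := by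
  rcases h with ⟨rfl, rfl⟩ | ⟨rfl, rfl⟩
  · exact Iff.rfl
  · exact and_comm

/-- closedness of the cluster -/
theorem Cl_step {S : Finset (V d)} {B : Finset (Edge d)} {a b : V d} {e : Edge d}
    (ha : a ∈ Cl S B) (he : e ∈ B) (hj : Joins e a b) (hb : b ∈ S) : b ∈ Cl S B := by
  obtain ⟨h1, h2⟩ := mem_Cl.1 ha
  refine mem_Cl.2 ⟨hb, h2.step ⟨he, ?_⟩ hj⟩
  rw [Finset.mem_coe, mem_Ein]
  exact (hj.ends (fun x => x ∈ S)).1 ⟨h1, hb⟩

open Classical in
/-- inner edges with an endpoint in `C0` -/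
noncomputable def E1 (S C0 : Finset (V d)) : Finset (Edge d) :=
  (Ein S).filter (fun e => e.1 ∈ C0 ∨ e.1 + Pi.single e.2 1 ∈ C0)

theorem mem_E1 {S C0 : Finset (V d)} {e : Edge d} :
    e ∈ E1 S C0 ↔ e ∈ Ein S ∧ (e.1 ∈ C0 ∨ e.1 + Pi.single e.2 1 ∈ C0) := by
  unfold E1
  exact Finset.mem_filter

theorem Cl_local {S : Finset (V d)} (hS : 0 ∈ S) (C0 : Finset (V d)) (A : Finset (Edge d)) :
    Cl S A = C0 ↔ Cl S (A ∩ E1 S C0) = C0 := by
  have hsub : Cl S (A ∩ E1 S C0) ⊆ Cl S A := by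
    intro x hx
    obtain ⟨h1, h2⟩ := mem_Cl.1 hx
    refine mem_Cl.2 ⟨h1, h2.mono ?_⟩
    intro e he
    exact ⟨Finset.mem_coe.2 (Finset.mem_of_mem_inter_left (Finset.mem_coe.1 he.1)), he.2⟩
  constructor
  · intro h
    refine Finset.Subset.antisymm (hsub.trans h.subset) ?_
    intro x hx
    rw [← h] at hx
    obtain ⟨h1, l, hl1, hl2⟩ := mem_Cl.1 hx
    have key : x ∈ Cl S A ∧ x ∈ Cl S (A ∩ E1 S C0) := by
      refine path_induct (A := (A : Set (Edge d)) ∩ ↑(Ein S))
        (P := fun y => y ∈ Cl S A ∧ y ∈ Cl S (A ∩ E1 S C0)) ?_ l 0 hl1 hl2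
        ⟨zero_mem_Cl hS _, zero_mem_Cl hS _⟩
      rintro a b e ⟨ha1, ha2⟩ he hj
      have heS := (mem_Ein S e).1 (Finset.mem_coe.1 he.2)
      have hb : b ∈ S := ((hj.ends (fun x => x ∈ S)).2 heS).2
      refine ⟨Cl_step ha1 (Finset.mem_coe.1 he.1) hj hb, Cl_step ha2 ?_ hj hb⟩
      rw [Finset.mem_inter, mem_E1]
      refine ⟨Finset.mem_coe.1 he.1, Finset.mem_coe.1 he.2, ?_⟩
      rw [h] at ha1
      rcases hj with ⟨g1, -⟩ | ⟨-, g2⟩
      · left; rw [← g1]; exact ha1
      · right; rw [← g2]; exact ha1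
    exact key.2
  · intro h
    refine Finset.Subset.antisymm ?_ (h.symm.subset.trans hsub)
    intro x hx
    obtain ⟨h1, l, hl1, hl2⟩ := mem_Cl.1 hx
    have key : x ∈ Cl S (A ∩ E1 S C0) := by
      refine path_induct (A := (A : Set (Edge d)) ∩ ↑(Ein S))
        (P := fun y => y ∈ Cl S (A ∩ E1 S C0)) ?_ l 0 hl1 hl2 (zero_mem_Cl hS _)
      intro a b e ha he hj
      have heS := (mem_Ein S e).1 (Finset.mem_coe.1 he.2)
      have hb : b ∈ S := ((hj.ends (fun x => x ∈ S)).2 heS).2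
      refine Cl_step ha ?_ hj hb
      rw [Finset.mem_inter, mem_E1]
      refine ⟨Finset.mem_coe.1 he.1, Finset.mem_coe.1 he.2, ?_⟩
      rw [h] at ha
      rcases hj with ⟨g1, -⟩ | ⟨-, g2⟩
      · left; rw [← g1]; exact ha
      · right; rw [← g2]; exact ha
    rw [h] at key
    exact key

open Classical in
/-- edges which avoid `C0` -/
noncomputable def E3 (E0 : Finset (Edge d)) (C0 : Finset (V d)) : Finset (Edge d) :=
  E0.filter (fun e => e.1 ∉ C0 ∧ e.1 + Pi.single e.2 1 ∉ C0)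

theorem mem_E3 {E0 : Finset (Edge d)} {C0 : Finset (V d)} {e : Edge d} :
    e ∈ E3 E0 C0 ↔ e ∈ E0 ∧ e.1 ∉ C0 ∧ e.1 + Pi.single e.2 1 ∉ C0 := by
  unfold E3
  exact Finset.mem_filter

theorem inn_out {S : Finset (V d)} {e : Edge d} {a b : V d} (hj : Joins e a b) (ha : a ∈ S)
    (hb : b ∉ S) : e ∈ Ebd S ∧ inn S e = a ∧ out S e = b := by
  rcases hj with ⟨rfl, rfl⟩ | ⟨rfl, rfl⟩
  · refine ⟨(mem_Ebd S e).2 (Or.inl ⟨ha, hb⟩), ?_, ?_⟩
    · unfold inn; rw [if_pos ha]
    · unfold out; rw [if_pos ha]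
  · refine ⟨(mem_Ebd S e).2 (Or.inr ⟨hb, ha⟩), ?_, ?_⟩
    · unfold inn; rw [if_neg hb]
    · unfold out; rw [if_neg hb]

theorem inn_out_spec {S : Finset (V d)} {e : Edge d} (he : e ∈ Ebd S) :
    inn S e ∈ S ∧ out S e ∉ S ∧ Joins e (inn S e) (out S e) := by
  rcases (mem_Ebd S e).1 he with ⟨h1, h2⟩ | ⟨h1, h2⟩
  · unfold inn out
    rw [if_pos h1, if_pos h1]
    exact ⟨h1, h2, Or.inl ⟨rfl, rfl⟩⟩
  · unfold inn out
    rw [if_neg h1, if_neg h1]
    exact ⟨h2, h1, Or.inr ⟨rfl, rfl⟩⟩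

/-- the inclusion of events -/
theorem exit_decomp {S : Finset (V d)} (hS : 0 ∈ S) {L n : ℕ} (hL : ∀ x ∈ S, nm x + 1 ≤ L)
    {E0 A : Finset (Edge d)} (hA : A ⊆ E0) (hex : A ∈ exitEv d (n + L)) :
    ∃ e ∈ Ebd S, inn S e ∈ Cl S A ∧ e ∈ A ∧ ∃ v : V d, ((n + L : ℕ) : ℝ) < nm v ∧
      Conn ((A ∩ E3 E0 (Cl S A) : Finset (Edge d)) : Set (Edge d)) (out S e) v := by
  obtain ⟨v, hv, l, hl1, hl2⟩ := hex
  have hvS : v ∉ S := by
    intro h
    have := hL v h
    push_cast at hv
    have : (0 : ℝ) ≤ n := Nat.cast_nonneg n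
    linarith
  have hvC : ¬ v ∈ Cl S A := fun h => hvS (mem_Cl.1 h).1
  rcases last_exit (fun x => x ∈ Cl S A) hvC l 0 hl1 with ⟨h0, -⟩ | h
  · exact absurd (zero_mem_Cl hS A) h0
  · obtain ⟨e, he, a, b, ha, hb, hj, l', hl', hf⟩ := h
    have heA : e ∈ A := Finset.mem_coe.1 (hl2 e he)
    have hbS : b ∉ S := fun h => hb (Cl_step ha heA hj h)
    have haS := (mem_Cl.1 ha).1
    obtain ⟨k1, k2, k3⟩ := inn_out hj haS hbS
    refine ⟨e, k1, by rw [k2]; exact ha, heA, v, hv, l', by rw [k3]; exact hl', ?_⟩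
    intro f hf'
    have := hf f hf'
    rw [Finset.mem_coe, Finset.mem_inter, mem_E3]
    have hfA : f ∈ A := Finset.mem_coe.1 (hl2 f this.1)
    exact ⟨hfA, hA hfA, this.2⟩

/-- translation of edges -/
def shE (y : V d) : Edge d ↪ Edge d :=
  ⟨fun e => (e.1 + y, e.2), fun e f h => by
    simp only [Prod.mk.injEq, add_left_inj] at h
    exact Prod.ext h.1 h.2⟩

theorem shE_apply (y : V d) (e : Edge d) : shE y e = (e.1 + y, e.2) := rfl

theorem prb_map {ι κ : Type} [DecidableEq ι] [DecidableEq κ] (f : ι ↪ κ) (E : Finset ι)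
    (𝒜 : Set (Finset κ)) (p : ℝ) : prb (E.map f) 𝒜 p = prb E {B | B.map f ∈ 𝒜} p := by
  unfold prb
  symm
  refine Finset.sum_bij (fun B _ => B.map f) ?_ ?_ ?_ ?_
  · intro B hB
    rw [Finset.mem_powerset] at hB ⊢
    exact Finset.map_subset_map.2 hB
  · intro B _ B' _ h
    exact Finset.map_injective f h
  · intro A hA
    rw [Finset.mem_powerset] at hA
    obtain ⟨B, hB, rfl⟩ := Finset.subset_map_iff.1 hA
    exact ⟨B, Finset.mem_powerset.2 hB, rfl⟩
  · intro B _
    by_cases h : B.map f ∈ 𝒜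
    · rw [Set.indicator_of_mem (show B ∈ {B | B.map f ∈ 𝒜} from h), Set.indicator_of_mem h,
        Finset.card_map, Finset.card_map]
    · rw [Set.indicator_of_notMem (show B ∉ {B | B.map f ∈ 𝒜} from h), Set.indicator_of_notMem h]

theorem Conn.shift (y : V d) {A B : Set (Edge d)} {u v : V d} (h : Conn A u v)
    (hAB : ∀ e ∈ A, ((e.1 + y, e.2) : Edge d) ∈ B) : Conn B (u + y) (v + y) := by
  obtain ⟨l, h1, h2⟩ := h
  refine ⟨_, h1.shift y, ?_⟩
  intro e he
  obtain ⟨f, hf, rfl⟩ := List.mem_map.1 he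
  exact hAB f (h2 f hf)

/-- connection from `y` to distance more than `n` -/
theorem prb_far_le {n m : ℕ} (y : V d) (hy : nm y + n ≤ m) {p : ℝ} (h0 : 0 ≤ p) (h1 : p ≤ 1) :
    prb (Ebox d m) {A | ∃ v : V d, (n : ℝ) < nm v ∧ Conn (A : Set (Edge d)) y (v + y)} p
      ≤ fex d n p := by
  set W : Set (Finset (Edge d)) :=
    {A | ∃ v : V d, (n : ℝ) < nm v ∧ Conn (A : Set (Edge d)) y (v + y)} with hW
  set T : Finset (Edge d) := (Ebox d n).map (shE y) with hT
  have hTsub : T ⊆ Ebox d m := by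
    intro e he
    obtain ⟨f, hf, rfl⟩ := Finset.mem_map.1 he
    rw [mem_Ebox] at hf ⊢
    rw [shE_apply]
    rcases hf with hf | hf
    · left
      show nm (f.1 + y) ≤ m
      have := nm_add f.1 y
      linarith
    · right
      show nm (f.1 + y + Pi.single f.2 1) ≤ m
      have e1 : f.1 + y + Pi.single f.2 1 = (f.1 + Pi.single f.2 1) + y := by abel
      rw [e1]
      have := nm_add (f.1 + Pi.single f.2 1) y
      linarith
  have hstep1 : prb (Ebox d m) W p ≤ prb (Ebox d m) {A | A ∩ T ∈ W} p := by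
    refine prb_mono _ _ _ ?_ h0 h1
    rintro A _ ⟨v, hv, hc⟩
    -- shift back
    have hc2 : Conn {e : Edge d | shE y e ∈ (A : Set (Edge d))} 0 v := by
      have := hc.shift (-y) (B := {e : Edge d | shE y e ∈ (A : Set (Edge d))}) (by
        intro e he
        show shE y (e.1 + -y, e.2) ∈ (A : Set (Edge d))
        rw [shE_apply]
        show ((e.1 + -y + y, e.2) : Edge d) ∈ (A : Set (Edge d))
        have : ((e.1 + -y + y, e.2) : Edge d) = e := by
          rw [neg_add_cancel_right]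
        rw [this]
        exact he)
      rw [add_neg_cancel, add_neg_cancel_right] at this
      exact this
    obtain ⟨w, hw, hc3⟩ := exit_restrict n _ v hv hc2
    refine ⟨w, hw, ?_⟩
    have hc4 := hc3.shift y (B := ((A ∩ T : Finset (Edge d)) : Set (Edge d))) (by
      rintro e ⟨he1, he2⟩
      rw [Finset.mem_coe, Finset.mem_inter]
      refine ⟨Finset.mem_coe.1 he1, Finset.mem_map.2 ⟨e, Finset.mem_coe.1 he2, rfl⟩⟩)
    rw [zero_add] at hc4
    exact hc4
  refine hstep1.trans ?_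
  rw [prb_restrict _ _ hTsub, hT, prb_map]
  unfold fex
  refine prb_mono _ _ _ ?_ h0 h1
  rintro B _ ⟨v, hv, hc⟩
  refine ⟨v, hv, ?_⟩
  have := hc.shift (-y) (B := (B : Set (Edge d))) (by
    intro e he
    obtain ⟨f, hf, rfl⟩ := Finset.mem_map.1 (Finset.mem_coe.1 he)
    rw [shE_apply]
    show ((f.1 + y + -y, f.2) : Edge d) ∈ (B : Set (Edge d))
    rw [add_neg_cancel_right]
    exact Finset.mem_coe.2 hf)
  rw [add_neg_cancel, add_neg_cancel_right] at this
  exact this

theorem fex_nonneg (d n : ℕ) {p : ℝ} (h0 : 0 ≤ p) (h1 : p ≤ 1) : 0 ≤ fex d n p :=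
  prb_nonneg _ _ h0 h1

theorem fex_le_one (d n : ℕ) {p : ℝ} (h0 : 0 ≤ p) (h1 : p ≤ 1) : fex d n p ≤ 1 := by
  unfold fex
  calc prb (Ebox d n) (exitEv d n) p ≤ prb (Ebox d n) univ p :=
        prb_mono _ _ _ (fun _ _ _ => mem_univ _) h0 h1
    _ = 1 := prb_univ _ _

theorem phi_nonneg (S : Finset (V d)) {p : ℝ} (h0 : 0 ≤ p) (h1 : p ≤ 1) : 0 ≤ phi S p := by
  unfold phi
  exact mul_nonneg h0 (Finset.sum_nonneg fun e _ => prb_nonneg _ _ h0 h1)

/-- one step: exploring the cluster of the origin inside `S` -/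
theorem decay_step (S : Finset (V d)) (hS : 0 ∈ S) (L : ℕ) (hL : ∀ x ∈ S, nm x + 1 ≤ L) (n : ℕ)
    {p : ℝ} (h0 : 0 ≤ p) (h1 : p ≤ 1) : fex d (n + L) p ≤ phi S p * fex d n p := by
  classical
  set E0 : Finset (Edge d) := Ebox d (n + L) with hE0
  -- the index set
  set κ : Finset (Finset (V d) × Edge d) :=
    (S.powerset ×ˢ Ebd S).filter (fun q => inn S q.2 ∈ q.1) with hκ
  set ev : Finset (V d) × Edge d → Set (Finset (Edge d)) := fun q =>
    {A | Cl S A = q.1 ∧ q.2 ∈ A ∧ ∃ v : V d, ((n + L : ℕ) : ℝ) < nm v ∧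
      Conn ((A ∩ E3 E0 q.1 : Finset (Edge d)) : Set (Edge d)) (out S q.2) v} with hev
  have hunion : fex d (n + L) p ≤ prb E0 (⋃ q ∈ κ, ev q) p := by
    unfold fex
    refine prb_mono _ _ _ ?_ h0 h1
    intro A hA hex
    obtain ⟨e, he1, he2, he3, he4⟩ := exit_decomp hS hL hA hex
    refine mem_iUnion₂.2 ⟨(Cl S A, e), ?_, rfl, he3, he4⟩
    rw [hκ, Finset.mem_filter, Finset.mem_product, Finset.mem_powerset]
    exact ⟨⟨fun x hx => (mem_Cl.1 hx).1, he1⟩, he2⟩
  refine hunion.trans ((prb_biUnion_le E0 κ ev h0 h1).trans ?_)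
  have hEin : Ein S ⊆ E0 := by
    intro e he
    rw [hE0, mem_Ebox]
    left
    have := hL e.1 ((mem_Ein S e).1 he).1
    push_cast
    have h3 : (0 : ℝ) ≤ n := Nat.cast_nonneg n
    linarith
  have hEbd : Ebd S ⊆ E0 := by
    intro e he
    rw [hE0, mem_Ebox]
    rcases (mem_Ebd S e).1 he with ⟨h3, -⟩ | ⟨-, h3⟩
    · left
      have := hL _ h3
      push_cast
      have h3 : (0 : ℝ) ≤ n := Nat.cast_nonneg n
      linarith
    · right
      have := hL _ h3
      push_cast
      have h3 : (0 : ℝ) ≤ n := Nat.cast_nonneg n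
      linarith
  have hterm : ∀ q ∈ κ, prb E0 (ev q) p ≤
      prb (Ein S) {A | Cl S A = q.1} p * (p * fex d n p) := by
    rintro ⟨C0, e⟩ hq
    rw [hκ, Finset.mem_filter, Finset.mem_product, Finset.mem_powerset] at hq
    obtain ⟨⟨hC0, he⟩, hin⟩ := hq
    simp only at hC0 he hin
    obtain ⟨hi1, ho1, hj⟩ := inn_out_spec he
    have hE1E0 : E1 S C0 ⊆ E0 := fun f hf => hEin (mem_E1.1 hf).1
    have heE1 : e ∉ E1 S C0 := by
      intro h
      have := (mem_Ein S e).1 (mem_E1.1 h).1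
      exact ho1 ((hj.ends (fun x => x ∈ S)).2 this).2
    have heE3 : e ∉ E3 E0 C0 := by
      intro h
      have := (mem_E3.1 h).2
      exact ((hj.ends (fun x => x ∉ C0)).2 this).1 hin
    have hdisj13 : Disjoint (E1 S C0) (E3 E0 C0) := by
      rw [Finset.disjoint_left]
      intro f hf1 hf3
      rcases (mem_E1.1 hf1).2 with h | h
      · exact (mem_E3.1 hf3).2.1 h
      · exact (mem_E3.1 hf3).2.2 h
    -- the far event
    set D : Set (Finset (Edge d)) :=
      {B | ∃ v : V d, ((n + L : ℕ) : ℝ) < nm v ∧ Conn (B : Set (Edge d)) (out S e) v} with hD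
    set R2 : Finset (Edge d) := E0 \ E1 S C0 with hR2
    have hE0' : E0 = E1 S C0 ∪ R2 := by rw [hR2, Finset.union_sdiff_of_subset hE1E0]
    have hd12 : Disjoint (E1 S C0) R2 := Finset.disjoint_sdiff
    have heR2 : e ∈ R2 := Finset.mem_sdiff.2 ⟨hEbd he, heE1⟩
    have hE3R2 : E3 E0 C0 ⊆ R2.erase e := by
      intro f hf
      rw [Finset.mem_erase]
      refine ⟨fun h => heE3 (h ▸ hf), Finset.mem_sdiff.2 ⟨(mem_E3.1 hf).1, fun h => ?_⟩⟩
      exact Finset.disjoint_left.1 hdisj13 h hf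
    have hfirst : prb E0 (ev (C0, e)) p =
        prb (E1 S C0) {B | Cl S B = C0} p * prb R2 {B | e ∈ B ∧ B ∩ E3 E0 C0 ∈ D} p := by
      rw [← prb_prod (E1 S C0) R2 hd12, ← hE0']
      congr 1
      ext A
      simp only [hev, mem_ofPred_eq]
      refine and_congr (Cl_local hS C0 A) (and_congr ?_ ?_)
      · rw [Finset.mem_inter]
        exact ⟨fun h => ⟨h, heR2⟩, fun h => h.1⟩
      · have : A ∩ R2 ∩ E3 E0 C0 = A ∩ E3 E0 C0 := by
          rw [Finset.inter_assoc]
          congr 1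
          exact Finset.inter_eq_right.2 (hE3R2.trans (Finset.erase_subset _ _))
        rw [this]
        exact Iff.rfl
    have hsecond : prb R2 {B | e ∈ B ∧ B ∩ E3 E0 C0 ∈ D} p = p * prb (E3 E0 C0) D p := by
      have hR2' : R2 = {e} ∪ R2.erase e := by
        rw [← Finset.insert_eq, Finset.insert_erase heR2]
      have hd3 : Disjoint ({e} : Finset (Edge d)) (R2.erase e) := by
        rw [Finset.disjoint_singleton_left]
        exact Finset.notMem_erase e R2
      have hpr := prb_prod {e} (R2.erase e) hd3 {B | e ∈ B} {B | B ∩ E3 E0 C0 ∈ D} p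
      rw [← hR2', prb_mem _ _ (Finset.mem_singleton_self e), prb_restrict _ _ hE3R2] at hpr
      rw [← hpr]
      congr 1
      ext B
      simp only [mem_ofPred_eq]
      refine and_congr ?_ ?_
      · rw [Finset.mem_inter]
        exact ⟨fun h => ⟨h, Finset.mem_singleton_self e⟩, fun h => h.1⟩
      · have : B ∩ R2.erase e ∩ E3 E0 C0 = B ∩ E3 E0 C0 := by
          rw [Finset.inter_assoc]
          congr 1
          exact Finset.inter_eq_right.2 hE3R2
        rw [this]
    have hthird : prb (E3 E0 C0) D p ≤ fex d n p := by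
      have hsub3 : E3 E0 C0 ⊆ E0 := fun f hf => (mem_E3.1 hf).1
      rw [← prb_restrict E0 (E3 E0 C0) hsub3]
      have hout : nm (out S e) + n ≤ ((n + L : ℕ) : ℝ) := by
        have h3 := hj.nm_le
        have h4 := hL _ hi1
        have h5 : out S e = (out S e - inn S e) + inn S e := by abel
        have h6 : nm (out S e) ≤ nm (out S e - inn S e) + nm (inn S e) := by
          conv_lhs => rw [h5]
          exact nm_add _ _
        push_cast
        linarith
      refine le_trans (prb_mono _ _ _ ?_ h0 h1) (prb_far_le (out S e) hout h0 h1)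
      rintro A _ ⟨v, hv, hc⟩
      refine ⟨v - out S e, ?_, ?_⟩
      · have h5 : v = (v - out S e) + out S e := by abel
        have h6 : nm v ≤ nm (v - out S e) + nm (out S e) := by
          conv_lhs => rw [h5]
          exact nm_add _ _
        linarith
      · rw [sub_add_cancel]
        exact hc.mono (by
          intro f hf
          exact Finset.mem_coe.2 (Finset.mem_of_mem_inter_left (Finset.mem_coe.1 hf)))
    have hfourth : prb (E1 S C0) {B | Cl S B = C0} p = prb (Ein S) {A | Cl S A = C0} p := by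
      have hsub : E1 S C0 ⊆ Ein S := fun f hf => (mem_E1.1 hf).1
      rw [← prb_restrict (Ein S) (E1 S C0) hsub]
      congr 1
      ext A
      exact (Cl_local hS C0 A).symm
    rw [hfirst, hsecond, hfourth]
    refine mul_le_mul_of_nonneg_left ?_ (prb_nonneg _ _ h0 h1)
    exact mul_le_mul_of_nonneg_left hthird h0
  refine (Finset.sum_le_sum hterm).trans ?_
  rw [← Finset.sum_mul]
  have hsum : ∑ q ∈ κ, prb (Ein S) {A | Cl S A = q.1} p
      = ∑ e ∈ Ebd S, prb (Ein S) {A | Conn (A : Set (Edge d)) 0 (inn S e)} p := by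
    rw [hκ, Finset.sum_filter, Finset.sum_product_right]
    refine Finset.sum_congr rfl fun e he => ?_
    obtain ⟨hi1, -, -⟩ := inn_out_spec he
    rw [← Finset.sum_filter]
    rw [← prb_biUnion (Ein S) (S.powerset.filter (fun C0 => inn S e ∈ C0))
      (fun C0 => {A | Cl S A = C0}) p (by
        intro C _ C' _ hne
        rw [Set.disjoint_left]
        intro A hA hA'
        exact hne (hA.symm.trans hA'))]
    apply le_antisymm
    · refine prb_mono _ _ _ ?_ h0 h1
      intro A hA hmem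
      obtain ⟨C0, hC0, hCl⟩ := mem_iUnion₂.1 hmem
      have h3 : inn S e ∈ Cl S A := by
        rw [show Cl S A = C0 from hCl]
        exact (Finset.mem_filter.1 hC0).2
      exact (mem_Cl.1 h3).2.mono inter_subset_left
    · refine prb_mono _ _ _ ?_ h0 h1
      intro A hA hc
      refine mem_iUnion₂.2 ⟨Cl S A, ?_, rfl⟩
      rw [Finset.mem_filter, Finset.mem_powerset]
      refine ⟨fun x hx => (mem_Cl.1 hx).1, mem_Cl.2 ⟨hi1, hc.mono ?_⟩⟩
      intro f hf
      exact ⟨hf, Finset.mem_coe.2 (hA (Finset.mem_coe.1 hf))⟩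
  rw [hsum]
  unfold phi
  apply le_of_eq
  ring

theorem fex_anti (d : ℕ) {n m : ℕ} (hnm : n ≤ m) {p : ℝ} (h0 : 0 ≤ p) (h1 : p ≤ 1) :
    fex d m p ≤ fex d n p := by
  unfold fex
  have hsub : Ebox d n ⊆ Ebox d m := by
    intro e he
    have hc : (n : ℝ) ≤ m := by exact_mod_cast hnm
    rw [mem_Ebox] at he ⊢
    rcases he with h | h
    · left; linarith
    · right; linarith
  rw [← prb_restrict _ _ hsub (exitEv d n) p]
  refine prb_mono _ _ _ ?_ h0 h1
  rintro A _ ⟨v, hv, hc⟩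
  have hc' : (n : ℝ) ≤ m := by exact_mod_cast hnm
  obtain ⟨w, hw, hc2⟩ := exit_restrict n _ v (hc'.trans_lt hv) hc
  refine ⟨w, hw, ?_⟩
  rw [Finset.coe_inter]
  exact hc2

theorem exp_decay (S : Finset (V d)) (hS : 0 ∈ S) {p : ℝ} (h0 : 0 ≤ p) (h1 : p ≤ 1)
    (hφ : phi S p < 1) : ∃ c C : ℝ, 0 < c ∧ ∀ n : ℕ, fex d n p ≤ C * Real.exp (-(c * n)) := by
  obtain ⟨L, hL⟩ : ∃ L : ℕ, ∀ x ∈ S, nm x + 1 ≤ L := by
    obtain ⟨M, hM⟩ := exists_nat_ge (∑ x ∈ S, (nm x + 1))
    refine ⟨M, fun x hx => le_trans ?_ hM⟩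
    exact Finset.single_le_sum (f := fun x => nm x + 1)
      (fun y _ => by have := nm_nonneg y; positivity) hx
  have hLpos : (1 : ℝ) ≤ L := by
    have := hL 0 hS
    rw [nm_zero] at this
    linarith
  set r : ℝ := max (phi S p) (1 / 2) with hr
  have hr0 : 0 < r := lt_max_of_lt_right (by norm_num)
  have hr1 : r < 1 := max_lt hφ (by norm_num)
  have hpow : ∀ j : ℕ, fex d (j * L) p ≤ r ^ j := by
    intro j
    induction j with
    | zero => simpa using fex_le_one d 0 h0 h1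
    | succ j ih =>
      have h3 := decay_step S hS L hL (j * L) h0 h1
      have e1 : (j + 1) * L = j * L + L := by ring
      rw [e1, pow_succ]
      refine h3.trans ?_
      rw [mul_comm (r ^ j) r]
      exact mul_le_mul (le_max_left _ _) ih (fex_nonneg d _ h0 h1) hr0.le
  have hlog : Real.log r < 0 := Real.log_neg hr0 hr1
  refine ⟨-Real.log r / L, r⁻¹, by apply div_pos <;> linarith, fun n => ?_⟩
  have hLn : 0 < L := by exact_mod_cast (zero_lt_one.trans_le hLpos)
  have h4 : fex d n p ≤ r ^ (n / L) :=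
    (fex_anti d (Nat.div_mul_le_self n L) h0 h1).trans (hpow _)
  refine h4.trans ?_
  have h5 : (n : ℝ) ≤ ((n / L : ℕ) + 1 : ℝ) * L := by
    have := (Nat.lt_mul_div_succ n hLn).le
    have h6 : (n : ℝ) ≤ ((L * (n / L + 1) : ℕ) : ℝ) := by exact_mod_cast this
    push_cast at h6
    linarith
  have h6 : r ^ (n / L) = r⁻¹ * Real.exp (((n / L : ℕ) + 1 : ℝ) * Real.log r) := by
    have : Real.exp (((n / L : ℕ) + 1 : ℝ) * Real.log r) = r ^ (n / L + 1) := by
      rw [mul_comm, Real.exp_mul, Real.exp_log hr0]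
      exact_mod_cast Real.rpow_natCast r (n / L + 1)
    rw [this, pow_succ]
    field_simp
  rw [h6]
  refine mul_le_mul_of_nonneg_left ?_ (inv_nonneg.2 hr0.le)
  apply Real.exp_le_exp.2
  have h7 : (n : ℝ) / L ≤ ((n / L : ℕ) + 1 : ℝ) := by
    rw [div_le_iff₀ (by linarith)]
    exact h5
  have h8 : -(-Real.log r / L * n) = (n : ℝ) / L * Real.log r := by ring
  rw [h8]
  exact mul_le_mul_of_nonpos_right h7 hlog.le

end FPPX
end

section

/-! Shifts and sub-sigma-algebras of the product space. -/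

namespace FPPX

open MeasureTheory ProbabilityTheory Filter Set
open scoped Topology

variable {d : ℕ}

/-- the edges inside a set of vertices -/
def edgesIn (K : Set (V d)) : Set (Edge d) := {e | e.1 ∈ K ∧ e.1 + Pi.single e.2 1 ∈ K}

/-- the information carried by the edges inside `K` -/
def FS (K : Set (V d)) : MeasurableSpace (Edge d → ℝ) :=
  ⨆ e ∈ edgesIn K, MeasurableSpace.comap (fun ω : Edge d → ℝ => ω e) inferInstance

/-- translation of the environment -/
def thS (x : V d) (ω : Edge d → ℝ) : Edge d → ℝ := fun e => ω (e.1 + x, e.2)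

theorem FS_le (K : Set (V d)) : FS K ≤ MeasurableSpace.pi :=
  iSup₂_le fun e _ => (measurable_pi_apply e).comap_le

theorem FS_mono (K K' : Set (V d)) (h : K ⊆ K') : FS K ≤ FS K' :=
  iSup₂_le fun e he => le_iSup₂_of_le (f := fun e (_ : e ∈ edgesIn K') =>
    MeasurableSpace.comap (fun ω : Edge d → ℝ => ω e) inferInstance) e ⟨h he.1, h he.2⟩ le_rfl

theorem FS_shift (x : V d) (K : Set (V d)) (A : Set (Edge d → ℝ)) (hA : MeasurableSet[FS K] A) :
    MeasurableSet[FS (sh x K)] (thS x ⁻¹' A) := by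
  have h : FS K ≤ (FS (sh x K)).map (thS x) := by
    refine iSup₂_le fun e he => ?_
    rintro _ ⟨B, hB, rfl⟩
    have he' : ((e.1 + x, e.2) : Edge d) ∈ edgesIn (sh x K) := by
      refine ⟨?_, ?_⟩
      · show e.1 + x - x ∈ K
        rw [add_sub_cancel_right]
        exact he.1
      · show e.1 + x + Pi.single e.2 1 - x ∈ K
        rw [add_right_comm, add_sub_cancel_right]
        exact he.2
    have h2 : MeasurableSpace.comap (fun ω : Edge d → ℝ => ω (e.1 + x, e.2)) inferInstance ≤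
        FS (sh x K) :=
      le_iSup₂_of_le (f := fun e (_ : e ∈ edgesIn (sh x K)) =>
        MeasurableSpace.comap (fun ω : Edge d → ℝ => ω e) inferInstance) (e.1 + x, e.2) he' le_rfl
    exact h2 _ ⟨B, hB, rfl⟩
  exact h A hA

theorem FS_indep (F : Measure ℝ) [IsProbabilityMeasure F] (n : ℕ) (K : Fin n → Set (V d))
    (hK : ∀ i j, i ≠ j → Disjoint (K i) (K j)) :
    iIndep (fun i => FS (K i)) (Measure.infinitePi (fun _ : Edge d => F)) := by
  classical
  have hI : iIndep (fun e : Edge d => MeasurableSpace.comap (fun ω : Edge d → ℝ => ω e)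
      inferInstance) (Measure.infinitePi (fun _ : Edge d => F)) :=
    iIndepFun_infinitePi (P := fun _ : Edge d => F) (X := fun _ t => t) (fun _ => measurable_id)
  have hd : ∀ i j e, e ∈ edgesIn (K i) → e ∈ edgesIn (K j) → i = j := by
    intro i j e hi hj
    by_contra hne
    exact (Set.disjoint_left.1 (hK i j hne)) hi.1 hj.1
  refine iIndepSets.iIndep (fun i => FS_le (K i))
    (fun i => piiUnionInter (fun e : Edge d => {s | MeasurableSet[MeasurableSpace.comap
      (fun ω : Edge d → ℝ => ω e) inferInstance] s}) (edgesIn (K i)))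
    (fun i => isPiSystem_piiUnionInter _ (fun e => @MeasurableSpace.isPiSystem_measurableSet _
      (MeasurableSpace.comap (fun ω : Edge d → ℝ => ω e) inferInstance)) _)
    (fun i => (generateFrom_piiUnionInter_measurableSet _ _).symm) ?_
  rw [iIndepSets_iff]
  intro s f hf
  choose! t ht G hG hfG using hf
  set g : Edge d → Set (Edge d → ℝ) := fun e =>
    if h : ∃ i ∈ s, e ∈ t i then G h.choose e else univ with hg
  have hgi : ∀ i ∈ s, ∀ e ∈ t i, g e = G i e := by
    intro i hi e he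
    have h : ∃ i ∈ s, e ∈ t i := ⟨i, hi, he⟩
    have h1 := h.choose_spec
    have h2 : h.choose = i := hd _ _ e (ht _ h1.1 h1.2) (ht _ hi he)
    simp only [hg]
    rw [dif_pos h, h2]
  have hgm : ∀ i ∈ s, ∀ e ∈ t i, MeasurableSet[MeasurableSpace.comap
      (fun ω : Edge d → ℝ => ω e) inferInstance] (g e) := by
    intro i hi e he
    rw [hgi i hi e he]
    exact hG i hi e he
  have h1 : ∀ i ∈ s, f i = ⋂ e ∈ t i, g e := by
    intro i hi
    rw [hfG i hi]
    exact iInter₂_congr fun e he => (hgi i hi e he).symm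
  have h2 : ⋂ i ∈ s, f i = ⋂ e ∈ s.biUnion t, g e := by
    rw [Finset.set_biInter_biUnion]
    exact iInter₂_congr h1
  rw [h2, hI.meas_biInter, Finset.prod_biUnion]
  · refine Finset.prod_congr rfl fun i hi => ?_
    rw [h1 i hi, hI.meas_biInter]
    exact fun e he => hgm i hi e he
  · intro i hi j hj hij
    rw [Function.onFun, Finset.disjoint_left]
    intro e he he'
    exact hij (hd _ _ e (ht _ hi he) (ht _ hj he'))
  · intro e he
    obtain ⟨i, hi, he⟩ := Finset.mem_biUnion.1 he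
    exact hgm i hi e he

theorem thS_mp (F : Measure ℝ) [IsProbabilityMeasure F] (x : V d) :
    MeasurePreserving (thS x) (Measure.infinitePi (fun _ : Edge d => F))
      (Measure.infinitePi (fun _ : Edge d => F)) := by
  classical
  have hm : Measurable (thS (d := d) x) :=
    measurable_pi_lambda _ fun e => measurable_pi_apply _
  refine ⟨hm, Measure.eq_infinitePi _ fun s t ht => ?_⟩
  rw [Measure.map_apply hm (MeasurableSet.pi (Finset.countable_toSet s) fun e _ => ht e)]
  have h : thS x ⁻¹' (Set.pi s t) =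
      Set.pi (s.image fun e : Edge d => ((e.1 + x, e.2) : Edge d))
        (fun e => t (e.1 - x, e.2)) := by
    ext ω
    simp only [Set.mem_preimage, Set.mem_pi, Finset.mem_coe, Finset.mem_image]
    constructor
    · rintro h _ ⟨e, he, rfl⟩
      have := h e he
      simp only [thS] at this
      simpa using this
    · intro h e he
      have := h _ ⟨e, he, rfl⟩
      simp only [thS]
      simpa using this
  rw [h, Measure.infinitePi_pi _ (fun e _ => ht _), Finset.prod_image]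
  · simp
  · intro e _ e' _ h
    simp only [Prod.mk.injEq, add_left_inj] at h
    exact Prod.ext h.1 h.2

end FPPX
end

section

/-! Local events. -/

namespace FPPX

open MeasureTheory ProbabilityTheory Filter Set
open scoped Topology

variable {d : ℕ}

/-- there is a path inside `K` from `u` to `v` with total weight at most `s` -/
def LES (K : Set (V d)) (u v : V d) (s : ℝ) : Set (Edge d → ℝ) :=
  {ω | ∃ l : List (Edge d), IsPath u v l ∧ (∀ e ∈ l, e ∈ edgesIn K) ∧
    (l.map (fun e => |ω e|)).sum ≤ s}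

theorem LES_meas_add {α : Type*} (m : MeasurableSpace α) {f g : α → ℝ} (hf : Measurable[m] f)
    (hg : Measurable[m] g) : Measurable[m] (fun a => f a + g a) :=
  hf.add hg

theorem LES_meas_aux (K : Set (V d)) (l : List (Edge d)) (hl : ∀ e ∈ l, e ∈ edgesIn K) :
    Measurable[FS K] (fun ω : Edge d → ℝ => (l.map (fun e => |ω e|)).sum) := by
  induction l with
  | nil => simp only [List.map_nil, List.sum_nil]; exact @measurable_const _ _ _ (FS K) _
  | cons e l ih =>
    simp only [List.map_cons, List.sum_cons]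
    have he : e ∈ edgesIn K := hl e (by simp)
    have h1 : Measurable[FS K] (fun ω : Edge d → ℝ => ω e) := by
      rw [measurable_iff_comap_le]
      exact le_iSup₂ (f := fun e (_ : e ∈ edgesIn K) =>
        MeasurableSpace.comap (fun ω : Edge d → ℝ => ω e) inferInstance) e he
    have h2 : Measurable[FS K] (fun ω : Edge d → ℝ => |ω e|) :=
      measurable_norm.comp h1
    exact LES_meas_add (FS K) h2 (ih fun e' he' => hl e' (by simp [he']))

theorem LES_meas (K : Set (V d)) (u v : V d) (s : ℝ) : MeasurableSet[FS K] (LES K u v s) := by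
  classical
  have h : LES K u v s = ⋃ l : List (Edge d),
      {ω : Edge d → ℝ | IsPath u v l ∧ (∀ e ∈ l, e ∈ edgesIn K) ∧
        (l.map (fun e => |ω e|)).sum ≤ s} := by
    ext ω
    simp only [LES, Set.mem_ofPred_eq, mem_iUnion]
  rw [h]
  refine @MeasurableSet.iUnion _ _ (FS K) _ _ fun l => ?_
  by_cases h1 : IsPath u v l
  · by_cases h2 : ∀ e ∈ l, e ∈ edgesIn K
    · have h3 : {ω : Edge d → ℝ | IsPath u v l ∧ (∀ e ∈ l, e ∈ edgesIn K) ∧
          (l.map (fun e => |ω e|)).sum ≤ s} =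
          (fun ω : Edge d → ℝ => (l.map (fun e => |ω e|)).sum) ⁻¹' (Iic s) := by
        ext ω
        simp only [Set.mem_ofPred_eq, mem_preimage, mem_Iic]
        exact ⟨fun h => h.2.2, fun h => ⟨h1, h2, h⟩⟩
      rw [h3]
      exact LES_meas_aux K l h2 measurableSet_Iic
    · have h3 : {ω : Edge d → ℝ | IsPath u v l ∧ (∀ e ∈ l, e ∈ edgesIn K) ∧
          (l.map (fun e => |ω e|)).sum ≤ s} = ∅ := by
        ext ω
        simp only [Set.mem_ofPred_eq, mem_empty_iff_false, iff_false]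
        exact fun h => h2 h.2.1
      rw [h3]
      exact @MeasurableSet.empty _ (FS K)
  · have h3 : {ω : Edge d → ℝ | IsPath u v l ∧ (∀ e ∈ l, e ∈ edgesIn K) ∧
        (l.map (fun e => |ω e|)).sum ≤ s} = ∅ := by
      ext ω
      simp only [Set.mem_ofPred_eq, mem_empty_iff_false, iff_false]
      exact fun h => h1 h.1
    rw [h3]
    exact @MeasurableSet.empty _ (FS K)

theorem LES_t (K : Set (V d)) (u v : V d) (s : ℝ) (ω : Edge d → ℝ) (h : ω ∈ LES K u v s) :
    pt (fun e => |ω e|) u v ≤ s := by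
  obtain ⟨l, hl, -, hs⟩ := h
  exact (pt_le (fun e => abs_nonneg _) hl).trans hs

theorem edgesIn_mono {K K' : Set (V d)} (hK : K ⊆ K') : edgesIn K ⊆ edgesIn K' :=
  fun _ he => ⟨hK he.1, hK he.2⟩

theorem LES_mono (K K' : Set (V d)) (u v : V d) (s s' : ℝ) (hK : K ⊆ K') (hs : s ≤ s') :
    LES K u v s ⊆ LES K' u v s' := by
  rintro ω ⟨l, hl, hK', hs'⟩
  exact ⟨l, hl, fun e he => edgesIn_mono hK (hK' e he), hs'.trans hs⟩

theorem LES_shift (x : V d) (K : Set (V d)) (u v : V d) (s : ℝ) :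
    thS x ⁻¹' (LES K u v s) = LES (sh x K) (u + x) (v + x) s := by
  ext ω
  constructor
  · rintro ⟨l, hl, hK, hs⟩
    refine ⟨l.map (fun e => (e.1 + x, e.2)), hl.shift x, ?_, ?_⟩
    · intro e he
      obtain ⟨e', he', rfl⟩ := List.mem_map.1 he
      have h1 := hK e' he'
      refine ⟨?_, ?_⟩
      · show e'.1 + x - x ∈ K
        rw [add_sub_cancel_right]
        exact h1.1
      · show e'.1 + x + Pi.single e'.2 1 - x ∈ K
        have h2 : e'.1 + x + Pi.single e'.2 1 - x = e'.1 + Pi.single e'.2 1 := by abel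
        rw [h2]
        exact h1.2
    · rw [List.map_map]
      exact hs
  · rintro ⟨l, hl, hK, hs⟩
    refine ⟨l.map (fun e => (e.1 + -x, e.2)), ?_, ?_, ?_⟩
    · have h1 := hl.shift (-x)
      rwa [add_neg_cancel_right, add_neg_cancel_right] at h1
    · intro e he
      obtain ⟨e', he', rfl⟩ := List.mem_map.1 he
      have h1 := hK e' he'
      refine ⟨?_, ?_⟩
      · have h2 : e'.1 - x ∈ K := h1.1
        show e'.1 + -x ∈ K
        rwa [← sub_eq_add_neg]
      · have h2 : e'.1 + Pi.single e'.2 1 - x ∈ K := h1.2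
        show e'.1 + -x + Pi.single e'.2 1 ∈ K
        have h3 : e'.1 + -x + Pi.single e'.2 1 = e'.1 + Pi.single e'.2 1 - x := by abel
        rwa [h3]
    · rw [List.map_map]
      have h1 : ((fun e => |thS x ω e|) ∘ fun e : Edge d => (e.1 + -x, e.2)) =
          fun e : Edge d => |ω e| := by
        funext e
        simp [thS]
      rw [h1]
      exact hs

end FPPX
end

section

/-! Linear upper bound inside half spaces. -/

namespace FPPX

open MeasureTheory ProbabilityTheory Filter Set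
open scoped Topology

variable {d : ℕ}

/-- exponential moments of one coordinate of the product space -/
private lemma HsUp_mgf (F : Measure ℝ) [IsProbabilityMeasure F] {γ : ℝ}
    (hF : Integrable (fun t => Real.exp (γ * |t|)) F) (e : Edge d) :
    Integrable (fun ω : Edge d → ℝ => Real.exp (γ * |ω e|))
      (Measure.infinitePi (fun _ : Edge d => F)) ∧
    mgf (fun ω : Edge d → ℝ => |ω e|) (Measure.infinitePi (fun _ : Edge d => F)) γ =
      ∫ t, Real.exp (γ * |t|) ∂F := by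
  have h := measurePreserving_eval_infinitePi (fun _ : Edge d => F) e
  have hmeas : Measurable (fun t : ℝ => Real.exp (γ * |t|)) := by fun_prop
  constructor
  · exact (h.integrable_comp hmeas.aestronglyMeasurable).2 hF
  · have h2 : ∫ t, Real.exp (γ * |t|) ∂(Measure.map (Function.eval e)
        (Measure.infinitePi (fun _ : Edge d => F))) =
        ∫ ω : Edge d → ℝ, Real.exp (γ * |ω e|) ∂(Measure.infinitePi (fun _ : Edge d => F)) :=
      integral_map h.measurable.aemeasurable hmeas.aestronglyMeasurable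
    rw [h.map_eq] at h2
    exact h2.symm

/-- Chernoff bound for a sum of distinct edges -/
private lemma HsUp_chernoff (F : Measure ℝ) [IsProbabilityMeasure F] {γ : ℝ} (hγ : 0 < γ)
    (hF : Integrable (fun t => Real.exp (γ * |t|)) F) (S : Finset (Edge d)) (a : ℝ) :
    (Measure.infinitePi (fun _ : Edge d => F)).real {ω | a ≤ ∑ e ∈ S, |ω e|} ≤
      Real.exp (-γ * a) * (∫ t, Real.exp (γ * |t|) ∂F) ^ S.card := by
  have hind : iIndepFun (fun (e : Edge d) (ω : Edge d → ℝ) => |ω e|)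
      (Measure.infinitePi (fun _ : Edge d => F)) :=
    iIndepFun_infinitePi (X := fun (_ : Edge d) (t : ℝ) => |t|) (fun _ => measurable_norm)
  have hm : ∀ e : Edge d, Measurable (fun ω : Edge d → ℝ => |ω e|) := fun e =>
    measurable_norm.comp (measurable_pi_apply e)
  have hint := hind.integrable_exp_mul_sum (t := γ) hm (s := S)
    (fun e _ => (HsUp_mgf F hF e).1)
  have h1 := measure_ge_le_exp_mul_mgf (μ := Measure.infinitePi (fun _ : Edge d => F))
    (X := ∑ e ∈ S, fun ω : Edge d → ℝ => |ω e|) a hγ.le hint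
  rw [hind.mgf_sum hm S, Finset.prod_congr rfl (fun e _ => (HsUp_mgf F hF e).2),
    Finset.prod_const] at h1
  refine le_trans (le_of_eq ?_) h1
  congr 1
  ext ω
  simp [Finset.sum_apply]

theorem std_hs_up (F : Measure ℝ) [IsProbabilityMeasure F] (hF : ∃ γ : ℝ, 0 < γ ∧
    Integrable (fun t => Real.exp (γ * |t|)) F) : ∃ C1 : ℝ, 1 ≤ C1 ∧ ∀ K : ℕ,
    ∀ᶠ r : ℝ in atTop, ∀ (ν : E d →ₗ[ℝ] ℝ) (a : ℝ) (u v : V d),
      a ≤ ν (tr u) → a ≤ ν (tr v) → nm (v - u) ≤ r →
      (Measure.infinitePi (fun _ : Edge d => F)).real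
        (LES {z | a ≤ ν (tr z)} u v (C1 * r))ᶜ ≤ r ^ (-(K : ℝ)) := by
  classical
  obtain ⟨γ, hγ, hint⟩ := hF
  obtain ⟨M, hM⟩ : ∃ M, M = ∫ t, Real.exp (γ * |t|) ∂F := ⟨_, rfl⟩
  have hM1 : 1 ≤ M := by
    have h1 : ∫ _ : ℝ, (1 : ℝ) ∂F ≤ ∫ t, Real.exp (γ * |t|) ∂F := by
      apply integral_mono (integrable_const _) hint
      intro t
      exact Real.one_le_exp (by positivity)
    rw [hM]
    simpa using h1
  have hlog : 0 ≤ Real.log M := Real.log_nonneg hM1
  obtain ⟨C1, hC1⟩ : ∃ C1, C1 = max 1 ((d * Real.log M + 1) / γ) := ⟨_, rfl⟩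
  have hC11 : 1 ≤ C1 := by rw [hC1]; exact le_max_left _ _
  have hC12 : d * Real.log M + 1 ≤ γ * C1 := by
    have h1 : (d * Real.log M + 1) / γ ≤ C1 := by rw [hC1]; exact le_max_right _ _
    rw [div_le_iff₀ hγ] at h1
    linarith
  refine ⟨C1, hC11, fun K => ?_⟩
  have ht := tendsto_rpow_mul_exp_neg_mul_atTop_nhds_zero (K : ℝ) 1 one_pos
  have hev := ht.eventually (Iio_mem_nhds (zero_lt_one))
  filter_upwards [hev, eventually_gt_atTop 0] with r hr hr0 ν a u v hu hv huv
  obtain ⟨l, hl, hnd, hlen, hin⟩ := exists_mono_path ν a u v hu hv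
  have hlen' : (l.length : ℝ) ≤ d * r :=
    hlen.trans (mul_le_mul_of_nonneg_left huv (Nat.cast_nonneg d))
  have hsub : (LES {z | a ≤ ν (tr z)} u v (C1 * r))ᶜ ⊆
      {ω : Edge d → ℝ | C1 * r ≤ ∑ e ∈ l.toFinset, |ω e|} := by
    intro ω hω
    by_contra hcon
    apply hω
    simp only [mem_ofPred_eq, not_le] at hcon
    refine ⟨l, hl, fun e he => hin e he, ?_⟩
    rw [← List.sum_toFinset _ hnd]
    exact hcon.le
  refine (measureReal_mono hsub).trans ((HsUp_chernoff F hγ hint _ _).trans ?_)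
  rw [← hM, List.toFinset_card_of_nodup hnd]
  have e1 : M ^ l.length ≤ Real.exp (d * r * Real.log M) := by
    rw [← Real.rpow_natCast, Real.rpow_def_of_pos (by linarith)]
    apply Real.exp_le_exp.mpr
    rw [mul_comm]
    exact mul_le_mul_of_nonneg_right hlen' hlog
  have e2 : Real.exp (-γ * (C1 * r)) * M ^ l.length ≤ Real.exp (-1 * r) := by
    calc Real.exp (-γ * (C1 * r)) * M ^ l.length
        ≤ Real.exp (-γ * (C1 * r)) * Real.exp (d * r * Real.log M) :=
          mul_le_mul_of_nonneg_left e1 (Real.exp_pos _).le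
      _ = Real.exp (-γ * (C1 * r) + d * r * Real.log M) := (Real.exp_add _ _).symm
      _ ≤ Real.exp (-1 * r) := by
          apply Real.exp_le_exp.mpr
          have : (d * Real.log M + 1) * r ≤ γ * C1 * r :=
            mul_le_mul_of_nonneg_right hC12 hr0.le
          linarith
  refine e2.trans ?_
  have e3 : r ^ (K : ℝ) * Real.exp (-1 * r) < 1 := hr
  have e4 : 0 < r ^ (K : ℝ) := Real.rpow_pos_of_pos hr0 _
  rw [Real.rpow_neg hr0.le, ← one_div, le_div_iff₀ e4]
  linarith

end FPPX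
end

section

/-! Standard first-passage percolation on the canonical space as a `PreB`. -/

namespace FPPX

open MeasureTheory ProbabilityTheory Filter Set
open scoped Topology

variable {d : ℕ}

/-- the canonical law -/
noncomputable abbrev P0 (d : ℕ) (F : Measure ℝ) [IsProbabilityMeasure F] :
    Measure (Edge d → ℝ) := Measure.infinitePi (fun _ : Edge d => F)

/-- standard first-passage percolation as a stationary local random metric -/
noncomputable def stdPreB (d : ℕ) (F : Measure ℝ) [IsProbabilityMeasure F]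
    (hF : ∃ γ : ℝ, 0 < γ ∧ Integrable (fun t => Real.exp (γ * |t|)) F) : PreB d (P0 d F) where
  t := fun ω u v => pt (fun e => |ω e|) u v
  LE := LES
  F := FS
  θ := thS
  t_nonneg := fun ω u v => pt_nonneg (fun e => abs_nonneg _) u v
  t_self := fun ω u => pt_self (fun e => abs_nonneg _) u
  t_symm := fun ω u v => pt_symm _ u v
  t_tri := fun ω u v w => pt_tri (fun e => abs_nonneg _) u v w
  t_meas := fun u v => (pt_meas u v).comp (measurable_pi_lambda _ fun e =>
    (continuous_abs.measurable).comp (measurable_pi_apply e))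
  t_shift := fun x ω u v => pt_shift (fun e => |ω e|) x u v
  θ_mp := thS_mp F
  F_le := FS_le
  F_mono := FS_mono
  F_shift := FS_shift
  F_indep := FS_indep F
  LE_meas := LES_meas
  LE_t := LES_t
  LE_mono := LES_mono
  LE_shift := LES_shift
  C1 := Classical.choose (std_hs_up (d := d) F hF)
  one_le_C1 := (Classical.choose_spec (std_hs_up (d := d) F hF)).1
  hs_up := (Classical.choose_spec (std_hs_up (d := d) F hF)).2

theorem std_chain (F : Measure ℝ) [IsProbabilityMeasure F]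
    (hF : ∃ γ : ℝ, 0 < γ ∧ Integrable (fun t => Real.exp (γ * |t|)) F) (ε : ℝ) (hε : 0 < ε) :
    Negl (P0 d F) (fun r => ((stdPreB d F hF).CG r ε)ᶜ) := by
  intro K
  filter_upwards [eventually_ge_atTop 1] with r hr
  have h1 : (1 : ℝ) ≤ r ^ ε := Real.one_le_rpow hr hε.le
  have huniv : (stdPreB d F hF).CG r ε = univ := by
    refine eq_univ_of_forall fun ω => ?_
    intro u v _ _
    have hlt : pt (fun e => |ω e|) u v < pt (fun e => |ω e|) u v + 1 := by linarith
    obtain ⟨l, hl, hsum⟩ := pt_near u v hlt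
    obtain ⟨x, hx0, hxl, hxj⟩ := hl.verts
    refine ⟨l.length, x, fun i => ((l.take i).map (fun e => |ω e|)).sum, hx0, hxl, ?_, ?_, ?_, ?_⟩
    · intro i hi
      exact (hxj i hi).nm_le.trans h1
    · simp
    · have h2 : (stdPreB d F hF).t ω u v = pt (fun e => |ω e|) u v := rfl
      simp only [List.take_length]
      rw [h2]
      linarith
    · intro i j hij hj K hK
      refine ⟨(l.drop i).take (j - i), isPath_sub x l hxj i j hij hj, ?_, ?_⟩
      · intro e he
        obtain ⟨m, hm, rfl⟩ := List.mem_iff_getElem.mp he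
        have hm' : m < j - i := by
          have := hm
          simp only [List.length_take, List.length_drop] at this
          omega
        have hmem : ∀ n, i ≤ n → n ≤ j → x n ∈ K := by
          intro n hn1 hn2
          refine hK n hn1 hn2 _ ?_
          rw [sub_self, nm_zero]
          linarith
        have hjoin := hxj (i + m) (by omega)
        have hel : ((l.drop i).take (j - i))[m] = l[i + m]'(by omega) := by
          simp [List.getElem_take, List.getElem_drop]
        rw [hel]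
        have ha := hmem (i + m) (by omega) (by omega)
        have hb := hmem (i + m + 1) (by omega) (by omega)
        rcases hjoin with ⟨h3, h4⟩ | ⟨h3, h4⟩
        · exact ⟨h3 ▸ ha, h4 ▸ hb⟩
        · exact ⟨h3 ▸ hb, h4 ▸ ha⟩
      · have h5 : l.take j = l.take i ++ (l.drop i).take (j - i) := by
          have h6 : j = i + (j - i) := by omega
          conv_lhs => rw [h6, List.take_add]
        show (((l.drop i).take (j - i)).map (fun e => |ω e|)).sum ≤
          ((l.take j).map (fun e => |ω e|)).sum - ((l.take i).map (fun e => |ω e|)).sum + r ^ ε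
        rw [h5, List.map_append, List.sum_append]
        linarith
  rw [huniv, compl_univ]
  simp only [measureReal_empty]
  positivity

end FPPX
end

section

/-! The weak lower bound from subcriticality. -/

namespace FPPX

open MeasureTheory ProbabilityTheory Filter Set
open scoped Topology

variable {d : ℕ}

/-- exponential decay of the clusters of edges with weight at most `δ` -/
def SmallClusters (d : ℕ) (F : Measure ℝ) [IsProbabilityMeasure F] (δ : ℝ) : Prop :=
  ∃ c C : ℝ, 0 < c ∧ ∀ n : ℕ, (P0 d F).real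
    {ω | ∃ (v : V d) (l : List (Edge d)), (n : ℝ) ≤ nm v ∧ IsPath 0 v l ∧ ∀ e ∈ l, |ω e| ≤ δ} ≤
      C * Real.exp (-(c * n))

/-- If all runs of light edges are short, then cheap paths do not go far. -/
private lemma weak_det {τ : Edge d → ℝ} {δ : ℝ} (hδ : 0 < δ) (hτ : ∀ e, 0 ≤ τ e) {r N : ℝ}
    (hN : 0 ≤ N)
    (hrun : ∀ (a w : V d) (l0 : List (Edge d)), nm a ≤ r → IsPath a w l0 →
      (∀ e ∈ l0, τ e ≤ δ) → nm (w - a) ≤ N) :
    ∀ (l : List (Edge d)) (u v a : V d) (l0 : List (Edge d)), IsPath u v l → IsPath a u l0 →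
      (∀ e ∈ l0, τ e ≤ δ) → nm a + N + (l.map τ).sum / δ * (N + 1) ≤ r →
      nm v ≤ nm a + N + (l.map τ).sum / δ * (N + 1) := by
  intro l
  induction l with
  | nil =>
    intro u v a l0 hl h0 hg hr
    have huv : u = v := hl
    subst huv
    simp only [List.map_nil, List.sum_nil, zero_div, zero_mul, add_zero] at hr ⊢
    have h1 := hrun a u l0 (by linarith) h0 hg
    have h2 : nm u ≤ nm (u - a) + nm a := by
      have := nm_add (u - a) a
      simpa using this
    linarith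
  | cons e l ih =>
    intro u v a l0 hl h0 hg hr
    obtain ⟨w, hj, hl'⟩ := hl
    rw [List.map_cons, List.sum_cons] at hr ⊢
    have hsum : 0 ≤ (l.map τ).sum := List.sum_nonneg (by
      intro x hx
      obtain ⟨e', _, rfl⟩ := List.mem_map.mp hx
      exact hτ e')
    by_cases he : τ e ≤ δ
    · have h1 : IsPath a w (l0 ++ [e]) := h0.append ⟨w, hj, rfl⟩
      have h2 : ∀ e' ∈ l0 ++ [e], τ e' ≤ δ := by
        intro e' he'
        rcases List.mem_append.mp he' with h | h
        · exact hg e' h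
        · rw [List.mem_singleton] at h
          rw [h]; exact he
      have h3 : (l.map τ).sum / δ * (N + 1) ≤ (τ e + (l.map τ).sum) / δ * (N + 1) := by
        apply mul_le_mul_of_nonneg_right _ (by linarith)
        apply div_le_div_of_nonneg_right _ hδ.le
        linarith [hτ e]
      have h4 := ih w v a (l0 ++ [e]) hl' h1 h2 (by linarith)
      linarith
    · push Not at he
      have h5 : (l.map τ).sum / δ * (N + 1) + (N + 1) ≤ (τ e + (l.map τ).sum) / δ * (N + 1) := by
        have h6 : (l.map τ).sum / δ + 1 ≤ (τ e + (l.map τ).sum) / δ := by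
          rw [le_div_iff₀ hδ, add_mul, div_mul_cancel₀ _ hδ.ne']
          linarith
        calc (l.map τ).sum / δ * (N + 1) + (N + 1) = ((l.map τ).sum / δ + 1) * (N + 1) := by ring
          _ ≤ _ := mul_le_mul_of_nonneg_right h6 (by linarith)
      have h0' : 0 ≤ (l.map τ).sum / δ * (N + 1) := by positivity
      have h7 := hrun a u l0 (by linarith) h0 hg
      have h8 : nm u ≤ nm (u - a) + nm a := by
        have := nm_add (u - a) a
        simpa using this
      have h9 : nm w ≤ nm (w - u) + nm u := by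
        have := nm_add (w - u) u
        simpa using this
      have h10 := hj.nm_le
      have h11 := ih w v w [] hl' rfl (by simp) (by linarith)
      linarith

private lemma thS_real_le (F : Measure ℝ) [IsProbabilityMeasure F] (x : V d)
    (A : Set (Edge d → ℝ)) : (P0 d F).real (thS x ⁻¹' A) ≤ (P0 d F).real A := by
  have h1 : thS x ⁻¹' A ⊆ thS x ⁻¹' (toMeasurable (P0 d F) A) :=
    preimage_mono (subset_toMeasurable _ A)
  have h2 : (P0 d F) (thS x ⁻¹' A) ≤ (P0 d F) A := by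
    calc (P0 d F) (thS x ⁻¹' A) ≤ (P0 d F) (thS x ⁻¹' (toMeasurable (P0 d F) A)) :=
          measure_mono h1
      _ = (P0 d F) (toMeasurable (P0 d F) A) :=
          (thS_mp F x).measure_preimage (measurableSet_toMeasurable _ A).nullMeasurableSet
      _ = (P0 d F) A := measure_toMeasurable A
  exact ENNReal.toReal_mono (measure_ne_top _ A) h2

private lemma negl_startsS (F : Measure ℝ) [IsProbabilityMeasure F] {B : ℝ → Set (Edge d → ℝ)}
    (hB : Negl (P0 d F) B) :
    Negl (P0 d F) (fun r => {ω | ∃ x : V d, nm x ≤ r ∧ thS x ω ∈ B r}) := by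
  apply Negl.of_poly ((d : ℝ) + 1)
  intro K
  filter_upwards [hB K, eventually_ge_atTop 1, ev_rpow_le ((3 : ℝ) ^ d) (one_pos)
    (show (d : ℝ) < d + 1 by linarith)] with r h1 h2 h3
  have h0 : 0 < r := by linarith
  have hfin : {x : V d | nm x ≤ r}.Finite := finite_bl _
  have hset : {ω | ∃ x : V d, nm x ≤ r ∧ thS x ω ∈ B r} =
      ⋃ x ∈ hfin.toFinset, thS x ⁻¹' (B r) := by
    ext ω
    simp only [mem_iUnion, mem_preimage, Finite.mem_toFinset, exists_prop]
    rfl
  rw [hset]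
  have hcard : (hfin.toFinset.card : ℝ) ≤ (3 : ℝ) ^ d * r ^ (d : ℝ) := by
    have h4 : (hfin.toFinset.card : ℝ) = ({x : V d | nm x ≤ r}.ncard : ℝ) := by
      rw [ncard_eq_toFinset_card _ hfin]
    rw [h4]
    refine (card_bl r h0.le).trans ?_
    calc (2 * r + 1) ^ d ≤ (3 * r) ^ d := pow_le_pow_left₀ (by positivity) (by linarith) d
      _ = (3 : ℝ) ^ d * r ^ (d : ℝ) := by rw [mul_pow, Real.rpow_natCast]
  calc (P0 d F).real (⋃ x ∈ hfin.toFinset, thS x ⁻¹' (B r))
      ≤ ∑ x ∈ hfin.toFinset, (P0 d F).real (thS x ⁻¹' (B r)) := measureReal_biUnion_finset_le _ _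
    _ ≤ ∑ _x ∈ hfin.toFinset, (P0 d F).real (B r) :=
        Finset.sum_le_sum fun x _ => thS_real_le F x _
    _ = hfin.toFinset.card * (P0 d F).real (B r) := by rw [Finset.sum_const, nsmul_eq_mul]
    _ ≤ ((3 : ℝ) ^ d * r ^ (d : ℝ)) * r ^ (-(K : ℝ)) :=
        mul_le_mul hcard h1 measureReal_nonneg (by positivity)
    _ ≤ r ^ ((d : ℝ) + 1) * r ^ (-(K : ℝ)) :=
        mul_le_mul_of_nonneg_right (by linarith) (by positivity)

theorem std_weak (F : Measure ℝ) [IsProbabilityMeasure F]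
    (hF : ∃ γ : ℝ, 0 < γ ∧ Integrable (fun t => Real.exp (γ * |t|)) F) (δ : ℝ) (hδ : 0 < δ)
    (h : SmallClusters d F δ) :
    Negl (P0 d F) (fun r => {ω | ∃ z : V d, r ≤ nm z ∧ nm z ≤ 2 * r ∧
      (stdPreB d F hF).t ω 0 z < r ^ (1 / 2 : ℝ)}) := by
  obtain ⟨c, C, hc, hC⟩ := h
  set Cl : ℕ → Set (Edge d → ℝ) := fun n => {ω | ∃ (v : V d) (l : List (Edge d)),
    (n : ℝ) ≤ nm v ∧ IsPath 0 v l ∧ ∀ e ∈ l, |ω e| ≤ δ} with hCl
  have hq : Real.exp (-c) < 1 := by
    rw [Real.exp_lt_one_iff]; linarith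
  have hneg : Negl (P0 d F) (fun r => Cl ⌈δ / 6 * r ^ (1 / 2 : ℝ)⌉₊) := by
    intro K
    filter_upwards [ev_geom hq (show (0 : ℝ) < 1 / 2 by norm_num)
      (show 0 < δ / 6 by positivity) (K + 1), eventually_ge_atTop (max C 1)] with r h1 h2
    have hr0 : 0 < r := lt_of_lt_of_le one_pos ((le_max_right _ _).trans h2)
    have h3 := h1 ⌈δ / 6 * r ^ (1 / 2 : ℝ)⌉₊ (Nat.le_ceil _) (Real.exp_pos _).le
    have h4 := hC ⌈δ / 6 * r ^ (1 / 2 : ℝ)⌉₊
    have h5 : Real.exp (-(c * (⌈δ / 6 * r ^ (1 / 2 : ℝ)⌉₊ : ℝ))) =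
        Real.exp (-c) ^ ⌈δ / 6 * r ^ (1 / 2 : ℝ)⌉₊ := by
      rw [← Real.exp_nat_mul]; congr 1; ring
    rw [h5] at h4
    refine h4.trans ?_
    have h6 : r ^ (-((K + 1 : ℕ) : ℝ)) * r = r ^ (-(K : ℝ)) := by
      nth_rewrite 2 [← Real.rpow_one r]
      rw [← Real.rpow_add hr0]
      congr 1; push_cast; ring
    have hC' : C ≤ r := (le_max_left _ _).trans h2
    calc C * Real.exp (-c) ^ ⌈δ / 6 * r ^ (1 / 2 : ℝ)⌉₊
        ≤ r * Real.exp (-c) ^ ⌈δ / 6 * r ^ (1 / 2 : ℝ)⌉₊ :=
          mul_le_mul_of_nonneg_right hC' (by positivity)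
      _ ≤ r * r ^ (-((K + 1 : ℕ) : ℝ)) := mul_le_mul_of_nonneg_left h3 hr0.le
      _ = r ^ (-(K : ℝ)) := by rw [mul_comm]; exact h6
  refine Negl.mono ?_ (negl_startsS F hneg)
  filter_upwards [eventually_gt_atTop 1, ev_rpow_le (δ / 6 + 2 / δ)
    (show (0 : ℝ) < 1 / 3 by norm_num) (show (1 / 2 : ℝ) < 1 by norm_num),
    eventually_gt_atTop 3] with r hr1 hr2 hr3
  have hr0 : 0 < r := by linarith
  rintro ω ⟨z, hz1, -, hz2⟩
  by_contra hcon
  have hcon' : ∀ x : V d, nm x ≤ r → thS x ω ∉ Cl ⌈δ / 6 * r ^ (1 / 2 : ℝ)⌉₊ := by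
    intro x hx hxx
    exact hcon ⟨x, hx, hxx⟩
  set S : ℝ := r ^ (1 / 2 : ℝ) with hS
  have hS0 : 0 < S := Real.rpow_pos_of_pos hr0 _
  have hSS : S * S = r := by
    rw [hS, ← Real.rpow_add hr0]; norm_num
  set n : ℕ := ⌈δ / 6 * S⌉₊ with hn
  have hn1 : (n : ℝ) < δ / 6 * S + 1 := Nat.ceil_lt_add_one (by positivity)
  have hz3 : pt (fun e => |ω e|) 0 z < S := hz2
  obtain ⟨l, hl, hls⟩ := pt_near 0 z hz3
  have hrun : ∀ (a w : V d) (l0 : List (Edge d)), nm a ≤ r → IsPath a w l0 →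
      (∀ e ∈ l0, (fun e => |ω e|) e ≤ δ) → nm (w - a) ≤ n := by
    intro a w l0 ha hp hg
    by_contra hlt
    push Not at hlt
    apply hcon' a ha
    refine ⟨w - a, l0.map (fun e => (e.1 + -a, e.2)), hlt.le, ?_, ?_⟩
    · have := hp.shift (-a)
      simpa [sub_eq_add_neg] using this
    · intro e he
      obtain ⟨e', he', rfl⟩ := List.mem_map.mp he
      have := hg e' he'
      simpa [thS] using this
  have hbound : (n : ℝ) + S / δ * ((n : ℝ) + 1) < r := by
    have e1 : S / δ * ((n : ℝ) + 1) ≤ S / δ * (δ / 6 * S + 2) :=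
      mul_le_mul_of_nonneg_left (by linarith) (by positivity)
    have e2 : S / δ * (δ / 6 * S + 2) = r / 6 + 2 / δ * S := by
      rw [← hSS]; field_simp
    have e3 : (δ / 6 + 2 / δ) * S ≤ 1 / 3 * r := by
      have := hr2
      rw [Real.rpow_one] at this
      exact this
    rw [add_mul] at e3
    have e4 := e1.trans_eq e2
    clear e1 e2
    generalize S / δ * ((n : ℝ) + 1) = A at e4 ⊢
    generalize δ / 6 * S = B at e3 hn1
    generalize 2 / δ * S = D at e3 e4
    linarith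
  have hsum_le : ((l.map (fun e => |ω e|)).sum / δ) * ((n : ℝ) + 1) ≤ S / δ * ((n : ℝ) + 1) := by
    apply mul_le_mul_of_nonneg_right _ (by positivity)
    exact div_le_div_of_nonneg_right hls.le hδ.le
  have hfin := weak_det (τ := fun e => |ω e|) (r := r) (N := n) hδ (fun e => abs_nonneg _)
    (by positivity) hrun l 0 z 0 [] hl rfl (by simp) (by rw [nm_zero]; linarith)
  rw [nm_zero] at hfin
  linarith

/-- standard first-passage percolation with subcritical small edges is a `BLRM` -/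
noncomputable def stdBLRM (d : ℕ) (F : Measure ℝ) [IsProbabilityMeasure F]
    (hF : ∃ γ : ℝ, 0 < γ ∧ Integrable (fun t => Real.exp (γ * |t|)) F) (δ : ℝ) (hδ : 0 < δ)
    (h : SmallClusters d F δ) : BLRM d (P0 d F) where
  toPreB := stdPreB d F hF
  chain := std_chain F hF
  weak := std_weak F hF δ hδ h

end FPPX
end

section

/-! Transfer to the canonical space. -/

namespace FPPX

open MeasureTheory ProbabilityTheory Filter Set
open scoped Topology Pointwise

variable {d : ℕ} {Ω : Type*} [MeasurableSpace Ω] {P : Measure Ω} [IsProbabilityMeasure P]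

theorem IsStdFPP.map_eq {F : Measure ℝ} [IsProbabilityMeasure F] {τ : Edge d → Ω → ℝ}
    (h : IsStdFPP P F τ) : P.map (fun ω e => τ e ω) = P0 d F := by
  have h1 := (iIndepFun_iff_map_fun_eq_infinitePi_map (P := P) (X := τ)
    (fun e => h.meas e)).1 h.indep
  rw [h1]
  simp_rw [h.law]

theorem IsStdFPP.meas' {F : Measure ℝ} {τ : Edge d → Ω → ℝ}
    (h : IsStdFPP P F τ) : Measurable (fun ω (e : Edge d) => τ e ω) :=
  measurable_pi_lambda _ h.meas

theorem IsStdFPP.ae_of {F : Measure ℝ} [IsProbabilityMeasure F] {τ : Edge d → Ω → ℝ}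
    (h : IsStdFPP P F τ) {q : (Edge d → ℝ) → Prop} (hq : ∀ᵐ ω ∂(P0 d F), q ω) :
    ∀ᵐ ω ∂P, q (fun e => τ e ω) := by
  rw [← h.map_eq] at hq
  exact ae_of_ae_map h.meas'.aemeasurable hq

private theorem IsStdFPP.abs_eq {F : Measure ℝ} {τ : Edge d → Ω → ℝ}
    (h : IsStdFPP P F τ) (ω : Ω) : (fun e => |τ e ω|) = fun e => τ e ω :=
  funext fun e => abs_of_nonneg (h.nonneg e ω)

private theorem meas_pt_abs (v : V d) : Measurable fun ω : Edge d → ℝ => pt (fun e => |ω e|) 0 v :=
  (pt_meas 0 v).comp (measurable_pi_lambda _ fun e =>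
    (continuous_abs.measurable).comp (measurable_pi_apply e))

/-- almost sure bounds along integers are transferred to the canonical space -/
theorem IsStdFPP.ae_nat {F : Measure ℝ} [IsProbabilityMeasure F] {τ : Edge d → Ω → ℝ}
    (h : IsStdFPP P F τ) (μ : E d → ℝ) (κ : ℝ)
    (hq : ∀ᵐ ω ∂P, ∀ᶠ n : ℕ in atTop, ∀ v : V d, nm v ≤ n →
      |pt (fun e => τ e ω) 0 v - μ (tr v)| ≤ (n : ℝ) ^ κ) :
    ∀ᵐ ω ∂(P0 d F), ∀ᶠ n : ℕ in atTop, ∀ v : V d, nm v ≤ n →
      |pt (fun e => |ω e|) 0 v - μ (tr v)| ≤ (n : ℝ) ^ κ := by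
  have hms : MeasurableSet {ω : Edge d → ℝ | ∀ᶠ n : ℕ in atTop, ∀ v : V d, nm v ≤ n →
      |pt (fun e => |ω e|) 0 v - μ (tr v)| ≤ (n : ℝ) ^ κ} := by
    have h1 : {ω : Edge d → ℝ | ∀ᶠ n : ℕ in atTop, ∀ v : V d, nm v ≤ n →
      |pt (fun e => |ω e|) 0 v - μ (tr v)| ≤ (n : ℝ) ^ κ} =
      ⋃ N : ℕ, ⋂ n : ℕ, ⋂ (_ : N ≤ n), ⋂ v : V d, ⋂ (_ : nm v ≤ n),
        {ω | |pt (fun e => |ω e|) 0 v - μ (tr v)| ≤ (n : ℝ) ^ κ} := by
      ext ω
      simp only [mem_ofPred_eq, eventually_atTop, mem_iUnion, mem_iInter]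
    rw [h1]
    refine MeasurableSet.iUnion fun N => MeasurableSet.iInter fun n => MeasurableSet.iInter fun _ =>
      MeasurableSet.iInter fun v => MeasurableSet.iInter fun _ => ?_
    exact measurableSet_le (((meas_pt_abs v).sub_const _).abs) measurable_const
  rw [← h.map_eq]
  rw [ae_map_iff h.meas'.aemeasurable hms]
  filter_upwards [hq] with ω hω
  rw [IsStdFPP.abs_eq h ω]
  exact hω

theorem IsStdFPP.variance_eq {F : Measure ℝ} [IsProbabilityMeasure F] {τ : Edge d → Ω → ℝ}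
    (h : IsStdFPP P F τ) (x : V d) :
    variance (fun ω => pt (fun e => τ e ω) 0 x) P =
      ∫ ω, (pt (fun e => |ω e|) 0 x - ∫ ω', pt (fun e => |ω' e|) 0 x ∂(P0 d F)) ^ 2
        ∂(P0 d F) := by
  have hm : Measurable fun ω => pt (fun e => τ e ω) 0 x := (pt_meas 0 x).comp h.meas'
  rw [variance_eq_integral hm.aemeasurable]
  have h1 : ∫ ω', pt (fun e => |ω' e|) 0 x ∂(P0 d F) = ∫ ω, pt (fun e => τ e ω) 0 x ∂P := by
    rw [← h.map_eq, integral_map h.meas'.aemeasurable (meas_pt_abs x).aestronglyMeasurable]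
    refine integral_congr_ae (Eventually.of_forall fun ω => ?_)
    simp only [IsStdFPP.abs_eq h ω]
  rw [h1]
  conv_rhs => rw [← h.map_eq]
  rw [integral_map h.meas'.aemeasurable
    (((meas_pt_abs x).sub_const _).pow_const 2).aestronglyMeasurable]
  refine integral_congr_ae (Eventually.of_forall fun ω => ?_)
  simp only [IsStdFPP.abs_eq h ω]

end FPPX
end
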