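import Pool.Agent.Lib.MP_fa364e_pr.Mg.G013
import Pool.Agent.Lib.MP_fa364e_pr.Mg.G015
import Pool.Agent.Lib.MP_fa364e_pr.Mg.G001
import Pool.Agent.Lib.MP_fa364e_pr.Mg.G002
import Pool.Agent.Lib.MP_fa364e_pr.Mg.G014
import Pool.Agent.Lib.MP_fa364e_pr.Mg.G018
import Pool.Agent.Lib.MP_fa364e_pr.Mg.G009

section

/-! If chains with short jumps do not go far, then cheap chains do not go far. -/

namespace FPPX

open MeasureTheory ProbabilityTheory Filter Set
open scoped Topology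

variable {d : ℕ}

theorem weakA {α : ℝ} (hα : 1 ≤ α) {S : Set (RR d)} {ρ D : ℝ} (hD : 0 ≤ D)
    (hrun : ∀ (k : ℕ) (x : ℕ → RR d), (∀ i ≤ k, x i ∈ S) → ‖x 0‖ ≤ ρ →
      (∀ i < k, ‖x i - x (i + 1)‖ < 1 / 8) → ‖x k - x 0‖ ≤ D)
    {p q : RR d} {c : ℝ} (h : Wk α S p q c) (hp : ‖p‖ ≤ ρ) (hq : ρ < ‖q‖) :
    ρ ≤ ‖p‖ + (8 : ℝ) ^ α * c + ((8 : ℝ) ^ α * c + 1) * D := by
  obtain ⟨k, x, hx, hx0, hxk, hc⟩ := h
  set f : ℕ → ℝ := fun i => ‖x i - x (i + 1)‖ ^ α with hf
  have hf0 : ∀ i, 0 ≤ f i := fun i => Real.rpow_nonneg (norm_nonneg _) _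
  set E : ℝ := (8 : ℝ) ^ α with hE
  have hE0 : 0 < E := Real.rpow_pos_of_pos (by norm_num) _
  -- first exit
  have hex : ∃ i, ρ < ‖x i‖ := ⟨k, by rw [hxk]; exact hq⟩
  classical
  set n := Nat.find hex with hn
  have hn1 : ρ < ‖x n‖ := Nat.find_spec hex
  have hn2 : ∀ m < n, ‖x m‖ ≤ ρ := fun m hm => not_lt.mp (Nat.find_min hex hm)
  have hnk : n ≤ k := Nat.find_min' hex (by rw [hxk]; exact hq)
  -- short runs
  have hrun' : ∀ j i, j ≤ i → i ≤ n → j < n → (∀ l, j ≤ l → l < i → ‖x l - x (l + 1)‖ < 1 / 8) →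
      ‖x i - x j‖ ≤ D := by
    intro j i hji hin hjn hs
    have := hrun (i - j) (fun l => x (j + l)) (fun l hl => hx _ (by omega))
      (by simpa using hn2 j hjn) (fun l hl => hs (j + l) (by omega) (by omega))
    have e : j + (i - j) = i := by omega
    simpa [e] using this
  -- long hops
  have hlong : ∀ l, 1 / 8 ≤ ‖x l - x (l + 1)‖ →
      1 ≤ E * f l ∧ ‖x l - x (l + 1)‖ ≤ E * f l := by
    intro l hl
    set L := ‖x l - x (l + 1)‖ with hL
    have h8 : E * f l = (8 * L) ^ α := by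
      rw [Real.mul_rpow (by norm_num) (norm_nonneg _)]
    have h1 : (1 : ℝ) ≤ 8 * L := by linarith
    have h2 : 8 * L ≤ (8 * L) ^ α := by
      calc 8 * L = (8 * L) ^ (1 : ℝ) := (Real.rpow_one _).symm
        _ ≤ (8 * L) ^ α := Real.rpow_le_rpow_of_exponent_le h1 hα
    rw [h8]
    constructor <;> linarith
  have key : ∀ i ≤ n, ∃ j ≤ i, (∀ l, j ≤ l → l < i → ‖x l - x (l + 1)‖ < 1 / 8) ∧
      ‖x j - x 0‖ ≤ E * (∑ l ∈ Finset.range j, f l) * (1 + D) := by
    intro i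
    induction i with
    | zero => intro _; exact ⟨0, le_rfl, fun l h1 h2 => absurd h2 (by omega), by simp⟩
    | succ i ih =>
      intro hi
      obtain ⟨j, hji, hs, hb⟩ := ih (by omega)
      by_cases hl : ‖x i - x (i + 1)‖ < 1 / 8
      · refine ⟨j, by omega, fun l h1 h2 => ?_, hb⟩
        rcases Nat.lt_succ_iff_lt_or_eq.mp h2 with h3 | h3
        · exact hs l h1 h3
        · rw [h3]; exact hl
      · refine ⟨i + 1, le_rfl, fun l h1 h2 => absurd h2 (by omega), ?_⟩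
        obtain ⟨g1, g2⟩ := hlong i (not_lt.mp hl)
        have hD1 := hrun' j i hji (by omega) (by omega) hs
        have hsum : ∑ l ∈ Finset.range j, f l ≤ ∑ l ∈ Finset.range i, f l :=
          Finset.sum_le_sum_of_subset_of_nonneg (Finset.range_mono hji) fun l _ _ => hf0 l
        have t1 : ‖x (i + 1) - x 0‖ ≤ ‖x i - x (i + 1)‖ + ‖x i - x j‖ + ‖x j - x 0‖ := by
          have e : x (i + 1) - x 0 = -(x i - x (i + 1)) + (x i - x j) + (x j - x 0) := by abel
          rw [e]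
          refine (norm_add_le _ _).trans ?_
          gcongr
          refine (norm_add_le _ _).trans ?_
          rw [norm_neg]
        rw [Finset.sum_range_succ]
        have h3 : E * (∑ l ∈ Finset.range j, f l) * (1 + D) ≤
            E * (∑ l ∈ Finset.range i, f l) * (1 + D) := by
          have : 0 ≤ 1 + D := by linarith
          gcongr
        have h4 : D ≤ E * f i * D := by nlinarith
        nlinarith
  obtain ⟨j, hjn, hs, hb⟩ := key n le_rfl
  have hsum : ∑ l ∈ Finset.range j, f l ≤ c := by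
    rw [hc]
    exact Finset.sum_le_sum_of_subset_of_nonneg (Finset.range_mono (hjn.trans hnk))
      fun l _ _ => hf0 l
  have hlast : ‖x n - x j‖ ≤ D := by
    rcases Nat.lt_or_ge j n with h1 | h1
    · exact hrun' j n hjn le_rfl h1 hs
    · have : j = n := le_antisymm hjn h1
      rw [this]
      simpa using hD
  have h5 : ‖x n‖ ≤ ‖x n - x j‖ + ‖x j - x 0‖ + ‖p‖ := by
    have e : x n = (x n - x j) + (x j - x 0) + p := by rw [hx0]; abel
    calc ‖x n‖ = ‖(x n - x j) + (x j - x 0) + p‖ := by rw [← e]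
      _ ≤ _ := (norm_add_le _ _).trans (by gcongr; exact norm_add_le _ _)
  have h6 : E * (∑ l ∈ Finset.range j, f l) * (1 + D) ≤ E * c * (1 + D) := by
    have : 0 ≤ 1 + D := by linarith
    gcongr
  nlinarith

end FPPX
end

section

/-! A weak lower bound. -/

namespace FPPX

open MeasureTheory ProbabilityTheory Filter Set
open scoped Topology

variable {d : ℕ} {Λ : Measure (Cfg d)} {α : ℝ}

/-- the deterministic part of `poi_weak` -/
private lemma weak_det (hα : 1 < α) {S : Set (RR d)} (hS : S.Nonempty) {r : ℝ}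
    (hr : 1 < r) (hT : 4 * (1 / 2 + (8 : ℝ) ^ α + ((8 : ℝ) ^ α)⁻¹ / 4) < r ^ (1 / 2 : ℝ))
    (hrun : ¬ ∃ (k : ℕ) (x : ℕ → RR d), (∀ i ≤ k, x i ∈ S) ∧ ‖x 0‖ ≤ r / 2 ∧
      (∀ i < k, ‖x i - x (i + 1)‖ < 1 / 8) ∧
      ((8 : ℝ) ^ α)⁻¹ / 4 * r ^ (1 / 2 : ℝ) < ‖x k - x 0‖)
    {z : V d} (hz : r ≤ nm z) : r ^ (1 / 2 : ℝ) ≤ tP α S 0 z := by
  by_contra hlt
  rw [not_le] at hlt
  set T : ℝ := r ^ (1 / 2 : ℝ) with hTdef
  set F : ℝ := (8 : ℝ) ^ α with hF
  have hF0 : 0 < F := Real.rpow_pos_of_pos (by norm_num) _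
  have hFi : 0 < F⁻¹ := inv_pos.mpr hF0
  have hTT : T * T = r := by
    rw [hTdef, ← Real.rpow_add (by linarith)]
    norm_num
  have hT1 : 2 < T := by nlinarith
  have hTr : T < r := by nlinarith
  have hz0 : (0 : V d) ≠ z := by
    rintro rfl
    have := nm_le_norm_emb (0 : V d)
    rw [emb_zero, norm_zero] at this
    linarith
  obtain ⟨p, q, c, hw, hs⟩ := tP_near hS hz0 hlt
  rw [emb_zero, sub_zero] at hs
  have hc := hw.nonneg
  have hpow : ∀ y : ℝ, 0 ≤ y → y ^ α ≤ T → y ≤ T := by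
    intro y _ hy
    by_contra hc'
    rw [not_le] at hc'
    have h1 : y ^ (1 : ℝ) ≤ y ^ α := Real.rpow_le_rpow_of_exponent_le (by linarith) hα.le
    rw [Real.rpow_one] at h1
    linarith
  have hp0 : 0 ≤ (2 * ‖p‖) ^ α := Real.rpow_nonneg (by positivity) _
  have hq0 : 0 ≤ (2 * ‖q - emb z‖) ^ α := Real.rpow_nonneg (by positivity) _
  have hp : 2 * ‖p‖ ≤ T := hpow _ (by positivity) (by linarith)
  have hq : 2 * ‖q - emb z‖ ≤ T := hpow _ (by positivity) (by linarith)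
  have hcT : c ≤ T := by linarith
  have hqz : r - T / 2 ≤ ‖q‖ := by
    have h1 := nm_le_norm_emb z
    have h2 : ‖emb z‖ ≤ ‖q‖ + ‖q - emb z‖ := by
      have : emb z = q - (q - emb z) := by abel
      calc ‖emb z‖ = ‖q - (q - emb z)‖ := by rw [← this]
        _ ≤ _ := norm_sub_le _ _
    linarith
  have hD0 : 0 ≤ F⁻¹ / 4 * T := by positivity
  have hA := weakA (α := α) hα.le (S := S) (ρ := r / 2) (D := F⁻¹ / 4 * T) hD0
    (by
      intro k x h1 h2 h3
      by_contra h4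
      exact hrun ⟨k, x, h1, h2, h3, not_le.mp h4⟩)
    hw (by linarith) (by linarith)
  have hFF : F * F⁻¹ = 1 := mul_inv_cancel₀ hF0.ne'
  have h1 : F * c ≤ F * T := by gcongr
  have h2 : (F * c + 1) * (F⁻¹ / 4 * T) ≤ (F * T + 1) * (F⁻¹ / 4 * T) := by gcongr
  have h3 : (F * T + 1) * (F⁻¹ / 4 * T) = T * T / 4 * (F * F⁻¹) + F⁻¹ / 4 * T := by ring
  rw [hFF, mul_one] at h3
  nlinarith

theorem poi_weak (hd : 1 ≤ d) (h : IsCellLaw Λ) (hα : 1 < α) :
    Negl (PP Λ) (fun r => {ω | ∃ z : V d, r ≤ nm z ∧ nm z ≤ 2 * r ∧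
      tP α (parts ω) 0 z < r ^ (1 / 2 : ℝ)}) := by
  haveI := h.prob
  obtain ⟨C, hC0, hC⟩ := weakB h hd
  set F : ℝ := (8 : ℝ) ^ α with hF
  have hF0 : 0 < F := Real.rpow_pos_of_pos (by norm_num) _
  have hFi : 0 < F⁻¹ := inv_pos.mpr hF0
  apply Negl.of_poly ((d : ℝ) + 1)
  intro K
  have ev1 : ∀ᶠ r : ℝ in atTop, 4 * (1 / 2 + F + F⁻¹ / 4) < r ^ (1 / 2 : ℝ) :=
    (tendsto_rpow_atTop (by norm_num : (0 : ℝ) < 1 / 2)).eventually_gt_atTop _
  have ev2 : ∀ᶠ r : ℝ in atTop, 2 ≤ F⁻¹ / 4 * r ^ (1 / 2 : ℝ) :=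
    ev_const_le 2 (by positivity) (by norm_num)
  filter_upwards [ev1, ev2, eventually_ge_atTop 2, eventually_ge_atTop C,
    ev_geom (q := 1 / 2) (by norm_num) (a := 1 / 2) (B := F⁻¹ / 8) (by norm_num)
      (by positivity) K] with r h1 h2 h3 h4 h5
  set D : ℝ := F⁻¹ / 4 * r ^ (1 / 2 : ℝ) with hD
  set W : Set (Env d) := {ω : Env d | ∃ (k : ℕ) (x : ℕ → RR d), (∀ i ≤ k, x i ∈ parts ω) ∧
    ‖x 0‖ ≤ r / 2 ∧ (∀ i < k, ‖x i - x (i + 1)‖ < 1 / 8) ∧ D < ‖x k - x 0‖} with hW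
  set N : Set (Env d) := {ω : Env d | ¬ (parts ω).Nonempty} with hN
  have hN0 : (PP Λ).real N = 0 := by
    have : (PP Λ) N = 0 := by
      have := ae_nonempty h hd
      rwa [ae_iff] at this
    simp [Measure.real, this]
  have hWr : (PP Λ).real W ≤ C * (r / 2) ^ d * (1 / 2 : ℝ) ^ D :=
    hC (r / 2) D (by linarith) (by linarith)
  have hsub : {ω : Env d | ∃ z : V d, r ≤ nm z ∧ nm z ≤ 2 * r ∧
      tP α (parts ω) 0 z < r ^ (1 / 2 : ℝ)} ⊆ N ∪ W := by
    rintro ω ⟨z, hz1, -, hz2⟩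
    by_contra hcon
    rw [Set.mem_union, not_or] at hcon
    obtain ⟨hc1, hc2⟩ := hcon
    have hS : (parts ω).Nonempty := by
      by_contra h'
      exact hc1 h'
    have := weak_det hα hS (by linarith) h1 hc2 hz1
    linarith
  have hJ : (1 / 2 : ℝ) ^ D ≤ r ^ (-(K : ℝ)) := by
    have hJ1 : (⌊D⌋₊ : ℝ) ≤ D := Nat.floor_le (by linarith)
    have hJ2 : D < ⌊D⌋₊ + 1 := Nat.lt_floor_add_one D
    have h6 : (1 / 2 : ℝ) ^ D ≤ (1 / 2 : ℝ) ^ ((⌊D⌋₊ : ℕ) : ℝ) :=
      Real.rpow_le_rpow_of_exponent_ge (by norm_num) (by norm_num) hJ1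
    rw [Real.rpow_natCast] at h6
    refine h6.trans (h5 ⌊D⌋₊ ?_ (by norm_num))
    have : F⁻¹ / 8 * r ^ (1 / 2 : ℝ) = D / 2 := by rw [hD]; ring
    rw [this]
    linarith
  have hr0 : 0 < r := by linarith
  have hpos : 0 ≤ (1 / 2 : ℝ) ^ D := Real.rpow_nonneg (by norm_num) _
  calc (PP Λ).real _ ≤ (PP Λ).real (N ∪ W) := measureReal_mono hsub
    _ ≤ (PP Λ).real N + (PP Λ).real W := measureReal_union_le _ _
    _ ≤ C * (r / 2) ^ d * (1 / 2 : ℝ) ^ D := by rw [hN0, zero_add]; exact hWr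
    _ ≤ r * r ^ d * r ^ (-(K : ℝ)) := by
        have e1 : (r / 2) ^ d ≤ r ^ d := by
          apply pow_le_pow_left₀ (by linarith)
          linarith
        gcongr
    _ = r ^ ((d : ℝ) + 1) * r ^ (-(K : ℝ)) := by
        rw [Real.rpow_add hr0, Real.rpow_natCast, Real.rpow_one]
        ring

end FPPX
end

section

/-! Inclusions of sublevel sets and pointwise bounds. -/

namespace FPPX

open MeasureTheory ProbabilityTheory Filter Set
open scoped Topology Pointwise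

variable {d : ℕ}

private lemma shapeP_sup_le (y : RR d) : ‖(fun i => y i : E d)‖ ≤ ‖y‖ := by
  rw [pi_norm_le_iff_of_nonneg (norm_nonneg _)]
  intro i
  exact PiLp.norm_apply_le y i

private lemma shapeP_le_sup (y : RR d) : ‖y‖ ≤ ((d : ℝ) + 1) * ‖(fun i => y i : E d)‖ := by
  set s : ℝ := ‖(fun i => y i : E d)‖ with hs
  have hs0 : 0 ≤ s := norm_nonneg _
  have h1 : ‖y‖ ^ 2 ≤ (((d : ℝ) + 1) * s) ^ 2 := by
    rw [EuclideanSpace.norm_sq_eq]
    have h2 : ∀ i ∈ Finset.univ, ‖y i‖ ^ 2 ≤ s ^ 2 := by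
      intro i _
      have : ‖(fun i => y i : E d) i‖ ≤ s := norm_le_pi_norm (fun i => y i : E d) i
      gcongr
    calc ∑ i, ‖y i‖ ^ 2 ≤ ∑ _i : Fin d, s ^ 2 := Finset.sum_le_sum h2
      _ = (d : ℝ) * s ^ 2 := by simp
      _ ≤ (((d : ℝ) + 1) * s) ^ 2 := by
        have hd : (0 : ℝ) ≤ d := Nat.cast_nonneg d
        have : 0 ≤ s ^ 2 := by positivity
        nlinarith [mul_nonneg hd this, mul_nonneg (mul_nonneg hd hd) this]
  exact le_of_sq_le_sq h1 (by positivity)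

private lemma shapeP_lb {μ : E d → ℝ} {c C : ℝ} (hμ : IsNm μ c C) (y : RR d) :
    c / ((d : ℝ) + 1) * ‖y‖ ≤ toRR μ y := by
  have h1 := hμ.lb (fun i => y i)
  have h2 := shapeP_le_sup y
  have h3 : c / ((d : ℝ) + 1) * ‖y‖ ≤ c * ‖(fun i => y i : E d)‖ := by
    rw [div_mul_eq_mul_div, div_le_iff₀ (by positivity)]
    have := hμ.cpos
    nlinarith
  exact h3.trans h1

private lemma shapeP_ub {μ : E d → ℝ} {c C : ℝ} (hμ : IsNm μ c C) (y : RR d) :
    toRR μ y ≤ |C| * ‖y‖ := by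
  calc toRR μ y ≤ C * ‖(fun i => y i : E d)‖ := hμ.ub _
    _ ≤ |C| * ‖(fun i => y i : E d)‖ := by
      gcongr
      exact le_abs_self C
    _ ≤ |C| * ‖y‖ := by
      gcongr
      exact shapeP_sup_le y

private lemma shapeP_nonneg {μ : E d → ℝ} {c C : ℝ} (hμ : IsNm μ c C) (y : RR d) :
    0 ≤ toRR μ y := (mul_nonneg hμ.cpos.le (norm_nonneg _)).trans (hμ.lb _)

theorem shapeP_of_bound {μ : E d → ℝ} {c C : ℝ} (hμ : IsNm μ c C) {f : RR d → ℝ}
    (hf : ∀ y, 0 ≤ f y) {κ κ' : ℝ} (hκ' : 0 < κ') (hκκ' : κ < κ') (hκ1 : κ' ≤ 1)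
    (h : ∀ᶠ r : ℝ in atTop, ∀ y : RR d, ‖y‖ ≤ r → |f y - toRR μ y| ≤ r ^ κ) :
    ∀ᶠ t : ℝ in atTop, (t - t ^ κ') • limitShape (toRR μ) ⊆ {y | f y ≤ t} ∧
      {y | f y ≤ t} ⊆ (t + t ^ κ') • limitShape (toRR μ) := by
  set c₁ : ℝ := c / ((d : ℝ) + 1) with hc₁
  have hc₁pos : 0 < c₁ := div_pos hμ.cpos (by positivity)
  obtain ⟨k, hkκ, hk0, hkκ'⟩ : ∃ k : ℝ, κ ≤ k ∧ 0 < k ∧ k < κ' :=
    ⟨max κ (κ' / 2), le_max_left _ _, lt_max_of_lt_right (by linarith),
      max_lt hκκ' (by linarith)⟩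
  have hk1 : k < 1 := by linarith
  -- the threshold
  obtain ⟨r₀, hr₀⟩ := eventually_atTop.1 ((h.and (eventually_ge_atTop (1 : ℝ))).and
    (ev_rpow_le 1 (show (0 : ℝ) < c₁ / 2 by positivity) hk1))
  have key : ∀ r : ℝ, r₀ ≤ r → ∀ y : RR d, ‖y‖ ≤ r → |f y - toRR μ y| ≤ r ^ k := by
    intro r hr y hy
    obtain ⟨⟨h1, h2⟩, _⟩ := hr₀ r hr
    exact (h1 y hy).trans (Real.rpow_le_rpow_of_exponent_le h2 hkκ)
  filter_upwards [eventually_ge_atTop (1 : ℝ), eventually_ge_atTop (r₀ * c₁),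
    ev_rpow_le ((1 / c₁) ^ k) one_pos hkκ', ev_rpow_le ((2 / c₁) ^ k) one_pos hkκ'] with
    t ht1 ht2 ht3 ht4
  rw [one_mul] at ht3 ht4
  have ht0 : 0 ≤ t := by linarith
  have htκ : t ^ κ' ≤ t := by
    calc t ^ κ' ≤ t ^ (1 : ℝ) := Real.rpow_le_rpow_of_exponent_le ht1 hκ1
      _ = t := Real.rpow_one t
  have htκ0 : 0 ≤ t ^ κ' := Real.rpow_nonneg ht0 _
  rw [smul_limitShape hμ (by linarith), smul_limitShape hμ (by linarith)]
  refine ⟨?_, ?_⟩
  · intro y hy
    have hy' : toRR μ y ≤ t - t ^ κ' := hy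
    have h1 : ‖y‖ ≤ t / c₁ := by
      rw [le_div_iff₀ hc₁pos]
      have := shapeP_lb hμ y
      rw [← hc₁] at this
      linarith
    have h2 := key (t / c₁) (by rw [le_div_iff₀ hc₁pos]; exact ht2) y h1
    have h3 : (t / c₁) ^ k = (1 / c₁) ^ k * t ^ k := by
      rw [← Real.mul_rpow (by positivity) ht0]
      congr 1
      ring
    rw [h3] at h2
    have h4 := (abs_le.1 h2).2
    show f y ≤ t
    linarith
  · intro y hy
    have hy' : f y ≤ t := hy
    show toRR μ y ≤ t + t ^ κ'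
    rcases le_or_gt ‖y‖ (2 * t / c₁) with h1 | h1
    · have h0 : r₀ ≤ 2 * t / c₁ := by
        rw [le_div_iff₀ hc₁pos]
        linarith
      have h2 := key (2 * t / c₁) h0 y h1
      have h3 : (2 * t / c₁) ^ k = (2 / c₁) ^ k * t ^ k := by
        rw [← Real.mul_rpow (by positivity) ht0]
        congr 1
        ring
      rw [h3] at h2
      have h4 := (abs_le.1 h2).1
      linarith
    · exfalso
      have h0 : r₀ ≤ ‖y‖ := by
        refine le_trans ?_ h1.le
        rw [le_div_iff₀ hc₁pos]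
        linarith
      have h2 := key ‖y‖ h0 y le_rfl
      have h3 := (hr₀ _ h0).2
      rw [one_mul, Real.rpow_one] at h3
      have h4 := (abs_le.1 h2).1
      have h5 := shapeP_lb hμ y
      rw [← hc₁] at h5
      rw [div_lt_iff₀ hc₁pos] at h1
      linarith

theorem shapeP_one {μ : E d → ℝ} {c C : ℝ} (hμ : IsNm μ c C) {f : RR d → ℝ}
    (hf : ∀ y, 0 ≤ f y)
    (h : ∀ ε : ℝ, 0 < ε → ∀ᶠ r : ℝ in atTop, ∀ y : RR d, ‖y‖ ≤ r → |f y - toRR μ y| ≤ ε * r) :
    ∀ᶠ t : ℝ in atTop, (t - t ^ (1 : ℝ)) • limitShape (toRR μ) ⊆ {y | f y ≤ t} ∧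
      {y | f y ≤ t} ⊆ (t + t ^ (1 : ℝ)) • limitShape (toRR μ) := by
  set c₁ : ℝ := c / ((d : ℝ) + 1) with hc₁
  have hc₁pos : 0 < c₁ := div_pos hμ.cpos (by positivity)
  obtain ⟨r₀, hr₀⟩ := eventually_atTop.1 (h (c₁ / 4) (by positivity))
  filter_upwards [eventually_ge_atTop (1 : ℝ), eventually_ge_atTop (r₀ * c₁),
    eventually_ge_atTop (f 0)] with t ht1 ht2 ht3
  have ht0 : 0 ≤ t := by linarith
  rw [Real.rpow_one, smul_limitShape hμ (by linarith), smul_limitShape hμ (by linarith)]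
  refine ⟨?_, ?_⟩
  · intro y hy
    have hy' : toRR μ y ≤ t - t := hy
    have h1 := shapeP_lb hμ y
    rw [← hc₁] at h1
    have h2 : ‖y‖ ≤ 0 := by
      by_contra hcon
      push Not at hcon
      have := mul_pos hc₁pos hcon
      linarith
    have h3 : y = 0 := norm_le_zero_iff.1 h2
    rw [h3]
    exact ht3
  · intro y hy
    have hy' : f y ≤ t := hy
    show toRR μ y ≤ t + t
    rcases le_or_gt ‖y‖ (2 * t / c₁) with h1 | h1
    · have h0 : r₀ ≤ 2 * t / c₁ := by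
        rw [le_div_iff₀ hc₁pos]
        linarith
      have h2 := hr₀ (2 * t / c₁) h0 y h1
      have h3 : c₁ / 4 * (2 * t / c₁) = t / 2 := by field_simp; ring
      rw [h3] at h2
      have h4 := (abs_le.1 h2).1
      linarith
    · exfalso
      have h0 : r₀ ≤ ‖y‖ := by
        refine le_trans ?_ h1.le
        rw [le_div_iff₀ hc₁pos]
        linarith
      have h2 := hr₀ ‖y‖ h0 y le_rfl
      have h4 := (abs_le.1 h2).1
      have h5 := shapeP_lb hμ y
      rw [← hc₁] at h5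
      rw [div_lt_iff₀ hc₁pos] at h1
      linarith

theorem boundP_of_shape {μ : E d → ℝ} {c C : ℝ} (hμ : IsNm μ c C) {f : RR d → ℝ}
    (hf : ∀ y, 0 ≤ f y) {κ κ' : ℝ} (hκ' : 0 < κ') (hκκ' : κ < κ') (hκ1 : κ < 1)
    (h : ∀ᶠ t : ℝ in atTop, (t - t ^ κ) • limitShape (toRR μ) ⊆ {y | f y ≤ t} ∧
      {y | f y ≤ t} ⊆ (t + t ^ κ) • limitShape (toRR μ)) :
    ∀ᶠ r : ℝ in atTop, ∀ y : RR d, ‖y‖ ≤ r → |f y - toRR μ y| ≤ r ^ κ' := by
  have hincl : ∀ᶠ t : ℝ in atTop, 1 ≤ t ∧ t ^ κ ≤ t / 2 ∧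
      (∀ y : RR d, toRR μ y ≤ t - t ^ κ → f y ≤ t) ∧
      (∀ y : RR d, f y ≤ t → toRR μ y ≤ t + t ^ κ) := by
    filter_upwards [h, eventually_ge_atTop (1 : ℝ),
      ev_rpow_le 1 (show (0 : ℝ) < 1 / 2 by norm_num) hκ1] with t ht h1 h2
    rw [Real.rpow_one, one_mul] at h2
    have h3 : t ^ κ ≤ t / 2 := by linarith
    have h4 : 0 < t ^ κ := Real.rpow_pos_of_pos (by linarith) _
    rw [smul_limitShape hμ (by linarith), smul_limitShape hμ (by linarith)] at ht
    exact ⟨h1, h3, fun y hy => ht.1 hy, fun y hy => ht.2 hy⟩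
  obtain ⟨t₀, ht₀⟩ := eventually_atTop.1 hincl
  have h00 := ht₀ t₀ le_rfl
  have h01 : 1 ≤ t₀ := h00.1
  have hpos : 0 < t₀ ^ κ := Real.rpow_pos_of_pos (by linarith) _
  filter_upwards [ev_const_le (t₀ + t₀ ^ κ) one_pos hκ', ev_const_le 1 one_pos hκ',
    ev_rpow_le ((2 * |C|) ^ κ) one_pos hκκ', eventually_ge_atTop (1 : ℝ)] with r hr1 hr2 hr3 hr4
  intro y hy
  rw [one_mul] at hr1 hr2 hr3
  have hμ0 : 0 ≤ toRR μ y := shapeP_nonneg hμ y
  have hs0 : 0 ≤ f y := hf y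
  rcases le_or_gt (f y) t₀ with hs | hs
  · have h1 := h00.2.2.2 y hs
    refine le_trans ?_ hr1
    rw [abs_le]
    constructor <;> linarith
  · have hs1 : 1 ≤ f y := h01.trans hs.le
    have h1 := ht₀ _ hs.le
    have h2 := h1.2.2.2 y le_rfl
    have h3 : f y - f y ^ κ ≤ toRR μ y := by
      have hc : ContinuousAt (fun t : ℝ => t - t ^ κ) (f y) :=
        continuousAt_id.sub (Real.continuousAt_rpow_const _ _ (Or.inl (by linarith)))
      have hc' : Tendsto (fun t : ℝ => t - t ^ κ) (𝓝[<] (f y))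
          (𝓝 (f y - f y ^ κ)) := hc.tendsto.mono_left nhdsWithin_le_nhds
      refine le_of_tendsto hc' ?_
      have hI : Ioo t₀ (f y) ∈ 𝓝[<] (f y) := Ioo_mem_nhdsLT hs
      filter_upwards [hI] with t ht
      by_contra hcon
      push Not at hcon
      have := (ht₀ t ht.1.le).2.2.1 y hcon.le
      exact absurd ht.2 (not_lt.2 this)
    have h4 : |f y - toRR μ y| ≤ f y ^ κ := by
      rw [abs_le]
      constructor <;> linarith
    refine h4.trans ?_
    rcases le_total κ 0 with hk | hk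
    · exact (Real.rpow_le_one_of_one_le_of_nonpos hs1 hk).trans hr2
    · have h5 : f y ≤ 2 * |C| * r := by
        have h6 : toRR μ y ≤ |C| * r := by
          calc toRR μ y ≤ |C| * ‖y‖ := shapeP_ub hμ y
            _ ≤ |C| * r := by
                gcongr
        have h7 := h1.2.1
        linarith
      calc f y ^ κ ≤ (2 * |C| * r) ^ κ := Real.rpow_le_rpow hs0 h5 hk
        _ = (2 * |C|) ^ κ * r ^ κ := Real.mul_rpow (by positivity) (by linarith)
        _ ≤ r ^ κ' := hr3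

/-- negative exponents are impossible if `f` is constant on balls far away -/
theorem negP_shape {μ : E d → ℝ} {c C : ℝ} (hμ : IsNm μ c C) {f : RR d → ℝ} {κ : ℝ} (hκ : κ < 0)
    {δ : ℝ} (hδ : 0 < δ)
    (hc : ∀ R : ℝ, ∃ y0 : RR d, R ≤ ‖y0‖ ∧ ∀ y, ‖y - y0‖ ≤ δ → f y = f y0)
    (h : ∀ᶠ t : ℝ in atTop, (t - t ^ κ) • limitShape (toRR μ) ⊆ {y | f y ≤ t} ∧
      {y | f y ≤ t} ⊆ (t + t ^ κ) • limitShape (toRR μ)) : False := by
  set c₁ : ℝ := c / ((d : ℝ) + 1) with hc₁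
  have hc₁pos : 0 < c₁ := div_pos hμ.cpos (by positivity)
  have hev : ∀ᶠ t : ℝ in atTop, t ^ κ ≤ c₁ * δ / 4 := by
    have h1 : Tendsto (fun t : ℝ => t ^ κ) atTop (𝓝 0) := by
      have := tendsto_rpow_neg_atTop (y := -κ) (by linarith)
      simpa using this
    exact h1.eventually_le_const (by positivity)
  obtain ⟨t₁, ht₁⟩ := eventually_atTop.1 ((h.and hev).and (eventually_ge_atTop (1 : ℝ)))
  obtain ⟨y0, hy0, hy0c⟩ := hc (max 1 (t₁ / c₁))
  have hn1 : 1 ≤ ‖y0‖ := (le_max_left _ _).trans hy0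
  have hn0 : 0 < ‖y0‖ := by linarith
  have hn2 : t₁ ≤ c₁ * ‖y0‖ := by
    have := (le_max_right _ _).trans hy0
    rw [div_le_iff₀ hc₁pos] at this
    linarith
  have hlb := shapeP_lb hμ y0
  rw [← hc₁] at hlb
  set y1 : RR d := (1 + δ / ‖y0‖) • y0 with hy1
  have hd1 : y1 - y0 = (δ / ‖y0‖) • y0 := by
    rw [hy1, add_smul, one_smul, add_sub_cancel_left]
  have hdist : ‖y1 - y0‖ ≤ δ := by
    rw [hd1, norm_smul, Real.norm_of_nonneg (by positivity)]
    exact (div_mul_cancel₀ δ hn0.ne').le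
  have hf1 : f y1 = f y0 := hy0c y1 hdist
  have hμ1 : toRR μ y1 = (1 + δ / ‖y0‖) * toRR μ y0 := by
    have h1 : toRR μ y1 = μ ((1 + δ / ‖y0‖) • (fun i => y0 i : E d)) := rfl
    rw [h1, hμ.smul, abs_of_nonneg (by positivity)]
    rfl
  have hμ2 : toRR μ y0 + c₁ * δ ≤ toRR μ y1 := by
    rw [hμ1]
    have h1 : c₁ * δ ≤ δ / ‖y0‖ * toRR μ y0 := by
      calc c₁ * δ = δ / ‖y0‖ * (c₁ * ‖y0‖) := by field_simp
        _ ≤ δ / ‖y0‖ * toRR μ y0 := by gcongr
    linarith
  set t : ℝ := toRR μ y0 + c₁ * δ / 2 with ht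
  have hcd : 0 < c₁ * δ := by positivity
  have htt : t₁ ≤ t := by linarith
  obtain ⟨⟨⟨hA, hB⟩, h2⟩, h3⟩ := ht₁ t htt
  have h4 : 0 < t ^ κ := Real.rpow_pos_of_pos (by linarith) _
  have h5 : t ^ κ ≤ t := (Real.rpow_le_one_of_one_le_of_nonpos h3 hκ.le).trans h3
  rw [smul_limitShape hμ (by linarith)] at hA
  rw [smul_limitShape hμ (by linarith)] at hB
  have h6 : f y0 ≤ t := by
    refine hA ?_
    show toRR μ y0 ≤ t - t ^ κ
    linarith
  have h7 : toRR μ y1 ≤ t + t ^ κ := by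
    refine hB ?_
    show f y1 ≤ t
    rw [hf1]
    exact h6
  linarith

/-- rotation invariant norms -/
theorem limitShape_const {μ : E d → ℝ} {μ0 : ℝ} (h : ∀ u : RR d, ‖u‖ = 1 → toRR μ u = μ0) :
    limitShape (fun _ : RR d => μ0) = limitShape (toRR μ) := by
  ext x
  show ‖x‖ * μ0 ≤ 1 ↔ ‖x‖ * toRR μ (‖x‖⁻¹ • x) ≤ 1
  rcases eq_or_ne x 0 with rfl | hx
  · simp
  · rw [h]
    rw [norm_smul, norm_inv, norm_norm]
    exact inv_mul_cancel₀ (norm_ne_zero_iff.2 hx)

end FPPX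
end

section

/-! Small clusters for small edge weights. -/

namespace FPPX

open MeasureTheory ProbabilityTheory Filter Set
open scoped Topology

variable {d : ℕ}

theorem measurableSet_abs_le (δ : ℝ) : MeasurableSet {x : ℝ | |x| ≤ δ} :=
  measurableSet_le (continuous_abs.measurable) measurable_const

open Classical in
/-- the probability that the edges of `E0` with small weight are exactly those of `B` -/
theorem small_exact (F : Measure ℝ) [IsProbabilityMeasure F] (δ : ℝ) (E0 B : Finset (Edge d))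
    (hB : B ⊆ E0) :
    (P0 d F).real {ω | E0.filter (fun e => |ω e| ≤ δ) = B} =
      (F.real {x | |x| ≤ δ}) ^ B.card * (1 - F.real {x | |x| ≤ δ}) ^ (E0.card - B.card) := by
  set T : Edge d → Set ℝ := fun e => if e ∈ B then {x | |x| ≤ δ} else {x | |x| ≤ δ}ᶜ with hT
  have hTm : ∀ e ∈ E0, MeasurableSet (T e) := by
    intro e _
    by_cases he : e ∈ B
    · simp only [hT, he, if_true]; exact measurableSet_abs_le δ
    · simp only [hT, he, if_false]; exact (measurableSet_abs_le δ).compl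
  have hset : {ω : Edge d → ℝ | E0.filter (fun e => |ω e| ≤ δ) = B} =
      Set.pi (E0 : Set (Edge d)) T := by
    ext ω
    simp only [mem_ofPred_eq, Set.mem_pi, Finset.mem_coe]
    constructor
    · intro h e he
      by_cases heB : e ∈ B
      · have h1 : e ∈ E0.filter (fun e => |ω e| ≤ δ) := by rw [h]; exact heB
        simp only [hT, heB, if_true, mem_ofPred_eq]
        exact (Finset.mem_filter.mp h1).2
      · have h1 : e ∉ E0.filter (fun e => |ω e| ≤ δ) := by rw [h]; exact heB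
        simp only [hT, heB, if_false, mem_compl_iff, mem_ofPred_eq]
        intro h2
        exact h1 (Finset.mem_filter.mpr ⟨he, h2⟩)
    · intro h
      ext e
      rw [Finset.mem_filter]
      constructor
      · rintro ⟨he, h2⟩
        by_contra heB
        have h3 := h e he
        simp only [hT, heB, if_false, mem_compl_iff, mem_ofPred_eq] at h3
        exact h3 h2
      · intro heB
        have he := hB heB
        have h3 := h e he
        simp only [hT, heB, if_true, mem_ofPred_eq] at h3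
        exact ⟨he, h3⟩
  rw [hset, measureReal_def, Measure.infinitePi_pi _ hTm, ENNReal.toReal_prod]
  have h1 : ∏ e ∈ E0, (F (T e)).toReal =
      ∏ e ∈ E0, (if e ∈ B then F.real {x | |x| ≤ δ} else 1 - F.real {x | |x| ≤ δ}) := by
    refine Finset.prod_congr rfl fun e _ => ?_
    by_cases he : e ∈ B
    · simp only [hT, he, if_true]; rfl
    · simp only [hT, he, if_false]
      exact probReal_compl_eq_one_sub (measurableSet_abs_le δ)
  rw [h1, Finset.prod_ite, Finset.prod_const, Finset.prod_const]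
  have h2 : E0.filter (fun e => e ∈ B) = B := by
    ext e
    simp only [Finset.mem_filter]
    exact ⟨fun h => h.2, fun h => ⟨hB h, h⟩⟩
  have h3 : (E0.filter (fun e => e ∉ B)).card = E0.card - B.card := by
    have h4 := Finset.card_filter_add_card_filter_not (s := E0) (fun e => e ∈ B)
    rw [h2] at h4
    omega
  rw [h2, h3]

open Classical in
theorem small_local (F : Measure ℝ) [IsProbabilityMeasure F] (δ : ℝ) (E0 : Finset (Edge d))
    (𝒜 : Set (Finset (Edge d))) :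
    (P0 d F).real {ω | E0.filter (fun e => |ω e| ≤ δ) ∈ 𝒜} ≤
      prb E0 𝒜 (F.real {x | |x| ≤ δ}) := by
  have hsub : {ω : Edge d → ℝ | E0.filter (fun e => |ω e| ≤ δ) ∈ 𝒜} ⊆
      ⋃ B ∈ E0.powerset.filter (fun B => B ∈ 𝒜),
        {ω : Edge d → ℝ | E0.filter (fun e => |ω e| ≤ δ) = B} := by
    intro ω hω
    simp only [mem_iUnion, mem_ofPred_eq, exists_prop]
    exact ⟨_, Finset.mem_filter.mpr ⟨Finset.mem_powerset.mpr (Finset.filter_subset _ _), hω⟩, rfl⟩
  refine (measureReal_mono hsub (measure_ne_top _ _)).trans ?_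
  refine (measureReal_biUnion_finset_le _ _).trans ?_
  rw [prb, Finset.sum_filter]
  refine Finset.sum_le_sum fun B hB => ?_
  by_cases h : B ∈ 𝒜
  · rw [if_pos h, Set.indicator_of_mem h, small_exact F δ E0 B (Finset.mem_powerset.mp hB)]
  · rw [if_neg h, Set.indicator_of_notMem h]

theorem small_fex (F : Measure ℝ) [IsProbabilityMeasure F] (δ : ℝ) (n : ℕ) (hn : 1 ≤ n) :
    (P0 d F).real {ω | ∃ (v : V d) (l : List (Edge d)), (n : ℝ) ≤ nm v ∧ IsPath 0 v l ∧
      ∀ e ∈ l, |ω e| ≤ δ} ≤ fex d (n - 1) (F.real {x | |x| ≤ δ}) := by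
  classical
  refine le_trans (measureReal_mono ?_ (measure_ne_top _ _))
    (small_local F δ (Ebox d (n - 1)) (exitEv d (n - 1)))
  rintro ω ⟨v, l, hv, hl, hle⟩
  have hv' : ((n - 1 : ℕ) : ℝ) < nm v := by
    rw [Nat.cast_sub hn]
    push_cast
    linarith
  obtain ⟨w, hw, l', hl', hle'⟩ := exit_restrict (n - 1) {e | |ω e| ≤ δ} v hv' ⟨l, hl, hle⟩
  refine ⟨w, hw, l', hl', fun e he => ?_⟩
  have h1 := hle' e he
  rw [Finset.mem_coe, Finset.mem_filter]
  exact ⟨h1.2, h1.1⟩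

theorem tendsto_small (F : Measure ℝ) [IsProbabilityMeasure F] :
    Tendsto (fun k : ℕ => F.real {x | |x| ≤ 1 / ((k : ℝ) + 1)}) atTop (𝓝 (F.real {0})) := by
  have hint : (⋂ k : ℕ, {x : ℝ | |x| ≤ 1 / ((k : ℝ) + 1)}) = {0} := by
    ext x
    simp only [mem_iInter, mem_ofPred_eq, mem_singleton_iff]
    constructor
    · intro h
      have h1 : |x| ≤ 0 :=
        ge_of_tendsto' (tendsto_one_div_add_atTop_nhds_zero_nat (𝕜 := ℝ)) h
      exact abs_nonpos_iff.mp h1
    · intro h k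
      rw [h, abs_zero]
      positivity
  have hanti : Antitone (fun k : ℕ => {x : ℝ | |x| ≤ 1 / ((k : ℝ) + 1)}) := by
    intro a b hab x hx
    simp only [mem_ofPred_eq] at hx ⊢
    refine hx.trans ?_
    have : (a : ℝ) ≤ b := by exact_mod_cast hab
    gcongr
  have h := tendsto_measure_iInter_atTop (μ := F)
    (s := fun k : ℕ => {x : ℝ | |x| ≤ 1 / ((k : ℝ) + 1)})
    (fun k => (measurableSet_abs_le (1 / ((k : ℝ) + 1))).nullMeasurableSet) hanti
    ⟨0, measure_ne_top _ _⟩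
  rw [hint] at h
  exact (ENNReal.tendsto_toReal (measure_ne_top _ _)).comp h

theorem exists_small (hd : 1 ≤ d) (F : Measure ℝ) [IsProbabilityMeasure F]
    (hF : F.real {0} < pc d) : ∃ δ : ℝ, 0 < δ ∧ SmallClusters d F δ := by
  obtain ⟨p1, S, hp1, hp1', hS, hφ⟩ := exists_phi_lt hd (F.real {0}) measureReal_nonneg hF
  obtain ⟨k, hk⟩ := ((tendsto_small F).eventually (gt_mem_nhds hp1)).exists
  set δ : ℝ := 1 / ((k : ℝ) + 1) with hδ
  have hδ0 : 0 < δ := by positivity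
  set q : ℝ := F.real {x | |x| ≤ δ} with hq
  have hq0 : 0 ≤ q := measureReal_nonneg
  have hφq : phi S q < 1 := (phi_mono S hq0 hk.le hp1'.le).trans_lt hφ
  obtain ⟨c, C, hc, hdec⟩ := exp_decay S hS hq0 (hk.le.trans hp1'.le) hφq
  refine ⟨δ, hδ0, c, max (C * Real.exp c) 1, hc, fun n => ?_⟩
  rcases Nat.eq_zero_or_pos n with hn | hn
  · subst hn
    refine (measureReal_le_one).trans ?_
    simp
  · refine (small_fex F δ n hn).trans ((hdec (n - 1)).trans ?_)
    have h1 : C * Real.exp (-(c * ((n - 1 : ℕ) : ℝ))) = C * Real.exp c * Real.exp (-(c * n)) := by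
      rw [mul_assoc, ← Real.exp_add, Nat.cast_sub hn]
      congr 2
      push_cast
      ring
    rw [h1]
    exact mul_le_mul_of_nonneg_right (le_max_left _ _) (Real.exp_pos _).le

end FPPX
end

section

/-! Variance lower bound for non-degenerate weights. -/

namespace FPPX

open MeasureTheory ProbabilityTheory Filter Set
open scoped Topology Pointwise

variable {d : ℕ}

open Classical in
/-- the edges at the origin -/
private noncomputable def T0 (d : ℕ) : Finset (Edge d) :=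
  (Finset.univ.image fun i : Fin d => ((0 : V d), i)) ∪
    (Finset.univ.image fun i : Fin d => ((-Pi.single i 1 : V d), i))

private lemma mem_T0 {e : Edge d} : e ∈ T0 d ↔ e.1 = 0 ∨ e.1 + Pi.single e.2 1 = 0 := by
  classical
  unfold T0
  rw [Finset.mem_union, Finset.mem_image, Finset.mem_image]
  constructor
  · rintro (⟨i, -, rfl⟩ | ⟨i, -, rfl⟩)
    · exact Or.inl rfl
    · exact Or.inr (neg_add_cancel _)
  · rintro (h | h)
    · exact Or.inl ⟨e.2, Finset.mem_univ _, Prod.ext h.symm rfl⟩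
    · exact Or.inr ⟨e.2, Finset.mem_univ _, Prod.ext (eq_neg_of_add_eq_zero_left h).symm rfl⟩

private lemma joins_T0 {e : Edge d} {w : V d} (h : Joins e 0 w) : e ∈ T0 d := by
  rw [mem_T0]
  rcases h with h | h
  · exact Or.inl h.1.symm
  · exact Or.inr h.2.symm

/-- decomposition at the last visit of the origin -/
private lemma decomp_aux {τ : Edge d → ℝ} (hτ : ∀ e, 0 ≤ τ e) {x : V d} (hx : x ≠ 0) :
    ∀ (l : List (Edge d)) (u : V d), IsPath u x l → (∀ e ∈ l, e ∉ T0 d) ∨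
      ∃ e w l2, Joins e 0 w ∧ IsPath w x l2 ∧ (∀ e' ∈ l2, e' ∉ T0 d) ∧
        τ e + (l2.map τ).sum ≤ (l.map τ).sum := by
  intro l
  induction l with
  | nil => intro u _; left; simp
  | cons e l ih =>
    rintro u ⟨w, hw, hl⟩
    rcases ih w hl with h | ⟨e', w', l2, h1, h2, h3, h4⟩
    · by_cases he : e ∈ T0 d
      · right
        have huw : u = 0 ∨ w = 0 := by
          rw [mem_T0] at he
          rcases hw with hw | hw
          · rcases he with he | he
            · exact Or.inl (hw.1.trans he)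
            · exact Or.inr (hw.2.trans he)
          · rcases he with he | he
            · exact Or.inr (hw.1.trans he)
            · exact Or.inl (hw.2.trans he)
        rcases huw with rfl | rfl
        · exact ⟨e, w, l, hw, hl, h, by simp⟩
        · exfalso
          cases l with
          | nil => exact hx hl.symm
          | cons e1 l1 =>
            obtain ⟨w1, hw1, -⟩ := hl
            exact h e1 (by simp) (joins_T0 hw1)
      · left
        intro e' he'
        rcases List.mem_cons.1 he' with rfl | he'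
        · exact he
        · exact h e' he'
    · right
      refine ⟨e', w', l2, h1, h2, h3, ?_⟩
      rw [List.map_cons, List.sum_cons]
      linarith [hτ e]

private lemma decomp {τ : Edge d → ℝ} (hτ : ∀ e, 0 ≤ τ e) {x : V d} (hx : x ≠ 0)
    {l : List (Edge d)} (hl : IsPath 0 x l) :
      ∃ e w l2, Joins e 0 w ∧ IsPath w x l2 ∧ (∀ e' ∈ l2, e' ∉ T0 d) ∧
        τ e + (l2.map τ).sum ≤ (l.map τ).sum := by
  rcases decomp_aux hτ hx l 0 hl with h | h
  · exfalso
    cases l with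
    | nil => exact hx hl.symm
    | cons e1 l1 =>
      obtain ⟨w1, hw1, -⟩ := hl
      exact h e1 (by simp) (joins_T0 hw1)
  · exact h

/-- a non-degenerate law charges two separated half lines -/
private lemma exists_split (F : Measure ℝ) [IsProbabilityMeasure F] (hF0 : F (Iio 0) = 0)
    (hF1 : ∀ a : ℝ, F ≠ Measure.dirac a) :
    ∃ a b : ℝ, 0 ≤ a ∧ a < b ∧ F (Icc 0 a) ≠ 0 ∧ F (Ici b) ≠ 0 := by
  by_contra hcon
  push Not at hcon
  have h0 : ∀ a : ℝ, F (Iic a) ≠ 0 → 0 ≤ a := by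
    intro a ha
    by_contra h
    exact ha (measure_mono_null (fun t ht => lt_of_le_of_lt ht (not_le.1 h)) hF0)
  have h1 : ∀ a : ℝ, F (Iic a) ≠ 0 → F (Icc 0 a) ≠ 0 := by
    intro a ha h
    apply ha
    refine measure_mono_null (t := Iio 0 ∪ Icc 0 a) ?_ (measure_union_null hF0 h)
    intro t ht
    rcases lt_or_ge t 0 with h' | h'
    · exact Or.inl h'
    · exact Or.inr ⟨h', ht⟩
  set Q : Set ℝ := {a | F (Iic a) ≠ 0} with hQ
  have hne : Q.Nonempty := by
    by_contra hemp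
    have h2 : ∀ n : ℕ, F (Iic (n : ℝ)) = 0 := by
      intro n
      by_contra h
      exact hemp ⟨n, h⟩
    have h3 : F univ = 0 := by
      have h4 : (univ : Set ℝ) = ⋃ n : ℕ, Iic (n : ℝ) := by
        refine (Set.eq_univ_of_forall fun t => ?_).symm
        obtain ⟨n, hn⟩ := exists_nat_ge t
        exact mem_iUnion.2 ⟨n, hn⟩
      rw [h4]
      exact measure_iUnion_null h2
    rw [measure_univ] at h3
    exact one_ne_zero h3
  have hbd : BddBelow Q := ⟨0, fun a ha => h0 a ha⟩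
  set s := sInf Q with hs
  have hr : F (Ioi s) = 0 := by
    have h4 : Ioi s = ⋃ n : ℕ, Ici (s + 1 / ((n : ℝ) + 1)) := by
      ext t
      simp only [mem_Ioi, mem_iUnion, mem_Ici]
      constructor
      · intro ht
        obtain ⟨n, hn⟩ := exists_nat_one_div_lt (sub_pos.2 ht)
        exact ⟨n, by linarith⟩
      · rintro ⟨n, hn⟩
        have : (0 : ℝ) < 1 / ((n : ℝ) + 1) := by positivity
        linarith
    rw [h4]
    refine measure_iUnion_null fun n => ?_
    have h5 : s < s + 1 / ((n : ℝ) + 1) := by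
      have : (0 : ℝ) < 1 / ((n : ℝ) + 1) := by positivity
      linarith
    obtain ⟨a, ha, ha'⟩ := exists_lt_of_csInf_lt hne h5
    exact hcon a _ (h0 a ha) ha' (h1 a ha)
  have hl : F (Iio s) = 0 := by
    have h4 : Iio s = ⋃ n : ℕ, Iic (s - 1 / ((n : ℝ) + 1)) := by
      ext t
      simp only [mem_Iio, mem_iUnion, mem_Iic]
      constructor
      · intro ht
        obtain ⟨n, hn⟩ := exists_nat_one_div_lt (sub_pos.2 ht)
        exact ⟨n, by linarith⟩
      · rintro ⟨n, hn⟩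
        have : (0 : ℝ) < 1 / ((n : ℝ) + 1) := by positivity
        linarith
    rw [h4]
    refine measure_iUnion_null fun n => ?_
    by_contra h
    have h5 := csInf_le hbd (show s - 1 / ((n : ℝ) + 1) ∈ Q from h)
    have : (0 : ℝ) < 1 / ((n : ℝ) + 1) := by positivity
    linarith
  have hc : F {s}ᶜ = 0 := by
    refine measure_mono_null (t := Iio s ∪ Ioi s) ?_ (measure_union_null hl hr)
    intro t ht
    exact lt_or_gt_of_ne ht
  apply hF1 s
  refine Measure.ext fun A hA => ?_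
  rw [Measure.dirac_apply' s hA]
  by_cases hsA : s ∈ A
  · rw [indicator_of_mem hsA]
    have h7 : Aᶜ ⊆ {s}ᶜ := compl_subset_compl.2 (singleton_subset_iff.2 hsA)
    have h6 : F Aᶜ = 0 := measure_mono_null h7 hc
    exact (prob_compl_eq_zero_iff hA).1 h6
  · rw [indicator_of_notMem hsA]
    have h7 : A ⊆ {s}ᶜ := subset_compl_singleton_iff.2 hsA
    exact measure_mono_null h7 hc

/-- sum of the weights of a list as a measurable function of these weights -/
private lemma sum_meas {m : MeasurableSpace (Edge d → ℝ)} (l : List (Edge d))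
    (h : ∀ e ∈ l, @Measurable _ _ m _ (fun ω : Edge d → ℝ => ω e)) :
    @Measurable _ _ m _ (fun ω : Edge d → ℝ => (l.map (fun e => |ω e|)).sum) := by
  induction l with
  | nil => exact measurable_const
  | cons e l ih =>
    simp only [List.map_cons, List.sum_cons]
    exact (continuous_abs.measurable.comp (h e (by simp))).add
      (ih fun e' he' => h e' (by simp [he']))

theorem std_var_low (hd : 1 ≤ d) (F : Measure ℝ) [IsProbabilityMeasure F]
    (hF : ∃ γ : ℝ, 0 < γ ∧ Integrable (fun t => Real.exp (γ * |t|)) F)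
    (hF0 : F (Iio 0) = 0) (hF1 : ∀ a : ℝ, F ≠ Measure.dirac a) :
    ∃ c : ℝ, 0 < c ∧ ∀ x : V d, x ≠ 0 →
      c ≤ ∫ ω, ((stdPreB d F hF).t ω 0 x - ∫ ω', (stdPreB d F hF).t ω' 0 x ∂(P0 d F)) ^ 2
        ∂(P0 d F) := by
  classical
  obtain ⟨a, b, ha0, hab, hFa, hFb⟩ := exists_split F hF0 hF1
  set A : Set (Edge d → ℝ) := Set.pi (T0 d) (fun _ => Icc 0 a) with hA
  set B : Set (Edge d → ℝ) := Set.pi (T0 d) (fun _ => Ici b) with hB
  have hPA : 0 < (P0 d F).real A := by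
    refine ENNReal.toReal_pos ?_ (measure_ne_top _ _)
    rw [hA, Measure.infinitePi_pi _ (fun _ _ => measurableSet_Icc)]
    exact Finset.prod_ne_zero_iff.2 fun _ _ => hFa
  have hPB : 0 < (P0 d F).real B := by
    refine ENNReal.toReal_pos ?_ (measure_ne_top _ _)
    rw [hB, Measure.infinitePi_pi _ (fun _ _ => measurableSet_Ici)]
    exact Finset.prod_ne_zero_iff.2 fun _ _ => hFb
  have hba : 0 < b - a := sub_pos.2 hab
  -- independence
  set m : Edge d → MeasurableSpace (Edge d → ℝ) := fun e =>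
    MeasurableSpace.comap (fun ω : Edge d → ℝ => ω e) inferInstance with hm
  have hI : iIndep m (P0 d F) :=
    iIndepFun_infinitePi (P := fun _ : Edge d => F) (X := fun _ t => t) (fun _ => measurable_id)
  have hdis : Disjoint (T0 d : Set (Edge d)) (T0 d : Set (Edge d))ᶜ := disjoint_compl_right
  have hind := indep_iSup_of_disjoint (fun e => (measurable_pi_apply e).comap_le) hI hdis
  rw [Indep_iff] at hind
  have hev : ∀ (S : Set (Edge d)) (e : Edge d), e ∈ S →
      @Measurable _ _ (⨆ e ∈ S, m e) _ (fun ω : Edge d → ℝ => ω e) := by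
    intro S e he
    exact Measurable.mono (comap_measurable _) (le_iSup₂_of_le (f := fun e (_ : e ∈ S) => m e)
      e he le_rfl) le_rfl
  have hAm : MeasurableSet[⨆ e ∈ (T0 d : Set (Edge d)), m e] A := by
    have h1 : A = ⋂ e ∈ (T0 d), (fun ω : Edge d → ℝ => ω e) ⁻¹' (Icc 0 a) := by
      ext ω; simp [hA, Set.mem_pi]
    rw [h1]
    refine @MeasurableSet.biInter _ _ (⨆ e ∈ (T0 d : Set (Edge d)), m e) _ _
      (Finset.countable_toSet _) fun e he => ?_
    exact hev _ e he measurableSet_Icc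
  have hBm : MeasurableSet[⨆ e ∈ (T0 d : Set (Edge d)), m e] B := by
    have h1 : B = ⋂ e ∈ (T0 d), (fun ω : Edge d → ℝ => ω e) ⁻¹' (Ici b) := by
      ext ω; simp [hB, Set.mem_pi]
    rw [h1]
    refine @MeasurableSet.biInter _ _ (⨆ e ∈ (T0 d : Set (Edge d)), m e) _ _
      (Finset.countable_toSet _) fun e he => ?_
    exact hev _ e he measurableSet_Ici
  have hle : ∀ S : Set (Edge d), (⨆ e ∈ S, m e) ≤ MeasurableSpace.pi :=
    fun S => iSup₂_le fun e _ => (measurable_pi_apply e).comap_le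
  refine ⟨(b - a) ^ 2 / 4 * min ((P0 d F).real A) ((P0 d F).real B),
    mul_pos (by positivity) (lt_min hPA hPB), fun x hx => ?_⟩
  set T : (Edge d → ℝ) → ℝ := fun ω => pt (fun e => |ω e|) 0 x with hT
  set h : ℝ := ∫ ω', T ω' ∂(P0 d F) with hh
  show (b - a) ^ 2 / 4 * min ((P0 d F).real A) ((P0 d F).real B) ≤
    ∫ ω, (T ω - h) ^ 2 ∂(P0 d F)
  have habs : ∀ ω : Edge d → ℝ, ∀ e : Edge d, 0 ≤ |ω e| := fun ω e => abs_nonneg _
  set s0 : ℝ := h - (a + b) / 2 with hs0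
  -- the event that the rest is short
  set Adm : List (Edge d) → Prop := fun l => (∃ e w, Joins e 0 w ∧ IsPath w x l) ∧
    ∀ e' ∈ l, e' ∉ T0 d with hAdm
  set D : Set (Edge d → ℝ) := ⋃ l ∈ {l | Adm l},
    {ω | (l.map (fun e => |ω e|)).sum < s0} with hD
  have hDm : MeasurableSet[⨆ e ∈ (T0 d : Set (Edge d))ᶜ, m e] D := by
    refine @MeasurableSet.biUnion _ _ (⨆ e ∈ (T0 d : Set (Edge d))ᶜ, m e) _ _
      (Set.to_countable _) fun l hl => ?_
    have h1 := sum_meas (m := ⨆ e ∈ (T0 d : Set (Edge d))ᶜ, m e) l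
      (fun e he => hev _ e (by simpa using hl.2 e he))
    exact h1 measurableSet_Iio
  have hPD : (P0 d F).real (A ∩ D) = (P0 d F).real A * (P0 d F).real D := by
    unfold Measure.real
    rw [hind A D hAm hDm, ENNReal.toReal_mul]
  have hPD' : (P0 d F).real (B ∩ Dᶜ) = (P0 d F).real B * (1 - (P0 d F).real D) := by
    have h1 : (P0 d F).real Dᶜ = 1 - (P0 d F).real D := probReal_compl_eq_one_sub (hle _ _ hDm)
    rw [← h1]
    unfold Measure.real
    rw [hind B Dᶜ hBm hDm.compl, ENNReal.toReal_mul]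
  -- pointwise bounds
  have hb1 : ∀ ω ∈ A ∩ D, (b - a) ^ 2 / 4 ≤ (T ω - h) ^ 2 := by
    rintro ω ⟨hωA, hωD⟩
    obtain ⟨l, ⟨⟨e, w, hJ, hl⟩, -⟩, hsum⟩ := mem_iUnion₂.1 hωD
    have hsum' : (l.map (fun e => |ω e|)).sum < s0 := hsum
    have h1 : T ω ≤ |ω e| + (l.map (fun e => |ω e|)).sum := by
      have h2 : IsPath 0 x (e :: l) := ⟨w, hJ, hl⟩
      simpa using pt_le (habs ω) h2
    have h3 := hωA e (by simpa using joins_T0 hJ)
    have h4 : |ω e| ≤ a := by rw [abs_of_nonneg h3.1]; exact h3.2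
    have h5 : (b - a) / 2 ≤ h - T ω := by linarith
    nlinarith
  have hb2 : ∀ ω ∈ B ∩ Dᶜ, (b - a) ^ 2 / 4 ≤ (T ω - h) ^ 2 := by
    rintro ω ⟨hωB, hωD⟩
    have h1 : b + s0 ≤ T ω := by
      by_contra hlt
      obtain ⟨l, hl, hsum⟩ := pt_near (τ := fun e => |ω e|) 0 x (not_le.1 hlt)
      obtain ⟨e, w, l2, hJ, hl2, hT0, hle2⟩ := decomp (habs ω) hx hl
      have h3 := hωB e (by simpa using joins_T0 hJ)
      have h4 : b ≤ |ω e| := le_trans h3 (le_abs_self _)
      apply hωD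
      refine mem_iUnion₂.2 ⟨l2, ⟨⟨e, w, hJ, hl2⟩, hT0⟩, ?_⟩
      show (l2.map (fun e => |ω e|)).sum < s0
      linarith
    have h5 : (b - a) / 2 ≤ T ω - h := by linarith
    nlinarith
  have hint : Integrable (fun ω => (T ω - h) ^ 2) (P0 d F) := by
    have i2 : Integrable (fun ω => T ω ^ 2) (P0 d F) := (stdPreB d F hF).integrable_pow 2 0 x
    have i1 : Integrable (fun ω => T ω) (P0 d F) := by
      have i0 : Integrable (fun ω => T ω ^ 1) (P0 d F) := (stdPreB d F hF).integrable_pow 1 0 x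
      simpa using i0
    have i3 : Integrable (fun ω => T ω ^ 2 - 2 * h * T ω + h ^ 2) (P0 d F) :=
      (i2.sub (i1.const_mul _)).add (integrable_const _)
    refine i3.congr (Eventually.of_forall fun ω => ?_)
    simp only
    ring
  have hmark := mul_meas_ge_le_integral_of_nonneg
    (Eventually.of_forall fun ω => sq_nonneg (T ω - h)) hint ((b - a) ^ 2 / 4)
  refine le_trans ?_ hmark
  refine mul_le_mul_of_nonneg_left ?_ (by positivity)
  have hU : (P0 d F).real ((A ∩ D) ∪ (B ∩ Dᶜ)) =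
      (P0 d F).real A * (P0 d F).real D + (P0 d F).real B * (1 - (P0 d F).real D) := by
    rw [← hPD, ← hPD']
    refine measureReal_union ?_ ((hle _ _ hBm).inter (hle _ _ hDm).compl)
    rw [Set.disjoint_left]
    rintro ω ⟨-, h1⟩ ⟨-, h2⟩
    exact h2 h1
  have hmono : (P0 d F).real ((A ∩ D) ∪ (B ∩ Dᶜ)) ≤
      (P0 d F).real {ω | (b - a) ^ 2 / 4 ≤ (T ω - h) ^ 2} := by
    refine measureReal_mono ?_
    rintro ω (hω | hω)
    · exact hb1 ω hω
    · exact hb2 ω hω
  refine le_trans ?_ hmono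
  rw [hU]
  have hD0 : 0 ≤ (P0 d F).real D := measureReal_nonneg
  have hD1 : (P0 d F).real D ≤ 1 := measureReal_le_one
  have g1 := mul_le_mul_of_nonneg_right (min_le_left ((P0 d F).real A) ((P0 d F).real B)) hD0
  have g2 := mul_le_mul_of_nonneg_right (min_le_right ((P0 d F).real A) ((P0 d F).real B))
    (sub_nonneg.2 hD1)
  linarith

end FPPX
end
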