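import Pool.Agent.Lib.MP_fa364e_pr.Mg.G003
import Pool.Agent.Lib.MP_fa364e_pr.Mg.G015
import Pool.Agent.Lib.MP_fa364e_pr.Mg.G016
import Pool.Agent.Lib.MP_fa364e_pr.Mg.G011
import Pool.Agent.Lib.MP_fa364e_pr.Mg.G009

section

/-! Good vectors: from scale `m ^ (1 + 2 * a)` to scale `m`. -/

namespace FPPX

open MeasureTheory ProbabilityTheory Filter Set
open scoped Topology

variable {d : ℕ} {Ω : Type} [MeasurableSpace Ω] {P : Measure Ω} [IsProbabilityMeasure P]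

/-- every lattice point is close to a point of the coarse grid of mesh `g` -/
lemma B0B_grid {g : ℝ} (hg : 1 ≤ g) (v : V d) : ∃ k : V d, nm (rd (g • tr k) - v) ≤ g ∧
    ‖tr k - (1 / g) • tr v‖ ≤ 1 / 2 := by
  refine ⟨rd ((1 / g) • tr v), ?_, norm_rd_sub _⟩
  set k := rd ((1 / g) • tr v) with hk
  have h1 : ‖tr k - (1 / g) • tr v‖ ≤ 1 / 2 := norm_rd_sub _
  have h2 := norm_rd_sub (g • tr k)
  have h3 : ‖g • tr k - tr v‖ ≤ g / 2 := by
    have : g • tr k - tr v = g • (tr k - (1 / g) • tr v) := by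
      rw [smul_sub, smul_smul, mul_one_div_cancel (by linarith), one_smul]
    rw [this, norm_smul, Real.norm_of_nonneg (by linarith)]
    nlinarith
  have h4 : nm (rd (g • tr k) - v) = ‖(tr (rd (g • tr k)) - g • tr k) + (g • tr k - tr v)‖ := by
    unfold nm
    rw [tr_sub]
    congr 1
    abel
  rw [h4]
  exact (norm_add_le _ _).trans (by linarith)

/-- the finite set of coarse pairs -/
lemma B0B_pairs (d : ℕ) {g R m : ℝ} (hg : 1 ≤ g) (hgm : g ≤ m) (hR : m ≤ R) :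
    ∃ S : Finset (V d × V d), (S.card : ℝ) ≤ (5 * R / g) ^ d * (9 * m / g) ^ d ∧
      (∀ q ∈ S, nm (q.2 - q.1) ≤ 4 * m) ∧
      (∀ u v : V d, nm u ≤ R → nm v ≤ R → nm (v - u) ≤ 2 * m →
        ∃ q ∈ S, nm (q.1 - u) ≤ g ∧ nm (q.2 - v) ≤ g) := by
  classical
  have hg0 : 0 < g := by linarith
  set T1 : Finset (V d) := (finite_bl (d := d) (R / g + 1 / 2)).toFinset with hT1
  set T2 : Finset (V d) := (finite_bl (d := d) (2 * m / g + 1)).toFinset with hT2
  have hRg : 1 ≤ R / g := by rw [le_div_iff₀ hg0]; linarith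
  have hmg : 1 ≤ m / g := by rw [le_div_iff₀ hg0]; linarith
  have c1 : (T1.card : ℝ) ≤ (5 * R / g) ^ d := by
    have := card_bl (d := d) (R / g + 1 / 2) (by linarith)
    rw [hT1, ← Set.ncard_eq_toFinset_card _ (finite_bl (d := d) (R / g + 1 / 2))]
    refine this.trans (pow_le_pow_left₀ (by linarith) ?_ d)
    have : 5 * R / g = 5 * (R / g) := by ring
    rw [this]; linarith
  have c2 : (T2.card : ℝ) ≤ (9 * m / g) ^ d := by
    have e : 2 * m / g = 2 * (m / g) := by ring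
    have := card_bl (d := d) (2 * m / g + 1) (by rw [e]; linarith)
    rw [hT2, ← Set.ncard_eq_toFinset_card _ (finite_bl (d := d) (2 * m / g + 1))]
    refine this.trans (pow_le_pow_left₀ (by rw [e]; linarith) ?_ d)
    have : 9 * m / g = 9 * (m / g) := by ring
    rw [this, e]; linarith
  refine ⟨(T1 ×ˢ T2).image (fun q => (rd (g • tr q.1), rd (g • tr (q.1 + q.2)))), ?_, ?_, ?_⟩
  · calc (((T1 ×ˢ T2).image (fun q => (rd (g • tr q.1), rd (g • tr (q.1 + q.2))))).card : ℝ)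
        ≤ ((T1 ×ˢ T2).card : ℝ) := by exact_mod_cast Finset.card_image_le
      _ = T1.card * T2.card := by rw [Finset.card_product]; push_cast; ring
      _ ≤ _ := mul_le_mul c1 c2 (by positivity) (pow_nonneg (div_nonneg (by linarith) hg0.le) d)
  · intro q hq
    rw [Finset.mem_image] at hq
    obtain ⟨⟨k, l⟩, hkl, rfl⟩ := hq
    rw [Finset.mem_product] at hkl
    have hl : nm l ≤ 2 * m / g + 1 := by
      have := hkl.2
      rw [hT2, Set.Finite.mem_toFinset] at this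
      exact this
    simp only
    have e1 := norm_rd_sub (g • tr k)
    have e2 := norm_rd_sub (g • tr (k + l))
    have e3 : tr (rd (g • tr (k + l)) - rd (g • tr k)) =
        (tr (rd (g • tr (k + l))) - g • tr (k + l)) - (tr (rd (g • tr k)) - g • tr k)
          + g • tr l := by
      rw [tr_sub, tr_add, smul_add]; abel
    unfold nm
    rw [e3]
    have e4 : ‖g • tr l‖ ≤ 2 * m + g := by
      rw [norm_smul, Real.norm_of_nonneg hg0.le]
      have : g * ‖tr l‖ ≤ g * (2 * m / g + 1) := mul_le_mul_of_nonneg_left hl hg0.le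
      refine this.trans (le_of_eq ?_)
      field_simp
    have e5 := norm_add_le ((tr (rd (g • tr (k + l))) - g • tr (k + l)) -
      (tr (rd (g • tr k)) - g • tr k)) (g • tr l)
    have e6 := norm_sub_le (tr (rd (g • tr (k + l))) - g • tr (k + l))
      (tr (rd (g • tr k)) - g • tr k)
    linarith
  · intro u v hu hv huv
    obtain ⟨k, hk1, hk2⟩ := B0B_grid hg u
    obtain ⟨k', hk'1, hk'2⟩ := B0B_grid hg v
    refine ⟨(rd (g • tr k), rd (g • tr k')), ?_, hk1, hk'1⟩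
    rw [Finset.mem_image]
    refine ⟨(k, k' - k), ?_, by simp⟩
    rw [Finset.mem_product, hT1, hT2, Set.Finite.mem_toFinset, Set.Finite.mem_toFinset]
    constructor
    · show nm k ≤ R / g + 1 / 2
      have e1 : tr k = (tr k - (1 / g) • tr u) + (1 / g) • tr u := by abel
      have e2 : ‖(1 / g) • tr u‖ ≤ R / g := by
        rw [norm_smul, Real.norm_of_nonneg (by positivity), one_div, inv_mul_eq_div]
        exact div_le_div_of_nonneg_right hu hg0.le
      unfold nm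
      rw [e1]
      exact (norm_add_le _ _).trans (by linarith)
    · show nm (k' - k) ≤ 2 * m / g + 1
      have e1 : tr (k' - k) = ((tr k' - (1 / g) • tr v) - (tr k - (1 / g) • tr u))
          + (1 / g) • tr (v - u) := by
        rw [tr_sub, tr_sub, smul_sub]; abel
      have e2 : ‖(1 / g) • tr (v - u)‖ ≤ 2 * m / g := by
        rw [norm_smul, Real.norm_of_nonneg (by positivity), one_div, inv_mul_eq_div]
        exact div_le_div_of_nonneg_right huv hg0.le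
      unfold nm
      rw [e1]
      have e5 := norm_add_le ((tr k' - (1 / g) • tr v) - (tr k - (1 / g) • tr u))
        ((1 / g) • tr (v - u))
      have e6 := norm_sub_le (tr k' - (1 / g) • tr v) (tr k - (1 / g) • tr u)
      linarith

/-- lower bound for the sum of the pieces of a cut path -/
lemma B0B_sum (M : PreLRM d P) (ω : Ω) (ν : E d →ₗ[ℝ] ℝ) {A' g Ch CU : ℝ}
    (hg : 1 ≤ g) (hCh : 0 < Ch)
    (hlip : ∀ x y : V d,
      |∫ ω, M.t ω 0 x ∂P - ∫ ω, M.t ω 0 y ∂P| ≤ Ch * (1 + nm (x - y)))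
    (k : ℕ) (a : ℕ → V d)
    (h1 : ∀ j, j < k → (1 + A') * ν (tr (a (j + 1) - a j)) ≤ ∫ ω, M.t ω 0 (a (j + 1) - a j) ∂P)
    (h2 : ∀ j, j < k → ∃ q : V d × V d, nm (q.1 - a j) ≤ g ∧ nm (q.2 - a (j + 1)) ≤ g ∧
      M.t ω q.1 (a j) ≤ CU * g ∧ M.t ω q.2 (a (j + 1)) ≤ CU * g ∧
      |M.t ω q.1 q.2 - ∫ ω', M.t ω' 0 (q.2 - q.1) ∂P| ≤ g) :
    (1 + A') * ν (tr (a k - a 0)) - k * ((2 * CU + 1 + 3 * Ch) * g) ≤
      ∑ l ∈ Finset.range k, M.t ω (a l) (a (l + 1)) := by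
  have key : ∀ l ∈ Finset.range k,
      (1 + A') * ν (tr (a (l + 1) - a l)) - (2 * CU + 1 + 3 * Ch) * g ≤
        M.t ω (a l) (a (l + 1)) := by
    intro l hl
    have hl' := Finset.mem_range.mp hl
    obtain ⟨q, q1, q2, q3, q4, q5⟩ := h2 l hl'
    have e1 := h1 l hl'
    have e2 := (abs_le.mp (hlip (a (l + 1) - a l) (q.2 - q.1))).2
    have e3 : nm (a (l + 1) - a l - (q.2 - q.1)) ≤ 2 * g := by
      have : a (l + 1) - a l - (q.2 - q.1) = (q.1 - a l) - (q.2 - a (l + 1)) := by abel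
      rw [this]
      exact (nm_sub_le _ _).trans (by linarith)
    have e4 := (abs_le.mp q5).1
    have e5 := M.t_tri ω q.1 (a l) q.2
    have e6 := M.t_tri ω (a l) (a (l + 1)) q.2
    have e7 := M.t_symm ω (a (l + 1)) q.2
    have e8 : Ch * (1 + nm (a (l + 1) - a l - (q.2 - q.1))) ≤ Ch * (3 * g) :=
      mul_le_mul_of_nonneg_left (by linarith) hCh.le
    nlinarith
  have s1 := Finset.sum_le_sum key
  have s2 : ∑ l ∈ Finset.range k,
      ((1 + A') * ν (tr (a (l + 1) - a l)) - (2 * CU + 1 + 3 * Ch) * g) =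
      (1 + A') * ν (tr (a k - a 0)) - k * ((2 * CU + 1 + 3 * Ch) * g) := by
    rw [Finset.sum_sub_distrib, Finset.sum_const, Finset.card_range, nsmul_eq_mul,
      ← Finset.mul_sum]
    congr 2
    have : ∀ l, ν (tr (a (l + 1) - a l)) = ν (tr (a (l + 1))) - ν (tr (a l)) := by
      intro l; rw [tr_sub, map_sub]
    simp only [this]
    rw [Finset.sum_range_sub (fun l => ν (tr (a l)))]
    rw [tr_sub, map_sub]
  linarith

/-- an expectation bound from a bound off a small event -/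
lemma B0B_expect (M : PreLRM d P) (X : V d) (bad : Set Ω) {L δ : ℝ} (hδ : P.real bad ≤ δ)
    (hL : ∀ ω, ω ∉ bad → L ≤ M.t ω 0 X) : L - δ * max L 0 ≤ ∫ ω, M.t ω 0 X ∂P := by
  have hint : Integrable (fun ω => M.t ω 0 X) P := by
    simpa using M.integrable_pow 1 0 X
  have h0 : 0 ≤ ∫ ω, M.t ω 0 X ∂P := integral_nonneg (fun ω => M.t_nonneg ω 0 X)
  have hδ0 : 0 ≤ δ := measureReal_nonneg.trans hδ
  rcases le_total L 0 with h | h
  · rw [max_eq_right h]; linarith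
  · rw [max_eq_left h]
    set T := toMeasurable P bad with hT
    have hTm : MeasurableSet T := measurableSet_toMeasurable P bad
    have hTr : P.real T ≤ δ := by
      rw [measureReal_def, hT, measure_toMeasurable]; exact hδ
    have h1 : ∫ ω in Tᶜ, M.t ω 0 X ∂P ≤ ∫ ω, M.t ω 0 X ∂P :=
      setIntegral_le_integral hint (Filter.Eventually.of_forall (fun ω => M.t_nonneg ω 0 X))
    have h2 : ∫ ω in Tᶜ, L ∂P ≤ ∫ ω in Tᶜ, M.t ω 0 X ∂P := by
      apply setIntegral_mono_on (integrable_const L).integrableOn hint.integrableOn hTm.compl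
      intro ω hω
      exact hL ω (fun hb => hω (subset_toMeasurable P bad hb))
    rw [setIntegral_const, smul_eq_mul, probReal_compl_eq_one_sub hTm] at h2
    nlinarith

/-- the deterministic comparison on the good event -/
lemma B0B_det (M : LRM d P) (ω : Ω) (ν : E d →ₗ[ℝ] ℝ) (p : E d) (hν : Supp M.μ ν p)
    {a m C2 A' Ch : ℝ} (ha : 0 < a) (ha' : a ≤ 1 / 8) (hm : 1 ≤ m) (hC2 : 1 ≤ C2)
    (hA' : 0 ≤ A') (hA'2 : A' ≤ 2) (hCh : 0 < Ch)
    (hlip : ∀ x y : V d,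
      |∫ ω, M.t ω 0 x ∂P - ∫ ω, M.t ω 0 y ∂P| ≤ Ch * (1 + nm (x - y)))
    (hN : (C2 + 1) * m ^ (1 + 2 * a) ≤ (m ^ (1 + 2 * a)) ^ (2 : ℝ))
    (hcut : M.CutProp ω (1 / (1 + 2 * a)) (1 / 8) 2 C2 (m ^ (1 + 2 * a)))
    (hUL : ∀ u v : V d, nm u ≤ (m ^ (1 + 2 * a)) ^ (2 : ℝ) → nm v ≤ (m ^ (1 + 2 * a)) ^ (2 : ℝ) →
      M.t ω u v ≤ M.C1 * max (nm (v - u)) ((m ^ (1 + 2 * a)) ^ (1 / 2 : ℝ)))
    (S : Finset (V d × V d))
    (hS : ∀ u v : V d, nm u ≤ C2 * m ^ (1 + 2 * a) → nm v ≤ C2 * m ^ (1 + 2 * a) →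
      nm (v - u) ≤ 2 * m → ∃ q ∈ S, nm (q.1 - u) ≤ m ^ (1 - a) ∧ nm (q.2 - v) ≤ m ^ (1 - a))
    (hpairs : ∀ q ∈ S, |M.t ω q.1 q.2 - ∫ ω', M.t ω' 0 (q.2 - q.1) ∂P| ≤ m ^ (1 - a))
    (hbad : ∀ Y : V d, m ≤ nm Y → nm Y ≤ 2 * m → (1 + A') * ν (tr Y) ≤ ∫ ω, M.t ω 0 Y ∂P)
    (X : V d) (hX : nm X ≤ 2 * m ^ (1 + 2 * a)) :
    (1 + A') * ν (tr X) - (C2 * (2 * M.C1 + 1 + 3 * Ch) + 3 * M.CM + 1) * m ^ (1 + a) ≤
      M.t ω 0 X := by
  have hm0 : 0 < m := by linarith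
  have hpow : (m ^ (1 + 2 * a)) ^ (1 / (1 + 2 * a)) = m := by
    rw [← Real.rpow_mul hm0.le, mul_one_div_cancel (by positivity), Real.rpow_one]
  have hpow2 : (m ^ (1 + 2 * a)) ^ (1 - 1 / (1 + 2 * a)) = m ^ (2 * a) := by
    rw [← Real.rpow_mul hm0.le]; congr 1; field_simp; ring
  have hpow3 : (m ^ (1 + 2 * a)) ^ (1 - 1 / (1 + 2 * a) + 2 * (1 / 8)) ≤ m ^ (1 + a) := by
    rw [← Real.rpow_mul hm0.le]
    apply Real.rpow_le_rpow_of_exponent_le hm
    have : (1 + 2 * a) * (1 - 1 / (1 + 2 * a) + 2 * (1 / 8)) = 2 * a + (1 + 2 * a) / 4 := by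
      field_simp; ring
    rw [this]; linarith
  have hNpos : 0 < m ^ (1 + 2 * a) := Real.rpow_pos_of_pos hm0 _
  have hg1 : 1 ≤ m ^ (1 - a) := Real.one_le_rpow hm (by linarith)
  have hgN : m ^ (1 - a) ≤ m ^ (1 + 2 * a) :=
    Real.rpow_le_rpow_of_exponent_le hm (by linarith)
  have hNg : (m ^ (1 + 2 * a)) ^ (1 / 2 : ℝ) ≤ m ^ (1 - a) := by
    rw [← Real.rpow_mul hm0.le]
    exact Real.rpow_le_rpow_of_exponent_le hm (by linarith)
  have hm1a : m ≤ m ^ (1 + a) := by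
    calc m = m ^ (1 : ℝ) := (Real.rpow_one m).symm
      _ ≤ _ := Real.rpow_le_rpow_of_exponent_le hm (by linarith)
  have hprod : m ^ (2 * a) * m ^ (1 - a) = m ^ (1 + a) := by
    rw [← Real.rpow_add hm0]; congr 1; ring
  obtain ⟨k, b, b0, hk, hstep, hlast, hball, -, hsum, -, -⟩ := hcut X hX
  rw [hpow] at hstep hlast
  rw [hpow2] at hk
  have hsum' := hsum.trans (add_le_add le_rfl hpow3)
  -- the sum of the pieces
  have hnear : ∀ (j : ℕ) (y : V d), j ≤ k → nm (y - b j) ≤ m ^ (1 - a) →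
      M.t ω y (b j) ≤ M.C1 * m ^ (1 - a) := by
    intro j y hj hy
    have e1 : nm (b j) ≤ C2 * m ^ (1 + 2 * a) := hball j hj
    have e2 : nm y ≤ C2 * m ^ (1 + 2 * a) + m ^ (1 - a) := by
      have : y = b j + (y - b j) := by abel
      rw [this]
      exact (nm_add _ _).trans (add_le_add e1 hy)
    have e3 := hUL y (b j) (by nlinarith) (by nlinarith)
    refine e3.trans (mul_le_mul_of_nonneg_left ?_ (by linarith [M.one_le_C1]))
    exact max_le (by rw [nm_sub_comm]; exact hy) hNg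
  have key := B0B_sum M.toPreLRM ω ν (A' := A') (g := m ^ (1 - a)) (Ch := Ch) (CU := M.C1)
    hg1 hCh hlip k b (fun j hj => hbad _ (hstep j hj).1 (hstep j hj).2) (by
      intro j hj
      obtain ⟨q, hq, q1, q2⟩ := hS (b j) (b (j + 1)) (hball j hj.le) (hball (j + 1) hj)
        (hstep j hj).2
      exact ⟨q, q1, q2, hnear j _ hj.le q1, hnear (j + 1) _ hj q2, hpairs q hq⟩)
  rw [b0, sub_zero] at key
  -- the last piece
  have hν1 : ν (tr (b k)) = ν (tr X) - ν (tr (X - b k)) := by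
    rw [tr_sub, map_sub]; ring
  have hν2 : ν (tr (X - b k)) ≤ M.CM * m := by
    have e1 := (abs_le.mp (M.isNm.abs_le hν (tr (X - b k)))).2
    exact e1.trans (mul_le_mul_of_nonneg_left hlast (M.isNm.norm_p hν).1.le)
  have hCM : 0 < M.CM := (M.isNm.norm_p hν).1
  have e5 : (k : ℝ) * ((2 * M.C1 + 1 + 3 * Ch) * m ^ (1 - a)) ≤
      C2 * (2 * M.C1 + 1 + 3 * Ch) * m ^ (1 + a) := by
    rw [← hprod]
    have h1 := M.one_le_C1
    have h2 : 0 ≤ (2 * M.C1 + 1 + 3 * Ch) * m ^ (1 - a) := by positivity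
    calc (k : ℝ) * ((2 * M.C1 + 1 + 3 * Ch) * m ^ (1 - a)) ≤
          (C2 * m ^ (2 * a)) * ((2 * M.C1 + 1 + 3 * Ch) * m ^ (1 - a)) :=
          mul_le_mul_of_nonneg_right hk h2
      _ = _ := by ring
  have e6 : (1 + A') * ν (tr (X - b k)) ≤ 3 * (M.CM * m ^ (1 + a)) := by
    have h1 : (1 + A') * ν (tr (X - b k)) ≤ (1 + A') * (M.CM * m) :=
      mul_le_mul_of_nonneg_left hν2 (by linarith)
    have h2 : (1 + A') * (M.CM * m) ≤ 3 * (M.CM * m) :=
      mul_le_mul_of_nonneg_right (by linarith) (by positivity)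
    have h3 : 3 * (M.CM * m) ≤ 3 * (M.CM * m ^ (1 + a)) := by
      have := mul_le_mul_of_nonneg_left hm1a hCM.le
      linarith
    linarith
  have e7 := M.t_nonneg ω (b k) X
  rw [hν1, mul_sub] at key
  linarith

theorem LRM.GP_descent (M : LRM d P) {κ a : ℝ} (hκ : 0 < κ) (hκ1 : κ < 1) (hB : M.HypB κ)
    (ha : a = (1 - κ) / (8 * (d + 1))) :
    ∀ᶠ m : ℝ in atTop, ∀ (ν : E d →ₗ[ℝ] ℝ) (p : E d), Supp M.μ ν p →
      ∀ A : ℝ, 0 ≤ A → A ≤ 1 → M.GP ν (m ^ (1 + 2 * a)) A → M.GP ν m (A + m ^ (-(a / 2))) := by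
  have ha0 : 0 < a := by rw [ha]; apply div_pos <;> [linarith; positivity]
  have hd : (0 : ℝ) ≤ d := Nat.cast_nonneg d
  have haκ : 1 - κ = 8 * (d + 1) * a := by rw [ha]; field_simp
  have ha8 : a ≤ 1 / 8 := by nlinarith
  obtain ⟨Ch, hCh, hlip⟩ := M.mean_lip
  obtain ⟨CP, hCP, hpc⟩ := M.pairs_conc hB hκ.le
  have hσ2 : 1 + 1 / 8 < 2 * (1 / (1 + 2 * a)) := by
    rw [mul_one_div, lt_div_iff₀ (by positivity)]; nlinarith
  have hσ1 : 1 / (1 + 2 * a) < 1 := by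
    rw [div_lt_one (by positivity)]; linarith
  obtain ⟨C2, hC2, hcut⟩ := M.cut2 (1 / (1 + 2 * a)) (1 / 8) 2 (by norm_num) hσ2 hσ1
    (by norm_num)
  have hUL := M.UL 2 (1 / 2) (by norm_num)
  have hNt : Tendsto (fun m : ℝ => m ^ (1 + 2 * a)) atTop atTop :=
    tendsto_rpow_atTop (by positivity)
  have hcm := M.isNm.cpos
  set C4 : ℝ := C2 * (2 * M.C1 + 1 + 3 * Ch) + 3 * M.CM + 1 with hC4
  filter_upwards [eventually_ge_atTop (1 : ℝ),
    hNt.eventually (hcut 2), hNt.eventually (hUL 2), hNt.eventually_ge_atTop (C2 + 1),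
    ev_rpow_le ((5 * C2) ^ d * 9 ^ d * (CP * 4 ^ (2 * κ))) one_pos
      (show 4 * a * d + (2 * κ - 2 + 2 * a) < -(10 * a) by nlinarith [mul_nonneg hd ha0.le]),
    ev_rpow_le (2 * C4 / M.cm) (show (0 : ℝ) < 1 / 4 by norm_num)
      (show -a < -(a / 2) by linarith),
    ev_rpow_le 9 (show (0 : ℝ) < 1 / 4 by norm_num)
      (show -(10 * a) < -(a / 2) by linarith)] with m hm h1 h2 h3 h4 h5 h6 ν p hν A hA0 hA1 hGP
  by_contra hnot
  have hm0 : 0 < m := by linarith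
  have hNpos : 0 < m ^ (1 + 2 * a) := Real.rpow_pos_of_pos hm0 _
  obtain ⟨X, hX1, hX2, hX3⟩ := hGP
  have hbad : ∀ Y : V d, m ≤ nm Y → nm Y ≤ 2 * m →
      (1 + (A + m ^ (-(a / 2)))) * ν (tr Y) ≤ ∫ ω, M.t ω 0 Y ∂P := by
    intro Y y1 y2
    by_contra hcon
    exact hnot ⟨Y, y1, y2, (not_le.mp hcon).le⟩
  have hg1 : 1 ≤ m ^ (1 - a) := Real.one_le_rpow hm (by linarith)
  have hgm : m ^ (1 - a) ≤ m := by
    calc m ^ (1 - a) ≤ m ^ (1 : ℝ) := Real.rpow_le_rpow_of_exponent_le hm (by linarith)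
      _ = m := Real.rpow_one m
  have hmN : m ≤ m ^ (1 + 2 * a) := by
    calc m = m ^ (1 : ℝ) := (Real.rpow_one m).symm
      _ ≤ _ := Real.rpow_le_rpow_of_exponent_le hm (by linarith)
  have hmR : m ≤ C2 * m ^ (1 + 2 * a) := hmN.trans (le_mul_of_one_le_left hNpos.le hC2)
  obtain ⟨S, hS1, hS2, hS3⟩ := B0B_pairs d hg1 hgm hmR
  -- probability of the bad pairs
  have hp3 := hpc S (4 * m) (m ^ (1 - a)) (by linarith) (by linarith) hS2
  have hp3' : P.real {ω | ∃ q ∈ S, m ^ (1 - a) <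
      |M.t ω q.1 q.2 - ∫ ω', M.t ω' 0 (q.2 - q.1) ∂P|} ≤ m ^ (-(10 * a)) := by
    refine hp3.trans ?_
    have e1 : (5 * (C2 * m ^ (1 + 2 * a)) / m ^ (1 - a)) ^ d * (9 * m / m ^ (1 - a)) ^ d =
        (5 * C2) ^ d * 9 ^ d * m ^ (4 * a * d) := by
      have q1 : 5 * (C2 * m ^ (1 + 2 * a)) / m ^ (1 - a) = (5 * C2) * m ^ (3 * a) := by
        have : m ^ (1 + 2 * a) = m ^ (3 * a) * m ^ (1 - a) := by
          rw [← Real.rpow_add hm0]; congr 1; ring
        rw [this]; field_simp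
      have q2 : 9 * m / m ^ (1 - a) = 9 * m ^ a := by
        have : m = m ^ a * m ^ (1 - a) := by
          rw [← Real.rpow_add hm0]
          conv_lhs => rw [← Real.rpow_one m]
          congr 1; ring
        rw [div_eq_iff (by positivity), mul_assoc, ← this]
      rw [q1, q2, mul_pow, mul_pow]
      have q3 : (m ^ (3 * a)) ^ d * (m ^ a) ^ d = m ^ (4 * a * d) := by
        rw [← mul_pow, ← Real.rpow_add hm0, ← Real.rpow_natCast, ← Real.rpow_mul hm0.le]
        congr 1; ring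
      rw [← q3]; ring
    have e2 : CP * (4 * m) ^ (2 * κ) / (m ^ (1 - a)) ^ 2 =
        (CP * 4 ^ (2 * κ)) * m ^ (2 * κ - 2 + 2 * a) := by
      rw [Real.mul_rpow (by norm_num) hm0.le]
      have q4 : m ^ (2 * κ) = m ^ (2 * κ - 2 + 2 * a) * (m ^ (1 - a)) ^ 2 := by
        rw [← Real.rpow_natCast (m ^ (1 - a)) 2, ← Real.rpow_mul hm0.le, ← Real.rpow_add hm0]
        congr 1; push_cast; ring
      rw [q4]; field_simp
    rw [e2]
    rw [e1] at hS1
    calc (S.card : ℝ) * ((CP * 4 ^ (2 * κ)) * m ^ (2 * κ - 2 + 2 * a)) ≤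
          ((5 * C2) ^ d * 9 ^ d * m ^ (4 * a * d)) *
            ((CP * 4 ^ (2 * κ)) * m ^ (2 * κ - 2 + 2 * a)) :=
          mul_le_mul_of_nonneg_right hS1 (by positivity)
      _ = ((5 * C2) ^ d * 9 ^ d * (CP * 4 ^ (2 * κ))) *
            m ^ (4 * a * d + (2 * κ - 2 + 2 * a)) := by
          rw [Real.rpow_add hm0 (4 * a * d) (2 * κ - 2 + 2 * a)]; ring
      _ ≤ 1 * m ^ (-(10 * a)) := h4
      _ = _ := one_mul _
  have hN2 : (m ^ (1 + 2 * a)) ^ (-((2 : ℕ) : ℝ)) ≤ m ^ (-(10 * a)) := by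
    rw [← Real.rpow_mul hm0.le]
    apply Real.rpow_le_rpow_of_exponent_le hm
    push_cast; linarith
  set B1 : Set Ω := {ω | ¬ M.CutProp ω (1 / (1 + 2 * a)) (1 / 8) 2 C2 (m ^ (1 + 2 * a))} with hB1
  set B2 : Set Ω := {ω | ∃ u v : V d, nm u ≤ (m ^ (1 + 2 * a)) ^ (2 : ℝ) ∧
    nm v ≤ (m ^ (1 + 2 * a)) ^ (2 : ℝ) ∧
      M.C1 * max (nm (v - u)) ((m ^ (1 + 2 * a)) ^ (1 / 2 : ℝ)) < M.t ω u v} with hB2
  set B3 : Set Ω := {ω | ∃ q ∈ S, m ^ (1 - a) <
      |M.t ω q.1 q.2 - ∫ ω', M.t ω' 0 (q.2 - q.1) ∂P|} with hB3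
  have hbadp : P.real (B1 ∪ B2 ∪ B3) ≤ 3 * m ^ (-(10 * a)) := by
    have q1 := measureReal_union_le (μ := P) (B1 ∪ B2) B3
    have q2 := measureReal_union_le (μ := P) B1 B2
    have q3 := h1.trans hN2
    have q4 := h2.trans hN2
    linarith
  have hma : m ^ (-(a / 2)) ≤ 1 := Real.rpow_le_one_of_one_le_of_nonpos hm (by linarith)
  have hma0 : 0 < m ^ (-(a / 2)) := Real.rpow_pos_of_pos hm0 _
  have hE := B0B_expect M.toPreLRM X (B1 ∪ B2 ∪ B3)
    (L := (1 + (A + m ^ (-(a / 2)))) * ν (tr X) - C4 * m ^ (1 + a)) hbadp (by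
      intro ω hω
      simp only [mem_union, not_or] at hω
      obtain ⟨⟨w1, w2⟩, w3⟩ := hω
      refine B0B_det M ω ν p hν ha0 ha8 hm hC2 (by linarith) (by linarith) hCh hlip ?_
        (not_not.mp w1) ?_ S hS3 ?_ hbad X hX2
      · have : (m ^ (1 + 2 * a)) ^ (2 : ℝ) = m ^ (1 + 2 * a) * m ^ (1 + 2 * a) := by
          rw [Real.rpow_two]; ring
        rw [this]
        exact mul_le_mul_of_nonneg_right h3 hNpos.le
      · intro u v hu hv
        by_contra hc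
        exact w2 ⟨u, v, hu, hv, not_le.mp hc⟩
      · intro q hq
        by_contra hc
        exact w3 ⟨q, hq, not_le.mp hc⟩)
  -- final comparison
  set n := ν (tr X) with hn
  have hn1 : M.cm * m ^ (1 + 2 * a) ≤ (1 + A) * n := by
    have q1 := M.mu_le_mean X
    have q2 := M.isNm.lb (tr X)
    have q3 : M.cm * m ^ (1 + 2 * a) ≤ M.cm * ‖tr X‖ := mul_le_mul_of_nonneg_left hX1 hcm.le
    linarith
  have hcN : 0 < M.cm * m ^ (1 + 2 * a) := mul_pos hcm hNpos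
  have hn0 : 0 < n := by
    by_contra hc
    have : (1 + A) * n ≤ 0 := mul_nonpos_of_nonneg_of_nonpos (by linarith) (not_lt.mp hc)
    linarith
  have hn2 : M.cm * m ^ (1 + 2 * a) ≤ 2 * n := by nlinarith
  have hC4pos : 0 ≤ C4 := by
    have := M.one_le_C1
    have := (M.isNm.norm_p hν).1
    rw [hC4]; positivity
  have hC4m : C4 * m ^ (1 + a) ≤ (1 / 4 * m ^ (-(a / 2))) * n := by
    have q1 : m ^ (1 + a) = m ^ (1 + 2 * a) * m ^ (-a) := by
      rw [← Real.rpow_add hm0]; congr 1; ring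
    have q2 : m ^ (1 + 2 * a) ≤ 2 * n / M.cm := by
      rw [le_div_iff₀ hcm]; linarith
    have q3 : 0 < m ^ (-a) := Real.rpow_pos_of_pos hm0 _
    calc C4 * m ^ (1 + a) = C4 * (m ^ (1 + 2 * a) * m ^ (-a)) := by rw [q1]
      _ ≤ C4 * (2 * n / M.cm * m ^ (-a)) :=
          mul_le_mul_of_nonneg_left (mul_le_mul_of_nonneg_right q2 q3.le) hC4pos
      _ = (2 * C4 / M.cm * m ^ (-a)) * n := by ring
      _ ≤ _ := mul_le_mul_of_nonneg_right h5 hn0.le
  have hmax : max ((1 + (A + m ^ (-(a / 2)))) * n - C4 * m ^ (1 + a)) 0 ≤ 3 * n := by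
    apply max_le
    · have q0 : 0 ≤ C4 * m ^ (1 + a) := mul_nonneg hC4pos (Real.rpow_nonneg hm0.le _)
      have q1 : (1 + (A + m ^ (-(a / 2)))) * n ≤ 3 * n :=
        mul_le_mul_of_nonneg_right (by linarith) hn0.le
      linarith
    · linarith
  have h6' : 3 * m ^ (-(10 * a)) * max ((1 + (A + m ^ (-(a / 2)))) * n - C4 * m ^ (1 + a)) 0 ≤
      (1 / 4 * m ^ (-(a / 2))) * n := by
    have q0 : 0 ≤ 3 * m ^ (-(10 * a)) := by positivity
    calc _ ≤ 3 * m ^ (-(10 * a)) * (3 * n) := mul_le_mul_of_nonneg_left hmax q0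
      _ = 9 * m ^ (-(10 * a)) * n := by ring
      _ ≤ _ := mul_le_mul_of_nonneg_right h6 hn0.le
  have hpos : 0 < m ^ (-(a / 2)) * n := mul_pos hma0 hn0
  nlinarith

end FPPX
end

section

/-! Good vectors at all scales. -/

namespace FPPX

open MeasureTheory ProbabilityTheory Filter Set
open scoped Topology

variable {d : ℕ} {Ω : Type} [MeasurableSpace Ω] {P : Measure Ω} [IsProbabilityMeasure P]

omit [IsProbabilityMeasure P] in
private theorem B0C_mono (M : PreLRM d P) {ν : E d →ₗ[ℝ] ℝ} {m A B : ℝ} (hA : 0 ≤ A)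
    (hAB : A ≤ B) (h : M.GP ν m A) : M.GP ν m B := by
  obtain ⟨X, h1, h2, h3⟩ := h
  refine ⟨X, h1, h2, h3.trans ?_⟩
  have h4 : 0 ≤ ∫ ω, M.t ω 0 X ∂P := integral_nonneg (fun ω => M.t_nonneg _ _ _)
  have h5 : 0 ≤ (1 + A) * ν (tr X) := h4.trans h3
  have h6 : 0 ≤ ν (tr X) := by
    by_contra hc
    push Not at hc
    nlinarith
  nlinarith

theorem LRM.GP_all (M : LRM d P) {κ a : ℝ} (hκ : 0 < κ) (hκ1 : κ < 1) (hB : M.HypB κ)
    (ha : a = (1 - κ) / (8 * (d + 1))) :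
    ∀ᶠ m : ℝ in atTop, ∀ (ν : E d →ₗ[ℝ] ℝ) (p : E d), Supp M.μ ν p →
      M.GP ν m (3 * m ^ (-(a / 2))) := by
  have ha0 : 0 < a := by
    rw [ha]
    apply div_pos (by linarith)
    positivity
  have hdesc := M.GP_descent hκ hκ1 hB ha
  obtain ⟨M0, hM0⟩ := eventually_atTop.mp hdesc
  have e1 : ∀ᶠ r : ℝ in atTop, 3 * r ^ (-(a / 2)) ≤ 1 * r ^ (0 : ℝ) :=
    ev_rpow_le _ (by norm_num) (by linarith)
  have e2 : ∀ᶠ r : ℝ in atTop, 2 * r ^ (-(a ^ 2)) ≤ 1 * r ^ (0 : ℝ) :=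
    ev_rpow_le _ (by norm_num) (by nlinarith [mul_pos ha0 ha0])
  filter_upwards [e1, e2, eventually_ge_atTop M0, eventually_ge_atTop 2] with
    m e1 e2 hmM0 hm2 ν p hν
  rw [Real.rpow_zero, mul_one] at e1 e2
  have hm0 : 0 < m := by linarith
  have hm1 : 1 ≤ m := by linarith
  set c : ℝ := 1 + 2 * a with hc
  have hc1 : 1 < c := by linarith
  set q : ℝ := m ^ (-(a ^ 2)) with hq
  have hq0 : 0 ≤ q := by positivity
  have hq1 : q ≤ 1 / 2 := by linarith
  -- single terms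
  have hterm : ∀ l : ℕ, (m ^ (c ^ l)) ^ (-(a / 2)) ≤ m ^ (-(a / 2)) * q ^ l := by
    intro l
    have hql : q ^ l = m ^ (-(a ^ 2) * (l : ℝ)) := by
      rw [Real.rpow_mul hm0.le, Real.rpow_natCast]
    rw [hql, ← Real.rpow_mul hm0.le, ← Real.rpow_add hm0]
    apply Real.rpow_le_rpow_of_exponent_le hm1
    have hb : 1 + (l : ℝ) * (2 * a) ≤ (1 + 2 * a) ^ l := one_add_mul_le_pow (by linarith) l
    nlinarith
  -- the sums
  have hsum : ∀ n : ℕ, ∑ l ∈ Finset.range n, (m ^ (c ^ l)) ^ (-(a / 2)) ≤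
      2 * m ^ (-(a / 2)) := by
    intro n
    calc ∑ l ∈ Finset.range n, (m ^ (c ^ l)) ^ (-(a / 2))
        ≤ ∑ l ∈ Finset.range n, m ^ (-(a / 2)) * q ^ l :=
          Finset.sum_le_sum fun l _ => hterm l
      _ = m ^ (-(a / 2)) * ∑ l ∈ Finset.range n, q ^ l := by rw [Finset.mul_sum]
      _ ≤ m ^ (-(a / 2)) * 2 := by
          apply mul_le_mul_of_nonneg_left _ (by positivity)
          have h1 : ∑ l ∈ Finset.range n, q ^ l ≤ ∑ l ∈ Finset.range n, (1 / 2 : ℝ) ^ l :=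
            Finset.sum_le_sum fun l _ => pow_le_pow_left₀ hq0 hq1 l
          have h2 : ∑ l ∈ Finset.range n, (1 / 2 : ℝ) ^ l = 2 - 2 * (1 / 2) ^ n := by
            clear * -
            induction n with
            | zero => norm_num
            | succ n ih => rw [Finset.sum_range_succ, ih, pow_succ]; ring
          have h3 : (0 : ℝ) ≤ 2 * (1 / 2) ^ n := by positivity
          linarith
      _ = 2 * m ^ (-(a / 2)) := by ring
  -- descent
  have hdes : ∀ n : ℕ, ∀ A : ℝ, 0 ≤ A →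
      A + ∑ l ∈ Finset.range n, (m ^ (c ^ l)) ^ (-(a / 2)) ≤ 1 →
      M.GP ν (m ^ (c ^ n)) A →
      M.GP ν m (A + ∑ l ∈ Finset.range n, (m ^ (c ^ l)) ^ (-(a / 2))) := by
    intro n
    induction n with
    | zero =>
      intro A _ _ h
      simpa using h
    | succ n ih =>
      intro A hA hA1 h
      have hcn : 1 ≤ c ^ n := one_le_pow₀ hc1.le
      have hmn : M0 ≤ m ^ (c ^ n) := by
        refine hmM0.trans ?_
        calc m = m ^ (1 : ℝ) := (Real.rpow_one m).symm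
          _ ≤ m ^ (c ^ n) := Real.rpow_le_rpow_of_exponent_le hm1 hcn
      have hpos : 0 ≤ (m ^ (c ^ n)) ^ (-(a / 2)) := by positivity
      have hspos : 0 ≤ ∑ l ∈ Finset.range n, (m ^ (c ^ l)) ^ (-(a / 2)) :=
        Finset.sum_nonneg fun l _ => by positivity
      rw [Finset.sum_range_succ] at hA1
      have h1 : (m ^ (c ^ n)) ^ (1 + 2 * a) = m ^ (c ^ (n + 1)) := by
        rw [← Real.rpow_mul hm0.le, pow_succ]
      have h2 := hM0 (m ^ (c ^ n)) hmn ν p hν A hA (by linarith) (by rw [h1]; exact h)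
      have h3 := ih (A + (m ^ (c ^ n)) ^ (-(a / 2))) (by linarith) (by linarith) h2
      rw [Finset.sum_range_succ]
      have h4 : A + (∑ l ∈ Finset.range n, (m ^ (c ^ l)) ^ (-(a / 2)) +
          (m ^ (c ^ n)) ^ (-(a / 2))) = A + (m ^ (c ^ n)) ^ (-(a / 2)) +
          ∑ l ∈ Finset.range n, (m ^ (c ^ l)) ^ (-(a / 2)) := by ring
      rw [h4]
      exact h3
  -- start
  have hA0 : 0 < m ^ (-(a / 2)) := by positivity
  have hstart := M.toPreLRM.GP_start ν p hν (m ^ (-(a / 2))) hA0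
  have ht : Tendsto (fun n : ℕ => m ^ (c ^ n)) atTop atTop :=
    (tendsto_rpow_atTop_of_base_gt_one m (by linarith)).comp
      (tendsto_pow_atTop_atTop_of_one_lt hc1)
  obtain ⟨n, hn⟩ := (ht.eventually hstart).exists
  have hS := hsum n
  have h5 := hdes n (m ^ (-(a / 2))) hA0.le (by linarith) hn
  have hspos : 0 ≤ ∑ l ∈ Finset.range n, (m ^ (c ^ l)) ^ (-(a / 2)) :=
    Finset.sum_nonneg fun l _ => by positivity
  exact B0C_mono M.toPreLRM (by linarith) (by linarith) h5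

end FPPX
end

section

/-! Hypothesis B, first improvement. -/

namespace FPPX

open MeasureTheory ProbabilityTheory Filter Set
open scoped Topology

variable {d : ℕ} {Ω : Type} [MeasurableSpace Ω] {P : Measure Ω} [IsProbabilityMeasure P]

theorem LRM.stepB0 (M : LRM d P) {κ : ℝ} (hκ : 0 < κ) (hκ1 : κ < 1) (hB : M.HypB κ) :
    M.XNall (1 - (1 - κ) / (32 * (d + 1))) := by
  set a : ℝ := (1 - κ) / (8 * (d + 1)) with ha
  have hd : (0 : ℝ) < d + 1 := by positivity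
  have hd1 : (1 : ℝ) ≤ d + 1 := by
    have : (0 : ℝ) ≤ d := Nat.cast_nonneg d
    linarith
  have hapos : 0 < a := by
    rw [ha]
    exact div_pos (by linarith) (by positivity)
  have hβ : 1 - (1 - κ) / (32 * ((d : ℝ) + 1)) = 1 - a / 4 := by
    rw [ha]
    field_simp
    ring
  have haκ : a ≤ 1 - κ := by
    rw [ha, div_le_iff₀ (by positivity)]
    nlinarith
  rw [hβ]
  have hN := M.isNm
  have hcm := hN.cpos
  obtain ⟨C, hC, hpos⟩ := M.pos_part_le hB hκ.le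
  refine ⟨M.cm / 2, 2, by positivity, by norm_num, ?_⟩
  have e1 : ∀ᶠ m : ℝ in atTop, 6 * M.CM * m ^ (1 - a / 2) ≤ 1 / 2 * m ^ (1 - a / 4) :=
    ev_rpow_le _ (by norm_num) (by linarith)
  have e2 : ∀ᶠ m : ℝ in atTop, C * 3 ^ κ * m ^ κ ≤ 1 / 2 * m ^ (1 - a / 4) :=
    ev_rpow_le _ (by norm_num) (by linarith)
  have e3 : ∀ᶠ m : ℝ in atTop, 3 ≤ 1 * m ^ (a / 2) := ev_const_le 3 (by norm_num) (by linarith)
  filter_upwards [M.GP_all hκ hκ1 hB ha, e1, e2, e3, eventually_ge_atTop 1] with m hm h1 h2 h3 hm1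
    ν p hν
  have hm0 : 0 < m := by linarith
  obtain ⟨X, hX1, hX2, hX3⟩ := hm ν p hν
  have hA : 3 * m ^ (-(a / 2)) ≤ 1 := by
    rw [Real.rpow_neg hm0.le, ← div_eq_mul_inv, div_le_one (Real.rpow_pos_of_pos hm0 _)]
    linarith
  have hA0 : 0 ≤ 3 * m ^ (-(a / 2)) := by
    have := Real.rpow_nonneg hm0.le (-(a / 2))
    linarith
  set A := 3 * m ^ (-(a / 2)) with hAd
  have hmu : M.cm * m ≤ M.μ (tr X) := by
    refine le_trans ?_ (hN.lb (tr X))
    exact mul_le_mul_of_nonneg_left hX1 hcm.le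
  have hmean := M.mu_le_mean X
  have hchain : M.cm * m ≤ (1 + A) * ν (tr X) := hmu.trans (hmean.trans hX3)
  have hνpos : 0 < ν (tr X) := by
    by_contra hneg
    have h4 : (1 + A) * ν (tr X) ≤ 0 :=
      mul_nonpos_of_nonneg_of_nonpos (by linarith) (not_lt.1 hneg)
    have h5 : 0 < M.cm * m := by positivity
    linarith
  have hνub : ν (tr X) ≤ 2 * M.CM * m := by
    have h4 := (abs_le.1 (hN.abs_le hν (tr X))).2
    have h5 : M.CM * ‖tr X‖ ≤ M.CM * (2 * m) :=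
      mul_le_mul_of_nonneg_left hX2 (hN.norm_p hν).1.le
    linarith
  refine ⟨X, ?_, hX2, ?_⟩
  · have h4 : (1 + A) * ν (tr X) ≤ 2 * ν (tr X) :=
      mul_le_mul_of_nonneg_right (by linarith) hνpos.le
    linarith
  · refine (hpos X (ν (tr X))).trans ?_
    have h4 : max (∫ ω, M.t ω 0 X ∂P - ν (tr X)) 0 ≤ 6 * M.CM * m ^ (1 - a / 2) := by
      apply max_le
      · have h5 : ∫ ω, M.t ω 0 X ∂P - ν (tr X) ≤ A * ν (tr X) := by linarith
        have h6 : A * ν (tr X) ≤ A * (2 * M.CM * m) := mul_le_mul_of_nonneg_left hνub hA0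
        have h7 : A * (2 * M.CM * m) = 6 * M.CM * m ^ (1 - a / 2) := by
          rw [hAd, show (1 : ℝ) - a / 2 = -(a / 2) + 1 by ring, Real.rpow_add hm0, Real.rpow_one]
          ring
        linarith
      · have := (hN.norm_p hν).1
        have h8 := Real.rpow_nonneg hm0.le (1 - a / 2)
        positivity
    have h5 : C * (1 + nm X) ^ κ ≤ C * 3 ^ κ * m ^ κ := by
      rw [mul_assoc, ← Real.mul_rpow (by norm_num) hm0.le]
      apply mul_le_mul_of_nonneg_left _ hC.le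
      have := nm_nonneg X
      exact Real.rpow_le_rpow (by linarith) (by linarith) hκ.le
    linarith

end FPPX
end

section

/-! Near optimal chains with short jumps. -/

namespace FPPX

open MeasureTheory ProbabilityTheory Filter Set
open scoped Topology

variable {d : ℕ} {Λ : Measure (Cfg d)} {α : ℝ}

private lemma pChain_union {Ω : Type} [MeasurableSpace Ω] {P : Measure Ω} [IsProbabilityMeasure P]
    {A : ℝ → V d → Set Ω}
    (h : ∀ K : ℕ, ∀ᶠ r : ℝ in atTop, ∀ x : V d, nm x ≤ 2 * r → P.real (A r x) ≤ r ^ (-(K : ℝ))) :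
    Negl P (fun r => {ω | ∃ x : V d, nm x ≤ 2 * r ∧ ω ∈ A r x}) := by
  apply Negl.of_poly ((d : ℝ) + 1)
  intro K
  filter_upwards [h K, eventually_ge_atTop 1, eventually_ge_atTop ((5 : ℝ) ^ d)] with r h1 h2 h3
  have h0 : 0 < r := by linarith
  have hfin : {x : V d | nm x ≤ 2 * r}.Finite := finite_bl _
  have hset : {ω | ∃ x : V d, nm x ≤ 2 * r ∧ ω ∈ A r x} = ⋃ x ∈ hfin.toFinset, A r x := by
    ext ω
    simp only [mem_iUnion, Finite.mem_toFinset, exists_prop]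
    rfl
  rw [hset]
  have hcard : (hfin.toFinset.card : ℝ) ≤ (5 : ℝ) ^ d * r ^ d := by
    have h4 : (hfin.toFinset.card : ℝ) = ({x : V d | nm x ≤ 2 * r}.ncard : ℝ) := by
      rw [ncard_eq_toFinset_card _ hfin]
    rw [h4]
    refine (card_bl (2 * r) (by positivity)).trans ?_
    rw [← mul_pow]
    exact pow_le_pow_left₀ (by positivity) (by linarith) d
  calc P.real (⋃ x ∈ hfin.toFinset, A r x)
      ≤ ∑ x ∈ hfin.toFinset, P.real (A r x) := measureReal_biUnion_finset_le _ _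
    _ ≤ ∑ _x ∈ hfin.toFinset, r ^ (-(K : ℝ)) :=
        Finset.sum_le_sum fun x hx => h1 x (by
          rw [Finite.mem_toFinset] at hx
          exact hx)
    _ = hfin.toFinset.card * r ^ (-(K : ℝ)) := by rw [Finset.sum_const, nsmul_eq_mul]
    _ ≤ ((5 : ℝ) ^ d * r ^ d) * r ^ (-(K : ℝ)) :=
        mul_le_mul_of_nonneg_right hcard (by positivity)
    _ ≤ r ^ ((d : ℝ) + 1) * r ^ (-(K : ℝ)) := by
        refine mul_le_mul_of_nonneg_right ?_ (by positivity)
        rw [Real.rpow_add h0, Real.rpow_natCast, Real.rpow_one, mul_comm]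
        exact mul_le_mul_of_nonneg_left h3 (by positivity)

private lemma pChain_B2 {Ω : Type} [MeasurableSpace Ω] {P : Measure Ω} [IsProbabilityMeasure P]
    (M : PreB d P) : Negl P (fun r => {ω | ∃ u : V d, nm u ≤ 2 * r ∧
      ω ∈ M.θ u ⁻¹' {ω | ∃ w : V d, nm w ≤ 2 * r ∧ ω ∈ {ω | M.C1 * (2 * r) < M.t ω 0 w}}}) := by
  have h1 : Negl P (fun r => {ω | ∃ w : V d, nm w ≤ 2 * r ∧
      ω ∈ {ω | M.C1 * (2 * r) < M.t ω 0 w}}) := by
    apply pChain_union
    intro K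
    have ht : Tendsto (fun r : ℝ => 2 * r) atTop atTop :=
      tendsto_id.const_mul_atTop (by norm_num)
    filter_upwards [ht.eventually (M.up_lin K), eventually_gt_atTop 0] with r h1 h2 x hx
    refine (h1 x hx).trans ?_
    exact Real.rpow_le_rpow_of_nonpos h2 (by linarith) (by
      have : (0 : ℝ) ≤ K := Nat.cast_nonneg K
      linarith)
  apply pChain_union
  intro K
  filter_upwards [h1 K] with r h2 x _
  exact (realB_preimage_le M x _).trans h2

private lemma pChain_B3 {Ω : Type} [MeasurableSpace Ω] {P : Measure Ω} [IsProbabilityMeasure P]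
    (M : PreB d P) {B : ℝ → Set Ω} (hB : Negl P B) :
    Negl P (fun r => {ω | ∃ u : V d, nm u ≤ 2 * r ∧ ω ∈ M.θ u ⁻¹' (B (1 * r ^ (3 : ℝ)))}) := by
  have h1 := Negl.comp_rpow hB (a := 3) (c := 1) (by norm_num) (by norm_num)
  apply pChain_union
  intro K
  filter_upwards [h1 K] with r h2 x _
  exact (realB_preimage_le M x _).trans h2

private lemma pChain_norm_le (y : RR d) : ‖y‖ ≤ d / 2 + d * nm (latt y) := by
  have h1 := norm_sub_emb_latt y
  have h2 := norm_emb_le (latt y)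
  have h3 : y = (y - emb (latt y)) + emb (latt y) := by abel
  calc ‖y‖ = ‖(y - emb (latt y)) + emb (latt y)‖ := by rw [← h3]
    _ ≤ ‖y - emb (latt y)‖ + ‖emb (latt y)‖ := norm_add_le _ _
    _ ≤ _ := by linarith

private lemma pChain_det (hα : 1 < α) {η : ℝ} (hη1 : η ≤ 1 / 4)
    (href : ∀ (S : Set (RR d))
      (h R : ℝ) (k : ℕ) (x : ℕ → RR d), 0 < h → (∀ i ≤ k, x i ∈ S) → (∀ i ≤ k, ‖x i‖ ≤ R / 10) →
      (∀ z : RR d, ‖z‖ ≤ R → ∃ y ∈ S, ‖y - z‖ ≤ η * h) →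
      ∃ c, Wh α S h (x 0) (x k) c ∧ c ≤ ∑ i ∈ Finset.range k, ‖x i - x (i + 1)‖ ^ α)
    {ω : Env d} {u v : V d} (huv : u ≠ v) {r h ρ R' R T δ : ℝ}
    (hne : NoHole (parts ω) R' ρ) (hR'0 : 0 ≤ R') (hρ0 : 0 ≤ ρ) (hρ : ρ ≤ η * h) (h0 : 0 < h)
    (hT : tP α (parts ω) u v + 1 ≤ T) (hR : 1 ≤ R) (hTR : 4 * (T + d + 2) ≤ R)
    (hweak : ∀ z : V d, R ≤ nm (z - u) → nm (z - u) ≤ 2 * R →
      T + (d : ℝ) ^ α < tP α (parts ω) u z)
    (hu : nm u ≤ r) (hv : nm v ≤ r) (hR1 : (d : ℝ) / 2 + d * (R + r) ≤ R' / 10)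
    (hR2 : ρ + d * r ≤ R' / 10) (hh : h + 1 ≤ δ) (hdd : 2 * (d : ℝ) ^ α < δ)
    (hδ : 4 * (2 * ρ) ^ α + 1 ≤ δ) :
    ∃ (l : ℕ) (x : ℕ → V d) (s' : ℕ → ℝ),
      x 0 = u ∧ x l = v ∧ (∀ i, i < l → nm (x (i + 1) - x i) ≤ δ) ∧
      0 ≤ s' 0 ∧ s' l ≤ tP α (parts ω) u v + δ ∧
      ∀ i j, i ≤ j → j ≤ l → ∀ K : Set (V d),
        (∀ n, i ≤ n → n ≤ j → ∀ z, nm (z - x n) ≤ δ → z ∈ K) →
        ω ∈ LEP α K (x i) (x j) (s' j - s' i + δ) := by
  have hdn : (0 : ℝ) ≤ d := Nat.cast_nonneg d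
  have hα0 : 0 ≤ α := by linarith
  have hS : (parts ω).Nonempty := by
    obtain ⟨p, hp, _⟩ := hne 0 (by rw [norm_zero]; exact hR'0)
    exact ⟨p, hp⟩
  obtain ⟨p, q, c, ⟨k, x, hx, hx0, hxk, hc⟩, hpq⟩ := tP_near hS huv
    (show tP α (parts ω) u v < tP α (parts ω) u v + 1 by linarith)
  subst hx0
  subst hxk
  subst hc
  have hstay := chain_stay hα (S := parts ω) (u := u) (v := v) hR hTR hweak hx (by linarith)
  have hxn : ∀ i ≤ k, ‖x i‖ ≤ R' / 10 := by
    intro i hi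
    have h1 := pChain_norm_le (x i)
    have h2 := hstay i hi
    have h3 : nm (latt (x i)) ≤ R + r := by
      have h4 := nm_add (latt (x i) - u) u
      rw [sub_add_cancel] at h4
      linarith
    have h4 : (d : ℝ) * nm (latt (x i)) ≤ d * (R + r) := mul_le_mul_of_nonneg_left h3 hdn
    linarith
  have hrn : 0 ≤ r := (nm_nonneg u).trans hu
  have hdr : (d : ℝ) * r ≤ R' := by linarith
  have hpt : ∀ w : V d, nm w ≤ r → ∃ p ∈ parts ω, ‖p - emb w‖ ≤ ρ ∧ ‖p‖ ≤ R' / 10 := by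
    intro w hw
    have h1 : ‖emb w‖ ≤ d * r := (norm_emb_le w).trans (mul_le_mul_of_nonneg_left hw hdn)
    obtain ⟨p, hp, hp2⟩ := hne (emb w) (h1.trans hdr)
    refine ⟨p, hp, hp2, ?_⟩
    have h3 : p = (p - emb w) + emb w := by abel
    calc ‖p‖ = ‖(p - emb w) + emb w‖ := by rw [← h3]
      _ ≤ ‖p - emb w‖ + ‖emb w‖ := norm_add_le _ _
      _ ≤ R' / 10 := by linarith
  obtain ⟨pu, hpu, hpu1, hpu2⟩ := hpt u hu
  obtain ⟨pv, hpv, hpv1, hpv2⟩ := hpt v hv
  -- the extended chain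
  set y : ℕ → RR d := fun i => if i = 0 then pu else if i ≤ k + 1 then x (i - 1) else pv with hy
  have hy0 : y 0 = pu := by simp [hy]
  have hyk : y (k + 2) = pv := by simp [hy]
  have hyi : ∀ i ≤ k, y (i + 1) = x i := by
    intro i hi
    simp [hy, hi]
  obtain ⟨c', hc', hc'le⟩ := href (parts ω) h R' (k + 2) y h0
    (by
      intro i hi
      rcases Nat.eq_zero_or_pos i with h1 | h1
      · subst h1
        rw [hy0]
        exact hpu
      · obtain ⟨j, rfl⟩ : ∃ j, i = j + 1 := ⟨i - 1, by omega⟩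
        rcases Nat.lt_or_ge k j with h2 | h2
        · have : j + 1 = k + 2 := by omega
          rw [this, hyk]
          exact hpv
        · rw [hyi j h2]
          exact hx j h2)
    (by
      intro i hi
      rcases Nat.eq_zero_or_pos i with h1 | h1
      · subst h1
        rw [hy0]
        exact hpu2
      · obtain ⟨j, rfl⟩ : ∃ j, i = j + 1 := ⟨i - 1, by omega⟩
        rcases Nat.lt_or_ge k j with h2 | h2
        · have : j + 1 = k + 2 := by omega
          rw [this, hyk]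
          exact hpv2
        · rw [hyi j h2]
          exact hxn j h2)
    (by
      intro z hz
      obtain ⟨p, hp, hp2⟩ := hne z hz
      exact ⟨p, hp, hp2.trans hρ⟩)
  rw [hy0, hyk] at hc'
  have hsum : ∑ i ∈ Finset.range (k + 2), ‖y i - y (i + 1)‖ ^ α =
      ‖pu - x 0‖ ^ α + ∑ i ∈ Finset.range k, ‖x i - x (i + 1)‖ ^ α + ‖x k - pv‖ ^ α := by
    rw [Finset.sum_range_succ, Finset.sum_range_succ']
    rw [hy0, hyi 0 (Nat.zero_le k), hyi k le_rfl]
    have h1 : y (k + 1 + 1) = pv := hyk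
    rw [h1]
    have h2 : ∑ i ∈ Finset.range k, ‖y (i + 1) - y (i + 1 + 1)‖ ^ α =
        ∑ i ∈ Finset.range k, ‖x i - x (i + 1)‖ ^ α := by
      refine Finset.sum_congr rfl fun i hi => ?_
      rw [Finset.mem_range] at hi
      rw [hyi i hi.le, hyi (i + 1) hi]
    rw [h2]
    ring
  rw [hsum] at hc'le
  have e1 : (2 * ‖pu - emb u‖) ^ α ≤ (2 * ρ) ^ α :=
    Real.rpow_le_rpow (by positivity) (by linarith) hα0
  have e2 : (2 * ‖pv - emb v‖) ^ α ≤ (2 * ρ) ^ α :=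
    Real.rpow_le_rpow (by positivity) (by linarith) hα0
  have e3 := hop_le hα0 pu (emb u) (x 0)
  have e4 := hop_le hα0 (x k) (emb v) pv
  have hρh : ρ ≤ h := by nlinarith
  exact chain_of_Wh hα hc' (hpu1.trans hρh) (hpv1.trans hρh)
    (s := tP α (parts ω) u v + δ) (by linarith) (by linarith) hh hdd

theorem poi_chain (hd : 1 ≤ d) (h : IsCellLaw Λ) (hα : 1 < α) (ε : ℝ) (hε : 0 < ε) :
    Negl (PP Λ) (fun r => ((poiPreB hd h hα).CG r ε)ᶜ) := by
  haveI := h.prob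
  have hα0 : 0 < α := by linarith
  obtain ⟨η, hη0, hη1, href⟩ := refine_walk (d := d) hα
  set e2 : ℝ := min ε 1 / 2 with he2
  set e1 : ℝ := e2 / α with he1
  have he2p : 0 < e2 := by
    have : 0 < min ε 1 := lt_min hε one_pos
    positivity
  have he2ε : e2 < ε := by
    have := min_le_left ε 1
    have : 0 < min ε 1 := lt_min hε one_pos
    rw [he2]
    linarith
  have he21 : e2 ≤ 1 / 2 := by
    have := min_le_right ε 1
    rw [he2]
    linarith
  have he1p : 0 < e1 := by positivity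
  have he12 : e1 < e2 := by
    rw [he1, div_lt_iff₀ hα0]
    nlinarith
  have hB1 := noHole h hd (a := 5) (ε := e1) (by norm_num) he1p
  have hB2 := pChain_B2 (poiPreB hd h hα)
  have hB3 := pChain_B3 (poiPreB hd h hα) (poi_weak hd h hα)
  refine Negl.mono ?_ (Negl.union hB1 (Negl.union hB2 hB3))
  set C1 := (poiPreB hd h hα).C1 with hC1
  have hC11 : 1 ≤ C1 := (poiPreB hd h hα).one_le_C1
  have hC1p : 0 < C1 := by linarith
  have hdn : (0 : ℝ) ≤ d := Nat.cast_nonneg d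
  have hdα : (0 : ℝ) ≤ (d : ℝ) ^ α := by positivity
  have c1 := ev_rpow_le 1 hη0 he12
  have c2 := ev_rpow_le 2 one_pos he2ε
  have c3 := ev_const_le (2 * (d : ℝ) ^ α + 1) one_pos hε
  have c4 := ev_rpow_le (4 * 2 ^ α + 1) one_pos he2ε
  have c5 := ev_rpow_le (4 * (2 * C1 + 1 + d + 2)) one_pos (show (1 : ℝ) < 3 by norm_num)
  have c6 := ev_rpow_le (2 * C1 + 1 + (d : ℝ) ^ α + 1) one_pos (show (1 : ℝ) < 3 / 2 by norm_num)
  have c7 := ev_rpow_le ((d : ℝ) * 3 + 1) (show (0 : ℝ) < 1 / 10 by norm_num)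
    (show (3 : ℝ) < 5 by norm_num)
  filter_upwards [c1, c2, c3, c4, c5, c6, c7, eventually_ge_atTop 1] with
    r k1 k2 k3 k4 k5 k6 k7 hr1 ω hω
  by_contra hcon
  apply hω
  simp only [mem_union, not_or] at hcon
  obtain ⟨n1, n2, n3⟩ := hcon
  have hr0 : 0 < r := by linarith
  simp only [Real.rpow_one, one_mul] at k1 k2 k3 k4 k5 k6 k7
  have hhole : NoHole (parts ω) (r ^ (5 : ℝ)) (r ^ e1) := by
    by_contra hc
    exact n1 hc
  have htP : ∀ u v : V d, nm u ≤ r → nm v ≤ r → tP α (parts ω) u v ≤ C1 * (2 * r) := by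
    intro u v hu hv
    by_contra hc
    push Not at hc
    apply n2
    refine ⟨u, by linarith, v - u, ?_, ?_⟩
    · have := nm_sub_le v u
      linarith
    · show C1 * (2 * r) < (poiPreB hd h hα).t ((poiPreB hd h hα).θ u ω) 0 (v - u)
      rw [(poiPreB hd h hα).t_shift, zero_add, sub_add_cancel]
      exact hc
  have hweak : ∀ u z : V d, nm u ≤ r → r ^ (3 : ℝ) ≤ nm (z - u) → nm (z - u) ≤ 2 * r ^ (3 : ℝ) →
      r ^ (3 / 2 : ℝ) ≤ tP α (parts ω) u z := by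
    intro u z hu h1 h2
    by_contra hc
    push Not at hc
    apply n3
    refine ⟨u, by linarith, ?_⟩
    show ∃ z : V d, 1 * r ^ (3 : ℝ) ≤ nm z ∧ nm z ≤ 2 * (1 * r ^ (3 : ℝ)) ∧
      (poiPreB hd h hα).t ((poiPreB hd h hα).θ u ω) 0 z < (1 * r ^ (3 : ℝ)) ^ (1 / 2 : ℝ)
    refine ⟨z - u, by linarith, by linarith, ?_⟩
    rw [(poiPreB hd h hα).t_shift, zero_add, sub_add_cancel, one_mul, ← Real.rpow_mul hr0.le]
    have h3 : (3 : ℝ) * (1 / 2) = 3 / 2 := by norm_num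
    rw [h3]
    exact hc
  intro u v hu hv
  have hδp : 0 ≤ r ^ ε := by positivity
  by_cases huv : u = v
  · subst huv
    refine ⟨0, fun _ => u, fun _ => 0, rfl, rfl, fun i hi => absurd hi (Nat.not_lt_zero i),
      le_rfl, ?_, ?_⟩
    · show (0 : ℝ) ≤ tP α (parts ω) u u + r ^ ε
      rw [tP_self]
      linarith
    · intro i j _ _ K _
      rw [poiPreB_LE]
      left
      exact ⟨rfl, by linarith⟩
  · have hr12 : (1 : ℝ) ≤ r ^ e2 := Real.one_le_rpow hr1 he2p.le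
    have hr3 : r ≤ r ^ (3 : ℝ) := by
      calc r = r ^ (1 : ℝ) := (Real.rpow_one r).symm
        _ ≤ r ^ (3 : ℝ) := Real.rpow_le_rpow_of_exponent_le hr1 (by norm_num)
    have hr31 : (1 : ℝ) ≤ r ^ (3 : ℝ) := by linarith
    have he1r : r ^ e1 ≤ r := by
      calc r ^ e1 ≤ r ^ (1 : ℝ) := Real.rpow_le_rpow_of_exponent_le hr1 (by linarith)
        _ = r := Real.rpow_one r
    have hdet := pChain_det hα (ω := ω) (u := u) (v := v) (r := r) (h := r ^ e2) (ρ := r ^ e1)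
      (R' := r ^ (5 : ℝ)) (R := r ^ (3 : ℝ)) (T := 2 * C1 * r + 1) (δ := r ^ ε) hη1 href huv hhole
      (by positivity) (by positivity) k1 (by positivity)
      (by
        have := htP u v hu hv
        linarith) hr31
      (by
        have e : 4 * (2 * C1 * r + 1 + d + 2) ≤ 4 * (2 * C1 + 1 + d + 2) * r := by
          nlinarith [mul_nonneg hdn (sub_nonneg.mpr hr1)]
        linarith)
      (by
        intro z h1 h2
        have h3 := hweak u z hu h1 h2
        have e : 2 * C1 * r + 1 + (d : ℝ) ^ α < (2 * C1 + 1 + (d : ℝ) ^ α + 1) * r := by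
          nlinarith [mul_nonneg hdα (sub_nonneg.mpr hr1)]
        linarith) hu hv
      (by
        have e : (d : ℝ) / 2 + d * (r ^ (3 : ℝ) + r) ≤ ((d : ℝ) * 3 + 1) * r ^ (3 : ℝ) := by
          have a1 : (d : ℝ) * r ≤ d * r ^ (3 : ℝ) := mul_le_mul_of_nonneg_left hr3 hdn
          have a2 : (d : ℝ) * 1 ≤ d * r ^ (3 : ℝ) := mul_le_mul_of_nonneg_left hr31 hdn
          linarith
        linarith)
      (by
        have a1 : (d : ℝ) * r ≤ d * r ^ (3 : ℝ) := mul_le_mul_of_nonneg_left hr3 hdn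
        have a2 : 0 ≤ (d : ℝ) * r ^ (3 : ℝ) := by positivity
        linarith)
      (by linarith) (by linarith)
      (by
        have e : (2 * r ^ e1) ^ α = 2 ^ α * r ^ e2 := by
          rw [Real.mul_rpow (by norm_num) (by positivity), ← Real.rpow_mul hr0.le, he1,
            div_mul_cancel₀ _ hα0.ne']
        rw [e]
        linarith)
    exact hdet

/-- Euclidean first-passage percolation as a `BLRM` -/
noncomputable def poiBLRM (hd : 1 ≤ d) (h : IsCellLaw Λ) (hα : 1 < α) : BLRM d (PP Λ) where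
  toPreB := poiPreB hd h hα
  chain := poi_chain hd h hα
  weak := poi_weak hd h hα

end FPPX
end
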