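import Pool.Agent.Lib.MP_fa364e_pr.Mg.G003
import Pool.Agent.Lib.MP_fa364e_pr.Mg.G001
import Pool.Agent.Lib.MP_fa364e_pr.Mg.G002

section

/-! Subadditivity. -/

namespace FPPX

open MeasureTheory ProbabilityTheory Filter Set
open scoped Topology

variable {d : ℕ} {Ω : Type} [MeasurableSpace Ω] {P : Measure Ω} [IsProbabilityMeasure P]

private lemma integrable_t (M : PreLRM d P) (u v : V d) : Integrable (fun ω => M.t ω u v) P := by
  have h := M.integrable_pow 1 u v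
  simpa using h

private lemma integrable_max (M : PreLRM d P) (u v : V d) (A : ℝ) :
    Integrable (fun ω => max (M.t ω u v - A) 0) P :=
  ((integrable_t M u v).sub (integrable_const A)).pos_part

theorem PreLRM.U_mono (M : PreLRM d P) {γ γ' : ℝ} (h : M.U γ) (hb : γ ≤ γ') : M.U γ' := by
  obtain ⟨C, hC⟩ := h
  refine ⟨max C 0, fun x => (hC x).trans ?_⟩
  have h1 : (1 : ℝ) ≤ 1 + nm x := by linarith [nm_nonneg x]
  have h2 : (1 + nm x) ^ γ ≤ (1 + nm x) ^ γ' := Real.rpow_le_rpow_of_exponent_le h1 hb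
  have h3 : 0 ≤ (1 + nm x) ^ γ := Real.rpow_nonneg (by linarith) _
  calc C * (1 + nm x) ^ γ ≤ max C 0 * (1 + nm x) ^ γ :=
        mul_le_mul_of_nonneg_right (le_max_left _ _) h3
    _ ≤ max C 0 * (1 + nm x) ^ γ' := mul_le_mul_of_nonneg_left h2 (le_max_right _ _)

theorem PreLRM.U_one (M : PreLRM d P) : M.U 1 := by
  obtain ⟨C, hC⟩ := M.moment 1
  refine ⟨C, fun x => ?_⟩
  have h1 := hC x
  simp only [pow_one] at h1
  rw [Real.rpow_one]
  refine le_trans ?_ h1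
  apply integral_mono (integrable_max M 0 x _) (integrable_t M 0 x)
  intro ω
  have hn := M.isNm
  have h2 : 0 ≤ M.μ (tr x) := le_trans (mul_nonneg hn.cpos.le (norm_nonneg _)) (hn.lb (tr x))
  have h3 := M.t_nonneg ω 0 x
  simp only
  exact max_le (by linarith) h3

private lemma phi_add (M : PreLRM d P) (x y : V d) (A B : ℝ) :
    ∫ ω, max (M.t ω 0 (x + y) - (A + B)) 0 ∂P ≤
      ∫ ω, max (M.t ω 0 x - A) 0 ∂P + ∫ ω, max (M.t ω 0 y - B) 0 ∂P := by
  have h1 : ∫ ω, max (M.t ω x (x + y) - B) 0 ∂P = ∫ ω, max (M.t ω 0 y - B) 0 ∂P := by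
    have := M.integral_shift x (x + y) (fun s => max (s - B) 0)
      ((measurable_id.sub_const B).max measurable_const)
    rw [add_sub_cancel_left] at this
    exact this
  rw [← h1, ← integral_add (integrable_max M 0 x A) (integrable_max M x (x + y) B)]
  apply integral_mono (integrable_max M 0 (x + y) _)
    ((integrable_max M 0 x A).add (integrable_max M x (x + y) B))
  intro ω
  simp only [Pi.add_apply]
  have h2 := M.t_tri ω 0 x (x + y)
  have h3 := le_max_left (M.t ω 0 x - A) 0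
  have h4 := le_max_right (M.t ω 0 x - A) 0
  have h5 := le_max_left (M.t ω x (x + y) - B) 0
  have h6 := le_max_right (M.t ω x (x + y) - B) 0
  exact max_le (by linarith) (by linarith)

private lemma phi_zero (M : PreLRM d P) : ∫ ω, max (M.t ω 0 0 - 0) 0 ∂P = 0 := by
  have : ∀ ω, max (M.t ω 0 0 - 0) 0 = 0 := fun ω => by simp [M.t_self ω 0]
  simp_rw [this]
  exact integral_zero _ _

private lemma phi_nsmul (M : PreLRM d P) (X : V d) (s : ℝ) (n : ℕ) :
    ∫ ω, max (M.t ω 0 (n • X) - n * s) 0 ∂P ≤ n * ∫ ω, max (M.t ω 0 X - s) 0 ∂P := by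
  induction n with
  | zero =>
    have := phi_zero M
    simp only [zero_smul, Nat.cast_zero, zero_mul]
    exact this.le
  | succ n ih =>
    have h1 := phi_add M (n • X) X (n * s) s
    rw [succ_nsmul]
    push_cast
    have h2 : ((n : ℝ) + 1) * s = n * s + s := by ring
    rw [h2]
    refine h1.trans ?_
    linarith

private lemma phi_sum (M : PreLRM d P) {ι : Type*} (S : Finset ι) (z : ι → V d) (a : ι → ℝ) :
    ∫ ω, max (M.t ω 0 (∑ i ∈ S, z i) - ∑ i ∈ S, a i) 0 ∂P ≤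
      ∑ i ∈ S, ∫ ω, max (M.t ω 0 (z i) - a i) 0 ∂P := by
  classical
  induction S using Finset.induction_on with
  | empty =>
    simp only [Finset.sum_empty]
    exact (phi_zero M).le
  | insert j S hj ih =>
    rw [Finset.sum_insert hj, Finset.sum_insert hj, Finset.sum_insert hj]
    exact (phi_add M (z j) (∑ i ∈ S, z i) (a j) (∑ i ∈ S, a i)).trans (by linarith)

/-- subadditivity along a concatenation -/
theorem PreLRM.path_ineq (M : PreLRM d P) {N : ℕ} (X : Fin N → V d) (s : Fin N → ℝ)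
    (n : Fin N → ℕ) (w : Fin N → V d) (f : Fin N → ℝ) (y x : V d) (A : ℝ)
    (hx : x = ∑ i, n i • X i + ∑ i, w i + y) (hA : ∑ i, ((n i : ℝ) * s i + f i) ≤ A) :
    ∫ ω, max (M.t ω 0 x - A) 0 ∂P ≤
      ∑ i, (n i : ℝ) * ∫ ω, max (M.t ω 0 (X i) - s i) 0 ∂P +
      ∑ i, ∫ ω, max (M.t ω 0 (w i) - f i) 0 ∂P + ∫ ω, M.t ω 0 y ∂P := by
  have h1 : ∫ ω, max (M.t ω 0 x - A) 0 ∂P ≤
      ∫ ω, max (M.t ω 0 x - ((∑ i, (n i : ℝ) * s i + ∑ i, f i) + 0)) 0 ∂P := by
    apply integral_mono (integrable_max M 0 x _) (integrable_max M 0 x _)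
    intro ω
    simp only
    apply max_le_max _ le_rfl
    rw [← Finset.sum_add_distrib]
    linarith
  refine h1.trans ?_
  rw [hx]
  refine (phi_add M _ _ _ _).trans ?_
  have h2 := phi_add M (∑ i, n i • X i) (∑ i, w i) (∑ i, (n i : ℝ) * s i) (∑ i, f i)
  have h3 := phi_sum M Finset.univ (fun i => n i • X i) (fun i => (n i : ℝ) * s i)
  have h4 := phi_sum M Finset.univ w f
  have h5 : ∑ i, ∫ ω, max (M.t ω 0 (n i • X i) - (n i : ℝ) * s i) 0 ∂P ≤
      ∑ i, (n i : ℝ) * ∫ ω, max (M.t ω 0 (X i) - s i) 0 ∂P :=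
    Finset.sum_le_sum (fun i _ => phi_nsmul M (X i) (s i) (n i))
  have h6 : ∫ ω, max (M.t ω 0 y - 0) 0 ∂P = ∫ ω, M.t ω 0 y ∂P := by
    congr 1
    funext ω
    rw [sub_zero, max_eq_left (M.t_nonneg ω 0 y)]
  rw [h6]
  linarith

end FPPX
end

section

/-! Improving the exponent of the upper deviations. -/

namespace FPPX

open MeasureTheory ProbabilityTheory Filter Set
open scoped Topology

variable {d : ℕ} {Ω : Type} [MeasurableSpace Ω] {P : Measure Ω} [IsProbabilityMeasure P]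

private theorem improve_int (M : PreLRM d P) (u v : V d) :
    Integrable (fun ω => M.t ω u v) P := by
  simpa using M.integrable_pow 1 u v

private theorem improve_int_max (M : PreLRM d P) (u v : V d) (s : ℝ) :
    Integrable (fun ω => max (M.t ω u v - s) 0) P :=
  ((improve_int M u v).sub (integrable_const s)).pos_part

private theorem improve_le_add (M : PreLRM d P) (x : V d) (s s' : ℝ) :
    ∫ ω, max (M.t ω 0 x - s) 0 ∂P ≤ ∫ ω, max (M.t ω 0 x - s') 0 ∂P + max (s' - s) 0 := by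
  have h1 : ∫ ω, (max (M.t ω 0 x - s') 0 + max (s' - s) 0) ∂P
      = ∫ ω, max (M.t ω 0 x - s') 0 ∂P + max (s' - s) 0 := by
    rw [integral_add (improve_int_max M 0 x s') (integrable_const _)]
    simp
  rw [← h1]
  refine integral_mono (improve_int_max M 0 x s)
    ((improve_int_max M 0 x s').add (integrable_const _)) (fun ω => ?_)
  refine max_le ?_ (add_nonneg (le_max_right _ _) (le_max_right _ _))
  have h2 := le_max_left (M.t ω 0 x - s') 0
  have h3 := le_max_left (s' - s) 0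
  show M.t ω 0 x - s ≤ max (M.t ω 0 x - s') 0 + max (s' - s) 0
  linarith

private theorem improve_mean_le (M : PreLRM d P) (x : V d) (s : ℝ) :
    ∫ ω, M.t ω 0 x ∂P ≤ s + ∫ ω, max (M.t ω 0 x - s) 0 ∂P := by
  have h1 : ∫ ω, (s + max (M.t ω 0 x - s) 0) ∂P
      = s + ∫ ω, max (M.t ω 0 x - s) 0 ∂P := by
    rw [integral_add (integrable_const _) (improve_int_max M 0 x s)]
    simp
  rw [← h1]
  refine integral_mono (improve_int M 0 x)
    ((integrable_const _).add (improve_int_max M 0 x s)) (fun ω => ?_)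
  have h2 := le_max_left (M.t ω 0 x - s) 0
  show M.t ω 0 x ≤ s + max (M.t ω 0 x - s) 0
  linarith

private theorem improve_tr_sum {N : ℕ} (f : Fin N → V d) : tr (∑ i, f i) = ∑ i, tr (f i) := by
  funext j
  simp [tr, Finset.sum_apply]

/-- the estimate for one vector and one scale -/
private theorem improve_one (M : PreLRM d P) {γ c' C' m g CU Cm : ℝ} (hγ : 0 ≤ γ) (hm : 1 ≤ m)
    (hg : 0 ≤ g) (hc' : 0 < c') (hC' : 0 < C') (hCU : 0 ≤ CU) (hCm : 0 ≤ Cm)
    (hXN : ∀ (ν : E d →ₗ[ℝ] ℝ) (p : E d), Supp M.μ ν p → M.XN ν c' C' m g)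
    (hU : ∀ x : V d, ∫ ω, max (M.t ω 0 x - M.μ (tr x)) 0 ∂P ≤ CU * (1 + nm x) ^ γ)
    (hM : ∀ x : V d, ∫ ω, M.t ω 0 x ∂P ≤ Cm * (1 + nm x)) (x : V d) :
    ∫ ω, max (M.t ω 0 x - M.μ (tr x)) 0 ∂P ≤
      (M.μ (tr x) + 1) / (c' * m) * g
      + ((d : ℝ) + 2) * (CU * ((C' + 2) * m) ^ γ + g + |M.CM|)
      + Cm * (2 + ((d : ℝ) + 2) / 2) + 1 := by
  have hm0 : 0 < m := lt_of_lt_of_le one_pos hm
  have hcm : 0 < c' * m := mul_pos hc' hm0
  have hnm := M.isNm
  have hub : ∀ y : E d, M.μ y ≤ |M.CM| * ‖y‖ := fun y =>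
    (hnm.ub y).trans (mul_le_mul_of_nonneg_right (le_abs_self _) (norm_nonneg _))
  set Z : Set (E d × ℝ) := {z | ∃ X : V d, z.1 = tr X ∧ c' * m ≤ z.2 ∧ nm X ≤ C' * m ∧
    ∫ ω, max (M.t ω 0 X - z.2) 0 ∂P ≤ g} with hZdef
  have hZ : ∀ (ν : E d →ₗ[ℝ] ℝ) (p : E d), Supp M.μ ν p →
      ∃ z ∈ Z, z.2 ≤ ν z.1 ∧ 0 < z.2 := by
    intro ν p hν
    obtain ⟨X, h1, h2, h3⟩ := hXN ν p hν
    exact ⟨(tr X, ν (tr X)), ⟨X, rfl, h1, h2, h3⟩, le_rfl, hcm.trans_le h1⟩
  obtain ⟨N, z, a, hN, hz, ha, hdist, hsum⟩ := dual hnm Z hZ (tr x) 1 one_pos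
  choose X hX1 hX2 hX3 hX4 using hz
  -- the pieces
  set n : Fin N → ℕ := fun i => ⌊a i⌋₊ with hn
  set fr : Fin N → ℝ := fun i => a i - n i with hfr
  have hfr0 : ∀ i, 0 ≤ fr i := fun i => sub_nonneg.2 (Nat.floor_le (ha i))
  have hfr1 : ∀ i, fr i ≤ 1 := fun i => by
    have := (Nat.lt_floor_add_one (a i)).le
    simp only [hfr, hn]
    linarith
  set w : Fin N → V d := fun i => rd (fr i • tr (X i)) with hw
  set y : V d := x - ∑ i, n i • X i - ∑ i, w i with hy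
  have hs0 : ∀ i, 0 < (z i).2 := fun i => hcm.trans_le (hX2 i)
  -- the path inequality
  have hpath := M.path_ineq X (fun i => (z i).2) n w (fun i => fr i * (z i).2) y x
    (M.μ (tr x) + 1) (by rw [hy]; abel) (by
      refine le_trans (le_of_eq ?_) hsum
      refine Finset.sum_congr rfl (fun i _ => ?_)
      simp only [hfr]
      ring)
  -- bound for the number of pieces
  have hasum : ∑ i, (n i : ℝ) ≤ (M.μ (tr x) + 1) / (c' * m) := by
    rw [le_div_iff₀ hcm]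
    calc (∑ i, (n i : ℝ)) * (c' * m) = ∑ i, (n i : ℝ) * (c' * m) := Finset.sum_mul _ _ _
      _ ≤ ∑ i, a i * (z i).2 := by
          refine Finset.sum_le_sum (fun i _ => ?_)
          exact mul_le_mul (Nat.floor_le (ha i)) (hX2 i) hcm.le (ha i)
      _ ≤ _ := hsum
  have hT1 : ∑ i, (n i : ℝ) * ∫ ω, max (M.t ω 0 (X i) - (z i).2) 0 ∂P
      ≤ (M.μ (tr x) + 1) / (c' * m) * g := by
    calc ∑ i, (n i : ℝ) * ∫ ω, max (M.t ω 0 (X i) - (z i).2) 0 ∂P
        ≤ ∑ i, (n i : ℝ) * g :=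
          Finset.sum_le_sum (fun i _ => mul_le_mul_of_nonneg_left (hX4 i) (Nat.cast_nonneg _))
      _ = (∑ i, (n i : ℝ)) * g := (Finset.sum_mul _ _ _).symm
      _ ≤ _ := mul_le_mul_of_nonneg_right hasum hg
  -- the fractional pieces
  have hpiece : ∀ i, ∫ ω, max (M.t ω 0 (w i) - fr i * (z i).2) 0 ∂P
      ≤ CU * ((C' + 2) * m) ^ γ + g + |M.CM| := by
    intro i
    have hnw : nm (w i) ≤ C' * m + 1 / 2 := by
      refine (nm_rd_le _).trans ?_
      have h1 : ‖fr i • tr (X i)‖ ≤ C' * m := by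
        rw [norm_smul, Real.norm_eq_abs, abs_of_nonneg (hfr0 i)]
        calc fr i * ‖tr (X i)‖ ≤ 1 * ‖tr (X i)‖ :=
              mul_le_mul_of_nonneg_right (hfr1 i) (norm_nonneg _)
          _ = nm (X i) := by rw [one_mul]; rfl
          _ ≤ _ := hX3 i
      linarith
    have hU1 : ∫ ω, max (M.t ω 0 (w i) - M.μ (tr (w i))) 0 ∂P ≤ CU * ((C' + 2) * m) ^ γ := by
      refine (hU (w i)).trans (mul_le_mul_of_nonneg_left ?_ hCU)
      apply Real.rpow_le_rpow (by have := nm_nonneg (w i); linarith) _ hγ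
      nlinarith [nm_nonneg (w i)]
    have hμX : M.μ (tr (X i)) ≤ (z i).2 + g :=
      (M.mu_le_mean (X i)).trans ((improve_mean_le M (X i) (z i).2).trans (by linarith [hX4 i]))
    have hμw : M.μ (tr (w i)) ≤ fr i * (z i).2 + g + |M.CM| := by
      have e1 : tr (w i) = fr i • tr (X i) + (tr (w i) - fr i • tr (X i)) := by abel
      have e2 : M.μ (tr (w i) - fr i • tr (X i)) ≤ |M.CM| := by
        refine (hub _).trans ?_
        have h3 : ‖tr (w i) - fr i • tr (X i)‖ ≤ 1 / 2 := norm_rd_sub _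
        calc |M.CM| * ‖tr (w i) - fr i • tr (X i)‖ ≤ |M.CM| * 1 :=
              mul_le_mul_of_nonneg_left (by linarith) (abs_nonneg _)
          _ = |M.CM| := mul_one _
      have e3 : M.μ (tr (w i)) ≤ M.μ (fr i • tr (X i)) + M.μ (tr (w i) - fr i • tr (X i)) := by
        conv_lhs => rw [e1]
        exact hnm.add _ _
      have e4 : M.μ (fr i • tr (X i)) = fr i * M.μ (tr (X i)) := by
        rw [hnm.smul, abs_of_nonneg (hfr0 i)]
      have e5 : fr i * M.μ (tr (X i)) ≤ fr i * (z i).2 + g := by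
        have := mul_le_mul_of_nonneg_left hμX (hfr0 i)
        nlinarith [hfr0 i, hfr1 i]
      linarith
    have h4 := improve_le_add M (w i) (fr i * (z i).2) (M.μ (tr (w i)))
    have h5 : max (M.μ (tr (w i)) - fr i * (z i).2) 0 ≤ g + |M.CM| :=
      max_le (by linarith) (add_nonneg hg (abs_nonneg _))
    linarith
  set B : ℝ := CU * ((C' + 2) * m) ^ γ + g + |M.CM| with hB
  have hB0 : 0 ≤ B := by positivity
  have hNr : (N : ℝ) ≤ (d : ℝ) + 2 := by exact_mod_cast hN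
  have hT2 : ∑ i, ∫ ω, max (M.t ω 0 (w i) - fr i * (z i).2) 0 ∂P ≤ ((d : ℝ) + 2) * B := by
    calc ∑ i, ∫ ω, max (M.t ω 0 (w i) - fr i * (z i).2) 0 ∂P ≤ ∑ _i : Fin N, B :=
          Finset.sum_le_sum (fun i _ => hpiece i)
      _ = N * B := by simp
      _ ≤ _ := mul_le_mul_of_nonneg_right hNr hB0
  -- the remainder
  have hny : nm y ≤ 1 + ((d : ℝ) + 2) / 2 := by
    have e1 : tr y = -(∑ i, a i • (z i).1 - tr x) - ∑ i, (tr (w i) - fr i • tr (X i)) := by
      rw [hy, tr_sub, tr_sub, improve_tr_sum, improve_tr_sum, Finset.sum_sub_distrib]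
      have e2 : ∑ i, a i • (z i).1 = ∑ i, tr (n i • X i) + ∑ i, fr i • tr (X i) := by
        rw [← Finset.sum_add_distrib]
        refine Finset.sum_congr rfl (fun i _ => ?_)
        rw [hX1 i, tr_nsmul, ← add_smul]
        congr 1
        simp only [hfr]
        ring
      rw [e2]
      abel
    have e3 : ‖∑ i, (tr (w i) - fr i • tr (X i))‖ ≤ ((d : ℝ) + 2) / 2 := by
      calc ‖∑ i, (tr (w i) - fr i • tr (X i))‖ ≤ ∑ i, ‖tr (w i) - fr i • tr (X i)‖ :=
            norm_sum_le _ _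
        _ ≤ ∑ _i : Fin N, (1 / 2 : ℝ) := Finset.sum_le_sum (fun i _ => norm_rd_sub _)
        _ = N * (1 / 2) := by simp
        _ ≤ _ := by linarith
    unfold nm
    rw [e1]
    refine (norm_sub_le _ _).trans ?_
    rw [norm_neg]
    linarith
  have hT3 : ∫ ω, M.t ω 0 y ∂P ≤ Cm * (2 + ((d : ℝ) + 2) / 2) :=
    (hM y).trans (mul_le_mul_of_nonneg_left (by linarith) hCm)
  have hlast := improve_le_add M x (M.μ (tr x)) (M.μ (tr x) + 1)
  have h6 : max (M.μ (tr x) + 1 - M.μ (tr x)) 0 = 1 := by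
    rw [add_sub_cancel_left]
    exact max_eq_left zero_le_one
  rw [h6] at hlast
  linarith

theorem PreLRM.improve (M : PreLRM d P) {γ a : ℝ} (hγ : 0 < γ) (hγ1 : γ ≤ 1) (ha : 0 < a)
    (ha1 : a ≤ 1) (hU : M.U γ) (hX : M.XNall (γ - a)) : M.U (γ - a * γ / 4) := by
  obtain ⟨CU0, hCU0⟩ := hU
  obtain ⟨c', C', hc', hC', hev⟩ := hX
  obtain ⟨Cm0, hCm0⟩ := M.moment 1
  obtain ⟨m0, hm0⟩ := eventually_atTop.1 hev
  have hM : ∀ x : V d, ∫ ω, M.t ω 0 x ∂P ≤ |Cm0| * (1 + nm x) := by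
    intro x
    have := hCm0 x
    simp only [pow_one] at this
    exact this.trans (mul_le_mul_of_nonneg_right (le_abs_self _)
      (by have := nm_nonneg x; linarith))
  have hU : ∀ x : V d, ∫ ω, max (M.t ω 0 x - M.μ (tr x)) 0 ∂P ≤ |CU0| * (1 + nm x) ^ γ := by
    intro x
    exact (hCU0 x).trans (mul_le_mul_of_nonneg_right (le_abs_self _)
      (Real.rpow_nonneg (by have := nm_nonneg x; linarith) _))
  have hab : 0 < 1 + a / 2 := by linarith
  set q : ℝ := 1 / (1 + a / 2) with hq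
  have hq0 : 0 < q := by positivity
  have hexp0 : 0 ≤ γ - a * γ / 4 := by nlinarith
  -- thresholds
  set n0 : ℝ := (max m0 1) ^ (1 + a / 2) with hn0
  have hn01 : 1 ≤ n0 := Real.one_le_rpow (le_max_right _ _) hab.le
  set D : ℝ := (|M.CM| + 1) / c' + ((d : ℝ) + 2) * (|CU0| * (C' + 2) ^ γ + 1 + |M.CM|)
      + |Cm0| * (2 + ((d : ℝ) + 2) / 2) + 1 with hD
  have hD0 : 0 ≤ D := by positivity
  refine ⟨D + |Cm0| * (1 + n0), fun x => ?_⟩
  have hnx := nm_nonneg x
  have hpow1 : 1 ≤ (1 + nm x) ^ (γ - a * γ / 4) := Real.one_le_rpow (by linarith) hexp0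
  rcases lt_or_ge (nm x) n0 with hsmall | hlarge
  · -- small vectors
    have h1 : ∫ ω, max (M.t ω 0 x - M.μ (tr x)) 0 ∂P ≤ ∫ ω, M.t ω 0 x ∂P := by
      refine integral_mono (improve_int_max M 0 x _) (improve_int M 0 x) (fun ω => ?_)
      have hμ0 : 0 ≤ M.μ (tr x) :=
        le_trans (mul_nonneg M.isNm.cpos.le (norm_nonneg _)) (M.isNm.lb _)
      exact max_le (by linarith) (M.t_nonneg ω 0 x)
    have h2 : ∫ ω, M.t ω 0 x ∂P ≤ |Cm0| * (1 + n0) :=
      (hM x).trans (mul_le_mul_of_nonneg_left (by linarith) (abs_nonneg _))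
    have h3 : 0 ≤ |Cm0| * (1 + n0) := by positivity
    calc _ ≤ |Cm0| * (1 + n0) := h1.trans h2
      _ ≤ (D + |Cm0| * (1 + n0)) * 1 := by linarith
      _ ≤ _ := mul_le_mul_of_nonneg_left hpow1 (by positivity)
  · -- large vectors
    set n : ℝ := nm x with hn
    have hn1 : 1 ≤ n := hn01.trans hlarge
    have hnpos : 0 < n := by linarith
    set m : ℝ := n ^ q with hm
    have hnm : n = m ^ (1 + a / 2) := by
      rw [hm, ← Real.rpow_mul hnpos.le, hq, one_div, inv_mul_cancel₀ hab.ne', Real.rpow_one]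
    have hm1 : 1 ≤ m := Real.one_le_rpow hn1 hq0.le
    have hmpos : 0 < m := by linarith
    have hmm0 : m0 ≤ m := by
      have h1 : n0 ^ q ≤ n ^ q := Real.rpow_le_rpow (by linarith) hlarge hq0.le
      have h2 : n0 ^ q = max m0 1 := by
        rw [hn0, ← Real.rpow_mul (by positivity), hq, mul_one_div, div_self hab.ne',
          Real.rpow_one]
      exact (le_max_left m0 1).trans (h2 ▸ h1)
    set g : ℝ := m ^ (γ - a) with hg
    have hg0 : 0 ≤ g := Real.rpow_nonneg hmpos.le _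
    have hmγ1 : 1 ≤ m ^ γ := Real.one_le_rpow hm1 hγ.le
    have hgle : g ≤ m ^ γ := Real.rpow_le_rpow_of_exponent_le hm1 (by linarith)
    have key := improve_one M hγ.le hm1 hg0 hc' hC' (abs_nonneg CU0) (abs_nonneg Cm0)
      (hm0 m hmm0) hU hM x
    -- first term
    have hμx : M.μ (tr x) + 1 ≤ (|M.CM| + 1) * n := by
      have h1 : M.μ (tr x) ≤ |M.CM| * n :=
        (M.isNm.ub _).trans (mul_le_mul_of_nonneg_right (le_abs_self _) (norm_nonneg _))
      nlinarith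
    have hT1 : (M.μ (tr x) + 1) / (c' * m) * g ≤ (|M.CM| + 1) / c' * m ^ γ := by
      have h1 : (M.μ (tr x) + 1) / (c' * m) ≤ (|M.CM| + 1) / c' * m ^ (a / 2) := by
        rw [div_le_iff₀ (mul_pos hc' hmpos)]
        have h2 : n = m * m ^ (a / 2) := by
          rw [hnm, Real.rpow_add hmpos, Real.rpow_one]
        calc M.μ (tr x) + 1 ≤ (|M.CM| + 1) * n := hμx
          _ = (|M.CM| + 1) / c' * m ^ (a / 2) * (c' * m) := by
            rw [h2]
            field_simp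
      calc (M.μ (tr x) + 1) / (c' * m) * g ≤ (|M.CM| + 1) / c' * m ^ (a / 2) * g :=
            mul_le_mul_of_nonneg_right h1 hg0
        _ = (|M.CM| + 1) / c' * (m ^ (a / 2) * m ^ (γ - a)) := by rw [mul_assoc]
        _ = (|M.CM| + 1) / c' * m ^ (γ - a / 2) := by
            rw [← Real.rpow_add hmpos]
            congr 2
            ring
        _ ≤ (|M.CM| + 1) / c' * m ^ γ :=
            mul_le_mul_of_nonneg_left
              (Real.rpow_le_rpow_of_exponent_le hm1 (by linarith)) (by positivity)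
    have hT2 : ((d : ℝ) + 2) * (|CU0| * ((C' + 2) * m) ^ γ + g + |M.CM|)
        ≤ ((d : ℝ) + 2) * (|CU0| * (C' + 2) ^ γ + 1 + |M.CM|) * m ^ γ := by
      rw [mul_assoc]
      refine mul_le_mul_of_nonneg_left ?_ (by positivity)
      rw [Real.mul_rpow (by linarith) hmpos.le]
      have h3 : |M.CM| ≤ |M.CM| * m ^ γ := le_mul_of_one_le_right (abs_nonneg _) hmγ1
      nlinarith
    have hT3 : |Cm0| * (2 + ((d : ℝ) + 2) / 2) + 1
        ≤ (|Cm0| * (2 + ((d : ℝ) + 2) / 2) + 1) * m ^ γ :=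
      le_mul_of_one_le_right (by positivity) hmγ1
    have htot : ∫ ω, max (M.t ω 0 x - M.μ (tr x)) 0 ∂P ≤ D * m ^ γ := by
      rw [hD]
      have : ((|M.CM| + 1) / c' + ((d : ℝ) + 2) * (|CU0| * (C' + 2) ^ γ + 1 + |M.CM|)
          + |Cm0| * (2 + ((d : ℝ) + 2) / 2) + 1) * m ^ γ
          = (|M.CM| + 1) / c' * m ^ γ
            + ((d : ℝ) + 2) * (|CU0| * (C' + 2) ^ γ + 1 + |M.CM|) * m ^ γ
            + (|Cm0| * (2 + ((d : ℝ) + 2) / 2) + 1) * m ^ γ := by ring
      rw [this]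
      linarith
    have hmle : m ^ γ ≤ (1 + n) ^ (γ - a * γ / 4) := by
      have h1 : m ^ γ = n ^ (q * γ) := by rw [hm, ← Real.rpow_mul hnpos.le]
      have h2 : q ≤ 1 - a / 4 := by
        rw [hq, div_le_iff₀ hab]
        nlinarith
      have h3 : q * γ ≤ γ - a * γ / 4 := by nlinarith
      rw [h1]
      exact (Real.rpow_le_rpow_of_exponent_le hn1 h3).trans
        (Real.rpow_le_rpow hnpos.le (by linarith) hexp0)
    calc _ ≤ D * m ^ γ := htot
      _ ≤ D * (1 + n) ^ (γ - a * γ / 4) := mul_le_mul_of_nonneg_left hmle hD0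
      _ ≤ (D + |Cm0| * (1 + n0)) * (1 + n) ^ (γ - a * γ / 4) := by
          refine mul_le_mul_of_nonneg_right ?_ (by positivity)
          have : 0 ≤ |Cm0| * (1 + n0) := by positivity
          linarith

end FPPX
end

section

/-! Elementary properties of the lower bound predicates. -/

namespace FPPX

open MeasureTheory ProbabilityTheory Filter Set
open scoped Topology

variable {d : ℕ} {Ω : Type} [MeasurableSpace Ω] {P : Measure Ω} [IsProbabilityMeasure P]

theorem PreLRM.Low_mono (M : PreLRM d P) {β β' : ℝ} (h : M.Low β) (hb : β ≤ β') : M.Low β' := by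
  intro D
  refine Negl.mono ?_ (h D)
  filter_upwards [eventually_ge_atTop 1] with r h2
  rintro ω ⟨u, v, hu, hv, hlt⟩
  refine ⟨u, v, hu, hv, ?_⟩
  have h3 : r ^ β ≤ r ^ β' := Real.rpow_le_rpow_of_exponent_le h2 hb
  linarith

theorem PreLRM.Low_trivial (M : PreLRM d P) {β : ℝ} (hβ : 1 < β) : M.Low β := by
  intro D K
  filter_upwards [ev_rpow_le |M.CM| one_pos hβ, eventually_gt_atTop 0] with r h2 h3
  have h4 : {ω | ∃ u v : V d, nm u ≤ r ^ D ∧ nm (v - u) ≤ r ∧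
      M.t ω u v < M.μ (tr (v - u)) - r ^ β} = ∅ := by
    rw [Set.eq_empty_iff_forall_notMem]
    rintro ω ⟨u, v, hu, hv, hlt⟩
    have h5 := M.isNm.ub (tr (v - u))
    have h6 : M.CM * ‖tr (v - u)‖ ≤ |M.CM| * r :=
      mul_le_mul (le_abs_self _) hv (norm_nonneg _) (abs_nonneg _)
    have h7 := M.t_nonneg ω u v
    rw [Real.rpow_one, one_mul] at h2
    linarith
  rw [h4, measureReal_empty]
  positivity

end FPPX
end

section

/-! Fast events: locality and probability. -/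

namespace FPPX

open MeasureTheory ProbabilityTheory Filter Set
open scoped Topology

variable {d : ℕ} {Ω : Type} [MeasurableSpace Ω] {P : Measure Ω} [IsProbabilityMeasure P]

theorem LRM.FE_meas (M : LRM d P) (ν : E d →ₗ[ℝ] ℝ) (D m s : ℝ) (A : V d) :
    MeasurableSet[M.F (bl A (M.Cl * (D * m)))] (M.FE ν D m s A) := by
  have h : M.FE ν D m s A = ⋃ b ∈ {b : V d | nm b ≤ D * m},
      M.LE (bl A (M.Cl * (D * m))) A (A + b) (ν (tr b) - s) := by
    ext ω
    simp only [LRM.FE, mem_ofPred_eq, mem_iUnion, exists_prop]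
  rw [h]
  exact Set.Finite.measurableSet_biUnion (finite_bl (D * m)) (fun b _ => M.LE_meas _ _ _ _)

theorem LRM.FE_prob (M : LRM d P) {γ : ℝ} (hT : M.T1 γ) (D : ℝ) : ∃ C : ℝ,
    ∀ᶠ m : ℝ in atTop, ∀ (ν : E d →ₗ[ℝ] ℝ) (p : E d), Supp M.μ ν p → ∀ s : ℝ, m ^ γ ≤ s →
      ∀ A : V d, P.real (M.FE ν D m s A) ≤ C * m ^ γ / s := by
  obtain ⟨C, hC⟩ := hT D
  refine ⟨C, ?_⟩
  filter_upwards [hC] with m hm ν p hν s hs A
  refine le_trans ?_ (hm ν p hν s hs)
  refine le_trans ?_ (real_preimage_le M.toPreLRM A _)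
  refine measureReal_mono ?_
  rintro ω ⟨b, hb, hω⟩
  refine ⟨b, hb, ?_⟩
  have h1 := M.LE_t _ _ _ _ _ hω
  rw [M.t_shift, zero_add, add_comm b A]
  exact h1

end FPPX
end

section

/-! Forward connections: the typical event. -/

namespace FPPX

open MeasureTheory ProbabilityTheory Filter Set
open scoped Topology

variable {d : ℕ} {Ω : Type} [MeasurableSpace Ω] {P : Measure Ω} [IsProbabilityMeasure P]

theorem LRM.connect_good (M : LRM d P) {β : ℝ} (hβ : 0 < β) (hβ1 : β ≤ 1) (hUp : M.UpAll β) :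
    ∃ Ca0 C : ℝ, 0 < Ca0 ∧ 0 < C ∧ ∀ Ca D D' : ℝ, Ca0 ≤ Ca → 0 < D → 0 < D' →
      ∀ᶠ r : ℝ in atTop, ∀ (ν : E d →ₗ[ℝ] ℝ) (p : E d), Supp M.μ ν p →
        P.real (⋂ b ∈ fwd ν D D' r,
          M.LE {z | -((D' + Ca) * r) ≤ ν (tr z)} b (b + rd (r • p)) (r + C * r ^ β))ᶜ ≤
          r ^ (-(1 : ℝ)) := by
  have hcm : 0 < M.cm := M.isNm.cpos
  have hCl := M.one_le_Cl
  obtain ⟨B, hB⟩ : ∃ B, B = 1 / M.cm + 1 := ⟨_, rfl⟩
  have hB1 : 1 ≤ B := by
    have : 0 < 1 / M.cm := by positivity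
    linarith
  have hB0 : 0 < B := by linarith
  have hBβ : 0 < B ^ β := Real.rpow_pos_of_pos hB0 _
  refine ⟨|M.CM| * (M.Cl * B) + 1, |M.CM| + 2 * B ^ β, by positivity, by positivity, ?_⟩
  intro Ca D D' hCa hD hD'
  have n1 := hUp.scale (a := 1) (B := B) one_pos hB0 2 2
  have n2 := M.loc_scale (ε := β) (a := 1) (B := B) hβ one_pos hB0 2 2
  have e1 : ∀ᶠ r : ℝ in atTop, D * r ^ (1 : ℝ) ≤ 1 * r ^ (2 : ℝ) :=
    ev_rpow_le _ one_pos (by norm_num)
  filter_upwards [n1, n2, e1, eventually_ge_atTop 2] with r h1 h2 h3 hr2 ν p hν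
  have hr0 : 0 < r := by linarith
  have hr1 : 1 ≤ r := by linarith
  rw [Real.rpow_one, one_mul] at h3
  have hCM := (M.isNm.norm_p hν).1
  have hsub : (⋂ b ∈ fwd ν D D' r,
      M.LE {z | -((D' + Ca) * r) ≤ ν (tr z)} b (b + rd (r • p))
        (r + (|M.CM| + 2 * B ^ β) * r ^ β))ᶜ ⊆
      {ω | ¬ M.UpAt ω (r ^ (2 : ℝ)) (B * r ^ (1 : ℝ)) β} ∪
        {ω | ¬ M.LocAt ω (r ^ (2 : ℝ)) (B * r ^ (1 : ℝ)) β} := by
    intro ω hω
    by_contra hcon
    simp only [mem_union, mem_ofPred_eq, not_or, not_not] at hcon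
    obtain ⟨hup, hloc⟩ := hcon
    apply hω
    rw [mem_iInter₂]
    intro b hb
    rw [Real.rpow_one] at hup hloc
    have hbr : nm b ≤ r ^ (2 : ℝ) := hb.1.trans h3
    have hn : nm (b + rd (r • p) - b) ≤ B * r := by
      rw [add_sub_cancel_left]
      refine (nm_rd_le _).trans ?_
      rw [norm_smul, Real.norm_eq_abs, abs_of_pos hr0]
      have h4 := (M.isNm.norm_p hν).2.1
      have h5 : r * ‖p‖ ≤ r * (1 / M.cm) := mul_le_mul_of_nonneg_left h4 hr0.le
      have h6 : B * r = r * (1 / M.cm) + r := by rw [hB]; ring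
      linarith
    have u1 := hup b (b + rd (r • p)) hbr hn
    have l1 := hloc b (b + rd (r • p)) hbr hn
    rw [add_sub_cancel_left] at u1
    have hμ : M.μ (tr (rd (r • p))) ≤ r + |M.CM| := by
      have h4 := M.isNm.sub_le (tr (rd (r • p))) (r • p)
      have h5 := norm_rd_sub (r • p)
      have h6 : M.μ (r • p) = r := by
        rw [M.isNm.smul, abs_of_pos hr0, hν.2.2, mul_one]
      rw [h6] at h4
      have h7 := (abs_le.1 h4).2
      have h8 : M.CM * ‖tr (rd (r • p)) - r • p‖ ≤ |M.CM| * 1 := by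
        rw [abs_of_pos hCM]
        exact mul_le_mul_of_nonneg_left (by linarith) hCM.le
      linarith
    have hrβ : 1 ≤ r ^ β := Real.one_le_rpow hr1 hβ.le
    have hmul : (B * r) ^ β = B ^ β * r ^ β := Real.mul_rpow hB0.le hr0.le
    rw [hmul] at u1 l1
    refine M.LE_mono _ _ _ _ _ _ ?_ ?_ l1
    · intro z hz
      have hz : nm (z - b) ≤ M.Cl * (B * r) := hz
      have h4 := M.isNm.abs_le hν (tr (z - b))
      have h5 : ν (tr z) = ν (tr b) + ν (tr (z - b)) := by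
        rw [← map_add, ← tr_add]
        congr 2
        abel
      have h6 := (abs_le.1 h4).1
      have h7 : M.CM * ‖tr (z - b)‖ ≤ M.CM * (M.Cl * (B * r)) :=
        mul_le_mul_of_nonneg_left hz hCM.le
      have h8 := hb.2
      show -((D' + Ca) * r) ≤ ν (tr z)
      rw [abs_of_pos hCM] at hCa
      have h9 : M.CM * (M.Cl * (B * r)) ≤ Ca * r := by
        have : M.CM * (M.Cl * (B * r)) = (M.CM * (M.Cl * B)) * r := by ring
        rw [this]
        exact mul_le_mul_of_nonneg_right (by linarith) hr0.le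
      have h10 : (D' + Ca) * r = D' * r + Ca * r := by ring
      linarith
    · have h4 : |M.CM| * 1 ≤ |M.CM| * r ^ β := mul_le_mul_of_nonneg_left hrβ (abs_nonneg _)
      have h5 : (|M.CM| + 2 * B ^ β) * r ^ β = |M.CM| * r ^ β + 2 * (B ^ β * r ^ β) := by ring
      rw [h5]
      linarith
  calc P.real _ ≤ P.real ({ω | ¬ M.UpAt ω (r ^ (2 : ℝ)) (B * r ^ (1 : ℝ)) β} ∪
        {ω | ¬ M.LocAt ω (r ^ (2 : ℝ)) (B * r ^ (1 : ℝ)) β}) := measureReal_mono hsub
    _ ≤ P.real {ω | ¬ M.UpAt ω (r ^ (2 : ℝ)) (B * r ^ (1 : ℝ)) β} +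
        P.real {ω | ¬ M.LocAt ω (r ^ (2 : ℝ)) (B * r ^ (1 : ℝ)) β} := measureReal_union_le _ _
    _ ≤ r ^ (-((2 : ℕ) : ℝ)) + r ^ (-((2 : ℕ) : ℝ)) := add_le_add h1 h2
    _ ≤ r ^ (-(1 : ℝ)) := by
        have h4 : r ^ (-(1 : ℝ)) = r ^ (-((2 : ℕ) : ℝ)) * r := by
          rw [← Real.rpow_add_one hr0.ne']
          congr 1
          norm_num
        rw [h4]
        have h5 : 0 < r ^ (-((2 : ℕ) : ℝ)) := Real.rpow_pos_of_pos hr0 _
        nlinarith

end FPPX
end

section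

/-! Lower half of the shape theorem, in probability. -/

namespace FPPX

open MeasureTheory ProbabilityTheory Filter Set
open scoped Topology

variable {d : ℕ} {Ω : Type} [MeasurableSpace Ω] {P : Measure Ω} [IsProbabilityMeasure P]

/-- distances between points at bounded distance, along real scales -/
theorem PreLRM.S1_near (M : PreLRM d P) (B : ℝ) (u v : ℝ → V d)
    (huv : ∀ r, 0 ≤ r → nm (v r - u r) ≤ B) (ε : ℝ) (hε : 0 < ε) :
    Tendsto (fun r : ℝ => P.real {ω | ε * r ≤ M.t ω (u r) (v r)}) atTop (𝓝 0) := by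
  rw [tendsto_order]
  constructor
  · intro a ha
    exact Eventually.of_forall fun n => ha.trans_le measureReal_nonneg
  · intro a ha
    obtain ⟨S, hS⟩ := M.normA_tight B (a / 2) (by linarith)
    have h1 : ∀ᶠ r : ℝ in atTop, S < ε * r := by
      have : Tendsto (fun r : ℝ => ε * r) atTop atTop := tendsto_id.const_mul_atTop hε
      exact this.eventually_gt_atTop S
    filter_upwards [h1, eventually_ge_atTop 0] with r hr hr0
    have h2 : P.real {ω | ε * r ≤ M.t ω (u r) (v r)} =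
        P.real {ω | ε * r ≤ M.t ω 0 (v r - u r)} :=
      M.real_shift (u r) (v r) (Ici (ε * r)) measurableSet_Ici
    rw [h2]
    have h3 : P.real {ω | ε * r ≤ M.t ω 0 (v r - u r)} ≤
        P.real {ω | S < M.t ω 0 (v r - u r)} := by
      refine measureReal_mono ?_
      intro ω hω
      exact hr.trans_le hω
    have := hS _ (huv r hr0)
    linarith

/-- lower bound in a fixed direction, along real scales -/
theorem PreLRM.S1_point (M : PreLRM d P) (x : E d) (δ : ℝ) (hδ : 0 < δ) :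
    Tendsto (fun r : ℝ => P.real {ω | M.t ω 0 (rd (r • x)) < r * M.μ x - δ * r}) atTop
      (𝓝 0) := by
  have hclose : ∀ r : ℝ, 0 ≤ r →
      nm (rd (r • x) - rd ((⌊r⌋₊ : ℝ) • x)) ≤ 1 + ‖x‖ := by
    intro s hs
    have h4 := norm_rd_sub (s • x)
    have h5 := norm_rd_sub ((⌊s⌋₊ : ℝ) • x)
    unfold nm
    rw [tr_sub]
    have h7 : tr (rd (s • x)) - tr (rd ((⌊s⌋₊ : ℝ) • x)) = (tr (rd (s • x)) - s • x) -
        (tr (rd ((⌊s⌋₊ : ℝ) • x)) - (⌊s⌋₊ : ℝ) • x) + (s - (⌊s⌋₊ : ℝ)) • x := by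
      rw [sub_smul]
      abel
    rw [h7]
    refine (norm_add_le _ _).trans ?_
    have h8 := norm_sub_le (tr (rd (s • x)) - s • x)
      (tr (rd ((⌊s⌋₊ : ℝ) • x)) - (⌊s⌋₊ : ℝ) • x)
    have h9 : ‖(s - (⌊s⌋₊ : ℝ)) • x‖ ≤ ‖x‖ := by
      rw [norm_smul, Real.norm_eq_abs]
      have h10 := Nat.floor_le hs
      have h11 := Nat.lt_floor_add_one s
      have h12 : |s - (⌊s⌋₊ : ℝ)| ≤ 1 := by
        rw [abs_le]
        constructor <;> linarith
      calc |s - (⌊s⌋₊ : ℝ)| * ‖x‖ ≤ 1 * ‖x‖ :=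
            mul_le_mul_of_nonneg_right h12 (norm_nonneg x)
        _ = ‖x‖ := one_mul _
    linarith
  have t1 := (M.lim x (δ / 4) (by linarith)).comp (tendsto_nat_floor_atTop (α := ℝ))
  have t2 := M.S1_near (1 + ‖x‖) (fun r => rd ((⌊r⌋₊ : ℝ) • x)) (fun r => rd (r • x)) hclose
    (δ / 4) (by linarith)
  have t3 := t1.add t2
  rw [add_zero] at t3
  refine squeeze_zero' (Eventually.of_forall fun r => measureReal_nonneg) ?_ t3
  have h1 : ∀ᶠ r : ℝ in atTop, |M.μ x| ≤ δ / 2 * r := by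
    have : Tendsto (fun r : ℝ => δ / 2 * r) atTop atTop :=
      tendsto_id.const_mul_atTop (by linarith)
    exact this.eventually_ge_atTop _
  filter_upwards [h1, eventually_ge_atTop 0] with r hr hr0
  refine (measureReal_mono ?_).trans (measureReal_union_le _ _)
  intro ω hω
  by_contra h
  rw [mem_union, not_or] at h
  have h2 : |M.t ω 0 (rd ((⌊r⌋₊ : ℝ) • x)) - (⌊r⌋₊ : ℝ) * M.μ x| < δ / 4 * (⌊r⌋₊ : ℝ) :=
    not_le.1 h.1
  have h3 : M.t ω (rd ((⌊r⌋₊ : ℝ) • x)) (rd (r • x)) < δ / 4 * r := not_le.1 h.2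
  have h4 : M.t ω 0 (rd (r • x)) < r * M.μ x - δ * r := hω
  have h5 := M.normA_abs ω (rd ((⌊r⌋₊ : ℝ) • x)) (rd (r • x))
  rw [M.t_symm ω (rd (r • x)) (rd ((⌊r⌋₊ : ℝ) • x))] at h5
  have h6 := (abs_le.1 h5).2
  have h7 := (abs_lt.1 h2).1
  have h10 := Nat.floor_le hr0
  have h11 := Nat.lt_floor_add_one r
  have h8 : (r - (⌊r⌋₊ : ℝ)) * M.μ x ≤ |M.μ x| := by
    calc (r - (⌊r⌋₊ : ℝ)) * M.μ x ≤ |(r - (⌊r⌋₊ : ℝ)) * M.μ x| := le_abs_self _
      _ = |r - (⌊r⌋₊ : ℝ)| * |M.μ x| := abs_mul _ _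
      _ ≤ 1 * |M.μ x| := by
        refine mul_le_mul_of_nonneg_right ?_ (abs_nonneg _)
        rw [abs_le]
        constructor <;> linarith
      _ = |M.μ x| := one_mul _
  have h9 : δ / 4 * (⌊r⌋₊ : ℝ) ≤ δ / 4 * r := mul_le_mul_of_nonneg_left h10 (by linarith)
  nlinarith

theorem PreLRM.S1low (M : PreLRM d P) (ε : ℝ) (hε : 0 < ε) :
    Tendsto (fun r : ℝ => P.real {ω | ∃ z : V d, nm z ≤ r ∧ M.t ω 0 z < M.μ (tr z) - ε * r})
      atTop (𝓝 0) := by
  have hC1 := M.one_le_C1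
  have hC0 : 0 < M.C1 := by linarith
  set η : ℝ := ε / (8 * M.C1) with hη
  have hη0 : 0 < η := by positivity
  have hη1 : M.C1 * η = ε / 8 := by
    rw [hη]
    field_simp
  obtain ⟨T, hTs, hTf, hT⟩ :=
    (isCompact_closedBall (0 : E d) 1).finite_cover_balls hη0
  -- the bad events
  have t1 : Tendsto (fun r : ℝ => P.real {ω | ∃ u v : V d, nm u ≤ r ^ (2 : ℝ) ∧
      nm v ≤ r ^ (2 : ℝ) ∧ M.C1 * max (nm (v - u)) (r ^ ((1 : ℝ) / 2)) < M.t ω u v}) atTop
      (𝓝 0) := by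
    rw [tendsto_order]
    constructor
    · intro a ha
      exact Eventually.of_forall fun n => ha.trans_le measureReal_nonneg
    · intro a ha
      exact (M.UL 2 (1 / 2) (by norm_num)).lt ha
  have t2 : Tendsto (fun r : ℝ => ∑ x ∈ hTf.toFinset,
      P.real {ω | M.t ω 0 (rd (r • x)) < r * M.μ x - ε / 4 * r}) atTop (𝓝 0) := by
    have := tendsto_finsetSum hTf.toFinset
      (fun x _ => M.S1_point x (ε / 4) (by linarith))
    rwa [Finset.sum_const_zero] at this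
  have t3 := t1.add t2
  rw [add_zero] at t3
  refine squeeze_zero' (Eventually.of_forall fun r => measureReal_nonneg) ?_ t3
  have e1 : ∀ᶠ r : ℝ in atTop, r ^ ((1 : ℝ) / 2) ≤ 2 * η * r := by
    filter_upwards [ev_rpow_le 1 (show (0 : ℝ) < 2 * η by linarith)
      (show (1 : ℝ) / 2 < 1 by norm_num)] with r hr
    rw [Real.rpow_one, one_mul] at hr
    exact hr
  have e2 : ∀ᶠ r : ℝ in atTop, 1 / 2 ≤ η * r := by
    have : Tendsto (fun r : ℝ => η * r) atTop atTop := tendsto_id.const_mul_atTop hη0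
    exact this.eventually_ge_atTop _
  filter_upwards [e1, e2, eventually_ge_atTop 2] with r hr1 hr2 hr3
  have hr0 : 0 < r := by linarith
  refine (measureReal_mono ?_).trans ((measureReal_union_le _ _).trans
    (add_le_add le_rfl (measureReal_biUnion_finset_le _ _)))
  rintro ω ⟨z, hz1, hz2⟩
  by_contra h
  rw [mem_union, not_or] at h
  obtain ⟨g1, g2⟩ := h
  simp only [mem_ofPred_eq, not_exists, not_and, not_lt] at g1
  simp only [mem_iUnion, mem_ofPred_eq, not_exists, not_lt, Set.Finite.mem_toFinset] at g2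
  have hz3 : r⁻¹ • tr z ∈ Metric.closedBall (0 : E d) 1 := by
    rw [mem_closedBall_zero_iff, norm_smul, Real.norm_eq_abs, abs_of_pos (inv_pos.2 hr0)]
    calc r⁻¹ * ‖tr z‖ ≤ r⁻¹ * r := mul_le_mul_of_nonneg_left hz1 (inv_pos.2 hr0).le
      _ = 1 := inv_mul_cancel₀ hr0.ne'
  have hz4 := hT hz3
  simp only [mem_iUnion, Metric.mem_ball, exists_prop] at hz4
  obtain ⟨x, hxT, hx⟩ := hz4
  have hx1 : ‖x‖ ≤ 1 := mem_closedBall_zero_iff.1 (hTs hxT)
  have hzx : ‖tr z - r • x‖ ≤ η * r := by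
    have h1 : tr z - r • x = r • (r⁻¹ • tr z - x) := by
      rw [smul_sub, smul_smul, mul_inv_cancel₀ hr0.ne', one_smul]
    rw [h1, norm_smul, Real.norm_eq_abs, abs_of_pos hr0, mul_comm]
    rw [dist_eq_norm] at hx
    exact mul_le_mul_of_nonneg_right hx.le hr0.le
  have hw := norm_rd_sub (r • x)
  have hzw : nm (z - rd (r • x)) ≤ 2 * η * r := by
    unfold nm
    rw [tr_sub]
    have h1 : tr z - tr (rd (r • x)) = (tr z - r • x) - (tr (rd (r • x)) - r • x) := by abel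
    rw [h1]
    refine (norm_sub_le _ _).trans ?_
    linarith
  have hwn : nm (rd (r • x)) ≤ r ^ (2 : ℝ) := by
    refine (nm_rd_le _).trans ?_
    rw [norm_smul, Real.norm_eq_abs, abs_of_pos hr0, Real.rpow_two]
    nlinarith [norm_nonneg x]
  have hzn : nm z ≤ r ^ (2 : ℝ) := by
    rw [Real.rpow_two]
    nlinarith
  have k1 := g1 (rd (r • x)) z hwn hzn
  have k2 := g2 x hxT
  have k3 : M.C1 * max (nm (z - rd (r • x))) (r ^ ((1 : ℝ) / 2)) ≤ M.C1 * (2 * η * r) :=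
    mul_le_mul_of_nonneg_left (max_le hzw hr1) hC0.le
  have k4 := M.t_tri ω 0 z (rd (r • x))
  rw [M.t_symm ω z (rd (r • x))] at k4
  have k5 := (abs_le.1 (M.normB_sub (tr z) (r • x))).2
  have k6 : M.μ (r • x) = r * M.μ x := M.normB_nonneg_smul r hr0.le x
  have k7 : M.C1 * ‖tr z - r • x‖ ≤ M.C1 * (η * r) := mul_le_mul_of_nonneg_left hzx hC0.le
  have k8 : M.C1 * (2 * η * r) = ε / 4 * r := by
    calc M.C1 * (2 * η * r) = 2 * (M.C1 * η) * r := by ring
      _ = ε / 4 * r := by rw [hη1]; ring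
  have k9 : M.C1 * (η * r) = ε / 8 * r := by
    rw [← mul_assoc, hη1]
  rw [k6] at k5
  nlinarith

end FPPX
end

section

/-! A strategy cannot beat the time constant on average. -/

namespace FPPX

open MeasureTheory ProbabilityTheory Filter Set
open scoped Topology

variable {d : ℕ} {Ω : Type} [MeasurableSpace Ω] {P : Measure Ω} [IsProbabilityMeasure P]

omit [IsProbabilityMeasure P] in
private lemma greedy_nm_walk (M : PreLRM d P) (ξ : Ω → V d) (B : ℝ) (hB : ∀ ω, nm (ξ ω) ≤ B)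
    (n : ℕ) (ω : Ω) : nm (M.walk ξ n ω) ≤ n * B := by
  induction n with
  | zero => simp [PreLRM.walk, nm_zero]
  | succ n ih =>
    change nm (M.walk ξ n ω + ξ (M.θ (M.walk ξ n ω) ω)) ≤ _
    have h1 := nm_add (M.walk ξ n ω) (ξ (M.θ (M.walk ξ n ω) ω))
    have h2 := hB (M.θ (M.walk ξ n ω) ω)
    push_cast
    linarith

omit [IsProbabilityMeasure P] in
private lemma greedy_t_le (M : PreLRM d P) (ν : E d →ₗ[ℝ] ℝ) (ξ : Ω → V d) (g : Ω → ℝ) (ω : Ω)
    (h : ∀ k, M.t (M.θ (M.walk ξ k ω) ω) 0 (ξ (M.θ (M.walk ξ k ω) ω)) ≤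
      ν (tr (ξ (M.θ (M.walk ξ k ω) ω))) + g (M.θ (M.walk ξ k ω) ω)) (n : ℕ) :
    M.t ω 0 (M.walk ξ n ω) ≤ ν (tr (M.walk ξ n ω)) +
      ∑ k ∈ Finset.range n, g (M.θ (M.walk ξ k ω) ω) := by
  induction n with
  | zero => simp [PreLRM.walk, tr_zero, M.t_self]
  | succ n ih =>
    rw [Finset.sum_range_succ]
    have h0 : M.walk ξ (n + 1) ω = M.walk ξ n ω + ξ (M.θ (M.walk ξ n ω) ω) := rfl
    rw [h0]
    have h1 := M.t_tri ω 0 (M.walk ξ n ω) (M.walk ξ n ω + ξ (M.θ (M.walk ξ n ω) ω))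
    have h2 := M.t_shift (M.walk ξ n ω) ω 0 (ξ (M.θ (M.walk ξ n ω) ω))
    rw [zero_add, add_comm (ξ (M.θ (M.walk ξ n ω) ω)) (M.walk ξ n ω)] at h2
    have h3 := h n
    rw [h2] at h3
    have h4 : ν (tr (M.walk ξ n ω + ξ (M.θ (M.walk ξ n ω) ω))) =
        ν (tr (M.walk ξ n ω)) + ν (tr (ξ (M.θ (M.walk ξ n ω) ω))) := by
      rw [tr_add, map_add]
    linarith

theorem PreLRM.greedy (M : PreLRM d P) (ν : E d →ₗ[ℝ] ℝ) (p : E d) (hν : Supp M.μ ν p)
    (ρ R : ℝ) (hρ : 0 ≤ ρ) (hR : 0 ≤ R) (ξ : Ω → V d) (S : Finset (V d)) (hS : ∀ ω, ξ ω ∈ S)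
    (hξ : ∀ b, MeasurableSet[M.F (bl 0 R)] (ξ ⁻¹' {b}))
    (hadv : ∀ ω, ∀ z ∈ bl (0 : V d) R, ν (tr z) < ν (tr (ξ ω)) - ρ)
    (g : Ω → ℝ) (hg : Measurable[M.F {z | -ρ ≤ ν (tr z)}] g) (hgi : Integrable g P)
    (hle : ∀ᵐ ω ∂P, M.t ω 0 (ξ ω) ≤ ν (tr (ξ ω)) + g ω) : 0 ≤ ∫ ω, g ω ∂P := by
  set B : ℝ := 1 + ∑ s ∈ S, nm s with hBdef
  have hSn : ∀ s ∈ S, nm s ≤ ∑ s ∈ S, nm s := fun s hs =>
    Finset.single_le_sum (f := fun s => nm s) (fun i _ => nm_nonneg i) hs
  have hB1 : 1 ≤ B := by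
    have : 0 ≤ ∑ s ∈ S, nm s := Finset.sum_nonneg fun i _ => nm_nonneg i
    linarith
  have hBξ : ∀ ω, nm (ξ ω) ≤ B := fun ω => (hSn _ (hS ω)).trans (by linarith)
  have hB0 : 0 < B := by linarith
  obtain ⟨hCM, -, -⟩ := M.isNm.norm_p hν
  have hI := M.walk_integral ν ρ R hρ hR ξ S hS hξ hadv g hg hgi
  have hae := M.walk_ae ξ _ hle
  -- the main inequality for fixed `ε` and `n`
  have hmain : ∀ ε : ℝ, 0 < ε → ∀ n : ℕ, 1 ≤ n →
      -(ε * B) - M.CM * B * P.real {ω | ∃ z : V d, nm z ≤ n * B ∧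
        M.t ω 0 z < M.μ (tr z) - ε * (n * B)} ≤ ∫ ω, g ω ∂P := by
    intro ε hε n hn
    set A : Set Ω := {ω | ∃ z : V d, nm z ≤ n * B ∧ M.t ω 0 z < M.μ (tr z) - ε * (n * B)} with hA
    set T : Set Ω := toMeasurable P A with hT
    have hTm : MeasurableSet T := measurableSet_toMeasurable P A
    have hTA : P.real T = P.real A := by
      rw [measureReal_def, measureReal_def, hT, measure_toMeasurable]
    have hn0 : (0 : ℝ) < n := by exact_mod_cast hn
    have hpt : ∀ᵐ ω ∂P, -(ε * (n * B)) - T.indicator (fun _ => M.CM * (n * B)) ω ≤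
        ∑ k ∈ Finset.range n, g (M.θ (M.walk ξ k ω) ω) := by
      filter_upwards [hae] with ω hω
      have h1 := greedy_t_le M ν ξ g ω hω n
      have h2 := greedy_nm_walk M ξ B hBξ n ω
      by_cases hAω : ω ∈ A
      · have h3 : ω ∈ T := subset_toMeasurable P A hAω
        rw [indicator_of_mem h3]
        have h4 := M.t_nonneg ω 0 (M.walk ξ n ω)
        have h5 := M.isNm.abs_le hν (tr (M.walk ξ n ω))
        have h6 : ν (tr (M.walk ξ n ω)) ≤ M.CM * (n * B) :=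
          (le_abs_self _).trans (h5.trans (mul_le_mul_of_nonneg_left h2 hCM.le))
        have h7 : 0 ≤ ε * (n * B) := by positivity
        linarith
      · have h3 : M.μ (tr (M.walk ξ n ω)) - ε * (n * B) ≤ M.t ω 0 (M.walk ξ n ω) := by
          by_contra hlt
          exact hAω ⟨M.walk ξ n ω, h2, not_le.1 hlt⟩
        have h4 := hν.1 (tr (M.walk ξ n ω))
        have h5 : 0 ≤ T.indicator (fun _ => M.CM * (n * B)) ω :=
          indicator_nonneg (fun _ _ => by positivity) ω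
        linarith
    have hint : Integrable (fun ω => -(ε * (n * B)) -
        T.indicator (fun _ => M.CM * (n * B)) ω) P :=
      (integrable_const _).sub ((integrable_const _).indicator hTm)
    have hint2 : Integrable (fun ω => ∑ k ∈ Finset.range n, g (M.θ (M.walk ξ k ω) ω)) P :=
      integrable_finsetSum _ fun k _ => (hI k).1
    have h1 := integral_mono_ae hint hint2 hpt
    rw [integral_finsetSum _ fun k _ => (hI k).1,
      integral_sub (integrable_const _) ((integrable_const _).indicator hTm),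
      integral_indicator_const _ hTm, integral_const] at h1
    simp only [(hI _).2, Finset.sum_const, Finset.card_range, nsmul_eq_mul, smul_eq_mul,
      probReal_univ, one_mul] at h1
    rw [hTA] at h1
    have h2 : n * (-(ε * B) - M.CM * B * P.real A) ≤ n * ∫ ω, g ω ∂P := by
      calc n * (-(ε * B) - M.CM * B * P.real A)
          = -(ε * (n * B)) - P.real A * (M.CM * (n * B)) := by ring
        _ ≤ _ := h1
    exact le_of_mul_le_mul_left h2 hn0
  -- let `n → ∞`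
  have hlim : ∀ ε : ℝ, 0 < ε → -(ε * B) ≤ ∫ ω, g ω ∂P := by
    intro ε hε
    have h1 : Tendsto (fun n : ℕ => (n : ℝ) * B) atTop atTop :=
      tendsto_natCast_atTop_atTop.atTop_mul_const hB0
    have h2 := (M.S1low ε hε).comp h1
    have h3 : Tendsto (fun n : ℕ => -(ε * B) - M.CM * B * P.real {ω | ∃ z : V d, nm z ≤ n * B ∧
        M.t ω 0 z < M.μ (tr z) - ε * (n * B)}) atTop (𝓝 (-(ε * B) - M.CM * B * 0)) :=
      tendsto_const_nhds.sub (h2.const_mul _)
    rw [mul_zero, sub_zero] at h3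
    exact le_of_tendsto h3 (eventually_atTop.2 ⟨1, fun n hn => hmain ε hε n hn⟩)
  by_contra hneg
  rw [not_le] at hneg
  have h1 := hlim (-(∫ ω, g ω ∂P) / (2 * B)) (by
    apply div_pos (by linarith) (by positivity))
  have h2 : -(∫ ω, g ω ∂P) / (2 * B) * B = -(∫ ω, g ω ∂P) / 2 := by
    field_simp
  rw [h2] at h1
  linarith

end FPPX
end

section

/-! Tubes: definition. -/

namespace FPPX

open MeasureTheory ProbabilityTheory Filter Set
open scoped Topology

variable {d : ℕ} {Ω : Type} [MeasurableSpace Ω] {P : Measure Ω} [IsProbabilityMeasure P]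

/-- the tube around the segment from `u` to `u + z` -/
def PreLRM.tube (M : PreLRM d P) (u z : V d) (s : ℝ) : Set (V d) :=
  {x | M.μ (tr (x - u)) + M.μ (tr (u + z - x)) ≤ M.μ (tr z) + s}

end FPPX
end

section

/-! Tubes: one tube. -/

namespace FPPX

open MeasureTheory ProbabilityTheory Filter Set
open scoped Topology

variable {d : ℕ} {Ω : Type} [MeasurableSpace Ω] {P : Measure Ω} [IsProbabilityMeasure P]

/-- the deterministic part: on the good events the tube event holds -/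
private lemma TubA_det (M : LRM d P) {κ e m n A Q : ℝ} {ω : Ω} {z : V d}
    (hchain : ω ∈ M.ChainGood n e) (hz : nm z ≤ A * m) (hAn : A * m ≤ n) (hn0 : 0 < n)
    (hlin : M.t ω 0 z ≤ M.C1 * (A * m))
    (hlow : ∀ v : V d, m ≤ nm v → M.c0 * nm v ≤ M.t ω 0 v)
    (h0 : ∀ v : V d, nm v ≤ n → |M.t ω 0 v - M.μ (tr v)| ≤ n ^ κ)
    (h1 : ∀ v : V d, nm (v - z) ≤ n → |M.t ω z v - M.μ (tr (v - z))| ≤ n ^ κ)
    (hQ : M.C1 * (A * m) + 3 * n ^ e ≤ M.c0 * Q) (hmQ : m ≤ Q) (hQn : Q + A * m ≤ n)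
    (hsmall : (3 + 2 * M.CM) * n ^ e ≤ n ^ κ) (hsmall2 : 3 * n ^ e ≤ n ^ κ) :
    ω ∈ M.LE (M.tube 0 z (4 * n ^ κ)) 0 z (M.μ (tr z) + 2 * n ^ κ) := by
  have hzn : nm z ≤ n := hz.trans hAn
  obtain ⟨l, x, s, hx0, hxl, -, hs0, hsl, hst, hK⟩ := hchain 0 z (by rw [nm_zero]; exact hn0.le) hzn
  have htz : M.t ω 0 z ≤ M.μ (tr z) + n ^ κ := by
    have := (abs_le.mp (h0 z hzn)).2
    linarith
  have hne : 0 ≤ n ^ e := Real.rpow_nonneg hn0.le _
  -- location of the chain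
  have hloc : ∀ i ≤ l, nm (x i) ≤ Q ∧ M.t ω 0 (x i) + M.t ω (x i) z ≤ M.t ω 0 z + 3 * n ^ e := by
    intro i hi
    have e1 := hst 0 i (Nat.zero_le _) hi
    have e2 := hst i l hi le_rfl
    rw [hx0] at e1
    rw [hxl] at e2
    have e3 : M.t ω 0 (x i) + M.t ω (x i) z ≤ M.t ω 0 z + 3 * n ^ e := by linarith
    refine ⟨?_, e3⟩
    by_contra hcon
    push Not at hcon
    have e4 := hlow (x i) (hmQ.trans hcon.le)
    have e5 := M.t_nonneg ω (x i) z
    have e6 : M.c0 * Q < M.c0 * nm (x i) := mul_lt_mul_of_pos_left hcon M.c0_pos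
    linarith
  have hmem := hK (M.tube 0 z (4 * n ^ κ)) (by
    intro i hi w hw
    obtain ⟨hxi, hti⟩ := hloc i hi
    have hxn : nm (x i) ≤ n := by
      have := nm_nonneg z
      linarith
    have hxz : nm (x i - z) ≤ n := (nm_sub_le _ _).trans (by linarith)
    have f1 := (abs_le.mp (h0 (x i) hxn)).1
    have f2 := (abs_le.mp (h1 (x i) hxz)).1
    have f3 : M.t ω z (x i) = M.t ω (x i) z := M.t_symm _ _ _
    have f4 : M.μ (tr (x i - z)) = M.μ (tr (z - x i)) := by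
      rw [← neg_sub z (x i), tr_neg, M.mu_neg]
    have g1 := (abs_le.mp (M.isNm.sub_le (tr w) (tr (x i)))).2
    have g2 := (abs_le.mp (M.isNm.sub_le (tr (z - w)) (tr (z - x i)))).2
    have g3 : ‖tr w - tr (x i)‖ = nm (w - x i) := by rw [← tr_sub]; rfl
    have g4 : ‖tr (z - w) - tr (z - x i)‖ = nm (w - x i) := by
      rw [← tr_sub, ← nm_sub_comm (x i) w]
      unfold nm
      congr 2
      abel
    rw [g3] at g1
    rw [g4] at g2
    have hCM : 0 ≤ M.CM * nm (w - x i) := by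
      have h := M.isNm.ub (tr (w - x i))
      have h' := M.isNm.lb (tr (w - x i))
      have h'' : 0 ≤ M.cm * ‖tr (w - x i)‖ := mul_nonneg M.isNm.cpos.le (norm_nonneg _)
      exact h''.trans (h'.trans h)
    have hCM2 : 2 * (M.CM * nm (w - x i)) ≤ 2 * M.CM * n ^ e ∨ nm (w - x i) = 0 := by
      rcases (nm_nonneg (w - x i)).eq_or_lt with h | h
      · exact Or.inr h.symm
      · left
        have hCMpos : 0 ≤ M.CM := by
          by_contra hc
          push Not at hc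
          have := mul_neg_of_neg_of_pos hc h
          linarith
        nlinarith
    show M.μ (tr (w - 0)) + M.μ (tr (0 + z - w)) ≤ M.μ (tr z) + 4 * n ^ κ
    rw [sub_zero, zero_add]
    rw [f3, f4] at f2
    have hnk : 0 ≤ n ^ κ := Real.rpow_nonneg hn0.le _
    rcases hCM2 with h | h
    · linarith
    · rw [h, mul_zero] at g1 g2
      linarith)
  exact M.LE_mono _ _ 0 z _ _ subset_rfl (by linarith) hmem

theorem LRM.tube_prob (M : LRM d P) {κ : ℝ} (hκ : 0 < κ) (hA : M.HypA κ) (A : ℝ) (hA1 : 1 ≤ A) :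
    ∃ C5 : ℝ, 1 ≤ C5 ∧ ∀ᶠ m : ℝ in atTop, ∀ z u : V d, nm z ≤ A * m →
      P.real (M.LE (M.tube u z (4 * (C5 * m) ^ κ)) u (u + z)
        (M.μ (tr z) + 2 * (C5 * m) ^ κ))ᶜ ≤ 1 / 4 := by
  have hcm := M.isNm.cpos
  have hc0 := M.c0_pos
  have hC1 := M.one_le_C1
  obtain ⟨Q, hQ⟩ : ∃ Q, Q = 2 * M.C1 * A / M.c0 + 1 := ⟨_, rfl⟩
  have hQ1 : 1 ≤ Q := by
    rw [hQ]
    have : 0 ≤ 2 * M.C1 * A / M.c0 := by positivity
    linarith
  obtain ⟨C5, hC5⟩ : ∃ C5, C5 = Q + A := ⟨_, rfl⟩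
  have hC51 : 1 ≤ C5 := by linarith
  obtain ⟨e, he⟩ : ∃ e, e = min κ 1 / 2 := ⟨_, rfl⟩
  have hmin : 0 < min κ 1 := lt_min hκ one_pos
  have he0 : 0 < e := by rw [he]; positivity
  have heκ : e < κ := by
    rw [he]
    have := min_le_left κ (1 : ℝ)
    linarith
  have he1 : e < 1 := by
    rw [he]
    have := min_le_right κ (1 : ℝ)
    linarith
  refine ⟨C5, hC51, ?_⟩
  have htend : Tendsto (fun m : ℝ => C5 * m) atTop atTop :=
    tendsto_id.const_mul_atTop (by linarith)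
  have n1 := ((M.chain e he0).comp_rpow (a := 1) (c := C5) one_pos (by linarith)).lt
    (δ := 1 / 20) (by norm_num)
  have n2 := (hA.comp htend).eventually (Iio_mem_nhds (show (0 : ℝ) < 1 / 20 by norm_num))
  have n3 := M.linlow.lt (δ := 1 / 20) (by norm_num)
  have htendA : Tendsto (fun m : ℝ => A * m) atTop atTop :=
    tendsto_id.const_mul_atTop (by linarith)
  have n4 := htendA.eventually (M.up_lin 1)
  have r1 := htend.eventually (ev_rpow_le (3 + 2 * M.CM) (B := 1) one_pos heκ)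
  have r2 := htend.eventually (ev_rpow_le 3 (B := 1) one_pos heκ)
  have r3 := htend.eventually (ev_rpow_le 3 (B := M.C1 * A / C5) (by positivity) he1)
  filter_upwards [n1, n2, n3, n4, r1, r2, r3, eventually_ge_atTop 20] with
    m k1 k2 k3 k4 s1 s2 s3 hm20 z u hz
  have hm0 : 0 < m := by linarith
  have hn0 : 0 < C5 * m := by positivity
  have k2' : P.real {ω | ∃ v : V d, nm v ≤ C5 * m ∧
      (C5 * m) ^ κ < |M.t ω 0 v - M.μ (tr v)|} < 1 / 20 := k2
  rw [Real.rpow_one] at k1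
  rw [one_mul] at s1 s2
  rw [Real.rpow_one] at s3
  have s3' : 3 * (C5 * m) ^ e ≤ M.C1 * (A * m) := by
    refine s3.trans (le_of_eq ?_)
    field_simp
  -- reduction to the origin
  have hsh : sh u (M.tube 0 z (4 * (C5 * m) ^ κ)) = M.tube u z (4 * (C5 * m) ^ κ) := by
    ext w
    have e1 : w - u - 0 = w - u := sub_zero _
    have e2 : 0 + z - (w - u) = u + z - w := by abel
    show M.μ (tr (w - u - 0)) + M.μ (tr (0 + z - (w - u))) ≤ _ ↔
      M.μ (tr (w - u)) + M.μ (tr (u + z - w)) ≤ _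
    rw [e1, e2]
  have hpre : M.θ u ⁻¹' (M.LE (M.tube 0 z (4 * (C5 * m) ^ κ)) 0 z
      (M.μ (tr z) + 2 * (C5 * m) ^ κ))ᶜ = (M.LE (M.tube u z (4 * (C5 * m) ^ κ)) u (u + z)
        (M.μ (tr z) + 2 * (C5 * m) ^ κ))ᶜ := by
    rw [preimage_compl, M.LE_shift, hsh, zero_add, add_comm z u]
  rw [← hpre]
  refine (real_preimage_le M.toPreLRM u _).trans ?_
  -- the bad events
  have hsub : (M.LE (M.tube 0 z (4 * (C5 * m) ^ κ)) 0 z (M.μ (tr z) + 2 * (C5 * m) ^ κ))ᶜ ⊆
      (M.ChainGood (C5 * m) e)ᶜ ∪ ({ω | ∃ v : V d, nm v ≤ C5 * m ∧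
        (C5 * m) ^ κ < |M.t ω 0 v - M.μ (tr v)|} ∪ (M.θ z ⁻¹' {ω | ∃ v : V d, nm v ≤ C5 * m ∧
        (C5 * m) ^ κ < |M.t ω 0 v - M.μ (tr v)|} ∪ ({ω | ∃ v, m ≤ nm v ∧
          M.t ω 0 v < M.c0 * nm v} ∪ {ω | M.C1 * (A * m) < M.t ω 0 z}))) := by
    intro ω hω
    by_contra hcon
    simp only [mem_union, not_or] at hcon
    obtain ⟨b1, b2, b3, b4, b5⟩ := hcon
    apply hω
    simp only [mem_compl_iff, not_not] at b1
    have h0 : ∀ v : V d, nm v ≤ C5 * m → |M.t ω 0 v - M.μ (tr v)| ≤ (C5 * m) ^ κ := by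
      intro v hv
      by_contra hc
      push Not at hc
      exact b2 ⟨v, hv, hc⟩
    have h1 : ∀ v : V d, nm (v - z) ≤ C5 * m →
        |M.t ω z v - M.μ (tr (v - z))| ≤ (C5 * m) ^ κ := by
      intro v hv
      by_contra hc
      push Not at hc
      refine b3 ⟨v - z, hv, ?_⟩
      rw [M.t_shift, zero_add, sub_add_cancel]
      exact hc
    have h2 : ∀ v : V d, m ≤ nm v → M.c0 * nm v ≤ M.t ω 0 v := by
      intro v hv
      by_contra hc
      push Not at hc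
      exact b4 ⟨v, hv, hc⟩
    have h3 : M.t ω 0 z ≤ M.C1 * (A * m) := by
      by_contra hc
      push Not at hc
      exact b5 hc
    refine TubA_det M (A := A) (Q := Q * m) b1 hz ?_ hn0 h3 h2 h0 h1 ?_ ?_ ?_ s1 s2
    · rw [hC5]; nlinarith
    · have : M.c0 * (Q * m) = 2 * (M.C1 * (A * m)) + M.c0 * m := by
        rw [hQ]; field_simp
      rw [this]
      have : 0 < M.c0 * m := by positivity
      linarith
    · nlinarith
    · rw [hC5]; nlinarith
  refine (measureReal_mono hsub).trans ?_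
  refine (measureReal_union_le _ _).trans ?_
  have e1 := measureReal_union_le (μ := P) {ω | ∃ v : V d, nm v ≤ C5 * m ∧
        (C5 * m) ^ κ < |M.t ω 0 v - M.μ (tr v)|} (M.θ z ⁻¹' {ω | ∃ v : V d, nm v ≤ C5 * m ∧
        (C5 * m) ^ κ < |M.t ω 0 v - M.μ (tr v)|} ∪ ({ω | ∃ v, m ≤ nm v ∧
          M.t ω 0 v < M.c0 * nm v} ∪ {ω | M.C1 * (A * m) < M.t ω 0 z}))
  have e2 := measureReal_union_le (μ := P) (M.θ z ⁻¹' {ω | ∃ v : V d, nm v ≤ C5 * m ∧
        (C5 * m) ^ κ < |M.t ω 0 v - M.μ (tr v)|}) ({ω | ∃ v, m ≤ nm v ∧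
          M.t ω 0 v < M.c0 * nm v} ∪ {ω | M.C1 * (A * m) < M.t ω 0 z})
  have e3 := measureReal_union_le (μ := P) {ω | ∃ v, m ≤ nm v ∧
          M.t ω 0 v < M.c0 * nm v} {ω | M.C1 * (A * m) < M.t ω 0 z}
  have e4 := real_preimage_le M.toPreLRM z {ω | ∃ v : V d, nm v ≤ C5 * m ∧
        (C5 * m) ^ κ < |M.t ω 0 v - M.μ (tr v)|}
  have e5 := k4 z hz
  have e6 : (A * m) ^ (-((1 : ℕ) : ℝ)) ≤ 1 / 20 := by
    rw [Nat.cast_one, Real.rpow_neg_one, ← one_div]
    apply one_div_le_one_div_of_le (by norm_num)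
    nlinarith
  have k1' : P.real (M.ChainGood (C5 * m) e)ᶜ < 1 / 20 := k1
  have k3' : P.real {ω | ∃ v, m ≤ nm v ∧ M.t ω 0 v < M.c0 * nm v} < 1 / 20 := k3
  have e5' := e5.trans e6
  clear e5 e6 k1 k2 k3 hsub
  linarith

end FPPX
end
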