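import Pool.Agent.Lib.MP_fa364e_pr.Mg.G002
import Pool.Agent.Lib.MP_fa364e_pr.Mg.G003
import Pool.Agent.Lib.MP_fa364e_pr.Mg.G001
import Pool.Agent.Lib.MP_fa364e_pr.Mg.G006

section

/-! Multiscale lower bound: deterministic part. -/

namespace FPPX

open MeasureTheory ProbabilityTheory Filter Set
open scoped Topology

variable {d : ℕ} {Ω : Type} [MeasurableSpace Ω] {P : Measure Ω} [IsProbabilityMeasure P]

/-- the conditions on `r` used below -/
private structure LowC_Cond (c CM C2 β γ δ D Λ0 : ℝ) (N : ℝ) (r m τ : ℝ) : Prop where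
  r1 : 1 ≤ r
  m1 : 1 ≤ m
  τ0 : 0 < τ
  far : C2 * r + 3 / c * m ≤ r ^ (2 : ℝ)
  a1 : r ^ (3 * δ / 2) ≤ r ^ δ * m ^ β
  a2 : r ^ (3 * δ / 2) ≤ m ^ β
  a3 : C2 * r ^ δ * τ ≤ m ^ β
  a4 : m ^ β * (4 * N + 6) ≤ r ^ (β * (1 - δ / 2))
  a5 : 2 * (D * m) ^ γ + (D * m) ^ (γ / 2) ≤ τ / 2
  a6 : τ ≤ m
  a7 : CM * (C2 * r) ≤ Λ0 * r ^ (3 * δ) * m
  a8 : (8 * C2 + 1) * (r ^ δ * m ^ β) ≤ Λ0 * r ^ (3 * δ) * (τ / 8)
  a9 : (2 * m) ^ β ≤ 4 * m ^ β

private lemma LowC_cond {c CM C2 β γ δ D Λ0 N : ℝ} (hc : 0 < c) (hγ : 0 < γ)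
    (hβ : β ≤ 1 + δ) (hδ : 0 < δ) (hδ4 : δ ≤ 1 / 4) (hδγ : 4 * δ ≤ γ)
    (hδβ : 8 * δ ≤ β - γ) (hC2 : 1 ≤ C2) (hD : 0 < D) (hΛ1 : CM * C2 ≤ Λ0)
    (hΛ2 : 8 * (8 * C2 + 1) ≤ Λ0) :
    ∀ᶠ r : ℝ in atTop, LowC_Cond c CM C2 β γ δ D Λ0 N r (r ^ (1 - δ))
      ((r ^ (1 - δ)) ^ β * r ^ (-(2 * δ))) := by
  have hβ0 : 12 * δ ≤ β := by linarith
  have hβp : 0 < β := by linarith
  have hx : 9 * δ ≤ (1 - δ) * β := by nlinarith
  have E2 : ∀ᶠ r : ℝ in atTop, (C2 + 3 / c) * r ^ (1 : ℝ) ≤ 1 * r ^ (2 : ℝ) :=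
    ev_rpow_le _ one_pos (by norm_num)
  have E3 : ∀ᶠ r : ℝ in atTop, C2 ≤ 1 * r ^ δ := ev_const_le _ one_pos hδ
  have E4 : ∀ᶠ r : ℝ in atTop, (4 * N + 6) ≤ 1 * r ^ (β * (δ / 2)) :=
    ev_const_le _ one_pos (by positivity)
  have hexp : (1 - δ) * γ < (1 - δ) * β + -(2 * δ) := by nlinarith
  have hexp2 : (1 - δ) * (γ / 2) < (1 - δ) * β + -(2 * δ) := by nlinarith
  have E5 : ∀ᶠ r : ℝ in atTop, (2 * D ^ γ) * r ^ ((1 - δ) * γ) ≤
      1 / 4 * r ^ ((1 - δ) * β + -(2 * δ)) := ev_rpow_le _ (by norm_num) hexp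
  have E6 : ∀ᶠ r : ℝ in atTop, (D ^ (γ / 2)) * r ^ ((1 - δ) * (γ / 2)) ≤
      1 / 4 * r ^ ((1 - δ) * β + -(2 * δ)) := ev_rpow_le _ (by norm_num) hexp2
  filter_upwards [E2, E3, E4, E5, E6, eventually_ge_atTop 1] with r e2 e3 e4 e5 e6 h1
  have h0 : 0 < r := by linarith
  have hm1 : 1 ≤ r ^ (1 - δ) := Real.one_le_rpow h1 (by linarith)
  have hm0 : 0 < r ^ (1 - δ) := by linarith
  have hmr : r ^ (1 - δ) ≤ r := by
    calc r ^ (1 - δ) ≤ r ^ (1 : ℝ) := Real.rpow_le_rpow_of_exponent_le h1 (by linarith)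
      _ = r := Real.rpow_one r
  have hmβ : (r ^ (1 - δ)) ^ β = r ^ ((1 - δ) * β) := (Real.rpow_mul h0.le _ _).symm
  have hmβ0 : 0 < (r ^ (1 - δ)) ^ β := Real.rpow_pos_of_pos hm0 _
  have hτ : (r ^ (1 - δ)) ^ β * r ^ (-(2 * δ)) = r ^ ((1 - δ) * β + -(2 * δ)) := by
    rw [hmβ, ← Real.rpow_add h0]
  refine ⟨h1, hm1, ?_, ?_, ?_, ?_, ?_, ?_, ?_, ?_, ?_, ?_, ?_⟩
  · positivity
  · rw [Real.rpow_one] at e2
    have : 3 / c * r ^ (1 - δ) ≤ 3 / c * r := by gcongr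
    linarith
  · rw [hmβ, ← Real.rpow_add h0]
    exact Real.rpow_le_rpow_of_exponent_le h1 (by linarith)
  · rw [hmβ]
    exact Real.rpow_le_rpow_of_exponent_le h1 (by linarith)
  · have h2 : r ^ (-(2 * δ)) = (r ^ δ)⁻¹ * (r ^ δ)⁻¹ := by
      rw [← Real.rpow_neg h0.le, ← Real.rpow_add h0]
      congr 1
      ring
    have hrδ : 0 < r ^ δ := Real.rpow_pos_of_pos h0 _
    rw [h2]
    have h3 : C2 * r ^ δ * ((r ^ (1 - δ)) ^ β * ((r ^ δ)⁻¹ * (r ^ δ)⁻¹)) =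
        (r ^ (1 - δ)) ^ β * (C2 * (r ^ δ)⁻¹) := by
      field_simp
    rw [h3]
    have h4 : C2 * (r ^ δ)⁻¹ ≤ 1 := by
      rw [← div_eq_mul_inv, div_le_one hrδ]
      linarith
    nlinarith
  · have h2 : r ^ (β * (1 - δ / 2)) = (r ^ (1 - δ)) ^ β * r ^ (β * (δ / 2)) := by
      rw [hmβ, ← Real.rpow_add h0]
      congr 1
      ring
    rw [h2]
    exact mul_le_mul_of_nonneg_left (by linarith) hmβ0.le
  · rw [hτ, Real.mul_rpow hD.le hm0.le, Real.mul_rpow hD.le hm0.le, ← Real.rpow_mul h0.le,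
      ← Real.rpow_mul h0.le]
    linarith
  · rw [hτ]
    refine Real.rpow_le_rpow_of_exponent_le h1 ?_
    nlinarith
  · have h2 : r ^ (3 * δ) * r ^ (1 - δ) = r * r ^ (2 * δ) := by
      rw [← Real.rpow_add h0]
      have : r * r ^ (2 * δ) = r ^ (1 : ℝ) * r ^ (2 * δ) := by rw [Real.rpow_one]
      rw [this, ← Real.rpow_add h0]
      congr 1
      ring
    have h3 : 1 ≤ r ^ (2 * δ) := Real.one_le_rpow h1 (by linarith)
    have hΛ0 : 0 < Λ0 := by linarith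
    rw [mul_assoc Λ0, h2]
    calc CM * (C2 * r) = (CM * C2) * r := by ring
      _ ≤ Λ0 * r := mul_le_mul_of_nonneg_right hΛ1 h0.le
      _ ≤ Λ0 * (r * r ^ (2 * δ)) := by
          apply mul_le_mul_of_nonneg_left _ hΛ0.le
          nlinarith
  · have h2 : r ^ (3 * δ) * r ^ (-(2 * δ)) = r ^ δ := by
      rw [← Real.rpow_add h0]
      congr 1
      ring
    have hrδ : 0 < r ^ δ := Real.rpow_pos_of_pos h0 _
    have h3 : Λ0 * r ^ (3 * δ) * ((r ^ (1 - δ)) ^ β * r ^ (-(2 * δ)) / 8) =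
        Λ0 / 8 * (r ^ δ * (r ^ (1 - δ)) ^ β) := by
      rw [← h2]
      ring
    rw [h3]
    apply mul_le_mul_of_nonneg_right _ (by positivity)
    linarith
  · rw [Real.mul_rpow (by norm_num) hm0.le]
    apply mul_le_mul_of_nonneg_right _ hmβ0.le
    calc (2 : ℝ) ^ β ≤ 2 ^ (2 : ℝ) := Real.rpow_le_rpow_of_exponent_le (by norm_num) (by linarith)
      _ = 4 := by norm_num

private lemma LowC_sum_mu (M : PreLRM d P) (a : ℕ → V d) (i j : ℕ) (hij : i ≤ j) :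
    M.μ (tr (a j - a i)) ≤ ∑ l ∈ Finset.Ico i j, M.μ (tr (a (l + 1) - a l)) := by
  induction j, hij using Nat.le_induction with
  | base =>
    have h0 : M.μ 0 = 0 := by
      have := M.isNm.smul 0 (0 : E d)
      simpa using this
    simp [tr_zero, h0]
  | succ n hn ih =>
    rw [Finset.sum_Ico_succ_top hn]
    have h1 : a (n + 1) - a i = (a n - a i) + (a (n + 1) - a n) := by abel
    rw [h1, tr_add]
    exact (M.isNm.add _ _).trans (by linarith)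

private lemma LowC_sum_nu (ν : E d →ₗ[ℝ] ℝ) (a : ℕ → V d) (k : ℕ) :
    ∑ l ∈ Finset.range k, ν (tr (a (l + 1) - a l)) = ν (tr (a k)) - ν (tr (a 0)) := by
  induction k with
  | zero => simp
  | succ n ih =>
    rw [Finset.sum_range_succ, ih, tr_sub, map_sub]
    ring

private theorem LowC_det (M : LRM d P) {γ β δ C2 Λ0 : ℝ} {b L : ℕ} (hγ : 0 < γ)
    (hβ0 : 0 < β) (hδ : 0 < δ) (hC2 : 1 ≤ C2) (hL : 1 ≤ L)
    (hL2 : C2 * (2 * (M.Cl * (6 / M.cm + 2)) + 6 / M.cm) + 1 ≤ L)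
    {r m τ : ℝ} (hm : m = r ^ (1 - δ)) (hτ : τ = m ^ β * r ^ (-(2 * δ)))
    (hc : LowC_Cond M.cm M.CM C2 β γ δ (6 / M.cm + 2) Λ0 (b * L) r m τ) (ω : Ω)
    (hcut : M.CutProp ω (1 - δ) (δ / 4) 1 C2 r)
    (hlow : M.LowAt ω (r ^ (2 : ℝ)) (2 * m) β)
    (hup : M.UpAt ω (r ^ (2 : ℝ)) ((6 / M.cm + 2) * m) γ)
    (hloc : M.LocAt ω (r ^ (2 : ℝ)) ((6 / M.cm + 2) * m) (γ / 2))
    (ν : E d →ₗ[ℝ] ℝ) (p : E d) (hν : Supp M.μ ν p)
    (z : V d) (hz : nm z ≤ r) (hνz : ν (tr z) = M.μ (tr z))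
    (hfast : M.t ω 0 z < M.μ (tr z) - r ^ (β * (1 - δ / 2)))
    (G : Finset (V d))
    (hG : ∀ a : V d, |ν (tr a)| ≤ Λ0 * r ^ (3 * δ) * m →
      M.μ (tr a) - ν (tr a) ≤ Λ0 * r ^ (3 * δ) * (τ / 8) →
      (∃ A ∈ G, m ≤ ν (tr (a - A)) ∧ ν (tr (a - A)) ≤ 2 * m ∧
        M.μ (tr (a - A)) - ν (tr (a - A)) ≤ τ / 8) ∧
      (∃ B ∈ G, m ≤ ν (tr (B - a)) ∧ ν (tr (B - a)) ≤ 2 * m ∧
        M.μ (tr (B - a)) - ν (tr (B - a)) ≤ τ / 8)) :
    ∃ x : Fin b → V d, (∀ i, x i ∈ G) ∧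
      (∀ i j, i ≠ j → 2 * (M.Cl * ((6 / M.cm + 2) * m)) < nm (x i - x j)) ∧
      ∀ i, ω ∈ M.FE ν (6 / M.cm + 2) m (τ / 4) (x i) := by
  have hcm : 0 < M.cm := M.isNm.cpos
  have hr0 : 0 < r := by linarith [hc.r1]
  have hm0 : 0 < m := by linarith [hc.m1]
  obtain ⟨k, a, ha0, hk, hstep, hlast, hnorm, hsep, hsum, -, -⟩ := hcut z (by linarith)
  have e1 : 1 - (1 - δ) = δ := by ring
  have e2 : 1 - (1 - δ) + 2 * (δ / 4) = 3 * δ / 2 := by ring
  rw [e1] at hk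
  rw [e2] at hsum
  rw [← hm] at hstep hlast hsep
  have hQ0 : 0 ≤ (2 * m) ^ β := Real.rpow_nonneg (by linarith) _
  have h3c : 0 < 3 / M.cm * m := by positivity
  have hfarj : ∀ j, j ≤ k → nm (a j) ≤ r ^ (2 : ℝ) := fun j hj => by
    have := hnorm j hj
    have := hc.far
    linarith
  have hexc : ∀ x : E d, 0 ≤ M.μ x - ν x := fun x => by linarith [hν.1 x]
  -- lower bounds for the pieces
  have hpl : ∀ l, l < k → M.μ (tr (a (l + 1) - a l)) - (2 * m) ^ β ≤ M.t ω (a l) (a (l + 1)) :=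
    fun l hl => hlow (a l) (a (l + 1)) (hfarj l hl.le) (hstep l hl).2
  have hpk : M.μ (tr (z - a k)) - (2 * m) ^ β ≤ M.t ω (a k) z :=
    hlow (a k) z (hfarj k le_rfl) (by linarith)
  have htot : ∑ l ∈ Finset.range k, M.μ (tr (a (l + 1) - a l)) + M.μ (tr (z - a k)) ≤
      M.t ω 0 z + r ^ (3 * δ / 2) + (k + 1) * (2 * m) ^ β := by
    have h1 : ∑ l ∈ Finset.range k, (M.μ (tr (a (l + 1) - a l)) - (2 * m) ^ β) ≤
        ∑ l ∈ Finset.range k, M.t ω (a l) (a (l + 1)) :=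
      Finset.sum_le_sum fun l hl => hpl l (Finset.mem_range.1 hl)
    rw [Finset.sum_sub_distrib, Finset.sum_const, Finset.card_range, nsmul_eq_mul] at h1
    linarith
  -- confinement
  have hkk : ((k : ℝ) + 1) * (2 * m) ^ β ≤ 8 * C2 * (r ^ δ * m ^ β) := by
    have hrδ : 1 ≤ r ^ δ := Real.one_le_rpow hc.r1 hδ.le
    have hmβ : 0 < m ^ β := Real.rpow_pos_of_pos hm0 _
    have h1 : (k : ℝ) + 1 ≤ 2 * C2 * r ^ δ := by nlinarith
    calc ((k : ℝ) + 1) * (2 * m) ^ β ≤ (2 * C2 * r ^ δ) * (4 * m ^ β) :=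
          mul_le_mul h1 hc.a9 hQ0 (by positivity)
      _ = _ := by ring
  have hfast' : M.t ω 0 z < M.μ (tr z) := by
    have := Real.rpow_pos_of_pos hr0 (β * (1 - δ / 2))
    linarith
  have hconf : ∀ j, j ≤ k → M.μ (tr (a j)) - ν (tr (a j)) ≤ Λ0 * r ^ (3 * δ) * (τ / 8) := by
    intro j hj
    have h1 : M.μ (tr (a j)) ≤ ∑ l ∈ Finset.Ico 0 j, M.μ (tr (a (l + 1) - a l)) := by
      have := LowC_sum_mu M.toPreLRM a 0 j (Nat.zero_le j)
      rwa [ha0, sub_zero] at this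
    have h2 : M.μ (tr (z - a j)) ≤ ∑ l ∈ Finset.Ico j k, M.μ (tr (a (l + 1) - a l)) +
        M.μ (tr (z - a k)) := by
      have h3 := LowC_sum_mu M.toPreLRM a j k hj
      have h4 : z - a j = (a k - a j) + (z - a k) := by abel
      rw [h4, tr_add]
      exact (M.isNm.add _ _).trans (by linarith)
    have h5 : ∑ l ∈ Finset.Ico 0 j, M.μ (tr (a (l + 1) - a l)) +
        ∑ l ∈ Finset.Ico j k, M.μ (tr (a (l + 1) - a l)) =
        ∑ l ∈ Finset.range k, M.μ (tr (a (l + 1) - a l)) := by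
      rw [Finset.sum_Ico_consecutive _ (Nat.zero_le j) hj, Finset.range_eq_Ico]
    have h6 : ν (tr z) = ν (tr (a j)) + ν (tr (z - a j)) := by
      rw [← map_add, ← tr_add]
      congr 2
      abel
    have h7 := hexc (tr (z - a j))
    have h8 := hc.a1
    have h9 := hc.a8
    linarith
  have hcap : ∀ j, j ≤ k → |ν (tr (a j))| ≤ Λ0 * r ^ (3 * δ) * m := by
    intro j hj
    have h1 := M.isNm.abs_le hν (tr (a j))
    have h2 : 0 ≤ M.CM := by
      have := (M.isNm.norm_p hν).1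
      exact this.le
    have h3 : M.CM * ‖tr (a j)‖ ≤ M.CM * (C2 * r) :=
      mul_le_mul_of_nonneg_left (hnorm j hj) h2
    exact (h1.trans h3).trans hc.a7
  -- counting
  obtain ⟨Dl, hDl⟩ : ∃ Dl : ℕ → ℝ, Dl = fun l =>
      M.t ω (a l) (a (l + 1)) - ν (tr (a (l + 1) - a l)) := ⟨_, rfl⟩
  have hD1 : ∀ l, l < k → -((2 * m) ^ β) ≤ Dl l := by
    intro l hl
    rw [hDl]
    have h1 := hpl l hl
    have h2 := hexc (tr (a (l + 1) - a l))
    show -((2 * m) ^ β) ≤ M.t ω (a l) (a (l + 1)) - ν (tr (a (l + 1) - a l))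
    linarith
  have hD2 : ∑ l ∈ Finset.range k, Dl l ≤
      -(r ^ (β * (1 - δ / 2)) - r ^ (3 * δ / 2) - (2 * m) ^ β) := by
    rw [hDl, Finset.sum_sub_distrib, LowC_sum_nu, ha0, tr_zero, map_zero]
    have h6 : ν (tr z) = ν (tr (a k)) + ν (tr (z - a k)) := by
      rw [← map_add, ← tr_add]
      congr 2
      abel
    have h7 := hexc (tr (z - a k))
    linarith
  have hcnt := count_neg k Dl ((2 * m) ^ β) τ _ hQ0 hc.τ0.le hD1 hD2
  obtain ⟨I, hI⟩ : ∃ I, I = (Finset.range k).filter (fun l => Dl l < -τ) := ⟨_, rfl⟩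
  rw [← hI] at hcnt
  have hIb : b * L ≤ I.card := by
    have hmβ : 0 < m ^ β := Real.rpow_pos_of_pos hm0 _
    have h1 : (k : ℝ) * τ ≤ m ^ β := (mul_le_mul_of_nonneg_right hk hc.τ0.le).trans hc.a3
    have h2 : (I.card : ℝ) * (2 * m) ^ β ≤ (I.card : ℝ) * (4 * m ^ β) :=
      mul_le_mul_of_nonneg_left hc.a9 (Nat.cast_nonneg _)
    have h3 := hc.a4
    have h4 := hc.a2
    have h5 := hc.a9
    have h6 : m ^ β * ((b : ℝ) * L) ≤ m ^ β * (I.card : ℝ) := by nlinarith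
    have h7 := le_of_mul_le_mul_left h6 hmβ
    exact_mod_cast h7
  obtain ⟨f, hf, hfs⟩ := sep_indices I b L hL hIb
  have hfk : ∀ i, f i < k := fun i => by
    have := hf i
    rw [hI] at this
    exact Finset.mem_range.1 (Finset.mem_filter.1 this).1
  have hfD : ∀ i, M.t ω (a (f i)) (a (f i + 1)) < ν (tr (a (f i + 1) - a (f i))) - τ := fun i => by
    have := hf i
    rw [hI] at this
    have := (Finset.mem_filter.1 this).2
    rw [hDl] at this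
    have : M.t ω (a (f i)) (a (f i + 1)) - ν (tr (a (f i + 1) - a (f i))) < -τ := this
    linarith
  -- the points A
  have hA : ∀ i, ∃ A ∈ G, m ≤ ν (tr (a (f i) - A)) ∧ ν (tr (a (f i) - A)) ≤ 2 * m ∧
      M.μ (tr (a (f i) - A)) - ν (tr (a (f i) - A)) ≤ τ / 8 := fun i =>
    (hG (a (f i)) (hcap _ (hfk i).le) (hconf _ (hfk i).le)).1
  choose A hAG hA1 hA2 hA3 using hA
  have hnorm3 : ∀ x : E d, ν x ≤ 2 * m → M.μ x - ν x ≤ τ / 8 → ‖x‖ ≤ 3 / M.cm * m := by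
    intro x h1 h2
    have h3 := M.isNm.lb x
    have h4 := hc.a6
    rw [div_mul_eq_mul_div, le_div_iff₀ hcm]
    linarith
  have hAn : ∀ i, nm (a (f i) - A i) ≤ 3 / M.cm * m := fun i => hnorm3 _ (hA2 i) (hA3 i)
  refine ⟨A, hAG, ?_, ?_⟩
  · -- separation
    have key : ∀ i j, i < j → 2 * (M.Cl * ((6 / M.cm + 2) * m)) < nm (A j - A i) := by
      intro i j hij
      have h1 := hfs i j hij
      have h2 := hsep (f i) (f j) (by omega) (hfk j).le
      have h3 : (L : ℝ) ≤ (f j : ℝ) - f i := by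
        have : ((f i + L : ℕ) : ℝ) ≤ f j := by exact_mod_cast h1
        push_cast at this
        linarith
      have h4 : (L : ℝ) * m ≤ C2 * nm (a (f j) - a (f i)) :=
        (mul_le_mul_of_nonneg_right h3 hm0.le).trans h2
      have h5 : nm (a (f j) - a (f i)) ≤ nm (A j - A i) + 6 / M.cm * m := by
        have e : a (f j) - a (f i) = (a (f j) - A j) + ((A j - A i) + -(a (f i) - A i)) := by abel
        rw [e]
        have i1 := nm_add (a (f j) - A j) ((A j - A i) + -(a (f i) - A i))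
        have i2 := nm_add (A j - A i) (-(a (f i) - A i))
        have i3 := nm_neg (a (f i) - A i)
        have i4 := hAn i
        have i5 := hAn j
        have i6 : 6 / M.cm * m = 3 / M.cm * m + 3 / M.cm * m := by ring
        linarith
      have h6 : (C2 * (2 * (M.Cl * (6 / M.cm + 2)) + 6 / M.cm) + 1) * m ≤
          C2 * (nm (A j - A i) + 6 / M.cm * m) :=
        ((mul_le_mul_of_nonneg_right hL2 hm0.le).trans h4).trans
          (mul_le_mul_of_nonneg_left h5 (by linarith))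
      have h7 : C2 * (2 * (M.Cl * ((6 / M.cm + 2) * m))) < C2 * nm (A j - A i) := by
        have e : (C2 * (2 * (M.Cl * (6 / M.cm + 2)) + 6 / M.cm) + 1) * m =
            C2 * (2 * (M.Cl * ((6 / M.cm + 2) * m))) + C2 * (6 / M.cm * m) + m := by ring
        have e' : C2 * (nm (A j - A i) + 6 / M.cm * m) =
            C2 * nm (A j - A i) + C2 * (6 / M.cm * m) := by ring
        linarith
      exact lt_of_mul_lt_mul_left h7 (by linarith)
    intro i j hij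
    rcases lt_or_gt_of_ne hij with h | h
    · rw [nm_sub_comm]
      exact key i j h
    · exact key j i h
  · -- fast events
    intro i
    obtain ⟨B, -, hB1, hB2, hB3⟩ :=
      (hG (a (f i + 1)) (hcap _ (hfk i)) (hconf _ (hfk i))).2
    have hBn : nm (B - a (f i + 1)) ≤ 3 / M.cm * m := hnorm3 _ hB2 hB3
    have hs := (hstep (f i) (hfk i)).2
    have hAr : nm (A i) ≤ r ^ (2 : ℝ) := by
      have e : A i = a (f i) + -(a (f i) - A i) := by abel
      have i1 := nm_add (a (f i)) (-(a (f i) - A i))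
      rw [← e, nm_neg] at i1
      have i2 := hAn i
      have i3 := hnorm (f i) (hfk i).le
      have i4 := hc.far
      linarith
    have hD3 : 3 / M.cm * m ≤ (6 / M.cm + 2) * m := by
      have : (6 / M.cm + 2) * m = 3 / M.cm * m + 3 / M.cm * m + 2 * m := by ring
      linarith
    have hBA : nm (B - A i) ≤ (6 / M.cm + 2) * m := by
      have e : B - A i = (B - a (f i + 1)) + ((a (f i + 1) - a (f i)) + (a (f i) - A i)) := by abel
      rw [e]
      have i1 := nm_add (B - a (f i + 1)) ((a (f i + 1) - a (f i)) + (a (f i) - A i))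
      have i2 := nm_add (a (f i + 1) - a (f i)) (a (f i) - A i)
      have i3 := hAn i
      have : (6 / M.cm + 2) * m = 3 / M.cm * m + 3 / M.cm * m + 2 * m := by ring
      linarith
    have u1 := hup (A i) (a (f i)) hAr ((hAn i).trans hD3)
    have u2 := hup (a (f i + 1)) B (hfarj _ (hfk i)) (hBn.trans hD3)
    have u3 := hfD i
    have l1 := hloc (A i) B hAr hBA
    have t1 := M.t_tri ω (A i) (a (f i)) B
    have t2 := M.t_tri ω (a (f i)) (a (f i + 1)) B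
    have n1 : ν (tr (B - A i)) = ν (tr (B - a (f i + 1))) +
        (ν (tr (a (f i + 1) - a (f i))) + ν (tr (a (f i) - A i))) := by
      rw [← map_add, ← map_add, ← tr_add, ← tr_add]
      congr 2
      abel
    have a5 := hc.a5
    have k1 := hA3 i
    refine ⟨B - A i, hBA, ?_⟩
    have e : A i + (B - A i) = B := by abel
    rw [e]
    refine M.LE_mono _ _ _ _ _ _ subset_rfl ?_ l1
    linarith

/-- deterministic part: many separated fast blocks -/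
theorem LRM.low_det (M : LRM d P) {γ β δ : ℝ} (hγ : 0 < γ) (hγ1 : γ ≤ 1)
    (hβ : β ≤ 1 + δ) (hδ : 0 < δ) (hδ4 : δ ≤ 1 / 4)
    (hδγ : 4 * δ ≤ γ) (hδβ : 8 * (d + 1) * δ ≤ β - γ) (C2 : ℝ) (hC2 : 1 ≤ C2) :
    ∃ D Λ0 : ℝ, 0 < D ∧ 1 ≤ Λ0 ∧ ∀ b : ℕ, ∀ᶠ r : ℝ in atTop, ∀ ω : Ω,
      M.CutProp ω (1 - δ) (δ / 4) 1 C2 r →
      M.LowAt ω (r ^ (2 : ℝ)) (2 * r ^ (1 - δ)) β →
      M.UpAt ω (r ^ (2 : ℝ)) (D * r ^ (1 - δ)) γ →
      M.LocAt ω (r ^ (2 : ℝ)) (D * r ^ (1 - δ)) (γ / 2) →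
      ∀ (ν : E d →ₗ[ℝ] ℝ) (p : E d), Supp M.μ ν p →
      ∀ z : V d, nm z ≤ r → ν (tr z) = M.μ (tr z) →
      M.t ω 0 z < M.μ (tr z) - r ^ (β * (1 - δ / 2)) →
      ∀ G : Finset (V d),
        (∀ a : V d, |ν (tr a)| ≤ Λ0 * r ^ (3 * δ) * r ^ (1 - δ) →
          M.μ (tr a) - ν (tr a) ≤ Λ0 * r ^ (3 * δ) * ((r ^ (1 - δ)) ^ β * r ^ (-(2 * δ)) / 8) →
          (∃ A ∈ G, r ^ (1 - δ) ≤ ν (tr (a - A)) ∧ ν (tr (a - A)) ≤ 2 * r ^ (1 - δ) ∧
            M.μ (tr (a - A)) - ν (tr (a - A)) ≤ (r ^ (1 - δ)) ^ β * r ^ (-(2 * δ)) / 8) ∧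
          (∃ B ∈ G, r ^ (1 - δ) ≤ ν (tr (B - a)) ∧ ν (tr (B - a)) ≤ 2 * r ^ (1 - δ) ∧
            M.μ (tr (B - a)) - ν (tr (B - a)) ≤ (r ^ (1 - δ)) ^ β * r ^ (-(2 * δ)) / 8)) →
        ∃ x : Fin b → V d, (∀ i, x i ∈ G) ∧
          (∀ i j, i ≠ j → 2 * (M.Cl * (D * r ^ (1 - δ))) < nm (x i - x j)) ∧
          ∀ i, ω ∈ M.FE ν D (r ^ (1 - δ)) ((r ^ (1 - δ)) ^ β * r ^ (-(2 * δ)) / 4) (x i) := by
  have hcm : 0 < M.cm := M.isNm.cpos
  have hδβ' : 8 * δ ≤ β - γ := by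
    have h1 : (0 : ℝ) ≤ d := Nat.cast_nonneg d
    nlinarith
  have hD : 0 < 6 / M.cm + 2 := by positivity
  refine ⟨6 / M.cm + 2, |M.CM * C2| + 8 * (8 * C2 + 1), hD, ?_, ?_⟩
  · have := abs_nonneg (M.CM * C2)
    linarith
  · intro b
    obtain ⟨L, hL⟩ := exists_nat_ge (C2 * (2 * (M.Cl * (6 / M.cm + 2)) + 6 / M.cm) + 1)
    have hCl := M.one_le_Cl
    have hL1 : 1 ≤ L := by
      have h1 : (0 : ℝ) ≤ C2 * (2 * (M.Cl * (6 / M.cm + 2)) + 6 / M.cm) := by positivity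
      have h2 : (1 : ℝ) ≤ L := by linarith
      exact_mod_cast h2
    have hcond := LowC_cond (c := M.cm) (CM := M.CM) (N := (b : ℝ) * L) hcm hγ hβ hδ hδ4 hδγ
      hδβ' hC2 hD (Λ0 := |M.CM * C2| + 8 * (8 * C2 + 1))
      (by have := le_abs_self (M.CM * C2); linarith)
      (by have := abs_nonneg (M.CM * C2); linarith)
    filter_upwards [hcond] with r hr ω hcut hlow hup hloc ν p hν z hz hνz hfast G hG
    exact LowC_det M hγ (by linarith) hδ hC2 hL1 hL rfl rfl hr ω hcut hlow hup hloc ν p hν z hz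
      hνz hfast G hG

end FPPX
end

section

/-! Multiscale lower bound. -/

namespace FPPX

open MeasureTheory ProbabilityTheory Filter Set
open scoped Topology

variable {d : ℕ} {Ω : Type} [MeasurableSpace Ω] {P : Measure Ω} [IsProbabilityMeasure P]

/-- the good event of one scale -/
private def LowStepGood (M : LRM d P) (γ β δ C2 D r : ℝ) (ω : Ω) : Prop :=
  M.CutProp ω (1 - δ) (δ / 4) 1 C2 r ∧
  M.LowAt ω (r ^ (2 : ℝ)) (2 * r ^ (1 - δ)) β ∧
  M.UpAt ω (r ^ (2 : ℝ)) (D * r ^ (1 - δ)) γ ∧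
  M.LocAt ω (r ^ (2 : ℝ)) (D * r ^ (1 - δ)) (γ / 2)

private theorem LowStep_one (M : LRM d P) {γ β δ : ℝ} (hγ : 0 < γ) (hγ1 : γ ≤ 1)
    (hT : M.T1 γ) (hβ : β ≤ 1 + δ) (hδ : 0 < δ) (hδ4 : δ ≤ 1 / 4)
    (hδγ : 4 * δ ≤ γ) (hδβ : 8 * (d + 1) * δ ≤ β - γ) (C2 : ℝ) (hC2 : 1 ≤ C2) :
    ∃ D : ℝ, 0 < D ∧ ∀ b : ℕ, ∀ᶠ r : ℝ in atTop, ∀ z : V d, nm z ≤ r →
      P.real {ω | LowStepGood M γ β δ C2 D r ω ∧
        M.t ω 0 z < M.μ (tr z) - r ^ (β * (1 - δ / 2))} ≤ (r ^ (-δ)) ^ b := by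
  obtain ⟨D, Λ0, hD, hΛ0, hdet⟩ := M.low_det hγ hγ1 hβ hδ hδ4 hδγ hδβ C2 hC2
  obtain ⟨CF, hCF⟩ := M.FE_prob hT D
  obtain ⟨B0, K0, hB0, hK0, hcov⟩ := cover d M.cm M.CM
  refine ⟨D, hD, fun b => ?_⟩
  have hd : (0 : ℝ) ≤ d := by positivity
  have hσ : 0 < 1 - δ := by linarith
  have hm : Tendsto (fun r : ℝ => r ^ (1 - δ)) atTop atTop := tendsto_rpow_atTop hσ
  have hβγ : 8 * δ ≤ β - γ := by nlinarith
  have hβ12 : 12 * δ ≤ β := by linarith
  have hexp1 : 0 < (1 - δ) * β + (-(2 * δ)) := by nlinarith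
  have hexp2 : (1 - δ) * γ < (1 - δ) * β + (-(2 * δ)) := by nlinarith
  have hexp3 : (3 * δ) * d + 2 * δ - (1 - δ) * (β - γ) < -δ := by nlinarith
  filter_upwards [hdet b, hm.eventually hCF, hm.eventually_ge_atTop B0,
    ev_const_le B0 (B := 1 / 8) (by norm_num) hexp1,
    ev_rpow_le 1 (B := 1 / 4) (by norm_num) hexp2,
    ev_rpow_le ((K0 * Λ0) ^ d * (4 * |CF|)) (B := 1) one_pos hexp3,
    eventually_ge_atTop 1] with r h1 h2 h3 h4 h5 h6 h7
  intro z hz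
  have hr0 : (0 : ℝ) < r := by linarith
  have epow : (r ^ (1 - δ)) ^ β * r ^ (-(2 * δ)) = r ^ ((1 - δ) * β + (-(2 * δ))) := by
    rw [← Real.rpow_mul hr0.le, ← Real.rpow_add hr0]
  have hbound0 : 0 ≤ (r ^ (-δ)) ^ b := by positivity
  by_cases hz0 : z = 0
  · -- the event is empty
    have : {ω | LowStepGood M γ β δ C2 D r ω ∧
        M.t ω 0 z < M.μ (tr z) - r ^ (β * (1 - δ / 2))} = ∅ := by
      ext ω
      simp only [mem_ofPred_eq, mem_empty_iff_false, iff_false, not_and, not_lt]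
      intro _
      have hμ0 : M.μ (0 : E d) = 0 := by
        have := M.isNm.smul 0 (0 : E d)
        simpa using this
      rw [hz0, tr_zero, hμ0, M.t_self]
      have : 0 ≤ r ^ (β * (1 - δ / 2)) := by positivity
      linarith
    rw [this]
    simpa using hbound0
  · have hx : tr z ≠ 0 := by
      intro h
      have := one_le_nm hz0
      unfold nm at this
      rw [h, norm_zero] at this
      linarith
    obtain ⟨ν, hν, hνz⟩ := M.isNm.exists_supp hx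
    have hΛ : 1 ≤ Λ0 * r ^ (3 * δ) := by
      have : 1 ≤ r ^ (3 * δ) := Real.one_le_rpow h7 (by positivity)
      nlinarith
    have hg : B0 ≤ (r ^ (1 - δ)) ^ β * r ^ (-(2 * δ)) / 8 := by
      rw [epow]; linarith
    obtain ⟨G, hGcard, hG⟩ := hcov M.μ M.isNm ν _ hν (r ^ (1 - δ))
      ((r ^ (1 - δ)) ^ β * r ^ (-(2 * δ)) / 8) (Λ0 * r ^ (3 * δ)) h3 hg hΛ
    set s : ℝ := (r ^ (1 - δ)) ^ β * r ^ (-(2 * δ)) / 4 with hs
    have hs0 : 0 < s := by rw [hs]; positivity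
    have hms : (r ^ (1 - δ)) ^ γ ≤ s := by
      rw [hs, epow, ← Real.rpow_mul hr0.le]
      linarith
    set p : ℝ := |CF| * (r ^ (1 - δ)) ^ γ / s with hp
    have hp0 : 0 ≤ p := by rw [hp]; positivity
    have hsep := M.sep_union G (fun x => M.FE ν D (r ^ (1 - δ)) s x)
      (M.Cl * (D * r ^ (1 - δ))) p hp0 (fun x _ => M.FE_meas ν D _ s x)
      (fun x _ => by
        refine (h2 ν _ hν s hms x).trans ?_
        rw [hp]
        gcongr
        exact le_abs_self CF) b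
    have hsub : {ω | LowStepGood M γ β δ C2 D r ω ∧
        M.t ω 0 z < M.μ (tr z) - r ^ (β * (1 - δ / 2))} ⊆
        {ω | ∃ x : Fin b → V d, (∀ i, x i ∈ G) ∧
      (∀ i j, i ≠ j → 2 * (M.Cl * (D * r ^ (1 - δ))) < nm (x i - x j)) ∧
        ∀ i, ω ∈ M.FE ν D (r ^ (1 - δ)) s (x i)} := by
      rintro ω ⟨⟨g1, g2, g3, g4⟩, hlt⟩
      exact h1 ω g1 g2 g3 g4 ν _ hν z hz hνz hlt G hG
    refine (measureReal_mono hsub).trans (hsep.trans ?_)
    have hle : (G.card : ℝ) * p ≤ r ^ (-δ) := by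
      calc (G.card : ℝ) * p ≤ (K0 * (Λ0 * r ^ (3 * δ))) ^ d * p := by gcongr
        _ = ((K0 * Λ0) ^ d * (4 * |CF|)) * r ^ ((3 * δ) * d + 2 * δ - (1 - δ) * (β - γ)) := by
          have e1 : (K0 * (Λ0 * r ^ (3 * δ))) ^ d = (K0 * Λ0) ^ d * r ^ ((3 * δ) * d) := by
            rw [← mul_assoc, mul_pow, ← Real.rpow_natCast (r ^ (3 * δ)), ← Real.rpow_mul hr0.le]
          have e2 : p = 4 * |CF| * r ^ ((1 - δ) * γ - ((1 - δ) * β + (-(2 * δ)))) := by
            rw [hp, hs, epow, ← Real.rpow_mul hr0.le,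
              Real.rpow_sub hr0 ((1 - δ) * γ) ((1 - δ) * β + (-(2 * δ)))]
            have : r ^ ((1 - δ) * β + (-(2 * δ))) ≠ 0 := by positivity
            field_simp
          rw [e1, e2]
          have e3 : r ^ ((3 * δ) * d + 2 * δ - (1 - δ) * (β - γ))
              = r ^ ((3 * δ) * d) * r ^ ((1 - δ) * γ - ((1 - δ) * β + (-(2 * δ)))) := by
            rw [← Real.rpow_add hr0]; congr 1; ring
          rw [e3]; ring
        _ ≤ 1 * r ^ (-δ) := h6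
        _ = r ^ (-δ) := one_mul _
    gcongr

private theorem LowStep_key (M : LRM d P) {γ β δ : ℝ} (hγ : 0 < γ) (hγ1 : γ ≤ 1)
    (hUp : M.UpAll γ)
    (hT : M.T1 γ) (hLow : M.Low β) (hβ : β ≤ 1 + δ) (hδ : 0 < δ) (hδ4 : δ ≤ 1 / 4)
    (hδγ : 4 * δ ≤ γ) (hδβ : 8 * (d + 1) * δ ≤ β - γ) :
    Negl P (fun r => {ω | ∃ z : V d, nm z ≤ r ∧
      M.t ω 0 z < M.μ (tr z) - r ^ (β * (1 - δ / 2))}) := by
  obtain ⟨C2, hC2, hcut⟩ := M.cut2 (1 - δ) (δ / 4) 1 (by positivity) (by linarith) (by linarith)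
    le_rfl
  obtain ⟨D, hD, hone⟩ := LowStep_one M hγ hγ1 hT hβ hδ hδ4 hδγ hδβ C2 hC2
  have hσ : 0 < 1 - δ := by linarith
  have hgood : Negl P (fun r => {ω | ¬ LowStepGood M γ β δ C2 D r ω}) := by
    have h1 := hLow.scale (a := 1 - δ) (B := 2) hσ two_pos 2
    have h2 := hUp.scale (a := 1 - δ) (B := D) hσ hD 2
    have h3 := M.loc_scale (ε := γ / 2) (a := 1 - δ) (B := D) (by positivity) hσ hD 2
    refine Negl.mono ?_ (hcut.union (h1.union (h2.union h3)))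
    filter_upwards with r
    intro ω hω
    by_contra hcon
    simp only [mem_union, mem_ofPred_eq, not_or, not_not] at hcon
    exact hω ⟨hcon.1, hcon.2.1, hcon.2.2.1, hcon.2.2.2⟩
  intro K
  obtain ⟨b, hb⟩ := exists_nat_ge (((K : ℝ) + 1 + d) / δ)
  rw [div_le_iff₀ hδ] at hb
  filter_upwards [hgood (K + 1), hone b, eventually_ge_atTop 1,
    eventually_ge_atTop ((3 : ℝ) ^ d + 1)] with r h1 h2 h3 h4
  have hr0 : (0 : ℝ) < r := by linarith
  set S : Finset (V d) := (finite_bl (d := d) r).toFinset with hS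
  have hScard : (S.card : ℝ) ≤ (3 * r) ^ d := by
    have := card_bl (d := d) r hr0.le
    rw [ncard_eq_toFinset_card _ (finite_bl (d := d) r)] at this
    refine this.trans ?_
    gcongr
    linarith
  have hsub : {ω | ∃ z : V d, nm z ≤ r ∧
      M.t ω 0 z < M.μ (tr z) - r ^ (β * (1 - δ / 2))} ⊆
      {ω | ¬ LowStepGood M γ β δ C2 D r ω} ∪ ⋃ z ∈ S, {ω | LowStepGood M γ β δ C2 D r ω ∧
        M.t ω 0 z < M.μ (tr z) - r ^ (β * (1 - δ / 2))} := by
    rintro ω ⟨z, hz, hlt⟩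
    by_cases hg : LowStepGood M γ β δ C2 D r ω
    · right
      simp only [mem_iUnion]
      refine ⟨z, ?_, hg, hlt⟩
      rw [hS, Set.Finite.mem_toFinset]
      exact hz
    · left; exact hg
  refine (measureReal_mono hsub).trans ?_
  refine (measureReal_union_le _ _).trans ?_
  have hsum : P.real (⋃ z ∈ S, {ω | LowStepGood M γ β δ C2 D r ω ∧
        M.t ω 0 z < M.μ (tr z) - r ^ (β * (1 - δ / 2))}) ≤ 3 ^ d * r ^ (-((K + 1 : ℕ) : ℝ)) := by
    refine (measureReal_biUnion_finset_le S _).trans ?_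
    calc ∑ z ∈ S, P.real {ω | LowStepGood M γ β δ C2 D r ω ∧
        M.t ω 0 z < M.μ (tr z) - r ^ (β * (1 - δ / 2))}
        ≤ ∑ _z ∈ S, (r ^ (-δ)) ^ b := by
          apply Finset.sum_le_sum
          intro z hz
          rw [hS, Set.Finite.mem_toFinset] at hz
          exact h2 z hz
      _ = (S.card : ℝ) * (r ^ (-δ)) ^ b := by simp
      _ ≤ (3 * r) ^ d * r ^ (-((K : ℝ) + 1 + d)) := by
          gcongr
          rw [← Real.rpow_natCast, ← Real.rpow_mul hr0.le]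
          apply Real.rpow_le_rpow_of_exponent_le h3
          nlinarith
      _ = 3 ^ d * r ^ (-((K + 1 : ℕ) : ℝ)) := by
          rw [mul_pow, ← Real.rpow_natCast r d, mul_assoc, ← Real.rpow_add hr0]
          congr 2
          push_cast; ring
  calc P.real {ω | ¬ LowStepGood M γ β δ C2 D r ω} + _
      ≤ r ^ (-((K + 1 : ℕ) : ℝ)) + 3 ^ d * r ^ (-((K + 1 : ℕ) : ℝ)) := add_le_add h1 hsum
    _ = (3 ^ d + 1) * r ^ (-((K + 1 : ℕ) : ℝ)) := by ring
    _ ≤ r * r ^ (-((K + 1 : ℕ) : ℝ)) := by gcongr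
    _ = r ^ (-(K : ℝ)) := by
      nth_rewrite 1 [← Real.rpow_one r]
      rw [← Real.rpow_add hr0]
      congr 1
      push_cast; ring

theorem LRM.LowStep (M : LRM d P) {γ β δ : ℝ} (hγ : 0 < γ) (hγ1 : γ ≤ 1) (hUp : M.UpAll γ)
    (hT : M.T1 γ) (hLow : M.Low β) (hβ : β ≤ 1 + δ) (hδ : 0 < δ) (hδ4 : δ ≤ 1 / 4)
    (hδγ : 4 * δ ≤ γ) (hδβ : 8 * (d + 1) * δ ≤ β - γ) :
    M.Low (β * (1 - δ / 2)) := by
  intro D
  have key := LowStep_key M hγ hγ1 hUp hT hLow hβ hδ hδ4 hδγ hδβ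
  refine Negl.mono ?_ (Negl.starts M.toPreLRM key D)
  filter_upwards with r
  rintro ω ⟨u, v, h1, h2, h3⟩
  refine ⟨u, h1, v - u, h2, ?_⟩
  rw [M.t_shift]
  simpa using h3

end FPPX
end

section

/-! Forward connections: tails. -/

namespace FPPX

open MeasureTheory ProbabilityTheory Filter Set
open scoped Topology

variable {d : ℕ} {Ω : Type} [MeasurableSpace Ω] {P : Measure Ω} [IsProbabilityMeasure P]

theorem LRM.connect_tail (M : LRM d P) :
    ∃ Ca0 C : ℝ, 0 < Ca0 ∧ 0 < C ∧ ∀ Ca D D' : ℝ, Ca0 ≤ Ca → 0 < D → 0 < D' →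
      ∀ᶠ r : ℝ in atTop, ∀ (ν : E d →ₗ[ℝ] ℝ) (p : E d), Supp M.μ ν p → ∀ n : ℕ, 1 ≤ n →
        P.real (⋂ b ∈ fwd ν D D' r,
          M.LE {z | -((D' + Ca) * r) ≤ ν (tr z)} b (b + rd (r • p)) (C * r * n))ᶜ ≤
          (r * n) ^ (-(3 : ℝ)) := by
  classical
  have hcm := M.isNm.cpos
  have hC1 := M.one_le_C1
  set B : ℝ := 1 / M.cm + 1 with hB
  have hB1 : 1 ≤ B := by
    have : 0 < 1 / M.cm := by positivity
    linarith
  refine ⟨1, M.C1 * B, one_pos, by positivity, ?_⟩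
  intro Ca D D' hCa hD hD'
  obtain ⟨r0, hr0⟩ := eventually_atTop.1 (M.hs_up (d + 4))
  filter_upwards [eventually_ge_atTop r0, eventually_ge_atTop 1, eventually_ge_atTop M.CM,
    eventually_ge_atTop ((2 * D + 1) ^ d)] with r h1 h2 h3 h4 ν p hν n hn
  obtain ⟨hCM, hp, -⟩ := M.isNm.norm_p hν
  have hr : 0 < r := by linarith
  have hn1 : (1 : ℝ) ≤ n := by exact_mod_cast hn
  have hrn : r ≤ r * n := le_mul_of_one_le_right hr.le hn1
  have hrn1 : 1 ≤ r * n := h2.trans hrn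
  have hrn0 : 0 < r * n := by linarith
  set ρ : ℝ := B * (r * n) with hρ
  have hρ1 : r * n ≤ ρ := le_mul_of_one_le_left hrn0.le hB1
  have hρ0 : 0 < ρ := by linarith
  set w : V d := rd (r • p) with hw
  have hνw : 0 ≤ ν (tr w) := by
    have e1 : ν (r • p) = r := by rw [map_smul, hν.2.1, smul_eq_mul, mul_one]
    have e2 := M.isNm.abs_le hν (tr w - r • p)
    have e3 := norm_rd_sub (r • p)
    rw [map_sub, e1] at e2
    have e4 := (abs_le.1 e2).1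
    have e5 : M.CM * ‖tr w - r • p‖ ≤ M.CM * (1 / 2) := mul_le_mul_of_nonneg_left e3 hCM.le
    linarith
  have hnw : nm w ≤ ρ := by
    have e1 := nm_rd_le (r • p)
    have e2 : ‖r • p‖ ≤ r / M.cm := by
      rw [norm_smul, Real.norm_of_nonneg hr.le, div_eq_mul_one_div]
      exact mul_le_mul_of_nonneg_left hp hr.le
    have e3 : r / M.cm + r = B * r := by rw [hB]; ring
    have e4 : B * r ≤ ρ := mul_le_mul_of_nonneg_left hrn (by linarith)
    exact e1.trans (by linarith)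
  -- one starting point
  have hone : ∀ b ∈ fwd ν D D' r,
      P.real (M.LE {z | -((D' + Ca) * r) ≤ ν (tr z)} b (b + w) (M.C1 * B * r * n))ᶜ ≤
        ρ ^ (-((d + 4 : ℕ) : ℝ)) := by
    intro b hb
    have e1 := hr0 ρ (h1.trans (hrn.trans hρ1)) ν (-((D' + Ca) * r)) b (b + w) ?_ ?_ ?_
    · have e2 : M.C1 * B * r * n = M.C1 * ρ := by rw [hρ]; ring
      rw [e2]
      exact e1
    · have e2 : -(D' * r) ≤ ν (tr b) := hb.2
      have e3 : 0 ≤ Ca * r := by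
        have : 0 ≤ Ca := by linarith
        positivity
      linarith
    · have e2 : -(D' * r) ≤ ν (tr b) := hb.2
      have e3 : 0 ≤ Ca * r := by
        have : 0 ≤ Ca := by linarith
        positivity
      rw [tr_add, map_add]
      linarith
    · rw [add_sub_cancel_left]
      exact hnw
  -- the union
  let T : Finset (V d) := (finite_bl (d := d) (D * r)).toFinset.filter fun b => b ∈ fwd ν D D' r
  have hT : ∀ b, b ∈ T ↔ b ∈ fwd ν D D' r := by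
    intro b
    simp only [T, Finset.mem_filter, Set.Finite.mem_toFinset, mem_ofPred_eq]
    exact ⟨fun h => h.2, fun h => ⟨h.1, h⟩⟩
  have hincl : (⋂ b ∈ fwd ν D D' r,
      M.LE {z | -((D' + Ca) * r) ≤ ν (tr z)} b (b + w) (M.C1 * B * r * n))ᶜ ⊆
      ⋃ b ∈ T, (M.LE {z | -((D' + Ca) * r) ≤ ν (tr z)} b (b + w) (M.C1 * B * r * n))ᶜ := by
    intro ω hω
    simp only [mem_compl_iff, mem_iInter, not_forall] at hω
    obtain ⟨b, hb, hbω⟩ := hω
    simp only [mem_iUnion]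
    exact ⟨b, (hT b).2 hb, hbω⟩
  have hcard : (T.card : ℝ) ≤ (2 * (D * r) + 1) ^ d := by
    refine le_trans ?_ (card_bl (d := d) (D * r) (by positivity))
    rw [Set.ncard_eq_toFinset_card _ (finite_bl (d := d) (D * r))]
    exact_mod_cast Finset.card_filter_le _ _
  have hsum : P.real (⋂ b ∈ fwd ν D D' r,
      M.LE {z | -((D' + Ca) * r) ≤ ν (tr z)} b (b + w) (M.C1 * B * r * n))ᶜ ≤
      (2 * (D * r) + 1) ^ d * ρ ^ (-((d + 4 : ℕ) : ℝ)) := by
    refine (measureReal_mono hincl (measure_ne_top P _)).trans ?_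
    refine (measureReal_biUnion_finset_le _ _).trans ?_
    refine (Finset.sum_le_card_nsmul _ _ _ fun b hb => hone b ((hT b).1 hb)).trans ?_
    rw [nsmul_eq_mul]
    exact mul_le_mul_of_nonneg_right hcard (Real.rpow_nonneg hρ0.le _)
  refine hsum.trans ?_
  have e1 : ρ ^ (-((d + 4 : ℕ) : ℝ)) ≤ (r * n) ^ (-((d + 4 : ℕ) : ℝ)) :=
    Real.rpow_le_rpow_of_nonpos hrn0 hρ1 (neg_nonpos.2 (Nat.cast_nonneg _))
  have e2 : (r * n) ^ (-((d + 4 : ℕ) : ℝ)) = ((r * n) ^ d)⁻¹ * (r * n)⁻¹ * (r * n) ^ (-(3 : ℝ)) := by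
    rw [Real.rpow_neg hrn0.le, Real.rpow_natCast, Real.rpow_neg hrn0.le,
      show (3 : ℝ) = ((3 : ℕ) : ℝ) by norm_num, Real.rpow_natCast, ← mul_inv, ← mul_inv]
    congr 1
    ring
  have e3 : (2 * (D * r) + 1) ^ d ≤ (2 * D + 1) ^ d * (r * n) ^ d := by
    rw [← mul_pow]
    refine pow_le_pow_left₀ (by positivity) ?_ d
    nlinarith
  have e4 : 0 < (r * n) ^ d := by positivity
  have e5 : 0 ≤ (r * n) ^ (-(3 : ℝ)) := Real.rpow_nonneg hrn0.le _
  calc (2 * (D * r) + 1) ^ d * ρ ^ (-((d + 4 : ℕ) : ℝ))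
      ≤ ((2 * D + 1) ^ d * (r * n) ^ d) *
        (((r * n) ^ d)⁻¹ * (r * n)⁻¹ * (r * n) ^ (-(3 : ℝ))) := by
        rw [← e2]
        exact mul_le_mul e3 e1 (Real.rpow_nonneg hρ0.le _) (by positivity)
    _ = ((2 * D + 1) ^ d * (r * n)⁻¹) * (r * n) ^ (-(3 : ℝ)) := by
        field_simp
    _ ≤ 1 * (r * n) ^ (-(3 : ℝ)) := by
        refine mul_le_mul_of_nonneg_right ?_ e5
        rw [← div_eq_mul_inv, div_le_one hrn0]
        exact h4.trans hrn
    _ = (r * n) ^ (-(3 : ℝ)) := one_mul _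

end FPPX
end

section

/-! One forward step of length `r` from many points at once, using only the forward half space. -/

namespace FPPX

open MeasureTheory ProbabilityTheory Filter Set
open scoped Topology

variable {d : ℕ} {Ω : Type} [MeasurableSpace Ω] {P : Measure Ω} [IsProbabilityMeasure P]

private lemma connect_fwd_finite (ν : E d →ₗ[ℝ] ℝ) (D D' r : ℝ) : (fwd ν D D' r).Finite :=
  (finite_bl (D * r)).subset fun _ hb => hb.1

private lemma connect_term {Ct r : ℝ} (hCt : 0 < Ct) (hr : 1 ≤ r) (n : ℕ) (hn : 1 ≤ n) :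
    Ct * r * ((n : ℝ) + 1) * (r * n) ^ (-(3 : ℝ)) ≤ 8 * Ct * (1 / ((n : ℝ) + 1) ^ 2) := by
  have hn' : (1 : ℝ) ≤ n := by exact_mod_cast hn
  have hr0 : 0 < r := by linarith
  have hn0 : (0 : ℝ) < n := by linarith
  have e1 : (r * n) ^ (-(3 : ℝ)) = 1 / (r * n) ^ 3 := by
    rw [Real.rpow_neg (by positivity)]
    rw [show (3 : ℝ) = ((3 : ℕ) : ℝ) by norm_num, Real.rpow_natCast, one_div]
  rw [e1, mul_one_div, mul_one_div, div_le_div_iff₀ (by positivity) (by positivity)]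
  have h1 : ((n : ℝ) + 1) ^ 3 ≤ 8 * n ^ 3 := by
    have : (n : ℝ) + 1 ≤ 2 * n := by linarith
    calc ((n : ℝ) + 1) ^ 3 ≤ (2 * n) ^ 3 := pow_le_pow_left₀ (by positivity) this 3
      _ = 8 * n ^ 3 := by ring
  have h2 : r ≤ r ^ 3 := by nlinarith [mul_pos hr0 hr0]
  calc Ct * r * ((n : ℝ) + 1) * ((n : ℝ) + 1) ^ 2 = Ct * r * ((n : ℝ) + 1) ^ 3 := by ring
    _ ≤ Ct * r ^ 3 * (8 * n ^ 3) := by gcongr
    _ = 8 * Ct * (r * n) ^ 3 := by ring

theorem LRM.connect (M : LRM d P) {β : ℝ} (hβ : 0 < β) (hβ1 : β ≤ 1) (hUp : M.UpAll β) :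
    ∃ Ca : ℝ, 0 < Ca ∧ ∀ D D' : ℝ, 0 < D → 0 < D' → ∃ C : ℝ, ∀ᶠ r : ℝ in atTop,
      ∀ (ν : E d →ₗ[ℝ] ℝ) (p : E d), Supp M.μ ν p →
      ∃ Mc : Ω → ℝ, Measurable[M.F {z | -((D' + Ca) * r) ≤ ν (tr z)}] Mc ∧
        (∀ ω, 0 ≤ Mc ω) ∧ Integrable Mc P ∧ ∫ ω, Mc ω ∂P ≤ C * r ^ β ∧
        ∀ᵐ ω ∂P, ∀ b : V d, nm b ≤ D * r → -(D' * r) ≤ ν (tr b) →
          M.t ω b (b + rd (r • p)) ≤ r + Mc ω := by
  obtain ⟨Ca1, Cg, hCa1, hCg, hgood⟩ := M.connect_good hβ hβ1 hUp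
  obtain ⟨Ca2, Ct, hCa2, hCt, htail⟩ := M.connect_tail
  refine ⟨max Ca1 Ca2, lt_max_of_lt_left hCa1, fun D D' hD hD' => ?_⟩
  have hsm : Summable fun n : ℕ => 8 * Ct * (1 / ((n : ℝ) + 1) ^ 2) := by
    apply Summable.mul_left
    have h1 : Summable fun n : ℕ => 1 / (n : ℝ) ^ 2 := by
      simp
    have h2 := (summable_nat_add_iff (f := fun n : ℕ => 1 / (n : ℝ) ^ 2) 1).2 h1
    simpa using h2
  refine ⟨Cg + ∑' n : ℕ, 8 * Ct * (1 / ((n : ℝ) + 1) ^ 2), ?_⟩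
  filter_upwards [hgood (max Ca1 Ca2) D D' (le_max_left _ _) hD hD',
    htail (max Ca1 Ca2) D D' (le_max_right _ _) hD hD', eventually_ge_atTop (1 : ℝ)]
    with r hg ht hr ν p hS
  have hr0 : 0 < r := by linarith
  have hg' := hg ν p hS
  have ht' := ht ν p hS
  set H : Set (V d) := {z | -((D' + max Ca1 Ca2) * r) ≤ ν (tr z)} with hH
  let G : ℕ → Set Ω := fun n => match n with
    | 0 => ⋂ b ∈ fwd ν D D' r, M.LE H b (b + rd (r • p)) (r + Cg * r ^ β)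
    | n + 1 => ⋂ b ∈ fwd ν D D' r, M.LE H b (b + rd (r • p)) (Ct * r * ((n + 1 : ℕ) : ℝ))
  let v : ℕ → ℝ := fun n => match n with
    | 0 => Cg * r ^ β
    | n + 1 => Ct * r * ((n + 1 : ℕ) : ℝ)
  have hGm : ∀ n, MeasurableSet[M.F H] (G n) := by
    intro n
    rcases n with _ | n
    · exact MeasurableSet.biInter (connect_fwd_finite ν D D' r).countable
        fun b _ => M.LE_meas _ _ _ _
    · exact MeasurableSet.biInter (connect_fwd_finite ν D D' r).countable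
        fun b _ => M.LE_meas _ _ _ _
  have hv : ∀ n, 0 ≤ v n := by
    intro n
    rcases n with _ | n
    · exact mul_nonneg hCg.le (Real.rpow_nonneg hr0.le _)
    · show 0 ≤ Ct * r * ((n + 1 : ℕ) : ℝ)
      positivity
  have hterm : ∀ n, v (n + 1) * P.real (G n)ᶜ ≤ 8 * Ct * (1 / ((n : ℝ) + 1) ^ 2) := by
    intro n
    rcases n with _ | n
    · show Ct * r * ((0 + 1 : ℕ) : ℝ) * P.real (G 0)ᶜ ≤ _
      have h1 : P.real (G 0)ᶜ ≤ r ^ (-(1 : ℝ)) := hg'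
      have h2 : r * r ^ (-(1 : ℝ)) = 1 := by
        rw [Real.rpow_neg_one, mul_inv_cancel₀ hr0.ne']
      calc Ct * r * ((0 + 1 : ℕ) : ℝ) * P.real (G 0)ᶜ
          ≤ Ct * r * ((0 + 1 : ℕ) : ℝ) * r ^ (-(1 : ℝ)) :=
            mul_le_mul_of_nonneg_left h1 (by positivity)
        _ = Ct * (r * r ^ (-(1 : ℝ))) := by push_cast; ring
        _ = Ct := by rw [h2, mul_one]
        _ ≤ 8 * Ct * (1 / (((0 : ℕ) : ℝ) + 1) ^ 2) := by norm_num; linarith
    · show Ct * r * ((n + 1 + 1 : ℕ) : ℝ) * P.real (G (n + 1))ᶜ ≤ _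
      have h1 : P.real (G (n + 1))ᶜ ≤ (r * ((n + 1 : ℕ) : ℝ)) ^ (-(3 : ℝ)) :=
        ht' (n + 1) (Nat.succ_le_succ (Nat.zero_le n))
      calc Ct * r * ((n + 1 + 1 : ℕ) : ℝ) * P.real (G (n + 1))ᶜ
          ≤ Ct * r * ((n + 1 + 1 : ℕ) : ℝ) * (r * ((n + 1 : ℕ) : ℝ)) ^ (-(3 : ℝ)) :=
            mul_le_mul_of_nonneg_left h1 (by positivity)
        _ = Ct * r * (((n + 1 : ℕ) : ℝ) + 1) * (r * ((n + 1 : ℕ) : ℝ)) ^ (-(3 : ℝ)) := by
            push_cast; ring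
        _ ≤ _ := connect_term hCt hr (n + 1) (Nat.succ_le_succ (Nat.zero_le n))
  have hnn : ∀ n, 0 ≤ v (n + 1) * P.real (G n)ᶜ := fun n =>
    mul_nonneg (hv (n + 1)) measureReal_nonneg
  have hsum : Summable fun n => v (n + 1) * P.real (G n)ᶜ :=
    Summable.of_nonneg_of_le hnn hterm hsm
  have hrβ : 1 ≤ r ^ β := Real.one_le_rpow hr hβ.le
  have hS' : v 0 + ∑' n, v (n + 1) * P.real (G n)ᶜ ≤
      (Cg + ∑' n : ℕ, 8 * Ct * (1 / ((n : ℝ) + 1) ^ 2)) * r ^ β := by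
    have h1 : ∑' n, v (n + 1) * P.real (G n)ᶜ ≤ ∑' n : ℕ, 8 * Ct * (1 / ((n : ℝ) + 1) ^ 2) :=
      hsum.tsum_le_tsum hterm hsm
    have h2 : 0 ≤ ∑' n : ℕ, 8 * Ct * (1 / ((n : ℝ) + 1) ^ 2) :=
      tsum_nonneg fun n => by positivity
    have h3 : v 0 = Cg * r ^ β := rfl
    rw [h3, add_mul]
    have h4 : (∑' n : ℕ, 8 * Ct * (1 / ((n : ℝ) + 1) ^ 2)) * 1 ≤
      (∑' n : ℕ, 8 * Ct * (1 / ((n : ℝ) + 1) ^ 2)) * r ^ β := mul_le_mul_of_nonneg_left hrβ h2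
    linarith
  have h0 : Tendsto (fun n => P.real (G n)ᶜ) atTop (𝓝 0) := by
    have h1 : Tendsto (fun n => v (n + 1) * P.real (G n)ᶜ / Ct) atTop (𝓝 0) := by
      have := hsum.tendsto_atTop_zero.div_const Ct
      simpa using this
    refine squeeze_zero (fun n => measureReal_nonneg) (fun n => ?_) h1
    rw [le_div_iff₀ hCt, mul_comm]
    apply mul_le_mul_of_nonneg_right _ measureReal_nonneg
    show Ct ≤ Ct * r * ((n + 1 : ℕ) : ℝ)
    have h2 : (1 : ℝ) ≤ ((n + 1 : ℕ) : ℝ) := by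
      exact_mod_cast Nat.succ_le_succ (Nat.zero_le n)
    have h3 : (1 : ℝ) ≤ r * ((n + 1 : ℕ) : ℝ) := one_le_mul_of_one_le_of_one_le hr h2
    calc Ct = Ct * 1 := (mul_one _).symm
      _ ≤ Ct * (r * ((n + 1 : ℕ) : ℝ)) := mul_le_mul_of_nonneg_left h3 hCt.le
      _ = _ := by ring
  obtain ⟨f, hfm, hf0, hfi, hfS, hfa⟩ := exists_majorant P (M.F H) (M.F_le H) G hGm v hv _
    hsum hS' h0
  refine ⟨f, hfm, hf0, hfi, hfS, ?_⟩
  filter_upwards [hfa] with ω hω b hb1 hb2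
  obtain ⟨n, hn, hvn⟩ := hω
  have hb : b ∈ fwd ν D D' r := ⟨hb1, hb2⟩
  rcases n with _ | n
  · have h1 : ω ∈ M.LE H b (b + rd (r • p)) (r + Cg * r ^ β) := mem_iInter₂.1 hn b hb
    have h2 := M.LE_t _ _ _ _ _ h1
    have h3 : Cg * r ^ β ≤ f ω := hvn
    linarith
  · have h1 : ω ∈ M.LE H b (b + rd (r • p)) (Ct * r * ((n + 1 : ℕ) : ℝ)) := mem_iInter₂.1 hn b hb
    have h2 := M.LE_t _ _ _ _ _ h1
    have h3 : Ct * r * ((n + 1 : ℕ) : ℝ) ≤ f ω := hvn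
    linarith

end FPPX
end

section

/-! The selection lemma: lower deviations are rare because they could be exploited. -/

namespace FPPX

open MeasureTheory ProbabilityTheory Filter Set
open scoped Topology

variable {d : ℕ} {Ω : Type} [MeasurableSpace Ω] {P : Measure Ω} [IsProbabilityMeasure P]

omit [IsProbabilityMeasure P] in
/-- chain of steps -/
private theorem PreLRM.T1_chain (M : PreLRM d P) (ω : Ω) (a w : V d) (c : ℝ) :
    ∀ n : ℕ, (∀ i : ℕ, i < n → M.t ω (a + i • w) (a + i • w + w) ≤ c) →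
      M.t ω a (a + n • w) ≤ n * c := by
  intro n
  induction n with
  | zero => intro _; simp [M.t_self]
  | succ n ih =>
    intro h
    have h1 := ih fun i hi => h i (Nat.lt_succ_of_lt hi)
    have h2 := h n (Nat.lt_succ_self n)
    have h3 : a + (n + 1) • w = a + n • w + w := by rw [add_smul, one_smul, add_assoc]
    rw [h3]
    have h4 := M.t_tri ω a (a + n • w) (a + n • w + w)
    push_cast
    linarith

/-- the core estimate, for fixed scale and functional -/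
private theorem LRM.T1_core (M : LRM d P) (ν : E d →ₗ[ℝ] ℝ) (p : E d) (hν : Supp M.μ ν p)
    (r s R ρ B D' D1 Ca : ℝ) (N : ℕ) (hr : 1 ≤ r) (hrC : M.CM ≤ r) (hs : 0 < s) (hB : 0 ≤ B)
    (hR : 0 ≤ R) (hρ : 0 ≤ ρ) (hρ1 : (D' + Ca) * r ≤ ρ) (hρ2 : M.CM * R ≤ ρ)
    (hN : M.CM * R + ρ < N * (r / 2)) (hD' : 0 ≤ D')
    (hD1 : B * r + N * (r / M.cm + 1 / 2) ≤ D1 * r)
    (Mc : Ω → ℝ) (hMm : Measurable[M.F {z | -((D' + Ca) * r) ≤ ν (tr z)}] Mc)
    (hMi : Integrable Mc P)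
    (hMc : ∀ᵐ ω ∂P, ∀ b : V d, nm b ≤ D1 * r → -(D' * r) ≤ ν (tr b) →
          M.t ω b (b + rd (r • p)) ≤ r + Mc ω) :
    (s / 2) * P.real {ω | ∃ b : V d, nm b ≤ B * r ∧ ω ∈ M.LE (bl 0 R) 0 b (ν (tr b) - s / 2)} ≤
      N * ∫ ω, Mc ω ∂P + N * (M.CM / 2) := by
  have hnm := M.isNm
  have hcm := hnm.cpos
  obtain ⟨hCM, hp, -⟩ := hnm.norm_p hν
  have hνle : ∀ x : V d, |ν (tr x)| ≤ M.CM * nm x := fun x => hnm.abs_le hν (tr x)
  set w : V d := rd (r • p) with hw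
  have hr0 : 0 < r := by linarith
  -- the step
  have hνw : r - M.CM / 2 ≤ ν (tr w) := by
    have h1 : ν (r • p) = r := by rw [map_smul, hν.2.1, smul_eq_mul, mul_one]
    have h2 := hnm.abs_le hν (tr w - r • p)
    have h3 := norm_rd_sub (r • p)
    rw [map_sub, h1] at h2
    have h4 := (abs_le.1 h2).1
    have h5 : M.CM * ‖tr w - r • p‖ ≤ M.CM * (1 / 2) := mul_le_mul_of_nonneg_left h3 hCM.le
    linarith
  have hνw0 : r / 2 ≤ ν (tr w) := by linarith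
  have hnw : nm w ≤ r / M.cm + 1 / 2 := by
    have h1 := nm_rd_le (r • p)
    have h2 : ‖r • p‖ ≤ r / M.cm := by
      rw [norm_smul, Real.norm_of_nonneg hr0.le, div_eq_mul_one_div]
      exact mul_le_mul_of_nonneg_left hp hr0.le
    exact h1.trans (by linarith)
  have hνi : ∀ (x : V d) (n : ℕ), ν (tr (x + n • w)) = ν (tr x) + n * ν (tr w) := by
    intro x n
    rw [tr_add, map_add, tr_nsmul, map_smul, smul_eq_mul]
  have hni : ∀ (x : V d) (n : ℕ), nm (x + n • w) ≤ nm x + n * nm w := by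
    intro x n
    refine (nm_add _ _).trans ?_
    have : nm (n • w) = n * nm w := by
      unfold nm
      rw [tr_nsmul, norm_smul, Real.norm_of_nonneg (Nat.cast_nonneg n)]
    rw [this]
  -- the selector
  let S0 : Finset (V d) := (finite_bl (d := d) (B * r)).toFinset
  have hS0 : ∀ b, b ∈ S0 ↔ nm b ≤ B * r := by
    intro b
    simp only [S0, Set.Finite.mem_toFinset, mem_ofPred_eq]
  let Ev : V d → Set Ω := fun b => M.LE (bl 0 R) 0 b (ν (tr b) - s / 2)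
  obtain ⟨ξ0, hξS, hξm, hξ1, hξ2⟩ := exists_selector (M.F (bl 0 R)) S0 Ev
    (fun b _ => M.LE_meas _ _ _ _)
  let F' : Set Ω := {ω | ∃ b ∈ S0, ω ∈ Ev b}
  have hF'eq : {ω | ∃ b : V d, nm b ≤ B * r ∧ ω ∈ M.LE (bl 0 R) 0 b (ν (tr b) - s / 2)} = F' := by
    ext ω
    simp only [F', Ev, mem_ofPred_eq, hS0]
  have hF'm : MeasurableSet[M.F (bl 0 R)] F' := by
    have : F' = ⋃ b ∈ S0, Ev b := by
      ext ω
      simp only [F', mem_ofPred_eq, mem_iUnion, exists_prop]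
    rw [this]
    exact Finset.measurableSet_biUnion _ fun b _ => M.LE_meas _ _ _ _
  have hF'm' : MeasurableSet F' := M.F_le _ _ hF'm
  -- properties of the selector
  have hξν : ∀ ω, 0 ≤ ν (tr (ξ0 ω)) := by
    intro ω
    by_cases h : ∃ b ∈ S0, ω ∈ Ev b
    · have h1 := M.LE_t _ _ _ _ _ (hξ1 ω h).2
      have h2 := M.t_nonneg ω 0 (ξ0 ω)
      linarith
    · rw [hξ2 ω h, tr_zero, map_zero]
  have hξn : ∀ ω, nm (ξ0 ω) ≤ B * r := by
    intro ω
    have h := hξS ω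
    rw [Finset.mem_insert] at h
    rcases h with h | h
    · rw [h, nm_zero]; positivity
    · exact (hS0 _).1 h
  have hξt : ∀ ω, M.t ω 0 (ξ0 ω) ≤ ν (tr (ξ0 ω)) - F'.indicator (fun _ => s / 2) ω := by
    intro ω
    by_cases h : ∃ b ∈ S0, ω ∈ Ev b
    · have h1 := M.LE_t _ _ _ _ _ (hξ1 ω h).2
      have h2 : ω ∈ F' := h
      rw [indicator_of_mem h2]
      exact h1
    · have h2 : ω ∉ F' := h
      rw [indicator_of_notMem h2, hξ2 ω h, tr_zero, map_zero, M.t_self, sub_zero]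
  -- the strategy
  let ξ : Ω → V d := fun ω => ξ0 ω + N • w
  let S : Finset (V d) := (insert 0 S0).image fun b => b + N • w
  let g : Ω → ℝ := fun ω => -(F'.indicator (fun _ => s / 2) ω) + N * Mc ω + N * (M.CM / 2)
  have hsub1 : bl (0 : V d) R ⊆ {z | -ρ ≤ ν (tr z)} := by
    intro z hz
    have hz' : nm z ≤ R := by simpa [bl] using hz
    have h1 := (abs_le.1 (hνle z)).1
    have h2 : M.CM * nm z ≤ M.CM * R := mul_le_mul_of_nonneg_left hz' hCM.le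
    show -ρ ≤ ν (tr z)
    linarith
  have hsub2 : {z : V d | -((D' + Ca) * r) ≤ ν (tr z)} ⊆ {z | -ρ ≤ ν (tr z)} := by
    intro z hz
    have hz' : -((D' + Ca) * r) ≤ ν (tr z) := hz
    show -ρ ≤ ν (tr z)
    linarith
  have hgm : Measurable[M.F {z | -ρ ≤ ν (tr z)}] g := by
    have h1 : Measurable[M.F {z | -ρ ≤ ν (tr z)}] (F'.indicator fun _ => s / 2) :=
      Measurable.indicator measurable_const (M.F_mono _ _ hsub1 _ hF'm)
    have h2 : Measurable[M.F {z | -ρ ≤ ν (tr z)}] Mc := hMm.mono (M.F_mono _ _ hsub2) le_rfl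
    exact (h1.neg.add (h2.const_mul _)).add measurable_const
  have hI : Integrable (F'.indicator fun _ => s / 2) P :=
    (integrable_const (s / 2)).indicator hF'm'
  have hgi : Integrable g P :=
    (hI.neg.add (hMi.const_mul _)).add (integrable_const _)
  have hle : ∀ᵐ ω ∂P, M.t ω 0 (ξ ω) ≤ ν (tr (ξ ω)) + g ω := by
    filter_upwards [hMc] with ω hω
    have h1 : M.t ω (ξ0 ω) (ξ0 ω + N • w) ≤ N * (r + Mc ω) := by
      refine M.T1_chain ω (ξ0 ω) w (r + Mc ω) N fun i hi => hω _ ?_ ?_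
      · refine (hni _ _).trans ?_
        have h2 : (i : ℝ) * nm w ≤ N * (r / M.cm + 1 / 2) := by
          have h3 : (i : ℝ) ≤ N := by exact_mod_cast hi.le
          have h4 := nm_nonneg w
          have h5 : (0 : ℝ) ≤ N := Nat.cast_nonneg N
          calc (i : ℝ) * nm w ≤ N * nm w := mul_le_mul_of_nonneg_right h3 h4
            _ ≤ N * (r / M.cm + 1 / 2) := mul_le_mul_of_nonneg_left hnw h5
        have := hξn ω
        linarith
      · rw [hνi]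
        have h2 := hξν ω
        have h3 : 0 ≤ (i : ℝ) * ν (tr w) := mul_nonneg (Nat.cast_nonneg i) (by linarith)
        have h4 : 0 ≤ D' * r := by positivity
        linarith
    have h2 := M.t_tri ω 0 (ξ0 ω) (ξ0 ω + N • w)
    have h3 := hξt ω
    have h4 : (N : ℝ) * (r - M.CM / 2) ≤ N * ν (tr w) :=
      mul_le_mul_of_nonneg_left hνw (Nat.cast_nonneg N)
    show M.t ω 0 (ξ0 ω + N • w) ≤ ν (tr (ξ0 ω + N • w)) +
      (-(F'.indicator (fun _ => s / 2) ω) + N * Mc ω + N * (M.CM / 2))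
    rw [hνi]
    have h5 : (N : ℝ) * (r - M.CM / 2) = N * r - N * (M.CM / 2) := by ring
    have h6 : (N : ℝ) * (r + Mc ω) = N * r + N * Mc ω := by ring
    linarith
  have hmain := M.greedy ν p hν ρ R hρ hR ξ S ?_ ?_ ?_ g hgm hgi hle
  · have hint : ∫ ω, g ω ∂P = -((s / 2) * P.real F') + N * ∫ ω, Mc ω ∂P + N * (M.CM / 2) := by
      have e1 : ∫ ω, F'.indicator (fun _ => s / 2) ω ∂P = (s / 2) * P.real F' := by
        rw [integral_indicator_const _ hF'm', smul_eq_mul, mul_comm]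
      have e2 : ∫ ω, g ω ∂P = ∫ ω, (-(F'.indicator (fun _ => s / 2) ω) + N * Mc ω) ∂P +
          ∫ _, N * (M.CM / 2) ∂P := integral_add (hI.neg.add (hMi.const_mul _)) (integrable_const _)
      have e3 : ∫ ω, (-(F'.indicator (fun _ => s / 2) ω) + N * Mc ω) ∂P =
          ∫ ω, -(F'.indicator (fun _ => s / 2) ω) ∂P + ∫ ω, N * Mc ω ∂P :=
        integral_add hI.neg (hMi.const_mul _)
      rw [e2, e3, integral_neg, e1, integral_const_mul, integral_const, probReal_univ, one_smul]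
    rw [hF'eq]
    linarith
  · intro ω
    exact Finset.mem_image_of_mem _ (hξS ω)
  · intro b
    have : ξ ⁻¹' {b} = ξ0 ⁻¹' {b - N • w} := by
      ext ω
      simp only [ξ, mem_preimage, mem_singleton_iff, eq_sub_iff_add_eq]
    rw [this]
    exact hξm _
  · intro ω z hz
    have hz' : nm z ≤ R := by simpa [bl] using hz
    have h1 := (abs_le.1 (hνle z)).2
    have h2 : M.CM * nm z ≤ M.CM * R := mul_le_mul_of_nonneg_left hz' hCM.le
    have h3 : (N : ℝ) * (r / 2) ≤ N * ν (tr w) :=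
      mul_le_mul_of_nonneg_left hνw0 (Nat.cast_nonneg N)
    show ν (tr z) < ν (tr (ξ0 ω + N • w)) - ρ
    rw [hνi]
    have := hξν ω
    linarith

theorem LRM.T1_of_UpAll (M : LRM d P) {β : ℝ} (hβ : 0 < β) (hβ1 : β ≤ 1) (hUp : M.UpAll β) :
    M.T1 β := by
  intro D
  obtain ⟨Ca, hCa, hcon⟩ := M.connect hβ hβ1 hUp
  have hCl := M.one_le_Cl
  have hcm := M.isNm.cpos
  set B : ℝ := max D 1 with hB
  have hB1 : 1 ≤ B := le_max_right _ _
  have hBD : D ≤ B := le_max_left _ _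
  set N : ℕ := ⌈2 * (2 * (|M.CM| * (M.Cl * B)) + (1 + Ca) + 1)⌉₊ with hN
  have hN1 : 2 * (2 * (|M.CM| * (M.Cl * B)) + (1 + Ca) + 1) ≤ N := Nat.le_ceil _
  set D1 : ℝ := B + N * (1 / M.cm + 1) with hD1
  have hN0 : (0 : ℝ) ≤ N := Nat.cast_nonneg N
  have hD1pos : 0 < D1 := by
    have : 0 ≤ N * (1 / M.cm + 1) := mul_nonneg hN0 (by positivity)
    linarith
  obtain ⟨Cc, hCc⟩ := hcon D1 1 hD1pos one_pos
  have hloc := M.loc_scale (ε := β / 2) (a := 1) (B := B) (by linarith) one_pos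
    (by linarith) 0
  refine ⟨2 * N * |Cc| + N * |M.CM| + |M.CM| * B, ?_⟩
  filter_upwards [hCc, hloc 1, eventually_ge_atTop 1, eventually_ge_atTop M.CM,
    ev_rpow_le (2 * B ^ (β / 2)) one_pos (show β / 2 < β by linarith)] with
    r hr1 hr2 hr3 hr4 hr5 ν p hν s hs
  have hr0 : 0 < r := by linarith
  obtain ⟨hCM, hp, -⟩ := M.isNm.norm_p hν
  rw [abs_of_pos hCM] at hN1 ⊢
  have hrβ : 1 ≤ r ^ β := Real.one_le_rpow hr3 hβ.le
  have hs0 : 0 < s := by linarith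
  have hCpos : 0 ≤ 2 * N * |Cc| + N * M.CM + M.CM * B := by
    have := abs_nonneg Cc
    positivity
  rcases le_or_gt s (M.CM * (B * r)) with hsb | hsb
  · obtain ⟨Mc, hMm, hM0, hMi, hMint, hMc⟩ := hr1 ν p hν
    set R : ℝ := M.Cl * (B * r ^ (1 : ℝ)) with hR
    rw [Real.rpow_one] at hR
    have hR0 : 0 ≤ R := by rw [hR]; positivity
    set ρ : ℝ := (1 + Ca) * r + M.CM * R with hρ
    have hCR : 0 ≤ M.CM * R := mul_nonneg hCM.le hR0
    have hcore := M.T1_core ν p hν r s R ρ B 1 D1 Ca N hr3 hr4 hs0 (by linarith) hR0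
      (by rw [hρ]; positivity) (by rw [hρ]; linarith)
      (by rw [hρ]; have : 0 ≤ (1 + Ca) * r := by positivity
          linarith)
      (by
        rw [hρ]
        have h1 : (2 * (2 * (M.CM * (M.Cl * B)) + (1 + Ca) + 1)) * (r / 2) ≤ N * (r / 2) :=
          mul_le_mul_of_nonneg_right hN1 (by linarith)
        have h2 : (2 * (2 * (M.CM * (M.Cl * B)) + (1 + Ca) + 1)) * (r / 2) =
            M.CM * R + ((1 + Ca) * r + M.CM * R) + r := by rw [hR]; ring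
        exact lt_of_lt_of_le (lt_add_of_pos_right _ hr0) (h2.symm.le.trans h1))
      zero_le_one
      (by
        rw [hD1]
        have h1 : (1 : ℝ) / 2 ≤ r := by linarith
        have h2 : r / M.cm + 1 / 2 ≤ (1 / M.cm + 1) * r := by
          have : (1 / M.cm + 1) * r = r / M.cm + r := by ring
          linarith
        have h3 := mul_le_mul_of_nonneg_left h2 hN0
        linarith)
      Mc hMm hMi hMc
    -- inclusion
    have hincl : {ω | ∃ b : V d, nm b ≤ D * r ∧ M.t ω 0 b ≤ ν (tr b) - s} ⊆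
        {ω | ∃ b : V d, nm b ≤ B * r ∧ ω ∈ M.LE (bl 0 R) 0 b (ν (tr b) - s / 2)} ∪
          {ω | ¬ M.LocAt ω (r ^ (0 : ℝ)) (B * r ^ (1 : ℝ)) (β / 2)} := by
      rintro ω ⟨b, hb, hbt⟩
      by_cases hL : M.LocAt ω (r ^ (0 : ℝ)) (B * r ^ (1 : ℝ)) (β / 2)
      · left
        have hb' : nm b ≤ B * r := hb.trans (mul_le_mul_of_nonneg_right hBD hr0.le)
        refine ⟨b, hb', ?_⟩
        have h1 := hL 0 b (by rw [nm_zero, Real.rpow_zero]; exact zero_le_one)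
          (by rw [sub_zero, Real.rpow_one]; exact hb')
        refine M.LE_mono _ _ _ _ _ _ le_rfl ?_ h1
        have h2 : (B * r ^ (1 : ℝ)) ^ (β / 2) = B ^ (β / 2) * r ^ (β / 2) := by
          rw [Real.rpow_one, Real.mul_rpow (by linarith) hr0.le]
        rw [h2]
        rw [one_mul] at hr5
        linarith
      · right; exact hL
    have h1 : P.real {ω | ∃ b : V d, nm b ≤ D * r ∧ M.t ω 0 b ≤ ν (tr b) - s} ≤
        P.real {ω | ∃ b : V d, nm b ≤ B * r ∧ ω ∈ M.LE (bl 0 R) 0 b (ν (tr b) - s / 2)} +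
        P.real {ω | ¬ M.LocAt ω (r ^ (0 : ℝ)) (B * r ^ (1 : ℝ)) (β / 2)} :=
      (measureReal_mono hincl).trans (measureReal_union_le _ _)
    set pF := P.real {ω | ∃ b : V d, nm b ≤ B * r ∧ ω ∈ M.LE (bl 0 R) 0 b (ν (tr b) - s / 2)}
      with hpF
    have h2 : P.real {ω | ¬ M.LocAt ω (r ^ (0 : ℝ)) (B * r ^ (1 : ℝ)) (β / 2)} ≤
        M.CM * B * r ^ β / s := by
      refine hr2.trans ?_
      rw [Nat.cast_one, Real.rpow_neg_one, le_div_iff₀ hs0, inv_mul_le_iff₀ hr0]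
      calc s ≤ M.CM * (B * r) := hsb
        _ = M.CM * (B * r) * 1 := (mul_one _).symm
        _ ≤ M.CM * (B * r) * r ^ β := mul_le_mul_of_nonneg_left hrβ (by positivity)
        _ = r * (M.CM * B * r ^ β) := by ring
    have h3 : pF ≤ (2 * N * |Cc| + N * M.CM) * r ^ β / s := by
      rw [le_div_iff₀ hs0]
      have h4 : N * ∫ ω, Mc ω ∂P ≤ N * (|Cc| * r ^ β) := by
        refine mul_le_mul_of_nonneg_left (hMint.trans ?_) hN0
        exact mul_le_mul_of_nonneg_right (le_abs_self _) (by linarith)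
      have h5 : N * M.CM ≤ N * M.CM * r ^ β :=
        le_mul_of_one_le_right (by positivity) hrβ
      nlinarith [hcore, h4, h5]
    refine h1.trans ?_
    have h6 : (2 * N * |Cc| + N * M.CM + M.CM * B) * r ^ β / s =
        (2 * N * |Cc| + N * M.CM) * r ^ β / s + M.CM * B * r ^ β / s := by ring
    rw [h6]
    exact add_le_add h3 h2
  · have hempty : {ω | ∃ b : V d, nm b ≤ D * r ∧ M.t ω 0 b ≤ ν (tr b) - s} = ∅ := by
      rw [Set.eq_empty_iff_forall_notMem]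
      rintro ω ⟨b, hb, hbt⟩
      have h1 := M.t_nonneg ω 0 b
      have h2 := (abs_le.1 (M.isNm.abs_le hν (tr b))).2
      have h3 : M.CM * ‖tr b‖ ≤ M.CM * (B * r) := by
        refine mul_le_mul_of_nonneg_left ?_ hCM.le
        exact le_trans hb (mul_le_mul_of_nonneg_right hBD hr0.le)
      linarith
    rw [hempty, measureReal_empty]
    have := Real.rpow_nonneg hr0.le β
    positivity

end FPPX
end
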