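import Pool.Agent.Lib.MP_fa364e_pr.Mg.G006
import Pool.Agent.Lib.MP_fa364e_pr.Core.Chord
import Pool.Agent.Lib.MP_fa364e_pr.Mg.G001
import Pool.Agent.Lib.MP_fa364e_pr.Mg.G002
import Pool.Agent.Lib.MP_fa364e_pr.Mg.G009
import Pool.Agent.Lib.MP_fa364e_pr.Mg.G003

section

/-! Tubes: the geometric construction. -/

namespace FPPX

open MeasureTheory ProbabilityTheory Filter Set
open scoped Topology

variable {d : ℕ} {Ω : Type} [MeasurableSpace Ω] {P : Measure Ω} [IsProbabilityMeasure P]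

private lemma tubB_zero {μ : E d → ℝ} {c C : ℝ} (h : IsNm μ c C) : μ 0 = 0 := by
  have := h.smul 0 0
  simpa using this

private lemma tubB_neg {μ : E d → ℝ} {c C : ℝ} (h : IsNm μ c C) (x : E d) : μ (-x) = μ x := by
  have := h.smul (-1) x
  simpa using this

private lemma tubB_smul {μ : E d → ℝ} {c C : ℝ} (h : IsNm μ c C) {s : ℝ} (hs : 0 ≤ s) (x : E d) :
    μ (s • x) = s * μ x := by
  rw [h.smul, abs_of_nonneg hs]

private lemma tubB_le {μ : E d → ℝ} {c C : ℝ} (h : IsNm μ c C) (x y : E d) {ε : ℝ}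
    (hxy : ‖x - y‖ ≤ ε) (hC : 0 ≤ C) : μ x ≤ μ y + C * ε := by
  have h1 := h.sub_le x y
  have h2 := abs_le.1 h1
  have h3 := mul_le_mul_of_nonneg_left hxy hC
  linarith [h2.2]

private lemma tubB_ge {μ : E d → ℝ} {c C : ℝ} (h : IsNm μ c C) (x y : E d) {ε : ℝ}
    (hxy : ‖x - y‖ ≤ ε) (hC : 0 ≤ C) : μ y - C * ε ≤ μ x := by
  have h1 := h.sub_le x y
  have h2 := abs_le.1 h1
  have h3 := mul_le_mul_of_nonneg_left hxy hC
  linarith [h2.1]

private lemma tubB_nu {μ : E d → ℝ} {c C : ℝ} (h : IsNm μ c C) {ν : E d →ₗ[ℝ] ℝ} {p : E d}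
    (hν : Supp μ ν p) (x y : E d) {ε : ℝ}
    (hxy : ‖x - y‖ ≤ ε) (hC : 0 ≤ C) : ν y - C * ε ≤ ν x := by
  have h1 := h.abs_le hν (x - y)
  have h2 := abs_le.1 h1
  have h3 := mul_le_mul_of_nonneg_left hxy hC
  rw [map_sub] at h2
  linarith [h2.1]

private lemma tubB_exists_e (hd : 2 ≤ d) (ν : E d →ₗ[ℝ] ℝ) : ∃ e : E d, e ≠ 0 ∧ ν e = 0 := by
  have h1 : LinearMap.ker ν ≠ ⊥ := by
    apply LinearMap.ker_ne_bot_of_finrank_lt
    simp only [Module.finrank_self, Module.finrank_fintype_fun_eq_card, Fintype.card_fin]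
    omega
  obtain ⟨e, he, he0⟩ := Submodule.exists_mem_ne_zero_of_ne_bot h1
  exact ⟨e, he0, he⟩

private lemma tubB_convex {μ : E d → ℝ} {c C : ℝ} (h : IsNm μ c C) (p e : E d) :
    ConvexOn ℝ univ (fun t : ℝ => μ (p + t • e) - 1) := by
  refine ⟨convex_univ, fun x _ y _ a b ha hb hab => ?_⟩
  have h1 : p + (a • x + b • y) • e = a • (p + x • e) + b • (p + y • e) := by
    have : p = a • p + b • p := by rw [← add_smul, hab, one_smul]
    conv_lhs => rw [this]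
    simp only [smul_add, add_smul, smul_smul, smul_eq_mul]
    abel
  have h2 := h.add (a • (p + x • e)) (b • (p + y • e))
  rw [tubB_smul h ha, tubB_smul h hb] at h2
  simp only [smul_eq_mul] at h1 ⊢
  rw [h1]
  have h3 : a * (μ (p + x • e) - 1) + b * (μ (p + y • e) - 1)
      = a * μ (p + x • e) + b * μ (p + y • e) - 1 := by
    linear_combination (-1 : ℝ) * hab
  linarith

private lemma tubB_cont {μ : E d → ℝ} {c C : ℝ} (h : IsNm μ c C) (p e : E d) :
    Continuous (fun t : ℝ => μ (p + t • e) - 1) := by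
  have h1 := (tubB_convex h p e).continuousOn isOpen_univ
  exact continuousOn_univ.1 h1

private lemma tubB_far {μ : E d → ℝ} {c C : ℝ} (h : IsNm μ c C) {p e : E d} (hp : μ p = 1)
    (he : e ≠ 0) {E1 : ℝ} (hE1 : 0 < E1) :
    ∃ b : ℝ, 0 < b ∧ μ (p + b • e) - 1 = E1 := by
  have hμe : 0 < μ e := by
    have h1 := h.lb e
    have h2 : 0 < c * ‖e‖ := mul_pos h.cpos (norm_pos_iff.2 he)
    linarith
  set T : ℝ := (E1 + 2) / μ e with hT
  have hT0 : 0 < T := by positivity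
  have h2 : T * μ e = E1 + 2 := by
    rw [hT]; field_simp
  have h3 : E1 ≤ μ (p + T • e) - 1 := by
    have h4 := h.add (p + T • e) (-p)
    have h5 : p + T • e + -p = T • e := by abel
    rw [h5, tubB_smul h hT0.le, tubB_neg h, hp] at h4
    linarith
  have h0 : μ (p + (0 : ℝ) • e) - 1 = 0 := by simp [hp]
  have hmem : E1 ∈ Icc (μ (p + (0 : ℝ) • e) - 1) (μ (p + T • e) - 1) := ⟨by rw [h0]; exact hE1.le, h3⟩
  obtain ⟨b, hb, hb2⟩ := intermediate_value_Icc hT0.le (tubB_cont h p e).continuousOn hmem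
  refine ⟨b, ?_, hb2⟩
  rcases lt_or_eq_of_le hb.1 with h6 | h6
  · exact h6
  · exfalso
    rw [← h6] at hb2
    simp only at hb2
    rw [h0] at hb2
    linarith

private theorem tubB_core {μ : E d → ℝ} {c C : ℝ} (h : IsNm μ c C) (hd : 2 ≤ d)
    {ν : E d →ₗ[ℝ] ℝ} {p : E d} (hν : Supp μ ν p) (m ρ N E1 : ℝ) (K J : ℕ) (hm : 0 < m)
    (hρ : 0 < ρ) (hE1 : 0 < E1) (hE1' : E1 ≤ 1) (hK : 4 ≤ K)
    (hKE : (K : ℝ) ^ 2 * (16 * N / m) ≤ E1) (hN : C < 2 * N) (hJ : (J : ℝ) * m ≤ K * ρ) :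
    ∃ (u : Fin J → V d) (z X : V d),
      nm z ≤ 2 / c * m + 1 / 2 ∧ (∀ j, nm (u j) ≤ 2 / c * ρ + 1 / 2) ∧
      (∀ j, nm (X - (u j + z)) ≤ 2 / c * ρ + 1) ∧
      m + 2 * ρ - C ≤ ν (tr X) ∧ nm X ≤ 2 / c * m + 4 / c * ρ + 1 ∧
      (∀ j, μ (tr (u j)) + μ (tr z) + μ (tr (X - (u j + z))) ≤
        ν (tr X) + (m + 2 * ρ) * E1 + 3 * C) ∧
      ∀ i j, i ≠ j → ∀ x : V d,
        μ (tr (x - u i)) + μ (tr (u i + z - x)) ≤ μ (tr z) + 4 * N →
        μ (tr (x - u j)) + μ (tr (u j + z - x)) ≤ μ (tr z) + 4 * N → False := by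
  obtain ⟨hνμ, hνp, hμp⟩ := hν
  have hν : Supp μ ν p := ⟨hνμ, hνp, hμp⟩
  have hC : 0 < C := (h.norm_p hν).1
  have hc := h.cpos
  obtain ⟨e, he0, hνe⟩ := tubB_exists_e hd ν
  obtain ⟨b, hb0, hb⟩ := tubB_far h hμp he0 hE1
  obtain ⟨a', ha'0, ha'⟩ := tubB_far h hμp (neg_ne_zero.2 he0) hE1
  set φ : ℝ → ℝ := fun t => μ (p + t • e) - 1 with hφ
  have hconv : ConvexOn ℝ univ φ := tubB_convex h p e
  set a : ℝ := -a' with ha
  have ha0 : a < 0 := by rw [ha]; linarith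
  have hφa : φ a = E1 := by
    rw [hφ, ha]
    simpa using ha'
  have hφb : φ b = E1 := hb
  have hφ0 : φ 0 = 0 := by simp [hφ, hμp]
  obtain ⟨t0, ht1, ht2, ht3⟩ := chord φ hconv hφ0 a b E1 (16 * N / m) ha0 hb0 hφa hφb hE1 K hK hKE
  have hKpos : (0 : ℝ) < K := by
    have : 0 < K := by omega
    exact_mod_cast this
  set w : ℝ := b - a with hw
  have hw0 : 0 < w := by rw [hw]; linarith
  have hwK : 0 < w / K := div_pos hw0 hKpos
  set s : ℝ := (m / ρ) * (w / K) with hs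
  have hs0 : 0 < s := by positivity
  have hJs : (J : ℝ) * s ≤ w := by
    have h1 : (J : ℝ) * s = (J * m) / (K * ρ) * w := by
      rw [hs]; field_simp
    rw [h1]
    have h2 : (J * m) / (K * ρ) ≤ 1 := by
      rw [div_le_one (by positivity)]; exact hJ
    exact mul_le_of_le_one_left hw0.le h2
  set tc : ℝ := (a + b) / 2 with htc
  -- bound on the segment
  have hseg : ∀ t : ℝ, a ≤ t → t ≤ b → μ (p + t • e) ≤ 1 + E1 := by
    intro t h1 h2
    have h3 := hconv.le_max_of_mem_Icc (mem_univ a) (mem_univ b) ⟨h1, h2⟩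
    rw [hφa, hφb, max_self] at h3
    simp only [hφ] at h3
    linarith
  have hnorm : ∀ t : ℝ, a ≤ t → t ≤ b → ‖p + t • e‖ ≤ 2 / c := by
    intro t h1 h2
    rw [le_div_iff₀ hc]
    have h3 := hseg t h1 h2
    have h4 := h.lb (p + t • e)
    linarith
  have hνt : ∀ t : ℝ, ν (p + t • e) = 1 := by
    intro t; rw [map_add, map_smul, hνe, hνp]; simp
  have ht0a : a ≤ t0 := by linarith
  have ht0b : t0 ≤ b := by linarith
  have htca : a ≤ tc := by rw [htc]; linarith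
  have htcb : tc ≤ b := by rw [htc]; linarith
  set tj : Fin J → ℝ := fun j => -w / 2 + (j : ℝ) * s with htj
  have htj1 : ∀ j, -w / 2 ≤ tj j := by
    intro j
    have : 0 ≤ (j : ℝ) * s := by positivity
    simp only [htj]; linarith
  have htj2 : ∀ j, tj j ≤ w / 2 := by
    intro j
    have h1 : (j : ℝ) ≤ J := by exact_mod_cast j.2.le
    have h2 : (j : ℝ) * s ≤ J * s := mul_le_mul_of_nonneg_right h1 hs0.le
    simp only [htj]; linarith
  set u : Fin J → V d := fun j => rd (ρ • (p + (tc + tj j) • e)) with hu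
  set z : V d := rd (m • (p + t0 • e)) with hz
  set y : V d := rd ((2 * ρ) • (p + tc • e)) with hy
  have hu' : ∀ j, ‖tr (u j) - ρ • (p + (tc + tj j) • e)‖ ≤ 1 / 2 := fun j => norm_rd_sub _
  have hz' : ‖tr z - m • (p + t0 • e)‖ ≤ 1 / 2 := norm_rd_sub _
  have hy' : ‖tr y - (2 * ρ) • (p + tc • e)‖ ≤ 1 / 2 := norm_rd_sub _
  have hnu : ∀ j, nm (u j) ≤ 2 / c * ρ + 1 / 2 := by
    intro j
    refine (nm_rd_le _).trans ?_
    rw [norm_smul, Real.norm_of_nonneg hρ.le]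
    have h1 := hnorm (tc + tj j) (by have := htj1 j; rw [htc]; linarith)
      (by have := htj2 j; rw [htc]; linarith)
    have h2 := mul_le_mul_of_nonneg_left h1 hρ.le
    linarith
  have hnz : nm z ≤ 2 / c * m + 1 / 2 := by
    refine (nm_rd_le _).trans ?_
    rw [norm_smul, Real.norm_of_nonneg hm.le]
    have h2 := mul_le_mul_of_nonneg_left (hnorm t0 ht0a ht0b) hm.le
    linarith
  have hny : nm y ≤ 4 / c * ρ + 1 / 2 := by
    refine (nm_rd_le _).trans ?_
    rw [norm_smul, Real.norm_of_nonneg (by positivity)]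
    have h2 := mul_le_mul_of_nonneg_left (hnorm tc htca htcb) (by positivity : 0 ≤ 2 * ρ)
    have h3 : 2 * ρ * (2 / c) = 4 / c * ρ := by ring
    linarith
  -- the difference y - u j
  have hyu : ∀ j, ‖tr (y - u j) - ρ • (p + (tc - tj j) • e)‖ ≤ 1 := by
    intro j
    have h1 : tr (y - u j) - ρ • (p + (tc - tj j) • e)
        = (tr y - (2 * ρ) • (p + tc • e)) - (tr (u j) - ρ • (p + (tc + tj j) • e)) := by
      rw [tr_sub]
      simp only [smul_add, add_smul, sub_smul, smul_smul, smul_sub]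
      have : (2 * ρ) • p = ρ • p + ρ • p := by rw [← add_smul]; ring_nf
      rw [this]
      have h3 : (2 * ρ * tc) • e = (ρ * tc) • e + (ρ * tc) • e := by rw [← add_smul]; ring_nf
      rw [h3]
      abel
    rw [h1]
    refine (norm_sub_le _ _).trans ?_
    linarith [hu' j]
  have hseg1 : ∀ j, a ≤ tc + tj j ∧ tc + tj j ≤ b ∧ a ≤ tc - tj j ∧ tc - tj j ≤ b := by
    intro j
    have h1 := htj1 j
    have h2 := htj2 j
    refine ⟨?_, ?_, ?_, ?_⟩ <;> rw [htc] <;> linarith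
  refine ⟨u, z, z + y, hnz, hnu, ?_, ?_, ?_, ?_, ?_⟩
  · intro j
    have h1 : z + y - (u j + z) = y - u j := by abel
    rw [h1]
    unfold nm
    have h2 := hyu j
    have h3 : tr (y - u j) = (tr (y - u j) - ρ • (p + (tc - tj j) • e)) + ρ • (p + (tc - tj j) • e) := by
      abel
    rw [h3]
    refine (norm_add_le _ _).trans ?_
    rw [norm_smul, Real.norm_of_nonneg hρ.le]
    have h5 := mul_le_mul_of_nonneg_left (hnorm (tc - tj j) (hseg1 j).2.2.1 (hseg1 j).2.2.2) hρ.le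
    linarith
  · rw [tr_add, map_add]
    have h1 := tubB_nu h hν _ _ hz' hC.le
    have h2 := tubB_nu h hν _ _ hy' hC.le
    rw [map_smul, hνt, smul_eq_mul] at h1 h2
    linarith
  · refine (nm_add _ _).trans ?_
    linarith
  · intro j
    have h0 : z + y - (u j + z) = y - u j := by abel
    rw [h0, tr_add, map_add]
    have h1 := tubB_nu h hν _ _ hz' hC.le
    have h2 := tubB_nu h hν _ _ hy' hC.le
    rw [map_smul, hνt, smul_eq_mul] at h1 h2
    have h3 := tubB_le h _ _ (hu' j) hC.le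
    have h4 := tubB_le h _ _ hz' hC.le
    have h5 := tubB_le h _ _ (hyu j) hC.le
    rw [tubB_smul h hρ.le] at h3 h5
    rw [tubB_smul h hm.le] at h4
    have h6 := mul_le_mul_of_nonneg_left (hseg _ (hseg1 j).1 (hseg1 j).2.1) hρ.le
    have h7 := mul_le_mul_of_nonneg_left (hseg _ (hseg1 j).2.2.1 (hseg1 j).2.2.2) hρ.le
    have h8 := mul_le_mul_of_nonneg_left (hseg _ ht0a ht0b) hm.le
    linarith
  · intro i j hij x hxi hxj
    -- triangle inequality
    set Δ : V d := u j - u i with hΔ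
    have h1 : μ (tr z + tr Δ) ≤ μ (tr (x - u i)) + μ (tr (u j + z - x)) := by
      have h2 := h.add (tr (x - u i)) (tr (u j + z - x))
      have h3 : tr (x - u i) + tr (u j + z - x) = tr z + tr Δ := by
        rw [← tr_add, ← tr_add]; congr 1; rw [hΔ]; abel
      rwa [h3] at h2
    have h2 : μ (tr z - tr Δ) ≤ μ (tr (x - u j)) + μ (tr (u i + z - x)) := by
      have h2 := h.add (tr (x - u j)) (tr (u i + z - x))
      have h3 : tr (x - u j) + tr (u i + z - x) = tr z - tr Δ := by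
        rw [← tr_add, ← tr_sub]; congr 1; rw [hΔ]; abel
      rwa [h3] at h2
    set T : ℝ := (ρ / m) * (tj j - tj i) with hT
    have hT1 : w / K ≤ |T| := by
      have h3 : T = ((j : ℝ) - (i : ℝ)) * (w / K) := by
        rw [hT, htj]
        simp only
        rw [hs]
        field_simp
        ring
      rw [h3, abs_mul, abs_of_pos hwK]
      have h4 : (1 : ℝ) ≤ |(j : ℝ) - (i : ℝ)| := by
        have h5 : (1 : ℤ) ≤ |((j : ℕ) : ℤ) - ((i : ℕ) : ℤ)| := by
          apply Int.one_le_abs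
          intro h6
          apply hij
          apply Fin.ext
          omega
        exact_mod_cast h5
      exact le_mul_of_one_le_left hwK.le h4
    have hΔ' : ‖tr Δ - (m * T) • e‖ ≤ 1 := by
      have h3 : tr Δ - (m * T) • e = (tr (u j) - ρ • (p + (tc + tj j) • e))
          - (tr (u i) - ρ • (p + (tc + tj i) • e)) := by
        rw [hΔ, tr_sub]
        have h4 : m * T = ρ * tj j - ρ * tj i := by rw [hT]; field_simp
        rw [h4]
        simp only [smul_add, add_smul, sub_smul, smul_smul]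
        abel
      rw [h3]
      refine (norm_sub_le _ _).trans ?_
      linarith [hu' j, hu' i]
    have h3 : m * (μ (p + (t0 + T) • e)) - C * (3 / 2) ≤ μ (tr z + tr Δ) := by
      rw [← tubB_smul h hm.le]
      apply tubB_ge h _ _ _ hC.le
      have h4 : tr z + tr Δ - m • (p + (t0 + T) • e)
          = (tr z - m • (p + t0 • e)) + (tr Δ - (m * T) • e) := by
        simp only [smul_add, add_smul, smul_smul]
        abel
      rw [h4]
      refine (norm_add_le _ _).trans ?_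
      linarith
    have h4 : m * (μ (p + (t0 - T) • e)) - C * (3 / 2) ≤ μ (tr z - tr Δ) := by
      rw [← tubB_smul h hm.le]
      apply tubB_ge h _ _ _ hC.le
      have h4 : tr z - tr Δ - m • (p + (t0 - T) • e)
          = (tr z - m • (p + t0 • e)) - (tr Δ - (m * T) • e) := by
        simp only [smul_add, sub_smul, smul_smul, smul_sub]
        abel
      rw [h4]
      refine (norm_sub_le _ _).trans ?_
      linarith
    have h5 := tubB_le h _ _ hz' hC.le
    rw [tubB_smul h hm.le] at h5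
    have h6 := second_diff_mono φ hconv t0 (w / K) T hwK.le hT1
    have h7 : 16 * N / m ≤ φ (t0 + T) + φ (t0 - T) - 2 * φ t0 := ht3.trans h6
    simp only [hφ] at h7
    have h8 := mul_le_mul_of_nonneg_left h7 hm.le
    have h9 : m * (16 * N / m) = 16 * N := by field_simp
    rw [h9] at h8
    linarith

/-- the geometric construction -/
theorem PreLRM.tube_geometry (M : PreLRM d P) (hd : 2 ≤ d) {κ γ : ℝ} (hκ : 0 < κ) (hκγ : κ < γ)
    (hγ : γ ≤ 1) (C5 : ℝ) (hC5 : 1 ≤ C5) :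
    ∃ C6 : ℝ, 1 ≤ C6 ∧ ∀ᶠ m : ℝ in atTop, ∀ (ν : E d →ₗ[ℝ] ℝ) (p : E d), Supp M.μ ν p →
      ∃ (J : ℕ) (u : Fin J → V d) (z X : V d),
        m ^ ((γ - κ) / 4 - (γ - κ) / 4 / (1 + γ / 2)) / 4 ≤ J ∧
        (J : ℝ) ≤ 2 * m ^ ((γ - κ) / 4 - (γ - κ) / 4 / (1 + γ / 2)) ∧
        nm z ≤ 3 / M.cm * m ∧
        (∀ j, nm (u j) ≤ C6 * m ^ (1 - (γ - κ) / 4 / (1 + γ / 2))) ∧
        (∀ j, nm (X - (u j + z)) ≤ C6 * m ^ (1 - (γ - κ) / 4 / (1 + γ / 2))) ∧
        m ≤ ν (tr X) ∧ nm X ≤ C6 * m ∧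
        (∀ j, M.μ (tr (u j)) + M.μ (tr z) + M.μ (tr (X - (u j + z))) ≤
          ν (tr X) + m ^ (γ - (γ - κ) * γ / 32) / 8) ∧
        ∀ i j, i ≠ j → Disjoint (M.tube (u i) z (4 * (C5 * m) ^ κ))
          (M.tube (u j) z (4 * (C5 * m) ^ κ)) := by
  have hc := M.isNm.cpos
  have hγ0 : 0 < γ := hκ.trans hκγ
  set θ : ℝ := γ - κ with hθ
  have hθ0 : 0 < θ := by rw [hθ]; linarith
  set c' : ℝ := θ / 4 with hc'
  have hc'0 : 0 < c' := by rw [hc']; linarith
  set ε2 : ℝ := c' / (1 + γ / 2) with hε2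
  have hε20 : 0 < ε2 := by positivity
  have hε2c : ε2 < c' := by
    rw [hε2, div_lt_iff₀ (by positivity)]
    nlinarith
  have hc'1 : c' < 1 := by rw [hc', hθ]; linarith
  have ha : 2 * c' + κ < γ - θ * γ / 32 := by
    have : θ * γ ≤ θ := by nlinarith
    rw [hc']
    have h2 : γ = κ + θ := by rw [hθ]; ring
    linarith
  have hga : 0 < γ - θ * γ / 32 := by linarith
  have hga1 : γ - θ * γ / 32 ≤ 1 := by
    have : 0 < θ * γ := by positivity
    linarith
  refine ⟨6 / M.cm + 2, ?_, ?_⟩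
  · have : 0 < 6 / M.cm := by positivity
    linarith
  filter_upwards [ev_rpow_le (64 * C5 ^ κ) (by norm_num : (0 : ℝ) < 1 / 64) ha,
    ev_const_le (M.CM + 1) (by norm_num : (0 : ℝ) < 2) hκ,
    ev_const_le 4 (by norm_num : (0 : ℝ) < 1) hc'0,
    ev_const_le 4 (by norm_num : (0 : ℝ) < 1) (by linarith : 0 < c' - ε2),
    ev_const_le M.CM (by norm_num : (0 : ℝ) < 2) (by linarith : 0 < 1 - ε2),
    ev_const_le (3 * M.CM) (by norm_num : (0 : ℝ) < 5 / 64) hga,
    eventually_ge_atTop 1, eventually_ge_atTop M.cm] with m e1 e2 e3 e4 e5 e6 hm1 hmc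
  intro ν p hν
  have hm0 : 0 < m := by linarith
  set g : ℝ := m ^ (γ - θ * γ / 32) with hg
  have hg0 : 0 < g := Real.rpow_pos_of_pos hm0 _
  set ρ : ℝ := m ^ (1 - ε2) with hρ
  have hρ0 : 0 < ρ := Real.rpow_pos_of_pos hm0 _
  have hρ1 : 1 ≤ ρ := Real.one_le_rpow hm1 (by linarith)
  have hρm : ρ ≤ m := by
    have := Real.rpow_le_rpow_of_exponent_le hm1 (by linarith : 1 - ε2 ≤ 1)
    rwa [Real.rpow_one] at this
  have hgm : g ≤ m := by
    have := Real.rpow_le_rpow_of_exponent_le hm1 hga1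
    rwa [Real.rpow_one] at this
  set N : ℝ := (C5 * m) ^ κ with hN
  have hN1 : N = C5 ^ κ * m ^ κ := Real.mul_rpow (by linarith) hm0.le
  have hC5κ : 1 ≤ C5 ^ κ := Real.one_le_rpow hC5 hκ.le
  have hmκ : 0 < m ^ κ := Real.rpow_pos_of_pos hm0 _
  have hNm : m ^ κ ≤ N := by
    rw [hN1]; exact le_mul_of_one_le_left hmκ.le hC5κ
  set K : ℕ := ⌈m ^ c'⌉₊ with hK
  have hmc' : 0 < m ^ c' := Real.rpow_pos_of_pos hm0 _
  have hK1 : m ^ c' ≤ K := Nat.le_ceil _
  have hK2 : (K : ℝ) ≤ 2 * m ^ c' := by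
    have := Nat.ceil_lt_add_one hmc'.le
    rw [← hK] at this
    linarith
  have hK4 : 4 ≤ K := by
    have : (4 : ℝ) ≤ K := by linarith
    exact_mod_cast this
  set J : ℕ := ⌊(K : ℝ) * m ^ (-ε2)⌋₊ with hJ
  have hmε : 0 < m ^ (-ε2) := Real.rpow_pos_of_pos hm0 _
  have hJ1 : (J : ℝ) ≤ K * m ^ (-ε2) := Nat.floor_le (by positivity)
  have hJ2 : (K : ℝ) * m ^ (-ε2) < J + 1 := Nat.lt_floor_add_one _
  have hpow : m ^ c' * m ^ (-ε2) = m ^ (c' - ε2) := by
    rw [← Real.rpow_add hm0]; congr 1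
  have hJm : (J : ℝ) * m ≤ K * ρ := by
    have h1 : ρ = m ^ (-ε2) * m := by
      rw [hρ]
      nth_rw 3 [← Real.rpow_one m]
      rw [← Real.rpow_add hm0]; congr 1; ring
    rw [h1, ← mul_assoc]
    exact mul_le_mul_of_nonneg_right hJ1 hm0.le
  set E1 : ℝ := g / (64 * m) with hE1
  have hE10 : 0 < E1 := by positivity
  have hE11 : E1 ≤ 1 := by
    rw [hE1, div_le_one (by positivity)]; linarith
  have hKE : (K : ℝ) ^ 2 * (16 * N / m) ≤ E1 := by
    have h1 : (K : ℝ) ^ 2 ≤ 4 * m ^ (2 * c') := by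
      have h2 : m ^ (2 * c') = (m ^ c') ^ 2 := by
        rw [mul_comm 2 c', Real.rpow_mul hm0.le]; norm_num
      rw [h2]
      have hK0 : (0 : ℝ) ≤ K := Nat.cast_nonneg _
      nlinarith
    have h3 : (K : ℝ) ^ 2 * (16 * N / m) ≤ 4 * m ^ (2 * c') * (16 * N / m) := by
      apply mul_le_mul_of_nonneg_right h1
      have : 0 < N := lt_of_lt_of_le hmκ hNm
      positivity
    refine h3.trans ?_
    rw [hE1]
    have h4 : 4 * m ^ (2 * c') * (16 * N / m) = (64 * C5 ^ κ * m ^ (2 * c' + κ)) / m := by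
      rw [hN1, Real.rpow_add hm0]; ring
    have h5 : g / (64 * m) = (1 / 64 * g) / m := by
      field_simp
    rw [h4, h5]
    exact div_le_div_of_nonneg_right e1 hm0.le
  have hCN : M.CM < 2 * N := by linarith
  obtain ⟨u, z, X, c1, c2, c3, c4, c5, c6, c7⟩ := tubB_core M.isNm hd hν m ρ N E1 K J hm0 hρ0 hE10
    hE11 hK4 hKE hCN hJm
  have hCM := (M.isNm.norm_p hν).1
  have hcm0 : 0 < 1 / M.cm := by positivity
  refine ⟨J, u, z, X, ?_, ?_, ?_, ?_, ?_, ?_, ?_, ?_, ?_⟩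
  · have h1 : m ^ (c' - ε2) ≤ K * m ^ (-ε2) := by
      rw [← hpow]; exact mul_le_mul_of_nonneg_right hK1 hmε.le
    linarith
  · refine hJ1.trans ?_
    rw [← hpow, ← mul_assoc]
    exact mul_le_mul_of_nonneg_right hK2 hmε.le
  · have h1 : 1 ≤ 1 / M.cm * m := by
      rw [div_mul_eq_mul_div, one_mul, le_div_iff₀ hc]; linarith
    have h2 : 3 / M.cm * m = 2 / M.cm * m + 1 / M.cm * m := by ring
    linarith
  · intro j
    have h1 : (6 / M.cm + 2) * ρ = 2 / M.cm * ρ + 4 * (1 / M.cm) * ρ + 2 * ρ := by ring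
    have h2 : 0 < 4 * (1 / M.cm) * ρ := by positivity
    have := c2 j
    rw [h1]; linarith
  · intro j
    have h1 : (6 / M.cm + 2) * ρ = 2 / M.cm * ρ + 4 * (1 / M.cm) * ρ + 2 * ρ := by ring
    have h2 : 0 < 4 * (1 / M.cm) * ρ := by positivity
    have := c3 j
    rw [h1]; linarith
  · linarith
  · have h1 : 4 / M.cm * ρ ≤ 4 / M.cm * m := mul_le_mul_of_nonneg_left hρm (by positivity)
    have h2 : (6 / M.cm + 2) * m = 2 / M.cm * m + 4 / M.cm * m + 2 * m := by ring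
    rw [h2]; linarith
  · intro j
    refine (c6 j).trans ?_
    have h1 : (m + 2 * ρ) * E1 ≤ 3 * m * E1 := by
      apply mul_le_mul_of_nonneg_right _ hE10.le
      linarith
    have h2 : 3 * m * E1 = 3 / 64 * g := by
      rw [hE1]; field_simp
    linarith
  · intro i j hij
    rw [Set.disjoint_left]
    intro x hxi hxj
    exact c7 i j hij x hxi hxj

end FPPX
end

section

/-! Hypothesis A: many disjoint tubes. -/

namespace FPPX

open MeasureTheory ProbabilityTheory Filter Set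
open scoped Topology

variable {d : ℕ} {Ω : Type} [MeasurableSpace Ω] {P : Measure Ω} [IsProbabilityMeasure P]

/-- integrability of passage times -/
lemma Tubes_integrable (M : PreLRM d P) (u v : V d) : Integrable (fun ω => M.t ω u v) P := by
  have h := M.integrable_pow 1 u v
  simpa using h

lemma Tubes_integrable_pos (M : PreLRM d P) (u v : V d) (c : ℝ) :
    Integrable (fun ω => max (M.t ω u v - c) 0) P :=
  ((Tubes_integrable M u v).sub (integrable_const c)).pos_part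

/-- pointwise bound -/
lemma Tubes_pointwise (M : PreLRM d P) {J : ℕ} (u : Fin J → V d) (z X : V d) (ν : E d →ₗ[ℝ] ℝ)
    (K : Fin J → Set (V d)) (b g8 : ℝ) (hg8 : 0 ≤ g8) (hb : 0 ≤ b) (hX : 0 ≤ ν (tr X))
    (hsum : ∀ j, M.μ (tr (u j)) + M.μ (tr z) + M.μ (tr (X - (u j + z))) ≤ ν (tr X) + g8) (ω : Ω) :
    max (M.t ω 0 X - ν (tr X)) 0 ≤ (g8 + b) +
      ∑ j, (max (M.t ω 0 (u j) - M.μ (tr (u j))) 0 +
        max (M.t ω (u j + z) X - M.μ (tr (X - (u j + z)))) 0) +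
      (⋂ j, (M.LE (K j) (u j) (u j + z) (M.μ (tr z) + b))ᶜ).indicator
        (fun ω => M.t ω 0 X) ω := by
  have hs0 : ∀ j, 0 ≤ (max (M.t ω 0 (u j) - M.μ (tr (u j))) 0 +
        max (M.t ω (u j + z) X - M.μ (tr (X - (u j + z)))) 0) := fun j =>
    add_nonneg (le_max_right _ _) (le_max_right _ _)
  have hS := Finset.sum_nonneg (fun j (_ : j ∈ Finset.univ) => hs0 j)
  by_cases hω : ω ∈ (⋂ j, (M.LE (K j) (u j) (u j + z) (M.μ (tr z) + b))ᶜ)
  · rw [indicator_of_mem hω]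
    have h1 := M.t_nonneg ω 0 X
    have h2 : max (M.t ω 0 X - ν (tr X)) 0 ≤ M.t ω 0 X := max_le (by linarith) h1
    linarith
  · rw [indicator_of_notMem hω]
    simp only [mem_iInter, mem_compl_iff, not_forall, not_not] at hω
    obtain ⟨j, hj⟩ := hω
    have h1 := M.LE_t _ _ _ _ _ hj
    have h2 := M.t_tri ω 0 (u j) X
    have h3 := M.t_tri ω (u j) (u j + z) X
    have h4 := hsum j
    have h5 := Finset.single_le_sum (f := fun j => (max (M.t ω 0 (u j) - M.μ (tr (u j))) 0 +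
        max (M.t ω (u j + z) X - M.μ (tr (X - (u j + z)))) 0)) (fun j _ => hs0 j)
        (Finset.mem_univ j)
    have h6 := le_max_left (M.t ω 0 (u j) - M.μ (tr (u j))) 0
    have h7 := le_max_left (M.t ω (u j + z) X - M.μ (tr (X - (u j + z)))) 0
    rw [add_zero]
    apply max_le
    · linarith
    · linarith

/-- the integrated bound -/
lemma Tubes_integral (M : PreLRM d P) {J : ℕ} (u : Fin J → V d) (z X : V d) (ν : E d →ₗ[ℝ] ℝ)
    (K : Fin J → Set (V d)) (hK : ∀ i j, i ≠ j → Disjoint (K i) (K j))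
    (b g8 : ℝ) (hg8 : 0 ≤ g8) (hb : 0 ≤ b) (hX : 0 ≤ ν (tr X))
    (hsum : ∀ j, M.μ (tr (u j)) + M.μ (tr z) + M.μ (tr (X - (u j + z))) ≤ ν (tr X) + g8)
    (hP : ∀ j, P.real (M.LE (K j) (u j) (u j + z) (M.μ (tr z) + b))ᶜ ≤ 1 / 4)
    (CU CS γ R : ℝ) (hγ : 0 ≤ γ)
    (hCU : ∀ x : V d, ∫ ω, max (M.t ω 0 x - M.μ (tr x)) 0 ∂P ≤ CU * (1 + nm x) ^ γ)
    (hCS : ∀ (x : V d) (A : Set Ω), MeasurableSet A → ∫ ω in A, M.t ω 0 x ∂P ≤
      CS * (1 + nm x) * Real.sqrt (P.real A))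
    (hCU0 : 0 ≤ CU) (hCS0 : 0 ≤ CS)
    (hu : ∀ j, nm (u j) ≤ R) (hu' : ∀ j, nm (X - (u j + z)) ≤ R) :
    ∫ ω, max (M.t ω 0 X - ν (tr X)) 0 ∂P ≤
      (g8 + b) + J * (2 * (CU * (1 + R) ^ γ)) + CS * (1 + nm X) * (1 / 2) ^ J := by
  set B : Set Ω := ⋂ j, (M.LE (K j) (u j) (u j + z) (M.μ (tr z) + b))ᶜ with hB
  have hBm : MeasurableSet B :=
    MeasurableSet.iInter (fun j => (M.F_le _ _ (M.LE_meas _ _ _ _)).compl)
  have hBp : P.real B ≤ (1 / 4) ^ J :=
    M.prob_inter J K hK _ (fun j => (M.LE_meas _ _ _ _).compl) (1 / 4) (by norm_num) hP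
  have hsq : Real.sqrt (P.real B) ≤ (1 / 2) ^ J := by
    rw [show ((1 : ℝ) / 2) ^ J = Real.sqrt ((1 / 4) ^ J) from ?_]
    · exact Real.sqrt_le_sqrt hBp
    · rw [show ((1 : ℝ) / 4) ^ J = ((1 / 2) ^ J) ^ 2 from ?_]
      · rw [Real.sqrt_sq (by positivity)]
      · rw [← pow_mul, mul_comm, pow_mul]
        norm_num
  have hf1 : ∀ j, ∫ ω, max (M.t ω 0 (u j) - M.μ (tr (u j))) 0 ∂P ≤ CU * (1 + R) ^ γ := by
    intro j
    refine (hCU (u j)).trans (mul_le_mul_of_nonneg_left ?_ hCU0)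
    exact Real.rpow_le_rpow (by linarith [nm_nonneg (u j)]) (by linarith [hu j]) hγ
  have hf2 : ∀ j, ∫ ω, max (M.t ω (u j + z) X - M.μ (tr (X - (u j + z)))) 0 ∂P ≤
      CU * (1 + R) ^ γ := by
    intro j
    rw [M.integral_shift (u j + z) X (fun s => max (s - M.μ (tr (X - (u j + z)))) 0)
      ((measurable_id.sub_const _).max measurable_const)]
    refine (hCU (X - (u j + z))).trans (mul_le_mul_of_nonneg_left ?_ hCU0)
    exact Real.rpow_le_rpow (by linarith [nm_nonneg (X - (u j + z))]) (by linarith [hu' j]) hγ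
  have hi1 : ∀ j, Integrable (fun ω => max (M.t ω 0 (u j) - M.μ (tr (u j))) 0) P := fun j =>
    Tubes_integrable_pos M _ _ _
  have hi2 : ∀ j, Integrable (fun ω => max (M.t ω (u j + z) X - M.μ (tr (X - (u j + z)))) 0) P :=
    fun j => Tubes_integrable_pos M _ _ _
  have hi12 : ∀ j, Integrable (fun ω => (max (M.t ω 0 (u j) - M.μ (tr (u j))) 0 +
        max (M.t ω (u j + z) X - M.μ (tr (X - (u j + z)))) 0)) P :=
    fun j => (hi1 j).add (hi2 j)
  have hi3 : Integrable (fun ω => ∑ j, (max (M.t ω 0 (u j) - M.μ (tr (u j))) 0 +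
        max (M.t ω (u j + z) X - M.μ (tr (X - (u j + z)))) 0)) P :=
    integrable_finsetSum _ (fun j _ => hi12 j)
  have hi4 : Integrable (B.indicator (fun ω => M.t ω 0 X)) P :=
    (Tubes_integrable M 0 X).indicator hBm
  have hi5 : Integrable (fun ω => (g8 + b) + ∑ j, (max (M.t ω 0 (u j) - M.μ (tr (u j))) 0 +
        max (M.t ω (u j + z) X - M.μ (tr (X - (u j + z)))) 0)) P :=
    (integrable_const _).add hi3
  calc ∫ ω, max (M.t ω 0 X - ν (tr X)) 0 ∂P
      ≤ ∫ ω, ((g8 + b) + ∑ j, (max (M.t ω 0 (u j) - M.μ (tr (u j))) 0 +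
        max (M.t ω (u j + z) X - M.μ (tr (X - (u j + z)))) 0) +
          B.indicator (fun ω => M.t ω 0 X) ω) ∂P := by
        apply integral_mono (Tubes_integrable_pos M _ _ _) (hi5.add hi4)
        intro ω
        exact Tubes_pointwise M u z X ν K b g8 hg8 hb hX hsum ω
    _ = (g8 + b) + ∑ j, (∫ ω, max (M.t ω 0 (u j) - M.μ (tr (u j))) 0 ∂P +
        ∫ ω, max (M.t ω (u j + z) X - M.μ (tr (X - (u j + z)))) 0 ∂P) +
          ∫ ω in B, M.t ω 0 X ∂P := by
        rw [integral_add hi5 hi4, integral_add (integrable_const _) hi3, integral_indicator hBm,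
          integral_finsetSum _ (fun j _ => hi12 j)]
        simp only [integral_const, probReal_univ, smul_eq_mul, one_mul]
        congr 2
        apply Finset.sum_congr rfl
        intro j _
        exact integral_add (hi1 j) (hi2 j)
    _ ≤ (g8 + b) + ∑ _j : Fin J, (2 * (CU * (1 + R) ^ γ)) +
          CS * (1 + nm X) * Real.sqrt (P.real B) := by
        have h1 : ∑ j, (∫ ω, max (M.t ω 0 (u j) - M.μ (tr (u j))) 0 ∂P +
          ∫ ω, max (M.t ω (u j + z) X - M.μ (tr (X - (u j + z)))) 0 ∂P) ≤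
            ∑ _j : Fin J, (2 * (CU * (1 + R) ^ γ)) := by
          apply Finset.sum_le_sum
          intro j _
          linarith [hf1 j, hf2 j]
        linarith [hCS X B hBm]
    _ ≤ (g8 + b) + J * (2 * (CU * (1 + R) ^ γ)) + CS * (1 + nm X) * (1 / 2) ^ J := by
        rw [Finset.sum_const, Finset.card_univ, Fintype.card_fin, nsmul_eq_mul]
        have h2 : CS * (1 + nm X) * Real.sqrt (P.real B) ≤ CS * (1 + nm X) * (1 / 2) ^ J := by
          apply mul_le_mul_of_nonneg_left hsq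
          exact mul_nonneg hCS0 (by linarith [nm_nonneg X])
        linarith

theorem LRM.tubes (M : LRM d P) (hd : 2 ≤ d) {κ γ : ℝ} (hκ : 0 < κ) (hκγ : κ < γ) (hγ : γ ≤ 1)
    (hA : M.HypA κ) (hU : M.U γ) : M.XNall (γ - (γ - κ) * γ / 32) := by
  obtain ⟨C5, hC5, h5⟩ := M.tube_prob hκ hA (max 1 (3 / M.cm)) (le_max_left _ _)
  obtain ⟨C6, hC6, h6⟩ := M.tube_geometry hd hκ hκγ hγ C5 hC5
  obtain ⟨CU, hCU⟩ := hU
  obtain ⟨CS, hCS⟩ := M.integral_on_small
  have hγ0 : 0 < γ := hκ.trans hκγ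
  have hθ : 0 < γ - κ := by linarith
  set θ := γ - κ with hθd
  have hden : 0 < 1 + γ / 2 := by linarith
  have hε0 : 0 < θ / 4 / (1 + γ / 2) := by positivity
  have e1 : 0 < θ / 4 - θ / 4 / (1 + γ / 2) := by
    have : θ / 4 / (1 + γ / 2) < θ / 4 := div_lt_self (by positivity) (by linarith)
    linarith
  have e0 : θ / 4 + θ * γ / 12 ≤ θ / 4 / (1 + γ / 2) * (1 + γ) := by
    have h1 : θ / 4 / (1 + γ / 2) * (1 + γ) = θ / 4 * (1 + γ) / (1 + γ / 2) := by ring
    rw [h1, le_div_iff₀ hden]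
    nlinarith [mul_pos hθ hγ0, mul_pos (mul_pos hθ hγ0) hγ0]
  have e2 : (θ / 4 - θ / 4 / (1 + γ / 2)) + (1 - θ / 4 / (1 + γ / 2)) * γ < γ - θ * γ / 32 := by
    have := mul_pos hθ hγ0
    nlinarith
  have e3 : κ < γ - θ * γ / 32 := by
    have : θ * γ ≤ θ := by nlinarith
    linarith
  have e4 : 0 < γ - θ * γ / 32 := hκ.trans e3
  have e5 : 0 < 1 - θ / 4 / (1 + γ / 2) := by
    have : θ / 4 / (1 + γ / 2) < θ / 4 := div_lt_self (by positivity) (by linarith)
    linarith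
  refine ⟨1, C6, one_pos, by linarith, ?_⟩
  filter_upwards [h5, h6,
    ev_geom (q := 1 / 2) (by norm_num) e1 (show (0 : ℝ) < 1 / 4 by norm_num) 2,
    ev_rpow_le (8 * |CU| * C6) (show (0 : ℝ) < 1 / 8 by norm_num) e2,
    ev_rpow_le (2 * C5 ^ κ) (show (0 : ℝ) < 1 / 8 by norm_num) e3,
    ev_const_le 1 (show (0 : ℝ) < 1 / 8 by norm_num) e4,
    ev_const_le (|CS| * (1 + C6)) (show (0 : ℝ) < 1 by norm_num) (show (0 : ℝ) < 1 by norm_num),
    eventually_ge_atTop 1] with m h5 h6 hgeo hU1 hk1 hone hcs hm1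
  intro ν p hν
  obtain ⟨J, u, z, X, hJ1, hJ2, hz, hu, hu', hνX, hX, hsum, hdis⟩ := h6 ν p hν
  have hm0 : 0 < m := by linarith
  refine ⟨X, by linarith, hX, ?_⟩
  set ρ := m ^ (1 - θ / 4 / (1 + γ / 2)) with hρ
  have hρ1 : 1 ≤ ρ := Real.one_le_rpow hm1 e5.le
  have hgpos : 0 < m ^ (γ - θ * γ / 32) := Real.rpow_pos_of_pos hm0 _
  have hbpos : 0 ≤ 2 * (C5 * m) ^ κ := by positivity
  have hmain := Tubes_integral M.toPreLRM u z X ν
    (fun j => M.tube (u j) z (4 * (C5 * m) ^ κ)) hdis (2 * (C5 * m) ^ κ)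
    (m ^ (γ - θ * γ / 32) / 8) (by positivity) hbpos (by linarith) hsum
    (fun j => h5 z (u j) (hz.trans (mul_le_mul_of_nonneg_right (le_max_right _ _) hm0.le)))
    |CU| |CS| γ (C6 * ρ) hγ0.le
    (fun x => (hCU x).trans (mul_le_mul_of_nonneg_right (le_abs_self _)
      (Real.rpow_nonneg (by linarith [nm_nonneg x]) _)))
    (fun x A hA => (hCS x A hA).trans (mul_le_mul_of_nonneg_right
      (mul_le_mul_of_nonneg_right (le_abs_self _) (by linarith [nm_nonneg x]))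
      (Real.sqrt_nonneg _)))
    (abs_nonneg _) (abs_nonneg _) hu hu'
  refine hmain.trans ?_
  -- the term of the upper deviations
  have t1 : (J : ℝ) * (2 * (|CU| * (1 + C6 * ρ) ^ γ)) ≤ m ^ (γ - θ * γ / 32) / 8 := by
    have s1 : (1 + C6 * ρ) ^ γ ≤ 2 * C6 * m ^ ((1 - θ / 4 / (1 + γ / 2)) * γ) := by
      have : 1 + C6 * ρ ≤ 2 * C6 * ρ := by nlinarith
      calc (1 + C6 * ρ) ^ γ ≤ (2 * C6 * ρ) ^ γ :=
            Real.rpow_le_rpow (by positivity) this hγ0.le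
        _ = (2 * C6) ^ γ * ρ ^ γ := Real.mul_rpow (by positivity) (by positivity)
        _ ≤ (2 * C6) * ρ ^ γ := by
            apply mul_le_mul_of_nonneg_right _ (by positivity)
            calc (2 * C6) ^ γ ≤ (2 * C6) ^ (1 : ℝ) :=
                  Real.rpow_le_rpow_of_exponent_le (by linarith) hγ
              _ = 2 * C6 := Real.rpow_one _
        _ = _ := by rw [hρ, ← Real.rpow_mul hm0.le]
    have s2 : (J : ℝ) * (2 * (|CU| * (1 + C6 * ρ) ^ γ)) ≤
        (2 * m ^ (θ / 4 - θ / 4 / (1 + γ / 2))) *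
          (2 * (|CU| * (2 * C6 * m ^ ((1 - θ / 4 / (1 + γ / 2)) * γ)))) := by
      apply mul_le_mul hJ2 _ (by positivity) (by positivity)
      apply mul_le_mul_of_nonneg_left _ (by norm_num)
      exact mul_le_mul_of_nonneg_left s1 (abs_nonneg _)
    have s3 : (2 * m ^ (θ / 4 - θ / 4 / (1 + γ / 2))) *
          (2 * (|CU| * (2 * C6 * m ^ ((1 - θ / 4 / (1 + γ / 2)) * γ)))) =
        8 * |CU| * C6 * m ^ ((θ / 4 - θ / 4 / (1 + γ / 2)) + (1 - θ / 4 / (1 + γ / 2)) * γ) := by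
      rw [Real.rpow_add hm0]
      ring
    rw [s3] at s2
    linarith
  have t2 : 2 * (C5 * m) ^ κ ≤ m ^ (γ - θ * γ / 32) / 8 := by
    rw [Real.mul_rpow (by linarith) hm0.le]
    linarith
  have t3 : |CS| * (1 + nm X) * (1 / 2) ^ J ≤ 1 := by
    have s1 : ((1 : ℝ) / 2) ^ J ≤ m ^ (-((2 : ℕ) : ℝ)) := by
      apply hgeo J _ (by norm_num)
      linarith
    have s2 : m ^ (-((2 : ℕ) : ℝ)) = (m ^ 2)⁻¹ := by
      rw [Real.rpow_neg hm0.le, Real.rpow_natCast]
    rw [s2] at s1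
    have s3 : 1 + nm X ≤ (1 + C6) * m := by nlinarith
    have s4 : |CS| * (1 + C6) ≤ m := by simpa using hcs
    calc |CS| * (1 + nm X) * (1 / 2) ^ J ≤ |CS| * ((1 + C6) * m) * (m ^ 2)⁻¹ := by
          apply mul_le_mul _ s1 (by positivity) (by positivity)
          exact mul_le_mul_of_nonneg_left s3 (abs_nonneg _)
      _ = (|CS| * (1 + C6)) * m * (m ^ 2)⁻¹ := by ring
      _ ≤ m * m * (m ^ 2)⁻¹ := by
          apply mul_le_mul_of_nonneg_right _ (by positivity)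
          exact mul_le_mul_of_nonneg_right s4 hm0.le
      _ = 1 := by
          rw [← pow_two, mul_inv_cancel₀ (by positivity)]
  linarith

end FPPX
end

section

/-! Linear lower bound (sharp constant) with super-polynomially small error probability. -/

namespace FPPX

open MeasureTheory ProbabilityTheory Filter Set
open scoped Topology

variable {d : ℕ} {Ω : Type} [MeasurableSpace Ω] {P : Measure Ω} [IsProbabilityMeasure P]

/-- local event that a passage time from `A` is smaller than the time constant predicts -/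
private def LowLinFE (M : LRM d P) (m s : ℝ) (A : V d) : Set Ω :=
  {ω | ∃ b : V d, nm b ≤ 3 * m ∧ ω ∈ M.LE (bl A (M.Cl * (3 * m))) A (A + b) (M.μ (tr b) - s)}

private theorem LowLinFE_meas (M : LRM d P) (m s : ℝ) (A : V d) :
    MeasurableSet[M.F (bl A (M.Cl * (3 * m)))] (LowLinFE M m s A) := by
  have h : LowLinFE M m s A = ⋃ b ∈ {b : V d | nm b ≤ 3 * m},
      M.LE (bl A (M.Cl * (3 * m))) A (A + b) (M.μ (tr b) - s) := by
    ext ω
    simp only [LowLinFE, mem_ofPred_eq, mem_iUnion, exists_prop]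
  rw [h]
  exact Set.Finite.measurableSet_biUnion (finite_bl (3 * m)) (fun b _ => M.LE_meas _ _ _ _)

private theorem LowLinFE_prob (M : LRM d P) {κ δ : ℝ} (hκ : 0 < κ) (hδ : 0 < δ) :
    ∀ᶠ m : ℝ in atTop, ∀ A : V d, P.real (LowLinFE M m (κ * m) A) ≤ δ := by
  have h1 := M.toPreLRM.S1low (κ / 6) (by positivity)
  have h2 : Tendsto (fun m : ℝ => 3 * m) atTop atTop := tendsto_id.const_mul_atTop (by norm_num)
  have h3 := (h1.comp h2).eventually_lt_const hδ
  filter_upwards [h3, eventually_gt_atTop 0] with m hm hm0 A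
  refine le_trans ?_ hm.le
  refine le_trans ?_ (real_preimage_le M.toPreLRM A _)
  refine measureReal_mono ?_
  rintro ω ⟨b, hb, hω⟩
  refine ⟨b, hb, ?_⟩
  have h1 := M.LE_t _ _ _ _ _ hω
  rw [M.t_shift, zero_add, add_comm b A]
  refine h1.trans_lt ?_
  have : 0 < κ * m := mul_pos hκ hm0
  linarith

/-- probability of a separated family of local events -/
private theorem LowLin_sep (M : PreLRM d P) (Ev : V d → Set Ω) (ρ p : ℝ) (hp : 0 ≤ p)
    (hEv : ∀ x, MeasurableSet[M.F (bl x ρ)] (Ev x)) (hP : ∀ x, P.real (Ev x) ≤ p)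
    (x : ℕ → V d) (I : Finset ℕ) (n : ℕ) (hI : I.card = n)
    (hsep : ∀ i ∈ I, ∀ j ∈ I, i ≠ j → 2 * ρ < nm (x i - x j)) :
    P.real (⋂ i ∈ I, Ev (x i)) ≤ p ^ n := by
  obtain ⟨e, he⟩ : ∃ e : Fin n ↪o ℕ, e = I.orderEmbOfFin hI := ⟨_, rfl⟩
  have heI : ∀ i, e i ∈ I := fun i => by rw [he]; exact I.orderEmbOfFin_mem hI i
  refine le_trans (measureReal_mono ?_) (M.prob_inter n (fun i => bl (x (e i)) ρ) ?_
    (fun i => Ev (x (e i))) (fun i => hEv _) p hp (fun i => hP _))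
  · intro ω hω
    simp only [mem_iInter] at hω ⊢
    exact fun i => hω _ (heI i)
  · intro i j hij
    rw [Set.disjoint_left]
    intro z hz1 hz2
    have h1 := hsep _ (heI i) _ (heI j) (fun h => hij (e.injective h))
    have hz1' : nm (z - x (e i)) ≤ ρ := hz1
    have hz2' : nm (z - x (e j)) ≤ ρ := hz2
    have h2 : x (e i) - x (e j) = (z - x (e j)) - (z - x (e i)) := by abel
    have h3 := nm_sub_le (z - x (e j)) (z - x (e i))
    rw [← h2] at h3
    linarith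

/-- union bound over paths with finitely many kinds of increments -/
private theorem LowLin_union (M : PreLRM d P) (Ev : V d → Set Ω) (ρ p : ℝ) (hp : 0 ≤ p)
    (hEv : ∀ x, MeasurableSet[M.F (bl x ρ)] (Ev x)) (hP : ∀ x, P.real (Ev x) ≤ p)
    (D : Finset (V d)) (K n : ℕ) :
    P.real {ω | ∃ (x : ℕ → V d) (I : Finset ℕ), x 0 = 0 ∧ (∀ i < K, x (i + 1) - x i ∈ D) ∧
      I ⊆ Finset.range K ∧ I.card = n ∧
      (∀ i ∈ I, ∀ j ∈ I, i ≠ j → 2 * ρ < nm (x i - x j)) ∧ ∀ i ∈ I, ω ∈ Ev (x i)} ≤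
      (2 * (D.card : ℝ)) ^ K * p ^ n := by
  classical
  obtain ⟨pos, hpos⟩ : ∃ pos : (Fin K → V d) → ℕ → V d,
      pos = fun g i => ∑ j : Fin K, if (j : ℕ) < i then g j else 0 := ⟨_, rfl⟩
  obtain ⟨G, hG⟩ : ∃ G : (Fin K → V d) → Finset ℕ → Set Ω, G = fun g I =>
    if ∀ i ∈ I, ∀ j ∈ I, i ≠ j → 2 * ρ < nm (pos g i - pos g j) then
      ⋂ i ∈ I, Ev (pos g i) else ∅ := ⟨_, rfl⟩
  have hsub : {ω | ∃ (x : ℕ → V d) (I : Finset ℕ), x 0 = 0 ∧ (∀ i < K, x (i + 1) - x i ∈ D) ∧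
      I ⊆ Finset.range K ∧ I.card = n ∧
      (∀ i ∈ I, ∀ j ∈ I, i ≠ j → 2 * ρ < nm (x i - x j)) ∧ ∀ i ∈ I, ω ∈ Ev (x i)} ⊆
      ⋃ y ∈ Fintype.piFinset (fun _ : Fin K => D) ×ˢ Finset.powersetCard n (Finset.range K),
        G y.1 y.2 := by
    rintro ω ⟨x, I, hx0, hxD, hIK, hIn, hsep, hω⟩
    obtain ⟨g, hg⟩ : ∃ g : Fin K → V d, g = fun (j : Fin K) => x ((j : ℕ) + 1) - x j := ⟨_, rfl⟩
    have hgpos : ∀ i ≤ K, pos g i = x i := by
      intro i hi
      rw [hpos]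
      simp only
      have h1 : ∑ j : Fin K, (if (j : ℕ) < i then g j else 0) =
          ∑ j ∈ Finset.range K, (if j < i then x (j + 1) - x j else 0) := by
        rw [Finset.sum_range, hg]
      rw [h1, ← Finset.sum_filter]
      have h2 : (Finset.range K).filter (fun j => j < i) = Finset.range i := by
        ext j
        simp only [Finset.mem_filter, Finset.mem_range]
        omega
      rw [h2, Finset.sum_range_sub, hx0, sub_zero]
    have hgI : ∀ i ∈ I, pos g i = x i := fun i hi =>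
      hgpos i (Finset.mem_range.1 (hIK hi)).le
    refine mem_iUnion₂.mpr ⟨(g, I), ?_, ?_⟩
    · rw [Finset.mem_product]
      refine ⟨Fintype.mem_piFinset.mpr fun j => ?_, Finset.mem_powersetCard.2 ⟨hIK, hIn⟩⟩
      rw [hg]
      exact hxD j j.2
    · rw [hG]
      simp only
      rw [if_pos]
      · simp only [mem_iInter]
        intro i hi
        rw [hgI i hi]
        exact hω i hi
      · intro i hi j hj hij
        rw [hgI i hi, hgI j hj]
        exact hsep i hi j hj hij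
  have hGp : ∀ y ∈ Fintype.piFinset (fun _ : Fin K => D) ×ˢ
      Finset.powersetCard n (Finset.range K), P.real (G y.1 y.2) ≤ p ^ n := by
    intro y hy
    rw [Finset.mem_product, Finset.mem_powersetCard] at hy
    rw [hG]
    simp only
    by_cases hsep : ∀ i ∈ y.2, ∀ j ∈ y.2, i ≠ j → 2 * ρ < nm (pos y.1 i - pos y.1 j)
    · rw [if_pos hsep]
      exact LowLin_sep M Ev ρ p hp hEv hP (pos y.1) y.2 n hy.2.2 hsep
    · rw [if_neg hsep]
      simp only [measureReal_empty]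
      positivity
  refine (measureReal_mono hsub (measure_ne_top P _)).trans ?_
  refine (measureReal_biUnion_finset_le _ _).trans ?_
  refine (Finset.sum_le_sum hGp).trans ?_
  rw [Finset.sum_const, Finset.card_product, Fintype.card_piFinset_const,
    Finset.card_powersetCard, Finset.card_range, nsmul_eq_mul]
  refine mul_le_mul_of_nonneg_right ?_ (by positivity)
  push_cast
  rw [mul_pow, mul_comm]
  refine mul_le_mul_of_nonneg_right ?_ (by positivity)
  have h1 : K.choose n ≤ 2 ^ K := Nat.choose_le_two_pow K n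
  exact_mod_cast h1

/-- the deterministic part -/
private theorem LowLin_det (M : LRM d P) {ε C2 η κ r m q : ℝ} {K n L h : ℕ} (hε : 0 < ε)
    (hC2 : 1 ≤ C2) (hη : 0 < η) (hη1 : η ≤ 1) (hκ : κ = ε / (8 * C2))
    (hηκ : 4 * M.C1 * η ≤ κ) (hm : m = r ^ ((3 : ℝ) / 4)) (hq : q = r ^ ((1 : ℝ) / 4))
    (hr : 1 ≤ r) (hK : K = ⌊C2 * q⌋₊) (hh1 : η * m / 2 ≤ h) (hh2 : (h : ℝ) ≤ η * m)
    (hh0 : 0 < h) (hL : 1 ≤ L) (hL2 : C2 * (6 * M.Cl + 3) ≤ L)
    (hn : (n : ℝ) * L ≤ ε / (8 * M.C1) * q)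
    (_c1 : r ^ ((1 : ℝ) / 2) ≤ κ / 4 * m) (c2 : r ^ ((1 : ℝ) / 2) ≤ η * m / 2)
    (c3 : r ^ ((1 : ℝ) / 2) + M.C1 * m ≤ ε / 2 * r) (c4 : C2 * r + m ≤ r ^ (2 : ℝ))
    (c5 : (3 * m) ^ ((1 : ℝ) / 2) ≤ κ / 4 * m)
    (ω : Ω) (hcut : M.CutProp ω (3 / 4) (1 / 8) 1 C2 r)
    (hloc : M.LocAt ω (r ^ (2 : ℝ)) (3 * m) (1 / 2))
    (hup : ∀ u v : V d, nm u ≤ r ^ (2 : ℝ) → nm v ≤ r ^ (2 : ℝ) →
      M.t ω u v ≤ M.C1 * max (nm (v - u)) (r ^ ((1 : ℝ) / 2)))
    (z : V d) (hz : nm z ≤ r) (hfast : M.t ω 0 z < M.μ (tr z) - ε * r) :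
    ∃ (x : ℕ → V d) (I : Finset ℕ), x 0 = 0 ∧
      (∀ i < K, ∃ v : V d, nm v ≤ 4 / η + 1 ∧ x (i + 1) - x i = h • v) ∧
      I ⊆ Finset.range K ∧ I.card = n ∧
      (∀ i ∈ I, ∀ j ∈ I, i ≠ j → 2 * (M.Cl * (3 * m)) < nm (x i - x j)) ∧
      ∀ i ∈ I, ω ∈ LowLinFE M m (κ * m) (x i) := by
  classical
  have hr0 : 0 < r := by linarith
  have hm0 : 0 < m := by rw [hm]; positivity
  have hq0 : 0 < q := by rw [hq]; positivity
  have hqm : q * m = r := by
    rw [hq, hm, ← Real.rpow_add hr0]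
    norm_num
  have hC1 := M.one_le_C1
  have hC10 : 0 < M.C1 := by linarith
  have hC20 : 0 < C2 := by linarith
  have hκ0 : 0 < κ := by rw [hκ]; positivity
  have hh0' : (0 : ℝ) < h := by exact_mod_cast hh0
  have hCl := M.one_le_Cl
  obtain ⟨k, a, ha0, hk, hstep, hend, hball, hsep, htot, -, -⟩ := hcut z (by linarith)
  rw [← hm] at hstep hend hsep
  have e1 : (1 : ℝ) - 3 / 4 = 1 / 4 := by norm_num
  have e2 : (1 : ℝ) - 3 / 4 + 2 * (1 / 8) = 1 / 2 := by norm_num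
  rw [e2] at htot
  rw [e1, ← hq] at hk
  -- `μ` is bounded
  have hμub : ∀ y : E d, M.μ y ≤ M.C1 * ‖y‖ := by
    intro y
    have h1 := (abs_le.1 (M.normB_sub y 0)).2
    have h0 : M.μ (0 : E d) = 0 := by
      have := M.isNm.smul 0 (0 : E d)
      simpa using this
    rw [h0, sub_zero, sub_zero] at h1
    exact h1
  have hμsub : ∀ y y' : E d, M.μ y ≤ M.μ y' + M.C1 * ‖y - y'‖ := by
    intro y y'
    have h1 := (abs_le.1 (M.normB_sub y y')).2
    linarith
  -- fast indices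
  obtain ⟨Df, hDf⟩ : ∃ Df : ℕ → ℝ, Df = fun l => M.t ω (a l) (a (l + 1)) -
      M.μ (tr (a (l + 1) - a l)) := ⟨_, rfl⟩
  have hmusum : ∀ j, M.μ (tr (a j)) ≤ ∑ l ∈ Finset.range j, M.μ (tr (a (l + 1) - a l)) := by
    intro j
    induction j with
    | zero =>
      have h0 : M.μ (0 : E d) = 0 := by
        have := M.isNm.smul 0 (0 : E d)
        simpa using this
      rw [ha0, tr_zero, h0]
      simp
    | succ j ih =>
      rw [Finset.sum_range_succ]
      have h1 : a (j + 1) = a j + (a (j + 1) - a j) := by abel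
      have h2 := M.isNm.add (tr (a j)) (tr (a (j + 1) - a j))
      rw [← tr_add, ← h1] at h2
      linarith
  have hS : ∑ l ∈ Finset.range k, Df l ≤ -(ε / 2 * r) := by
    rw [hDf]
    simp only
    rw [Finset.sum_sub_distrib]
    have h1 := hmusum k
    have h2 := M.t_nonneg ω (a k) z
    have h3 := hμsub (tr z) (tr (a k))
    rw [← tr_sub] at h3
    have h4 : M.C1 * ‖tr (z - a k)‖ ≤ M.C1 * m := mul_le_mul_of_nonneg_left hend hC10.le
    linarith
  have hcount := count_neg k Df (2 * M.C1 * m) (2 * κ * m) (ε / 2 * r) (by positivity)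
    (by positivity) (by
      intro l hl
      rw [hDf]
      have h1 := M.t_nonneg ω (a l) (a (l + 1))
      have h2 := hμub (tr (a (l + 1) - a l))
      have h3 : M.C1 * ‖tr (a (l + 1) - a l)‖ ≤ M.C1 * (2 * m) :=
        mul_le_mul_of_nonneg_left (hstep l hl).2 hC10.le
      simp only
      linarith) hS
  obtain ⟨I0, hI0⟩ : ∃ I0, I0 = (Finset.range k).filter (fun l => Df l < -(2 * κ * m)) :=
    ⟨_, rfl⟩
  rw [← hI0] at hcount
  have hI0card : n * L ≤ I0.card := by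
    have h1 : (k : ℝ) * (2 * κ * m) ≤ ε / 4 * r := by
      calc (k : ℝ) * (2 * κ * m) ≤ C2 * q * (2 * κ * m) :=
            mul_le_mul_of_nonneg_right hk (by positivity)
        _ = ε / 4 * (q * m) := by rw [hκ]; field_simp; ring
        _ = ε / 4 * r := by rw [hqm]
    have h2 : ε / 4 * (q * m) ≤ I0.card * (2 * M.C1 * m) := by rw [hqm]; linarith
    have h3 : ε / (8 * M.C1) * q ≤ I0.card := by
      have h4 : ε / 4 * (q * m) = ε / (8 * M.C1) * q * (2 * M.C1 * m) := by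
        field_simp
        ring
      rw [h4] at h2
      exact le_of_mul_le_mul_right h2 (by positivity)
    exact_mod_cast hn.trans h3
  obtain ⟨f, hfI, hfsep⟩ := sep_indices I0 n L hL hI0card
  have hfinj : Function.Injective f := by
    intro i j hij
    rcases lt_trichotomy i j with h1 | h1 | h1
    · have := hfsep i j h1
      omega
    · exact h1
    · have := hfsep j i h1
      omega
  have hfk : ∀ i, f i < k := by
    intro i
    have h1 := hfI i
    rw [hI0, Finset.mem_filter, Finset.mem_range] at h1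
    exact h1.1
  have hff : ∀ i, M.t ω (a (f i)) (a (f i + 1)) - M.μ (tr (a (f i + 1) - a (f i))) <
      -(2 * κ * m) := by
    intro i
    have h1 := hfI i
    rw [hI0, Finset.mem_filter, hDf] at h1
    exact h1.2
  -- rounding
  obtain ⟨c, hc⟩ : ∃ c : V d → V d, c = fun v => rd ((h : ℝ)⁻¹ • tr v) := ⟨_, rfl⟩
  have hround : ∀ v : V d, nm (h • c v - v) ≤ h / 2 := by
    intro v
    unfold nm
    rw [tr_sub, tr_nsmul]
    have h1 : (h : ℝ) • tr (c v) - tr v = (h : ℝ) • (tr (c v) - (h : ℝ)⁻¹ • tr v) := by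
      rw [smul_sub, smul_smul, mul_inv_cancel₀ hh0'.ne', one_smul]
    rw [h1, norm_smul, Real.norm_eq_abs, abs_of_pos hh0', hc]
    have h2 := norm_rd_sub ((h : ℝ)⁻¹ • tr v)
    have h3 := mul_le_mul_of_nonneg_left h2 hh0'.le
    linarith
  obtain ⟨x, hx⟩ : ∃ x : ℕ → V d, x = fun l => h • c (a (min l k)) := ⟨_, rfl⟩
  have hxk : ∀ l ≤ k, nm (x l - a l) ≤ h / 2 := by
    intro l hl
    rw [hx]
    simp only
    rw [min_eq_left hl]
    exact hround _
  have hkK : k ≤ K := by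
    rw [hK]
    exact Nat.le_floor hk
  have hhm : (h : ℝ) ≤ m := hh2.trans (by nlinarith)
  refine ⟨x, Finset.univ.image f, ?_, ?_, ?_, ?_, ?_, ?_⟩
  · rw [hx, hc]
    simp only
    rw [min_eq_left (Nat.zero_le k), ha0, tr_zero, smul_zero]
    have : (rd (0 : E d) : V d) = 0 := by
      have := rd_tr (0 : V d)
      rwa [tr_zero] at this
    rw [this, smul_zero]
  · intro i _
    rcases lt_or_ge i k with hik | hik
    · refine ⟨c (a (i + 1)) - c (a i), ?_, ?_⟩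
      · have h1 : nm (h • (c (a (i + 1)) - c (a i))) ≤ 2 * m + h := by
          have h2 : h • (c (a (i + 1)) - c (a i)) = (h • c (a (i + 1)) - a (i + 1)) +
              (a (i + 1) - a i) - (h • c (a i) - a i) := by
            rw [smul_sub]
            abel
          rw [h2]
          have h3 := nm_sub_le ((h • c (a (i + 1)) - a (i + 1)) + (a (i + 1) - a i))
            (h • c (a i) - a i)
          have h4 := nm_add (h • c (a (i + 1)) - a (i + 1)) (a (i + 1) - a i)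
          have h5 := hround (a (i + 1))
          have h6 := hround (a i)
          have h7 := (hstep i hik).2
          linarith
        have h2 : nm (h • (c (a (i + 1)) - c (a i))) = h * nm (c (a (i + 1)) - c (a i)) := by
          unfold nm
          rw [tr_nsmul, norm_smul, Real.norm_eq_abs, abs_of_pos hh0']
        rw [h2] at h1
        have h3 : 2 * m + h ≤ h * (4 / η + 1) := by
          have h4 : η * m / 2 * (4 / η) = 2 * m := by
            field_simp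
            ring
          have h5 : η * m / 2 * (4 / η) ≤ h * (4 / η) :=
            mul_le_mul_of_nonneg_right hh1 (by positivity)
          rw [mul_add, mul_one]
          linarith
        exact le_of_mul_le_mul_left (h1.trans h3) hh0'
      · rw [hx]
        simp only
        rw [min_eq_left (show i + 1 ≤ k from hik), min_eq_left hik.le, smul_sub]
    · refine ⟨0, ?_, ?_⟩
      · rw [nm_zero]
        positivity
      · rw [hx]
        simp only
        rw [min_eq_right (show k ≤ i + 1 by omega), min_eq_right hik, sub_self, smul_zero]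
  · intro i hi
    obtain ⟨j, -, rfl⟩ := Finset.mem_image.1 hi
    exact Finset.mem_range.2 ((hfk j).trans_le hkK)
  · rw [Finset.card_image_of_injective _ hfinj, Finset.card_univ, Fintype.card_fin]
  · have key : ∀ i j, i < j → 2 * (M.Cl * (3 * m)) < nm (x (f j) - x (f i)) := by
      intro i j hij
      have h1 := hfsep i j hij
      have h2 := hsep (f i) (f j) (by omega) (hfk j).le
      have h3 : (L : ℝ) ≤ (f j : ℝ) - f i := by
        have : ((f i + L : ℕ) : ℝ) ≤ f j := by exact_mod_cast h1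
        push_cast at this
        linarith
      have h4 : C2 * ((6 * M.Cl + 3) * m) ≤ C2 * nm (a (f j) - a (f i)) := by
        calc C2 * ((6 * M.Cl + 3) * m) = C2 * (6 * M.Cl + 3) * m := by ring
          _ ≤ L * m := mul_le_mul_of_nonneg_right hL2 hm0.le
          _ ≤ ((f j : ℝ) - f i) * m := mul_le_mul_of_nonneg_right h3 hm0.le
          _ ≤ _ := h2
      have h5 := le_of_mul_le_mul_left h4 hC20
      have h6 : a (f j) - a (f i) = (x (f j) - x (f i)) - (x (f j) - a (f j)) +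
          (x (f i) - a (f i)) := by abel
      have h7 := nm_add ((x (f j) - x (f i)) - (x (f j) - a (f j))) (x (f i) - a (f i))
      have h8 := nm_sub_le (x (f j) - x (f i)) (x (f j) - a (f j))
      have h9 := hxk (f j) (hfk j).le
      have h10 := hxk (f i) (hfk i).le
      rw [← h6] at h7
      linarith
    intro i hi j hj hij
    obtain ⟨i', -, rfl⟩ := Finset.mem_image.1 hi
    obtain ⟨j', -, rfl⟩ := Finset.mem_image.1 hj
    rcases lt_trichotomy i' j' with h1 | h1 | h1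
    · rw [nm_sub_comm]
      exact key i' j' h1
    · exact absurd (congrArg f h1) hij
    · exact key j' i' h1
  · intro i hi
    obtain ⟨i', -, rfl⟩ := Finset.mem_image.1 hi
    have hlt := hfk i'
    have hxa := hxk (f i') hlt.le
    have hst := hstep (f i') hlt
    have hfa := hff i'
    have hbi := hball (f i') hlt.le
    generalize f i' = l at *
    have hb : nm (a (l + 1) - x l) ≤ 3 * m := by
      have h1 : a (l + 1) - x l = (a (l + 1) - a l) - (x l - a l) := by abel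
      rw [h1]
      have h2 := nm_sub_le (a (l + 1) - a l) (x l - a l)
      linarith
    have hxr : nm (x l) ≤ r ^ (2 : ℝ) := by
      have h1 : x l = (x l - a l) + a l := by abel
      have h2 := nm_add (x l - a l) (a l)
      rw [← h1] at h2
      linarith
    have har : nm (a l) ≤ r ^ (2 : ℝ) := by linarith
    refine ⟨a (l + 1) - x l, hb, ?_⟩
    have hLE := hloc (x l) (a (l + 1)) hxr hb
    have he : x l + (a (l + 1) - x l) = a (l + 1) := by abel
    rw [he]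
    refine M.LE_mono _ _ _ _ _ _ Subset.rfl ?_ hLE
    -- the estimate
    have h1 := M.t_tri ω (x l) (a l) (a (l + 1))
    have h2 := hup (x l) (a l) hxr har
    have h3 : M.C1 * max (nm (a l - x l)) (r ^ ((1 : ℝ) / 2)) ≤ M.C1 * (η * m) := by
      refine mul_le_mul_of_nonneg_left (max_le ?_ ?_) hC10.le
      · rw [nm_sub_comm]
        linarith
      · have : 0 < η * m := by positivity
        linarith
    have h4 := hμsub (tr (a (l + 1) - a l)) (tr (a (l + 1) - x l))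
    rw [← tr_sub] at h4
    have h5 : (a (l + 1) - a l) - (a (l + 1) - x l) = x l - a l := by abel
    rw [h5] at h4
    have h6 : M.C1 * ‖tr (x l - a l)‖ ≤ M.C1 * (η * m) := by
      refine mul_le_mul_of_nonneg_left ?_ hC10.le
      exact hxa.trans (by linarith)
    have h7 : 4 * M.C1 * η * m ≤ κ * m := mul_le_mul_of_nonneg_right hηκ hm0.le
    have h8 : M.C1 * (η * m) = M.C1 * η * m := by ring
    rw [h8] at h3 h6
    have h9 : 0 < κ * m := mul_pos hκ0 hm0
    linarith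

theorem LRM.LowLin (M : LRM d P) (ε : ℝ) (hε : 0 < ε) :
    Negl P (fun r => {ω | ∃ v : V d, nm v ≤ r ∧ M.t ω 0 v < M.μ (tr v) - ε * r}) := by
  classical
  have hC1 := M.one_le_C1
  have hC10 : 0 < M.C1 := by linarith
  obtain ⟨C2, hC2, hcut⟩ := M.cut2 (3 / 4) (1 / 8) 1 (by norm_num) (by norm_num) (by norm_num)
    le_rfl
  have hC20 : 0 < C2 := by linarith
  have hloc := M.loc_scale (ε := 1 / 2) (a := 3 / 4) (B := 3) (by norm_num) (by norm_num)
    (by norm_num) 2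
  have hUL := M.UL 2 (1 / 2) (by norm_num)
  -- constants
  obtain ⟨κ, hκ⟩ : ∃ κ, κ = ε / (8 * C2) := ⟨_, rfl⟩
  have hκ0 : 0 < κ := by rw [hκ]; positivity
  obtain ⟨η, hη⟩ : ∃ η, η = min 1 (κ / (4 * M.C1)) := ⟨_, rfl⟩
  have hη0 : 0 < η := by
    rw [hη]
    exact lt_min one_pos (by positivity)
  have hη1 : η ≤ 1 := by rw [hη]; exact min_le_left _ _
  have hηκ : 4 * M.C1 * η ≤ κ := by
    have h1 : η ≤ κ / (4 * M.C1) := by rw [hη]; exact min_le_right _ _
    rw [le_div_iff₀ (by positivity)] at h1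
    linarith
  obtain ⟨L, hL⟩ := exists_nat_ge (max 1 (C2 * (6 * M.Cl + 3)))
  have hL1 : 1 ≤ L := by
    have : (1 : ℝ) ≤ L := (le_max_left _ _).trans hL
    exact_mod_cast this
  have hL2 : C2 * (6 * M.Cl + 3) ≤ L := (le_max_right _ _).trans hL
  have hL0 : (0 : ℝ) < L := by exact_mod_cast hL1
  obtain ⟨c4, hc4⟩ : ∃ c4, c4 = ε / (8 * M.C1) / L := ⟨_, rfl⟩
  have hc40 : 0 < c4 := by rw [hc4]; positivity
  obtain ⟨Λ, hΛ⟩ := exists_nat_ge (2 * C2 / c4)
  obtain ⟨Nc, hNc⟩ : ∃ Nc : ℝ, Nc = (2 * (4 / η + 1) + 1) ^ d := ⟨_, rfl⟩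
  have hNc1 : 1 ≤ Nc := by
    rw [hNc]
    apply one_le_pow₀
    have : 0 < 4 / η := by positivity
    linarith
  obtain ⟨δ, hδ⟩ : ∃ δ : ℝ, δ = 1 / 2 / (2 * Nc) ^ Λ := ⟨_, rfl⟩
  have hδ0 : 0 < δ := by rw [hδ]; positivity
  have hδ1 : (2 * Nc) ^ Λ * δ = 1 / 2 := by
    rw [hδ]
    field_simp
  have hm : Tendsto (fun r : ℝ => r ^ ((3 : ℝ) / 4)) atTop atTop :=
    tendsto_rpow_atTop (by norm_num)
  have hFE := hm.eventually (LowLinFE_prob M hκ0 hδ0)
  -- reduction to a union bound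
  have hU : Negl P (fun r => {ω | ∃ (x : ℕ → V d) (I : Finset ℕ), x 0 = 0 ∧
      (∀ i < ⌊C2 * r ^ ((1 : ℝ) / 4)⌋₊, ∃ v : V d, nm v ≤ 4 / η + 1 ∧
        x (i + 1) - x i = ⌊η * r ^ ((3 : ℝ) / 4)⌋₊ • v) ∧
      I ⊆ Finset.range ⌊C2 * r ^ ((1 : ℝ) / 4)⌋₊ ∧ I.card = ⌊c4 * r ^ ((1 : ℝ) / 4)⌋₊ ∧
      (∀ i ∈ I, ∀ j ∈ I, i ≠ j → 2 * (M.Cl * (3 * r ^ ((3 : ℝ) / 4))) < nm (x i - x j)) ∧
      ∀ i ∈ I, ω ∈ LowLinFE M (r ^ ((3 : ℝ) / 4)) (κ * r ^ ((3 : ℝ) / 4)) (x i)}) := by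
    intro K'
    filter_upwards [hFE, ev_geom (q := 1 / 2) (by norm_num) (a := 1 / 4) (B := c4 / 2)
      (by norm_num) (by positivity) K', ev_const_le 1 (B := c4 / 2) (b := 1 / 4) (by positivity)
      (by norm_num), eventually_gt_atTop 0] with r h1 h2 h3 h4
    have hq0 : 0 < r ^ ((1 : ℝ) / 4) := by positivity
    obtain ⟨q, hq⟩ : ∃ q, q = r ^ ((1 : ℝ) / 4) := ⟨_, rfl⟩
    rw [← hq] at h2 h3 hq0 ⊢
    obtain ⟨m, hm⟩ : ∃ m, m = r ^ ((3 : ℝ) / 4) := ⟨_, rfl⟩
    rw [← hm] at h1 ⊢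
    obtain ⟨D, hD⟩ : ∃ D : Finset (V d), D = (finite_bl (d := d) (4 / η + 1)).toFinset.image
      (fun v => ⌊η * m⌋₊ • v) := ⟨_, rfl⟩
    have hDc : (D.card : ℝ) ≤ Nc := by
      have e1 := card_bl (d := d) (4 / η + 1) (by positivity)
      rw [ncard_eq_toFinset_card _ (finite_bl (d := d) (4 / η + 1)), ← hNc] at e1
      refine le_trans ?_ e1
      rw [hD]
      exact_mod_cast Finset.card_image_le
    have hun := LowLin_union M.toPreLRM (LowLinFE M m (κ * m)) (M.Cl * (3 * m)) δ hδ0.le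
      (fun x => LowLinFE_meas M m (κ * m) x) h1 D ⌊C2 * q⌋₊ ⌊c4 * q⌋₊
    have hsub : {ω | ∃ (x : ℕ → V d) (I : Finset ℕ), x 0 = 0 ∧
      (∀ i < ⌊C2 * q⌋₊, ∃ v : V d, nm v ≤ 4 / η + 1 ∧ x (i + 1) - x i = ⌊η * m⌋₊ • v) ∧
      I ⊆ Finset.range ⌊C2 * q⌋₊ ∧ I.card = ⌊c4 * q⌋₊ ∧
      (∀ i ∈ I, ∀ j ∈ I, i ≠ j → 2 * (M.Cl * (3 * m)) < nm (x i - x j)) ∧
      ∀ i ∈ I, ω ∈ LowLinFE M m (κ * m) (x i)} ⊆
      {ω | ∃ (x : ℕ → V d) (I : Finset ℕ), x 0 = 0 ∧
      (∀ i < ⌊C2 * q⌋₊, x (i + 1) - x i ∈ D) ∧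
      I ⊆ Finset.range ⌊C2 * q⌋₊ ∧ I.card = ⌊c4 * q⌋₊ ∧
      (∀ i ∈ I, ∀ j ∈ I, i ≠ j → 2 * (M.Cl * (3 * m)) < nm (x i - x j)) ∧
      ∀ i ∈ I, ω ∈ LowLinFE M m (κ * m) (x i)} := by
      rintro ω ⟨x, I, g1, g2, g3⟩
      refine ⟨x, I, g1, fun i hi => ?_, g3⟩
      obtain ⟨v, hv1, hv2⟩ := g2 i hi
      rw [hv2, hD]
      refine Finset.mem_image_of_mem _ ?_
      rw [Set.Finite.mem_toFinset]
      exact hv1
    refine (measureReal_mono hsub).trans (hun.trans ?_)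
    -- numbers
    obtain ⟨n, hn⟩ : ∃ n, n = ⌊c4 * q⌋₊ := ⟨_, rfl⟩
    obtain ⟨K, hK⟩ : ∃ K, K = ⌊C2 * q⌋₊ := ⟨_, rfl⟩
    rw [← hn, ← hK]
    have hn1 : c4 / 2 * q ≤ n := by
      have e1 := Nat.lt_floor_add_one (c4 * q)
      rw [← hn] at e1
      linarith
    have hKn : K ≤ Λ * n := by
      have e1 : (K : ℝ) ≤ C2 * q := by
        rw [hK]
        exact Nat.floor_le (by positivity)
      have e2 : C2 * q = 2 * C2 / c4 * (c4 / 2 * q) := by
        field_simp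
      have e3 : 2 * C2 / c4 * (c4 / 2 * q) ≤ Λ * n :=
        mul_le_mul hΛ hn1 (by positivity) (Nat.cast_nonneg _)
      have e4 : (K : ℝ) ≤ Λ * n := by linarith
      exact_mod_cast e4
    have h5 := h2 n hn1 (by norm_num)
    refine le_trans ?_ h5
    calc (2 * (D.card : ℝ)) ^ K * δ ^ n ≤ (2 * Nc) ^ K * δ ^ n := by
          refine mul_le_mul_of_nonneg_right ?_ (by positivity)
          exact pow_le_pow_left₀ (by positivity) (by linarith) K
      _ ≤ (2 * Nc) ^ (Λ * n) * δ ^ n := by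
          refine mul_le_mul_of_nonneg_right ?_ (by positivity)
          exact pow_le_pow_right₀ (by linarith) hKn
      _ = (1 / 2) ^ n := by rw [pow_mul, ← mul_pow, hδ1]
  refine Negl.mono ?_ (((hcut.union hloc).union hUL).union hU)
  have f1 : ∀ᶠ r : ℝ in atTop, 1 * r ^ ((1 : ℝ) / 2) ≤ κ / 4 * r ^ ((3 : ℝ) / 4) :=
    ev_rpow_le _ (by positivity) (by norm_num)
  have f2 : ∀ᶠ r : ℝ in atTop, 1 * r ^ ((1 : ℝ) / 2) ≤ η / 2 * r ^ ((3 : ℝ) / 4) :=
    ev_rpow_le _ (by positivity) (by norm_num)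
  have f3 : ∀ᶠ r : ℝ in atTop, 1 * r ^ ((1 : ℝ) / 2) ≤ ε / 4 * r ^ (1 : ℝ) :=
    ev_rpow_le _ (by positivity) (by norm_num)
  have f4 : ∀ᶠ r : ℝ in atTop, M.C1 * r ^ ((3 : ℝ) / 4) ≤ ε / 4 * r ^ (1 : ℝ) :=
    ev_rpow_le _ (by positivity) (by norm_num)
  have f5 : ∀ᶠ r : ℝ in atTop, C2 * r ^ (1 : ℝ) ≤ 1 / 2 * r ^ (2 : ℝ) :=
    ev_rpow_le _ (by norm_num) (by norm_num)
  have f6 : ∀ᶠ r : ℝ in atTop, 1 * r ^ ((3 : ℝ) / 4) ≤ 1 / 2 * r ^ (2 : ℝ) :=
    ev_rpow_le _ (by norm_num) (by norm_num)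
  have f7 : ∀ᶠ r : ℝ in atTop, (3 : ℝ) ^ ((1 : ℝ) / 2) * r ^ ((3 : ℝ) / 8) ≤
      κ / 4 * r ^ ((3 : ℝ) / 4) := ev_rpow_le _ (by positivity) (by norm_num)
  have f8 : ∀ᶠ r : ℝ in atTop, 2 ≤ η * r ^ ((3 : ℝ) / 4) :=
    ev_const_le _ hη0 (by norm_num)
  filter_upwards [f1, f2, f3, f4, f5, f6, f7, f8, eventually_ge_atTop 1] with r
    f1 f2 f3 f4 f5 f6 f7 f8 hr1
  rintro ω ⟨z, hz, hfast⟩
  by_contra hcon
  rw [mem_union, mem_union, mem_union, not_or, not_or, not_or] at hcon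
  obtain ⟨⟨⟨n1, n2⟩, n3⟩, n4⟩ := hcon
  have hr0 : 0 < r := by linarith
  rw [Real.rpow_one] at f3 f4 f5
  have g1 : M.CutProp ω (3 / 4) (1 / 8) 1 C2 r := not_not.1 n1
  have g2 : M.LocAt ω (r ^ (2 : ℝ)) (3 * r ^ ((3 : ℝ) / 4)) (1 / 2) := not_not.1 n2
  refine n4 ?_
  have hfl := Nat.lt_floor_add_one (η * r ^ ((3 : ℝ) / 4))
  have hfl2 := Nat.floor_le (a := η * r ^ ((3 : ℝ) / 4)) (by positivity)
  refine LowLin_det M (ε := ε) (C2 := C2) (η := η) (κ := κ) (r := r) hε hC2 hη0 hη1 hκ hηκ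
    rfl rfl hr1 rfl ?_ hfl2 ?_ hL1 hL2 ?_ ?_ ?_ ?_ ?_ ?_ ω g1 g2 ?_ z hz hfast
  · linarith
  · rw [Nat.floor_pos]
    linarith
  · have h1 := Nat.floor_le (a := c4 * r ^ ((1 : ℝ) / 4)) (by positivity)
    calc (⌊c4 * r ^ ((1 : ℝ) / 4)⌋₊ : ℝ) * L ≤ c4 * r ^ ((1 : ℝ) / 4) * L :=
          mul_le_mul_of_nonneg_right h1 hL0.le
      _ = ε / (8 * M.C1) * r ^ ((1 : ℝ) / 4) := by
          rw [hc4]
          field_simp
  · linarith
  · linarith
  · linarith
  · linarith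
  · rw [Real.mul_rpow (by norm_num) (by positivity), ← Real.rpow_mul hr0.le]
    have : (3 : ℝ) / 4 * (1 / 2) = 3 / 8 := by norm_num
    rw [this]
    exact f7
  · intro u v hu hv
    by_contra h
    exact n3 ⟨u, v, hu, hv, not_le.1 h⟩

end FPPX
end

section

/-! Upper half of the shape theorem, in probability. -/

namespace FPPX

open MeasureTheory ProbabilityTheory Filter Set
open scoped Topology

variable {d : ℕ} {Ω : Type} [MeasurableSpace Ω] {P : Measure Ω} [IsProbabilityMeasure P]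

/-- upper bound in a fixed direction, along real scales -/
theorem PreLRM.S1up_point (M : PreLRM d P) (x : E d) (δ : ℝ) (hδ : 0 < δ) :
    Tendsto (fun r : ℝ => P.real {ω | r * M.μ x + δ * r < M.t ω 0 (rd (r • x))}) atTop
      (𝓝 0) := by
  have hclose : ∀ r : ℝ, 0 ≤ r →
      nm (rd (r • x) - rd ((⌊r⌋₊ : ℝ) • x)) ≤ 1 + ‖x‖ := by
    intro s hs
    have h4 := norm_rd_sub (s • x)
    have h5 := norm_rd_sub ((⌊s⌋₊ : ℝ) • x)
    unfold nm
    rw [tr_sub]
    have h7 : tr (rd (s • x)) - tr (rd ((⌊s⌋₊ : ℝ) • x)) = (tr (rd (s • x)) - s • x) -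
        (tr (rd ((⌊s⌋₊ : ℝ) • x)) - (⌊s⌋₊ : ℝ) • x) + (s - (⌊s⌋₊ : ℝ)) • x := by
      rw [sub_smul]
      abel
    rw [h7]
    refine (norm_add_le _ _).trans ?_
    have h8 := norm_sub_le (tr (rd (s • x)) - s • x)
      (tr (rd ((⌊s⌋₊ : ℝ) • x)) - (⌊s⌋₊ : ℝ) • x)
    have h9 : ‖(s - (⌊s⌋₊ : ℝ)) • x‖ ≤ ‖x‖ := by
      rw [norm_smul, Real.norm_eq_abs]
      have h10 := Nat.floor_le hs
      have h11 := Nat.lt_floor_add_one s
      have h12 : |s - (⌊s⌋₊ : ℝ)| ≤ 1 := by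
        rw [abs_le]
        constructor <;> linarith
      calc |s - (⌊s⌋₊ : ℝ)| * ‖x‖ ≤ 1 * ‖x‖ :=
            mul_le_mul_of_nonneg_right h12 (norm_nonneg x)
        _ = ‖x‖ := one_mul _
    linarith
  have t1 := (M.lim x (δ / 4) (by linarith)).comp (tendsto_nat_floor_atTop (α := ℝ))
  have t2 := M.S1_near (1 + ‖x‖) (fun r => rd ((⌊r⌋₊ : ℝ) • x)) (fun r => rd (r • x)) hclose
    (δ / 4) (by linarith)
  have t3 := t1.add t2
  rw [add_zero] at t3
  refine squeeze_zero' (Eventually.of_forall fun r => measureReal_nonneg) ?_ t3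
  have h1 : ∀ᶠ r : ℝ in atTop, |M.μ x| ≤ δ / 2 * r := by
    have : Tendsto (fun r : ℝ => δ / 2 * r) atTop atTop :=
      tendsto_id.const_mul_atTop (by linarith)
    exact this.eventually_ge_atTop _
  filter_upwards [h1, eventually_ge_atTop 0] with r hr hr0
  refine (measureReal_mono ?_).trans (measureReal_union_le _ _)
  intro ω hω
  by_contra h
  rw [mem_union, not_or] at h
  have h2 : |M.t ω 0 (rd ((⌊r⌋₊ : ℝ) • x)) - (⌊r⌋₊ : ℝ) * M.μ x| < δ / 4 * (⌊r⌋₊ : ℝ) :=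
    not_le.1 h.1
  have h3 : M.t ω (rd ((⌊r⌋₊ : ℝ) • x)) (rd (r • x)) < δ / 4 * r := not_le.1 h.2
  have h4 : r * M.μ x + δ * r < M.t ω 0 (rd (r • x)) := hω
  have h5 := M.normA_abs ω (rd (r • x)) (rd ((⌊r⌋₊ : ℝ) • x))
  have h6 := (abs_le.1 h5).2
  have h7 := (abs_lt.1 h2).2
  have h10 := Nat.floor_le hr0
  have h11 := Nat.lt_floor_add_one r
  have h8 : ((⌊r⌋₊ : ℝ) - r) * M.μ x ≤ |M.μ x| := by
    calc ((⌊r⌋₊ : ℝ) - r) * M.μ x ≤ |((⌊r⌋₊ : ℝ) - r) * M.μ x| := le_abs_self _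
      _ = |(⌊r⌋₊ : ℝ) - r| * |M.μ x| := abs_mul _ _
      _ ≤ 1 * |M.μ x| := by
        refine mul_le_mul_of_nonneg_right ?_ (abs_nonneg _)
        rw [abs_le]
        constructor <;> linarith
      _ = |M.μ x| := one_mul _
  have h9 : δ / 4 * (⌊r⌋₊ : ℝ) ≤ δ / 4 * r := mul_le_mul_of_nonneg_left h10 (by linarith)
  nlinarith

theorem PreLRM.S1up (M : PreLRM d P) (ε : ℝ) (hε : 0 < ε) :
    Tendsto (fun r : ℝ => P.real {ω | ∃ z : V d, nm z ≤ r ∧ M.μ (tr z) + ε * r < M.t ω 0 z})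
      atTop (𝓝 0) := by
  have hC1 := M.one_le_C1
  have hC0 : 0 < M.C1 := by linarith
  set η : ℝ := ε / (8 * M.C1) with hη
  have hη0 : 0 < η := by positivity
  have hη1 : M.C1 * η = ε / 8 := by
    rw [hη]
    field_simp
  obtain ⟨T, hTs, hTf, hT⟩ :=
    (isCompact_closedBall (0 : E d) 1).finite_cover_balls hη0
  -- the bad events
  have t1 : Tendsto (fun r : ℝ => P.real {ω | ∃ u v : V d, nm u ≤ r ^ (2 : ℝ) ∧
      nm v ≤ r ^ (2 : ℝ) ∧ M.C1 * max (nm (v - u)) (r ^ ((1 : ℝ) / 2)) < M.t ω u v}) atTop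
      (𝓝 0) := by
    rw [tendsto_order]
    constructor
    · intro a ha
      exact Eventually.of_forall fun n => ha.trans_le measureReal_nonneg
    · intro a ha
      exact (M.UL 2 (1 / 2) (by norm_num)).lt ha
  have t2 : Tendsto (fun r : ℝ => ∑ x ∈ hTf.toFinset,
      P.real {ω | r * M.μ x + ε / 4 * r < M.t ω 0 (rd (r • x))}) atTop (𝓝 0) := by
    have := tendsto_finsetSum hTf.toFinset
      (fun x _ => M.S1up_point x (ε / 4) (by linarith))
    rwa [Finset.sum_const_zero] at this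
  have t3 := t1.add t2
  rw [add_zero] at t3
  refine squeeze_zero' (Eventually.of_forall fun r => measureReal_nonneg) ?_ t3
  have e1 : ∀ᶠ r : ℝ in atTop, r ^ ((1 : ℝ) / 2) ≤ 2 * η * r := by
    filter_upwards [ev_rpow_le 1 (show (0 : ℝ) < 2 * η by linarith)
      (show (1 : ℝ) / 2 < 1 by norm_num)] with r hr
    rw [Real.rpow_one, one_mul] at hr
    exact hr
  have e2 : ∀ᶠ r : ℝ in atTop, 1 / 2 ≤ η * r := by
    have : Tendsto (fun r : ℝ => η * r) atTop atTop := tendsto_id.const_mul_atTop hη0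
    exact this.eventually_ge_atTop _
  filter_upwards [e1, e2, eventually_ge_atTop 2] with r hr1 hr2 hr3
  have hr0 : 0 < r := by linarith
  refine (measureReal_mono ?_).trans ((measureReal_union_le _ _).trans
    (add_le_add le_rfl (measureReal_biUnion_finset_le _ _)))
  rintro ω ⟨z, hz1, hz2⟩
  by_contra h
  rw [mem_union, not_or] at h
  obtain ⟨g1, g2⟩ := h
  simp only [mem_ofPred_eq, not_exists, not_and, not_lt] at g1
  simp only [mem_iUnion, mem_ofPred_eq, not_exists, not_lt, Set.Finite.mem_toFinset] at g2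
  have hz3 : r⁻¹ • tr z ∈ Metric.closedBall (0 : E d) 1 := by
    rw [mem_closedBall_zero_iff, norm_smul, Real.norm_eq_abs, abs_of_pos (inv_pos.2 hr0)]
    calc r⁻¹ * ‖tr z‖ ≤ r⁻¹ * r := mul_le_mul_of_nonneg_left hz1 (inv_pos.2 hr0).le
      _ = 1 := inv_mul_cancel₀ hr0.ne'
  have hz4 := hT hz3
  simp only [mem_iUnion, Metric.mem_ball, exists_prop] at hz4
  obtain ⟨x, hxT, hx⟩ := hz4
  have hx1 : ‖x‖ ≤ 1 := mem_closedBall_zero_iff.1 (hTs hxT)
  have hzx : ‖tr z - r • x‖ ≤ η * r := by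
    have h1 : tr z - r • x = r • (r⁻¹ • tr z - x) := by
      rw [smul_sub, smul_smul, mul_inv_cancel₀ hr0.ne', one_smul]
    rw [h1, norm_smul, Real.norm_eq_abs, abs_of_pos hr0, mul_comm]
    rw [dist_eq_norm] at hx
    exact mul_le_mul_of_nonneg_right hx.le hr0.le
  have hw := norm_rd_sub (r • x)
  have hzw : nm (z - rd (r • x)) ≤ 2 * η * r := by
    unfold nm
    rw [tr_sub]
    have h1 : tr z - tr (rd (r • x)) = (tr z - r • x) - (tr (rd (r • x)) - r • x) := by abel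
    rw [h1]
    refine (norm_sub_le _ _).trans ?_
    linarith
  have hwn : nm (rd (r • x)) ≤ r ^ (2 : ℝ) := by
    refine (nm_rd_le _).trans ?_
    rw [norm_smul, Real.norm_eq_abs, abs_of_pos hr0, Real.rpow_two]
    nlinarith [norm_nonneg x]
  have hzn : nm z ≤ r ^ (2 : ℝ) := by
    rw [Real.rpow_two]
    nlinarith
  have k1 := g1 (rd (r • x)) z hwn hzn
  have k2 := g2 x hxT
  have k3 : M.C1 * max (nm (z - rd (r • x))) (r ^ ((1 : ℝ) / 2)) ≤ M.C1 * (2 * η * r) :=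
    mul_le_mul_of_nonneg_left (max_le hzw hr1) hC0.le
  have k4 := M.t_tri ω 0 (rd (r • x)) z
  have k5 := (abs_le.1 (M.normB_sub (tr z) (r • x))).1
  have k6 : M.μ (r • x) = r * M.μ x := M.normB_nonneg_smul r hr0.le x
  have k7 : M.C1 * ‖tr z - r • x‖ ≤ M.C1 * (η * r) := mul_le_mul_of_nonneg_left hzx hC0.le
  have k8 : M.C1 * (2 * η * r) = ε / 4 * r := by
    calc M.C1 * (2 * η * r) = 2 * (M.C1 * η) * r := by ring
      _ = ε / 4 * r := by rw [hη1]; ring
  have k9 : M.C1 * (η * r) = ε / 8 * r := by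
    rw [← mul_assoc, hη1]
  rw [k6] at k5
  nlinarith

end FPPX
end
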