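import Pool.Agent.Lib.MP_fa364e_pr.Core.B1A
import Pool.Agent.Lib.MP_fa364e_pr.Mg.G003
import Pool.Agent.Lib.MP_fa364e_pr.Mg.G010
import Pool.Agent.Lib.MP_fa364e_pr.Mg.G007
import Pool.Agent.Lib.MP_fa364e_pr.Mg.G006
import Pool.Agent.Lib.MP_fa364e_pr.Mg.G008
import Pool.Agent.Lib.MP_fa364e_pr.Mg.G004

section

/-! Hypothesis B, further improvements. -/

namespace FPPX

open MeasureTheory ProbabilityTheory Filter Set
open scoped Topology

variable {d : ℕ} {Ω : Type} [MeasurableSpace Ω] {P : Measure Ω} [IsProbabilityMeasure P]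

/-- six events of small probability do not cover the space -/
private lemma B1_exists_good {A1 A2 A3 A4 A5 A6 : Set Ω}
    (h1 : P.real A1 < 1 / 8) (h2 : P.real A2 < 1 / 8) (h3 : P.real A3 < 1 / 8)
    (h4 : P.real A4 < 1 / 8) (h5 : P.real A5 < 1 / 8) (h6 : P.real A6 < 1 / 8) :
    ∃ ω, ω ∉ A1 ∧ ω ∉ A2 ∧ ω ∉ A3 ∧ ω ∉ A4 ∧ ω ∉ A5 ∧ ω ∉ A6 := by
  by_contra hcon
  push Not at hcon
  have hsub : (univ : Set Ω) ⊆ A1 ∪ (A2 ∪ (A3 ∪ (A4 ∪ (A5 ∪ A6)))) := by
    intro ω _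
    by_cases g1 : ω ∈ A1
    · exact Or.inl g1
    by_cases g2 : ω ∈ A2
    · exact Or.inr (Or.inl g2)
    by_cases g3 : ω ∈ A3
    · exact Or.inr (Or.inr (Or.inl g3))
    by_cases g4 : ω ∈ A4
    · exact Or.inr (Or.inr (Or.inr (Or.inl g4)))
    by_cases g5 : ω ∈ A5
    · exact Or.inr (Or.inr (Or.inr (Or.inr (Or.inl g5))))
    · exact Or.inr (Or.inr (Or.inr (Or.inr (Or.inr (hcon ω g1 g2 g3 g4 g5)))))
  have h := measureReal_mono (μ := P) hsub
  have e1 := measureReal_union_le (μ := P) A1 (A2 ∪ (A3 ∪ (A4 ∪ (A5 ∪ A6))))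
  have e2 := measureReal_union_le (μ := P) A2 (A3 ∪ (A4 ∪ (A5 ∪ A6)))
  have e3 := measureReal_union_le (μ := P) A3 (A4 ∪ (A5 ∪ A6))
  have e4 := measureReal_union_le (μ := P) A4 (A5 ∪ A6)
  have e5 := measureReal_union_le (μ := P) A5 A6
  have e0 : P.real (univ : Set Ω) = 1 := by simp
  linarith

/-- the number of pairs times the Chebyshev bound tends to zero -/
private lemma B1_small {κ γ a c : ℝ} (d : ℕ) (hκ : 0 < κ) (hκγ : κ < γ) (hγ : γ < 1)
    (ha : a = (γ - κ) * γ * (1 - γ) / (128 * (d + 1))) (hc : c = (γ - κ) / (16 * (d + 1)))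
    (K0 Λ0 C C7 : ℝ) (hK0 : 0 < K0) (hΛ0 : 1 ≤ Λ0) (hC : 0 < C) (hC7 : 1 ≤ C7) :
    ∀ᶠ m : ℝ in atTop, ((K0 * (Λ0 * m ^ (2 * c))) ^ d) ^ 2 *
      (C * (C7 * m) ^ (2 * κ) / (m ^ (γ - a)) ^ 2) < 1 / 8 := by
  have hd1 : (0 : ℝ) < (d : ℝ) + 1 := by positivity
  have hθ : 0 < γ - κ := by linarith
  have hγ0 : 0 < γ := by linarith
  have hcd : c * (16 * (d + 1)) = γ - κ := by rw [hc]; field_simp
  have had : a * (128 * (d + 1)) = (γ - κ) * γ * (1 - γ) := by rw [ha]; field_simp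
  have hc0 : 0 < c := by rw [hc]; positivity
  have ha0 : 0 < a := by
    rw [ha]; apply div_pos _ (by positivity)
    exact mul_pos (mul_pos hθ hγ0) (by linarith)
  have hale : a ≤ (γ - κ) / 128 := by
    have h1 : (γ - κ) * γ * (1 - γ) ≤ (γ - κ) := by
      have : γ * (1 - γ) ≤ 1 := by nlinarith
      nlinarith
    have h2 : a * 128 ≤ a * (128 * (d + 1)) := by
      have : (0 : ℝ) ≤ a * d := by positivity
      nlinarith
    rw [le_div_iff₀ (by norm_num)]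
    linarith
  have h4cd : 4 * c * d ≤ (γ - κ) / 4 := by
    nlinarith
  have hexp : 4 * c * d + 2 * κ - 2 * (γ - a) < 0 := by
    nlinarith
  have hev := ev_rpow_le (((K0 * Λ0) ^ d) ^ 2 * (C * C7 ^ (2 * κ)) * 16) (B := 1) one_pos
    (a := 4 * c * d + 2 * κ - 2 * (γ - a)) (b := 0) hexp
  filter_upwards [hev, eventually_gt_atTop 0] with m hm hm0
  rw [Real.rpow_zero, mul_one] at hm
  have e1 : ((K0 * (Λ0 * m ^ (2 * c))) ^ d) ^ 2 = ((K0 * Λ0) ^ d) ^ 2 * m ^ (4 * c * d) := by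
    have : m ^ (4 * c * d) = ((m ^ (2 * c)) ^ d) ^ 2 := by
      rw [← Real.rpow_natCast (m ^ (2 * c)) d, ← Real.rpow_mul hm0.le,
        ← Real.rpow_natCast (m ^ (2 * c * d)) 2, ← Real.rpow_mul hm0.le]
      congr 1; push_cast; ring
    rw [this]; ring
  have e2 : (C7 * m) ^ (2 * κ) = C7 ^ (2 * κ) * m ^ (2 * κ) :=
    Real.mul_rpow (by linarith) hm0.le
  have e3 : (m ^ (γ - a)) ^ 2 = m ^ (2 * (γ - a)) := by
    rw [← Real.rpow_natCast, ← Real.rpow_mul hm0.le]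
    congr 1; push_cast; ring
  have e4 : m ^ (4 * c * d + 2 * κ - 2 * (γ - a)) =
      m ^ (4 * c * d) * m ^ (2 * κ) / m ^ (2 * (γ - a)) := by
    rw [Real.rpow_sub hm0, Real.rpow_add hm0]
  rw [e1, e2, e3]
  rw [e4] at hm
  have e5 : ((K0 * Λ0) ^ d) ^ 2 * m ^ (4 * c * d) *
      (C * (C7 ^ (2 * κ) * m ^ (2 * κ)) / m ^ (2 * (γ - a))) =
      ((K0 * Λ0) ^ d) ^ 2 * (C * C7 ^ (2 * κ)) *
        (m ^ (4 * c * d) * m ^ (2 * κ) / m ^ (2 * (γ - a))) := by ring
  rw [e5]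
  linarith

theorem LRM.stepB1 (M : LRM d P) {κ γ : ℝ} (hκ : 0 < κ) (hκγ : κ < γ) (hγ : γ < 1)
    (hB : M.HypB κ) (hUp : ∀ ε : ℝ, 0 < ε → M.UpAll (γ + ε))
    (hLow : ∀ ε : ℝ, 0 < ε → M.Low (γ + ε)) :
    M.XNall (γ - (γ - κ) * γ * (1 - γ) / (256 * (d + 1))) := by
  have hd1 : (0 : ℝ) < (d : ℝ) + 1 := by positivity
  have hθ : 0 < γ - κ := by linarith
  have hγ0 : 0 < γ := by linarith
  have hlam : 0 < 1 - γ := by linarith
  obtain ⟨a, ha⟩ : ∃ a, a = (γ - κ) * γ * (1 - γ) / (128 * ((d : ℝ) + 1)) := ⟨_, rfl⟩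
  obtain ⟨c, hc⟩ : ∃ c, c = (γ - κ) / (16 * ((d : ℝ) + 1)) := ⟨_, rfl⟩
  have hc0 : 0 < c := by rw [hc]; positivity
  have ha0 : 0 < a := by
    rw [ha]; apply div_pos _ (by positivity)
    exact mul_pos (mul_pos hθ hγ0) hlam
  have hcd : c * (16 * (d + 1)) = γ - κ := by rw [hc]; field_simp
  have had : a * (128 * (d + 1)) = (γ - κ) * γ * (1 - γ) := by rw [ha]; field_simp
  have hdnn : (0 : ℝ) ≤ d := Nat.cast_nonneg d
  have hc1 : c ≤ 1 / 16 := by
    have : (0 : ℝ) ≤ c * d := by positivity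
    nlinarith
  have hale : a ≤ (γ - κ) / 128 := by
    have h1 : (γ - κ) * γ * (1 - γ) ≤ (γ - κ) := by
      have : γ * (1 - γ) ≤ 1 := by nlinarith
      nlinarith
    have h2 : a * 128 ≤ a * (128 * (d + 1)) := by
      have : (0 : ℝ) ≤ a * d := by positivity
      nlinarith
    rw [le_div_iff₀ (by norm_num)]
    linarith
  have ha1 : a ≤ 1 / 128 := by
    have : (γ - κ) / 128 ≤ 1 / 128 := by
      apply div_le_div_of_nonneg_right _ (by norm_num); linarith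
    linarith
  have hβ : γ - (γ - κ) * γ * (1 - γ) / (256 * ((d : ℝ) + 1)) = γ - a / 2 := by
    rw [ha]; field_simp; ring
  rw [hβ]
  have hcm : 0 < M.cm := M.isNm.cpos
  -- the cut
  have hσ1 : 1 / (1 + c) < 1 := by
    rw [div_lt_one (by linarith)]; linarith
  have hσ : 1 + a / 4 < 2 * (1 / (1 + c)) := by
    have : 16 / 17 ≤ 1 / (1 + c) := by
      rw [div_le_div_iff₀ (by norm_num) (by linarith)]; linarith
    linarith
  obtain ⟨C2, hC2, hcut⟩ := M.cut2 (1 / (1 + c)) (a / 4) (1 / M.cm + 1) (by linarith) hσ hσ1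
    (by have : 0 < 1 / M.cm := by positivity
        linarith)
  obtain ⟨Λ0, C7, hΛ0, hC7, hdet⟩ := M.B1_det hκ hκγ hγ ha hc C2 hC2
  obtain ⟨B0, K0, hB0, hK0, hcov⟩ := cover d M.cm M.CM
  obtain ⟨C, hC, hpairs⟩ := M.pairs_conc hB hκ.le
  obtain ⟨C', hC', hpos⟩ := M.pos_part_le hB hκ.le
  have ha4 : 0 < a / 4 := by linarith
  have hcl : 0 < 1 - c * (1 - γ) := by nlinarith
  -- negligible events
  have n1 := hcut.comp_rpow (a := 1 + c) (c := 1) (by linarith) one_pos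
  have n2 := (hUp (a / 4) ha4).scale (a := 1 + c) (B := C7) (by linarith) (by linarith) 4
  have n3 := (hLow (a / 4) ha4).scale (a := 1 + c) (B := C7) (by linarith) (by linarith) 4
  have n4 := (hLow (a / 4) ha4).scale (a := 1) (B := 2) one_pos (by norm_num) 4
  have n5 := (hUp (a / 4) ha4).scale (a := 1 - c * (1 - γ)) (B := C7) hcl (by linarith) 4
  have l1 := n1.lt (δ := 1 / 8) (by norm_num)
  have l2 := n2.lt (δ := 1 / 8) (by norm_num)
  have l3 := n3.lt (δ := 1 / 8) (by norm_num)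
  have l4 := n4.lt (δ := 1 / 8) (by norm_num)
  have l5 := n5.lt (δ := 1 / 8) (by norm_num)
  have l6 := B1_small d hκ hκγ hγ ha hc K0 Λ0 C C7 hK0 hΛ0 hC hC7
  have r1 := ev_const_le B0 (B := 1) one_pos hcl
  have r2 := ev_const_le B0 (B := 1) one_pos (b := γ - a) (by nlinarith)
  have r3 := ev_rpow_le (C' * (2 * C7) ^ κ) (B := 1 / 2) (by norm_num) (a := κ) (b := γ - a / 2)
    (by linarith)
  refine ⟨M.cm / 2, C7, by positivity, by linarith, ?_⟩
  filter_upwards [hdet, l1, l2, l3, l4, l5, l6, r1, r2, r3, eventually_ge_atTop 1] with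
    m hm k1 k2 k3 k4 k5 k6 s1 s2 s3 hm1 ν p hsupp
  have hm0 : 0 < m := by linarith
  rw [one_mul] at s1 s2
  rw [Real.rpow_one] at k4
  obtain ⟨G, hGcard, hG⟩ := hcov M.μ M.isNm ν p hsupp (m ^ (1 - c * (1 - γ))) (m ^ (γ - a))
    (Λ0 * m ^ (2 * c)) s1 s2 (by
      have : 1 ≤ m ^ (2 * c) := Real.one_le_rpow hm1 (by linarith)
      nlinarith)
  -- the pairs
  classical
  obtain ⟨S, hS⟩ : ∃ S : Finset (V d × V d), S = (G ×ˢ G).filter
      (fun q => nm (q.2 - q.1) ≤ C7 * m) := ⟨_, rfl⟩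
  have hgpos : 0 < m ^ (γ - a) := Real.rpow_pos_of_pos hm0 _
  have hC7m : 1 ≤ C7 * m := by nlinarith
  have hS1 := hpairs S (C7 * m) (m ^ (γ - a)) hC7m hgpos (by
    intro q hq
    rw [hS, Finset.mem_filter] at hq
    exact hq.2)
  have hScard : (S.card : ℝ) ≤ ((K0 * (Λ0 * m ^ (2 * c))) ^ d) ^ 2 := by
    have h1 : S.card ≤ G.card * G.card := by
      rw [hS, ← Finset.card_product]
      exact Finset.card_filter_le _ _
    have h2 : (S.card : ℝ) ≤ (G.card : ℝ) * G.card := by exact_mod_cast h1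
    have h3 : (0 : ℝ) ≤ G.card := Nat.cast_nonneg _
    calc (S.card : ℝ) ≤ (G.card : ℝ) * G.card := h2
      _ ≤ ((K0 * (Λ0 * m ^ (2 * c))) ^ d) * ((K0 * (Λ0 * m ^ (2 * c))) ^ d) :=
        mul_le_mul hGcard hGcard h3 (h3.trans hGcard)
      _ = _ := by ring
  have k6' : P.real {ω | ∃ q ∈ S, m ^ (γ - a) <
      |M.t ω q.1 q.2 - ∫ ω', M.t ω' 0 (q.2 - q.1) ∂P|} < 1 / 8 := by
    refine lt_of_le_of_lt (hS1.trans ?_) k6
    apply mul_le_mul_of_nonneg_right hScard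
    have : 0 < (C7 * m) ^ (2 * κ) := Real.rpow_pos_of_pos (by linarith) _
    positivity
  obtain ⟨ω, g1, g2, g3, g4, g5, g6⟩ := B1_exists_good k1 k2 k3 k4 k5 k6'
  simp only [mem_ofPred_eq, not_not, one_mul] at g1 g2 g3 g4 g5
  have hpair : ∀ A ∈ G, ∀ B ∈ G, nm (B - A) ≤ C7 * m →
      ∫ ω', M.t ω' 0 (B - A) ∂P ≤ M.t ω A B + m ^ (γ - a) := by
    intro A hA B hB' hAB
    by_contra hcon
    push Not at hcon
    apply g6
    refine ⟨(A, B), ?_, ?_⟩
    · rw [hS, Finset.mem_filter]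
      exact ⟨Finset.mem_product.mpr ⟨hA, hB'⟩, hAB⟩
    · show m ^ (γ - a) < |M.t ω A B - ∫ ω', M.t ω' 0 (B - A) ∂P|
      rw [abs_sub_comm]
      exact lt_of_lt_of_le (by linarith) (le_abs_self _)
  have hX := hm ω g1 g2 g3 g4 g5 ν p hsupp G hG hpair
  push Not at hX
  obtain ⟨X, hX1, hX2, hX3⟩ := hX
  refine ⟨X, hX1, hX2, ?_⟩
  refine (hpos X (ν (tr X))).trans ?_
  have hh : max (∫ ω, M.t ω 0 X ∂P - ν (tr X)) 0 ≤ m ^ (γ - a / 2) / 2 := by
    apply max_le (by linarith)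
    have : 0 < m ^ (γ - a / 2) := Real.rpow_pos_of_pos hm0 _
    linarith
  have h1 : (1 + nm X) ^ κ ≤ (2 * C7 * m) ^ κ := by
    apply Real.rpow_le_rpow (by have := nm_nonneg X; linarith) _ hκ.le
    linarith
  have h2 : (2 * C7 * m) ^ κ = (2 * C7) ^ κ * m ^ κ :=
    Real.mul_rpow (by linarith) hm0.le
  have h3 : C' * (1 + nm X) ^ κ ≤ 1 / 2 * m ^ (γ - a / 2) := by
    calc C' * (1 + nm X) ^ κ ≤ C' * ((2 * C7) ^ κ * m ^ κ) :=
          mul_le_mul_of_nonneg_left (h2 ▸ h1) hC'.le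
      _ = C' * (2 * C7) ^ κ * m ^ κ := by ring
      _ ≤ _ := s3
  linarith

end FPPX
end

section

/-! The two bootstrap loops. -/

namespace FPPX

open MeasureTheory ProbabilityTheory Filter Set
open scoped Topology

variable {d : ℕ} {Ω : Type} [MeasurableSpace Ω] {P : Measure Ω} [IsProbabilityMeasure P]

theorem LRM.Up_of_U (M : LRM d P) {γ β : ℝ} (hγ : 0 < γ) (hU : M.U γ) (h : γ < β) : M.Up β := by
  obtain ⟨δ, hδ, hδ4, hδβ⟩ : ∃ δ : ℝ, 0 < δ ∧ δ ≤ 1 / 4 ∧ γ + 4 * δ ≤ β := by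
    refine ⟨min (1 / 4) ((β - γ) / 4), lt_min (by norm_num) (by linarith), min_le_left _ _, ?_⟩
    have := min_le_right (1 / 4 : ℝ) ((β - γ) / 4)
    linarith
  have key : ∀ n : ℕ, M.Up (max (γ + 4 * δ) (2 * (1 - δ / 2) ^ n)) := by
    intro n
    induction n with
    | zero =>
      apply M.Up_mono (M.Up_trivial (β := 2) (by norm_num))
      simp
    | succ n ih =>
      have hpos : 0 < max (γ + 4 * δ) (2 * (1 - δ / 2) ^ n) :=
        lt_max_of_lt_left (by linarith)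
      have h1 := M.UpStep hγ hU ih hpos hδ hδ4
      apply M.Up_mono h1
      apply max_le (le_max_left _ _)
      rw [pow_succ]
      rcases le_total (γ + 4 * δ) (2 * (1 - δ / 2) ^ n) with h2 | h2
      · rw [max_eq_right h2, ← mul_assoc]
        exact le_max_right _ _
      · rw [max_eq_left h2]
        apply le_trans _ (le_max_left _ _)
        nlinarith
  obtain ⟨n, hn⟩ : ∃ n : ℕ, (1 - δ / 2) ^ n < (γ + 4 * δ) / 2 :=
    exists_pow_lt_of_lt_one (by linarith) (by linarith)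
  apply M.Up_mono (key n)
  apply max_le hδβ
  linarith

theorem LRM.Low_of_U (M : LRM d P) {γ β : ℝ} (hγ : 0 < γ) (hU : M.U γ) (h : γ < β) :
    M.Low β := by
  rcases lt_or_ge 1 β with hβ1 | hβ1
  · exact M.Low_trivial hβ1
  set γ' := (γ + β) / 2 with hγ'
  have h1 : γ < γ' := by rw [hγ']; linarith
  have h2 : γ' < β := by rw [hγ']; linarith
  have hγ'0 : 0 < γ' := by linarith
  have hUp : M.UpAll γ' := M.UpAll_of_Up (M.Up_of_U hγ hU h1)
  have hT : M.T1 γ' := M.T1_of_UpAll hγ'0 (by linarith) hUp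
  obtain ⟨δ, hδ, hδ4, hδγ, hδβ⟩ : ∃ δ : ℝ, 0 < δ ∧ δ ≤ 1 / 4 ∧ 4 * δ ≤ γ' ∧
      8 * (d + 1) * δ ≤ β - γ' := by
    refine ⟨min (1 / 4) (min (γ' / 4) ((β - γ') / (8 * (d + 1)))), ?_, min_le_left _ _, ?_, ?_⟩
    · refine lt_min (by norm_num) (lt_min (by linarith) ?_)
      apply div_pos (by linarith) (by positivity)
    · have := (min_le_right (1 / 4 : ℝ) (min (γ' / 4) ((β - γ') / (8 * (d + 1))))).trans
        (min_le_left _ _)
      linarith
    · have := (min_le_right (1 / 4 : ℝ) (min (γ' / 4) ((β - γ') / (8 * (d + 1))))).trans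
        (min_le_right _ _)
      rw [le_div_iff₀ (by positivity)] at this
      linarith
  have key : ∀ n : ℕ, M.Low (max β ((1 + δ) * (1 - δ / 2) ^ n)) := by
    intro n
    induction n with
    | zero =>
      apply M.Low_mono (M.Low_trivial (β := 1 + δ) (by linarith))
      simp
    | succ n ih =>
      have hle : max β ((1 + δ) * (1 - δ / 2) ^ n) ≤ 1 + δ := by
        apply max_le (by linarith)
        have : (1 - δ / 2) ^ n ≤ 1 := pow_le_one₀ (by linarith) (by linarith)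
        nlinarith
      have hge : β ≤ max β ((1 + δ) * (1 - δ / 2) ^ n) := le_max_left _ _
      have h1 := M.LowStep hγ'0 (by linarith) hUp hT ih hle hδ hδ4 hδγ (by linarith)
      apply M.Low_mono h1
      rw [pow_succ]
      rcases le_total β ((1 + δ) * (1 - δ / 2) ^ n) with h2 | h2
      · rw [max_eq_right h2, ← mul_assoc]
        exact le_max_right _ _
      · rw [max_eq_left h2]
        apply le_trans _ (le_max_left _ _)
        nlinarith
  obtain ⟨n, hn⟩ : ∃ n : ℕ, (1 - δ / 2) ^ n < β / 2 :=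
    exists_pow_lt_of_lt_one (by linarith) (by linarith)
  apply M.Low_mono (key n)
  apply max_le le_rfl
  have : 0 ≤ (1 - δ / 2) ^ n := pow_nonneg (by linarith) _
  nlinarith

theorem PreLRM.SC_of_UpAll_Low (M : PreLRM d P) {β : ℝ} (hUp : M.UpAll β) (hLow : M.Low β) :
    M.SC β := by
  have h := (hUp 1).union (hLow 1)
  refine Negl.mono ?_ h
  filter_upwards [eventually_ge_atTop (0 : ℝ)] with r hr
  rintro ω ⟨v, hv, hv2⟩
  have h0 : nm (0 : V d) ≤ r ^ (1 : ℝ) := by rw [nm_zero, Real.rpow_one]; exact hr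
  rcases lt_abs.mp hv2 with h1 | h1
  · left
    refine ⟨0, v, h0, by rwa [sub_zero], ?_⟩
    rw [sub_zero]; linarith
  · right
    refine ⟨0, v, h0, by rwa [sub_zero], ?_⟩
    rw [sub_zero]; linarith

theorem LRM.SC_of_U (M : LRM d P) {γ β : ℝ} (hγ : 0 < γ) (hU : M.U γ) (h : γ < β) :
    M.SC β :=
  M.SC_of_UpAll_Low (M.UpAll_of_Up (M.Up_of_U hγ hU h)) (M.Low_of_U hγ hU h)

/-- an exponent can be pushed down by uniform decrements -/
theorem descent (S : ℝ → Prop) (hmono : ∀ γ γ', S γ → γ ≤ γ' → S γ') (κ γ0 : ℝ) (h0 : S γ0)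
    (δ : ℝ) (hδ : 0 < δ) (hstep : ∀ γ, κ < γ → γ ≤ γ0 → S γ → S (γ - δ)) : S κ := by
  by_contra hcon
  have key : ∀ n : ℕ, S (γ0 - n * δ) := by
    intro n
    induction n with
    | zero => simpa using h0
    | succ n ih =>
      have h1 : κ < γ0 - n * δ := by
        by_contra h2
        push Not at h2
        exact hcon (hmono _ _ ih h2)
      have h3 : γ0 - n * δ ≤ γ0 := by
        have : 0 ≤ n * δ := by positivity
        linarith
      have := hstep _ h1 h3 ih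
      push_cast
      convert this using 1
      ring
  obtain ⟨n, hn⟩ := exists_nat_gt ((γ0 - κ) / δ)
  rw [div_lt_iff₀ hδ] at hn
  exact hcon (hmono _ _ (key n) (by linarith))

theorem PreLRM.HypA_mono (M : PreLRM d P) {κ κ' : ℝ} (h : M.HypA κ) (hk : κ ≤ κ') :
    M.HypA κ' := by
  unfold PreLRM.HypA at *
  apply squeeze_zero' (Eventually.of_forall fun r => measureReal_nonneg) _ h
  filter_upwards [eventually_ge_atTop (1 : ℝ)] with r hr
  apply measureReal_mono _ (measure_ne_top _ _)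
  rintro ω ⟨v, hv, hv2⟩
  exact ⟨v, hv, (Real.rpow_le_rpow_of_exponent_le hr hk).trans_lt hv2⟩

theorem PreLRM.HypB_mono (M : PreLRM d P) {κ κ' : ℝ} (h : M.HypB κ) (hk : κ ≤ κ') :
    M.HypB κ' := by
  obtain ⟨C, hC⟩ := h
  refine ⟨max C 0, fun x => (hC x).trans ?_⟩
  have h1 : (1 : ℝ) ≤ 1 + nm x := by linarith [nm_nonneg x]
  have h2 : (1 + nm x) ^ (2 * κ) ≤ (1 + nm x) ^ (2 * κ') :=
    Real.rpow_le_rpow_of_exponent_le h1 (by linarith)
  have h3 : 0 ≤ (1 + nm x) ^ (2 * κ) := Real.rpow_nonneg (by linarith) _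
  calc C * (1 + nm x) ^ (2 * κ) ≤ max C 0 * (1 + nm x) ^ (2 * κ) :=
        mul_le_mul_of_nonneg_right (le_max_left _ _) h3
    _ ≤ max C 0 * (1 + nm x) ^ (2 * κ') := mul_le_mul_of_nonneg_left h2 (le_max_right _ _)

theorem PreLRM.SC_mono (M : PreLRM d P) {κ κ' : ℝ} (h : M.SC κ) (hk : κ ≤ κ') : M.SC κ' := by
  refine Negl.mono ?_ h
  filter_upwards [eventually_ge_atTop (1 : ℝ)] with r hr
  rintro ω ⟨v, hv, hv2⟩
  exact ⟨v, hv, (Real.rpow_le_rpow_of_exponent_le hr hk).trans_lt hv2⟩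

/-- **Loop A** -/
theorem LRM.U_of_HypA (M : LRM d P) (hd : 2 ≤ d) {κ κ' : ℝ} (hκ : 0 < κ) (hκκ' : κ < κ')
    (hA : M.HypA κ) : M.U κ' := by
  rcases lt_or_ge 1 κ' with h1 | h1
  · exact M.U_mono M.U_one h1.le
  refine descent (fun γ => M.U γ) (fun γ γ' h h' => M.U_mono h h') κ' 1 M.U_one
    ((κ' - κ) * κ' ^ 2 / 128) ?_ ?_
  · have : 0 < κ' - κ := by linarith
    have : 0 < κ' := by linarith
    positivity
  · intro γ hγ hγ1 hU
    have hκ'0 : 0 < κ' := by linarith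
    have hγ0 : 0 < γ := by linarith
    have ha : 0 < (γ - κ) * γ / 32 := by
      have : 0 < γ - κ := by linarith
      positivity
    have ha1 : (γ - κ) * γ / 32 ≤ 1 := by nlinarith
    have hX := M.tubes hd hκ (by linarith) hγ1 hA hU
    have h2 := M.improve hγ0 hγ1 ha ha1 hU hX
    apply M.U_mono h2
    have h3 : (κ' - κ) * κ' ^ 2 ≤ (γ - κ) * γ ^ 2 := by
      apply mul_le_mul (by linarith) _ (by positivity) (by linarith)
      exact pow_le_pow_left₀ hκ'0.le hγ.le 2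
    nlinarith

theorem LRM.coreA (M : LRM d P) (hd : 2 ≤ d) {κ κ' : ℝ} (hκ' : 0 < κ') (hκκ' : κ < κ')
    (hA : M.HypA κ) : M.SC κ' := by
  -- intermediate exponents
  set k1 := max ((κ + κ') / 2) (κ' / 3) with hk1
  have h1 : k1 < κ' := max_lt (by linarith) (by linarith)
  have h0 : 0 < k1 := lt_max_of_lt_right (by linarith)
  have hA1 : M.HypA k1 := M.HypA_mono hA ((by linarith : κ ≤ (κ + κ') / 2).trans (le_max_left _ _))
  have hU := M.U_of_HypA hd h0 (by linarith : k1 < (k1 + κ') / 2) hA1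
  exact M.SC_of_U (by linarith) hU (by linarith)

/-- **Loop B** -/
theorem LRM.U_of_HypB (M : LRM d P) {κ κ' : ℝ} (hκ : 0 < κ) (hκκ' : κ < κ')
    (hB : M.HypB κ) : M.U κ' := by
  rcases le_or_gt 1 κ' with h1 | h1
  · exact M.U_mono M.U_one h1
  have hκ1 : κ < 1 := by linarith
  have hdpos : (0 : ℝ) ≤ d := Nat.cast_nonneg d
  -- first improvement
  set b0 := (1 - κ) / (32 * ((d : ℝ) + 1)) with hb0
  have hb0pos : 0 < b0 := by
    rw [hb0]; apply div_pos (by linarith) (by positivity)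
  have hb01 : b0 ≤ 1 := by
    rw [hb0, div_le_one (by positivity)]; nlinarith
  have hX0 : M.XNall (1 - b0) := M.stepB0 hκ hκ1 hB
  have hU0 := M.improve one_pos le_rfl hb0pos hb01 M.U_one hX0
  set γ0 := 1 - b0 * 1 / 4 with hγ0
  have hγ01 : γ0 < 1 := by rw [hγ0]; linarith
  refine descent (fun γ => M.U γ) (fun γ γ' h h' => M.U_mono h h') κ' γ0 hU0
    ((κ' - κ) * κ' ^ 2 * (1 - γ0) / (1024 * (d + 1))) ?_ ?_
  · have h2 : 0 < κ' - κ := by linarith
    have h3 : 0 < κ' := by linarith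
    have h4 : 0 < 1 - γ0 := by linarith
    positivity
  · intro γ hγ hγ1 hU
    have hκ'0 : 0 < κ' := by linarith
    have hγp : 0 < γ := by linarith
    have hγlt : γ < 1 := by linarith
    have h2 : 0 < γ - κ := by linarith
    have h4 : 0 < 1 - γ := by linarith
    have ha : 0 < (γ - κ) * γ * (1 - γ) / (256 * ((d : ℝ) + 1)) := by positivity
    have ha1 : (γ - κ) * γ * (1 - γ) / (256 * ((d : ℝ) + 1)) ≤ 1 := by
      rw [div_le_one (by positivity)]
      have e1 : (γ - κ) * γ ≤ 1 * 1 := mul_le_mul (by linarith) hγlt.le hγp.le (by norm_num)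
      have e2 : (γ - κ) * γ * (1 - γ) ≤ 1 * 1 := by
        apply mul_le_mul (by linarith) (by linarith) h4.le (by norm_num)
      nlinarith
    have hX := M.stepB1 hκ (by linarith) hγlt hB
      (fun ε hε => M.UpAll_of_Up (M.Up_of_U hγp hU (by linarith)))
      (fun ε hε => M.Low_of_U hγp hU (by linarith))
    have h5 := M.improve hγp hγlt.le ha ha1 hU hX
    apply M.U_mono h5
    have h6 : (κ' - κ) * κ' ^ 2 * (1 - γ0) ≤ (γ - κ) * γ ^ 2 * (1 - γ) := by
      apply mul_le_mul _ (by linarith) (by linarith) (by positivity)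
      apply mul_le_mul (by linarith) _ (by positivity) (by linarith)
      exact pow_le_pow_left₀ hκ'0.le hγ.le 2
    have h7 : (γ - κ) * γ * (1 - γ) / (256 * ((d : ℝ) + 1)) * γ / 4 =
        (γ - κ) * γ ^ 2 * (1 - γ) / (1024 * (d + 1)) := by
      field_simp
      ring
    have h8 : (κ' - κ) * κ' ^ 2 * (1 - γ0) / (1024 * ((d : ℝ) + 1)) ≤
        (γ - κ) * γ ^ 2 * (1 - γ) / (1024 * (d + 1)) := by
      apply div_le_div_of_nonneg_right h6 (by positivity)
    linarith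

theorem LRM.coreB (M : LRM d P) {κ κ' : ℝ} (hκ' : 0 < κ') (hκκ' : κ < κ')
    (hB : M.HypB κ) : M.SC κ' := by
  set k1 := max ((κ + κ') / 2) (κ' / 3) with hk1
  have h1 : k1 < κ' := max_lt (by linarith) (by linarith)
  have h0 : 0 < k1 := lt_max_of_lt_right (by linarith)
  have hB1 : M.HypB k1 := M.HypB_mono hB ((by linarith : κ ≤ (κ + κ') / 2).trans (le_max_left _ _))
  have hU := M.U_of_HypB h0 (by linarith : k1 < (k1 + κ') / 2) hB1
  exact M.SC_of_U (by linarith) hU (by linarith)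

end FPPX
end
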