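import Pool.Agent.Lib.MP_fa364e_pr.Mg.G010
import Pool.Agent.Lib.MP_fa364e_pr.Mg.G011
import Pool.Agent.Lib.MP_fa364e_pr.Mg.G015
import Pool.Agent.Lib.MP_fa364e_pr.Mg.G004
import Pool.Agent.Lib.MP_fa364e_pr.Mg.G002

section

/-! The errors at lattice points are small. -/

namespace FPPX

open MeasureTheory ProbabilityTheory Filter Set
open scoped Topology

variable {d : ℕ} {Λ : Measure (Cfg d)} {α : ℝ}

private lemma hat_univ' : hat (univ : Set (V d)) = univ := by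
  ext x; simp [hat]

private lemma infDist_meas (v : V d) :
    Measurable fun ω : Env d => Metric.infDist (emb v) (parts ω) := by
  apply measurable_of_Iio
  intro a
  rcases le_or_gt a 0 with ha | ha
  · have : (fun ω : Env d => Metric.infDist (emb v) (parts ω)) ⁻¹' Iio a = ∅ := by
      ext ω
      simp only [mem_preimage, mem_Iio, mem_empty_iff_false, iff_false, not_lt]
      exact ha.trans Metric.infDist_nonneg
    rw [this]
    exact MeasurableSet.empty
  · have hset : ∀ U : Set (Fin 1 → RR d), IsOpen U → MeasurableSet {ω : Env d |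
        ∃ x : Fin 1 → RR d, (∀ i, x i ∈ parts ω ∩ hat (univ : Set (V d))) ∧ x ∈ U} :=
      fun U hU => FP_le _ _ (meas_open univ 1 U hU)
    have hU : IsOpen {x : Fin 1 → RR d | dist (emb v) (x 0) < a} :=
      isOpen_lt (continuous_const.dist (continuous_apply 0)) continuous_const
    have h1 := hset _ hU
    have h2 := hset univ isOpen_univ
    have h3 : (fun ω : Env d => Metric.infDist (emb v) (parts ω)) ⁻¹' Iio a =
        {ω : Env d | ∃ x : Fin 1 → RR d, (∀ i, x i ∈ parts ω ∩ hat (univ : Set (V d))) ∧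
          x ∈ (univ : Set (Fin 1 → RR d))}ᶜ ∪
        {ω : Env d | ∃ x : Fin 1 → RR d, (∀ i, x i ∈ parts ω ∩ hat (univ : Set (V d))) ∧
          x ∈ {x : Fin 1 → RR d | dist (emb v) (x 0) < a}} := by
      ext ω
      simp only [mem_preimage, mem_Iio, mem_union, mem_compl_iff, mem_ofPred_eq, hat_univ',
        inter_univ, mem_univ, and_true]
      constructor
      · intro h
        by_cases hne : (parts ω).Nonempty
        · right
          obtain ⟨p, hp, hpa⟩ := (Metric.infDist_lt_iff hne).mp h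
          exact ⟨fun _ => p, fun _ => hp, hpa⟩
        · left
          rintro ⟨x, hx⟩
          exact hne ⟨x 0, hx 0⟩
      · rintro (h | ⟨x, hx, hxa⟩)
        · have : parts ω = ∅ := by
            by_contra hne
            obtain ⟨p, hp⟩ := nonempty_iff_ne_empty.mpr hne
            exact h ⟨fun _ => p, fun _ => hp⟩
          rw [this, Metric.infDist_empty]
          exact ha
        · exact (Metric.infDist_le_dist_of_mem (hx 0)).trans_lt hxa
    rw [h3]
    exact h2.compl.union h1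

theorem Er_meas (α : ℝ) (v : V d) : Measurable fun ω : Env d => Er α (parts ω) v := by
  unfold Er
  exact (((infDist_meas v).add_const _).const_mul 2).pow_const α

private lemma summable_aux (K : ℕ) (B : ℝ) :
    Summable fun n : ℕ => (B * ((n : ℝ) + 1)) ^ K * Real.exp (-(n : ℝ)) := by
  have h1 : Summable fun n : ℕ => (n : ℝ) ^ K * Real.exp (-(n : ℝ)) := by
    have := Real.summable_pow_mul_exp_neg_nat_mul K (show (0 : ℝ) < 1 by norm_num)
    simpa using this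
  have h2 := ((summable_nat_add_iff 1).mpr h1).mul_left (B ^ K * Real.exp 1)
  refine h2.congr fun n => ?_
  rw [mul_pow]
  push_cast
  have h3 : Real.exp (-((n : ℝ) + 1)) = Real.exp (-(n : ℝ)) * Real.exp (-1) := by
    rw [← Real.exp_add]; congr 1; ring
  have h4 : Real.exp 1 * Real.exp (-1) = 1 := by rw [← Real.exp_add]; simp
  rw [h3]
  calc B ^ K * Real.exp 1 * (((n : ℝ) + 1) ^ K * (Real.exp (-(n : ℝ)) * Real.exp (-1)))
      = B ^ K * ((n : ℝ) + 1) ^ K * Real.exp (-(n : ℝ)) * (Real.exp 1 * Real.exp (-1)) := by ring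
    _ = _ := by rw [h4, mul_one]

theorem Er_sq (hd : 1 ≤ d) (h : IsCellLaw Λ) (hα : 0 ≤ α) : ∃ C : ℝ, 0 ≤ C ∧ ∀ v : V d,
    Integrable (fun ω : Env d => Er α (parts ω) v ^ 2) (PP Λ) ∧
      ∫ ω, Er α (parts ω) v ^ 2 ∂(PP Λ) ≤ C := by
  have := h.prob
  obtain ⟨K, hK⟩ := exists_nat_ge (2 * α)
  have hd1 : (1 : ℝ) ≤ d := by exact_mod_cast hd
  set B : ℝ := 2 * (1 + 2 * d) with hB
  have hB1 : 1 ≤ B := by rw [hB]; linarith
  set c : ℕ → ℝ := fun n => (B * ((n : ℝ) + 1)) ^ K with hc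
  have hc0 : ∀ n, 0 ≤ c n := fun n => by positivity
  set T : ℝ := B ^ K + ∑' n : ℕ, c n * Real.exp (-(n : ℝ)) with hT
  have hsum : Summable fun n : ℕ => c n * Real.exp (-(n : ℝ)) := summable_aux K B
  have hT0 : 0 ≤ T := add_nonneg (by positivity)
    (tsum_nonneg fun n => mul_nonneg (hc0 n) (Real.exp_nonneg _))
  refine ⟨T, hT0, fun v => ?_⟩
  set D : Env d → ℝ := fun ω => Metric.infDist (emb v) (parts ω) with hD
  have hDm : Measurable D := infDist_meas v
  have hD0 : ∀ ω, 0 ≤ D ω := fun ω => Metric.infDist_nonneg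
  -- the square of the error
  have hEr : ∀ ω (x : ℝ), D ω ≤ x → 1 ≤ 2 * (x + d) →
      Er α (parts ω) v ^ 2 ≤ (2 * (x + d)) ^ K := by
    intro ω x hx h1
    have hd0 := hD0 ω
    have h2 : Er α (parts ω) v ≤ (2 * (x + d)) ^ α := by
      unfold Er
      apply Real.rpow_le_rpow (by positivity) _ hα
      have : Metric.infDist (emb v) (parts ω) ≤ x := hx
      linarith
    have h3 : 0 ≤ Er α (parts ω) v := Real.rpow_nonneg (by positivity) _
    calc Er α (parts ω) v ^ 2 ≤ ((2 * (x + d)) ^ α) ^ 2 := pow_le_pow_left₀ h3 h2 2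
      _ = (2 * (x + d)) ^ (2 * α) := by
          rw [← Real.rpow_natCast, ← Real.rpow_mul (by linarith)]
          congr 1
          push_cast
          ring
      _ ≤ (2 * (x + d)) ^ (K : ℝ) := Real.rpow_le_rpow_of_exponent_le h1 hK
      _ = _ := Real.rpow_natCast _ _
  set A : ℕ → Set (Env d) := fun n => {ω | (n : ℝ) + d < D ω} with hA
  have hAm : ∀ n, MeasurableSet (A n) := fun n => measurableSet_lt measurable_const hDm
  have hAp : ∀ n, PP Λ (A n) ≤ ENNReal.ofReal (Real.exp (-(n : ℝ))) := by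
    intro n
    have h1 : (PP Λ).real (A n) ≤ Real.exp (-(n : ℝ)) := by
      refine le_trans (measureReal_mono ?_ (measure_ne_top _ _)) (hole_prob h hd v n)
      intro ω hω p hp
      have h2 : D ω ≤ dist (emb v) p := Metric.infDist_le_dist_of_mem hp
      rw [dist_comm, dist_eq_norm] at h2
      exact lt_of_lt_of_le hω h2
    rw [← ENNReal.ofReal_toReal (measure_ne_top (PP Λ) (A n))]
    exact ENNReal.ofReal_le_ofReal h1
  have hpt : ∀ ω, ENNReal.ofReal (Er α (parts ω) v ^ 2) ≤ ENNReal.ofReal (B ^ K) +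
      ∑' n, (A n).indicator (fun _ => ENNReal.ofReal (c n)) ω := by
    intro ω
    rcases le_or_gt (D ω) d with h1 | h1
    · refine le_trans (ENNReal.ofReal_le_ofReal ?_) le_self_add
      refine (hEr ω d h1 (by linarith)).trans ?_
      apply pow_le_pow_left₀ (by linarith)
      rw [hB]; linarith
    · -- choose `n` with `n + d < D ≤ n + 1 + d`
      have hceil : 0 < ⌈D ω - d⌉₊ := Nat.ceil_pos.mpr (by linarith)
      obtain ⟨n, hn⟩ : ∃ n, ⌈D ω - d⌉₊ = n + 1 := ⟨⌈D ω - d⌉₊ - 1, by omega⟩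
      have h2 : D ω - d ≤ n + 1 := by
        have := Nat.le_ceil (D ω - d)
        rw [hn] at this
        exact_mod_cast this
      have h3 : (n : ℝ) < D ω - d := by
        have := Nat.lt_ceil.mp (show n < ⌈D ω - d⌉₊ by omega)
        exact this
      have h4 : ω ∈ A n := by
        show (n : ℝ) + d < D ω
        linarith
      have hn0 : (0 : ℝ) ≤ n := Nat.cast_nonneg n
      refine le_trans ?_ le_add_self
      refine le_trans ?_ (ENNReal.le_tsum n)
      rw [indicator_of_mem h4]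
      apply ENNReal.ofReal_le_ofReal
      refine (hEr ω (n + 1 + d) (by linarith) (by linarith)).trans ?_
      apply pow_le_pow_left₀ (by linarith)
      rw [hB]
      nlinarith
  have hlin : ∫⁻ ω, ENNReal.ofReal (Er α (parts ω) v ^ 2) ∂(PP Λ) ≤ ENNReal.ofReal T := by
    calc ∫⁻ ω, ENNReal.ofReal (Er α (parts ω) v ^ 2) ∂(PP Λ)
        ≤ ∫⁻ ω, (ENNReal.ofReal (B ^ K) +
            ∑' n, (A n).indicator (fun _ => ENNReal.ofReal (c n)) ω) ∂(PP Λ) :=
          lintegral_mono hpt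
      _ = ENNReal.ofReal (B ^ K) + ∑' n, ENNReal.ofReal (c n) * PP Λ (A n) := by
          rw [lintegral_add_left measurable_const, lintegral_const, measure_univ, mul_one,
            lintegral_tsum (fun n => (measurable_const.indicator (hAm n)).aemeasurable)]
          congr 1
          apply tsum_congr
          intro n
          rw [lintegral_indicator_const (hAm n)]
      _ ≤ ENNReal.ofReal (B ^ K) + ∑' n : ℕ, ENNReal.ofReal (c n * Real.exp (-(n : ℝ))) := by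
          gcongr with n
          rw [ENNReal.ofReal_mul (hc0 n)]
          gcongr
          exact hAp n
      _ = ENNReal.ofReal T := by
          rw [hT, ENNReal.ofReal_add (by positivity)
            (tsum_nonneg fun n => mul_nonneg (hc0 n) (Real.exp_nonneg _)),
            ENNReal.ofReal_tsum_of_nonneg (fun n => mul_nonneg (hc0 n) (Real.exp_nonneg _)) hsum]
  have hm : Measurable fun ω : Env d => Er α (parts ω) v ^ 2 := (Er_meas α v).pow_const 2
  have hnn : 0 ≤ᵐ[PP Λ] fun ω : Env d => Er α (parts ω) v ^ 2 :=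
    Eventually.of_forall fun ω => sq_nonneg _
  constructor
  · refine ⟨hm.aestronglyMeasurable, ?_⟩
    rw [hasFiniteIntegral_iff_ofReal hnn]
    exact hlin.trans_lt ENNReal.ofReal_lt_top
  · rw [integral_eq_lintegral_of_nonneg_ae hnn hm.aestronglyMeasurable]
    exact ENNReal.toReal_le_of_le_ofReal hT0 hlin

private lemma Er_ae_one (hd : 1 ≤ d) (h : IsCellLaw Λ) (hα : 0 < α) {ε : ℝ} (hε : 0 < ε) :
    ∀ᵐ ω ∂(PP Λ), ∀ᶠ r : ℝ in atTop, ∀ v : V d, nm v ≤ r → Er α (parts ω) v ≤ r ^ ε := by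
  have hd0 : (0 : ℝ) < d := by exact_mod_cast hd
  set ε' : ℝ := ε / (2 * α) with hε'
  have hε'0 : 0 < ε' := by positivity
  have hlt : ε' < ε / α := by
    rw [hε']
    apply div_lt_div_of_pos_left hε hα
    linarith
  filter_upwards [noHole_ae h hd hε'0] with ω hω
  have ht : Tendsto (fun r : ℝ => (d : ℝ) * r) atTop atTop := tendsto_id.const_mul_atTop hd0
  filter_upwards [ht.eventually hω, ev_rpow_le (2 * (d : ℝ) ^ ε') (show (0 : ℝ) < 1 / 2 by norm_num)
    hlt, ev_const_le (2 * (d : ℝ)) (show (0 : ℝ) < 1 / 2 by norm_num) (show 0 < ε / α by positivity),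
    eventually_gt_atTop (0 : ℝ)] with r h1 h2 h3 h4 v hv
  have h5 : ‖emb v‖ ≤ d * r := (norm_emb_le v).trans (by gcongr)
  obtain ⟨p, hp, hpx⟩ := h1 (emb v) h5
  have h6 : Metric.infDist (emb v) (parts ω) ≤ (d * r) ^ ε' := by
    refine (Metric.infDist_le_dist_of_mem hp).trans ?_
    rw [dist_comm, dist_eq_norm]
    exact hpx
  have h7 : (d * r : ℝ) ^ ε' = (d : ℝ) ^ ε' * r ^ ε' := Real.mul_rpow hd0.le h4.le
  have h8 : 0 ≤ Metric.infDist (emb v) (parts ω) := Metric.infDist_nonneg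
  have h9 : 2 * (Metric.infDist (emb v) (parts ω) + d) ≤ r ^ (ε / α) := by
    rw [h7] at h6
    have h10 : 2 * ((d : ℝ) ^ ε' * r ^ ε') = 2 * (d : ℝ) ^ ε' * r ^ ε' := by ring
    linarith
  calc Er α (parts ω) v ≤ (r ^ (ε / α)) ^ α := Real.rpow_le_rpow (by positivity) h9 hα.le
    _ = r ^ ε := by
        rw [← Real.rpow_mul h4.le]
        congr 1
        field_simp

theorem Er_ae (hd : 1 ≤ d) (h : IsCellLaw Λ) (hα : 0 < α) : ∀ᵐ ω ∂(PP Λ), ∀ ε : ℝ, 0 < ε →
    ∀ᶠ r : ℝ in atTop, ∀ v : V d, nm v ≤ r → Er α (parts ω) v ≤ r ^ ε := by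
  have h1 : ∀ᵐ ω ∂(PP Λ), ∀ k : ℕ, ∀ᶠ r : ℝ in atTop, ∀ v : V d, nm v ≤ r →
      Er α (parts ω) v ≤ r ^ (1 / ((k : ℝ) + 1)) := by
    rw [ae_all_iff]
    intro k
    exact Er_ae_one hd h hα (by positivity)
  filter_upwards [h1] with ω hω ε hε
  obtain ⟨k, hk⟩ := exists_nat_one_div_lt hε
  filter_upwards [hω k, eventually_ge_atTop (1 : ℝ)] with r h2 h3 v hv
  exact (h2 v hv).trans (Real.rpow_le_rpow_of_exponent_le h3 hk.le)

end FPPX
end

section

/-! Comparison of variances. -/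

namespace FPPX

open MeasureTheory ProbabilityTheory Filter Set
open scoped Topology

variable {d : ℕ} {α : ℝ} {Λ : Measure (Cfg d)} {Ω : Type*} [MeasurableSpace Ω] {P : Measure Ω}
  {Q : Ω → Set (RR d)} {near : Ω → RR d → RR d}

/-- the Euclidean model as a stationary local random metric -/
noncomputable def poiLRM (hd : 1 ≤ d) (h : IsCellLaw Λ) (hα : 1 < α) : LRM d (PP Λ) :=
  haveI := h.prob
  (poiBLRM hd h hα).toLRM

theorem poiLRM_t (hd : 1 ≤ d) (h : IsCellLaw Λ) (hα : 1 < α) (ω : Env d) (u v : V d) :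
    (poiLRM hd h hα).t ω u v = tP α (parts ω) u v := rfl

theorem var_cmp {Ω : Type*} [MeasurableSpace Ω] {P : Measure Ω} [IsProbabilityMeasure P]
    {X Y : Ω → ℝ} (hX : MemLp X 2 P) (hY : MemLp Y 2 P) :
    variance X P ≤ 2 * variance Y P + 2 * ∫ ω, (X ω - Y ω) ^ 2 ∂P := by
  set m : ℝ := ∫ ω, Y ω ∂P with hm
  have h1 : variance X P ≤ ∫ ω, (X ω - m) ^ 2 ∂P := by
    rw [← variance_sub_const hX.aestronglyMeasurable m]
    exact variance_le_expectation_sq (hX.aestronglyMeasurable.sub aestronglyMeasurable_const)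
  have h2 : variance Y P = ∫ ω, (Y ω - m) ^ 2 ∂P := variance_eq_integral hY.aemeasurable
  have hc : MemLp (fun _ : Ω => m) 2 P := memLp_const m
  have i1 : Integrable (fun ω => (X ω - m) ^ 2) P := (hX.sub hc).integrable_sq
  have i2 : Integrable (fun ω => (Y ω - m) ^ 2) P := (hY.sub hc).integrable_sq
  have i3 : Integrable (fun ω => (X ω - Y ω) ^ 2) P := (hX.sub hY).integrable_sq
  rw [h2, ← integral_const_mul, ← integral_const_mul,
    ← integral_add (i2.const_mul 2) (i3.const_mul 2)]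
  refine h1.trans (integral_mono i1 ((i2.const_mul 2).add (i3.const_mul 2)) fun ω => ?_)
  simp only
  nlinarith [sq_nonneg (X ω - Y ω - (Y ω - m))]

theorem mp_can [IsProbabilityMeasure P] (hΛ : IsCellLaw Λ) (h : IsPoisson P Q) :
    MeasurePreserving (fun ω => can (Q ω)) P (PP Λ) := ⟨h.meas_can, h.map_can hΛ⟩

theorem tP_memLp_aux [IsProbabilityMeasure P] (hd : 1 ≤ d) (hα : 1 < α) (hΛ : IsCellLaw Λ)
    (h : IsPoisson P Q) (u v : V d) : MemLp (fun ω => tP α (Q ω) u v) 2 P := by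
  have := hΛ.prob
  have hα0 : 0 < α := by linarith
  have h1 : MemLp (fun ω : Env d => tP α (parts ω) u v) 2 (PP Λ) := by
    rw [memLp_two_iff_integrable_sq (tP_meas hα0 u v).aestronglyMeasurable]
    exact (poiLRM hd hΛ hα).toPreLRM.integrable_pow 2 u v
  have h2 := h1.comp_measurePreserving (mp_can hΛ h)
  refine h2.ae_eq (Eventually.of_forall fun ω => ?_)
  show tP α (parts (can (Q ω))) u v = tP α (Q ω) u v
  rw [parts_can]

theorem Er_memLp_aux [IsProbabilityMeasure P] (hd : 1 ≤ d) (hα : 1 < α) (hΛ : IsCellLaw Λ)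
    (h : IsPoisson P Q) : ∃ C : ℝ, 0 ≤ C ∧ ∀ v : V d, MemLp (fun ω => Er α (Q ω) v) 2 P ∧
      ∫ ω, Er α (Q ω) v ^ 2 ∂P ≤ C := by
  obtain ⟨C, hC0, hC⟩ := Er_sq hd hΛ (show 0 ≤ α by linarith)
  refine ⟨C, hC0, fun v => ⟨?_, ?_⟩⟩
  · have h1 : MemLp (fun ω : Env d => Er α (parts ω) v) 2 (PP Λ) := by
      rw [memLp_two_iff_integrable_sq (Er_meas α v).aestronglyMeasurable]
      exact (hC v).1
    have h2 := h1.comp_measurePreserving (mp_can hΛ h)
    refine h2.ae_eq (Eventually.of_forall fun ω => ?_)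
    show Er α (parts (can (Q ω))) v = Er α (Q ω) v
    rw [parts_can]
  · have h1 := h.integral_of hΛ ((Er_meas α v).pow_const 2)
    simp only [parts_can] at h1
    rw [h1]
    exact (hC v).2

theorem ept_memLp [IsProbabilityMeasure P] (hd : 1 ≤ d) (hα : 1 < α) (hΛ : IsCellLaw Λ)
    (h : IsPoisson P Q) (hn : ∀ᵐ ω ∂P, IsNear (Q ω) (near ω)) (x y : RR d) :
    MemLp (fun ω => ept α (Q ω) (near ω x) (near ω y)) 2 P ∧
      MemLp (fun ω => tP α (Q ω) (latt x) (latt y)) 2 P := by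
  have hα0 : 0 < α := by linarith
  have hY := tP_memLp_aux hd hα hΛ h (latt x) (latt y)
  refine ⟨?_, hY⟩
  have hX := ept_aemeasurable hd hα0 h hn x y
  obtain ⟨C, -, hC⟩ := Er_memLp_aux hd hα hΛ h
  have hD : MemLp (fun ω => ept α (Q ω) (near ω x) (near ω y) - tP α (Q ω) (latt x) (latt y))
      2 P := by
    refine MemLp.mono ((hC (latt x)).1.add (hC (latt y)).1)
      (hX.aestronglyMeasurable.sub hY.aestronglyMeasurable) ?_
    filter_upwards [hn] with ω hω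
    rw [Real.norm_eq_abs, Real.norm_eq_abs]
    exact (cmp_near hα0.le hω x y).trans (le_abs_self _)
  refine (hD.add hY).ae_eq (Eventually.of_forall fun ω => ?_)
  simp

theorem ept_sub_sq [IsProbabilityMeasure P] (hd : 1 ≤ d) (hα : 1 < α) (hΛ : IsCellLaw Λ)
    (h : IsPoisson P Q) (hn : ∀ᵐ ω ∂P, IsNear (Q ω) (near ω)) : ∃ C : ℝ, 0 ≤ C ∧ ∀ x y : RR d,
    ∫ ω, (ept α (Q ω) (near ω x) (near ω y) - tP α (Q ω) (latt x) (latt y)) ^ 2 ∂P ≤ C := by
  have hα0 : 0 < α := by linarith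
  obtain ⟨C, hC0, hC⟩ := Er_memLp_aux hd hα hΛ h
  refine ⟨4 * C, by positivity, fun x y => ?_⟩
  have i1 := (hC (latt x)).1.integrable_sq
  have i2 := (hC (latt y)).1.integrable_sq
  obtain ⟨hX, hY⟩ := ept_memLp hd hα hΛ h hn x y
  have h1 : ∫ ω, (ept α (Q ω) (near ω x) (near ω y) - tP α (Q ω) (latt x) (latt y)) ^ 2 ∂P ≤
      ∫ ω, (2 * Er α (Q ω) (latt x) ^ 2 + 2 * Er α (Q ω) (latt y) ^ 2) ∂P := by
    refine integral_mono_ae (hX.sub hY).integrable_sq
      ((i1.const_mul 2).add (i2.const_mul 2)) ?_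
    filter_upwards [hn] with ω hω
    have h2 := cmp_near hα0.le hω x y
    have h3 : (ept α (Q ω) (near ω x) (near ω y) - tP α (Q ω) (latt x) (latt y)) ^ 2 ≤
        (Er α (Q ω) (latt x) + Er α (Q ω) (latt y)) ^ 2 := by
      rw [← sq_abs]
      exact pow_le_pow_left₀ (abs_nonneg _) h2 2
    nlinarith [sq_nonneg (Er α (Q ω) (latt x) - Er α (Q ω) (latt y))]
  refine h1.trans ?_
  rw [integral_add (i1.const_mul 2) (i2.const_mul 2), integral_const_mul, integral_const_mul]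
  have h4 := (hC (latt x)).2
  have h5 := (hC (latt y)).2
  linarith

/-- variance of the lattice pseudometric under `P` -/
theorem var_tP [IsProbabilityMeasure P] (hd : 1 ≤ d) (hα : 1 < α) (hΛ : IsCellLaw Λ)
    (h : IsPoisson P Q) (v : V d) : variance (fun ω => tP α (Q ω) 0 v) P =
      ∫ ω, ((poiLRM hd hΛ hα).t ω 0 v - ∫ ω', (poiLRM hd hΛ hα).t ω' 0 v ∂(PP Λ)) ^ 2 ∂(PP Λ) := by
  have hα0 : 0 < α := by linarith
  rw [variance_eq_integral (tP_memLp_aux hd hα hΛ h 0 v).aemeasurable]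
  have h1 := h.integral_of hΛ (tP_meas (d := d) hα0 0 v)
  simp only [parts_can] at h1
  rw [h1]
  have h2 := h.integral_of hΛ
    (f := fun ω => (tP α (parts ω) 0 v - ∫ ω', tP α (parts ω') 0 v ∂(PP Λ)) ^ 2)
    (((tP_meas (d := d) hα0 0 v).sub_const _).pow_const 2)
  simp only [parts_can] at h2
  exact h2

theorem mem_chiSet2_of_HypB [IsProbabilityMeasure P] (hd : 1 ≤ d) (hα : 1 < α)
    (hΛ : IsCellLaw Λ) (h : IsPoisson P Q) (hn : ∀ᵐ ω ∂P, IsNear (Q ω) (near ω)) {κ : ℝ}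
    (hκ : 0 ≤ κ) (hB : (poiLRM hd hΛ hα).HypB κ) :
    κ ∈ chiSet2 (fun x : RR d => ‖x‖)
      (fun x => variance (fun ω => ept α (Q ω) (near ω 0) (near ω x)) P) := by
  obtain ⟨C, hC⟩ := hB
  obtain ⟨C', hC'0, hC'⟩ := ept_sub_sq hd hα hΛ h hn
  refine ⟨2 * (max C 0 * 3 ^ (2 * κ)) + 2 * C', 1, fun x hx => ?_⟩
  simp only at hx ⊢
  obtain ⟨hX, hY⟩ := ept_memLp hd hα hΛ h hn 0 x
  have h1 := var_cmp hX hY
  have h2 := hC' 0 x
  have h0 : latt (0 : RR d) = 0 := by rw [← emb_zero, latt_emb]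
  rw [h0] at h1 h2
  rw [var_tP hd hα hΛ h (latt x)] at h1
  have h3 := hC (latt x)
  have hn0 : 0 ≤ nm (latt x) := nm_nonneg _
  have h4 := nm_latt_le x
  have hx0 : 0 ≤ ‖x‖ := norm_nonneg x
  have h5 : (1 + nm (latt x)) ^ (2 * κ) ≤ 3 ^ (2 * κ) * ‖x‖ ^ (2 * κ) := by
    rw [← Real.mul_rpow (by norm_num) hx0]
    exact Real.rpow_le_rpow (by positivity) (by linarith) (by positivity)
  have h6 : (1 : ℝ) ≤ ‖x‖ ^ (2 * κ) := Real.one_le_rpow hx (by positivity)
  have h7 : C * (1 + nm (latt x)) ^ (2 * κ) ≤ max C 0 * (3 ^ (2 * κ) * ‖x‖ ^ (2 * κ)) := by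
    have h8 : (0 : ℝ) ≤ (1 + nm (latt x)) ^ (2 * κ) := Real.rpow_nonneg (by positivity) _
    exact (mul_le_mul_of_nonneg_right (le_max_left C 0) h8).trans
      (mul_le_mul_of_nonneg_left h5 (le_max_right C 0))
  have h9 : C' ≤ C' * ‖x‖ ^ (2 * κ) := le_mul_of_one_le_right hC'0 h6
  calc variance (fun ω => ept α (Q ω) (near ω 0) (near ω x)) P
      ≤ 2 * (C * (1 + nm (latt x)) ^ (2 * κ)) + 2 * C' := by linarith
    _ ≤ 2 * (max C 0 * (3 ^ (2 * κ) * ‖x‖ ^ (2 * κ))) + 2 * (C' * ‖x‖ ^ (2 * κ)) := by linarith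
    _ = (2 * (max C 0 * 3 ^ (2 * κ)) + 2 * C') * ‖x‖ ^ (2 * κ) := by ring

theorem HypB_of_mem_chiSet2 [IsProbabilityMeasure P] (hd : 1 ≤ d) (hα : 1 < α)
    (hΛ : IsCellLaw Λ) (h : IsPoisson P Q) (hn : ∀ᵐ ω ∂P, IsNear (Q ω) (near ω)) {κ : ℝ}
    (hκ : 0 ≤ κ) (hB : κ ∈ chiSet2 (fun x : RR d => ‖x‖)
      (fun x => variance (fun ω => ept α (Q ω) (near ω 0) (near ω x)) P)) :
    (poiLRM hd hΛ hα).HypB κ := by
  have := hΛ.prob
  obtain ⟨C, R, hC⟩ := hB
  obtain ⟨C', hC'0, hC'⟩ := ept_sub_sq hd hα hΛ h hn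
  obtain ⟨C2, hC2⟩ := (poiLRM hd hΛ hα).toPreLRM.moment 2
  have hd0 : (0 : ℝ) ≤ d := Nat.cast_nonneg d
  set R' : ℝ := max R 0 with hR'
  have hR'0 : 0 ≤ R' := le_max_right _ _
  refine ⟨2 * (max C 0 * (d : ℝ) ^ (2 * κ)) + 2 * C' + max C2 0 * (1 + R') ^ 2, fun v => ?_⟩
  rw [← var_tP hd hα hΛ h v]
  have hn0 : 0 ≤ nm v := nm_nonneg _
  have hpos : (1 : ℝ) ≤ (1 + nm v) ^ (2 * κ) := Real.one_le_rpow (by linarith) (by positivity)
  have hA0 : 0 ≤ max C 0 * (d : ℝ) ^ (2 * κ) :=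
    mul_nonneg (le_max_right _ _) (Real.rpow_nonneg hd0 _)
  have hB0 : 0 ≤ max C2 0 * (1 + R') ^ 2 := mul_nonneg (le_max_right _ _) (by positivity)
  have h0 : latt (0 : RR d) = 0 := by rw [← emb_zero, latt_emb]
  rcases le_or_gt R ‖emb v‖ with hv | hv
  · have h1 := hC (emb v) hv
    simp only at h1
    obtain ⟨hX, hY⟩ := ept_memLp hd hα hΛ h hn 0 (emb v)
    have h2 := var_cmp hY hX
    have h3 := hC' 0 (emb v)
    rw [h0, latt_emb] at h2 h3
    have h4 : ∫ ω, (tP α (Q ω) 0 v - ept α (Q ω) (near ω 0) (near ω (emb v))) ^ 2 ∂P ≤ C' := by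
      refine le_trans (le_of_eq ?_) h3
      refine integral_congr_ae (Eventually.of_forall fun ω => ?_)
      show (tP α (Q ω) 0 v - ept α (Q ω) (near ω 0) (near ω (emb v))) ^ 2 =
        (ept α (Q ω) (near ω 0) (near ω (emb v)) - tP α (Q ω) 0 v) ^ 2
      ring
    have h5 : ‖emb v‖ ^ (2 * κ) ≤ (d : ℝ) ^ (2 * κ) * (1 + nm v) ^ (2 * κ) := by
      rw [← Real.mul_rpow hd0 (by positivity)]
      refine Real.rpow_le_rpow (norm_nonneg _) ((norm_emb_le v).trans ?_) (by positivity)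
      exact mul_le_mul_of_nonneg_left (by linarith) hd0
    have h6 : C * ‖emb v‖ ^ (2 * κ) ≤ max C 0 * ((d : ℝ) ^ (2 * κ) * (1 + nm v) ^ (2 * κ)) := by
      have h8 : (0 : ℝ) ≤ ‖emb v‖ ^ (2 * κ) := Real.rpow_nonneg (norm_nonneg _) _
      exact (mul_le_mul_of_nonneg_right (le_max_left C 0) h8).trans
        (mul_le_mul_of_nonneg_left h5 (le_max_right C 0))
    have h9 : C' ≤ C' * (1 + nm v) ^ (2 * κ) := le_mul_of_one_le_right hC'0 hpos
    have h10 : 0 ≤ max C2 0 * (1 + R') ^ 2 * (1 + nm v) ^ (2 * κ) :=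
      mul_nonneg hB0 (by positivity)
    calc variance (fun ω => tP α (Q ω) 0 v) P
        ≤ 2 * (C * ‖emb v‖ ^ (2 * κ)) + 2 * C' := by linarith
      _ ≤ 2 * (max C 0 * ((d : ℝ) ^ (2 * κ) * (1 + nm v) ^ (2 * κ))) +
          2 * (C' * (1 + nm v) ^ (2 * κ)) + max C2 0 * (1 + R') ^ 2 * (1 + nm v) ^ (2 * κ) := by
        linarith
      _ = _ := by ring
  · have h1 : variance (fun ω => tP α (Q ω) 0 v) P ≤ ∫ ω, tP α (Q ω) 0 v ^ 2 ∂P :=
      variance_le_expectation_sq (tP_memLp_aux hd hα hΛ h 0 v).aestronglyMeasurable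
    have h2 := h.integral_of hΛ (f := fun ω => tP α (parts ω) 0 v ^ 2)
      ((tP_meas (by linarith) 0 v).pow_const 2)
    simp only [parts_can] at h2
    have h3 := hC2 v
    have h4 : ∫ ω, tP α (parts ω) 0 v ^ 2 ∂(PP Λ) ≤ C2 * (1 + nm v) ^ 2 := h3
    have h5 : nm v ≤ R' := ((nm_le_norm_emb v).trans hv.le).trans (le_max_left _ _)
    have h6 : C2 * (1 + nm v) ^ 2 ≤ max C2 0 * (1 + R') ^ 2 := by
      refine (mul_le_mul_of_nonneg_right (le_max_left C2 0) (by positivity)).trans ?_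
      refine mul_le_mul_of_nonneg_left ?_ (le_max_right _ _)
      exact pow_le_pow_left₀ (by positivity) (by linarith) 2
    have h7 : max C2 0 * (1 + R') ^ 2 ≤ (2 * (max C 0 * (d : ℝ) ^ (2 * κ)) + 2 * C' +
        max C2 0 * (1 + R') ^ 2) * (1 + nm v) ^ (2 * κ) := by
      refine le_trans ?_ (le_mul_of_one_le_right (by positivity) hpos)
      linarith
    linarith

end FPPX
end

section

/-! Time constant of the Euclidean model. -/

namespace FPPX

open MeasureTheory ProbabilityTheory Filter Set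
open scoped Topology

variable {d : ℕ} {α : ℝ} {Λ : Measure (Cfg d)} {Ω : Type*} [MeasurableSpace Ω] {P : Measure Ω}
  {Q : Ω → Set (RR d)} {near : Ω → RR d → RR d}

/-- almost sure bounds on the errors, under `P` -/
theorem Er_ae_P [IsProbabilityMeasure P] (hd : 1 ≤ d) (hα : 1 < α) (hΛ : IsCellLaw Λ)
    (h : IsPoisson P Q) : ∀ᵐ ω ∂P, ∀ ε : ℝ, 0 < ε → ∀ᶠ r : ℝ in atTop, ∀ v : V d, nm v ≤ r →
      Er α (Q ω) v ≤ r ^ ε := by
  filter_upwards [h.ae_of hΛ (Er_ae hd hΛ (by linarith : 0 < α))] with ω hω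
  rw [parts_can] at hω
  exact hω

private lemma latt_smul_nat (x : RR d) (n : ℕ) :
    latt ((n : ℝ) • x) = rd ((n : ℝ) • (fun i => x i : E d)) := by
  funext i
  simp [latt, rd]

private lemma norm_coord_le (x : RR d) : ‖(fun i => x i : E d)‖ ≤ ‖x‖ := by
  refine (pi_norm_le_iff_of_nonneg (norm_nonneg x)).2 fun i => ?_
  exact PiLp.norm_apply_le x i

theorem poi_lim [IsProbabilityMeasure P] (hd : 1 ≤ d) (hα : 1 < α) (hΛ : IsCellLaw Λ)
    (h : IsPoisson P Q) (hn : ∀ᵐ ω ∂P, IsNear (Q ω) (near ω)) (x : RR d) :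
    ∀ᵐ ω ∂P, Tendsto (fun n : ℕ => ept α (Q ω) (near ω 0) (near ω ((n : ℝ) • x)) / n) atTop
      (𝓝 (toRR (poiLRM hd hΛ hα).μ x)) := by
  have := hΛ.prob
  have hlim := (poiLRM hd hΛ hα).as_lim (fun i => x i)
  filter_upwards [h.ae_of hΛ hlim, Er_ae_P hd hα hΛ h, hn] with ω h1 h2 h3
  simp only [poiLRM_t, parts_can] at h1
  have h4 : latt (0 : RR d) = (0 : V d) := by
    funext i
    simp [latt]
  have hx : 0 < ‖x‖ + 1 := by have := norm_nonneg x; linarith
  -- the difference tends to zero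
  have h5 : Tendsto (fun n : ℕ => ept α (Q ω) (near ω 0) (near ω ((n : ℝ) • x)) / n -
      tP α (Q ω) 0 (rd ((n : ℝ) • (fun i => x i : E d))) / n) atTop (𝓝 0) := by
    have h6 : Tendsto (fun n : ℕ => 2 * (‖x‖ + 1) ^ (1 / 2 : ℝ) * (n : ℝ) ^ (-(1 / 2) : ℝ)) atTop
        (𝓝 0) := by
      have h7 := (tendsto_rpow_neg_atTop (show (0 : ℝ) < 1 / 2 by norm_num)).comp
        (tendsto_natCast_atTop_atTop (R := ℝ))
      have h8 := h7.const_mul (2 * (‖x‖ + 1) ^ (1 / 2 : ℝ))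
      rw [mul_zero] at h8
      exact h8
    refine squeeze_zero_norm' ?_ h6
    have ht : Tendsto (fun n : ℕ => (n : ℝ) * (‖x‖ + 1)) atTop atTop :=
      tendsto_natCast_atTop_atTop.atTop_mul_const hx
    filter_upwards [ht.eventually (h2 (1 / 2) (by norm_num)), eventually_ge_atTop 1] with n h7 h8
    have hn1 : (1 : ℝ) ≤ n := by exact_mod_cast h8
    have hn0 : (0 : ℝ) < n := by linarith
    have h9 := cmp_near (by linarith : 0 ≤ α) h3 0 ((n : ℝ) • x)
    rw [h4, latt_smul_nat] at h9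
    have h10 : nm (rd ((n : ℝ) • (fun i => x i : E d))) ≤ (n : ℝ) * (‖x‖ + 1) := by
      have h11 := nm_rd_le ((n : ℝ) • (fun i => x i : E d))
      rw [norm_smul, Real.norm_of_nonneg hn0.le] at h11
      have h12 := mul_le_mul_of_nonneg_left (norm_coord_le x) hn0.le
      linarith
    have h11 : nm (0 : V d) ≤ (n : ℝ) * (‖x‖ + 1) := by
      have h12 : nm (0 : V d) = 0 := by
        unfold nm tr
        simp only [Pi.zero_apply, Int.cast_zero]
        exact norm_zero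
      rw [h12]
      positivity
    have h12 := h7 _ h10
    have h13 := h7 _ h11
    have h14 : ((n : ℝ) * (‖x‖ + 1)) ^ (1 / 2 : ℝ) = (n : ℝ) ^ (1 / 2 : ℝ) * (‖x‖ + 1) ^ (1 / 2 : ℝ) :=
      Real.mul_rpow hn0.le hx.le
    have h15 : (n : ℝ) ^ (-(1 / 2) : ℝ) * n = (n : ℝ) ^ (1 / 2 : ℝ) := by
      nth_rewrite 2 [← Real.rpow_one (n : ℝ)]
      rw [← Real.rpow_add hn0]
      norm_num
    rw [← sub_div, norm_div, Real.norm_eq_abs, Real.norm_of_nonneg hn0.le, div_le_iff₀ hn0,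
      mul_assoc, h15]
    rw [h14] at h12 h13
    nlinarith
  have h6 := h5.add h1
  rw [zero_add] at h6
  simpa [toRR] using h6

/-- transfer of almost sure bounds along the integers to the canonical space -/
theorem poi_ae_nat [IsProbabilityMeasure P] (hd : 1 ≤ d) (hα : 1 < α) (hΛ : IsCellLaw Λ)
    (h : IsPoisson P Q) {κ : ℝ}
    (hq : ∀ᵐ ω ∂P, ∀ᶠ n : ℕ in atTop, ∀ v : V d, nm v ≤ n →
      |tP α (Q ω) 0 v - (poiLRM hd hΛ hα).μ (tr v)| ≤ (n : ℝ) ^ κ) :
    ∀ᵐ ω ∂(PP Λ), ∀ᶠ n : ℕ in atTop, ∀ v : V d, nm v ≤ n →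
      |(poiLRM hd hΛ hα).t ω 0 v - (poiLRM hd hΛ hα).μ (tr v)| ≤ (n : ℝ) ^ κ := by
  have hms : MeasurableSet {ω : Env d | ∀ᶠ n : ℕ in atTop, ∀ v : V d, nm v ≤ n →
      |(poiLRM hd hΛ hα).t ω 0 v - (poiLRM hd hΛ hα).μ (tr v)| ≤ (n : ℝ) ^ κ} := by
    have h1 : {ω : Env d | ∀ᶠ n : ℕ in atTop, ∀ v : V d, nm v ≤ n →
        |(poiLRM hd hΛ hα).t ω 0 v - (poiLRM hd hΛ hα).μ (tr v)| ≤ (n : ℝ) ^ κ} =
      ⋃ N : ℕ, ⋂ n : ℕ, ⋂ (_ : N ≤ n), ⋂ v : V d, ⋂ (_ : nm v ≤ n),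
        {ω | |(poiLRM hd hΛ hα).t ω 0 v - (poiLRM hd hΛ hα).μ (tr v)| ≤ (n : ℝ) ^ κ} := by
      ext ω
      simp only [mem_ofPred_eq, eventually_atTop, mem_iUnion, mem_iInter]
    rw [h1]
    refine MeasurableSet.iUnion fun N => MeasurableSet.iInter fun n => MeasurableSet.iInter fun _ =>
      MeasurableSet.iInter fun v => MeasurableSet.iInter fun _ => ?_
    exact measurableSet_le ((((poiLRM hd hΛ hα).t_meas 0 v).sub_const _).abs) measurable_const
  have h2 : ae (PP Λ) = ae (P.map (fun ω => can (Q ω))) := congrArg ae (h.map_can hΛ).symm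
  rw [h2, ae_map_iff h.meas_can.aemeasurable hms]
  filter_upwards [hq] with ω hω
  simp only [poiLRM_t, parts_can]
  exact hω

end FPPX
end

section

/-! Rotation invariance. -/

namespace FPPX

open MeasureTheory ProbabilityTheory Filter Set
open scoped Topology

variable {d : ℕ} {α : ℝ} {Λ : Measure (Cfg d)} {Ω : Type*} [MeasurableSpace Ω] {P : Measure Ω}
  {Q : Ω → Set (RR d)} {near : Ω → RR d → RR d}

private lemma Iso_encard (f : RR d ≃ₗᵢ[ℝ] RR d) (S A : Set (RR d)) :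
    (f '' S ∩ A).encard = (S ∩ f ⁻¹' A).encard := by
  rw [← Set.image_inter_preimage, f.injective.encard_image]

private lemma Iso_meas (f : RR d ≃ₗᵢ[ℝ] RR d) {A : Set (RR d)} (hA : MeasurableSet A) :
    MeasurableSet (f ⁻¹' A) := f.continuous.measurable hA

theorem IsPoisson.image (h : IsPoisson P Q) (f : RR d ≃ₗᵢ[ℝ] RR d) :
    IsPoisson P (fun ω => f '' Q ω) := by
  refine ⟨fun A hA => ?_, fun A hA hv k => ?_, fun n A hA hdis => ?_⟩
  · simp only [Iso_encard]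
    exact h.meas _ (Iso_meas f hA)
  · have hv' : volume (f ⁻¹' A) = volume A :=
      f.measurePreserving.measure_preimage hA.nullMeasurableSet
    have h1 := h.law (f ⁻¹' A) (Iso_meas f hA) (by rwa [hv']) k
    simp only [Iso_encard]
    rw [hv'] at h1
    exact h1
  · simp only [Iso_encard]
    exact h.indep n (fun i => f ⁻¹' (A i)) (fun i => Iso_meas f (hA i))
      (fun i j hij => (hdis i j hij).preimage f)

theorem ept_image (α : ℝ) (S : Set (RR d)) (f : RR d ≃ₗᵢ[ℝ] RR d) (p q : RR d) :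
    ept α (f '' S) (f p) (f q) = ept α S p q := by
  rw [ept_eq, ept_eq]
  congr 1
  ext s
  constructor
  · intro hs
    have h1 := hs.image f.symm (fun x y => by rw [← map_sub, LinearIsometryEquiv.norm_map])
    rw [← Set.image_comp] at h1
    simpa using h1
  · intro hs
    exact hs.image f (fun x y => by rw [← map_sub, LinearIsometryEquiv.norm_map])

theorem poi_rot [IsProbabilityMeasure P] (hd : 1 ≤ d) (hα : 1 < α) (hΛ : IsCellLaw Λ)
    (h : IsPoisson P Q) (hn : ∀ᵐ ω ∂P, IsNear (Q ω) (near ω)) (f : RR d ≃ₗᵢ[ℝ] RR d) (x : RR d) :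
    toRR (poiLRM hd hΛ hα).μ (f x) = toRR (poiLRM hd hΛ hα).μ x := by
  have hn' : ∀ᵐ ω ∂P, IsNear (f '' Q ω) (fun y => f (near ω (f.symm y))) := by
    filter_upwards [hn] with ω hω y
    refine ⟨Set.mem_image_of_mem _ (hω _).1, ?_⟩
    rintro _ ⟨p, hp, rfl⟩
    have h1 := (hω (f.symm y)).2 p hp
    have h2 : ∀ z, dist y (f z) = dist (f.symm y) z := by
      intro z
      rw [← f.dist_map (f.symm y) z, f.apply_symm_apply]
    rw [h2, h2]
    exact h1
  have h1 := poi_lim hd hα hΛ (h.image f) hn' (f x)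
  have h2 := poi_lim hd hα hΛ h hn x
  obtain ⟨ω, h3, h4⟩ := (h1.and h2).exists
  refine tendsto_nhds_unique h3 ?_
  have h5 : (fun n : ℕ => ept α (f '' Q ω) (f (near ω (f.symm 0)))
      (f (near ω (f.symm ((n : ℝ) • f x)))) / n) =
      fun n : ℕ => ept α (Q ω) (near ω 0) (near ω ((n : ℝ) • x)) / n := by
    funext n
    rw [ept_image, map_zero, map_smul, f.symm_apply_apply]
  show Tendsto (fun n : ℕ => ept α (f '' Q ω) (f (near ω (f.symm 0)))
      (f (near ω (f.symm ((n : ℝ) • f x)))) / n) atTop _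
  rw [h5]
  exact h4

theorem poi_iso [IsProbabilityMeasure P] (hd : 1 ≤ d) (hα : 1 < α) (hΛ : IsCellLaw Λ)
    (h : IsPoisson P Q) (hn : ∀ᵐ ω ∂P, IsNear (Q ω) (near ω)) :
    ∃ μ0 : ℝ, 0 < μ0 ∧ ∀ u : RR d, ‖u‖ = 1 → toRR (poiLRM hd hΛ hα).μ u = μ0 := by
  set e : RR d := EuclideanSpace.single (⟨0, hd⟩ : Fin d) (1 : ℝ) with he
  have he1 : ‖e‖ = 1 := by simp [he]
  refine ⟨toRR (poiLRM hd hΛ hα).μ e, ?_, ?_⟩
  · refine (poiLRM hd hΛ hα).μ_pos _ fun h0 => ?_
    have h1 := congrFun h0 ⟨0, hd⟩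
    simp [he] at h1
  · intro u hu
    have h1 : Submodule.reflection (Submodule.span ℝ {e - u})ᗮ e = u :=
      Submodule.reflection_sub (he1.trans hu.symm)
    have h2 := poi_rot hd hα hΛ h hn (Submodule.reflection (Submodule.span ℝ {e - u})ᗮ) e
    rwa [h1] at h2

end FPPX
end

section

/-! The variances do not tend to zero. -/

namespace FPPX

open MeasureTheory ProbabilityTheory Filter Set
open scoped Topology

variable {d : ℕ} {α : ℝ} {Λ : Measure (Cfg d)} {Ω : Type*} [MeasurableSpace Ω] {P : Measure Ω}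
  {Q : Ω → Set (RR d)} {near : Ω → RR d → RR d}

private lemma NegV_small {V : RR d → ℝ} {κ : ℝ} (hκ0 : κ < 0)
    (hκ : κ ∈ chiSet2 (fun x : RR d => ‖x‖) V) {δ : ℝ} (hδ : 0 < δ) :
    ∃ R : ℝ, ∀ x : RR d, R ≤ ‖x‖ → V x ≤ δ := by
  obtain ⟨C, R0, h1⟩ := hκ
  have h2 : Tendsto (fun r : ℝ => C * r ^ (2 * κ)) atTop (𝓝 0) := by
    have h3 := (tendsto_rpow_neg_atTop (show 0 < -(2 * κ) by linarith)).const_mul C
    simpa using h3
  obtain ⟨R1, hR1⟩ := eventually_atTop.1 (h2.eventually (gt_mem_nhds hδ))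
  refine ⟨max R0 R1, fun x hx => (h1 x ((le_max_left _ _).trans hx)).trans ?_⟩
  exact (hR1 _ ((le_max_right _ _).trans hx)).le

private lemma NegV_cheb [IsProbabilityMeasure P] {X : Ω → ℝ} (hX : MemLp X 2 P) {c : ℝ}
    (hc : 0 < c) : P.real {ω | c ≤ |X ω - ∫ ω', X ω' ∂P|} ≤ variance X P / c ^ 2 :=
  ENNReal.toReal_le_of_le_ofReal (div_nonneg (variance_nonneg X P) (by positivity))
    (meas_ge_le_variance_div_sq hX hc)

/-- the mean changes little over distances `1 / 4` if the variances are small -/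
theorem mean_step [IsProbabilityMeasure P] (hd : 1 ≤ d) (hα : 1 < α) (hΛ : IsCellLaw Λ)
    (h : IsPoisson P Q) (hn : ∀ᵐ ω ∂P, IsNear (Q ω) (near ω)) {κ : ℝ} (hκ0 : κ < 0)
    (hκ : κ ∈ chiSet2 (fun x : RR d => ‖x‖)
      (fun x => variance (fun ω => ept α (Q ω) (near ω 0) (near ω x)) P)) (η : ℝ) (hη : 0 < η) :
    ∃ R : ℝ, ∀ x y : RR d, R ≤ ‖x‖ → R ≤ ‖y‖ → ‖y - x‖ ≤ 1 / 4 →
      |∫ ω, ept α (Q ω) (near ω 0) (near ω x) ∂P - ∫ ω, ept α (Q ω) (near ω 0) (near ω y) ∂P| ≤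
        2 * η := by
  obtain ⟨p0, hp0, hiso⟩ := isol_prob (P := P) h
  obtain ⟨R, hR⟩ := NegV_small hκ0 hκ (show 0 < η ^ 2 * (p0 / 4) by positivity)
  refine ⟨R, fun x y hx hy hxy => ?_⟩
  have key : ∀ z : RR d, R ≤ ‖z‖ → P.real {ω | η ≤ |ept α (Q ω) (near ω 0) (near ω z) -
      ∫ ω', ept α (Q ω') (near ω' 0) (near ω' z) ∂P|} ≤ p0 / 4 := by
    intro z hz
    refine (NegV_cheb (ept_memLp hd hα hΛ h hn 0 z).1 hη).trans ?_
    rw [div_le_iff₀ (by positivity)]
    have := hR z hz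
    linarith
  have hN : P.real {ω | ¬ IsNear (Q ω) (near ω)} = 0 := by
    rw [measureReal_def, ae_iff.1 hn]
    rfl
  have hex : ∃ ω, ω ∈ isol Q x ∧ IsNear (Q ω) (near ω) ∧
      ¬ η ≤ |ept α (Q ω) (near ω 0) (near ω x) - ∫ ω', ept α (Q ω') (near ω' 0) (near ω' x) ∂P| ∧
      ¬ η ≤ |ept α (Q ω) (near ω 0) (near ω y) - ∫ ω', ept α (Q ω') (near ω' 0) (near ω' y) ∂P| := by
    by_contra hcon
    push Not at hcon
    have hsub : isol Q x ⊆ ({ω | ¬ IsNear (Q ω) (near ω)} ∪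
        {ω | η ≤ |ept α (Q ω) (near ω 0) (near ω x) -
          ∫ ω', ept α (Q ω') (near ω' 0) (near ω' x) ∂P|}) ∪
        {ω | η ≤ |ept α (Q ω) (near ω 0) (near ω y) -
          ∫ ω', ept α (Q ω') (near ω' 0) (near ω' y) ∂P|} := by
      intro ω hω
      by_cases h1 : IsNear (Q ω) (near ω)
      · by_cases h2 : η ≤ |ept α (Q ω) (near ω 0) (near ω x) -
          ∫ ω', ept α (Q ω') (near ω' 0) (near ω' x) ∂P|
        · exact Or.inl (Or.inr h2)
        · exact Or.inr (hcon ω hω h1 (not_le.1 h2))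
      · exact Or.inl (Or.inl h1)
    have h1 := measureReal_mono (μ := P) hsub
    rw [(hiso x).2] at h1
    have h2 := measureReal_union_le (μ := P) ({ω | ¬ IsNear (Q ω) (near ω)} ∪
        {ω | η ≤ |ept α (Q ω) (near ω 0) (near ω x) -
          ∫ ω', ept α (Q ω') (near ω' 0) (near ω' x) ∂P|})
        {ω | η ≤ |ept α (Q ω) (near ω 0) (near ω y) -
          ∫ ω', ept α (Q ω') (near ω' 0) (near ω' y) ∂P|}
    have h3 := measureReal_union_le (μ := P) {ω | ¬ IsNear (Q ω) (near ω)}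
        {ω | η ≤ |ept α (Q ω) (near ω 0) (near ω x) -
          ∫ ω', ept α (Q ω') (near ω' 0) (near ω' x) ∂P|}
    have h4 := key x hx
    have h5 := key y hy
    linarith
  obtain ⟨ω, h1, h2, h3, h4⟩ := hex
  rw [isol_near h1 h2 hxy] at h4
  rw [not_le, abs_lt] at h3 h4
  rw [abs_le]
  constructor <;> linarith [h3.1, h3.2, h4.1, h4.2]

theorem chiSet2_nonneg [IsProbabilityMeasure P] (hd : 1 ≤ d) (hα : 1 < α) (hΛ : IsCellLaw Λ)
    (h : IsPoisson P Q) (hn : ∀ᵐ ω ∂P, IsNear (Q ω) (near ω)) {κ : ℝ}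
    (hκ : κ ∈ chiSet2 (fun x : RR d => ‖x‖)
      (fun x => variance (fun ω => ept α (Q ω) (near ω 0) (near ω x)) P)) : 0 ≤ κ := by
  by_contra hκ0
  push Not at hκ0
  have hne : Nonempty (Fin d) := ⟨⟨0, hd⟩⟩
  obtain ⟨u, hu⟩ := exists_norm_eq (RR d) (zero_le_one (α := ℝ))
  set m := toRR (poiLRM hd hΛ hα).μ u with hm
  have hm0 : 0 < m := by
    apply (poiLRM hd hΛ hα).μ_pos
    intro h0
    have h1 : u = 0 := by
      ext i
      exact congrFun h0 i
    rw [h1, norm_zero] at hu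
    exact zero_ne_one hu
  obtain ⟨R, hR⟩ := mean_step hd hα hΛ h hn hκ0 hκ (m / 32) (by positivity)
  set H : RR d → ℝ := fun x => ∫ ω, ept α (Q ω) (near ω 0) (near ω x) ∂P with hH
  obtain ⟨n0, hn0⟩ := exists_nat_ge R
  have hnorm : ∀ s : ℝ, 0 ≤ s → ‖s • u‖ = s := by
    intro s hs
    rw [norm_smul, hu, mul_one, Real.norm_eq_abs, abs_of_nonneg hs]
  have hquarter : ∀ s : ℝ, 0 ≤ s → R ≤ s → H ((s + 1 / 4) • u) ≤ H (s • u) + m / 16 := by
    intro s hs hRs
    have h1 := hR (s • u) ((s + 1 / 4) • u) (by rw [hnorm s hs]; exact hRs)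
      (by rw [hnorm _ (by linarith)]; linarith) (by
        rw [← sub_smul, add_sub_cancel_left, hnorm _ (by norm_num)])
    rw [abs_le] at h1
    have h2 := h1.1
    change -(2 * (m / 32)) ≤ H (s • u) - H ((s + 1 / 4) • u) at h2
    linarith
  have hone : ∀ s : ℝ, 0 ≤ s → R ≤ s → H ((s + 1) • u) ≤ H (s • u) + m / 4 := by
    intro s hs hRs
    have h1 := hquarter s hs hRs
    have h2 := hquarter (s + 1 / 4) (by linarith) (by linarith)
    have h3 := hquarter (s + 1 / 4 + 1 / 4) (by linarith) (by linarith)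
    have h4 := hquarter (s + 1 / 4 + 1 / 4 + 1 / 4) (by linarith) (by linarith)
    have h5 : s + 1 / 4 + 1 / 4 + 1 / 4 + 1 / 4 = s + 1 := by ring
    rw [h5] at h4
    linarith
  have hlin : ∀ k : ℕ, H (((n0 + k : ℕ) : ℝ) • u) ≤ H ((n0 : ℝ) • u) + k * (m / 4) := by
    intro k
    induction k with
    | zero => simp
    | succ k ih =>
      have h1 := hone ((n0 + k : ℕ) : ℝ) (by positivity) (hn0.trans (by push_cast; linarith [
        (Nat.cast_nonneg k : (0 : ℝ) ≤ (k : ℝ))]))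
      have h2 : ((n0 + (k + 1) : ℕ) : ℝ) = ((n0 + k : ℕ) : ℝ) + 1 := by push_cast; ring
      rw [h2]
      push_cast at h1 ih ⊢
      linarith
  -- convergence in measure
  have hconv := poi_lim hd hα hΛ h hn u
  have hmeas : ∀ n : ℕ, AEStronglyMeasurable
      (fun ω => ept α (Q ω) (near ω 0) (near ω ((n : ℝ) • u)) / n) P := by
    intro n
    exact ((ept_memLp hd hα hΛ h hn 0 ((n : ℝ) • u)).1.aestronglyMeasurable).mul_const
      ((n : ℝ)⁻¹) |>.congr (Eventually.of_forall fun ω => by simp [div_eq_mul_inv])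
  have hTM := tendstoInMeasure_of_tendsto_ae hmeas hconv
  rw [tendstoInMeasure_iff_measureReal_norm] at hTM
  have hTM1 := (hTM (m / 4) (by positivity)).eventually
    (gt_mem_nhds (show (0 : ℝ) < 1 / 4 by norm_num))
  obtain ⟨R2, hR2⟩ := NegV_small hκ0 hκ (show (0 : ℝ) < 1 / 4 by norm_num)
  obtain ⟨n1, hn1⟩ := exists_nat_ge R2
  obtain ⟨n2, hn2⟩ := exists_nat_gt (2 * (|H ((n0 : ℝ) • u)| + 1) / m)
  obtain ⟨n, hnlt, hnge⟩ := (hTM1.and (eventually_ge_atTop (max (max n0 n1) (max n2 1)))).exists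
  have hn_0 : n0 ≤ n := (le_max_left _ _).trans ((le_max_left _ _).trans hnge)
  have hn_1 : n1 ≤ n := (le_max_right _ _).trans ((le_max_left _ _).trans hnge)
  have hn_2 : n2 ≤ n := (le_max_left _ _).trans ((le_max_right _ _).trans hnge)
  have hn_3 : 1 ≤ n := (le_max_right _ _).trans ((le_max_right _ _).trans hnge)
  have hnpos : (0 : ℝ) < n := by exact_mod_cast hn_3
  have hV : P.real {ω | 1 ≤ |ept α (Q ω) (near ω 0) (near ω ((n : ℝ) • u)) -
      H ((n : ℝ) • u)|} ≤ 1 / 4 := by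
    refine (NegV_cheb (ept_memLp hd hα hΛ h hn 0 ((n : ℝ) • u)).1 one_pos).trans ?_
    rw [one_pow, div_one]
    apply hR2
    rw [hnorm _ hnpos.le]
    exact hn1.trans (by exact_mod_cast hn_1)
  have hex : ∃ ω, ¬ (m / 4 ≤ ‖ept α (Q ω) (near ω 0) (near ω ((n : ℝ) • u)) / n - m‖) ∧
      ¬ (1 ≤ |ept α (Q ω) (near ω 0) (near ω ((n : ℝ) • u)) - H ((n : ℝ) • u)|) := by
    by_contra hcon
    push Not at hcon
    have hsub : (Set.univ : Set Ω) ⊆
        {ω | m / 4 ≤ ‖ept α (Q ω) (near ω 0) (near ω ((n : ℝ) • u)) / n - m‖} ∪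
        {ω | 1 ≤ |ept α (Q ω) (near ω 0) (near ω ((n : ℝ) • u)) - H ((n : ℝ) • u)|} := by
      intro ω _
      by_cases h1 : m / 4 ≤ ‖ept α (Q ω) (near ω 0) (near ω ((n : ℝ) • u)) / n - m‖
      · exact Or.inl h1
      · exact Or.inr (hcon ω (not_le.1 h1))
    have h1 := measureReal_mono (μ := P) hsub
    rw [probReal_univ] at h1
    have h2 := measureReal_union_le (μ := P)
        {ω | m / 4 ≤ ‖ept α (Q ω) (near ω 0) (near ω ((n : ℝ) • u)) / n - m‖}
        {ω | 1 ≤ |ept α (Q ω) (near ω 0) (near ω ((n : ℝ) • u)) - H ((n : ℝ) • u)|}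
    linarith
  obtain ⟨ω, h1, h2⟩ := hex
  rw [not_le, Real.norm_eq_abs, abs_lt] at h1
  rw [not_le, abs_lt] at h2
  have h3 : 3 / 4 * m * n < ept α (Q ω) (near ω 0) (near ω ((n : ℝ) • u)) := by
    have h4 : 3 / 4 * m < ept α (Q ω) (near ω 0) (near ω ((n : ℝ) • u)) / n := by linarith [h1.1]
    rwa [lt_div_iff₀ hnpos] at h4
  obtain ⟨k, rfl⟩ := Nat.exists_eq_add_of_le hn_0
  have h5 := hlin k
  have h6 : (n2 : ℝ) ≤ ((n0 + k : ℕ) : ℝ) := by exact_mod_cast hn_2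
  have h7 : 2 * (|H ((n0 : ℝ) • u)| + 1) < ((n0 + k : ℕ) : ℝ) * m := by
    rw [div_lt_iff₀ hm0] at hn2
    nlinarith
  have h8 : H ((n0 : ℝ) • u) ≤ |H ((n0 : ℝ) • u)| := le_abs_self _
  have h9 : (k : ℝ) * (m / 4) ≤ ((n0 + k : ℕ) : ℝ) * (m / 4) := by
    apply mul_le_mul_of_nonneg_right _ (by positivity)
    push_cast
    linarith [(Nat.cast_nonneg n0 : (0 : ℝ) ≤ (n0 : ℝ))]
  linarith [h2.2, h2.1]

end FPPX
end
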