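import Pool.Agent.Lib.MP_fa364e_pr.Std.Chi
import Pool.Agent.Lib.MP_fa364e_pr.Mg.G014
import Pool.Agent.Lib.MP_fa364e_pr.Mg.G001

section

/-! Comparison of the Euclidean length and the sup norm on lattice vectors. -/

namespace FPPX

open MeasureTheory ProbabilityTheory Filter Set
open scoped Topology Pointwise

variable {d : ℕ}

theorem nm_le_len (x : V d) : nm x ≤ len x := by
  unfold nm len
  rw [pi_norm_le_iff_of_nonneg (Real.sqrt_nonneg _)]
  intro i
  have h : ‖tr x i‖ = Real.sqrt ((x i : ℝ) ^ 2) := by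
    rw [Real.sqrt_sq_eq_abs]
    rfl
  rw [h]
  refine Real.sqrt_le_sqrt ?_
  exact Finset.single_le_sum (f := fun i => (x i : ℝ) ^ 2) (fun _ _ => sq_nonneg _)
    (Finset.mem_univ i)

theorem len_le_nm (x : V d) : len x ≤ d * nm x := by
  have hn : 0 ≤ nm x := norm_nonneg _
  have h0 : (0 : ℝ) ≤ d * nm x := mul_nonneg (Nat.cast_nonneg _) hn
  unfold len
  rw [Real.sqrt_le_left h0]
  have h1 : ∑ i, (x i : ℝ) ^ 2 ≤ ∑ _i : Fin d, nm x ^ 2 := by
    refine Finset.sum_le_sum fun i _ => ?_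
    have h2 : ‖tr x i‖ ≤ nm x := norm_le_pi_norm (tr x) i
    have h3 : |(x i : ℝ)| ≤ nm x := h2
    calc (x i : ℝ) ^ 2 = |(x i : ℝ)| ^ 2 := (sq_abs _).symm
      _ ≤ nm x ^ 2 := pow_le_pow_left₀ (abs_nonneg _) h3 2
  have h4 : ∑ _i : Fin d, nm x ^ 2 = d * nm x ^ 2 := by simp
  have h5 : (d : ℝ) * nm x ^ 2 ≤ (d * nm x) ^ 2 := by
    rw [mul_pow]
    refine mul_le_mul_of_nonneg_right ?_ (sq_nonneg _)
    rcases Nat.eq_zero_or_pos d with h | h
    · subst h; simp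
    · have : (1 : ℝ) ≤ d := by exact_mod_cast h
      nlinarith
  linarith

/-- comparable positive numbers have comparable powers -/
lemma rpow_comp (a b c s : ℝ) (ha : 0 < a) (hb : 0 < b) (hc : 1 ≤ c) (h1 : a ≤ c * b)
    (h2 : b ≤ c * a) : a ^ s ≤ c ^ |s| * b ^ s := by
  have hc0 : 0 < c := by linarith
  rcases le_total 0 s with hs | hs
  · rw [abs_of_nonneg hs, ← Real.mul_rpow hc0.le hb.le]
    exact Real.rpow_le_rpow ha.le h1 hs
  · rw [abs_of_nonpos hs]
    have h3 : b / c ≤ a := by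
      rw [div_le_iff₀ hc0]
      linarith
    have h4 : a ^ s ≤ (b / c) ^ s := Real.rpow_le_rpow_of_nonpos (by positivity) h3 hs
    have h5 : (b / c) ^ s = c ^ (-s) * b ^ s := by
      rw [Real.div_rpow hb.le hc0.le, Real.rpow_neg hc0.le, div_eq_mul_inv, mul_comm]
    linarith

/-- the two ways to say that `V` has polynomial growth with exponent `2 κ` -/
theorem mem_chiSet2_iff (hd : 1 ≤ d) (V0 : V d → ℝ) (hV : ∀ x, 0 ≤ V0 x) (κ : ℝ) :
    κ ∈ chiSet2 (len (d := d)) V0 ↔ ∃ C : ℝ, ∀ x, V0 x ≤ C * (1 + nm x) ^ (2 * κ) := by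
  set c : ℝ := (d : ℝ) + 2 with hc
  have hc1 : 1 ≤ c := by
    have : (0 : ℝ) ≤ d := Nat.cast_nonneg _
    linarith
  have hnm : ∀ x : V d, 0 ≤ nm x := fun x => norm_nonneg _
  have hA : ∀ x : V d, x ≠ 0 → len x ≤ c * (1 + nm x) := by
    intro x _
    have h1 := len_le_nm x
    have h2 := hnm x
    have : (0 : ℝ) ≤ d := Nat.cast_nonneg _
    nlinarith
  have hB : ∀ x : V d, x ≠ 0 → 1 + nm x ≤ c * len x := by
    intro x hx
    have h1 := nm_le_len x
    have h2 := one_le_nm hx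
    have : (0 : ℝ) ≤ d := Nat.cast_nonneg _
    nlinarith
  have hlpos : ∀ x : V d, x ≠ 0 → 0 < len x := fun x hx =>
    lt_of_lt_of_le one_pos (le_trans (one_le_nm hx) (nm_le_len x))
  have hbpos : ∀ x : V d, 0 < 1 + nm x := fun x => by
    have := hnm x
    linarith
  constructor
  · rintro ⟨C, R, hCR⟩
    have hfin : ({x : V d | nm x ≤ max R 0}).Finite := finite_bl _
    set M : ℝ := ∑ x ∈ hfin.toFinset, V0 x / (1 + nm x) ^ (2 * κ) with hM
    have hterm : ∀ x : V d, 0 ≤ V0 x / (1 + nm x) ^ (2 * κ) := fun x =>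
      div_nonneg (hV x) (Real.rpow_nonneg (hbpos x).le _)
    have hM0 : 0 ≤ M := Finset.sum_nonneg fun x _ => hterm x
    refine ⟨M + |C| * c ^ |2 * κ|, fun x => ?_⟩
    have hp : 0 < (1 + nm x) ^ (2 * κ) := Real.rpow_pos_of_pos (hbpos x) _
    have hcp : 0 ≤ |C| * c ^ |2 * κ| := mul_nonneg (abs_nonneg _) (Real.rpow_nonneg (by linarith) _)
    by_cases hx : nm x ≤ max R 0
    · have h1 : V0 x / (1 + nm x) ^ (2 * κ) ≤ M :=
        Finset.single_le_sum (f := fun x => V0 x / (1 + nm x) ^ (2 * κ)) (fun x _ => hterm x)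
          (hfin.mem_toFinset.mpr hx)
      rw [div_le_iff₀ hp] at h1
      have h2 : 0 ≤ |C| * c ^ |2 * κ| * (1 + nm x) ^ (2 * κ) := mul_nonneg hcp hp.le
      linarith
    · push Not at hx
      have hx0 : x ≠ 0 := by
        rintro rfl
        have h00 : nm (0 : V d) = 0 := by
          unfold nm
          have : tr (0 : V d) = 0 := by
            funext i
            simp [tr]
          rw [this, norm_zero]
        rw [h00] at hx
        exact absurd (le_max_right R 0) (not_le.mpr hx)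
      have hR : R ≤ len x := le_trans (le_trans (le_max_left _ _) hx.le) (nm_le_len x)
      have h1 := hCR x hR
      have h2 : C * len x ^ (2 * κ) ≤ |C| * len x ^ (2 * κ) :=
        mul_le_mul_of_nonneg_right (le_abs_self C) (Real.rpow_nonneg (hlpos x hx0).le _)
      have h3 := rpow_comp (len x) (1 + nm x) c (2 * κ) (hlpos x hx0) (hbpos x) hc1 (hA x hx0)
        (hB x hx0)
      have h4 : |C| * len x ^ (2 * κ) ≤ |C| * (c ^ |2 * κ| * (1 + nm x) ^ (2 * κ)) :=
        mul_le_mul_of_nonneg_left h3 (abs_nonneg C)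
      have h5 : 0 ≤ M * (1 + nm x) ^ (2 * κ) := mul_nonneg hM0 hp.le
      nlinarith
  · rintro ⟨C, hC⟩
    refine ⟨|C| * c ^ |2 * κ|, 1, fun x hx => ?_⟩
    have hx0 : x ≠ 0 := by
      rintro rfl
      have h00 : len (0 : V d) = 0 := by
        unfold len
        simp
      rw [h00] at hx
      linarith
    have h1 := hC x
    have hp : 0 < (1 + nm x) ^ (2 * κ) := Real.rpow_pos_of_pos (hbpos x) _
    have h2 : C * (1 + nm x) ^ (2 * κ) ≤ |C| * (1 + nm x) ^ (2 * κ) :=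
      mul_le_mul_of_nonneg_right (le_abs_self C) hp.le
    have h3 := rpow_comp (1 + nm x) (len x) c (2 * κ) (hbpos x) (hlpos x hx0) hc1 (hB x hx0)
      (hA x hx0)
    have h4 : |C| * (1 + nm x) ^ (2 * κ) ≤ |C| * (c ^ |2 * κ| * len x ^ (2 * κ)) :=
      mul_le_mul_of_nonneg_left h3 (abs_nonneg C)
    calc V0 x ≤ |C| * (c ^ |2 * κ| * len x ^ (2 * κ)) := by linarith
      _ = |C| * c ^ |2 * κ| * len x ^ (2 * κ) := by ring

end FPPX
end

section

/-! From inclusions of sets to pointwise bounds. -/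

namespace FPPX

open MeasureTheory ProbabilityTheory Filter Set
open scoped Topology Pointwise

variable {d : ℕ}

/-- the inclusions, in coordinates -/
private lemma shapeB_incl {μ : E d → ℝ} {c C : ℝ} (hμ : IsNm μ c C) {τ : Edge d → ℝ}
    {κ : ℝ} (hκ1 : κ < 1)
    (h : ∀ᶠ t : ℝ in atTop, (t - t ^ κ) • limitShape (toRR μ) ⊆ wet τ t ∧
      wet τ t ⊆ (t + t ^ κ) • limitShape (toRR μ)) :
    ∀ᶠ t : ℝ in atTop, 1 ≤ t ∧ t ^ κ ≤ t / 2 ∧
      (∀ x : E d, μ x ≤ t - t ^ κ → ∃ v : V d, pt τ 0 v ≤ t ∧ ∀ i, |x i - v i| ≤ 1 / 2) ∧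
      (∀ (x : E d) (v : V d), pt τ 0 v ≤ t → (∀ i, |x i - v i| ≤ 1 / 2) → μ x ≤ t + t ^ κ) := by
  filter_upwards [h, eventually_ge_atTop (1 : ℝ), ev_rpow_le 1 (show (0 : ℝ) < 1 / 2 by norm_num)
    hκ1] with t ht h1 h2
  rw [Real.rpow_one, one_mul] at h2
  have h3 : t ^ κ ≤ t / 2 := by linarith
  have h4 : 0 < t ^ κ := Real.rpow_pos_of_pos (by linarith) _
  rw [smul_limitShape hμ (by linarith), smul_limitShape hμ (by linarith)] at ht
  refine ⟨h1, h3, ?_, ?_⟩
  · intro x hx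
    have hx' : (WithLp.toLp 2 x : RR d) ∈ {x : RR d | μ (fun i => x i) ≤ t - t ^ κ} := hx
    obtain ⟨v, hv1, hv2⟩ := ht.1 hx'
    exact ⟨v, hv1, hv2⟩
  · intro x v hv1 hv2
    have hx' : (WithLp.toLp 2 x : RR d) ∈ wet τ t := ⟨v, hv1, hv2⟩
    exact ht.2 hx'

private lemma shapeB_int {a b : ℤ} (h : |(a : ℝ) - b| ≤ 1 / 2) : a = b := by
  have h1 : |(a : ℝ) - b| < 1 := by linarith
  have h2 : |((a - b : ℤ) : ℝ)| < 1 := by push_cast; exact h1
  rw [← Int.cast_abs] at h2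
  have h3 : |a - b| < 1 := by exact_mod_cast h2
  have h4 := abs_lt.1 h3
  omega

theorem bound_of_shape {μ : E d → ℝ} {c C : ℝ} (hμ : IsNm μ c C) {τ : Edge d → ℝ}
    (hτ : ∀ e, 0 ≤ τ e) {κ κ' : ℝ} (hκ' : 0 < κ') (hκκ' : κ < κ') (hκ1 : κ < 1)
    (h : ∀ᶠ t : ℝ in atTop, (t - t ^ κ) • limitShape (toRR μ) ⊆ wet τ t ∧
      wet τ t ⊆ (t + t ^ κ) • limitShape (toRR μ)) :
    ∀ᶠ r : ℝ in atTop, ∀ v : V d, nm v ≤ r → |pt τ 0 v - μ (tr v)| ≤ r ^ κ' := by
  obtain ⟨t₀, ht₀⟩ := eventually_atTop.1 (shapeB_incl hμ hκ1 h)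
  have h00 := ht₀ t₀ le_rfl
  have h01 : 1 ≤ t₀ := h00.1
  have hpos : 0 < t₀ ^ κ := Real.rpow_pos_of_pos (by linarith) _
  filter_upwards [ev_const_le (t₀ + t₀ ^ κ) one_pos hκ', ev_const_le 1 one_pos hκ',
    ev_rpow_le ((2 * |C|) ^ κ) one_pos hκκ', eventually_ge_atTop (1 : ℝ)] with r hr1 hr2 hr3 hr4
  intro v hv
  rw [one_mul] at hr1 hr2 hr3
  have hμ0 : 0 ≤ μ (tr v) := (mul_nonneg hμ.cpos.le (norm_nonneg _)).trans (hμ.lb _)
  have hs0 : 0 ≤ pt τ 0 v := pt_nonneg hτ 0 v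
  have hself : ∀ i, |tr v i - v i| ≤ 1 / 2 := by
    intro i
    simp only [tr, sub_self, abs_zero]
    norm_num
  rcases le_or_gt (pt τ 0 v) t₀ with hs | hs
  · have h1 := h00.2.2.2 (tr v) v hs hself
    refine le_trans ?_ hr1
    rw [abs_le]
    constructor <;> linarith
  · have hs1 : 1 ≤ pt τ 0 v := h01.trans hs.le
    have h1 := ht₀ _ hs.le
    have h2 := h1.2.2.2 (tr v) v le_rfl hself
    have h3 : pt τ 0 v - pt τ 0 v ^ κ ≤ μ (tr v) := by
      have hc : ContinuousAt (fun t : ℝ => t - t ^ κ) (pt τ 0 v) :=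
        continuousAt_id.sub (Real.continuousAt_rpow_const _ _ (Or.inl (by linarith)))
      have hc' : Tendsto (fun t : ℝ => t - t ^ κ) (𝓝[<] (pt τ 0 v))
          (𝓝 (pt τ 0 v - pt τ 0 v ^ κ)) := hc.tendsto.mono_left nhdsWithin_le_nhds
      refine le_of_tendsto hc' ?_
      have hI : Ioo t₀ (pt τ 0 v) ∈ 𝓝[<] (pt τ 0 v) := Ioo_mem_nhdsLT hs
      filter_upwards [hI] with t ht
      by_contra hcon
      push Not at hcon
      obtain ⟨w, hw1, hw2⟩ := (ht₀ t ht.1.le).2.2.1 (tr v) hcon.le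
      have hvw : v = w := by
        funext i
        exact shapeB_int (hw2 i)
      rw [← hvw] at hw1
      exact absurd ht.2 (not_lt.2 hw1)
    have h4 : |pt τ 0 v - μ (tr v)| ≤ pt τ 0 v ^ κ := by
      rw [abs_le]
      constructor <;> linarith
    refine h4.trans ?_
    rcases le_total κ 0 with hk | hk
    · exact (Real.rpow_le_one_of_one_le_of_nonpos hs1 hk).trans hr2
    · have h5 : pt τ 0 v ≤ 2 * |C| * r := by
        have h6 : μ (tr v) ≤ |C| * r := by
          calc μ (tr v) ≤ C * ‖tr v‖ := hμ.ub _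
            _ ≤ |C| * ‖tr v‖ := by
                gcongr
                exact le_abs_self C
            _ ≤ |C| * r := by
                gcongr
                exact hv
        have h7 := h1.2.1
        linarith
      calc pt τ 0 v ^ κ ≤ (2 * |C| * r) ^ κ := Real.rpow_le_rpow hs0 h5 hk
        _ = (2 * |C|) ^ κ * r ^ κ := Real.mul_rpow (by positivity) (by linarith)
        _ ≤ r ^ κ' := hr3

theorem shape_neg (hd : 1 ≤ d) {μ : E d → ℝ} {c C : ℝ} (hμ : IsNm μ c C) {τ : Edge d → ℝ}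
    (hτ : ∀ e, 0 ≤ τ e) {κ : ℝ} (hκ : κ < 0)
    (h : ∀ᶠ t : ℝ in atTop, (t - t ^ κ) • limitShape (toRR μ) ⊆ wet τ t ∧
      wet τ t ⊆ (t + t ^ κ) • limitShape (toRR μ)) : False := by
  set i₀ : Fin d := ⟨0, hd⟩ with hi₀
  set e : E d := Pi.single i₀ 1 with he
  have he1 : ‖e‖ = 1 := by rw [he, Pi.norm_single]; simp
  have hμ1 : 0 < μ e := by
    have := hμ.lb e
    rw [he1, mul_one] at this
    exact hμ.cpos.trans_le this
  have hev : ∀ᶠ t : ℝ in atTop, t ^ κ ≤ μ e / 4 := by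
    have h1 : Tendsto (fun t : ℝ => t ^ κ) atTop (𝓝 0) := by
      have := tendsto_rpow_neg_atTop (y := -κ) (by linarith)
      simpa using this
    exact h1.eventually_le_const (by positivity)
  obtain ⟨t₀, ht₀⟩ := eventually_atTop.1 ((shapeB_incl hμ (by linarith) h).and hev)
  obtain ⟨k, hk⟩ := exists_nat_gt ((t₀ + t₀ ^ κ) / μ e)
  have h00 := ht₀ t₀ le_rfl
  have h01 : 1 ≤ t₀ := h00.1.1
  have hpos : 0 < t₀ ^ κ := Real.rpow_pos_of_pos (by linarith) _
  rw [div_lt_iff₀ hμ1] at hk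
  set v : V d := Pi.single i₀ (k : ℤ) with hv
  have hk0 : 0 < (k : ℝ) := by
    by_contra hcon
    push Not at hcon
    have := mul_nonpos_of_nonpos_of_nonneg hcon hμ1.le
    linarith
  have hk1 : (1 : ℝ) ≤ k := by
    have : 0 < k := by exact_mod_cast hk0
    exact_mod_cast this
  have hval : ∀ s : ℝ, 0 ≤ s → μ (s • e) = s * μ e := fun s hs => by
    rw [hμ.smul, abs_of_nonneg hs]
  have hei : ∀ i, i ≠ i₀ → e i = 0 := fun i hi => by rw [he]; exact Pi.single_eq_of_ne hi _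
  have hei0 : e i₀ = 1 := by rw [he]; exact Pi.single_eq_same _ _
  have hvi : ∀ i, i ≠ i₀ → v i = 0 := fun i hi => by rw [hv]; exact Pi.single_eq_of_ne hi _
  have hvi0 : v i₀ = k := by rw [hv]; exact Pi.single_eq_same _ _
  have hclose : ∀ s : ℝ, |s - k| ≤ 1 / 2 → ∀ i, |(s • e) i - v i| ≤ 1 / 2 := by
    intro s hs i
    rcases eq_or_ne i i₀ with rfl | hi
    · rw [Pi.smul_apply, hei0, hvi0]; simpa using hs
    · rw [Pi.smul_apply, hei i hi, hvi i hi]; norm_num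
  -- the passage time is large
  have hs : t₀ < pt τ 0 v := by
    by_contra hcon
    push Not at hcon
    have h1 := h00.1.2.2.2 ((k : ℝ) • e) v hcon (hclose k (by norm_num))
    rw [hval _ hk0.le] at h1
    linarith
  have h1 := (ht₀ _ hs.le).1.2.2.2 (((k : ℝ) + 1 / 2) • e) v le_rfl
    (hclose _ (by rw [add_sub_cancel_left]; norm_num [abs_of_pos]))
  rw [hval _ (by linarith)] at h1
  have h2 := (ht₀ _ hs.le).2
  -- the passage time is small
  have hkt : t₀ ≤ (k : ℝ) * μ e := by linarith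
  have h3 := ht₀ _ hkt
  obtain ⟨w, hw1, hw2⟩ := h3.1.2.2.1 (((k : ℝ) - 1 / 4) • e) (by
    rw [hval _ (by linarith)]
    have := h3.2
    linarith)
  have hwv : w = v := by
    funext i
    rcases eq_or_ne i i₀ with rfl | hi
    · rw [hvi0]
      have h4 := hw2 i₀
      rw [Pi.smul_apply, hei0, smul_eq_mul, mul_one, abs_le] at h4
      have h5 : ((w i₀ : ℤ) : ℝ) < k + 1 := by linarith
      have h6 : (k : ℝ) - 1 < (w i₀ : ℤ) := by linarith
      have h7 : w i₀ < (k : ℤ) + 1 := by exact_mod_cast h5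
      have h8 : (k : ℤ) - 1 < w i₀ := by exact_mod_cast h6
      omega
    · rw [hvi i hi]
      have h4 := hw2 i
      rw [Pi.smul_apply, hei i hi, smul_zero] at h4
      exact (shapeB_int (a := 0) (b := w i) (by simpa using h4)).symm
  rw [hwv] at hw1
  linarith

end FPPX
end
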